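import Pool.Agent.MP_b5e119_nt.GB.Asy2

/-! The Hardy-Littlewood asymptotic with the full singular series. -/

set_option autoImplicit false

open Polynomial Finset Filter Topology
open scoped Classical BigOperators

noncomputable section
namespace Pool.Agent.HGB
open Pool.Agent.MP_a4a062_nt.C2

section
variable {k : Type*} [Field k] [Fintype k]

theorem sf_le (F : k[X]) {p : k[X]} (hp : Irreducible p) :
    ‖(1 - nu F p * ri p) / (1 - ri p) ^ 2 - 1‖ ≤
      2 * (if p ∣ F then ri p else 0) + 4 * ri p ^ 2 := by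
  have r0 := ri_pos p
  have r1 := ri_le hp
  have r3 : 0 < 1 - ri p := by linarith
  have r4 : 0 < (1 - ri p) ^ 2 := by positivity
  have r5 : 1 / 4 ≤ (1 - ri p) ^ 2 := by nlinarith
  rw [Real.norm_eq_abs, nu, div_sub_one r4.ne', abs_div, abs_of_pos r4, div_le_iff₀ r4, abs_le]
  have r6 := mul_pos r0 r0
  have r7 := mul_le_mul_of_nonneg_left r5 r6.le
  have r8 := mul_pos r0 r3
  have r9 := mul_pos r0 r4
  split_ifs <;> constructor <;> nlinarith

theorem sf_sum {F : k[X]} (hF : F ≠ 0) {z M : ℕ} {S : Finset k[X]} (hS : S ⊆ sp k M)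
    (hz : ∀ p ∈ S, z ≤ p.natDegree) :
    ∑ p ∈ S, ‖(1 - nu F p * ri p) / (1 - ri p) ^ 2 - 1‖ ≤ (2 * F.natDegree + 8) / 2 ^ z := by
  have q2 := two_le_qq (k := k)
  have a2 : ∑ p ∈ S, (if p ∣ F then ri p else 0) ≤ F.natDegree / 2 ^ z := by
    have hT : {p ∈ S | p ∣ F} ⊆ sp k M := (filter_subset _ _).trans hS
    have b1 := natDegree_le_of_dvd ((br_prod_dvd hT F).2 fun p hp => (mem_filter.1 hp).2) hF
    rw [natDegree_prod_of_monic _ _ fun p hp => (mem_sp.1 (hT hp)).1] at b1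
    have b2 := card_nsmul_le_sum _ (fun p : k[X] => p.natDegree) 1
      fun p hp => (mem_sp.1 (hT hp)).2.1.natDegree_pos
    rw [smul_eq_mul, mul_one] at b2
    have b3 : (#{p ∈ S | p ∣ F} : ℝ) ≤ F.natDegree := by exact_mod_cast b2.trans b1
    rw [← sum_filter]
    refine (sum_le_card_nsmul _ _ (1 / 2 ^ z) fun p hp => one_div_le_one_div_of_le (by positivity)
      ((pow_le_pow_right₀ one_le_two (hz p (mem_filter.1 hp).1)).trans
        (pow_le_pow_left₀ (by norm_num) q2 _))).trans ?_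
    rw [nsmul_eq_mul, mul_one_div]
    gcongr
  have a3 : ∑ p ∈ S, ri p ^ 2 ≤ 2 / 2 ^ z := by
    calc _ = ∑ p ∈ S, if z ≤ p.natDegree then ri p ^ 2 else 0 :=
          sum_congr rfl fun p hp => (if_pos (hz p hp)).symm
      _ ≤ ∑ p ∈ mle k (z + M), if z ≤ p.natDegree then ri p ^ 2 else 0 :=
          sum_le_sum_of_subset_of_nonneg (fun p hp => mem_mle.2
            ⟨(mem_sp.1 (hS hp)).1, (mem_sp.1 (hS hp)).2.2.trans (by omega)⟩)
            fun p _ _ => by split_ifs <;> positivity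
      _ ≤ ∑ i ∈ range (z + (M + 1)), if z ≤ i then (1 / 2 : ℝ) ^ i else 0 := by
          rw [sum_mle]
          refine sum_le_sum fun i _ => ?_
          rw [sum_congr rfl (g := fun _ => if z ≤ i then (1 / qq k ^ i) ^ 2 else 0)
            fun a ha => by rw [ri, (mem_mon.1 ha).2], sum_const, nsmul_eq_mul, card_mon]
          split_ifs
          · rw [sq, ← mul_assoc, mul_one_div_cancel (by positivity), one_mul, one_div_pow]
            gcongr
          · rw [mul_zero]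
      _ = (1 / 2) ^ z * ∑ i ∈ range (M + 1), (1 / 2 : ℝ) ^ i := by
          rw [sum_range_add, sum_eq_zero fun i hi => if_neg (not_le.2 (mem_range.1 hi)), zero_add,
            mul_sum]
          exact sum_congr rfl fun i _ => by rw [if_pos (by omega), pow_add]
      _ ≤ (1 / 2) ^ z * 2 := by gcongr; exact sum_geometric_two_le _
      _ = _ := by rw [one_div_pow]; ring
  refine (sum_le_sum fun p hp => sf_le F (mem_sp.1 (hS hp)).2.1).trans ?_
  rw [sum_add_distrib, ← mul_sum, ← mul_sum, add_div, mul_div_assoc,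
    show (8 : ℝ) / 2 ^ z = 4 * (2 / 2 ^ z) by ring]
  linarith

theorem ss_lim {F : k[X]} (hF : F ≠ 0) : Tendsto (SS F) atTop
    (𝓝 (∏' p : {p : k[X] // p.Monic ∧ Irreducible p}, (1 - nu F p * ri p.1) / (1 - ri p.1) ^ 2)) := by
  have sub : ∀ s : Finset {p : k[X] // p.Monic ∧ Irreducible p}, ∀ M,
      s.sup (fun p => p.1.natDegree) ≤ M → ∀ p ∈ s, p.1 ∈ sp k M := fun s M h p hp =>
    mem_sp.2 ⟨p.2.1, p.2.2, (le_sup (f := fun p => p.1.natDegree) hp).trans h⟩
  have a1 : Summable fun p : {p : k[X] // p.Monic ∧ Irreducible p} =>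
      ‖(1 - nu F p * ri p.1) / (1 - ri p.1) ^ 2 - 1‖ :=
    summable_of_sum_le (c := (2 * F.natDegree + 8) / 2 ^ 0) (fun _ => norm_nonneg _) fun s => by
      rw [← sum_image (f := fun p => ‖(1 - nu F p * ri p) / (1 - ri p) ^ 2 - 1‖)
        Subtype.val_injective.injOn]
      refine sf_sum (M := s.sup fun p => p.1.natDegree) hF (fun p hp => ?_)
        fun _ _ => Nat.zero_le _
      obtain ⟨p, h, rfl⟩ := mem_image.1 hp
      exact sub s _ le_rfl p h
  have a2 := (multipliable_one_add_of_summable a1).hasProd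
  simp only [add_sub_cancel] at a2
  have a3 : Tendsto (fun M => (sp k M).subtype fun p => p.Monic ∧ Irreducible p) atTop atTop :=
    tendsto_atTop.2 fun s => eventually_atTop.2 ⟨_, fun M hM p hp => mem_subtype.2 (sub s M hM p hp)⟩
  refine (Tendsto.comp a2 a3).congr fun M => ?_
  exact prod_subtype_of_mem (fun p => (1 - nu F p * ri p) / (1 - ri p) ^ 2)
    fun p hp => ⟨(mem_sp.1 hp).1, (mem_sp.1 hp).2.1⟩

theorem ss_inf {F : k[X]} (hF : F ≠ 0) {z : ℕ} (h : (2 * F.natDegree + 8 : ℝ) / 2 ^ z ≤ 1) :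
    |∏' p : {p : k[X] // p.Monic ∧ Irreducible p}, (1 - nu F p * ri p.1) / (1 - ri p.1) ^ 2 -
      SS F z| ≤ |SS F z| * (2 * ((2 * F.natDegree + 8) / 2 ^ z)) := by
  refine le_of_tendsto ((ss_lim hF).sub_const _).abs (eventually_atTop.2 ⟨z, fun M hz => ?_⟩)
  have hs : sp k z ⊆ sp k M := fun p hp => by
    obtain ⟨a, b, c⟩ := mem_sp.1 hp
    exact mem_sp.2 ⟨a, b, c.trans hz⟩
  set f : k[X] → ℝ := fun p => (1 - nu F p * ri p) / (1 - ri p) ^ 2 - 1 with hf
  have e : SS F M = (∏ p ∈ sp k M \ sp k z, (1 + f p)) * SS F z := by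
    rw [SS, SS, ← prod_sdiff hs]
    simp only [hf, add_sub_cancel]
  have a4 : ∑ p ∈ sp k M \ sp k z, ‖f p‖ ≤ (2 * F.natDegree + 8) / 2 ^ z :=
    sf_sum hF sdiff_subset fun p hp => not_lt.1 fun h => (mem_sdiff.1 hp).2
      (mem_sp.2 ⟨(mem_sp.1 (mem_sdiff.1 hp).1).1, (mem_sp.1 (mem_sdiff.1 hp).1).2.1, h.le⟩)
  have a5 : 0 ≤ ∑ p ∈ sp k M \ sp k z, ‖f p‖ := sum_nonneg fun _ _ => norm_nonneg _
  have a6 := norm_prod_one_add_sub_one_le (sp k M \ sp k z) f
  have a7 := Real.abs_exp_sub_one_le (x := ∑ p ∈ sp k M \ sp k z, ‖f p‖)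
    (by rw [abs_of_nonneg a5]; linarith)
  rw [abs_of_nonneg a5] at a7
  rw [e, ← sub_one_mul, abs_mul, mul_comm]
  exact mul_le_mul_of_nonneg_left (a6.trans ((le_abs_self _).trans (a7.trans (by linarith))))
    (abs_nonneg _)

theorem top4 (h : HIV k) (h1 : HM1 k) (h2 : HM2 k) {ε : ℝ} (ε0 : 0 < ε) :
    ∀ᶠ m : ℕ in atTop, ∀ (n : ℕ) (F : k[X]), F ≠ 0 → F.natDegree ≤ m + 1 → m ≤ n → n ≤ m + 1 →
      (∀ g ∈ mon k m, F - g ∈ mon k n) → Even2 k F →
      |(n : ℝ) * m * #{g ∈ prs k m | Irreducible (F - g)} / qq k ^ m /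
        (∏' p : {p : k[X] // p.Monic ∧ Irreducible p},
          (1 - nu F p * ri p.1) / (1 - ri p.1) ^ 2) - 1| ≤ ε := by
  filter_upwards [top3 h h1 h2 (by positivity : 0 < ε / 4), cel_poly (96 * (1 + 1 / ε)) 1,
    eventually_ge_atTop 1] with m hm hP m1 n F a1 a0 a2 a3 a4 a5
  have b0 := hm n F a1 a2 a3 a4 a5
  have b1 := (Real.exp_pos _).trans_le (ss_ge a5 m)
  have c1 : (F.natDegree : ℝ) ≤ m + 1 := by exact_mod_cast a0
  have c2 : (1 : ℝ) ≤ m := by exact_mod_cast m1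
  have c3 : (2 * F.natDegree + 8 : ℝ) / 2 ^ m * (1 + 1 / ε) ≤ 1 / 8 := by
    have : (2 * F.natDegree + 8 : ℝ) * (1 + 1 / ε) ≤ 12 * m * (1 + 1 / ε) := by
      gcongr
      linarith
    rw [div_mul_eq_mul_div, div_le_iff₀ (by positivity)]
    linarith
  have c0 : 0 ≤ (2 * F.natDegree + 8 : ℝ) / 2 ^ m := by positivity
  have c4 : (2 * F.natDegree + 8 : ℝ) / 2 ^ m ≤ 1 / 8 :=
    (le_mul_of_one_le_right c0 (le_add_of_nonneg_right (by positivity))).trans c3
  have c5 : (2 * F.natDegree + 8 : ℝ) / 2 ^ m ≤ ε / 8 := by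
    have := (mul_le_mul_of_nonneg_left (by linarith : 1 / ε ≤ 1 + 1 / ε) c0).trans c3
    rw [mul_one_div, div_le_iff₀ ε0] at this
    linarith
  have b2 := ss_inf a1 (z := m) (by linarith)
  rw [div_sub_one b1.ne', abs_div, abs_of_pos b1, div_le_iff₀ b1] at b0
  rw [abs_of_pos b1] at b2
  have d1 := abs_le.1 b0
  have d2 := abs_le.1 (b2.trans (mul_le_mul_of_nonneg_left (mul_le_mul_of_nonneg_left c4 zero_le_two)
    b1.le))
  have d3 := abs_le.1 (b2.trans (mul_le_mul_of_nonneg_left (mul_le_mul_of_nonneg_left c5 zero_le_two)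
    b1.le))
  generalize ∏' p : {p : k[X] // p.Monic ∧ Irreducible p},
    (1 - nu F p * ri p.1) / (1 - ri p.1) ^ 2 = T at *
  have T0 : 0 < T := by linarith
  have d4 := mul_le_mul_of_nonneg_left (by linarith : SS F m / 2 ≤ T) ε0.le
  rw [div_sub_one T0.ne', abs_div, abs_of_pos T0, div_le_iff₀ T0, abs_le]
  constructor <;> linarith

end

theorem asy_full (k : Type*) [Field k] [Finite k]
    (h : ∀ [Fintype k], HIV k ∧ HM1 k ∧ HM2 k) (ε : ℝ) (hε : 0 < ε) :
    ∃ n₀ : ℕ, ∀ (n : ℕ) (F : k[X]), n₀ ≤ n → F.Monic → F.natDegree = n + 1 →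
      (Nat.card k = 2 → X * (X + 1) ∣ F) →
      |(n : ℝ) * (n + 1) *
          Nat.card {P : k[X] // P.Monic ∧ P.natDegree = n ∧ Irreducible P ∧ Irreducible (F - P)} /
          (Nat.card k : ℝ) ^ n /
          (∏' p : {p : k[X] // p.Monic ∧ Irreducible p},
            (1 - (if p.1 ∣ F then 1 else 2) / (Nat.card k : ℝ) ^ p.1.natDegree) /
              (1 - 1 / (Nat.card k : ℝ) ^ p.1.natDegree) ^ 2) - 1| ≤ ε := by
  let _ := Fintype.ofFinite k
  obtain ⟨n₀, H⟩ := eventually_atTop.1 (top4 h.1 h.2.1 h.2.2 hε)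
  refine ⟨n₀, fun n F hn h1 h2 h3 => ?_⟩
  have a := H n hn (n + 1) F h1.ne_zero h2.le (by omega) le_rfl (fun g hg => by
    obtain ⟨b1, b2⟩ := mem_mon.1 hg
    refine mem_mon.2 ⟨h1.sub_of_left (degree_lt_degree (by omega)), ?_⟩
    rw [natDegree_sub_eq_left_of_natDegree_lt (by omega), h2])
    fun b => h3 (Nat.card_eq_fintype_card.trans b)
  rw [Nat.subtype_card {g ∈ prs k n | Irreducible (F - g)}
    (fun g => by simp only [prs, mem_filter, mem_mon, and_assoc]), Nat.card_eq_fintype_card,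
    mul_comm (n : ℝ)]
  simpa only [nu, ri, qq, mul_one_div, Nat.cast_succ] using a

end Pool.Agent.HGB
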