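import Pool.Agent.MP_a4a062_nt.C2.P1

/-! Moments of the divisor function and Brun's pure sieve weight over `k[X]`. -/

set_option autoImplicit false

open Polynomial Finset Filter
open scoped Classical BigOperators

noncomputable section
namespace Pool.Agent.HGB

open Pool.Agent.MP_a4a062_nt.C2

section Defs
variable (k : Type*) [Field k] [Fintype k]

/-- Monic polynomials of degree at most `n`. -/
def mle (n : ℕ) : Finset k[X] := (range (n + 1)).biUnion (mon k)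

/-- Monic primes of degree at most `z`. -/
def sp (z : ℕ) : Finset k[X] := {p ∈ mle k z | Irreducible p}

/-- The moduli of Brun's pure sieve. -/
def bset (z m : ℕ) : Finset k[X] :=
  {S ∈ (sp k z).powerset | #S ≤ 2 * m}.image fun S => ∏ p ∈ S, p

variable {k}

/-- The monic divisors. -/
def dv (f : k[X]) : Finset k[X] := {d ∈ mle k f.natDegree | d ∣ f}

/-- The number of monic divisors. -/
def nd (f : k[X]) : ℝ := #(dv f)

/-- No prime factor of degree at most `z`. -/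
def Rough (z : ℕ) (f : k[X]) : Prop := ∀ p : k[X], Irreducible p → p ∣ f → z < p.natDegree

/-- Brun's weight. -/
def brun (z m : ℕ) (f : k[X]) : ℝ := ∑ e ∈ bset k z m, if e ∣ f then lam e else 0

end Defs

variable {k : Type*} [Field k] [Fintype k]

theorem mem_mle {n : ℕ} {a : k[X]} : a ∈ mle k n ↔ a.Monic ∧ a.natDegree ≤ n := by
  unfold mle
  simp only [mem_biUnion, mem_range, mem_mon]
  exact ⟨fun ⟨_, h1, h2, h3⟩ => ⟨h2, by omega⟩, fun ⟨h1, h2⟩ => ⟨_, by omega, h1, rfl⟩⟩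

theorem sum_mle (n : ℕ) (G : k[X] → ℝ) :
    ∑ a ∈ mle k n, G a = ∑ i ∈ range (n + 1), ∑ a ∈ mon k i, G a := by
  refine sum_biUnion fun a _ b _ hab => ?_
  rw [Function.onFun, disjoint_left]
  exact fun π ha hb => hab ((mem_mon.1 ha).2.symm.trans (mem_mon.1 hb).2)

theorem card_mle (n : ℕ) : (#(mle k n) : ℝ) ≤ qq k ^ (n + 1) := by
  have h2 := two_le_qq (k := k)
  have h := sum_mle (k := k) n fun _ => 1
  simp only [sum_const, nsmul_eq_mul, mul_one, card_mon] at h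
  rw [h]
  clear h
  induction n with
  | zero => simp; linarith
  | succ n ih =>
    rw [sum_range_succ, pow_succ (qq k) (n + 1)]
    nlinarith [pow_pos (by linarith : 0 < qq k) (n + 1)]

theorem mem_sp {z : ℕ} {p : k[X]} : p ∈ sp k z ↔ p.Monic ∧ Irreducible p ∧ p.natDegree ≤ z := by
  unfold sp
  rw [mem_filter, mem_mle]
  tauto

theorem mem_dv {f d : k[X]} (hf : f ≠ 0) : d ∈ dv f ↔ d.Monic ∧ d ∣ f := by
  unfold dv
  rw [mem_filter, mem_mle]
  exact ⟨fun h => ⟨h.1.1, h.2⟩, fun h => ⟨⟨h.1, natDegree_le_of_dvd h.2 hf⟩, h.2⟩⟩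

theorem one_le_nd (f : k[X]) : 1 ≤ nd f := by
  have h : (1 : k[X]) ∈ dv f := mem_filter.2 ⟨mem_mle.2 ⟨monic_one, by simp⟩, one_dvd _⟩
  unfold nd
  exact_mod_cast card_pos.2 ⟨1, h⟩

theorem nd_nonneg (f : k[X]) : 0 ≤ nd f := Nat.cast_nonneg _

theorem nd_mono {a f : k[X]} (hf : f ≠ 0) (h : a ∣ f) : nd a ≤ nd f := by
  have h1 : dv a ⊆ dv f := fun d hd =>
    (mem_dv hf).2 ⟨(mem_mle.1 (mem_filter.1 hd).1).1, dvd_trans (mem_filter.1 hd).2 h⟩
  unfold nd
  exact_mod_cast card_le_card h1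

theorem nd_mul_le {a b : k[X]} (ha : a ≠ 0) (hb : b ≠ 0) : nd (a * b) ≤ nd a * nd b := by
  unfold nd
  have h : dv (a * b) ⊆ image₂ (· * ·) (dv a) (dv b) := fun d hd => by
    obtain ⟨hm, hd⟩ := (mem_dv (mul_ne_zero ha hb)).1 hd
    obtain ⟨u, v, hu, hv, rfl⟩ := exists_dvd_and_dvd_of_dvd_mul hd
    have hu0 : u ≠ 0 := left_ne_zero_of_mul hm.ne_zero
    have hv0 : v ≠ 0 := right_ne_zero_of_mul hm.ne_zero
    refine mem_image₂.2 ⟨normalize u, (mem_dv ha).2 ⟨monic_normalize hu0,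
      normalize_dvd_iff.2 hu⟩, normalize v, (mem_dv hb).2 ⟨monic_normalize hv0,
      normalize_dvd_iff.2 hv⟩, ?_⟩
    rw [← normalize_mul, hm.normalize_eq_self]
  exact_mod_cast (card_le_card h).trans (card_image₂_le _ _ _)

/-- Sums over factorisations. -/
theorem sum_dv (n : ℕ) (G : k[X] → k[X] → ℝ) :
    ∑ f ∈ mon k n, ∑ a ∈ dv f, G a (f /ₘ a) =
      ∑ i ∈ range (n + 1), ∑ a ∈ mon k i, ∑ b ∈ mon k (n - i), G a b := by
  have e : ∑ i ∈ range (n + 1), ∑ a ∈ mon k i, ∑ b ∈ mon k (n - i), G a b =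
      ∑ a ∈ mle k n, ∑ b ∈ mon k (n - a.natDegree), G a b := by
    rw [sum_mle]
    exact sum_congr rfl fun i _ => sum_congr rfl fun a ha => by rw [(mem_mon.1 ha).2]
  rw [e, sum_sigma', sum_sigma']
  refine sum_bij' (fun x _ => ⟨x.2, x.1 /ₘ x.2⟩) (fun x _ => ⟨x.1 * x.2, x.1⟩) ?_ ?_ ?_ ?_ ?_
  · rintro ⟨f, a⟩ h
    simp only [mem_sigma] at h ⊢
    obtain ⟨hf, rfl⟩ := mem_mon.1 h.1
    obtain ⟨ha, b, rfl⟩ := (mem_dv hf.ne_zero).1 h.2
    have hb := ha.of_mul_monic_left hf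
    rw [mul_divByMonic_cancel_left _ ha, mem_mle, mem_mon, ha.natDegree_mul hb]
    exact ⟨⟨ha, by omega⟩, hb, by omega⟩
  · rintro ⟨a, b⟩ h
    simp only [mem_sigma] at h ⊢
    obtain ⟨ha, h1⟩ := mem_mle.1 h.1
    obtain ⟨hb, h2⟩ := mem_mon.1 h.2
    exact ⟨mem_mon.2 ⟨ha.mul hb, by rw [ha.natDegree_mul hb]; omega⟩,
      (mem_dv (ha.mul hb).ne_zero).2 ⟨ha, dvd_mul_right _ _⟩⟩
  · rintro ⟨f, a⟩ h
    simp only [mem_sigma] at h
    obtain ⟨ha, b, rfl⟩ := (mem_dv (mem_mon.1 h.1).1.ne_zero).1 h.2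
    simp only [mul_divByMonic_cancel_left _ ha]
  · rintro ⟨a, b⟩ h
    simp only [mem_sigma] at h
    simp only [mul_divByMonic_cancel_left _ (mem_mle.1 h.1).1]
  · rintro ⟨f, a⟩ _
    rfl

/-- Moments of the divisor function. -/
theorem sum_nd_pow (j : ℕ) : ∀ n : ℕ,
    ∑ f ∈ mon k n, nd f ^ j ≤ ((n : ℝ) + 1) ^ (2 ^ j - 1) * qq k ^ n := by
  have h2 := two_le_qq (k := k)
  induction j with
  | zero => intro n; simp [card_mon]
  | succ j ih =>
    intro n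
    have h1 : ∑ f ∈ mon k n, nd f ^ (j + 1) ≤
        ∑ f ∈ mon k n, ∑ a ∈ dv f, nd a ^ j * nd (f /ₘ a) ^ j := by
      refine sum_le_sum fun f hf => ?_
      have hf0 := (mem_mon.1 hf).1.ne_zero
      rw [pow_succ', show nd f * nd f ^ j = ∑ _a ∈ dv f, nd f ^ j by
        rw [sum_const, nsmul_eq_mul]; rfl]
      refine sum_le_sum fun a ha => ?_
      obtain ⟨hm, b, rfl⟩ := (mem_dv hf0).1 ha
      rw [mul_divByMonic_cancel_left _ hm, ← mul_pow]
      exact pow_le_pow_left₀ (nd_nonneg _) (nd_mul_le hm.ne_zero (right_ne_zero_of_mul hf0)) _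
    rw [sum_dv n fun a b => nd a ^ j * nd b ^ j] at h1
    refine h1.trans ((sum_le_card_nsmul _ _
      ((((n : ℝ) + 1) ^ (2 ^ j - 1)) ^ 2 * qq k ^ n) fun i hi => ?_).trans (le_of_eq ?_))
    · rw [← sum_mul_sum]
      have hi' : i ≤ n := by rw [mem_range] at hi; omega
      have a1 : ((i : ℝ) + 1) ^ (2 ^ j - 1) ≤ ((n : ℝ) + 1) ^ (2 ^ j - 1) := by
        gcongr
      have a2 : (((n - i : ℕ) : ℝ) + 1) ^ (2 ^ j - 1) ≤ ((n : ℝ) + 1) ^ (2 ^ j - 1) := by
        gcongr; omega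
      calc _ ≤ (((n : ℝ) + 1) ^ (2 ^ j - 1) * qq k ^ i) *
            (((n : ℝ) + 1) ^ (2 ^ j - 1) * qq k ^ (n - i)) :=
            mul_le_mul ((ih i).trans (by gcongr)) ((ih (n - i)).trans (by gcongr))
              (sum_nonneg fun _ _ => pow_nonneg (nd_nonneg _) _) (by positivity)
        _ = _ := by
            rw [show qq k ^ n = qq k ^ i * qq k ^ (n - i) by rw [← pow_add]; congr 1; omega]
            ring
    · rw [card_range, nsmul_eq_mul, ← pow_mul, ← mul_assoc, Nat.cast_succ, ← pow_succ']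
      congr 2
      have := Nat.one_le_two_pow (n := j)
      rw [pow_succ]
      omega

omit [Fintype k] in
theorem rough_mul {z : ℕ} {a b : k[X]} : Rough z (a * b) ↔ Rough z a ∧ Rough z b :=
  ⟨fun h => ⟨fun p hp hd => h p hp (hd.mul_right _), fun p hp hd => h p hp (hd.mul_left _)⟩,
    fun h p hp hd => (hp.prime.dvd_or_dvd hd).elim (h.1 p hp) (h.2 p hp)⟩

theorem rough_iff {z : ℕ} {f : k[X]} : Rough z f ↔ ∀ p ∈ sp k z, ¬ p ∣ f := by
  refine ⟨fun h p hp hd => ?_, fun h p hp hd => ?_⟩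
  · obtain ⟨-, h2, h3⟩ := mem_sp.1 hp
    exact absurd (h p h2 hd) (by omega)
  · by_contra hz
    have ha := normalize_associated p
    refine h (normalize p) (mem_sp.2 ⟨monic_normalize hp.ne_zero, ha.symm.irreducible hp, ?_⟩)
      (normalize_dvd_iff.2 hd)
    rw [natDegree_eq_of_degree_eq (degree_eq_degree_of_associated ha)]
    omega

theorem br_dvd {z : ℕ} {S : Finset k[X]} (hS : S ⊆ sp k z) {p : k[X]} (hp : p ∈ sp k z) :
    p ∣ ∏ r ∈ S, r ↔ p ∈ S := by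
  refine ⟨fun h => ?_, fun h => dvd_prod_of_mem _ h⟩
  obtain ⟨h1, h2, -⟩ := mem_sp.1 hp
  obtain ⟨r, hr, hd⟩ := (h2.prime.dvd_finsetProd_iff _).1 h
  obtain ⟨h3, h4, -⟩ := mem_sp.1 (hS hr)
  rwa [eq_of_monic_of_associated h1 h3 (h2.associated_of_dvd h4 hd)]

theorem br_inj {z : ℕ} {S T : Finset k[X]} (hS : S ⊆ sp k z) (hT : T ⊆ sp k z)
    (h : ∏ r ∈ S, r = ∏ r ∈ T, r) : S = T := by
  ext p
  exact ⟨fun hp => (br_dvd hT (hS hp)).1 (h ▸ dvd_prod_of_mem _ hp),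
    fun hp => (br_dvd hS (hT hp)).1 (h ▸ dvd_prod_of_mem _ hp)⟩

theorem br_cop {z : ℕ} {a b : k[X]} (ha : a ∈ sp k z) (hb : b ∈ sp k z) (hab : a ≠ b) :
    IsCoprime a b := by
  obtain ⟨h1, h2, -⟩ := mem_sp.1 ha
  obtain ⟨h3, h4, -⟩ := mem_sp.1 hb
  exact h2.coprime_iff_not_dvd.2 fun hd =>
    hab (eq_of_monic_of_associated h1 h3 (h2.associated_of_dvd h4 hd))

theorem br_prod_dvd {z : ℕ} {S : Finset k[X]} (hS : S ⊆ sp k z) (f : k[X]) :
    ∏ r ∈ S, r ∣ f ↔ ∀ p ∈ S, p ∣ f :=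
  ⟨fun h _ hp => (dvd_prod_of_mem _ hp).trans h,
    fun h => Finset.prod_dvd_of_coprime (fun _ ha _ hb hab => br_cop (hS ha) (hS hb) hab) h⟩

theorem br_monic {z : ℕ} {S : Finset k[X]} (hS : S ⊆ sp k z) : (∏ r ∈ S, r).Monic :=
  monic_prod_of_monic _ _ fun _ h => (mem_sp.1 (hS h)).1

theorem br_lam {z : ℕ} {S : Finset k[X]} (hS : S ⊆ sp k z) : lam (∏ r ∈ S, r) = (-1) ^ #S := by
  induction S using Finset.induction_on with
  | empty => simp [lam]
  | insert a S ha ih =>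
    have h1 := mem_sp.1 (hS (mem_insert_self _ _))
    have hS' := (subset_insert a S).trans hS
    rw [prod_insert ha, lam_mul h1.1.ne_zero (br_monic hS').ne_zero, ih hS',
      card_insert_of_notMem ha, pow_succ', lam,
      UniqueFactorizationMonoid.card_factors_of_irreducible h1.2.1, pow_one]

/-- The moduli are monic, squarefree, of small degree and made of small primes. -/
theorem bset_spec {z m : ℕ} {e : k[X]} (he : e ∈ bset k z m) : e.Monic ∧ Squarefree e ∧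
    e.natDegree ≤ 2 * m * z ∧ ∀ p : k[X], Irreducible p → p ∣ e → p.natDegree ≤ z := by
  obtain ⟨S, hS, rfl⟩ := mem_image.1 he
  obtain ⟨hS, hc⟩ := mem_filter.1 hS
  rw [mem_powerset] at hS
  refine ⟨br_monic hS, ?_, ?_, fun p hp hd => ?_⟩
  · exact Finset.squarefree_prod_of_pairwise_isCoprime
      (fun _ ha _ hb hab => (br_cop (hS ha) (hS hb) hab).isRelPrime)
      fun _ h => (mem_sp.1 (hS h)).2.1.squarefree
  · rw [natDegree_prod_of_monic _ _ fun _ h => (mem_sp.1 (hS h)).1]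
    exact (sum_le_card_nsmul _ _ z fun _ h => (mem_sp.1 (hS h)).2.2).trans
      (Nat.mul_le_mul_right _ hc)
  · obtain ⟨r, hr, hd⟩ := (hp.prime.dvd_finsetProd_iff _).1 hd
    exact (natDegree_le_of_dvd hd (mem_sp.1 (hS hr)).1.ne_zero).trans (mem_sp.1 (hS hr)).2.2

theorem card_bset (z m : ℕ) : (#(bset k z m) : ℝ) ≤ qq k ^ (2 * m * z + 1) := by
  refine le_trans ?_ (card_mle _)
  exact_mod_cast card_le_card fun e he => mem_mle.2 ⟨(bset_spec he).1, (bset_spec he).2.2.1⟩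

theorem brun_eq_sum (z m : ℕ) (f : k[X]) : brun z m f =
    ∑ S ∈ {p ∈ sp k z | p ∣ f}.powerset, if #S ≤ 2 * m then (-1 : ℝ) ^ #S else 0 := by
  unfold brun bset
  rw [sum_image fun S hS T hT h => br_inj (mem_powerset.1 (mem_filter.1 hS).1)
    (mem_powerset.1 (mem_filter.1 hT).1) h, ← sum_filter, ← sum_filter]
  refine sum_congr ?_ fun S hS => br_lam (z := z) fun p hp =>
    (mem_filter.1 (mem_powerset.1 (mem_filter.1 hS).1 hp)).1
  ext S
  simp only [mem_filter, mem_powerset]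
  refine ⟨fun ⟨⟨h1, h2⟩, h3⟩ => ⟨fun p hp => mem_filter.2 ⟨h1 hp, (br_prod_dvd h1 f).1 h3 p hp⟩,
    h2⟩, fun ⟨h1, h2⟩ => ?_⟩
  have h3 : S ⊆ sp k z := fun p hp => (mem_filter.1 (h1 hp)).1
  exact ⟨⟨h3, h2⟩, (br_prod_dvd h3 f).2 fun p hp => (mem_filter.1 (h1 hp)).2⟩

theorem br_alt (w M : ℕ) : ∑ l ∈ range (w + 1 + 1),
    (w + 1).choose l • (if l ≤ M then (-1 : ℝ) ^ l else 0) = (-1) ^ M * w.choose M := by
  have h := Int.alternating_sum_range_choose_eq_choose (n := w) (m := M)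
  have h' : ∑ l ∈ range (M + 1), (-1 : ℝ) ^ l * (w + 1).choose l = (-1) ^ M * w.choose M := by
    exact_mod_cast h
  rw [← h']
  have e1 : ∑ l ∈ range (w + 1 + 1), (w + 1).choose l • (if l ≤ M then (-1 : ℝ) ^ l else 0) =
      ∑ l ∈ range (w + 1 + 1 + (M + 1)), (w + 1).choose l • (if l ≤ M then (-1 : ℝ) ^ l else 0) :=
    sum_subset (range_mono (by omega)) fun l _ hl => by
      rw [Nat.choose_eq_zero_of_lt (by rw [mem_range] at hl; omega), zero_smul]
  rw [e1]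
  refine (sum_subset (range_mono (by omega)) fun l _ hl => ?_).symm.trans
    (sum_congr rfl fun l hl => ?_)
  · rw [if_neg (by rw [mem_range] at hl; omega), smul_zero]
  · rw [if_pos (by rw [mem_range] at hl; omega), nsmul_eq_mul, mul_comm]

theorem two_pow_le_nd {z : ℕ} {f : k[X]} (hf : f ≠ 0) :
    (2 : ℝ) ^ #{p ∈ sp k z | p ∣ f} ≤ nd f := by
  have h : #({p ∈ sp k z | p ∣ f}.powerset) ≤ #(dv f) := by
    have hs : ∀ S ∈ {p ∈ sp k z | p ∣ f}.powerset, S ⊆ sp k z := fun S hS p hp =>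
      (mem_filter.1 (mem_powerset.1 hS hp)).1
    refine card_le_card_of_injOn (fun S => ∏ r ∈ S, r) (fun S hS => ?_)
      fun S hS T hT h => br_inj (hs S hS) (hs T hT) h
    exact (mem_dv hf).2 ⟨br_monic (hs S hS), (br_prod_dvd (hs S hS) f).2 fun p hp =>
      (mem_filter.1 (mem_powerset.1 hS hp)).2⟩
  rw [card_powerset] at h
  unfold nd
  exact_mod_cast h

theorem brun_of_rough {z : ℕ} (m : ℕ) {f : k[X]} (h : Rough z f) : brun z m f = 1 := by
  rw [brun_eq_sum, filter_eq_empty_iff.2 (rough_iff.1 h)]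
  simp

theorem brun_of_not {z : ℕ} (m : ℕ) {f : k[X]} (h : ¬ Rough z f) :
    ∃ w, #{p ∈ sp k z | p ∣ f} = w + 1 ∧ brun z m f = w.choose (2 * m) := by
  have h0 : #{p ∈ sp k z | p ∣ f} ≠ 0 := fun e =>
    h (rough_iff.2 (filter_eq_empty_iff.1 (card_eq_zero.1 e)))
  obtain ⟨w, hw⟩ := Nat.exists_eq_succ_of_ne_zero h0
  refine ⟨w, hw, ?_⟩
  rw [brun_eq_sum, sum_powerset_apply_card fun l => if l ≤ 2 * m then (-1 : ℝ) ^ l else 0, hw,
    br_alt, pow_mul]
  simp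

theorem brun_ge (z m : ℕ) (f : k[X]) : (if Rough z f then (1 : ℝ) else 0) ≤ brun z m f := by
  split_ifs with h
  · exact (brun_of_rough m h).ge
  · obtain ⟨w, -, e⟩ := brun_of_not m h
    rw [e]; positivity

theorem brun_nonneg (z m : ℕ) (f : k[X]) : 0 ≤ brun z m f :=
  le_trans (by split_ifs <;> norm_num) (brun_ge z m f)

theorem brun_le_nd (z m : ℕ) {f : k[X]} (hf : f ≠ 0) : brun z m f ≤ nd f := by
  by_cases h : Rough z f
  · rw [brun_of_rough m h]; exact one_le_nd f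
  · obtain ⟨w, hw, e⟩ := brun_of_not m h
    refine le_trans ?_ (two_pow_le_nd (z := z) hf)
    rw [e, hw]
    exact_mod_cast (Nat.choose_le_two_pow w _).trans (Nat.pow_le_pow_right two_pos (by omega))

/-- The pointwise error of Brun's weight. -/
theorem brun_sub_le (z m : ℕ) {f : k[X]} (hf : f ≠ 0) :
    brun z m f - (if Rough z f then (1 : ℝ) else 0) ≤ nd f ^ 2 / 4 ^ m := by
  split_ifs with h
  · rw [brun_of_rough m h, sub_self]; positivity
  · obtain ⟨w, hw, e⟩ := brun_of_not m h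
    have h1 := two_pow_le_nd (z := z) hf
    rw [e, sub_zero, le_div_iff₀ (by positivity)]
    rw [hw] at h1
    rcases lt_or_ge w (2 * m) with l | l
    · rw [Nat.choose_eq_zero_of_lt l]; simp only [Nat.cast_zero, zero_mul]; positivity
    · have a1 : (w.choose (2 * m) : ℝ) ≤ 2 ^ (w + 1) := by
        exact_mod_cast (Nat.choose_le_two_pow w _).trans (Nat.pow_le_pow_right two_pos (by omega))
      have a2 : (4 : ℝ) ^ m ≤ 2 ^ (w + 1) := by
        rw [show (4 : ℝ) = 2 ^ 2 by norm_num, ← pow_mul]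
        exact pow_le_pow_right₀ one_le_two (by omega)
      calc _ ≤ (2 : ℝ) ^ (w + 1) * 2 ^ (w + 1) := by gcongr
        _ ≤ nd f * nd f := mul_le_mul h1 h1 (by positivity) (nd_nonneg f)
        _ = _ := (sq _).symm

theorem abs_brun_sub_le (z m : ℕ) {f : k[X]} (hf : f ≠ 0) :
    |brun z m f - (if Rough z f then (1 : ℝ) else 0)| ≤ nd f ^ 2 / 4 ^ m := by
  rw [abs_of_nonneg (sub_nonneg.2 (brun_ge z m f))]
  exact brun_sub_le z m hf

end Pool.Agent.HGB
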