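import Pool.Agent.MP_a4a062_nt.C2.P1

/-! Products of `K` distinct primes of one degree. -/

set_option autoImplicit false

open Polynomial Finset Filter
open scoped Classical BigOperators

noncomputable section
namespace Pool.Agent.MP_b5e119_nt.GB
open Pool.Agent.MP_a4a062_nt.C2

variable {k : Type} [Field k] [Fintype k]

variable (k) in
/-- Products of `K` distinct monic primes of degree `y`. -/
def MMs (K y : ℕ) : Finset k[X] := (powersetCard K (prs k y)).image fun S => ∏ p ∈ S, p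

theorem mm_prs {y : ℕ} {p : k[X]} : p ∈ prs k y ↔ p.Monic ∧ p.natDegree = y ∧ Irreducible p := by
  simp only [prs, mem_filter, mem_mon, and_assoc]

theorem mm_mem {K y : ℕ} {M : k[X]} :
    M ∈ MMs k K y ↔ ∃ S ⊆ prs k y, #S = K ∧ ∏ p ∈ S, p = M := by
  simp only [MMs, mem_image, mem_powersetCard, and_assoc]

theorem mm_prod_mon {y : ℕ} {S : Finset k[X]} (hS : S ⊆ prs k y) :
    ∏ p ∈ S, p ∈ mon k (#S * y) := by
  have hm : ∀ p ∈ S, p.Monic := fun p hp => (mm_prs.1 (hS hp)).1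
  refine mem_mon.2 ⟨monic_prod_of_monic _ _ hm, ?_⟩
  rw [natDegree_prod_of_monic _ _ hm, sum_congr rfl fun p hp => (mm_prs.1 (hS hp)).2.1, sum_const,
    smul_eq_mul]

theorem mm_mon {K y : ℕ} {M : k[X]} (h : M ∈ MMs k K y) : M ∈ mon k (K * y) := by
  obtain ⟨S, hS, rfl, rfl⟩ := mm_mem.1 h
  exact mm_prod_mon hS

theorem mm_eq {y y' : ℕ} {p p' : k[X]} (hp : p ∈ prs k y) (hp' : p' ∈ prs k y') (h : p ∣ p') :
    p = p' :=
  eq_of_monic_of_associated (mm_prs.1 hp).1 (mm_prs.1 hp').1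
    ((mm_prs.1 hp).2.2.associated_of_dvd (mm_prs.1 hp').2.2 h)

theorem mm_coprime {y y' : ℕ} {p p' : k[X]} (hp : p ∈ prs k y) (hp' : p' ∈ prs k y') (h : p ≠ p') :
    IsCoprime p p' :=
  ((mm_prs.1 hp).2.2.coprime_iff_not_dvd).2 fun hd => h (mm_eq hp hp' hd)

theorem mm_dvd_prod {y : ℕ} {S : Finset k[X]} (hS : S ⊆ prs k y) {p : k[X]} (hp : Irreducible p)
    (h : p ∣ ∏ p ∈ S, p) : ∃ p' ∈ S, Associated p p' := by
  obtain ⟨p', h1, h2⟩ := (hp.prime.dvd_finsetProd_iff _).1 h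
  exact ⟨p', h1, hp.associated_of_dvd (mm_prs.1 (hS h1)).2.2 h2⟩

theorem mm_prime {K y : ℕ} {M p : k[X]} (h : M ∈ MMs k K y) (hp : Irreducible p) (hd : p ∣ M) :
    p.natDegree = y := by
  obtain ⟨S, hS, -, rfl⟩ := mm_mem.1 h
  obtain ⟨p', h1, h2⟩ := mm_dvd_prod hS hp hd
  rw [natDegree_eq_of_degree_eq (degree_eq_degree_of_associated h2), (mm_prs.1 (hS h1)).2.1]

theorem mm_filter {y : ℕ} {S : Finset k[X]} (hS : S ⊆ prs k y) :
    {p ∈ prs k y | p ∣ ∏ p ∈ S, p} = S := by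
  ext p
  rw [mem_filter]
  refine ⟨fun ⟨h1, h2⟩ => ?_, fun h => ⟨hS h, dvd_prod_of_mem _ h⟩⟩
  obtain ⟨p', h3, h4⟩ := mm_dvd_prod hS (mm_prs.1 h1).2.2 h2
  rwa [mm_eq h1 (hS h3) h4.dvd]

theorem mm_inj (K y : ℕ) : Set.InjOn (fun S : Finset k[X] => ∏ p ∈ S, p)
    (powersetCard K (prs k y) : Finset (Finset k[X])) := by
  intro S hS T hT h
  have h1 := (mem_powersetCard.1 (mem_coe.1 hS)).1
  have h2 := (mem_powersetCard.1 (mem_coe.1 hT)).1
  dsimp only at h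
  rw [← mm_filter h1, ← mm_filter h2, h]

theorem mm_card (K y : ℕ) : #(MMs k K y) = (#(prs k y)).choose K := by
  rw [MMs, card_image_of_injOn (mm_inj K y), card_powersetCard]

theorem mm_sum (K y : ℕ) (F : k[X] → ℝ) :
    ∑ M ∈ MMs k K y, F M = ∑ S ∈ powersetCard K (prs k y), F (∏ p ∈ S, p) := by
  rw [MMs, sum_image (mm_inj K y)]

theorem mm_prod_dvd {y : ℕ} {S : Finset k[X]} (hS : S ⊆ prs k y) {B : k[X]}
    (h : ∀ p ∈ S, p ∣ B) : ∏ p ∈ S, p ∣ B :=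
  Finset.prod_dvd_of_coprime (fun _ hp _ hp' hne => mm_coprime (hS hp) (hS hp') hne) h

theorem mm_cnt {y : ℕ} {B : k[X]} (hB : B ≠ 0) : #{p ∈ prs k y | p ∣ B} * y ≤ B.natDegree := by
  have hS : {p ∈ prs k y | p ∣ B} ⊆ prs k y := filter_subset _ _
  rw [← (mem_mon.1 (mm_prod_mon hS)).2]
  exact natDegree_le_of_dvd (mm_prod_dvd hS fun p hp => (mem_filter.1 hp).2) hB

theorem mm_cnt_div {y : ℕ} {B : k[X]} (hB : B ≠ 0) (hy : 0 < y) :
    #{p ∈ prs k y | p ∣ B} ≤ B.natDegree / y :=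
  (Nat.le_div_iff_mul_le hy).2 (mm_cnt hB)

theorem mm_w {K y : ℕ} {B : k[X]} (hB : B ≠ 0) (hy : 0 < y) :
    #{M ∈ MMs k K y | M ∣ B} ≤ 2 ^ (B.natDegree / y) := by
  have h1 : {M ∈ MMs k K y | M ∣ B} ⊆
      (powerset {p ∈ prs k y | p ∣ B}).image fun S => ∏ p ∈ S, p := by
    intro M hM
    obtain ⟨h2, h3⟩ := mem_filter.1 hM
    obtain ⟨S, hS, -, rfl⟩ := mm_mem.1 h2
    exact mem_image.2 ⟨S, mem_powerset.2 fun p hp =>
      mem_filter.2 ⟨hS hp, (dvd_prod_of_mem _ hp).trans h3⟩, rfl⟩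
  refine (card_le_card h1).trans (card_image_le.trans ?_)
  rw [card_powerset]
  exact Nat.pow_le_pow_right (by norm_num) (mm_cnt_div hB hy)

theorem mm_low {K y : ℕ} (hy : 0 < y) (h : 4 * K * y ≤ 2 ^ y) :
    (qq k ^ y / (4 * K * y)) ^ K ≤ (#(MMs k K y) : ℝ) := by
  rcases Nat.eq_zero_or_pos K with rfl | hK
  · simp [mm_card]
  have h1 := card_prs (k := k) hy
  have hq : (2 : ℝ) ^ y ≤ qq k ^ y := pow_le_pow_left₀ (by norm_num) two_le_qq y
  have hy' : (0 : ℝ) < y := by exact_mod_cast hy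
  have hK' : (0 : ℝ) < K := by exact_mod_cast hK
  have h' : (4 : ℝ) * K * y ≤ 2 ^ y := by exact_mod_cast h
  have h2 : (2 : ℝ) * K ≤ #(prs k y) := by
    by_contra h3
    push Not at h3
    nlinarith
  have h3 : 2 * K ≤ #(prs k y) := by exact_mod_cast h2
  have h4 : qq k ^ y / (4 * y) ≤ ((#(prs k y) + 1 - K : ℕ) : ℝ) := by
    rw [Nat.cast_sub (by omega), div_le_iff₀ (by positivity)]
    push_cast
    nlinarith
  have h5 := Nat.pow_le_choose (α := ℝ) K #(prs k y)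
  have h6 : ((K.factorial : ℕ) : ℝ) ≤ (K : ℝ) ^ K := by exact_mod_cast Nat.factorial_le_pow K
  have h0 : 0 ≤ qq k ^ y / (4 * y) := by
    have : (0 : ℝ) ≤ qq k ^ y := le_trans (by positivity) hq
    positivity
  rw [mm_card]
  refine le_trans ?_ h5
  rw [show qq k ^ y / (4 * K * y) = qq k ^ y / (4 * y) / K by field_simp, div_pow]
  exact div_le_div₀ (by positivity) (pow_le_pow_left₀ h0 h4 K) (by positivity) h6

/-- The mean value of the weight is at least `(4 K y)⁻¹ ^ K`. -/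
theorem mm_dl {K y : ℕ} (hy : 0 < y) (h : 4 * K * y ≤ 2 ^ y) :
    (1 / (4 * K * y : ℝ)) ^ K ≤ (#(MMs k K y) : ℝ) / qq k ^ (K * y) := by
  have hq : (0 : ℝ) < qq k := lt_of_lt_of_le (by norm_num) two_le_qq
  rw [le_div_iff₀ (by positivity), mul_comm K y, pow_mul, ← mul_pow, one_div_mul_eq_div]
  exact mm_low hy h

theorem mm_par {K D : ℕ} (h : (2 * K + 1) * (2 * K + 2) ≤ 2 * D) :
    K * (2 * D / (2 * K + 1)) ≤ D ∧ 2 * D / (2 * K + 1) ≤ 2 * (D - K * (2 * D / (2 * K + 1))) ∧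
      D - K * (2 * D / (2 * K + 1)) < 2 * D / (2 * K + 1) ∧ 2 * K + 2 ≤ 2 * D / (2 * K + 1) ∧
      (2 * K + 1) * (2 * D / (2 * K + 1)) ≤ 2 * D ∧
      2 * D < (2 * K + 1) * (2 * D / (2 * K + 1) + 1) ∧ D / (2 * D / (2 * K + 1)) ≤ K := by
  have h1 : (2 * K + 1) * (2 * D / (2 * K + 1)) ≤ 2 * D := Nat.mul_div_le _ _
  have h2 : 2 * D < (2 * K + 1) * (2 * D / (2 * K + 1) + 1) := Nat.lt_mul_div_succ _ (by omega)
  have h3 : 2 * K + 2 ≤ 2 * D / (2 * K + 1) :=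
    (Nat.le_div_iff_mul_le (by omega)).2 (by rwa [mul_comm])
  generalize 2 * D / (2 * K + 1) = y at h1 h2 h3 ⊢
  have h4 : D / y ≤ K := Nat.lt_succ_iff.1 ((Nat.div_lt_iff_lt_mul (by omega)).2 (by nlinarith))
  have e1 : (2 * K + 1) * y = 2 * (K * y) + y := by ring
  have e2 : (2 * K + 1) * (y + 1) = 2 * (K * y) + y + 2 * K + 1 := by ring
  refine ⟨by omega, by omega, by omega, h3, h1, h2, h4⟩

end Pool.Agent.MP_b5e119_nt.GB
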