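import Pool.Agent.MP_b5e119_nt.GB.Fibre
import Pool.Agent.MP_b5e119_nt.GB.MM1
import Pool.Agent.MP_b5e119_nt.GB.Brun48

/-! The fibre bounds for products of primes of one degree and Brun's weight. -/

set_option autoImplicit false

open Polynomial Finset Filter
open scoped Classical BigOperators

noncomputable section
namespace Pool.Agent.MP_b5e119_nt.GB
open Pool.Agent.MP_a4a062_nt.C2 Pool.Agent.MP_f0209c_nt.FF
open Pool.Agent.HGB (brun bset bset_spec card_bset)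

variable {k : Type} [Field k] [Fintype k]

theorem fp_mm {K y D l : ℕ} (h1 : (2 * K + 1) * y ≤ 2 * D) (h2 : D < (K + 1) * y) (h3 : 2 * y ≤ l) :
    ∀ M ∈ MMs k K y, M.Monic ∧ Squarefree M ∧ D ≤ M.natDegree + (D - K * y) ∧
      ∀ P, Irreducible P → P ∣ M → D - K * y < P.natDegree ∧ 2 * P.natDegree ≤ l := by
  intro M hM
  have e1 : (2 * K + 1) * y = 2 * (K * y) + y := by ring
  have e2 : (K + 1) * y = K * y + y := by ring
  refine ⟨(mem_mon.1 (mm_mon hM)).1, ?_, by rw [(mem_mon.1 (mm_mon hM)).2]; omega, fun P hP hd => ?_⟩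
  · obtain ⟨S, hS, -, rfl⟩ := mm_mem.1 hM
    exact Finset.squarefree_prod_of_pairwise_isCoprime
      (fun a ha b hb h => (mm_coprime (hS ha) (hS hb) h).isRelPrime)
      fun p hp => (mm_prs.1 (hS hp)).2.2.squarefree
  · rw [mm_prime hM hP hd]
    omega

theorem fp_bs (z m : ℕ) : ∀ e ∈ bset k z m, e ≠ 0 ∧ e.natDegree ≤ 2 * m * z ∧ |lam e| ≤ 1 :=
  fun e he => ⟨(bset_spec he).1.ne_zero, (bset_spec he).2.2.1, (abs_lam e).le⟩

theorem fp_pow {a b : ℕ} (h : a ≤ b) : 1 / qq k ^ b ≤ 1 / qq k ^ a := by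
  have q2 := two_le_qq (k := k)
  exact one_div_le_one_div_of_le (by positivity) (pow_le_pow_right₀ (by linarith) h)

theorem fp_end {c₀ : ℝ} (h0 : 0 ≤ c₀) (z m D s : ℕ) :
    (#(bset k z m) : ℝ) ^ 2 * (c₀ * ((2 * D + 1 : ℕ) : ℝ) * (1 / qq k ^ s)) ≤
      c₀ * (2 * D + 1) * (qq k ^ (4 * m * z + 2) / qq k ^ s) := by
  have q2 := two_le_qq (k := k)
  have h := pow_le_pow_left₀ (Nat.cast_nonneg _) (card_bset (k := k) z m) 2
  rw [← pow_mul, show (2 * m * z + 1) * 2 = 4 * m * z + 2 by ring] at h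
  refine (mul_le_mul_of_nonneg_right h (by positivity)).trans (le_of_eq ?_)
  push_cast
  ring

variable (k) [CharP k 2]

theorem fibp1 (K : ℕ) (hK : 1 ≤ K) : ∃ (N : ℕ) (c₀ : ℝ), 0 < N ∧ 0 ≤ c₀ ∧
    ∀ (β : k[X] → k[X]) (a d g v₁ w₁ v₂ w₂ : k[X]) (al de ka D τ l y s z m : ℕ),
      (∀ f, ∃ A, f = A ^ 2 + X * β f ^ 2) → a ∈ mon k al → d ∈ mon k de → g ∈ prs k ka →
      de + τ ≤ al → al + de + ka = 2 * D + 1 → Squarefree d → ¬ g ∣ d → IsCoprime a d →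
      ka + 2 * l ≤ τ + 1 → (2 * K + 1) * y ≤ 2 * D → D < (K + 1) * y → N * s ≤ y → y ≤ ka →
      2 * y ≤ l → 4 * m * z ≤ y →
      |𝔼 t ∈ box k τ, brun z m (v₁ + w₁ * t) * brun z m (v₂ + w₂ * t) *
        ((#{M ∈ MMs k K y | M ∣ β ((a + d * t) * d * g)} : ℝ) * mu (a + d * t))|
        ≤ c₀ * (2 * D + 1) * (qq k ^ (4 * m * z + 2) / qq k ^ s) := by
  obtain ⟨N, c₀, hN, h0, H⟩ := fibre1 (k := k) (2 * K + 2)
  refine ⟨2 * N, c₀, by omega, h0, fun β a d g v₁ w₁ v₂ w₂ al de ka D τ l y s z m hβ ha hd hg h1 h2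
    h3 h4 h5 h6 p1 p2 p3 p4 p5 p6 => le_trans ?_ (fp_end h0 z m D s)⟩
  have q2 := two_le_qq (k := k)
  have e1 : (2 * K + 1) * y = 2 * (K * y) + y := by ring
  have e2 : (K + 1) * y = K * y + y := by ring
  have e3 : y ≤ K * y := Nat.le_mul_of_pos_left _ hK
  have e4 : 2 * N * s = 2 * (s * N) := by ring
  have e5 : s ≤ s * N := Nat.le_mul_of_pos_right _ hN
  have e6 : 4 * m * z = 2 * (2 * m * z) := by ring
  refine H β a d g v₁ w₁ v₂ w₂ _ _ lam al de ka D _ τ l (D - K * y) _ _ hβ ha hd hg h1 h2 le_rfl h3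
    h4 h5 h6 (by omega) (fp_mm p1 p2 p5) ?_ (by omega) (fp_bs z m) (by omega) (by positivity)
    ((fp_pow (Nat.zero_le s)).trans (by simp)) ?_ (fp_pow (by omega))
  · have : (K + 1) * y ≤ (K + 1) * (2 * (D - K * y + 1)) := Nat.mul_le_mul_left _ (by omega)
    have e7 : (2 * K + 2) * (D - K * y + 1) = (K + 1) * (2 * (D - K * y + 1)) := by ring
    omega
  · rw [div_pow, one_pow, ← pow_mul]
    exact fp_pow (by omega)

theorem fibp2 (K : ℕ) (hK : 1 ≤ K) : ∃ (N : ℕ) (c₀ : ℝ), 0 < N ∧ 0 ≤ c₀ ∧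
    ∀ (β : k[X] → k[X]) (F a₁ a₂ b o d₁ d₂ g : k[X]) (al de ka D τ l y s z m : ℕ),
      (∀ f, ∃ A, f = A ^ 2 + X * β f ^ 2) → a₁ ∈ mon k al → a₂ ∈ mon k al → d₁ ∈ mon k de →
      d₂ ∈ mon k de → g ∈ prs k ka → de + τ ≤ al → al + de + ka = 2 * D + 1 → Squarefree d₁ →
      Squarefree d₂ → IsCoprime d₁ F → IsCoprime d₂ F → a₁ * b + o * d₁ = F →
      a₂ * b + o * d₂ = F → ¬ g ∣ d₁ * d₂ * F * (d₁ - d₂) →
      ka + 2 * l ≤ τ + 1 → (2 * K + 1) * y ≤ 2 * D → D < (K + 1) * y → N * s ≤ y → y ≤ ka →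
      2 * y ≤ l → 4 * m * z ≤ y →
      |𝔼 t ∈ box k τ,
        (mu (a₁ + d₁ * t) * brun z m (a₁ + d₁ * t) *
          (#{M ∈ MMs k K y | M ∣ β ((a₁ + d₁ * t) * d₁ * g)} : ℝ)) *
        (mu (a₂ + d₂ * t) * brun z m (a₂ + d₂ * t) *
          (#{M ∈ MMs k K y | M ∣ β ((a₂ + d₂ * t) * d₂ * g)} : ℝ))|
        ≤ c₀ * (2 * D + 1) * (qq k ^ (4 * m * z + 2) / qq k ^ s) := by
  obtain ⟨N, c₀, hN, h0, H⟩ := fibre2 (k := k) (2 * K + 2)
  refine ⟨2 * N, c₀, by omega, h0, fun β F a₁ a₂ b o d₁ d₂ g al de ka D τ l y s z m hβ ha₁ ha₂ hd₁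
    hd₂ hg h1 h2 s₁ s₂ c₁ c₂ f₁ f₂ hb h6 p1 p2 p3 p4 p5 p6 => le_trans ?_ (fp_end h0 z m D s)⟩
  have q2 := two_le_qq (k := k)
  have e1 : (2 * K + 1) * y = 2 * (K * y) + y := by ring
  have e2 : (K + 1) * y = K * y + y := by ring
  have e3 : y ≤ K * y := Nat.le_mul_of_pos_left _ hK
  have e4 : 2 * N * s = 2 * (s * N) := by ring
  have e5 : s ≤ s * N := Nat.le_mul_of_pos_right _ hN
  have e6 : 4 * m * z = 2 * (2 * m * z) := by ring
  refine H β F a₁ a₂ b o d₁ d₂ g _ _ lam al de ka D _ τ l (D - K * y) _ _ hβ ha₁ ha₂ hd₁ hd₂ hg h1 h2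
    le_rfl s₁ s₂ c₁ c₂ f₁ f₂ hb h6 (by omega) (fp_mm p1 p2 p5) ?_ (by omega) (fp_bs z m) (by omega)
    (by positivity) ((fp_pow (Nat.zero_le s)).trans (by simp)) ?_ (fp_pow (by omega))
  · have : (K + 1) * y ≤ (K + 1) * (2 * (D - K * y + 1)) := Nat.mul_le_mul_left _ (by omega)
    have e7 : (2 * K + 2) * (D - K * y + 1) = (K + 1) * (2 * (D - K * y + 1)) := by ring
    omega
  · rw [div_pow, one_pow, ← pow_mul]
    exact fp_pow (by omega)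

end Pool.Agent.MP_b5e119_nt.GB
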