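import Pool.Agent.MP_b5e119_nt.GB.MWl
import Pool.Agent.MP_b5e119_nt.GB.Fibp76

set_option autoImplicit false

open Polynomial Finset Filter
open scoped Classical BigOperators

noncomputable section
namespace Pool.Agent.MP_b5e119_nt.GB
open Pool.Agent.MP_a4a062_nt.C2 Pool.Agent.HGB
open Pool.Agent.MP_b5e119_nt.W64 (wt od)

section
variable {k : Type} [Field k] [Fintype k]

theorem e2_mon {n τ : ℕ} {a e t : k[X]} (ha : a ∈ mon k n) (he : e.natDegree + τ ≤ n)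
    (ht : t ∈ box k τ) : a + e * t ∈ mon k n := by
  rw [mem_mon] at ha ⊢
  by_cases h0 : t = 0
  · simpa [h0] using ha
  have h1 : t.natDegree < τ := (natDegree_lt_iff_degree_lt h0).2 (mem_box.1 ht)
  have h2 : (e * t).natDegree < a.natDegree :=
    lt_of_le_of_lt natDegree_mul_le (by rw [ha.2]; omega)
  exact ⟨ha.1.add_of_left (degree_lt_degree h2), by rw [natDegree_add_eq_left_of_natDegree_lt h2, ha.2]⟩

variable [CharP k 2]

/-- Averaging over the lines `(a, o) -> (a + e t, o + b t)` of the family `a b + o e = F`. -/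
theorem e2_avg (F : k[X]) {i β j δ τ : ℕ} (h1 : δ + τ ≤ i) (h2 : β + τ ≤ j)
    (Φ : k[X] × k[X] × k[X] × k[X] → ℝ) :
    ∑ z ∈ (mon k i ×ˢ mon k β ×ˢ mon k j ×ˢ mon k δ) with z.1 * z.2.1 + z.2.2.1 * z.2.2.2 = F,
        Φ z =
      ∑ z ∈ (mon k i ×ˢ mon k β ×ˢ mon k j ×ˢ mon k δ) with z.1 * z.2.1 + z.2.2.1 * z.2.2.2 = F,
        𝔼 t ∈ box k τ, Φ (z.1 + z.2.2.2 * t, z.2.1, z.2.2.1 + z.2.1 * t, z.2.2.2) := by
  have h0 : (2 : k[X]) = 0 := CharTwo.two_eq_zero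
  rw [← expect_sum_comm, eq_comm]
  refine (expect_congr rfl fun t ht => ?_).trans (expect_const (box_nonempty τ) _)
  have hm : ∀ z ∈ ({z ∈ (mon k i ×ˢ mon k β ×ˢ mon k j ×ˢ mon k δ) |
      z.1 * z.2.1 + z.2.2.1 * z.2.2.2 = F} : Finset (k[X] × k[X] × k[X] × k[X])),
      (z.1 + z.2.2.2 * t, z.2.1, z.2.2.1 + z.2.1 * t, z.2.2.2) ∈
        ({z ∈ (mon k i ×ˢ mon k β ×ˢ mon k j ×ˢ mon k δ) |
          z.1 * z.2.1 + z.2.2.1 * z.2.2.2 = F} : Finset (k[X] × k[X] × k[X] × k[X])) := by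
    rintro ⟨a, b, o, e⟩ hz
    simp only [mem_filter, mem_product] at hz ⊢
    obtain ⟨⟨ha, hb, ho, he⟩, hF⟩ := hz
    refine ⟨⟨e2_mon ha (by rw [(mem_mon.1 he).2]; exact h1) ht, hb,
      e2_mon ho (by rw [(mem_mon.1 hb).2]; exact h2) ht, he⟩, ?_⟩
    linear_combination hF + (e * t * b) * h0
  refine sum_nbij' (fun z => (z.1 + z.2.2.2 * t, z.2.1, z.2.2.1 + z.2.1 * t, z.2.2.2))
    (fun z => (z.1 + z.2.2.2 * t, z.2.1, z.2.2.1 + z.2.1 * t, z.2.2.2)) hm hm ?_ ?_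
    fun _ _ => rfl <;>
  · rintro ⟨a, b, o, e⟩ _
    simp only [Prod.mk.injEq, and_true, true_and]
    exact ⟨by linear_combination (e * t) * h0, by linear_combination (b * t) * h0⟩

/-- Method 2: insert the direction weights, then work on each line. -/
theorem e2_core (F : k[X]) {i β j δ τ : ℕ} (h1 : δ + τ ≤ i) (h2 : β + τ ≤ j)
    (G : Finset k[X]) (hG : G.Nonempty) (w : k[X] → k[X] → k[X] → ℝ) {dl V x : ℝ} (hdl : 0 < dl)
    (al : k[X] → k[X] → ℝ) (hal : ∀ b e, |al b e| ≤ 1) (u : k[X] → k[X] → ℝ)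
    (hu : ∀ a o, |u a o| ≤ 1) (Q : Finset (k[X] × k[X] × k[X] × k[X]))
    (hQ : Q = {z ∈ (mon k i ×ˢ mon k β ×ˢ mon k j ×ˢ mon k δ) |
      z.1 * z.2.1 + z.2.2.1 * z.2.2.2 = F ∧ al z.2.1 z.2.2.2 ≠ 0})
    (hW : ∑ z ∈ Q, (∑ g ∈ G, w g z.1 z.2.2.2 - dl * #G) ^ 2 ≤ V * (dl * #G) ^ 2)
    (hF : ∀ z ∈ Q, ∑ g ∈ G, |𝔼 t ∈ box k τ, u (z.1 + z.2.2.2 * t) (z.2.2.1 + z.2.1 * t) *
      w g (z.1 + z.2.2.2 * t) z.2.2.2| ≤ x * #G) :
    |∑ z ∈ Q, al z.2.1 z.2.2.2 * u z.1 z.2.2.1| ≤ √(#Q * V) + #Q * x / dl := by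
  have hG' : (0 : ℝ) < #G := by exact_mod_cast hG.card_pos
  have hΔ : 0 < dl * #G := mul_pos hdl hG'
  have e1 : ∑ z ∈ Q, al z.2.1 z.2.2.2 * u z.1 z.2.2.1 =
      (∑ z ∈ Q, al z.2.1 z.2.2.2 * u z.1 z.2.2.1 * (dl * #G - ∑ g ∈ G, w g z.1 z.2.2.2)
        + ∑ z ∈ Q, al z.2.1 z.2.2.2 * u z.1 z.2.2.1 * ∑ g ∈ G, w g z.1 z.2.2.2) / (dl * #G) := by
    rw [← sum_add_distrib, eq_div_iff hΔ.ne', sum_mul]
    exact sum_congr rfl fun z _ => by ring
  have b1 : |∑ z ∈ Q, al z.2.1 z.2.2.2 * u z.1 z.2.2.1 * (dl * #G - ∑ g ∈ G, w g z.1 z.2.2.2)|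
      ≤ √(#Q * V) * (dl * #G) := by
    rw [← Real.sqrt_sq hΔ.le, ← Real.sqrt_mul' _ (sq_nonneg _), Real.sqrt_sq hΔ.le]
    refine Real.abs_le_sqrt ((sum_mul_sq_le_sq_mul_sq _ _ _).trans ?_)
    rw [mul_assoc]
    refine mul_le_mul ?_ (le_trans (le_of_eq (sum_congr rfl fun z _ => by ring)) hW)
      (sum_nonneg fun _ _ => sq_nonneg _) (Nat.cast_nonneg _)
    rw [card_eq_sum_ones, Nat.cast_sum]
    refine sum_le_sum fun z _ => ?_
    rw [← sq_abs, abs_mul, Nat.cast_one]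
    exact pow_le_one₀ (by positivity) (mul_le_one₀ (hal _ _) (abs_nonneg _) (hu _ _))
  have hs : ∀ Φ : k[X] × k[X] × k[X] × k[X] → ℝ, ∑ z ∈ Q, al z.2.1 z.2.2.2 * Φ z =
      ∑ z ∈ (mon k i ×ˢ mon k β ×ˢ mon k j ×ˢ mon k δ) with z.1 * z.2.1 + z.2.2.1 * z.2.2.2 = F,
        al z.2.1 z.2.2.2 * Φ z := by
    intro Φ
    rw [hQ, ← filter_filter, sum_filter_of_ne fun z _ h => left_ne_zero_of_mul h]
  have b2 : |∑ z ∈ Q, al z.2.1 z.2.2.2 * u z.1 z.2.2.1 * ∑ g ∈ G, w g z.1 z.2.2.2|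
      ≤ #Q * x * #G := by
    simp only [mul_assoc]
    rw [hs, e2_avg F h1 h2]
    simp only [← mul_expect]
    rw [← hs, ← nsmul_eq_mul, ← sum_const]
    refine (abs_sum_le_sum_abs _ _).trans (sum_le_sum fun z hz => ?_)
    rw [abs_mul]
    refine (mul_le_of_le_one_left (abs_nonneg _) (hal _ _)).trans (le_trans ?_ (hF z hz))
    simp only [mul_sum]
    rw [expect_sum_comm]
    exact abs_sum_le_sum_abs _ _
  rw [e1, abs_div, abs_of_pos hΔ, div_le_iff₀ hΔ]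
  refine (abs_add_le _ _).trans ((add_le_add b1 b2).trans (le_of_eq ?_))
  field_simp

end

section
variable {k : Type} [Field k] [Fintype k]

theorem e2_S4 (F : k[X]) (i β j δ : ℕ) (al u : k[X] → k[X] → ℝ) :
    (S4 F i β j δ fun a b c d => al b d * u a c) =
      ∑ z ∈ (mon k i ×ˢ mon k β ×ˢ mon k j ×ˢ mon k δ) with
        z.1 * z.2.1 + z.2.2.1 * z.2.2.2 = F ∧ al z.2.1 z.2.2.2 ≠ 0,
        al z.2.1 z.2.2.2 * u z.1 z.2.2.1 := by
  rw [sum_filter]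
  simp only [S4, sum_product]
  refine sum_congr rfl fun a _ => sum_congr rfl fun b _ => sum_congr rfl fun c _ =>
    sum_congr rfl fun d _ => ?_
  by_cases h : a * b + c * d = F <;> by_cases h' : al b d = 0 <;> simp [h, h']

theorem e2_le (F : k[X]) (i β j δ : ℕ) (al : k[X] → k[X] → ℝ) (Ds : Finset k[X])
    (hD : ∀ d ∈ mon k δ, ∀ b, al b d ≠ 0 → d ∈ Ds) (Φ : k[X] → k[X] → ℝ) (hΦ : ∀ a d, 0 ≤ Φ a d) :
    ∑ z ∈ (mon k i ×ˢ mon k β ×ˢ mon k j ×ˢ mon k δ) with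
        z.1 * z.2.1 + z.2.2.1 * z.2.2.2 = F ∧ al z.2.1 z.2.2.2 ≠ 0, Φ z.1 z.2.2.2 ≤
      ∑ d ∈ Ds, ∑ b ∈ mon k β, ∑ a ∈ mon k i, (if d ∣ F - a * b then Φ a d else 0) := by
  have e : ∑ d ∈ Ds, ∑ b ∈ mon k β, ∑ a ∈ mon k i, (if d ∣ F - a * b then Φ a d else 0) =
      ∑ y ∈ Ds ×ˢ mon k β ×ˢ mon k i, (if y.1 ∣ F - y.2.2 * y.2.1 then Φ y.2.2 y.1 else 0) := by
    simp only [sum_product]
  rw [e]
  have inj : Set.InjOn (fun z : k[X] × k[X] × k[X] × k[X] => (z.2.2.2, z.2.1, z.1))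
      ({z ∈ (mon k i ×ˢ mon k β ×ˢ mon k j ×ˢ mon k δ) |
        z.1 * z.2.1 + z.2.2.1 * z.2.2.2 = F ∧ al z.2.1 z.2.2.2 ≠ 0} :
          Finset (k[X] × k[X] × k[X] × k[X])) := by
    rintro ⟨a, b, c, d⟩ hz ⟨a', b', c', d'⟩ hz' h
    rw [mem_coe, mem_filter] at hz hz'
    simp only [mem_product, Prod.mk.injEq] at hz hz' h ⊢
    obtain ⟨rfl, rfl, rfl⟩ := h
    refine ⟨rfl, rfl, mul_right_cancel₀ (mem_mon.1 hz.1.2.2.2).1.ne_zero ?_, rfl⟩
    linear_combination hz.2.1 - hz'.2.1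
  refine le_trans (le_of_eq ?_) (sum_le_sum_of_subset_of_nonneg (s := image
    (fun z : k[X] × k[X] × k[X] × k[X] => (z.2.2.2, z.2.1, z.1))
      {z ∈ (mon k i ×ˢ mon k β ×ˢ mon k j ×ˢ mon k δ) |
        z.1 * z.2.1 + z.2.2.1 * z.2.2.2 = F ∧ al z.2.1 z.2.2.2 ≠ 0}) ?_ ?_)
  · rw [sum_image inj]
    refine sum_congr rfl ?_
    rintro ⟨a, b, c, d⟩ hz
    simp only [mem_filter] at hz
    rw [if_pos ⟨c, by linear_combination -hz.2.1⟩]
  · intro y hy
    obtain ⟨⟨a, b, c, d⟩, hz, rfl⟩ := mem_image.1 hy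
    simp only [mem_filter, mem_product] at hz ⊢
    exact ⟨hD d hz.1.2.2.2 b hz.2.2, hz.1.2.1, hz.1.1⟩
  · intro y _ _
    split_ifs
    · exact hΦ _ _
    · exact le_rfl

theorem e2_cnt {d : k[X]} (hd : d ≠ 0) {ka : ℕ} (hka : 0 < ka) :
    ∑ g ∈ prs k ka, (if g ∣ d then (1 : ℝ) else 0) ≤ d.natDegree := by
  rw [sum_boole]
  exact_mod_cast (Nat.le_mul_of_pos_right _ hka).trans (mm_cnt hd)

theorem e2_brun (z m : ℕ) (f : k[X]) : |brun z m f| ≤ qq k ^ (2 * m * z + 1) := by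
  refine (abs_sum_le_sum_abs _ _).trans (le_trans ?_ (card_bset z m))
  refine (sum_le_card_nsmul _ _ 1 fun e _ => ?_).trans (by simp)
  split_ifs
  · exact (abs_lam e).le
  · simp

end

variable (k : Type) [Field k] [Fintype k] [CharP k 2]

theorem e2 (K : ℕ) (hK : 1 ≤ K) : ∃ (N : ℕ) (c₁ : ℝ), 0 < N ∧ 0 ≤ c₁ ∧
    ∀ (F : k[X]) (n be ga de si τ ka len D y s z m : ℕ) (α : k[X] → k[X] → ℝ),
      de + si + be ≤ n → ga ≤ n → τ ≤ si → si ≤ τ + 1 → be + τ ≤ ga →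
      Par K N de be si ka len D y s (2 * m * z) → (∀ b d, |α b d| ≤ 1) →
      (∀ b d, α b d ≠ 0 → Squarefree d ∧ IsCoprime d F) →
      |S4 F (de + si) be ga de fun a b c d => α b d * (mu a * brun z m a * brun z m c)| ≤
        c₁ * qq k ^ n * ((n : ℝ) + 1) ^ (K + 4 * m + 3) *
          (qq k ^ (4 * m * z + 2) / qq k ^ s) := by
  obtain ⟨c₀, hc₀, HW⟩ := wl k K hK
  obtain ⟨N, c', hN, hc', HF⟩ := fibp1 k K hK
  refine ⟨N + 240, c₀ + 4 ^ K * (3 * c' + 2 * 2 ^ K), by omega, by positivity,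
    fun F n be ga de si τ ka len D y s z m α h1 _ h3 h4 h5 hP hα hαs => ?_⟩
  obtain ⟨dl, w1, w2, w3, w4⟩ := HW F n (N + 240) de be si ka len D y s (2 * m * z)
    {d ∈ mon k de | Squarefree d ∧ IsCoprime d F} (by omega) hP h1 fun d hd => mem_filter.1 hd
  obtain ⟨p1, p2, p3, p4, -, p6, p7, p8, p9, -, p11⟩ := hP
  have q2 := two_le_qq (k := k)
  have q0 : (0 : ℝ) < qq k := by linarith
  have hs : (N + 240) * s = N * s + 240 * s := by ring
  have hka : 0 < ka := by omega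
  have hdl : 0 < dl := lt_of_lt_of_le (by positivity) w1
  obtain ⟨B, hB⟩ : ∃ B : ℝ, B = qq k ^ (4 * m * z + 2) := ⟨_, rfl⟩
  have B0 : 0 < B := by rw [hB]; positivity
  have hG := card_prs (k := k) hka
  have G0 : (0 : ℝ) < #(prs k ka) := by
    by_contra h
    have : (0 : ℝ) < qq k ^ ka := by positivity
    nlinarith [(Nat.cast_nonneg ka : (0 : ℝ) ≤ ka)]
  have hu : ∀ a c : k[X], |mu a * brun z m a * brun z m c / B| ≤ 1 := fun a c => by
    have m1 : |mu a| ≤ 1 := by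
      unfold mu; split_ifs
      · exact (abs_lam a).le
      · simp
    rw [abs_div, abs_of_pos B0, div_le_one B0, abs_mul, abs_mul, hB,
      show 4 * m * z + 2 = (2 * m * z + 1) + (2 * m * z + 1) by ring, pow_add]
    exact mul_le_mul ((mul_le_of_le_one_left (abs_nonneg _) m1).trans (e2_brun z m a))
      (e2_brun z m c) (abs_nonneg _) (by positivity)
  have hD : ∀ d ∈ mon k de, ∀ b, α b d ≠ 0 →
      d ∈ ({d ∈ mon k de | Squarefree d ∧ IsCoprime d F} : Finset k[X]) :=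
    fun d hd b h => mem_filter.2 ⟨hd, hαs b d h⟩
  have n1 : (1 : ℝ) ≤ (n : ℝ) + 1 := by linarith [(Nat.cast_nonneg n : (0 : ℝ) ≤ n)]
  obtain ⟨Q, hQ⟩ : ∃ Q : Finset (k[X] × k[X] × k[X] × k[X]), Q =
      {z ∈ (mon k (de + si) ×ˢ mon k be ×ˢ mon k ga ×ˢ mon k de) |
        z.1 * z.2.1 + z.2.2.1 * z.2.2.2 = F ∧ α z.2.1 z.2.2.2 ≠ 0} := ⟨_, rfl⟩
  have cQ : (#Q : ℝ) ≤ qq k ^ n := by
    refine le_trans ?_ w3
    rw [card_eq_sum_ones, Nat.cast_sum, hQ, Nat.cast_one]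
    exact e2_le F _ _ _ _ α _ hD (fun _ _ => 1) fun _ _ => zero_le_one
  have main := e2_core F (i := de + si) (β := be) (j := ga) (δ := de) (τ := τ) (by omega) h5
    (prs k ka) (card_pos.1 (by exact_mod_cast G0)) (fun g a d => wt (MMs k K y) (od (a * d * g)))
    (x := (3 * c' + 2 * 2 ^ K) * ((n : ℝ) + 1) ^ 2 / qq k ^ s) hdl α hα
    (fun a c => mu a * brun z m a * brun z m c / B) hu Q hQ
    (le_trans (by
      rw [hQ]
      exact e2_le F _ _ _ _ α _ hD (fun a d => (∑ g ∈ prs k ka,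
        wt (MMs k K y) (od (a * d * g)) - dl * #(prs k ka)) ^ 2) fun _ _ => sq_nonneg _) w4)
    (by
      rintro ⟨a, b, c, d⟩ hz
      rw [hQ] at hz
      simp only [mem_filter, mem_product] at hz
      obtain ⟨⟨ha, -, -, hd⟩, hF, h0⟩ := hz
      obtain ⟨s1, s2⟩ := hαs b d h0
      have cad : IsCoprime a d := by
        rw [← hF, IsCoprime.add_mul_right_right_iff] at s2
        exact s2.of_mul_right_left.symm
      have one : ∀ g ∈ prs k ka, |𝔼 t ∈ box k τ, mu (a + d * t) * brun z m (a + d * t) *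
          brun z m (c + b * t) / B * wt (MMs k K y) (od ((a + d * t) * d * g))| ≤
          3 * c' * ((n : ℝ) + 1) / qq k ^ s + 2 ^ K * (if g ∣ d then (1 : ℝ) else 0) := by
        intro g hg
        by_cases hgd : g ∣ d
        · rw [if_pos hgd, mul_one]
          refine le_add_of_nonneg_of_le (by positivity) ((abs_expect_le _ _).trans
            (expect_le (box_nonempty τ) fun t ht => ?_))
          rw [abs_mul]
          exact (mul_le_of_le_one_left (abs_nonneg _) (hu _ _)).trans (w2 g hg _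
            (e2_mon ha (by rw [(mem_mon.1 hd).2]; omega) ht) d hd)
        · have := HF od a d g a d c b (de + si) de ka D τ (len - 1) y s z m
            (fun f => ⟨_, W64.ev_od f⟩) ha hd hg (by omega) (by omega) s1 hgd cad (by omega) p3 p4
            (by omega) p8 (by omega) (by rw [show 4 * m * z = 2 * (2 * m * z) by ring]; exact p11)
          rw [if_neg hgd, mul_zero, add_zero]
          have e : 𝔼 t ∈ box k τ, mu (a + d * t) * brun z m (a + d * t) *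
              brun z m (c + b * t) / B * wt (MMs k K y) (od ((a + d * t) * d * g)) =
              (𝔼 t ∈ box k τ, brun z m (a + d * t) * brun z m (c + b * t) *
                (wt (MMs k K y) (od ((a + d * t) * d * g)) * mu (a + d * t))) / B := by
            rw [expect_div]; exact expect_congr rfl fun t _ => by ring
          rw [e, abs_div, abs_of_pos B0, div_le_iff₀ B0]
          refine le_trans this ?_
          have d3 : (2 * (D : ℝ) + 1) ≤ 3 * ((n : ℝ) + 1) := by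
            have : 2 * D + 1 ≤ 3 * (n + 1) := by omega
            exact_mod_cast this
          rw [← hB]
          calc c' * (2 * (D : ℝ) + 1) * (B / qq k ^ s)
              ≤ c' * (3 * ((n : ℝ) + 1)) * (B / qq k ^ s) := by gcongr
            _ = _ := by ring
      refine (sum_le_sum one).trans ?_
      rw [sum_add_distrib, sum_const, nsmul_eq_mul, ← mul_sum]
      have c1 := e2_cnt (mem_mon.1 hd).1.ne_zero hka
      rw [(mem_mon.1 hd).2] at c1
      have c2 : (de : ℝ) ≤ (n : ℝ) + 1 := by exact_mod_cast (by omega : de ≤ n + 1)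
      have c3 : (ka : ℝ) ≤ (n : ℝ) + 1 := by exact_mod_cast (by omega : ka ≤ n + 1)
      have c4 : qq k ^ s ≤ 2 * ((n : ℝ) + 1) * #(prs k ka) :=
        (pow_le_pow_right₀ (by linarith) (by omega : s ≤ ka)).trans (hG.trans (by gcongr))
      have qs : (0 : ℝ) < qq k ^ s := by positivity
      have c5 : (1 : ℝ) ≤ 2 * ((n : ℝ) + 1) * #(prs k ka) / qq k ^ s := (one_le_div qs).2 c4
      calc (#(prs k ka) : ℝ) * (3 * c' * ((n : ℝ) + 1) / qq k ^ s) +
            2 ^ K * ∑ g ∈ prs k ka, (if g ∣ d then (1 : ℝ) else 0)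
          ≤ (#(prs k ka) : ℝ) * (3 * c' * ((n : ℝ) + 1) ^ 2 / qq k ^ s) +
            2 ^ K * (((n : ℝ) + 1) * (2 * ((n : ℝ) + 1) * #(prs k ka) / qq k ^ s)) := by
            gcongr
            · exact le_self_pow₀ n1 two_ne_zero
            · exact (c1.trans c2).trans (le_mul_of_one_le_right (by positivity) c5)
        _ = _ := by ring)
  have e0 := e2_S4 F (de + si) be ga de α fun a c => mu a * brun z m a * brun z m c / B
  rw [← hQ] at e0
  rw [← e0] at main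
  have e : (S4 F (de + si) be ga de fun a b c d => α b d * (mu a * brun z m a * brun z m c)) =
      (S4 F (de + si) be ga de fun a b c d =>
        α b d * (mu a * brun z m a * brun z m c / B)) * B := by
    simp only [S4, sum_mul]
    refine sum_congr rfl fun a _ => sum_congr rfl fun b _ => sum_congr rfl fun c _ =>
      sum_congr rfl fun d _ => ?_
    split_ifs
    · field_simp
    · simp
  rw [e, abs_mul, abs_of_pos B0, ← hB, mul_div_assoc', mul_div_right_comm]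
  refine mul_le_mul_of_nonneg_right (main.trans ?_) B0.le
  have r1 : √(#Q * (qq k ^ n * (c₀ * ((n : ℝ) + 1) ^ (K + 2) / qq k ^ s) ^ 2)) ≤
      qq k ^ n * (c₀ * ((n : ℝ) + 1) ^ (K + 2) / qq k ^ s) := by
    rw [Real.sqrt_le_iff]
    refine ⟨by positivity, ?_⟩
    rw [mul_pow, sq (qq k ^ n), mul_assoc]
    gcongr
  have r2 : (#Q : ℝ) * ((3 * c' + 2 * 2 ^ K) * ((n : ℝ) + 1) ^ 2 / qq k ^ s) / dl ≤
      qq k ^ n * ((3 * c' + 2 * 2 ^ K) * ((n : ℝ) + 1) ^ 2 / qq k ^ s) *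
        (4 * ((n : ℝ) + 1)) ^ K := by
    rw [div_eq_mul_one_div _ dl]
    have : 1 / dl ≤ (4 * ((n : ℝ) + 1)) ^ K := (one_div_le (by positivity) hdl).1 w1
    gcongr
  refine (add_le_add r1 r2).trans ?_
  have r3 : ((n : ℝ) + 1) ^ (K + 2) ≤ ((n : ℝ) + 1) ^ (K + 4 * m + 3) :=
    pow_le_pow_right₀ n1 (by omega)
  calc _ = (c₀ + 4 ^ K * (3 * c' + 2 * 2 ^ K)) * qq k ^ n * ((n : ℝ) + 1) ^ (K + 2) / qq k ^ s := by
        rw [mul_pow]; ring
    _ ≤ _ := by gcongr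


end Pool.Agent.MP_b5e119_nt.GB
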