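import Pool.Agent.MP_b5e119_nt.GB.MDefs

set_option autoImplicit false

open Polynomial Finset Filter
open scoped Classical BigOperators

noncomputable section
namespace Pool.Agent.MP_b5e119_nt.GB
open Pool.Agent.MP_a4a062_nt.C2 Pool.Agent.HGB
open Pool.Agent.MP_b5e119_nt.W64 (wt od)

theorem num_ev (A : ℕ) : ∀ᶠ s : ℕ in atTop, (s + 1) ^ A ≤ 2 ^ s := by
  have h := tendsto_pow_const_div_const_pow_of_one_lt A (r := 2) one_lt_two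
  have h2 := (h.comp (tendsto_add_atTop_nat 1)).eventually (gt_mem_nhds (show (0 : ℝ) < 1 / 2 by
    norm_num))
  filter_upwards [h2] with s hs
  simp only [Function.comp] at hs
  rw [div_lt_iff₀ (by positivity), pow_succ] at hs
  have : (((s + 1) ^ A : ℕ) : ℝ) ≤ ((2 ^ s : ℕ) : ℝ) := by
    push_cast at hs ⊢
    linarith
  exact_mod_cast this

theorem num_sqrt : Tendsto Nat.sqrt atTop atTop :=
  tendsto_atTop.2 fun b => (eventually_ge_atTop (b * b)).mono fun _ h => Nat.le_sqrt.2 h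

theorem num_pt (C : ℕ) : ∀ᶠ t : ℕ in atTop, ∀ N : ℕ, N ≤ (t + 1) ^ 10 →
    (N + 2) ^ (C * (Nat.sqrt t + 1)) ≤ 2 ^ t ∧ (N + 2) ^ C ≤ 2 ^ Nat.sqrt t := by
  filter_upwards [num_sqrt.eventually (num_ev (42 * C)), num_sqrt.eventually (eventually_ge_atTop 1)]
    with t h1 h2 N hN
  set s := Nat.sqrt t with hs
  have h3 : t + 1 ≤ (s + 1) ^ 2 := by
    have := Nat.lt_succ_sqrt' t
    exact this
  have h4 : N + 2 ≤ (s + 1) ^ 21 := by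
    have a : (t + 1) ^ 10 ≤ ((s + 1) ^ 2) ^ 10 := Nat.pow_le_pow_left h3 10
    have b : 2 ≤ (s + 1) ^ 20 := le_trans (by omega) (Nat.le_self_pow (by norm_num) (s + 1))
    rw [← pow_mul] at a
    calc N + 2 ≤ (s + 1) ^ 20 + (s + 1) ^ 20 := Nat.add_le_add (hN.trans a) b
      _ = (s + 1) ^ 20 * 2 := by ring
      _ ≤ (s + 1) ^ 20 * (s + 1) := Nat.mul_le_mul_left _ (by omega)
      _ = _ := by ring
  have h5 : (N + 2) ^ (2 * C) ≤ 2 ^ s := by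
    calc (N + 2) ^ (2 * C) ≤ ((s + 1) ^ 21) ^ (2 * C) := Nat.pow_le_pow_left h4 _
      _ = (s + 1) ^ (42 * C) := by rw [← pow_mul]; congr 1; ring
      _ ≤ _ := h1
  refine ⟨?_, le_trans (Nat.pow_le_pow_right (by omega) (by omega)) h5⟩
  calc (N + 2) ^ (C * (s + 1)) ≤ (N + 2) ^ (2 * C * s) :=
        Nat.pow_le_pow_right (by omega) (by nlinarith)
    _ = ((N + 2) ^ (2 * C)) ^ s := by rw [pow_mul]
    _ ≤ (2 ^ s) ^ s := Nat.pow_le_pow_left h5 _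
    _ = 2 ^ (s * s) := by rw [pow_mul]
    _ ≤ _ := Nat.pow_le_pow_right (by norm_num) (Nat.sqrt_le t)

theorem num_w {t N : ℕ} (ht : 10 ≤ t) (hN : N ≤ (t + 1) ^ 10) :
    t + 2 * ((N + 1) / t ^ 7) ≤ t ^ 7 := by
  have h0 : 0 < t := by omega
  have h1 : N + 1 ≤ 2048 * t ^ 3 * t ^ 7 := by
    have a : (t + 1) ^ 10 ≤ (2 * t) ^ 10 := Nat.pow_le_pow_left (by omega) 10
    have b : 1 ≤ t ^ 10 := Nat.one_le_pow _ _ h0
    have c : (2 * t) ^ 10 = 1024 * t ^ 10 := by ring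
    have d : 2048 * t ^ 3 * t ^ 7 = 2048 * t ^ 10 := by ring
    omega
  have h2 : (N + 1) / t ^ 7 ≤ 2048 * t ^ 3 :=
    Nat.div_le_of_le_mul (by rw [mul_comm]; exact h1)
  have h3 : t ≤ t ^ 3 := Nat.le_self_pow (by norm_num) t
  have h4 : 10 ^ 4 ≤ t ^ 4 := Nat.pow_le_pow_left ht 4
  have h5 : 10 ^ 4 * t ^ 3 ≤ t ^ 7 := by
    calc 10 ^ 4 * t ^ 3 ≤ t ^ 4 * t ^ 3 := Nat.mul_le_mul_right _ h4
      _ = _ := by ring
  omega

theorem num_s {t N N₁ s : ℕ} (ht : 7 * N₁ + 1 ≤ t) (hN : t ^ 10 ≤ N) (hs : N + 1 ≤ N₁ * s) :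
    t + (4 * Nat.sqrt t * t ^ 7 + 2) ≤ s := by
  have h0 : 0 < t := by omega
  have h1 : Nat.sqrt t * t ^ 7 ≤ t ^ 8 := by
    calc Nat.sqrt t * t ^ 7 ≤ t * t ^ 7 := Nat.mul_le_mul_right _ (Nat.sqrt_le_self t)
      _ = _ := by ring
  have h2 : t ≤ t ^ 8 := Nat.le_self_pow (by norm_num) t
  have h3 : N₁ * (7 * t ^ 8) ≤ t ^ 10 := by
    calc N₁ * (7 * t ^ 8) = 7 * N₁ * t ^ 8 := by ring
      _ ≤ t ^ 2 * t ^ 8 :=
        Nat.mul_le_mul_right _ (le_trans (by omega) (Nat.le_self_pow (by norm_num) t))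
      _ = _ := by ring
  have h4 : 7 * t ^ 8 < s := Nat.lt_of_mul_lt_mul_left (a := N₁) (by omega)
  have h5 : 4 * Nat.sqrt t * t ^ 7 = 4 * (Nat.sqrt t * t ^ 7) := by ring
  omega

theorem num (K C N₁ : ℕ) (c₁ q : ℝ) (hq : 2 ≤ q) : ∀ᶠ t : ℕ in atTop, ∀ N s be de : ℕ,
    t ^ 10 ≤ N → N ≤ (t + 1) ^ 10 → N + 1 ≤ N₁ * s → be + t ≤ de →
    ((N : ℝ) + 5) * 4 ^ ((N + 1) / t ^ 7) * q ^ (N + 1) / q ^ t ^ 7 +
      q ^ (N + 1) * ((N : ℝ) + 2) ^ C / 4 ^ Nat.sqrt t +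
      c₁ * q ^ (N + 1) * ((N : ℝ) + 2) ^ (K + 4 * Nat.sqrt t + 3) *
        (q ^ (4 * Nat.sqrt t * t ^ 7 + 2) / q ^ s + √(q ^ be / q ^ de)) ≤
      q ^ N / (N : ℝ) ^ 5 := by
  filter_upwards [num_pt (C + 7), num_pt (2 * (K + 10)), eventually_ge_atTop 10,
    eventually_ge_atTop (7 * N₁ + 1), eventually_ge_atTop ⌈|c₁| * q + q⌉₊]
    with t p1 p2 t1 t2 t3 N s be de hN hN' hs hd
  have q0 : (0 : ℝ) < q := by linarith
  have q1 : (1 : ℝ) ≤ q := by linarith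
  have tN : t ≤ N := le_trans (Nat.le_self_pow (by norm_num) t) hN
  have N10 : (10 : ℝ) ≤ N := by exact_mod_cast le_trans t1 tN
  have cN : |c₁| * q + q ≤ N := le_trans (Nat.le_ceil _) (by exact_mod_cast le_trans t3 tN)
  have c0 : 0 ≤ |c₁| * q := by positivity
  have a1 : ((N : ℝ) + 2) ^ (C + 7) ≤ 2 ^ Nat.sqrt t := by exact_mod_cast (p1 N hN').2
  have a2 : ((N : ℝ) + 2) ^ (2 * (K + 10) * (Nat.sqrt t + 1)) ≤ 2 ^ t := by
    exact_mod_cast (p2 N hN').1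
  have hs' := num_s t2 hN hs
  clear p1 p2
  generalize Nat.sqrt t = u at *
  obtain ⟨P, hP⟩ : ∃ P : ℝ, P = (N : ℝ) + 2 := ⟨_, rfl⟩
  rw [← hP] at a1 a2 ⊢
  have P1 : (1 : ℝ) ≤ P := by linarith
  have P0 : (0 : ℝ) < P := by linarith
  have two : ∀ m : ℕ, (2 : ℝ) ^ m ≤ q ^ m := fun m => pow_le_pow_left₀ (by norm_num) hq m
  obtain ⟨G, hG⟩ : ∃ G : ℝ, G = P ^ ((K + 10) * (u + 1)) := ⟨_, rfl⟩
  have G1 : 1 ≤ G := hG ▸ one_le_pow₀ P1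
  have G2 : G ^ 2 ≤ 2 ^ t := by
    rw [hG, ← pow_mul]
    refine le_trans (le_of_eq ?_) a2
    congr 1
    ring
  have G3 : G ≤ 2 ^ t := le_trans (le_self_pow₀ G1 (by norm_num)) G2
  have n6 : 4 * (N : ℝ) ^ 5 ≤ P ^ 6 := by
    calc 4 * (N : ℝ) ^ 5 ≤ P * P ^ 5 :=
          mul_le_mul (by linarith) (pow_le_pow_left₀ (by linarith) (by linarith) 5)
            (by positivity) P0.le
      _ = _ := by ring
  have key : ∀ {x y : ℝ}, 0 ≤ x → 0 < y → P ^ 6 * x ≤ y → x / y ≤ 1 / (4 * (N : ℝ) ^ 5) := by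
    intro x y hx hy h
    rw [div_le_div_iff₀ hy (by positivity)]
    nlinarith [mul_le_mul_of_nonneg_right n6 hx]
  have b1 : ((N : ℝ) + 5) * 4 ^ ((N + 1) / t ^ 7) * q / q ^ t ^ 7 ≤ 1 / (4 * (N : ℝ) ^ 5) := by
    refine key (by positivity) (by positivity) ?_
    have e1 : ((N : ℝ) + 5) * q ≤ P ^ 3 := by
      calc ((N : ℝ) + 5) * q ≤ (P * P) * P :=
            mul_le_mul (by nlinarith) (by linarith) q0.le (by positivity)
        _ = _ := by ring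
    have e2 : P ^ 9 ≤ G := hG ▸ pow_le_pow_right₀ P1 (by nlinarith)
    calc P ^ 6 * (((N : ℝ) + 5) * 4 ^ ((N + 1) / t ^ 7) * q)
        = P ^ 6 * (((N : ℝ) + 5) * q) * 4 ^ ((N + 1) / t ^ 7) := by ring
      _ ≤ P ^ 6 * P ^ 3 * 4 ^ ((N + 1) / t ^ 7) := by gcongr
      _ = P ^ 9 * 2 ^ (2 * ((N + 1) / t ^ 7)) := by rw [pow_mul]; norm_num; ring
      _ ≤ 2 ^ t * 2 ^ (2 * ((N + 1) / t ^ 7)) := by gcongr; exact e2.trans G3
      _ = 2 ^ (t + 2 * ((N + 1) / t ^ 7)) := by rw [pow_add]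
      _ ≤ 2 ^ t ^ 7 := pow_le_pow_right₀ (by norm_num) (num_w t1 hN')
      _ ≤ _ := two _
  have b2 : q * P ^ C / 4 ^ u ≤ 1 / (4 * (N : ℝ) ^ 5) := by
    refine key (by positivity) (by positivity) ?_
    calc P ^ 6 * (q * P ^ C) ≤ P ^ 6 * (P * P ^ C) := by gcongr; linarith
      _ = P ^ (C + 7) := by ring
      _ ≤ 2 ^ u := a1
      _ ≤ _ := pow_le_pow_left₀ (by norm_num) (by norm_num) u
  have e3 : P ^ 6 * (|c₁| * q * P ^ (K + 4 * u + 3)) ≤ G := by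
    calc P ^ 6 * (|c₁| * q * P ^ (K + 4 * u + 3)) ≤ P ^ 6 * (P * P ^ (K + 4 * u + 3)) := by
          gcongr; linarith
      _ = P ^ (K + 4 * u + 10) := by ring
      _ ≤ G := hG ▸ pow_le_pow_right₀ P1 (by nlinarith)
  have b3 : |c₁| * q * P ^ (K + 4 * u + 3) * q ^ (4 * u * t ^ 7 + 2) / q ^ s ≤
      1 / (4 * (N : ℝ) ^ 5) := by
    refine key (by positivity) (by positivity) ?_
    calc P ^ 6 * (|c₁| * q * P ^ (K + 4 * u + 3) * q ^ (4 * u * t ^ 7 + 2))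
        = P ^ 6 * (|c₁| * q * P ^ (K + 4 * u + 3)) * q ^ (4 * u * t ^ 7 + 2) := by ring
      _ ≤ q ^ t * q ^ (4 * u * t ^ 7 + 2) := by gcongr; exact e3.trans (G3.trans (two t))
      _ = q ^ (t + (4 * u * t ^ 7 + 2)) := by rw [← pow_add]
      _ ≤ _ := pow_le_pow_right₀ q1 hs'
  have r : √(q ^ be / q ^ de) ≤ 1 / G := by
    refine Real.sqrt_le_iff.2 ⟨by positivity, ?_⟩
    rw [div_pow, one_pow, div_le_div_iff₀ (by positivity) (by positivity), one_mul]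
    calc q ^ be * G ^ 2 ≤ q ^ be * q ^ t := by gcongr; exact G2.trans (two t)
      _ = q ^ (be + t) := by rw [pow_add]
      _ ≤ _ := pow_le_pow_right₀ q1 hd
  have b4 : |c₁| * q * P ^ (K + 4 * u + 3) * √(q ^ be / q ^ de) ≤ 1 / (4 * (N : ℝ) ^ 5) := by
    calc _ ≤ |c₁| * q * P ^ (K + 4 * u + 3) * (1 / G) := by gcongr
      _ = |c₁| * q * P ^ (K + 4 * u + 3) / G := by ring
      _ ≤ _ := key (by positivity) (by positivity) e3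
  have hc : c₁ * q ^ (N + 1) * P ^ (K + 4 * u + 3) *
      (q ^ (4 * u * t ^ 7 + 2) / q ^ s + √(q ^ be / q ^ de)) ≤
      |c₁| * q ^ (N + 1) * P ^ (K + 4 * u + 3) *
      (q ^ (4 * u * t ^ 7 + 2) / q ^ s + √(q ^ be / q ^ de)) := by
    gcongr
    exact le_abs_self _
  have hN0 : (0 : ℝ) < q ^ N := by positivity
  calc _ ≤ ((N : ℝ) + 5) * 4 ^ ((N + 1) / t ^ 7) * q ^ (N + 1) / q ^ t ^ 7 +
      q ^ (N + 1) * P ^ C / 4 ^ u + |c₁| * q ^ (N + 1) * P ^ (K + 4 * u + 3) *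
      (q ^ (4 * u * t ^ 7 + 2) / q ^ s + √(q ^ be / q ^ de)) := by linarith
    _ = q ^ N * (((N : ℝ) + 5) * 4 ^ ((N + 1) / t ^ 7) * q / q ^ t ^ 7 + q * P ^ C / 4 ^ u +
      |c₁| * q * P ^ (K + 4 * u + 3) * q ^ (4 * u * t ^ 7 + 2) / q ^ s +
      |c₁| * q * P ^ (K + 4 * u + 3) * √(q ^ be / q ^ de)) := by rw [pow_succ q N]; ring
    _ ≤ q ^ N * (1 / (4 * (N : ℝ) ^ 5) + 1 / (4 * (N : ℝ) ^ 5) + 1 / (4 * (N : ℝ) ^ 5) +
      1 / (4 * (N : ℝ) ^ 5)) := by gcongr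
    _ = _ := by field_simp; ring


end Pool.Agent.MP_b5e119_nt.GB
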