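import Pool.Agent.MP_b5e119_nt.GB.MDefs

set_option autoImplicit false

open Polynomial Finset Filter
open scoped Classical BigOperators

noncomputable section
namespace Pool.Agent.MP_b5e119_nt.GB

theorem par_sq {y : ℕ} (h : 4 ≤ y) : y * y ≤ 2 ^ y := by
  induction y, h using Nat.le_induction with
  | base => norm_num
  | succ y hy ih =>
    have h1 : 4 * y ≤ y * y := Nat.mul_le_mul_right y hy
    have h2 : (y + 1) * (y + 1) = y * y + 2 * y + 1 := by ring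
    rw [pow_succ]
    omega

theorem par (N₀ : ℕ) : ∃ K, 1 ≤ K ∧ ∀ N, 0 < N → ∃ N₁, 0 < N₁ ∧ ∀ᶠ n : ℕ in atTop,
    ∀ de be si E, de + si ≤ n → n ≤ N₀ * si → de ≤ be + si + 2 → N₁ * E ≤ n →
      ∃ ka len D y s, n ≤ N₁ * s ∧ Par K N de be si ka len D y s E := by
  obtain ⟨K, hK⟩ : ∃ K, K = 20 * N₀ + 20 := ⟨_, rfl⟩
  refine ⟨K, by omega, fun N hN => ⟨4 * N * ((N₀ + 1) * (2 * K + 1)), by positivity, ?_⟩⟩
  obtain ⟨Y, hY⟩ : ∃ Y, Y = 4 * K + N + 200 := ⟨_, rfl⟩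
  refine eventually_atTop.2 ⟨N₀ * ((2 * K + 1) * Y) + 1, fun n hn de be si E h1 h2 h3 h4 => ?_⟩
  have s1 : (2 * K + 1) * Y < si := Nat.lt_of_mul_lt_mul_left (a := N₀) (by omega)
  have s2 : Y ≤ (2 * K + 1) * Y := Nat.le_mul_of_pos_left Y (by omega)
  obtain ⟨ka, hka⟩ : ∃ ka, ka = 2 * (si / 5) + (si + 1) % 2 := ⟨_, rfl⟩
  obtain ⟨len, hlen⟩ : ∃ len, len = (si + 1 - ka) / 2 := ⟨_, rfl⟩
  obtain ⟨D, hD⟩ : ∃ D, D = de + ka + len - 1 := ⟨_, rfl⟩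
  obtain ⟨y, hy⟩ : ∃ y, y = 2 * D / (2 * K + 1) := ⟨_, rfl⟩
  have y1 : (2 * K + 1) * y ≤ 2 * D := hy ▸ Nat.mul_div_le _ _
  have y2 : 2 * D < (2 * K + 1) * (y + 1) := hy ▸ Nat.lt_mul_div_succ _ (by omega)
  have y3 : Y < y + 1 := Nat.lt_of_mul_lt_mul_left (a := 2 * K + 1) (by omega)
  have y4 : 20 * y ≤ si := by
    by_contra hc
    have a1 : N₀ * si ≤ N₀ * (20 * y) := Nat.mul_le_mul_left _ (by omega)
    have a2 : (2 * K + 1) * y = 2 * (N₀ * (20 * y)) + 41 * y := by rw [hK]; ring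
    omega
  have y5 : si ≤ (2 * K + 1) * (2 * y) :=
    le_trans (by omega) (Nat.mul_le_mul_left (2 * K + 1) (show y + 1 ≤ 2 * y by omega))
  have y6 : n ≤ (N₀ + 1) * (2 * K + 1) * (2 * y) := by
    rw [mul_assoc]
    exact h2.trans (Nat.mul_le_mul (by omega) y5)
  have t1 : N * (y / N) ≤ y := Nat.mul_div_le _ _
  have t2 : y < N * (y / N + 1) := Nat.lt_mul_div_succ _ hN
  have t3 : 1 ≤ y / N := (Nat.le_div_iff_mul_le hN).2 (by omega)
  have t4 : N * (y / N + 1) ≤ N * (2 * (y / N)) := Nat.mul_le_mul_left _ (by omega)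
  refine ⟨ka, len, D, y, y / N, ?_, by omega, by omega, y1, ?_, ?_, t3, t1, by omega, by omega,
    by omega, ?_⟩
  · calc n ≤ (N₀ + 1) * (2 * K + 1) * (2 * y) := y6
      _ ≤ (N₀ + 1) * (2 * K + 1) * (2 * (N * (2 * (y / N)))) := Nat.mul_le_mul_left _ (by omega)
      _ = _ := by ring
  · have a1 : (2 * K + 1) * (y + 1) = (2 * K + 1) * y + 2 * K + 1 := by ring
    have a2 : 2 * ((K + 1) * y) = (2 * K + 1) * y + y := by ring
    omega
  · exact (Nat.mul_le_mul_right y (by omega)).trans (par_sq (by omega))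
  · have a1 : (N₀ + 1) * (2 * K + 1) * (4 * (N * E)) ≤ (N₀ + 1) * (2 * K + 1) * (2 * y) :=
      le_trans (le_of_eq (by ring)) (h4.trans y6)
    have a2 := Nat.le_of_mul_le_mul_left a1 (by positivity)
    have a3 : E ≤ N * E := Nat.le_mul_of_pos_left E hN
    omega


end Pool.Agent.MP_b5e119_nt.GB
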