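import Pool.Agent.MP_b5e119_nt.GB.Defs

/-! The Brun swap and the removal of the unclean quadruples for methods 1 and 2. -/

set_option autoImplicit false

open Polynomial Finset Filter
open scoped Classical BigOperators

noncomputable section
namespace Pool.Agent.HGB
open Pool.Agent.MP_a4a062_nt.C2

section
variable {k : Type*} [Field k] [Fintype k]

theorem sw_mu (f : k[X]) : |mu f| ≤ 1 := by
  unfold mu
  split_ifs
  · exact (abs_lam f).le
  · simp

theorem sw_spec {f : k[X]} (hf : f ≠ 0) (i : ℕ) : (#{d ∈ mon k i | d ∣ f} : ℝ) ≤ nd f :=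
  Nat.cast_le.2 (card_le_card fun _ hd =>
    (mem_dv hf).2 ⟨(mem_mon.1 (mem_filter.1 hd).1).1, (mem_filter.1 hd).2⟩)

theorem sw_mul_mon {i j : ℕ} {a b : k[X]} (ha : a ∈ mon k i) (hb : b ∈ mon k j) :
    a * b ∈ mon k (i + j) := by
  rw [mem_mon] at *
  exact ⟨ha.1.mul hb.1, by rw [ha.1.natDegree_mul hb.1, ha.2, hb.2]⟩

theorem sw_pair (i j : ℕ) (H : k[X] → ℝ) (h0 : ∀ f, 0 ≤ H f) :
    ∑ a ∈ mon k i, ∑ b ∈ mon k j, H (a * b) ≤ ∑ f ∈ mon k (i + j), nd f * H f := by
  have h1 : ∀ a ∈ mon k i, ∑ b ∈ mon k j, H (a * b) ≤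
      ∑ f ∈ mon k (i + j), if a ∣ f then H f else 0 := by
    intro a ha
    rw [← sum_filter, ← sum_image (g := fun b => a * b) (f := H)
      fun b _ b' _ h => mul_left_cancel₀ (mem_mon.1 ha).1.ne_zero h]
    refine sum_le_sum_of_subset_of_nonneg (fun f hf => ?_) fun f _ _ => h0 f
    obtain ⟨b, hb, rfl⟩ := mem_image.1 hf
    exact mem_filter.2 ⟨sw_mul_mon ha hb, dvd_mul_right _ _⟩
  refine (sum_le_sum h1).trans ?_
  rw [sum_comm]
  refine sum_le_sum fun f hf => ?_
  rw [← sum_filter, sum_const, nsmul_eq_mul]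
  exact mul_le_mul_of_nonneg_right (sw_spec (mem_mon.1 hf).1.ne_zero i) (h0 f)

theorem sw_core (F : k[X]) (i be j de : ℕ) (Φ : k[X] → k[X] → k[X] → k[X] → ℝ)
    (A B : k[X] → ℝ) (hA : ∀ f, 0 ≤ A f) (hB : ∀ f, 0 ≤ B f)
    (h : ∀ a ∈ mon k i, ∀ b ∈ mon k be, ∀ c ∈ mon k j, ∀ d ∈ mon k de, a * b + c * d = F →
      nd (a * b) * nd (c * d) * Φ a b c d ≤ A (a * b) + B (c * d)) :
    S4 F i be j de Φ ≤ ∑ f ∈ mon k (i + be), A f + ∑ g ∈ mon k (j + de), B g := by
  set H : k[X] → k[X] → ℝ := fun f g =>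
    if f + g = F then (A f + B g) / (nd f * nd g) else 0 with hH
  have H0 : ∀ f g, 0 ≤ H f g := fun f g => by
    have := hA f
    have := hB g
    have := nd_nonneg f
    have := nd_nonneg g
    simp only [hH]
    positivity
  have h1 : S4 F i be j de Φ ≤ ∑ a ∈ mon k i, ∑ b ∈ mon k be, ∑ c ∈ mon k j, ∑ d ∈ mon k de,
      H (a * b) (c * d) := by
    refine sum_le_sum fun a ha => sum_le_sum fun b hb => sum_le_sum fun c hc =>
      sum_le_sum fun d hd => ?_
    simp only [hH]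
    split_ifs with e
    · have u1 := one_le_nd (a * b)
      have u2 := one_le_nd (c * d)
      rw [le_div_iff₀ (by positivity), mul_comm]
      exact h a ha b hb c hc d hd e
    · exact le_rfl
  have h2 := sw_pair i be (fun f => ∑ c ∈ mon k j, ∑ d ∈ mon k de, H f (c * d))
    fun f => sum_nonneg fun _ _ => sum_nonneg fun _ _ => H0 _ _
  refine (h1.trans h2).trans ?_
  have h3 : ∀ f ∈ mon k (i + be), nd f * ∑ c ∈ mon k j, ∑ d ∈ mon k de, H f (c * d) ≤
      ∑ g ∈ mon k (j + de), ((if f + g = F then A f else 0) + if f + g = F then B g else 0) := by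
    intro f hf
    refine (mul_le_mul_of_nonneg_left (sw_pair j de (H f) (H0 f)) (nd_nonneg _)).trans ?_
    rw [mul_sum]
    refine sum_le_sum fun g hg => ?_
    have u1 := one_le_nd f
    have u2 := one_le_nd g
    simp only [hH]
    split_ifs
    · exact le_of_eq (by field_simp)
    · simp
  refine (sum_le_sum h3).trans ?_
  simp only [sum_add_distrib]
  refine add_le_add (sum_le_sum fun f _ => ?_) ?_
  · simp only [← eq_sub_iff_add_eq', sum_ite_eq']
    split_ifs
    · exact le_rfl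
    · exact hA f
  · rw [sum_comm]
    refine sum_le_sum fun g _ => ?_
    simp only [← eq_sub_iff_add_eq, sum_ite_eq']
    split_ifs
    · exact le_rfl
    · exact hB g

theorem sw_sub (F : k[X]) (i be j de : ℕ) (Φ Ψ Θ Ξ : k[X] → k[X] → k[X] → k[X] → ℝ)
    (h : ∀ a ∈ mon k i, ∀ b ∈ mon k be, ∀ c ∈ mon k j, ∀ d ∈ mon k de, a * b + c * d = F →
      |Φ a b c d - Ψ a b c d| ≤ Θ a b c d + Ξ a b c d) :
    |S4 F i be j de Φ - S4 F i be j de Ψ| ≤ S4 F i be j de Θ + S4 F i be j de Ξ := by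
  simp only [S4, ← sum_sub_distrib, ← sum_add_distrib]
  refine (abs_sum_le_sum_abs _ _).trans (sum_le_sum fun a ha => ?_)
  refine (abs_sum_le_sum_abs _ _).trans (sum_le_sum fun b hb => ?_)
  refine (abs_sum_le_sum_abs _ _).trans (sum_le_sum fun c hc => ?_)
  refine (abs_sum_le_sum_abs _ _).trans (sum_le_sum fun d hd => ?_)
  split_ifs with e
  · exact h a ha b hb c hc d hd e
  · simp

theorem sw_err {N i be j de : ℕ} {F : k[X]} (hc : Cell F N i be j de) (u : ℕ) :
    S4 F i be j de (fun a b c d => 2 * (nd (a * b) * nd (c * d)) ^ 2 / 4 ^ u) ≤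
      2 * ((N : ℝ) + 2) ^ 63 * qq k ^ (N + 1) / 4 ^ u := by
  obtain ⟨-, -, -, h1, -, h2⟩ := hc
  have hq := two_le_qq (k := k)
  have h3 : ∀ n, n ≤ N + 1 → ∑ f ∈ mon k n, nd f ^ 6 / 4 ^ u ≤
      ((N : ℝ) + 2) ^ 63 * qq k ^ (N + 1) / 4 ^ u := by
    intro n hn
    rw [← sum_div]
    refine div_le_div_of_nonneg_right ((sum_nd_pow 6 n).trans ?_) (by positivity)
    have : (n : ℝ) ≤ N + 1 := by exact_mod_cast hn
    exact mul_le_mul (pow_le_pow_left₀ (by positivity) (by linarith) 63)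
      (pow_le_pow_right₀ (by linarith) hn) (by positivity) (by positivity)
  refine (sw_core F i be j de _ (fun f => nd f ^ 6 / 4 ^ u) (fun f => nd f ^ 6 / 4 ^ u)
    (fun f => by positivity) (fun f => by positivity) fun a _ b _ c _ d _ _ => ?_).trans ?_
  · rw [← add_div, ← mul_div_assoc]
    refine div_le_div_of_nonneg_right ?_ (by positivity)
    nlinarith [sq_nonneg (nd (a * b) ^ 3 - nd (c * d) ^ 3)]
  · have := h3 _ h1
    have := h3 _ h2
    rw [mul_assoc, mul_div_assoc]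
    linarith

theorem sw_rho (z : ℕ) (f : k[X]) : 0 ≤ rho z f ∧ rho z f ≤ 1 := by
  unfold rho
  split_ifs <;> norm_num

theorem sw_clean {F a b c d : k[X]} (e : a * b + c * d = F) (h : IsCoprime (a * b) (c * d)) :
    IsCoprime b F ∧ IsCoprime c F ∧ IsCoprime d F := by
  subst e
  refine ⟨?_, ?_, ?_⟩
  · rw [add_comm]
    exact h.of_mul_left_right.add_mul_right_right a
  · exact h.symm.of_mul_left_left.add_mul_left_right d
  · exact h.symm.of_mul_left_right.add_mul_right_right c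

/-- The general swap: `Ψ` vanishes off `P`, clean quadruples satisfy `P`. -/
theorem sw_gen {z N i be j de : ℕ} {F : k[X]} (hc : Cell F N i be j de) (u : ℕ)
    (Ψ : k[X] → k[X] → k[X] → k[X] → ℝ) (P : k[X] → k[X] → k[X] → k[X] → Prop)
    (hP : ∀ a b c d, a * b + c * d = F → Squarefree (a * b) → Squarefree (c * d) →
      IsCoprime (a * b) (c * d) → P a b c d)
    (h0 : ∀ a b c d, ¬ P a b c d → Ψ a b c d = 0)
    (h1 : ∀ a ∈ mon k i, ∀ b ∈ mon k be, ∀ c ∈ mon k j, ∀ d ∈ mon k de, P a b c d →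
      |rho z a * rho z b * rho z c * rho z d * (mu a * mu c) - Ψ a b c d| ≤
        2 * (nd (a * b) * nd (c * d)) ^ 2 / 4 ^ u) :
    |TT z F i be j de - S4 F i be j de Ψ| ≤ BAD z F i be j de +
      2 * ((N : ℝ) + 2) ^ 63 * qq k ^ (N + 1) / 4 ^ u := by
  refine (sw_sub F i be j de _ Ψ _ (fun a b c d => 2 * (nd (a * b) * nd (c * d)) ^ 2 / 4 ^ u)
    fun a ha b hb c hc d hd e => ?_).trans (add_le_add le_rfl (sw_err hc u))
  have r0 : 0 ≤ rho z a * rho z b * rho z c * rho z d :=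
    mul_nonneg (mul_nonneg (mul_nonneg (sw_rho z a).1 (sw_rho z b).1) (sw_rho z c).1) (sw_rho z d).1
  by_cases hp : P a b c d
  · refine (h1 a ha b hb c hc d hd hp).trans (le_add_of_nonneg_left (mul_nonneg r0 ?_))
    split_ifs <;> norm_num
  · rw [h0 a b c d hp, sub_zero, if_neg fun h => hp (hP a b c d e h.1 h.2.1 h.2.2), abs_mul,
      abs_of_nonneg r0, abs_mul]
    refine le_add_of_le_of_nonneg (mul_le_mul_of_nonneg_left ?_ r0) (by positivity)
    exact mul_le_one₀ (sw_mu a) (abs_nonneg _) (sw_mu c)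

theorem sw_abs {x y w : ℝ} (hx : |x| ≤ 1) (hy : |y| ≤ w) : |x * y| ≤ w := by
  rw [abs_mul]
  exact (mul_le_of_le_one_left (abs_nonneg _) hx).trans hy

theorem sw_abs_rho (z : ℕ) (f : k[X]) : |rho z f| ≤ 1 := by
  rw [abs_of_nonneg (sw_rho z f).1]
  exact (sw_rho z f).2

theorem sw_two (z u : ℕ) {x y f g : k[X]} (f0 : f ≠ 0) (g0 : g ≠ 0) (hx : x ∣ f) (hy : y ∣ g) :
    |rho z x * rho z y - brun z u x * brun z u y| ≤ 2 * (nd f * nd g) ^ 2 / 4 ^ u := by
  have x0 := ne_zero_of_dvd_ne_zero f0 hx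
  have y0 := ne_zero_of_dvd_ne_zero g0 hy
  have u1 := one_le_nd f
  have u2 := one_le_nd g
  have u3 := nd_mono f0 hx
  have u4 := nd_mono g0 hy
  have y1 : rho z x ≤ _ := brun_ge z u x
  have y2 : _ - rho z x ≤ _ := brun_sub_le z u x0
  have y3 : rho z y ≤ _ := brun_ge z u y
  have y4 : _ - rho z y ≤ _ := brun_sub_le z u y0
  have y5 := brun_le_nd z u x0
  have r1 := sw_rho z x
  have r2 := sw_rho z y
  rw [abs_sub_comm, abs_of_nonneg (sub_nonneg.2 (mul_le_mul y1 y3 r2.1 (r1.1.trans y1)))]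
  have a1 : brun z u x - rho z x ≤ nd f ^ 2 / 4 ^ u := y2.trans
    (div_le_div_of_nonneg_right (pow_le_pow_left₀ (nd_nonneg _) u3 2) (by positivity))
  have a2 : brun z u y - rho z y ≤ nd g ^ 2 / 4 ^ u := y4.trans
    (div_le_div_of_nonneg_right (pow_le_pow_left₀ (nd_nonneg _) u4 2) (by positivity))
  have a3 : brun z u x * (brun z u y - rho z y) ≤ nd f * (nd g ^ 2 / 4 ^ u) :=
    mul_le_mul (y5.trans u3) a2 (by linarith) (by positivity)
  have a4 : (brun z u x - rho z x) * rho z y ≤ nd f ^ 2 / 4 ^ u :=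
    (mul_le_of_le_one_right (by linarith) r2.2).trans a1
  have a5 : nd f * nd g ^ 2 + nd f ^ 2 ≤ 2 * (nd f * nd g) ^ 2 := by
    have b1 : (1 : ℝ) ≤ nd g ^ 2 := one_le_pow₀ u2
    have b2 : nd f ≤ nd f ^ 2 := by nlinarith
    have b3 := mul_le_mul_of_nonneg_right b2 (sq_nonneg (nd g))
    have b4 := mul_le_mul_of_nonneg_left b1 (sq_nonneg (nd f))
    rw [mul_pow]
    linarith
  have a6 := div_le_div_of_nonneg_right a5 (by positivity : (0 : ℝ) ≤ 4 ^ u)
  rw [add_div, mul_div_assoc] at a6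
  nlinarith

theorem sw_tri {x y w : ℝ} (h : |x - y| ≤ w) : |x| ≤ |y| + w := by
  have := abs_sub_abs_le_abs_sub x y
  linarith

/-- Method 1 form. -/
theorem swap1 {z N i be j de : ℕ} {F : k[X]} (hc : Cell F N i be j de) (u : ℕ) :
    |TT z F i be j de| ≤ |∑ a ∈ mon k i, ∑ b ∈ mon k be, ∑ c ∈ mon k j, ∑ d ∈ mon k de,
        (if a * b + c * d = F then (if IsCoprime b F then rho z b * rho z c * mu c else 0) *
          (if IsCoprime d F ∧ Squarefree d then rho z d else 0) * (mu a * brun z u a) else 0)| +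
      (BAD z F i be j de + 2 * ((N : ℝ) + 2) ^ 63 * qq k ^ (N + 1) / 4 ^ u) := by
  refine sw_tri (sw_gen hc u _ (fun _ b _ d => IsCoprime b F ∧ IsCoprime d F ∧ Squarefree d)
    (fun a b c d e _ h2 h3 => ⟨(sw_clean e h3).1, (sw_clean e h3).2.2, h2.of_mul_right⟩)
    (fun a b c d h => ?_) fun a ha b hb c hc d hd h => ?_)
  · by_cases h1 : IsCoprime b F
    · rw [if_neg fun h2 : IsCoprime d F ∧ Squarefree d => h ⟨h1, h2⟩, mul_zero, zero_mul]
    · rw [if_neg h1, zero_mul, zero_mul]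
  · rw [if_pos h.1, if_pos h.2]
    have h1 : Rough z (1 : k[X]) := fun p hp hd => absurd (isUnit_of_dvd_one hd) hp.not_isUnit
    have h2 := sw_two z u (mem_mon.1 (sw_mul_mon ha hb)).1.ne_zero
      (mem_mon.1 (sw_mul_mon hc hd)).1.ne_zero (dvd_mul_right a b) (one_dvd _)
    rw [brun_of_rough u h1, show rho z (1 : k[X]) = 1 from if_pos h1, mul_one, mul_one] at h2
    have e1 : rho z a * rho z b * rho z c * rho z d * (mu a * mu c) -
        rho z b * rho z c * mu c * rho z d * (mu a * brun z u a) =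
        rho z b * (rho z c * (rho z d * (mu a * (mu c * (rho z a - brun z u a))))) := by ring
    rw [e1]
    exact sw_abs (sw_abs_rho z b) (sw_abs (sw_abs_rho z c) (sw_abs (sw_abs_rho z d)
      (sw_abs (sw_mu a) (sw_abs (sw_mu c) h2))))

/-- Method 2 form. -/
theorem swap2 {z N i be j de : ℕ} {F : k[X]} (hc : Cell F N i be j de) (u : ℕ) :
    |TT z F i be j de| ≤ |∑ a ∈ mon k i, ∑ b ∈ mon k be, ∑ c ∈ mon k j, ∑ d ∈ mon k de,
        (if a * b + c * d = F then (if IsCoprime c F ∧ Squarefree c then rho z b * rho z c * mu c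
          else 0) * (mu a * (brun z u a * brun z u d)) else 0)| +
      (BAD z F i be j de + 2 * ((N : ℝ) + 2) ^ 63 * qq k ^ (N + 1) / 4 ^ u) := by
  refine sw_tri (sw_gen hc u _ (fun _ _ c _ => IsCoprime c F ∧ Squarefree c)
    (fun a b c d e _ h2 h3 => ⟨(sw_clean e h3).2.1, h2.of_mul_left⟩)
    (fun a b c d h => ?_) fun a ha b hb c hc d hd h => ?_)
  · rw [if_neg h, zero_mul]
  · rw [if_pos h]
    have e1 : rho z a * rho z b * rho z c * rho z d * (mu a * mu c) -
        rho z b * rho z c * mu c * (mu a * (brun z u a * brun z u d)) =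
        rho z b * (rho z c * (mu a * (mu c * (rho z a * rho z d - brun z u a * brun z u d)))) := by
      ring
    rw [e1]
    exact sw_abs (sw_abs_rho z b) (sw_abs (sw_abs_rho z c) (sw_abs (sw_mu a) (sw_abs (sw_mu c)
      (sw_two z u (mem_mon.1 (sw_mul_mon ha hb)).1.ne_zero
        (mem_mon.1 (sw_mul_mon hc hd)).1.ne_zero (dvd_mul_right a b) (dvd_mul_left d c)))))

/-- Model form: the swap on `b` and `d`, nothing removed. -/
theorem swap3 {z N i be j de : ℕ} {F : k[X]} (hc : Cell F N i be j de) (u : ℕ) :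
    |TT z F i be j de - S4 F i be j de fun a b c d =>
        rho z a * mu a * (rho z c * mu c) * (brun z u b * brun z u d)| ≤
      2 * ((N : ℝ) + 2) ^ 63 * qq k ^ (N + 1) / 4 ^ u := by
  have h := sw_sub F i be j de
    (fun a b c d => rho z a * rho z b * rho z c * rho z d * (mu a * mu c))
    (fun a b c d => rho z a * mu a * (rho z c * mu c) * (brun z u b * brun z u d))
    (fun a b c d => 2 * (nd (a * b) * nd (c * d)) ^ 2 / 4 ^ u) (fun _ _ _ _ => 0)
    fun a ha b hb c hc d hd _ => by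
      have e1 : rho z a * rho z b * rho z c * rho z d * (mu a * mu c) -
          rho z a * mu a * (rho z c * mu c) * (brun z u b * brun z u d) =
          rho z a * (rho z c * (mu a * (mu c * (rho z b * rho z d - brun z u b * brun z u d)))) := by
        ring
      rw [e1, add_zero]
      exact sw_abs (sw_abs_rho z a) (sw_abs (sw_abs_rho z c) (sw_abs (sw_mu a) (sw_abs (sw_mu c)
        (sw_two z u (mem_mon.1 (sw_mul_mon ha hb)).1.ne_zero
          (mem_mon.1 (sw_mul_mon hc hd)).1.ne_zero (dvd_mul_left b a) (dvd_mul_left d c)))))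
  rw [show S4 F i be j de (fun _ _ _ _ => 0) = 0 by simp [S4], add_zero] at h
  exact h.trans (sw_err hc u)

theorem sw_cnt (z : ℕ) {f : k[X]} (hf : f ≠ 0) : #{p ∈ sp k z | p ∣ f} ≤ f.natDegree := by
  have hS : {p ∈ sp k z | p ∣ f} ⊆ sp k z := filter_subset _ _
  refine le_trans ?_ (natDegree_le_of_dvd
    ((br_prod_dvd hS f).2 fun p hp => (mem_filter.1 hp).2) hf)
  rw [natDegree_prod_of_monic _ _ fun p hp => (mem_sp.1 (hS hp)).1, card_eq_sum_ones]
  exact sum_le_sum fun p hp => (mem_sp.1 (hS hp)).2.1.natDegree_pos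

/-- Pointwise bound for Brun's weight. -/
theorem sw_pow (z u : ℕ) {f : k[X]} (hf : f ≠ 0) :
    |brun z u f| ≤ ((f.natDegree : ℝ) + 1) ^ (2 * u) := by
  rw [abs_of_nonneg (brun_nonneg z u f)]
  by_cases h : Rough z f
  · rw [brun_of_rough u h]
    exact one_le_pow₀ (le_add_of_nonneg_left (Nat.cast_nonneg _))
  · obtain ⟨w, hw, e⟩ := brun_of_not u h
    have h1 := sw_cnt z hf
    rw [e]
    exact_mod_cast (Nat.choose_le_pow w (2 * u)).trans (Nat.pow_le_pow_left (by omega) _)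

theorem sw_pow_mu (z u : ℕ) {i : ℕ} {a : k[X]} (ha : a ∈ mon k i) :
    |mu a * brun z u a| ≤ ((i : ℝ) + 1) ^ (2 * u) := by
  rw [← (mem_mon.1 ha).2]
  exact sw_abs (sw_mu a) (sw_pow z u (mem_mon.1 ha).1.ne_zero)

theorem sw_bset {z u : ℕ} {e : k[X]} (he : e ∈ bset k z u) :
    e ≠ 0 ∧ e.natDegree ≤ 2 * u * z ∧ |lam e| ≤ 1 :=
  ⟨(bset_spec he).1.ne_zero, (bset_spec he).2.2.1, (abs_lam e).le⟩

theorem sw_al1 (z : ℕ) (F b c : k[X]) :
    |if IsCoprime b F then rho z b * rho z c * mu c else 0| ≤ 1 := by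
  split_ifs
  · rw [mul_assoc]
    exact sw_abs (sw_abs_rho z b) (sw_abs (sw_abs_rho z c) (sw_mu c))
  · simp

theorem sw_rh1 (z : ℕ) (F d : k[X]) :
    |if IsCoprime d F ∧ Squarefree d then rho z d else 0| ≤ 1 := by
  split_ifs
  · exact sw_abs_rho z d
  · simp

theorem sw_al2 (z : ℕ) (F b c : k[X]) :
    |if IsCoprime c F ∧ Squarefree c then rho z b * rho z c * mu c else 0| ≤ 1 := by
  split_ifs
  · rw [mul_assoc]
    exact sw_abs (sw_abs_rho z b) (sw_abs (sw_abs_rho z c) (sw_mu c))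
  · simp

theorem sw_sep {d F : k[X]} (h : IsCoprime d F ∧ Squarefree d) :
    IsCoprime d (F * derivative d) :=
  h.1.mul_right (PerfectField.separable_iff_squarefree.2 h.2)

end
end Pool.Agent.HGB
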