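import Pool.Agent.MP_b5e119_nt.GB.Brun48

set_option autoImplicit false

open Polynomial Finset Filter
open scoped Classical BigOperators

noncomputable section
namespace Pool.Agent.HGB
open Pool.Agent.MP_a4a062_nt.C2

variable {k : Type*} [Field k] [Fintype k]

omit [Fintype k] in
theorem id_rough_prime {z : ℕ} {f : k[X]} (hf : Irreducible f) (hz : z < f.natDegree) :
    Rough z f := by
  intro p h2 h3
  have := (h2.associated_of_dvd hf h3)
  rw [natDegree_eq_of_degree_eq (degree_eq_degree_of_associated this)]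
  exact hz

theorem id_dv_sub {p g : k[X]} (hp : p.Monic) (hi : Irreducible p) (hg : g ≠ 0) :
    dv (p * g) = dv g ∪ (dv g).image (fun a => p * a) := by
  ext a
  have h0 : p * g ≠ 0 := mul_ne_zero hp.ne_zero hg
  rw [mem_union, mem_image, mem_dv h0, mem_dv hg]
  constructor
  · rintro ⟨h1, h2⟩
    by_cases h : p ∣ a
    · obtain ⟨a', rfl⟩ := h
      right
      refine ⟨a', (mem_dv hg).2 ⟨hp.of_mul_monic_left h1, ?_⟩, rfl⟩
      exact (mul_dvd_mul_iff_left hp.ne_zero).1 h2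
    · left
      exact ⟨h1, ((hi.coprime_iff_not_dvd.2 h).symm).dvd_of_dvd_mul_left h2⟩
  · rintro (⟨h1, h2⟩ | ⟨a', h1, rfl⟩)
    · exact ⟨h1, h2.mul_left _⟩
    · have h2 := (mem_dv hg).1 h1
      exact ⟨hp.mul h2.1, mul_dvd_mul_left _ h2.2⟩

theorem id_sum_split {p g : k[X]} (hp : p.Monic) (hi : Irreducible p) (hg : g ≠ 0)
    (hn : ¬ p ∣ g) (G : k[X] → ℝ) :
    ∑ a ∈ dv (p * g), G a = ∑ a ∈ dv g, G a + ∑ a ∈ dv g, G (p * a) := by
  rw [id_dv_sub hp hi hg, sum_union, sum_image]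
  · intro a _ b _ h
    exact mul_left_cancel₀ hp.ne_zero h
  · rw [disjoint_left]
    intro a h1 h2
    obtain ⟨a', _, rfl⟩ := mem_image.1 h2
    exact hn ((dvd_mul_right p a').trans ((mem_dv hg).1 h1).2)

omit [Fintype k] in
theorem id_lam_prime {p : k[X]} (hi : Irreducible p) : lam p = -1 := by
  unfold lam
  rw [UniqueFactorizationMonoid.card_factors_of_irreducible hi]
  simp

omit [Fintype k] in
theorem id_lam_one : lam (1 : k[X]) = 1 := by
  unfold lam
  simp

omit [Fintype k] in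
theorem id_fac {f : k[X]} (hf : f.Monic) (h1 : f ≠ 1) :
    ∃ p g : k[X], p.Monic ∧ Irreducible p ∧ g.Monic ∧ f = p * g := by
  have hu : ¬ IsUnit f := fun h => h1 (hf.eq_one_of_isUnit h)
  obtain ⟨p, hp, hi, g, rfl⟩ := exists_monic_irreducible_factor f hu
  exact ⟨p, g, hp, hi, hp.of_mul_monic_left hf, rfl⟩

theorem id_dv_one : dv (1 : k[X]) = {1} := by
  ext a
  rw [mem_dv one_ne_zero, mem_singleton]
  exact ⟨fun h => h.1.eq_one_of_isUnit (isUnit_of_dvd_one h.2), fun h => by simp [h]⟩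

theorem id_S0 {f : k[X]} (hf : f.Monic) (hs : Squarefree f) (h1 : f ≠ 1) :
    ∑ a ∈ dv f, lam a = 0 := by
  obtain ⟨p, g, hp, hi, hg, rfl⟩ := id_fac hf h1
  have hn : ¬ p ∣ g := fun h => hi.not_isUnit (hs p (mul_dvd_mul_left p h))
  rw [id_sum_split hp hi hg.ne_zero hn, ← sum_add_distrib]
  refine sum_eq_zero fun a ha => ?_
  rw [lam_mul hp.ne_zero ((mem_dv hg.ne_zero).1 ha).1.ne_zero, id_lam_prime hi]
  ring

theorem id_S1 {f : k[X]} (hf : f.Monic) (hs : Squarefree f) (h1 : f ≠ 1) :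
    ∑ a ∈ dv f, lam a * (a.natDegree : ℝ) =
      if Irreducible f then -(f.natDegree : ℝ) else 0 := by
  obtain ⟨p, g, hp, hi, hg, rfl⟩ := id_fac hf h1
  have hn : ¬ p ∣ g := fun h => hi.not_isUnit (hs p (mul_dvd_mul_left p h))
  rw [id_sum_split hp hi hg.ne_zero hn, ← sum_add_distrib]
  have e : ∑ a ∈ dv g, (lam a * (a.natDegree : ℝ) + lam (p * a) * ((p * a).natDegree : ℝ)) =
      -(p.natDegree : ℝ) * ∑ a ∈ dv g, lam a := by
    rw [mul_sum]
    refine sum_congr rfl fun a ha => ?_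
    have h2 := ((mem_dv hg.ne_zero).1 ha).1
    rw [lam_mul hp.ne_zero h2.ne_zero, id_lam_prime hi, hp.natDegree_mul h2]
    push_cast
    ring
  rw [e]
  by_cases h : g = 1
  · subst h
    rw [id_dv_one, sum_singleton, id_lam_one, mul_one, mul_one, if_pos hi]
  · rw [id_S0 hg (Squarefree.of_mul_right hs) h, mul_zero, if_neg]
    intro h2
    rcases h2.isUnit_or_isUnit rfl with h3 | h3
    · exact hi.not_isUnit h3
    · exact h (hg.eq_one_of_isUnit h3)

theorem id_card_dv (z : ℕ) : ∀ (n : ℕ) (f : k[X]), f.natDegree = n → f.Monic → Rough z f →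
    #(dv f) ≤ 2 ^ (n / (z + 1)) := by
  intro n
  induction n using Nat.strong_induction_on with
  | _ n ih =>
    intro f hn hf hr
    by_cases h1 : f = 1
    · subst h1
      rw [id_dv_one, card_singleton]
      exact Nat.one_le_two_pow
    · obtain ⟨p, g, hp, hi, hg, rfl⟩ := id_fac hf h1
      have h2 := hr p hi (dvd_mul_right _ _)
      rw [hp.natDegree_mul hg] at hn
      have h3 := ih g.natDegree (by omega) g rfl hg (rough_mul.1 hr).2
      have h4 : g.natDegree / (z + 1) + 1 ≤ n / (z + 1) := by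
        rw [← Nat.add_div_right _ (Nat.succ_pos z)]
        exact Nat.div_le_div_right (by omega)
      rw [id_dv_sub hp hi hg.ne_zero]
      calc _ ≤ #(dv g) + #((dv g).image fun a => p * a) := card_union_le _ _
        _ ≤ #(dv g) + #(dv g) := Nat.add_le_add_left card_image_le _
        _ ≤ 2 ^ (g.natDegree / (z + 1) + 1) := by rw [pow_succ]; omega
        _ ≤ _ := Nat.pow_le_pow_right (by norm_num) h4

/-- Factorisations of `f` by degrees are the monic divisors. -/
theorem id_pairs {n : ℕ} {f : k[X]} (hf : f ∈ mon k n) (G : k[X] → ℕ → ℝ) :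
    ∑ i ∈ range (n + 1), ∑ a ∈ mon k (n - i), ∑ b ∈ mon k i, (if a * b = f then G a i else 0) =
      ∑ a ∈ dv f, G a (n - a.natDegree) := by
  have h := mem_mon.1 hf
  have e1 : ∀ i ∈ range (n + 1), ∑ a ∈ mon k (n - i), ∑ b ∈ mon k i,
      (if a * b = f then G a i else 0) =
      ∑ a ∈ dv f, if n - a.natDegree = i then G a (n - a.natDegree) else 0 := by
    intro i hi
    have hi' := mem_range.1 hi
    rw [← sum_filter]
    have e2 : ∀ a ∈ mon k (n - i), ∑ b ∈ mon k i, (if a * b = f then G a i else 0) =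
        if a ∣ f then G a i else 0 := by
      intro a ha
      have h2 := mem_mon.1 ha
      split_ifs with h3
      · obtain ⟨b, rfl⟩ := h3
        have hb := h2.1.of_mul_monic_left h.1
        have hd := h.2
        rw [h2.1.natDegree_mul hb, h2.2] at hd
        rw [sum_eq_single b, if_pos rfl]
        · intro b' _ hb'
          rw [if_neg fun h4 => hb' (mul_left_cancel₀ h2.1.ne_zero h4)]
        · intro h4
          exact absurd (mem_mon.2 ⟨hb, by omega⟩) h4
      · exact sum_eq_zero fun b _ => if_neg fun h4 => h3 ⟨b, h4.symm⟩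
    rw [sum_congr rfl e2, ← sum_filter]
    refine sum_congr ?_ fun a ha => by rw [(mem_filter.1 ha).2]
    ext a
    rw [mem_filter, mem_filter, mem_mon, mem_dv h.1.ne_zero]
    constructor
    · rintro ⟨⟨h1, h2⟩, h3⟩
      exact ⟨⟨h1, h3⟩, by omega⟩
    · rintro ⟨⟨h1, h3⟩, h2⟩
      have := natDegree_le_of_dvd h3 h.1.ne_zero
      exact ⟨⟨h1, by omega⟩, h3⟩
  rw [sum_congr rfl e1, sum_comm]
  refine sum_congr rfl fun a _ => ?_
  rw [sum_ite_eq, if_pos (mem_range.2 (by omega))]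

/-- The four-variable sum with degrees `i'`, `i`, `j'`, `j`. -/
def idXX (l : k[X] → ℝ) (z : ℕ) (F : k[X]) (i' i j' j : ℕ) : ℝ :=
  ∑ a ∈ mon k i', ∑ b ∈ mon k i, ∑ c ∈ mon k j', ∑ d ∈ mon k j,
    if Rough z a ∧ Rough z b ∧ Rough z c ∧ Rough z d ∧ a * b + c * d = F then l a * l c
    else 0

/-- The inner weight of a pair. -/
def idIn (l : k[X] → ℝ) (n m : ℕ) (f g : k[X]) : ℝ :=
  ∑ a ∈ dv f, ∑ c ∈ dv g,
    (((n - a.natDegree : ℕ) : ℝ) - ((m - c.natDegree : ℕ) : ℝ)) ^ 2 * (l a * l c)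

theorem id_one {n : ℕ} {a b : k[X]} {i : ℕ} (hi : i ∈ range (n + 1))
    (ha : a ∈ mon k (n - i)) (hb : b ∈ mon k i) (G : k[X] → ℝ) :
    G (a * b) = ∑ f ∈ mon k n, if a * b = f then G f else 0 := by
  have h1 := mem_mon.1 ha
  have h2 := mem_mon.1 hb
  have h3 := mem_range.1 hi
  rw [sum_ite_eq, if_pos (mem_mon.2 ⟨h1.1.mul h2.1, by rw [h1.1.natDegree_mul h2.1]; omega⟩)]

theorem id_collect (n : ℕ) (G : k[X] → k[X] → ℕ → ℝ) :
    ∑ i ∈ range (n + 1), ∑ a ∈ mon k (n - i), ∑ b ∈ mon k i, G (a * b) a i =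
      ∑ f ∈ mon k n, ∑ a ∈ dv f, G f a (n - a.natDegree) := by
  have e : ∀ i ∈ range (n + 1), ∑ a ∈ mon k (n - i), ∑ b ∈ mon k i, G (a * b) a i =
      ∑ f ∈ mon k n, ∑ a ∈ mon k (n - i), ∑ b ∈ mon k i, if a * b = f then G f a i else 0 := by
    intro i hi
    rw [sum_comm (s := mon k n)]
    refine sum_congr rfl fun a ha => ?_
    rw [sum_comm (s := mon k n)]
    exact sum_congr rfl fun b hb => id_one hi ha hb fun f => G f a i
  rw [sum_congr rfl e, sum_comm]
  exact sum_congr rfl fun f hf => id_pairs hf (G f)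

theorem id_total (l : k[X] → ℝ) (z n m : ℕ) (F : k[X]) :
    ∑ i ∈ range (n + 1), ∑ j ∈ range (m + 1),
      ((i : ℝ) - j) ^ 2 * idXX l z F (n - i) i (m - j) j =
    ∑ f ∈ mon k n, ∑ g ∈ mon k m,
      if Rough z f ∧ Rough z g ∧ f + g = F then idIn l n m f g else 0 := by
  have e1 : ∀ i ∈ range (n + 1), ∑ j ∈ range (m + 1),
      ((i : ℝ) - j) ^ 2 * idXX l z F (n - i) i (m - j) j =
      ∑ a ∈ mon k (n - i), ∑ b ∈ mon k i, (fun (f a : k[X]) (i : ℕ) =>
        ∑ g ∈ mon k m, ∑ c ∈ dv g, if Rough z f ∧ Rough z g ∧ f + g = F then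
          ((i : ℝ) - ((m - c.natDegree : ℕ) : ℝ)) ^ 2 * (l a * l c) else 0) (a * b) a i := by
    intro i _
    unfold idXX
    simp only [mul_sum]
    rw [sum_comm]
    refine sum_congr rfl fun a _ => ?_
    rw [sum_comm]
    refine sum_congr rfl fun b _ => ?_
    rw [← id_collect m fun g c j => if Rough z (a * b) ∧ Rough z g ∧ a * b + g = F then
      ((i : ℝ) - (j : ℝ)) ^ 2 * (l a * l c) else 0]
    refine sum_congr rfl fun j _ => sum_congr rfl fun c _ => sum_congr rfl fun d _ => ?_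
    rw [mul_ite, mul_zero]
    exact if_congr (by rw [rough_mul, rough_mul]; tauto) rfl rfl
  rw [sum_congr rfl e1]
  refine (id_collect n fun (f a : k[X]) (i : ℕ) =>
    ∑ g ∈ mon k m, ∑ c ∈ dv g, if Rough z f ∧ Rough z g ∧ f + g = F then
      ((i : ℝ) - ((m - c.natDegree : ℕ) : ℝ)) ^ 2 * (l a * l c) else 0).trans ?_
  refine sum_congr rfl fun f _ => ?_
  rw [sum_comm]
  refine sum_congr rfl fun g _ => ?_
  unfold idIn
  split_ifs
  · rfl
  · simp

theorem id_in_sf {l : k[X] → ℝ} (hl : ∀ a, Squarefree a → l a = lam a) {n m : ℕ} (hn : 0 < n)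
    (hm : 0 < m) {f g : k[X]} (hf : f ∈ mon k n) (hg : g ∈ mon k m) (sf : Squarefree f)
    (sg : Squarefree g) :
    idIn l n m f g = if Irreducible f ∧ Irreducible g then -(2 * (n : ℝ) * m) else 0 := by
  have h1 := mem_mon.1 hf
  have h2 := mem_mon.1 hg
  have f1 : f ≠ 1 := fun h => by rw [h, natDegree_one] at h1; omega
  have g1 : g ≠ 1 := fun h => by rw [h, natDegree_one] at h2; omega
  have a0 := id_S0 h1.1 sf f1
  have c0 := id_S0 h2.1 sg g1
  have a1 := id_S1 h1.1 sf f1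
  have c1 := id_S1 h2.1 sg g1
  have e : idIn l n m f g =
      (∑ a ∈ dv f, lam a * ((n : ℝ) - m - a.natDegree) ^ 2) * (∑ c ∈ dv g, lam c)
      + (∑ a ∈ dv f, lam a) * (∑ c ∈ dv g, lam c * ((c.natDegree : ℝ) ^ 2
        + 2 * ((n : ℝ) - m) * c.natDegree))
      - 2 * ((∑ a ∈ dv f, lam a * (a.natDegree : ℝ)) *
        (∑ c ∈ dv g, lam c * (c.natDegree : ℝ))) := by
    unfold idIn
    rw [sum_mul_sum, sum_mul_sum, sum_mul_sum, mul_sum, ← sum_add_distrib, ← sum_sub_distrib]
    refine sum_congr rfl fun a ha => ?_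
    rw [mul_sum, ← sum_add_distrib, ← sum_sub_distrib]
    refine sum_congr rfl fun c hc => ?_
    have h3 := ((mem_dv h1.1.ne_zero).1 ha).2
    have h4 := ((mem_dv h2.1.ne_zero).1 hc).2
    have h5 := natDegree_le_of_dvd h3 h1.1.ne_zero
    have h6 := natDegree_le_of_dvd h4 h2.1.ne_zero
    rw [hl a (sf.squarefree_of_dvd h3), hl c (sg.squarefree_of_dvd h4),
      Nat.cast_sub (by omega), Nat.cast_sub (by omega)]
    ring
  rw [e, a0, c0, a1, c1, h1.2, h2.2]
  by_cases h3 : Irreducible f <;> by_cases h4 : Irreducible g <;> simp [h3, h4]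
  ring

theorem id_in_bd {l : k[X] → ℝ} (hl : ∀ a, |l a| ≤ 1) {z n m : ℕ} {f g : k[X]}
    (hf : f ∈ mon k n) (hg : g ∈ mon k m) (rf : Rough z f) (rg : Rough z g) :
    |idIn l n m f g| ≤ ((n : ℝ) + m) ^ 2 * 2 ^ (n / (z + 1) + m / (z + 1)) := by
  have h1 := mem_mon.1 hf
  have h2 := mem_mon.1 hg
  have c1 : (#(dv f) : ℝ) ≤ 2 ^ (n / (z + 1)) := by
    exact_mod_cast id_card_dv z n f h1.2 h1.1 rf
  have c2 : (#(dv g) : ℝ) ≤ 2 ^ (m / (z + 1)) := by
    exact_mod_cast id_card_dv z m g h2.2 h2.1 rg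
  have e : ∀ a c : k[X], |(((n - a.natDegree : ℕ) : ℝ) - ((m - c.natDegree : ℕ) : ℝ)) ^ 2 *
      (l a * l c)| ≤ ((n : ℝ) + m) ^ 2 := by
    intro a c
    have h3 : ((n - a.natDegree : ℕ) : ℝ) ≤ n := by exact_mod_cast Nat.sub_le _ _
    have h4 : ((m - c.natDegree : ℕ) : ℝ) ≤ m := by exact_mod_cast Nat.sub_le _ _
    have h5 : (0 : ℝ) ≤ ((n - a.natDegree : ℕ) : ℝ) := by positivity
    have h6 : (0 : ℝ) ≤ ((m - c.natDegree : ℕ) : ℝ) := by positivity
    have h7 : |l a * l c| ≤ 1 := by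
      rw [abs_mul]
      exact mul_le_one₀ (hl a) (abs_nonneg _) (hl c)
    rw [abs_mul, abs_of_nonneg (sq_nonneg _)]
    refine (mul_le_of_le_one_right (sq_nonneg _) h7).trans ?_
    exact sq_le_sq' (by linarith) (by linarith)
  unfold idIn
  calc _ ≤ ∑ a ∈ dv f, ∑ c ∈ dv g, ((n : ℝ) + m) ^ 2 :=
        (abs_sum_le_sum_abs _ _).trans (sum_le_sum fun a _ =>
          (abs_sum_le_sum_abs _ _).trans (sum_le_sum fun c _ => e a c))
    _ = ((n : ℝ) + m) ^ 2 * ((#(dv f) : ℝ) * #(dv g)) := by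
        simp only [sum_const, nsmul_eq_mul]
        ring
    _ ≤ _ := by
        rw [pow_add]
        gcongr

omit [Fintype k] in
theorem id_big {z : ℕ} {f : k[X]} (rf : Rough z f) (h : ¬ Squarefree f) :
    Big (z + 1) f := by
  unfold Squarefree at h
  push Not at h
  obtain ⟨x, h1, h2⟩ := h
  obtain ⟨p, hp, hi, h3⟩ := exists_monic_irreducible_factor x h2
  have h4 : p * p ∣ f := (mul_dvd_mul h3 h3).trans h1
  exact ⟨p, hp, rf p hi ((dvd_mul_right p p).trans h4), by rwa [sq]⟩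

theorem id_sum_big (n L : ℕ) :
    ∑ f ∈ mon k n, (if Big L f then (1 : ℝ) else 0) ≤ 2 * qq k ^ n / qq k ^ L := by
  have h := exp_big (k := k) n L
  have h2 := two_le_qq (k := k)
  rw [expect_eq_sum_div_card, card_mon, div_le_iff₀ (by positivity)] at h
  refine h.trans (le_of_eq ?_)
  ring

/-- The identity: the weighted four-variable sums count the prime pairs. -/
theorem id_main {l : k[X] → ℝ} (hl : ∀ a, Squarefree a → l a = lam a) (hb : ∀ a, |l a| ≤ 1)
    {z n m : ℕ} (hn : z < n) (hm : z < m) (F : k[X]) :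
    |∑ i ∈ range (n + 1), ∑ j ∈ range (m + 1),
      ((i : ℝ) - j) ^ 2 * idXX l z F (n - i) i (m - j) j
      + 2 * (n : ℝ) * m * #{x ∈ prs k n ×ˢ prs k m | x.1 + x.2 = F}| ≤
    ((n : ℝ) + m) ^ 2 * 2 ^ (n / (z + 1) + m / (z + 1)) *
      (2 * (qq k ^ n + qq k ^ m) / qq k ^ (z + 1)) := by
  set E : ℝ := ((n : ℝ) + m) ^ 2 * 2 ^ (n / (z + 1) + m / (z + 1)) with hE
  have E0 : 0 ≤ E := by positivity
  have e1 : (2 * (n : ℝ) * m * #{x ∈ prs k n ×ˢ prs k m | x.1 + x.2 = F}) =
      ∑ f ∈ mon k n, ∑ g ∈ mon k m,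
        if (Irreducible f ∧ Irreducible g) ∧ f + g = F then 2 * (n : ℝ) * m else 0 := by
    rw [← sum_product', ← sum_filter, sum_const, nsmul_eq_mul, mul_comm]
    congr 3
    ext x
    unfold prs
    simp only [mem_filter, mem_product]
    tauto
  rw [id_total, e1, ← sum_add_distrib]
  simp only [← sum_add_distrib]
  have e2 : ∀ f ∈ mon k n, ∀ g ∈ mon k m,
      |(if Rough z f ∧ Rough z g ∧ f + g = F then idIn l n m f g else 0) +
        if (Irreducible f ∧ Irreducible g) ∧ f + g = F then 2 * (n : ℝ) * m else 0| ≤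
      E * ((if g = F - f then (if Big (z + 1) f then (1 : ℝ) else 0) else 0) +
        if f = F - g then (if Big (z + 1) g then (1 : ℝ) else 0) else 0) := by
    intro f hf g hg
    have h1 := mem_mon.1 hf
    have h2 := mem_mon.1 hg
    by_cases h : f + g = F
    · rw [if_pos (show g = F - f by rw [← h]; ring), if_pos (show f = F - g by rw [← h]; ring)]
      by_cases h3 : Irreducible f ∧ Irreducible g
      · rw [if_pos ⟨id_rough_prime h3.1 (by omega), id_rough_prime h3.2 (by omega), h⟩,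
          if_pos ⟨h3, h⟩, id_in_sf hl (by omega) (by omega) hf hg h3.1.squarefree h3.2.squarefree,
          if_pos h3, neg_add_cancel, abs_zero]
        positivity
      · rw [if_neg (show ¬ ((Irreducible f ∧ Irreducible g) ∧ f + g = F) from fun h4 => h3 h4.1),
          add_zero]
        by_cases h4 : Rough z f ∧ Rough z g ∧ f + g = F
        · rw [if_pos h4]
          by_cases h5 : Squarefree f ∧ Squarefree g
          · rw [id_in_sf hl (by omega) (by omega) hf hg h5.1 h5.2, if_neg h3, abs_zero]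
            positivity
          · refine (id_in_bd hb hf hg h4.1 h4.2.1).trans (le_mul_of_one_le_right E0 ?_)
            rcases not_and_or.1 h5 with h6 | h6
            · rw [if_pos (id_big h4.1 h6)]
              exact le_add_of_nonneg_right (by positivity)
            · rw [if_pos (id_big h4.2.1 h6)]
              exact le_add_of_nonneg_left (by positivity)
        · rw [if_neg h4, abs_zero]
          positivity
    · rw [if_neg fun h4 => h h4.2.2, if_neg fun h4 => h h4.2, add_zero, abs_zero]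
      positivity
  refine ((abs_sum_le_sum_abs _ _).trans (sum_le_sum fun f hf =>
    (abs_sum_le_sum_abs _ _).trans (sum_le_sum fun g hg => e2 f hf g hg))).trans ?_
  simp only [← mul_sum, sum_add_distrib]
  refine mul_le_mul_of_nonneg_left ?_ E0
  have b1 : ∑ f ∈ mon k n, ∑ g ∈ mon k m,
      (if g = F - f then (if Big (z + 1) f then (1 : ℝ) else 0) else 0) ≤
      2 * qq k ^ n / qq k ^ (z + 1) := by
    refine (sum_le_sum fun f _ => ?_).trans (id_sum_big n (z + 1))
    rw [sum_ite_eq']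
    split_ifs <;> norm_num
  have b2 : ∑ f ∈ mon k n, ∑ g ∈ mon k m,
      (if f = F - g then (if Big (z + 1) g then (1 : ℝ) else 0) else 0) ≤
      2 * qq k ^ m / qq k ^ (z + 1) := by
    rw [sum_comm]
    refine (sum_le_sum fun g _ => ?_).trans (id_sum_big m (z + 1))
    rw [sum_ite_eq']
    split_ifs <;> norm_num
  refine (add_le_add b1 b2).trans (le_of_eq ?_)
  ring

end Pool.Agent.HGB
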