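import Pool.Agent.MP_b5e119_nt.GB.Defs
import Pool.Agent.MP_b5e119_nt.GB.Id9

set_option autoImplicit false

open Polynomial Finset Filter
open scoped Classical BigOperators

noncomputable section
namespace Pool.Agent.HGB
open Pool.Agent.MP_a4a062_nt.C2

section
variable {k : Type*} [Field k] [Fintype k]

theorem bad_cell (i be : ℕ) {G : k[X] → ℝ} (hG : ∀ f, 0 ≤ G f) :
    ∑ a ∈ mon k i, ∑ b ∈ mon k be, G (a * b) ≤ ∑ f ∈ mon k (i + be), #(dv f) * G f := by
  have h := id_collect (k := k) (i + be) fun f _ _ => G f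
  simp only [sum_const, nsmul_eq_mul] at h
  rw [← h]
  have h2 := single_le_sum (s := range (i + be + 1)) (a := be)
    (f := fun i' => ∑ a ∈ mon k (i + be - i'), ∑ b ∈ mon k i', G (a * b))
    (fun _ _ => sum_nonneg fun _ _ => sum_nonneg fun _ _ => hG _) (mem_range.2 (by omega))
  rwa [Nat.add_sub_cancel] at h2

theorem bad_dvd (n : ℕ) {p : k[X]} (hp : p.Monic) :
    ∑ f ∈ mon k n, (if p ∣ f then (1 : ℝ) else 0) ≤ qq k ^ n / qq k ^ p.natDegree := by
  have h2 := two_le_qq (k := k)
  by_cases h : p.natDegree ≤ n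
  · obtain ⟨m, rfl⟩ := Nat.exists_eq_add_of_le' h
    have h1 := exp_mon_mul (n := m) hp (fun _ => (1 : ℝ))
    rw [expect_const (mon_nonempty m), expect_eq_sum_div_card, card_mon] at h1
    rw [le_div_iff₀ (by positivity)]
    apply le_of_eq
    field_simp at h1
    linarith
  · rw [sum_eq_zero]
    · positivity
    · intro f hf
      have h3 := mem_mon.1 hf
      exact if_neg fun h4 => h (by
        have := natDegree_le_of_dvd h4 h3.1.ne_zero
        rwa [h3.2] at this)

theorem bad_card (w : ℕ) {F : k[X]} (hF : F ≠ 0) :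
    #{p ∈ sp k w | p ∣ F} ≤ F.natDegree := by
  have hS : {p ∈ sp k w | p ∣ F} ⊆ sp k w := filter_subset _ _
  have h1 := natDegree_le_of_dvd ((br_prod_dvd hS F).2 fun p hp => (mem_filter.1 hp).2) hF
  rw [natDegree_prod_of_monic _ _ fun p hp => (mem_sp.1 (hS hp)).1] at h1
  refine le_trans ?_ h1
  rw [card_eq_sum_ones]
  exact sum_le_sum fun p hp => (mem_sp.1 (hS hp)).2.1.natDegree_pos

theorem bad_le {z N i be j de : ℕ} {F : k[X]} (hz : 1 ≤ z) (hc : Cell F N i be j de) :
    BAD z F i be j de ≤ ((N : ℝ) + 5) * 4 ^ ((N + 1) / z) * qq k ^ (N + 1) / qq k ^ z := by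
  obtain ⟨hF, hd, -, hn, -, hm⟩ := hc
  have hq := two_le_qq (k := k)
  set K : k[X] → k[X] → ℝ := fun f g => if f + g = F then rho z f * rho z g *
    (if Squarefree f ∧ Squarefree g ∧ IsCoprime f g then 0 else 1) else 0 with hK
  have K0 : ∀ f g, 0 ≤ K f g := fun f g => by
    simp only [hK, rho]
    positivity
  have e1 : BAD z F i be j de = ∑ a ∈ mon k i, ∑ b ∈ mon k be,
      (fun f => ∑ c ∈ mon k j, ∑ d ∈ mon k de, K f (c * d)) (a * b) := by
    unfold BAD S4
    refine sum_congr rfl fun a _ => sum_congr rfl fun b _ => sum_congr rfl fun c _ =>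
      sum_congr rfl fun d _ => ?_
    simp only [hK, rho, rough_mul]
    by_cases h1 : Rough z a <;> by_cases h2 : Rough z b <;> by_cases h3 : Rough z c <;>
      by_cases h4 : Rough z d <;> simp [h1, h2, h3, h4]
  set S : Finset k[X] := {p ∈ sp k (N + 1) | p ∣ F ∧ z < p.natDegree} with hS
  have cd : ∀ n, n ≤ N + 1 → ∀ f ∈ mon k n, Rough z f → (#(dv f) : ℝ) ≤ 2 ^ ((N + 1) / z) := by
    intro n h f hf hr
    have h1 := id_card_dv z n f (mem_mon.1 hf).2 (mem_mon.1 hf).1 hr
    have h2 : n / (z + 1) ≤ (N + 1) / z := Nat.div_le_div h (by omega) (by omega)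
    exact_mod_cast h1.trans (Nat.pow_le_pow_right (by norm_num) h2)
  have e2 : ∀ f ∈ mon k (i + be), ∀ g ∈ mon k (j + de), #(dv f) * (#(dv g) * K f g) ≤
      4 ^ ((N + 1) / z) * ((if g = F - f then (if Big (z + 1) f then (1 : ℝ) else 0) else 0) +
        if f = F - g then ((if Big (z + 1) g then (1 : ℝ) else 0) +
          ∑ p ∈ S, if p ∣ g then (1 : ℝ) else 0) else 0) := by
    intro f hf g hg
    by_cases h0 : f + g = F ∧ Rough z f ∧ Rough z g ∧
        ¬ (Squarefree f ∧ Squarefree g ∧ IsCoprime f g)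
    · obtain ⟨h, rf, rg, h1⟩ := h0
      have h2 : K f g = 1 := by
        simp only [hK, rho]
        rw [if_pos h, if_pos rf, if_pos rg, if_neg h1]
        norm_num
      rw [h2, mul_one, if_pos (show g = F - f by rw [← h]; ring),
        if_pos (show f = F - g by rw [← h]; ring)]
      have h3 : (#(dv f) : ℝ) * #(dv g) ≤ 4 ^ ((N + 1) / z) := by
        rw [show (4 : ℝ) = 2 * 2 by norm_num, mul_pow]
        exact mul_le_mul (cd _ hn f hf rf) (cd _ hm g hg rg) (by positivity) (by positivity)
      refine h3.trans (le_mul_of_one_le_right (by positivity) ?_)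
      by_cases h4 : Squarefree f
      · by_cases h5 : Squarefree g
        · have h6 : ¬ IsUnit (EuclideanDomain.gcd f g) := fun h6 =>
            h1 ⟨h4, h5, EuclideanDomain.gcd_isUnit_iff.1 h6⟩
          obtain ⟨p, hp, hi, h7⟩ := exists_monic_irreducible_factor _ h6
          have h8 := h7.trans (EuclideanDomain.gcd_dvd_left f g)
          have h9 := h7.trans (EuclideanDomain.gcd_dvd_right f g)
          have hF' : p ∣ F := h ▸ dvd_add h8 h9
          have hp' : p ∈ S := mem_filter.2 ⟨mem_sp.2 ⟨hp, hi,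
            (natDegree_le_of_dvd hF' hF).trans hd⟩, hF', rg p hi h9⟩
          have h10 := single_le_sum (f := fun p => if p ∣ g then (1 : ℝ) else 0)
            (fun _ _ => by positivity) hp'
          rw [if_pos h9] at h10
          rw [← add_assoc]
          exact h10.trans (le_add_of_nonneg_left (by positivity))
        · rw [if_pos (id_big rg h5), add_left_comm]
          exact le_add_of_nonneg_right (by positivity)
      · rw [if_pos (id_big rf h4)]
        exact le_add_of_nonneg_right (by positivity)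
    · have h2 : K f g = 0 := by
        simp only [hK, rho]
        split_ifs <;> first | rfl | exact absurd ⟨‹_›, ‹_›, ‹_›, ‹_›⟩ h0 | norm_num
      rw [h2, mul_zero, mul_zero]
      positivity
  have bg : ∀ n, n ≤ N + 1 → ∑ f ∈ mon k n, (if Big (z + 1) f then (1 : ℝ) else 0) ≤
      2 * (qq k ^ (N + 1) / qq k ^ z) := fun n h => by
    refine (id_sum_big n (z + 1)).trans ?_
    rw [mul_div_assoc]
    gcongr
    · linarith
    · linarith
    · omega
  have b3 : ∑ g ∈ mon k (j + de), ∑ p ∈ S, (if p ∣ g then (1 : ℝ) else 0) ≤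
      ((N : ℝ) + 1) * (qq k ^ (N + 1) / qq k ^ z) := by
    rw [sum_comm]
    refine (sum_le_card_nsmul _ _ (qq k ^ (N + 1) / qq k ^ z) fun p hp => ?_).trans ?_
    · have h1 := mem_filter.1 hp
      refine (bad_dvd _ (mem_sp.1 h1.1).1).trans ?_
      have := h1.2.2
      gcongr
      · linarith
      · linarith
    · have h1 : #S ≤ N + 1 := (card_le_card fun p hp => mem_filter.2
        ⟨(mem_filter.1 hp).1, (mem_filter.1 hp).2.1⟩).trans ((bad_card (N + 1) hF).trans hd)
      have h2 : (#S : ℝ) ≤ N + 1 := by exact_mod_cast h1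
      rw [nsmul_eq_mul]
      gcongr
  rw [e1]
  refine (bad_cell i be (G := fun f => ∑ c ∈ mon k j, ∑ d ∈ mon k de, K f (c * d))
    fun f => sum_nonneg fun _ _ => sum_nonneg fun _ _ => K0 _ _).trans ?_
  refine (sum_le_sum fun f _ => mul_le_mul_of_nonneg_left (bad_cell j de (K0 f))
    (by positivity)).trans ?_
  simp only [mul_sum]
  refine (sum_le_sum fun f hf => sum_le_sum fun g hg => e2 f hf g hg).trans ?_
  simp only [← mul_sum, sum_add_distrib]
  have b1 : ∑ f ∈ mon k (i + be), ∑ g ∈ mon k (j + de),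
      (if g = F - f then (if Big (z + 1) f then (1 : ℝ) else 0) else 0) ≤
      2 * (qq k ^ (N + 1) / qq k ^ z) := by
    refine (sum_le_sum fun f _ => ?_).trans (bg _ hn)
    rw [sum_ite_eq']
    split_ifs <;> norm_num
  have b2 : ∑ f ∈ mon k (i + be), ∑ g ∈ mon k (j + de),
      (if f = F - g then ((if Big (z + 1) g then (1 : ℝ) else 0) +
        ∑ p ∈ S, if p ∣ g then (1 : ℝ) else 0) else 0) ≤
      2 * (qq k ^ (N + 1) / qq k ^ z) + ((N : ℝ) + 1) * (qq k ^ (N + 1) / qq k ^ z) := by
    rw [sum_comm]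
    refine le_trans ?_ (add_le_add (bg _ hm) b3)
    rw [← sum_add_distrib]
    refine sum_le_sum fun g _ => ?_
    rw [sum_ite_eq']
    split_ifs <;> first | exact le_rfl | positivity
  refine (mul_le_mul_of_nonneg_left (add_le_add b1 b2) (by positivity)).trans (le_of_eq ?_)
  ring

end


end Pool.Agent.HGB
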