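import Pool.Agent.MP_b5e119_nt.GB.ME1
import Pool.Agent.MP_b5e119_nt.GB.ME2
import Pool.Agent.MP_b5e119_nt.GB.MPar
import Pool.Agent.MP_b5e119_nt.GB.MNum
import Pool.Agent.MP_b5e119_nt.GB.Swap1
import Pool.Agent.MP_b5e119_nt.GB.TBad

set_option autoImplicit false

open Polynomial Finset Filter
open scoped Classical BigOperators

noncomputable section
namespace Pool.Agent.MP_b5e119_nt.GB
open Pool.Agent.MP_a4a062_nt.C2 Pool.Agent.HGB
open Pool.Agent.MP_b5e119_nt.W64 (wt od)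

variable (k : Type) [Field k] [Fintype k] [CharP k 2]

theorem hm_div {κ N si : ℕ} (hκ : 0 < κ) (h1 : 4 * κ ≤ N) (h2 : N / κ ≤ si + 1) :
    N + 1 ≤ 2 * κ * si := by
  have h3 := Nat.lt_mul_div_succ N hκ
  have h4 : κ * (N / κ + 1) ≤ κ * (si + 2) := Nat.mul_le_mul_left _ (by omega)
  have h5 : κ * (si + 2) = κ * si + 2 * κ := by ring
  have h6 : 2 * κ * si = 2 * (κ * si) := by ring
  omega

theorem hm_lev {N₁ t N : ℕ} (h1 : 2 * N₁ ≤ t) (h2 : t ^ 10 ≤ N) :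
    N₁ * (2 * Nat.sqrt t * t ^ 7) ≤ N + 1 := by
  have h3 : Nat.sqrt t ≤ t ^ 2 := (Nat.sqrt_le_self t).trans (Nat.le_self_pow (by norm_num) t)
  calc N₁ * (2 * Nat.sqrt t * t ^ 7) = 2 * N₁ * Nat.sqrt t * t ^ 7 := by ring
    _ ≤ t * t ^ 2 * t ^ 7 := Nat.mul_le_mul_right _ (Nat.mul_le_mul h1 h3)
    _ = t ^ 10 := by ring
    _ ≤ N + 1 := by omega

omit [CharP k 2] in
theorem hm_err (N m : ℕ) : 2 * ((N : ℝ) + 2) ^ 63 * qq k ^ (N + 1) / 4 ^ m ≤
    qq k ^ (N + 1) * ((N : ℝ) + 2) ^ 64 / 4 ^ m := by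
  have hq := two_le_qq (k := k)
  have h0 : (0 : ℝ) ≤ N := Nat.cast_nonneg N
  refine div_le_div_of_nonneg_right ?_ (by positivity)
  rw [mul_comm, pow_succ ((N : ℝ) + 2) 63, mul_comm (((N : ℝ) + 2) ^ 63)]
  gcongr
  linarith

omit [CharP k 2] in
theorem hm_swap (F : k[X]) (i be j de : ℕ) (Φ : k[X] → k[X] → k[X] → k[X] → ℝ) :
    S4 F i be de j Φ = S4 F i be j de fun a b c d => Φ a b d c := by
  unfold S4
  refine sum_congr rfl fun a _ => sum_congr rfl fun b _ => ?_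
  rw [sum_comm]
  refine sum_congr rfl fun c _ => sum_congr rfl fun d _ => ?_
  rw [mul_comm d c]

theorem hm2 : HM2 k := by
  intro κ hκ
  obtain ⟨K, hK, hp⟩ := par (2 * κ)
  obtain ⟨M, c₁, hM, hc₁, he⟩ := e2 k K hK
  obtain ⟨N₁, -, hp⟩ := hp M hM
  obtain ⟨n₀, hp⟩ := eventually_atTop.1 hp
  have hq := two_le_qq (k := k)
  filter_upwards [num K 64 N₁ c₁ (qq k) hq, eventually_ge_atTop (n₀ + 4 * κ + 2 * N₁ + 1)] with t hn
    ht N F i be j de h1 h2 hc h3 h4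
  have hN : t ≤ N := (Nat.le_self_pow (by norm_num) t).trans h1
  have hd : 4 ≤ N / κ := (Nat.le_div_iff_mul_le hκ).2 (by omega)
  have hb := bad_le (z := t ^ 7) (Nat.one_le_pow _ _ (by omega)) hc
  have a3 := HGB.swap2 (z := t ^ 7) hc (Nat.sqrt t)
  have a4 := hm_err k N (Nat.sqrt t)
  obtain ⟨-, -, c1, c2, c3, c4⟩ := hc
  obtain ⟨si, rfl⟩ : ∃ si, i = j + si := ⟨i - j, by omega⟩
  obtain ⟨ka, len, D, y, s, p1, p2⟩ := hp (N + 1) (by omega) j be si _ (by omega)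
    (hm_div hκ (by omega) (by omega)) (by omega) (hm_lev (by omega) h1)
  have h5 := he F (N + 1) be de j si (min si (de - be)) ka len D y s (t ^ 7) (Nat.sqrt t)
    (fun b c => if IsCoprime c F ∧ Squarefree c then rho (t ^ 7) b * rho (t ^ 7) c * mu c else 0)
    (by omega) (by omega) (min_le_left _ _) (by omega) (by omega) p2 (sw_al2 _ F)
    fun b c h => (of_not_not fun h' => h (if_neg h') : IsCoprime c F ∧ Squarefree c).symm
  rw [hm_swap] at h5
  simp only [S4, mul_assoc (mu _) (brun _ _ _)] at h5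
  have h6 := hn N s 0 t h1 h2 p1 (by omega)
  have h8 : ((N + 1 : ℕ) : ℝ) + 1 = (N : ℝ) + 2 := by push_cast; ring
  rw [h8] at h5
  have h9 : 0 ≤ c₁ * qq k ^ (N + 1) * ((N : ℝ) + 2) ^ (K + 4 * Nat.sqrt t + 3) *
      √(qq k ^ 0 / qq k ^ t) := by positivity
  rw [mul_add] at h6
  linarith

theorem hm1 : HM1 k := by
  intro κ hκ
  obtain ⟨K, hK, hp⟩ := par (2 * κ)
  obtain ⟨M, c₁, hM, hc₁, he⟩ := e1 k K hK
  obtain ⟨N₁, -, hp⟩ := hp M hM
  obtain ⟨n₀, hp⟩ := eventually_atTop.1 hp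
  have hq := two_le_qq (k := k)
  filter_upwards [num K 64 N₁ c₁ (qq k) hq, eventually_ge_atTop (n₀ + 4 * κ + 2 * N₁ + 1)] with t hn
    ht N F i be j de h1 h2 hc h3 h4 h4'
  have hN : t ≤ N := (Nat.le_self_pow (by norm_num) t).trans h1
  have hd : 4 ≤ N / κ := (Nat.le_div_iff_mul_le hκ).2 (by omega)
  have hb := bad_le (z := t ^ 7) (Nat.one_le_pow _ _ (by omega)) hc
  have a3 := HGB.swap1 (z := t ^ 7) hc (Nat.sqrt t)
  have a4 := hm_err k N (Nat.sqrt t)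
  obtain ⟨c0, c0', c1, c2, c3, c4⟩ := hc
  obtain ⟨si, rfl⟩ : ∃ si, i = de + si := ⟨i - de, by omega⟩
  obtain ⟨ka, len, D, y, s, p1, p2⟩ := hp (N + 1) (by omega) de be si _ (by omega)
    (hm_div hκ (by omega) (by omega)) (by omega) (hm_lev (by omega) h1)
  have h5 := he F (N + 1) be j de si (min si (j - be)) ka len D y s (t ^ 7) (Nat.sqrt t)
    (fun b c => if IsCoprime b F then rho (t ^ 7) b * rho (t ^ 7) c * mu c else 0)
    (fun d => if IsCoprime d F ∧ Squarefree d then rho (t ^ 7) d else 0) c0 c0'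
    (by omega) (by omega) (min_le_left _ _) (by omega) (by omega) (by omega) (by omega) p2
    (sw_al1 _ F) (sw_rh1 _ F) (fun b c h => of_not_not fun h' => h (if_neg h'))
    fun d h => (of_not_not fun h' => h (if_neg h') : IsCoprime d F ∧ Squarefree d).symm
  simp only [S4] at h5
  have h6 := hn N s be de h1 h2 p1 h3
  have h8 : ((N + 1 : ℕ) : ℝ) + 1 = (N : ℝ) + 2 := by push_cast; ring
  rw [h8] at h5
  linarith


end Pool.Agent.MP_b5e119_nt.GB
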