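import Pool.Agent.MP_b5e119_nt.GB.Defs

set_option autoImplicit false

open Polynomial Finset Filter
open scoped Classical BigOperators

noncomputable section
namespace Pool.Agent.HGB
open Pool.Agent.MP_a4a062_nt.C2

section
variable {k : Type*} [Field k] [Fintype k]

theorem fr_prs_le (e : ℕ) : (e : ℝ) * #(prs k e) ≤ qq k ^ e := by
  rcases Nat.eq_zero_or_pos e with rfl | he
  · simp
  have h1 : 1 < Fintype.card k := Fintype.one_lt_card
  have hd := FiniteField.X_pow_card_pow_sub_X_natDegree_eq k he.ne' h1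
  have hm : (X ^ Fintype.card k ^ e - X : k[X]).Monic := monic_X_pow_sub (by
    rw [degree_X]; exact_mod_cast Nat.one_lt_pow he.ne' h1)
  have hS : ∀ p ∈ prs k e, p.Monic ∧ p.natDegree = e ∧ Irreducible p := fun p hp =>
    ⟨(mem_mon.1 (mem_filter.1 hp).1).1, (mem_mon.1 (mem_filter.1 hp).1).2, (mem_filter.1 hp).2⟩
  have h3 : ∏ p ∈ prs k e, p ∣ X ^ Fintype.card k ^ e - X := by
    refine Finset.prod_dvd_of_coprime (fun a ha b hb hab => ?_) fun a ha => ?_
    · exact (hS a ha).2.2.coprime_iff_not_dvd.2 fun hd => hab (eq_of_monic_of_associated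
        (hS a ha).1 (hS b hb).1 ((hS a ha).2.2.associated_of_dvd (hS b hb).2.2 hd))
    · rw [← Nat.card_eq_fintype_card,
        ← (hS a ha).2.2.natDegree_dvd_iff_dvd_X_pow_card_pow_sub_X, (hS a ha).2.1]
  have h4 := natDegree_le_of_dvd h3 hm.ne_zero
  rw [natDegree_prod_of_monic _ _ fun p hp => (hS p hp).1, hd,
    sum_congr rfl fun p hp => (hS p hp).2.1, sum_const, smul_eq_mul, mul_comm] at h4
  unfold qq
  exact_mod_cast h4

/-- All prime factors of `f` have their degree in `Q`. -/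
def FrQ (Q : ℕ → Prop) (f : k[X]) : Prop :=
  ∀ p : k[X], p.Monic → Irreducible p → p ∣ f → Q p.natDegree

/-- The density of such polynomials in degree `j`. -/
def frD (k : Type*) [Field k] [Fintype k] (Q : ℕ → Prop) (j : ℕ) : ℝ :=
  #{f ∈ mon k j | FrQ Q f} / qq k ^ j

theorem fr_q : 0 < qq k := by have := two_le_qq (k := k); linarith

theorem frD_nonneg (Q : ℕ → Prop) (j : ℕ) : 0 ≤ frD k Q j :=
  div_nonneg (Nat.cast_nonneg _) (pow_pos fr_q _).le

theorem frD_le (Q : ℕ → Prop) (j : ℕ) : frD k Q j ≤ 1 := by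
  rw [frD, div_le_one (pow_pos fr_q _), ← card_mon]
  exact_mod_cast card_filter_le _ _

theorem fr_deg (j : ℕ) : ∀ f : k[X], f.Monic → f.natDegree ≤ j → (f.natDegree : ℝ) ≤
    ∑ d ∈ Icc 1 j, ∑ e ∈ Icc 1 j, ∑ p ∈ prs k d, if p ^ e ∣ f then (d : ℝ) else 0 := by
  intro f hf hj
  have h0 := hf.ne_zero
  have h1 : f.natDegree = ∑ p ∈ (UniqueFactorizationMonoid.normalizedFactors f).toFinset,
      (UniqueFactorizationMonoid.normalizedFactors f).count p * p.natDegree := by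
    conv_lhs => rw [← hf.normalize_eq_self, ← UniqueFactorizationMonoid.prod_normalizedFactors_eq h0]
    rw [natDegree_multiset_prod_of_monic _ fun p hp =>
      ((Polynomial.mem_normalizedFactors_iff h0).1 hp).2.1, Finset.sum_multiset_map_count]
    rfl
  set s := UniqueFactorizationMonoid.normalizedFactors f with hs
  have h2 : ∀ p ∈ s.toFinset, Irreducible p ∧ p.Monic ∧ p ∣ f := fun p hp =>
    (Polynomial.mem_normalizedFactors_iff h0).1 (Multiset.mem_toFinset.1 hp)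
  have h3 : ∀ p ∈ s.toFinset, p ^ s.count p ∣ f := fun p hp => by
    have := Multiset.prod_dvd_prod_of_le (Multiset.le_count_iff_replicate_le.1 (le_refl (s.count p)))
    rwa [Multiset.prod_replicate, hs, UniqueFactorizationMonoid.prod_normalizedFactors_eq h0,
      hf.normalize_eq_self] at this
  have h4 : ∀ p ∈ s.toFinset, ((s.count p * p.natDegree : ℕ) : ℝ) ≤
      ∑ e ∈ Icc 1 j, if p ^ e ∣ f then (p.natDegree : ℝ) else 0 := fun p hp => by
    have a1 := natDegree_le_of_dvd (h3 p hp) h0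
    rw [natDegree_pow] at a1
    have a2 := Nat.mul_le_mul_left (s.count p) (h2 p hp).1.natDegree_pos
    rw [← sum_filter, sum_const, nsmul_eq_mul, Nat.cast_mul]
    refine mul_le_mul_of_nonneg_right ?_ (Nat.cast_nonneg _)
    have : Icc 1 (s.count p) ⊆ {e ∈ Icc 1 j | p ^ e ∣ f} := fun e he => by
      have := mem_Icc.1 he
      exact mem_filter.2 ⟨mem_Icc.2 ⟨this.1, by omega⟩, (pow_dvd_pow p this.2).trans (h3 p hp)⟩
    have := card_le_card this
    rw [Nat.card_Icc] at this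
    exact_mod_cast this
  rw [h1, Nat.cast_sum]
  refine (sum_le_sum h4).trans ?_
  rw [← sum_fiberwise_of_maps_to (s := s.toFinset) (t := Icc 1 j) (g := natDegree) fun p hp =>
    mem_Icc.2 ⟨(h2 p hp).1.natDegree_pos, (natDegree_le_of_dvd (h2 p hp).2.2 h0).trans hj⟩]
  refine sum_le_sum fun d _ => ?_
  rw [sum_comm (s := Icc 1 j)]
  refine le_trans (le_of_eq (sum_congr rfl fun p hp => by rw [(mem_filter.1 hp).2]))
    (sum_le_sum_of_subset_of_nonneg (fun p hp => ?_) fun _ _ _ =>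
      sum_nonneg fun _ _ => by split_ifs <;> positivity)
  have := mem_filter.1 hp
  exact mem_filter.2 ⟨mem_mon.2 ⟨(h2 p this.1).2.1, this.2⟩, (h2 p this.1).1⟩

theorem fr_div (Q : ℕ → Prop) (j : ℕ) {g : k[X]} (hg : g.Monic) :
    (#{f ∈ {f ∈ mon k j | FrQ Q f} | g ∣ f} : ℝ) ≤ if g.natDegree ≤ j then
      frD k Q (j - g.natDegree) * qq k ^ (j - g.natDegree) else 0 := by
  have key : ∀ f ∈ {f ∈ {f ∈ mon k j | FrQ Q f} | g ∣ f}, g.natDegree ≤ j ∧
      f ∈ ({f ∈ mon k (j - g.natDegree) | FrQ Q f} : Finset k[X]).image (g * ·) := by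
    intro f hf
    obtain ⟨h1, c, rfl⟩ := mem_filter.1 hf
    obtain ⟨h2, h3⟩ := mem_filter.1 h1
    obtain ⟨h4, h5⟩ := mem_mon.1 h2
    have h6 := hg.of_mul_monic_left h4
    rw [hg.natDegree_mul h6] at h5
    exact ⟨by omega, mem_image.2 ⟨c, mem_filter.2 ⟨mem_mon.2 ⟨h6, by omega⟩,
      fun p a1 a2 a3 => h3 p a1 a2 (a3.mul_left _)⟩, rfl⟩⟩
  split_ifs with h
  · rw [frD, div_mul_cancel₀ _ (pow_pos fr_q _).ne']
    exact_mod_cast (card_le_card fun f hf => (key f hf).2).trans card_image_le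
  · rw [eq_empty_of_forall_notMem fun f hf => h (key f hf).1]
    simp

/-- the recursion of Hall and Tenenbaum -/
theorem fr_rec (Q : ℕ → Prop) (j : ℕ) : j * frD k Q j ≤ ∑ d ∈ Icc 1 j, ∑ e ∈ Icc 1 j,
    if Q d ∧ e * d ≤ j then (1 / 2) ^ ((e - 1) * d) * frD k Q (j - e * d) else 0 := by
  have hq := pow_pos (fr_q (k := k)) j
  rw [frD, ← mul_div_assoc, div_le_iff₀ hq, mul_comm (j : ℝ), ← nsmul_eq_mul, ← sum_const]
  refine (sum_le_sum (g := fun f => ∑ d ∈ Icc 1 j, ∑ e ∈ Icc 1 j, ∑ p ∈ prs k d,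
    if p ^ e ∣ f then (d : ℝ) else 0) fun f hf => ?_).trans ?_
  · have := mem_mon.1 (mem_filter.1 hf).1
    exact this.2 ▸ fr_deg _ f this.1 le_rfl
  rw [sum_comm, sum_mul]
  refine sum_le_sum fun d hd => ?_
  rw [sum_comm, sum_mul]
  refine sum_le_sum fun e he => ?_
  rw [sum_comm]
  have he1 := (mem_Icc.1 he).1
  have h1 : ∀ p ∈ prs k d, ∑ f ∈ {f ∈ mon k j | FrQ Q f}, (if p ^ e ∣ f then (d : ℝ) else 0) ≤
      d * if Q d ∧ e * d ≤ j then frD k Q (j - e * d) * qq k ^ (j - e * d) else 0 := by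
    intro p hp
    obtain ⟨a1, a2⟩ := mem_filter.1 hp
    obtain ⟨a3, a4⟩ := mem_mon.1 a1
    rw [← sum_filter, sum_const, nsmul_eq_mul, mul_comm]
    refine mul_le_mul_of_nonneg_left ?_ (Nat.cast_nonneg _)
    by_cases hQ : Q d
    · have := fr_div Q j (a3.pow (n := e))
      rw [natDegree_pow, a4] at this
      simpa only [hQ, true_and] using this
    · have : {f ∈ {f ∈ mon k j | FrQ Q f} | p ^ e ∣ f} = ∅ :=
        eq_empty_of_forall_notMem fun f hf => hQ (by
          obtain ⟨b1, b2⟩ := mem_filter.1 hf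
          exact a4 ▸ (mem_filter.1 b1).2 p a3 a2 ((dvd_pow_self p (by omega)).trans b2))
      rw [if_neg fun h => hQ h.1, this]
      simp
  refine (sum_le_sum h1).trans ?_
  rw [sum_const, nsmul_eq_mul, ← mul_assoc, mul_comm (#(prs k d) : ℝ)]
  split_ifs with h
  · have h2 := frD_nonneg (k := k) Q (j - e * d)
    have h3 : j = d + (j - e * d) + (e - 1) * d := by
      obtain ⟨e, rfl⟩ : ∃ e', e = e' + 1 := ⟨e - 1, by omega⟩
      have := h.2
      rw [add_mul] at this ⊢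
      simp only [add_tsub_cancel_right]
      omega
    have h4 : 1 ≤ (1 / 2) ^ ((e - 1) * d) * qq k ^ ((e - 1) * d) := by
      rw [← mul_pow]
      exact one_le_pow₀ (by have := two_le_qq (k := k); linarith)
    have h5 := pow_pos (fr_q (k := k)) (j - e * d)
    have h6 := pow_pos (fr_q (k := k)) d
    calc _ ≤ qq k ^ d * (frD k Q (j - e * d) * qq k ^ (j - e * d)) * 1 := by
          rw [mul_one]
          exact mul_le_mul_of_nonneg_right (fr_prs_le d) (by positivity)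
      _ ≤ qq k ^ d * (frD k Q (j - e * d) * qq k ^ (j - e * d)) *
          ((1 / 2) ^ ((e - 1) * d) * qq k ^ ((e - 1) * d)) :=
          mul_le_mul_of_nonneg_left h4 (by positivity)
      _ = _ := by
          conv_rhs => rw [show qq k ^ j = qq k ^ (d + (j - e * d) + (e - 1) * d) by rw [← h3]]
          ring
  · simp

theorem fr_one (Q : ℕ → Prop) (j : ℕ) (h : ∀ d, 1 ≤ d → d ≤ j → Q d) : frD k Q j = 1 := by
  rw [frD, filter_true_of_mem fun f hf p _ a2 a3 => h _ a2.natDegree_pos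
    ((mem_mon.1 hf).2 ▸ natDegree_le_of_dvd a3 (mem_mon.1 hf).1.ne_zero), card_mon,
    div_self (pow_pos fr_q _).ne']

theorem fr_geo (M : ℕ) : ∑ e ∈ Icc 1 M, (3 / 4 : ℝ) ^ (e - 1) ≤ 4 := by
  have : ∑ e ∈ Icc 1 M, (3 / 4 : ℝ) ^ (e - 1) = 4 - 4 * (3 / 4) ^ M := by
    induction M with
    | zero => simp
    | succ M ih => rw [sum_Icc_succ_top (by omega), ih, pow_succ, add_tsub_cancel_right]; ring
  rw [this]
  have : (0 : ℝ) ≤ (3 / 4) ^ M := by positivity
  linarith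

theorem fr_rankin0 (Q : ℕ → Prop) (z : ℕ) (hQ : ∀ d, Q d → d ≤ z) (s : ℝ) (h1 : 2 / 3 ≤ s)
    (h2 : s ≤ 1) (h3 : 1 / 2 ≤ s ^ z) (j : ℕ) : frD k Q j ≤ 256 * s ^ j := by
  have hs : 0 < s := by linarith
  induction j using Nat.strong_induction_on with
  | _ j ih =>
  by_cases hj : j ≤ 8 * z
  · have a1 : s ^ (z * 8) ≤ s ^ j := pow_le_pow_of_le_one hs.le h2 (by omega)
    have a2 : (1 / 2 : ℝ) ^ 8 ≤ (s ^ z) ^ 8 := pow_le_pow_left₀ (by norm_num) h3 8
    rw [← pow_mul] at a2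
    have := frD_le (k := k) Q j
    linarith
  · have hB : 0 < 256 * s ^ j := by positivity
    have a1 : j * frD k Q j ≤ ∑ d ∈ Icc 1 j, if d ≤ z then 8 * (256 * s ^ j) else 0 := by
      refine (fr_rec Q j).trans (sum_le_sum fun d hd => ?_)
      have hd1 := (mem_Icc.1 hd).1
      by_cases hq : Q d
      · rw [if_pos (hQ d hq)]
        refine (sum_le_sum (g := fun e => (3 / 4 : ℝ) ^ (e - 1) * (2 * (256 * s ^ j)))
          fun e he => ?_).trans ?_
        · obtain ⟨e, rfl⟩ : ∃ e', e = e' + 1 := ⟨e - 1, by have := mem_Icc.1 he; omega⟩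
          rw [add_tsub_cancel_right]
          split_ifs with h
          · have b0 := h.2
            rw [add_mul, one_mul] at b0 ⊢
            have b1 := ih (j - (e * d + d)) (by omega)
            have b2 : 1 / 2 ≤ s ^ d := h3.trans (pow_le_pow_of_le_one hs.le h2 (hQ d hq))
            have b3 : (1 / 2 : ℝ) ^ (e * d) ≤ (3 / 4) ^ e * s ^ (e * d) := by
              calc (1 / 2 : ℝ) ^ (e * d) = (3 / 4) ^ (e * d) * (2 / 3) ^ (e * d) := by
                    rw [← mul_pow]; norm_num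
                _ ≤ _ := mul_le_mul (pow_le_pow_of_le_one (by norm_num) (by norm_num)
                    (Nat.le_mul_of_pos_right e hd1)) (pow_le_pow_left₀ (by norm_num) h1 _)
                    (by positivity) (by positivity)
            have b4 : s ^ j = s ^ (e * d) * s ^ d * s ^ (j - (e * d + d)) := by
              rw [← pow_add, ← pow_add]; congr 1; omega
            calc _ ≤ (3 / 4) ^ e * s ^ (e * d) * (256 * s ^ (j - (e * d + d))) * 1 := by
                  rw [mul_one]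
                  exact mul_le_mul b3 b1 (frD_nonneg _ _) (by positivity)
              _ ≤ (3 / 4) ^ e * s ^ (e * d) * (256 * s ^ (j - (e * d + d))) * (2 * s ^ d) :=
                  mul_le_mul_of_nonneg_left (by linarith) (by positivity)
              _ = _ := by rw [b4]; ring
          · positivity
        · rw [← sum_mul]
          have := fr_geo j
          nlinarith
      · rw [sum_eq_zero fun e _ => if_neg fun h => hq h.1]
        split_ifs <;> positivity
    rw [← sum_filter, sum_const, nsmul_eq_mul] at a1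
    have a2 : (#{d ∈ Icc 1 j | d ≤ z} : ℝ) ≤ z := by
      have : {d ∈ Icc 1 j | d ≤ z} ⊆ Icc 1 z := fun d hd =>
        mem_Icc.2 ⟨(mem_Icc.1 (mem_filter.1 hd).1).1, (mem_filter.1 hd).2⟩
      have := card_le_card this
      rw [Nat.card_Icc] at this
      exact_mod_cast this
    have a3 : (8 * z : ℝ) < j := by exact_mod_cast not_le.1 hj
    have a4 : (0 : ℝ) ≤ z := Nat.cast_nonneg _
    have a5 : j * frD k Q j ≤ j * (256 * s ^ j) := by nlinarith
    exact le_of_mul_le_mul_left a5 (by linarith)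

omit [Fintype k] in
theorem fr_mob (P R : ℕ → Prop) (h : ∀ d, R d ↔ ¬ P d) (f : k[X]) (D : Finset k[X])
    (hD : ∀ a, a ∈ D ↔ a.Monic ∧ a ∣ f ∧ FrQ R a) :
    ∑ a ∈ D, (UniqueFactorizationMonoid.moebius a : ℝ) = if FrQ P f then 1 else 0 := by
  rw [← Int.cast_sum]
  split_ifs with hf
  · have : D = {1} := by
      ext a
      rw [hD, mem_singleton]
      refine ⟨fun ⟨h1, h2, h3⟩ => h1.isUnit_iff.1 ?_, fun e => ?_⟩
      · by_contra hu
        obtain ⟨p, pm, pi, pd⟩ := Polynomial.exists_monic_irreducible_factor a hu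
        exact (h _).1 (h3 p pm pi pd) (hf p pm pi (pd.trans h2))
      · subst e
        exact ⟨monic_one, one_dvd _, fun p _ a2 a3 => (a2.not_isUnit (isUnit_of_dvd_one a3)).elim⟩
    rw [this, sum_singleton, UniqueFactorizationMonoid.moebius_one, Int.cast_one]
  · obtain ⟨p, pm, pi, pd, pR⟩ : ∃ p : k[X], p.Monic ∧ Irreducible p ∧ p ∣ f ∧ R p.natDegree := by
      by_contra hc
      exact hf fun p a1 a2 a3 => by
        by_contra h'
        exact hc ⟨p, a1, a2, a3, (h _).2 h'⟩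
    rw [← sum_filter_add_sum_filter_not D (fun d => p ∣ d),
      ← sum_filter_add_sum_filter_not (D.filter fun d => p ∣ d) (fun d => p * p ∣ d)]
    have a1 : ∑ d ∈ (D.filter fun d => p ∣ d).filter (fun d => p * p ∣ d),
        UniqueFactorizationMonoid.moebius d = 0 :=
      sum_eq_zero fun d hd => UniqueFactorizationMonoid.moebius_of_not_squarefree fun s =>
        pi.not_isUnit (s p (mem_filter.1 hd).2)
    have a2 : ∑ d ∈ D.filter (fun d => ¬ p ∣ d), -UniqueFactorizationMonoid.moebius d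
        = ∑ d ∈ (D.filter fun d => p ∣ d).filter (fun d => ¬ p * p ∣ d),
          UniqueFactorizationMonoid.moebius d := by
      refine sum_bij (fun d _ => p * d) ?_ ?_ ?_ ?_
      · intro d hd
        obtain ⟨h1, h2⟩ := mem_filter.1 hd
        obtain ⟨h3, h4, h5⟩ := (hD d).1 h1
        refine mem_filter.2 ⟨mem_filter.2 ⟨(hD _).2 ⟨pm.mul h3, ?_, fun r r1 r2 r3 => ?_⟩,
          dvd_mul_right _ _⟩, ?_⟩
        · exact (pi.coprime_iff_not_dvd.2 h2).mul_dvd pd h4
        · rcases r2.prime.dvd_or_dvd r3 with e | e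
          · rw [eq_of_monic_of_associated r1 pm (r2.associated_of_dvd pi e)]
            exact pR
          · exact h5 r r1 r2 e
        · exact fun h5 => h2 ((mul_dvd_mul_iff_left pi.ne_zero).1 h5)
      · intro a _ b _ hab
        exact mul_left_cancel₀ pi.ne_zero hab
      · intro d hd
        obtain ⟨h1, h2⟩ := mem_filter.1 hd
        obtain ⟨h3, e, rfl⟩ := mem_filter.1 h1
        obtain ⟨h4, h5, h6⟩ := (hD _).1 h3
        exact ⟨e, mem_filter.2 ⟨(hD e).2 ⟨pm.of_mul_monic_left h4, (dvd_mul_left _ _).trans h5,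
          fun r r1 r2 r3 => h6 r r1 r2 (r3.mul_left _)⟩,
          fun h7 => h2 (mul_dvd_mul_left p h7)⟩, rfl⟩
      · intro d hd
        rw [(pi.isRelPrime_iff_not_dvd.2 (mem_filter.1 hd).2).moebius_mul, pi.moebius_eq]
        ring
    rw [a1, ← a2, sum_neg_distrib]
    push_cast
    ring

theorem fr_mult {a : k[X]} (ha : a.Monic) {N : ℕ} (h : a.natDegree ≤ N) :
    (#{f ∈ mon k N | a ∣ f} : ℝ) = qq k ^ (N - a.natDegree) := by
  rw [← card_mon, ← card_image_of_injective (mon k (N - a.natDegree))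
    (mul_right_injective₀ ha.ne_zero)]
  congr 2
  ext f
  rw [mem_filter, mem_image]
  constructor
  · rintro ⟨h1, c, rfl⟩
    obtain ⟨h2, h3⟩ := mem_mon.1 h1
    have h4 := ha.of_mul_monic_left h2
    rw [ha.natDegree_mul h4] at h3
    exact ⟨c, mem_mon.2 ⟨h4, by omega⟩, rfl⟩
  · rintro ⟨c, h1, rfl⟩
    obtain ⟨h2, h3⟩ := mem_mon.1 h1
    exact ⟨mem_mon.2 ⟨ha.mul h2, by rw [ha.natDegree_mul h2]; omega⟩, dvd_mul_right _ _⟩

/-- The mean of the Moebius function over polynomials with prime factors in `R`. -/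
def frM (k : Type*) [Field k] [Fintype k] (R : ℕ → Prop) (i : ℕ) : ℝ :=
  (∑ a ∈ {a ∈ mon k i | FrQ R a}, (UniqueFactorizationMonoid.moebius a : ℝ)) / qq k ^ i

theorem fr_mi (P R : ℕ → Prop) (h : ∀ d, R d ↔ ¬ P d) (N : ℕ) :
    ∑ i ∈ range (N + 1), frM k R i = frD k P N := by
  have hq := fr_q (k := k)
  have a1 : ∀ f ∈ mon k N, (if FrQ P f then (1 : ℝ) else 0) = ∑ i ∈ range (N + 1),
      ∑ a ∈ {a ∈ mon k i | FrQ R a}, if a ∣ f then (UniqueFactorizationMonoid.moebius a : ℝ) else 0 := by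
    intro f hf
    obtain ⟨f1, f2⟩ := mem_mon.1 hf
    rw [← sum_biUnion (fun i _ j _ hij => disjoint_left.2 fun a a1 a2 => hij
      ((mem_mon.1 (mem_filter.1 a1).1).2.symm.trans (mem_mon.1 (mem_filter.1 a2).1).2)),
      ← sum_filter]
    refine (fr_mob P R h f _ fun a => ?_).symm
    simp only [mem_filter, mem_biUnion, mem_range, mem_mon]
    refine ⟨fun ⟨⟨_, _, ⟨b1, _⟩, b2⟩, b3⟩ => ⟨b1, b3, b2⟩, fun ⟨b1, b2, b3⟩ =>
      ⟨⟨_, ?_, ⟨b1, rfl⟩, b3⟩, b2⟩⟩
    have := natDegree_le_of_dvd b2 f1.ne_zero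
    omega
  rw [frD, card_filter, Nat.cast_sum]
  simp only [Nat.cast_ite, Nat.cast_one, Nat.cast_zero]
  rw [sum_congr rfl a1, sum_comm, sum_div]
  refine sum_congr rfl fun i hi => ?_
  have hi1 := mem_range.1 hi
  rw [sum_comm, frM, div_eq_div_iff (by positivity) (by positivity), sum_mul, sum_mul]
  refine sum_congr rfl fun a ha => ?_
  obtain ⟨b1, b2⟩ := mem_mon.1 (mem_filter.1 ha).1
  rw [← sum_filter, sum_const, nsmul_eq_mul, fr_mult b1 (by omega), b2,
    show qq k ^ N = qq k ^ (N - i) * qq k ^ i by rw [← pow_add]; congr 1; omega]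
  ring

theorem fr_mi_succ (P R : ℕ → Prop) (h : ∀ d, R d ↔ ¬ P d) (i : ℕ) :
    frM k R (i + 1) = frD k P (i + 1) - frD k P i := by
  rw [← fr_mi P R h, ← fr_mi P R h, sum_range_succ _ (i + 1)]
  ring

theorem fr_mi_abs (P R : ℕ → Prop) (h : ∀ d, R d ↔ ¬ P d) (i : ℕ) : |frM k R i| ≤ 1 := by
  rcases i with _ | i
  · have := fr_mi (k := k) P R h 0
    rw [sum_range_one] at this
    rw [this, abs_of_nonneg (frD_nonneg _ _)]
    exact frD_le _ _
  · rw [fr_mi_succ P R h, abs_le]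
    have := frD_nonneg (k := k) P i
    have := frD_nonneg (k := k) P (i + 1)
    have := frD_le (k := k) P i
    have := frD_le (k := k) P (i + 1)
    constructor <;> linarith

theorem fr_first (P R : ℕ → Prop) (h : ∀ d, R d ↔ ¬ P d) (N : ℕ) :
    ∑ i ∈ range (N + 1), i * frM k R i = N * frD k P N - ∑ i ∈ range N, frD k P i := by
  induction N with
  | zero => simp
  | succ N ih =>
    rw [sum_range_succ, ih, sum_range_succ, fr_mi_succ P R h]
    push_cast
    ring

omit [Fintype k] in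
theorem frQ_iff (Q : ℕ → Prop) (f : k[X]) :
    FrQ Q f ↔ ∀ p : k[X], Irreducible p → p ∣ f → Q p.natDegree := by
  refine ⟨fun h p h1 h2 => ?_, fun h p _ h1 h2 => h p h1 h2⟩
  have a := associated_normalize p
  rw [natDegree_eq_of_degree_eq (degree_eq_degree_of_associated a)]
  exact h _ (monic_normalize h1.ne_zero) (a.irreducible h1) (a.symm.dvd.trans h2)

theorem psi_mm (z i : ℕ) : mm k z i = frM k (z < ·) i := by
  rw [mm, frM, sum_filter]
  congr 1
  refine sum_congr rfl fun a _ => ?_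
  have e : mu a = (UniqueFactorizationMonoid.moebius a : ℝ) := by
    by_cases h : Squarefree a
    · rw [mu, if_pos h, h.moebius_eq, lam]
      push_cast
      rfl
    · rw [mu, if_neg h, UniqueFactorizationMonoid.moebius_of_not_squarefree h, Int.cast_zero]
  rw [e, rho, ite_mul, one_mul, zero_mul]
  exact if_congr (frQ_iff (z < ·) a).symm rfl rfl

theorem psi_root {z : ℕ} (hz : 1 ≤ z) : ∃ s : ℝ, 2 / 3 ≤ s ∧ s ≤ 1 ∧
    (∀ j, frD k (· ≤ z) j ≤ 256 * s ^ j) ∧ ∀ j, s ^ j ≤ (1 / 2) ^ (j / (2 * z)) := by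
  obtain ⟨s, s0, hs⟩ : ∃ s : ℝ, 0 ≤ s ∧ s ^ (2 * z) = 1 / 2 :=
    ⟨(1 / 2 : ℝ) ^ (((2 * z : ℕ) : ℝ)⁻¹), by positivity,
      Real.rpow_inv_natCast_pow (by norm_num) (by omega)⟩
  have s1 : s ≤ 1 := by
    by_contra h
    have := one_le_pow₀ (n := 2 * z) (not_le.1 h).le
    linarith
  have s2 : 2 / 3 ≤ s := by
    by_contra h
    have := pow_le_pow_of_le_one s0 s1 (by omega : 2 ≤ 2 * z)
    nlinarith [not_le.1 h]
  refine ⟨s, s2, s1, fr_rankin0 _ z (fun _ h => h) s s2 s1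
    (hs ▸ pow_le_pow_of_le_one s0 s1 (by omega)), fun j => ?_⟩
  rw [← hs, ← pow_mul]
  exact pow_le_pow_of_le_one s0 s1 (Nat.mul_div_le _ _)

theorem mm_abs (z i : ℕ) : |mm k z i| ≤ 1 :=
  psi_mm (k := k) z i ▸ fr_mi_abs (· ≤ z) (z < ·) (fun _ => not_le.symm) i

theorem mm_tail {z : ℕ} (hz : 1 ≤ z) (i : ℕ) :
    |mm k z i| ≤ 2048 * (1 / 2) ^ (i / (2 * z)) := by
  rcases i with _ | i
  · have := mm_abs (k := k) z 0
    rw [Nat.zero_div, pow_zero]
    linarith
  obtain ⟨s, s1, s2, s3, s4⟩ := psi_root (k := k) hz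
  rw [psi_mm, fr_mi_succ (· ≤ z) (z < ·) fun _ => not_le.symm, abs_le]
  have := frD_nonneg (k := k) (· ≤ z) i
  have := frD_nonneg (k := k) (· ≤ z) (i + 1)
  have := s3 i
  have := s3 (i + 1)
  have := s4 (i + 1)
  have a : 0 ≤ s ^ i := pow_nonneg (by linarith) _
  have b : s ^ i * (2 / 3) ≤ s ^ (i + 1) := by rw [pow_succ]; exact mul_le_mul_of_nonneg_left s1 a
  constructor <;> linarith

theorem psi_mom {z n : ℕ} (hzn : z ≤ n) :
    (z : ℝ) ≤ ∑ i ∈ range (n + 1), ((n : ℝ) - i) * mm k z i ∧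
    ∑ i ∈ range (n + 1), mm k z i = frD k (· ≤ z) n ∧
    ∑ i ∈ range (n + 1), ((n : ℝ) - i) ^ 2 * mm k z i ≤ ((n : ℝ) + 1) ^ 3 := by
  have hPR : ∀ d, z < d ↔ ¬ d ≤ z := fun _ => not_le.symm
  refine ⟨?_, ?_, ?_⟩
  · simp only [psi_mm, sub_mul, sum_sub_distrib, ← mul_sum]
    rw [fr_mi _ _ hPR, fr_first _ _ hPR, sub_sub_cancel]
    refine le_trans (le_of_eq ?_) (sum_le_sum_of_subset_of_nonneg (range_subset_range.2 hzn)
      fun _ _ _ => frD_nonneg _ _)
    rw [sum_congr rfl fun i hi => fr_one (k := k) (· ≤ z) i fun d _ h =>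
      h.trans (mem_range.1 hi).le]
    simp
  · simp only [psi_mm]
    exact fr_mi _ _ hPR n
  · refine (sum_le_sum (g := fun _ => ((n : ℝ) + 1) ^ 2) fun i hi => ?_).trans (le_of_eq ?_)
    · have b1 : (i : ℝ) ≤ n := by exact_mod_cast Nat.lt_succ_iff.1 (mem_range.1 hi)
      have b2 : (0 : ℝ) ≤ i := Nat.cast_nonneg _
      exact (mul_le_of_le_one_right (sq_nonneg _) (abs_le.1 (mm_abs z i)).2).trans
        (pow_le_pow_left₀ (by linarith) (by linarith) 2)
    · rw [sum_const, card_range, nsmul_eq_mul]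
      push_cast
      ring

theorem mainsum {z n m : ℕ} (hz : 1 ≤ z) (hzm : z ≤ m) (hmn : m ≤ n) :
    (z : ℝ) ^ 2 - 1024 * ((n : ℝ) + 1) ^ 3 * (1 / 2) ^ (m / (2 * z)) ≤
      -(1 / 2) * ∑ i ∈ range (n + 1), ∑ j ∈ range (m + 1),
        (((n : ℝ) - i) - ((m : ℝ) - j)) ^ 2 * (mm k z i * mm k z j) := by
  have e : ∑ i ∈ range (n + 1), ∑ j ∈ range (m + 1),
      (((n : ℝ) - i) - ((m : ℝ) - j)) ^ 2 * (mm k z i * mm k z j) =
      (∑ i ∈ range (n + 1), ((n : ℝ) - i) ^ 2 * mm k z i) * (∑ j ∈ range (m + 1), mm k z j) +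
      (∑ i ∈ range (n + 1), mm k z i) * (∑ j ∈ range (m + 1), ((m : ℝ) - j) ^ 2 * mm k z j) -
      2 * ((∑ i ∈ range (n + 1), ((n : ℝ) - i) * mm k z i) *
        ∑ j ∈ range (m + 1), ((m : ℝ) - j) * mm k z j) := by
    rw [sum_mul_sum, sum_mul_sum, sum_mul_sum]
    simp only [mul_sum, ← sum_add_distrib, ← sum_sub_distrib]
    exact sum_congr rfl fun i _ => sum_congr rfl fun j _ => by ring
  obtain ⟨a1, a2, a3⟩ := psi_mom (k := k) (hzm.trans hmn)
  obtain ⟨b1, b2, b3⟩ := psi_mom (k := k) hzm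
  obtain ⟨s, s1, s2, s3, s4⟩ := psi_root (k := k) hz
  have s0 : 0 ≤ s := by linarith
  have c1 : frD k (· ≤ z) m ≤ 256 * (1 / 2) ^ (m / (2 * z)) := by linarith [s3 m, s4 m]
  have c2 : frD k (· ≤ z) n ≤ 256 * (1 / 2) ^ (m / (2 * z)) := by
    linarith [s3 n, s4 m, pow_le_pow_of_le_one s0 s2 hmn]
  have c3 : ((m : ℝ) + 1) ^ 3 ≤ ((n : ℝ) + 1) ^ 3 :=
    pow_le_pow_left₀ (by positivity) (by exact_mod_cast Nat.succ_le_succ hmn) 3
  have z0 : (0 : ℝ) ≤ z := Nat.cast_nonneg _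
  have d1 := mul_le_mul a1 b1 z0 (z0.trans a1)
  have d2 := mul_le_mul a3 c1 (frD_nonneg _ _) (by positivity)
  have d3 := (mul_le_mul_of_nonneg_left (b3.trans c3) (frD_nonneg (k := k) (· ≤ z) n)).trans
    (mul_le_mul_of_nonneg_right c2 (by positivity))
  have d4 : (0 : ℝ) ≤ ((n : ℝ) + 1) ^ 3 * (1 / 2) ^ (m / (2 * z)) := by positivity
  rw [e, a2, b2]
  nlinarith

end


end Pool.Agent.HGB
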