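import Pool.Agent.MP_b5e119_nt.GB.TCrt
import Pool.Agent.MP_b5e119_nt.GB.Id9
import Pool.Agent.MP_b5e119_nt.GB.TPsi

/-! The Hardy-Littlewood asymptotic: local densities and the singular series. -/

set_option autoImplicit false

open Polynomial Finset Filter
open scoped Classical BigOperators

noncomputable section
namespace Pool.Agent.HGB
open Pool.Agent.MP_a4a062_nt.C2

section
variable {k : Type*} [Field k] [Fintype k]

/-- The inverse of the norm. -/
def ri (p : k[X]) : ℝ := 1 / qq k ^ p.natDegree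

/-- The number of forbidden residues. -/
def nu (F p : k[X]) : ℝ := if p ∣ F then 1 else 2

/-- The singular series, truncated at degree `z`. -/
def SS (F : k[X]) (z : ℕ) : ℝ := ∏ p ∈ sp k z, (1 - nu F p * ri p) / (1 - ri p) ^ 2

theorem ri_pos (p : k[X]) : 0 < ri p := by
  have := two_le_qq (k := k)
  unfold ri
  positivity

theorem ri_le {p : k[X]} (hp : Irreducible p) : ri p ≤ 1 / 2 := by
  have h := two_le_qq (k := k)
  have h1 : qq k ^ 1 ≤ qq k ^ p.natDegree := pow_le_pow_right₀ (by linarith) hp.natDegree_pos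
  unfold ri
  exact one_div_le_one_div_of_le (by norm_num) (by linarith)

/-- The joint density of two squarefree moduli. -/
def hh (F : k[X]) (S T : Finset k[X]) : ℝ :=
  (∏ p ∈ S, ri p) * ∏ p ∈ T, if p ∈ S then (if p ∣ F then 1 else 0) else ri p

theorem hh_nonneg (F : k[X]) (S T : Finset k[X]) : 0 ≤ hh F S T :=
  mul_nonneg (prod_nonneg fun p _ => (ri_pos p).le) (prod_nonneg fun p _ => by
    have := ri_pos p
    split_ifs <;> linarith)

theorem hh_sum (F : k[X]) (P : Finset k[X]) (x : ℝ) :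
    ∑ S ∈ P.powerset, ∑ T ∈ P.powerset, x ^ #S * x ^ #T * hh F S T =
      ∏ p ∈ P, (x * ri p * (1 + x * if p ∣ F then 1 else 0) + (1 + x * ri p)) := by
  rw [prod_add]
  refine sum_congr rfl fun S hS => ?_
  have hS' := mem_powerset.1 hS
  have e : ∀ T ∈ P.powerset, x ^ #S * x ^ #T * hh F S T = (∏ p ∈ S, x * ri p) *
      ∏ p ∈ T, x * if p ∈ S then (if p ∣ F then 1 else 0) else ri p := fun T _ => by
    rw [prod_mul_distrib, prod_mul_distrib, prod_const, prod_const, hh]
    ring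
  rw [sum_congr rfl e, ← mul_sum, ← prod_one_add, ← prod_sdiff hS', prod_mul_distrib
    (f := fun p => x * ri p), mul_comm (∏ p ∈ P \ S, _), ← mul_assoc]
  congr 1
  · congr 1
    exact prod_congr rfl fun p hp => by rw [if_pos hp]
  · exact prod_congr rfl fun p hp => by rw [if_neg (mem_sdiff.1 hp).2]

theorem ri_prod {z : ℕ} {S : Finset k[X]} (hS : S ⊆ sp k z) :
    ∏ p ∈ S, ri p = 1 / qq k ^ (∏ p ∈ S, p).natDegree := by
  rw [natDegree_prod_of_monic _ _ fun p hp => (mem_sp.1 (hS hp)).1, ← prod_pow_eq_pow_sum,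
    one_div, ← prod_inv_distrib]
  exact prod_congr rfl fun p _ => by rw [ri, one_div]

theorem deg_prod_le {z : ℕ} {S : Finset k[X]} (hS : S ⊆ sp k z) :
    (∏ p ∈ S, p).natDegree ≤ #S * z := by
  rw [natDegree_prod_of_monic _ _ fun p hp => (mem_sp.1 (hS hp)).1]
  exact (sum_le_card_nsmul _ _ z fun p hp => (mem_sp.1 (hS hp)).2.2).trans (by simp)

theorem cn_hh {z m : ℕ} (F : k[X]) {S T : Finset k[X]} (hS : S ⊆ sp k z) (hT : T ⊆ sp k z)
    (hm : #S * z + #T * z ≤ m) :
    cn F m (∏ p ∈ S, p) (∏ p ∈ T, p) = qq k ^ m * hh F S T := by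
  by_cases h : ∀ p ∈ T, p ∈ S → p ∣ F
  · have hT' : T \ S ⊆ sp k z := sdiff_subset.trans hT
    have e : cn F m (∏ p ∈ S, p) (∏ p ∈ T, p) = cn F m (∏ p ∈ S, p) (∏ p ∈ T \ S, p) := by
      unfold cn
      congr 2
      refine filter_congr fun g _ => ?_
      rw [br_prod_dvd hS, br_prod_dvd hT, br_prod_dvd hT']
      refine and_congr_right fun h1 => ⟨fun h2 p hp => h2 p (mem_sdiff.1 hp).1, fun h2 p hp => ?_⟩
      by_cases h3 : p ∈ S
      · have := dvd_sub (h p hp h3) (h1 p h3)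
        rwa [sub_sub_cancel] at this
      · exact h2 p (mem_sdiff.2 ⟨hp, h3⟩)
    have hc : IsCoprime (∏ p ∈ S, p) (∏ p ∈ T \ S, p) :=
      IsCoprime.prod_left fun a ha => IsCoprime.prod_right fun b hb =>
        br_cop (hS ha) (hT' hb) fun e => (mem_sdiff.1 hb).2 (e ▸ ha)
    have d1 := deg_prod_le hS
    have d2 := (deg_prod_le hT').trans (Nat.mul_le_mul_right z (card_le_card sdiff_subset))
    rw [e, cn_cop F (br_monic hS) (br_monic hT') hc (by omega), hh, ri_prod hS]
    have e2 : ∏ p ∈ T, (if p ∈ S then (if p ∣ F then (1 : ℝ) else 0) else ri p) =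
        ∏ p ∈ T \ S, ri p := by
      rw [← prod_sdiff (inter_subset_left (s₁ := T) (s₂ := S)), sdiff_inter_self_left,
        prod_eq_one (s := T ∩ S), mul_one]
      · exact prod_congr rfl fun p hp => by rw [if_neg (mem_sdiff.1 hp).2]
      · intro p hp
        rw [if_pos (mem_inter.1 hp).2, if_pos (h p (mem_inter.1 hp).1 (mem_inter.1 hp).2)]
    rw [e2, ri_prod hT', pow_add]
    have := fr_q (k := k)
    field_simp
  · push Not at h
    obtain ⟨p, h1, h2, h3⟩ := h
    have e : ∏ p ∈ T, (if p ∈ S then (if p ∣ F then (1 : ℝ) else 0) else ri p) = 0 :=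
      prod_eq_zero h1 (by rw [if_pos h2, if_neg h3])
    rw [hh, e, mul_zero, mul_zero, cn, filter_eq_empty_iff.2, card_empty, Nat.cast_zero]
    intro g _ hg
    have := dvd_add ((dvd_prod_of_mem _ h2).trans hg.1) ((dvd_prod_of_mem _ h1).trans hg.2)
    rw [sub_add_cancel] at this
    exact h3 this

theorem brun_pow (z u : ℕ) (f : k[X]) : brun z u f = ∑ S ∈ (sp k z).powerset,
    (if #S ≤ 2 * u then (-1 : ℝ) ^ #S else 0) * if ∏ p ∈ S, p ∣ f then 1 else 0 := by
  rw [brun_eq_sum, ← sum_subset (powerset_mono.2 (filter_subset (· ∣ f) (sp k z)))]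
  · refine sum_congr rfl fun S hS => ?_
    have hS' := mem_powerset.1 hS
    rw [if_pos ((br_prod_dvd (hS'.trans (filter_subset _ _)) f).2
      fun p hp => (mem_filter.1 (hS' hp)).2), mul_one]
  · intro S hS hn
    have hS' := mem_powerset.1 hS
    rw [if_neg (c := ∏ p ∈ S, p ∣ f), mul_zero]
    exact fun h => hn (mem_powerset.2 fun p hp =>
      mem_filter.2 ⟨hS' hp, (br_prod_dvd hS' f).1 h p hp⟩)

theorem vv_eq {z u m : ℕ} (F : k[X]) (hm : 4 * u * z ≤ m) : VV z u F m =
    ∑ S ∈ (sp k z).powerset, ∑ T ∈ (sp k z).powerset,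
      (if #S ≤ 2 * u then (-1 : ℝ) ^ #S else 0) * (if #T ≤ 2 * u then (-1 : ℝ) ^ #T else 0) *
        hh F S T := by
  have hq := pow_pos (fr_q (k := k)) m
  rw [VV, div_eq_iff hq.ne']
  simp only [brun_pow, sum_mul_sum]
  rw [sum_comm, sum_mul]
  refine sum_congr rfl fun S hS => ?_
  rw [sum_comm, sum_mul]
  refine sum_congr rfl fun T hT => ?_
  by_cases h1 : #S ≤ 2 * u
  · by_cases h2 : #T ≤ 2 * u
    · have : #S * z + #T * z ≤ m := by
        have a := Nat.mul_le_mul_right z h1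
        have b := Nat.mul_le_mul_right z h2
        nlinarith
      rw [mul_assoc, mul_comm (hh F S T), ← cn_hh F (mem_powerset.1 hS) (mem_powerset.1 hT) this,
        cn, card_filter, Nat.cast_sum, mul_sum]
      refine sum_congr rfl fun g _ => ?_
      by_cases a : ∏ p ∈ S, p ∣ F - g <;> by_cases b : ∏ p ∈ T, p ∣ g <;> simp [a, b]
    · simp [h2]
  · simp [h1]

theorem vv_near {z u m : ℕ} (F : k[X]) (hm : 4 * u * z ≤ m) :
    |VV z u F m - ∏ p ∈ sp k z, (1 - nu F p * ri p)| ≤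
      (∏ p ∈ sp k z, (1 - ri p)⁻¹) ^ 8 / 4 ^ u := by
  have e1 : ∏ p ∈ sp k z, (1 - nu F p * ri p) = ∑ S ∈ (sp k z).powerset,
      ∑ T ∈ (sp k z).powerset, (-1 : ℝ) ^ #S * (-1) ^ #T * hh F S T := by
    rw [hh_sum]
    refine prod_congr rfl fun p _ => ?_
    unfold nu
    split_ifs <;> ring
  have e2 : ∑ S ∈ (sp k z).powerset, ∑ T ∈ (sp k z).powerset, (2 : ℝ) ^ #S * 2 ^ #T * hh F S T ≤
      (∏ p ∈ sp k z, (1 - ri p)⁻¹) ^ 8 := by
    rw [hh_sum, ← prod_pow]
    refine prod_le_prod (fun p _ => ?_) fun p hp => ?_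
    · have := ri_pos p
      split_ifs <;> nlinarith
    · have a := ri_pos p
      have b := ri_le (mem_sp.1 hp).2.1
      have c : 1 + ri p ≤ (1 - ri p)⁻¹ := by
        rw [← one_div, le_div_iff₀ (by linarith)]
        nlinarith
      have d := one_add_mul_le_pow (a := ri p) (by linarith) 8
      have e := pow_le_pow_left₀ (by linarith) c 8
      push_cast at d
      split_ifs <;> nlinarith
  rw [vv_eq F hm, e1, ← sum_sub_distrib]
  refine le_trans ?_ (div_le_div_of_nonneg_right e2 (by positivity))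
  rw [sum_div]
  refine (abs_sum_le_sum_abs _ _).trans (sum_le_sum fun S _ => ?_)
  rw [← sum_sub_distrib, sum_div]
  refine (abs_sum_le_sum_abs _ _).trans (sum_le_sum fun T _ => ?_)
  have h0 := hh_nonneg F S T
  rw [← sub_mul, abs_mul, abs_of_nonneg h0, mul_div_right_comm]
  refine mul_le_mul_of_nonneg_right ?_ h0
  have key : 2 * u ≤ #S + #T → (1 : ℝ) ≤ 2 ^ #S * 2 ^ #T / 4 ^ u := fun h => by
    rw [one_le_div (by positivity), ← pow_add, show (4 : ℝ) = 2 ^ 2 by norm_num, ← pow_mul]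
    exact pow_le_pow_right₀ (by norm_num) h
  split_ifs with h1 h2
  · rw [sub_self, abs_zero]
    positivity
  · simpa [abs_mul] using key (by omega)
  · simpa [abs_mul] using key (by omega)
  · simpa [abs_mul] using key (by omega)

/-- The density of monic polynomials of degree `i` whose prime factors lie in `S`. -/
def sm (S : Finset k[X]) (i : ℕ) : ℝ :=
  #{f ∈ mon k i | ∀ p : k[X], p.Monic → Irreducible p → p ∣ f → p ∈ S} / qq k ^ i

theorem sm_nonneg (S : Finset k[X]) (i : ℕ) : 0 ≤ sm S i :=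
  div_nonneg (Nat.cast_nonneg _) (pow_pos fr_q _).le

theorem sm_insert {S : Finset k[X]} {a : k[X]} (h1 : a.Monic) (h2 : Irreducible a) (h3 : a ∉ S)
    (i : ℕ) : sm (insert a S) i = sm S i +
      if a.natDegree ≤ i then ri a * sm (insert a S) (i - a.natDegree) else 0 := by
  have hq := fr_q (k := k)
  have e := card_filter_add_card_filter_not (s := {f ∈ mon k i | ∀ p : k[X], p.Monic →
    Irreducible p → p ∣ f → p ∈ insert a S}) (fun f => a ∣ f)
  have e1 : {f ∈ {f ∈ mon k i | ∀ p : k[X], p.Monic → Irreducible p → p ∣ f → p ∈ insert a S} |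
      ¬ a ∣ f} = {f ∈ mon k i | ∀ p : k[X], p.Monic → Irreducible p → p ∣ f → p ∈ S} := by
    ext f
    simp only [mem_filter, mem_insert]
    refine ⟨fun h => ⟨h.1.1, fun p b1 b2 b3 => (h.1.2 p b1 b2 b3).resolve_left
      fun e => h.2 (e ▸ b3)⟩, fun h => ⟨⟨h.1, fun p b1 b2 b3 => Or.inr (h.2 p b1 b2 b3)⟩,
      fun b => h3 (h.2 a h1 h2 b)⟩⟩
  rw [e1] at e
  rw [sm, ← e, Nat.cast_add, add_div, add_comm]
  congr 1
  split_ifs with h
  · have e2 : {f ∈ {f ∈ mon k i | ∀ p : k[X], p.Monic → Irreducible p → p ∣ f → p ∈ insert a S} |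
        a ∣ f} = ({f ∈ mon k (i - a.natDegree) | ∀ p : k[X], p.Monic → Irreducible p → p ∣ f →
        p ∈ insert a S}).image fun g => a * g := by
      ext f
      simp only [mem_filter, mem_image, mem_mon]
      constructor
      · rintro ⟨⟨⟨b1, b2⟩, b3⟩, g, rfl⟩
        have hg := h1.of_mul_monic_left b1
        rw [h1.natDegree_mul hg] at b2
        exact ⟨g, ⟨⟨hg, by omega⟩, fun p c1 c2 c3 => b3 p c1 c2 (c3.mul_left _)⟩, rfl⟩
      · rintro ⟨g, ⟨⟨b1, b2⟩, b3⟩, rfl⟩
        refine ⟨⟨⟨h1.mul b1, by rw [h1.natDegree_mul b1]; omega⟩, fun p c1 c2 c3 => ?_⟩,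
          dvd_mul_right _ _⟩
        rcases c2.prime.dvd_or_dvd c3 with c | c
        · exact mem_insert.2 (Or.inl (eq_of_monic_of_associated c1 h1 (c2.associated_of_dvd h2 c)))
        · exact b3 p c1 c2 c
    rw [e2, card_image_of_injective _ (mul_right_injective₀ h1.ne_zero), sm, ri]
    obtain ⟨j, rfl⟩ := Nat.exists_eq_add_of_le h
    rw [Nat.add_sub_cancel_left, pow_add]
    field_simp
  · rw [filter_eq_empty_iff.2, card_empty, Nat.cast_zero, zero_div]
    intro f hf b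
    have := mem_mon.1 (mem_filter.1 hf).1
    exact h (this.2 ▸ natDegree_le_of_dvd b this.1.ne_zero)

theorem sm_sum {z : ℕ} {S : Finset k[X]} (hS : S ⊆ sp k z) :
    HasSum (sm S) (∏ p ∈ S, (1 - ri p)⁻¹) := by
  induction S using Finset.induction_on with
  | empty =>
    have e : ∀ i, i ≠ 0 → sm (∅ : Finset k[X]) i = 0 := fun i hi => by
      rw [sm, filter_eq_empty_iff.2, card_empty, Nat.cast_zero, zero_div]
      intro f hf b
      have h := mem_mon.1 hf
      obtain ⟨p, g, c1, c2, -, rfl⟩ := id_fac h.1 fun e => hi (by rw [← h.2, e, natDegree_one])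
      exact notMem_empty _ (b p c1 c2 (dvd_mul_right _ _))
    have e0 : sm (∅ : Finset k[X]) 0 = 1 := by
      rw [sm, filter_true_of_mem, card_mon, div_self (pow_pos fr_q _).ne']
      intro f hf p _ c2 c3
      have h := mem_mon.1 hf
      have := natDegree_le_of_dvd c3 h.1.ne_zero
      have := c2.natDegree_pos
      omega
    rw [prod_empty, ← e0]
    exact hasSum_single 0 e
  | insert a S ha ih =>
    have ih := ih ((subset_insert _ _).trans hS)
    obtain ⟨h1, h2, -⟩ := mem_sp.1 (hS (mem_insert_self _ _))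
    have r0 := ri_pos a
    have r1 := ri_le h2
    set w : ℕ → ℝ := fun i => if a.natDegree ≤ i then ri a * sm (insert a S) (i - a.natDegree)
      else 0 with hw
    have e : sm (insert a S) = fun i => sm S i + w i := funext (sm_insert h1 h2 ha)
    have p1 : ∀ N, ∑ i ∈ range N, w i ≤ ri a * ∑ i ∈ range N, sm (insert a S) i := fun N => by
      have b1 : ∑ i ∈ range N, w i ≤ ∑ i ∈ range (a.natDegree + N), w i :=
        sum_le_sum_of_subset_of_nonneg (range_mono (by omega)) fun i _ _ => by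
          have := sm_nonneg (insert a S) (i - a.natDegree)
          simp only [hw]
          split_ifs <;> positivity
      rw [sum_range_add, sum_eq_zero (s := range a.natDegree) fun i hi => by
        simp only [hw]
        rw [if_neg (not_le.2 (mem_range.1 hi))], zero_add] at b1
      rw [mul_sum]
      simpa [hw] using b1
    have hs : Summable (sm (insert a S)) :=
      summable_of_sum_range_le (c := 2 * ∏ p ∈ S, (1 - ri p)⁻¹) (sm_nonneg _) fun N => by
        have b1 := sum_le_hasSum (range N) (fun i _ => sm_nonneg S i) ih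
        have b2 := p1 N
        have b3 : ∑ i ∈ range N, sm (insert a S) i = ∑ i ∈ range N, sm S i + ∑ i ∈ range N, w i := by
          rw [← sum_add_distrib]
          exact sum_congr rfl fun i _ => congrFun e i
        have b4 : 0 ≤ ∑ i ∈ range N, sm (insert a S) i := sum_nonneg fun i _ => sm_nonneg _ i
        nlinarith
    have hw2 : HasSum w (ri a * ∑' i, sm (insert a S) i) := by
      rw [← hasSum_nat_add_iff' a.natDegree, sum_eq_zero (s := range a.natDegree) fun i hi => by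
        simp only [hw]
        rw [if_neg (not_le.2 (mem_range.1 hi))], sub_zero]
      simpa [hw] using hs.hasSum.mul_left (ri a)
    have b := ih.add hw2
    rw [← e] at b
    have c := b.tsum_eq
    have d : ∑' i, sm (insert a S) i = ∏ p ∈ insert a S, (1 - ri p)⁻¹ := by
      rw [prod_insert ha, eq_inv_mul_iff_mul_eq₀ (by linarith)]
      linarith
    exact d ▸ hs.hasSum

theorem pi_near {z : ℕ} (hz : 1 ≤ z) (N : ℕ) :
    ∑ i ∈ range N, frD k (· ≤ z) i ≤ ∏ p ∈ sp k z, (1 - ri p)⁻¹ ∧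
      ∏ p ∈ sp k z, (1 - ri p)⁻¹ ≤
        ∑ i ∈ range N, frD k (· ≤ z) i + 768 * z * (1 - 1 / (3 * (z : ℝ))) ^ N ∧
      ∀ j, N ≤ j → frD k (· ≤ z) j ≤ 256 * (1 - 1 / (3 * (z : ℝ))) ^ N := by
  have e : sm (sp k z) = frD k (· ≤ z) := by
    funext i
    unfold sm frD FrQ
    congr 3
    refine filter_congr fun f _ => forall_congr' fun p => ?_
    rw [mem_sp]
    tauto
  have h := sm_sum (subset_refl (sp k z))
  rw [e] at h
  have a0 : (1 : ℝ) ≤ z := by exact_mod_cast hz
  set x : ℝ := 1 / (3 * z) with hx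
  have x0 : 0 < x := by positivity
  have x1 : x * z = 1 / 3 := by rw [hx]; field_simp
  have x2 : x ≤ 1 / 3 := by nlinarith
  have b := one_add_mul_le_pow (a := -x) (by linarith) z
  have r := fr_rankin0 (k := k) (· ≤ z) z (fun _ h => h) (1 - x) (by linarith) (by linarith)
    (by rw [sub_eq_add_neg]; nlinarith)
  refine ⟨sum_le_hasSum _ (fun i _ => frD_nonneg _ i) h, ?_, fun j hj => (r j).trans ?_⟩
  · have g := (hasSum_geometric_of_lt_one (r := 1 - x) (by linarith) (by linarith)).mul_left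
      (256 * (1 - x) ^ N)
    have c := hasSum_le (fun i => ?_) ((hasSum_nat_add_iff' N).2 h) g
    · have : (1 - (1 - x))⁻¹ = 3 * z := by rw [sub_sub_cancel, hx, one_div, inv_inv]
      rw [this] at c
      linarith
    · have := r (i + N)
      rw [pow_add] at this
      linarith
  · exact mul_le_mul_of_nonneg_left (pow_le_pow_of_le_one (by linarith) (by linarith) hj)
      (by norm_num)

theorem sum_near {z n m : ℕ} (hz : 1 ≤ z) (hmn : m ≤ n) :
    |-(1 / 2) * ∑ i ∈ range (n + 1), ∑ j ∈ range (m + 1),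
        (((n : ℝ) - i) - ((m : ℝ) - j)) ^ 2 * (mm k z i * mm k z j) -
        (∏ p ∈ sp k z, (1 - ri p)⁻¹) ^ 2| ≤
      (1536 * z * ∏ p ∈ sp k z, (1 - ri p)⁻¹ + 256 * ((n : ℝ) + 1) ^ 3) *
        (1 - 1 / (3 * (z : ℝ))) ^ m := by
  have hPR : ∀ d, z < d ↔ ¬ d ≤ z := fun _ => not_le.symm
  have e : ∑ i ∈ range (n + 1), ∑ j ∈ range (m + 1),
      (((n : ℝ) - i) - ((m : ℝ) - j)) ^ 2 * (mm k z i * mm k z j) =
      (∑ i ∈ range (n + 1), ((n : ℝ) - i) ^ 2 * mm k z i) * (∑ j ∈ range (m + 1), mm k z j) +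
      (∑ i ∈ range (n + 1), mm k z i) * (∑ j ∈ range (m + 1), ((m : ℝ) - j) ^ 2 * mm k z j) -
      2 * ((∑ i ∈ range (n + 1), ((n : ℝ) - i) * mm k z i) *
        ∑ j ∈ range (m + 1), ((m : ℝ) - j) * mm k z j) := by
    rw [sum_mul_sum, sum_mul_sum, sum_mul_sum]
    simp only [mul_sum, ← sum_add_distrib, ← sum_sub_distrib]
    exact sum_congr rfl fun i _ => sum_congr rfl fun j _ => by ring
  have a0 : ∀ N : ℕ, ∑ i ∈ range (N + 1), mm k z i = frD k (· ≤ z) N := fun N => by
    simp only [psi_mm]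
    exact fr_mi _ _ hPR N
  have a1 : ∀ N : ℕ, ∑ i ∈ range (N + 1), ((N : ℝ) - i) * mm k z i =
      ∑ i ∈ range N, frD k (· ≤ z) i := fun N => by
    simp only [psi_mm, sub_mul, sum_sub_distrib, ← mul_sum]
    rw [fr_mi _ _ hPR, fr_first _ _ hPR, sub_sub_cancel]
  have a2 : ∀ N : ℕ, N ≤ n → |∑ i ∈ range (N + 1), ((N : ℝ) - i) ^ 2 * mm k z i| ≤
      ((n : ℝ) + 1) ^ 3 := fun N hN => by
    have b0 : (N : ℝ) ≤ n := by exact_mod_cast hN
    refine (abs_sum_le_sum_abs _ _).trans ((sum_le_card_nsmul _ _ (((n : ℝ) + 1) ^ 2)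
      fun i hi => ?_).trans ?_)
    · have b1 : (i : ℝ) ≤ N := by exact_mod_cast Nat.lt_succ_iff.1 (mem_range.1 hi)
      have b2 : (0 : ℝ) ≤ i := Nat.cast_nonneg _
      rw [abs_mul, abs_of_nonneg (sq_nonneg _)]
      exact (mul_le_of_le_one_right (sq_nonneg _) (mm_abs z i)).trans
        (pow_le_pow_left₀ (by linarith) (by linarith) 2)
    · rw [card_range, nsmul_eq_mul, Nat.cast_succ, pow_succ' _ 2]
      gcongr
  obtain ⟨b1, b2, b3⟩ := pi_near (k := k) hz m
  have b4 := (pi_near (k := k) hz n).1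
  have b5 : ∑ i ∈ range m, frD k (· ≤ z) i ≤ ∑ i ∈ range n, frD k (· ≤ z) i :=
    sum_le_sum_of_subset_of_nonneg (range_mono hmn) fun i _ _ => frD_nonneg _ i
  have b6 : 0 ≤ ∑ i ∈ range m, frD k (· ≤ z) i := sum_nonneg fun i _ => frD_nonneg _ i
  have c1 := b3 m le_rfl
  have c2 := b3 n hmn
  have c3 := frD_nonneg (k := k) (· ≤ z) m
  have c4 := frD_nonneg (k := k) (· ≤ z) n
  have d1 := abs_le.1 (a2 m hmn)
  have d2 := abs_le.1 (a2 n le_rfl)
  rw [e, a0, a0, a1, a1]
  generalize ∑ i ∈ range (n + 1), ((n : ℝ) - i) ^ 2 * mm k z i = A at *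
  generalize ∑ i ∈ range (m + 1), ((m : ℝ) - i) ^ 2 * mm k z i = B at *
  generalize ∑ i ∈ range n, frD k (· ≤ z) i = U at *
  generalize ∑ i ∈ range m, frD k (· ≤ z) i = V at *
  generalize ∏ p ∈ sp k z, (1 - ri p)⁻¹ = P at *
  generalize frD k (· ≤ z) n = x at *
  generalize frD k (· ≤ z) m = y at *
  generalize (1 - 1 / (3 * (z : ℝ))) ^ m = s at *
  generalize ((n : ℝ) + 1) ^ 3 = T at *
  have T0 : 0 ≤ T := by linarith
  have g1 := mul_le_mul_of_nonneg_left c1 T0
  have g2 := mul_le_mul_of_nonneg_left c2 T0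
  have g3 := mul_nonneg (sub_nonneg.2 d2.2) c3
  have g4 := mul_nonneg (sub_nonneg.2 d2.1) c3
  have g5 := mul_nonneg (sub_nonneg.2 d1.2) c4
  have g6 := mul_nonneg (sub_nonneg.2 d1.1) c4
  have g7 : U * V ≤ P * P := mul_le_mul b4 b1 b6 (b6.trans b1)
  have g8 : V * V ≤ U * V := mul_le_mul_of_nonneg_right b5 b6
  have g9 : (P - V) * (P + V) ≤ 768 * z * s * (2 * P) :=
    mul_le_mul (by linarith) (by linarith) (by linarith) (by linarith)
  have g10 : 0 ≤ 768 * z * s * (2 * P) := le_trans (mul_nonneg (by linarith) (by linarith)) g9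
  rw [abs_le]
  constructor <;> nlinarith

theorem nu_ri {F p : k[X]} (hp : Irreducible p) : 0 ≤ 1 - nu F p * ri p ∧ 1 - nu F p * ri p ≤ 1 := by
  have a := ri_pos p
  have b := ri_le hp
  unfold nu
  split_ifs <;> constructor <;> linarith

theorem ss_eq (F : k[X]) (z : ℕ) : SS F z =
    (∏ p ∈ sp k z, (1 - nu F p * ri p)) * (∏ p ∈ sp k z, (1 - ri p)⁻¹) ^ 2 := by
  rw [SS, ← prod_pow, ← prod_mul_distrib]
  exact prod_congr rfl fun p _ => by rw [div_eq_mul_inv, inv_pow]

theorem ss_tail {z M B : ℕ} {F : k[X]} (hF : F ≠ 0) (hz : z ≤ M) (h1 : F.natDegree ≤ B)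
    (h2 : M + 1 ≤ B) (h3 : 6 * (B : ℝ) / 2 ^ z ≤ 1) :
    |SS F M - SS F z| ≤ |SS F z| * (12 * B / 2 ^ z) := by
  have hs : sp k z ⊆ sp k M := fun p hp => by
    obtain ⟨a, b, c⟩ := mem_sp.1 hp
    exact mem_sp.2 ⟨a, b, c.trans hz⟩
  have q2 := two_le_qq (k := k)
  set f : k[X] → ℝ := fun p => (1 - nu F p * ri p) / (1 - ri p) ^ 2 - 1 with hf
  have e : SS F M = (∏ p ∈ sp k M \ sp k z, (1 + f p)) * SS F z := by
    rw [SS, SS, ← prod_sdiff hs]
    simp only [hf, add_sub_cancel]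
  have a1 : ∀ p ∈ sp k M \ sp k z, ‖f p‖ ≤
      (2 * (if p ∣ F then 1 else 0) + 4 * ri p) / 2 ^ z := fun p hp => by
    obtain ⟨b1, b2, b3⟩ := mem_sp.1 (mem_sdiff.1 hp).1
    have b4 : z ≤ p.natDegree := not_lt.1 fun h => (mem_sdiff.1 hp).2 (mem_sp.2 ⟨b1, b2, h.le⟩)
    have r0 := ri_pos p
    have r1 := ri_le b2
    have r2 : ri p ≤ 1 / 2 ^ z := one_div_le_one_div_of_le (by positivity)
      ((pow_le_pow_right₀ one_le_two b4).trans (pow_le_pow_left₀ (by norm_num) q2 _))
    have r3 : 0 < 1 - ri p := by linarith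
    rw [div_eq_mul_one_div]
    refine le_trans ?_ (mul_le_mul_of_nonneg_left r2 (by split_ifs <;> positivity))
    have r4 : 0 < (1 - ri p) ^ 2 := by positivity
    have r5 : 1 / 4 ≤ (1 - ri p) ^ 2 := by nlinarith
    rw [Real.norm_eq_abs, hf]
    simp only [nu]
    rw [div_sub_one r4.ne', abs_div, abs_of_pos r4, div_le_iff₀ r4, abs_le]
    have r6 := mul_pos r0 r0
    have r7 := mul_le_mul_of_nonneg_left r5 r6.le
    have r8 := mul_pos r0 r3
    have r9 := mul_pos r0 r4
    split_ifs <;> constructor <;> nlinarith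
  have a2 : ∑ p ∈ sp k M \ sp k z, (if p ∣ F then (1 : ℝ) else 0) ≤ B := by
    have hS : {p ∈ sp k M \ sp k z | p ∣ F} ⊆ sp k M := (filter_subset _ _).trans sdiff_subset
    have b1 := natDegree_le_of_dvd ((br_prod_dvd hS F).2 fun p hp => (mem_filter.1 hp).2) hF
    rw [natDegree_prod_of_monic _ _ fun p hp => (mem_sp.1 (hS hp)).1] at b1
    have b2 := card_nsmul_le_sum _ (fun p : k[X] => p.natDegree) 1
      fun p hp => (mem_sp.1 (hS hp)).2.1.natDegree_pos
    rw [smul_eq_mul, mul_one] at b2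
    rw [sum_boole]
    exact_mod_cast b2.trans (b1.trans h1)
  have a3 : ∑ p ∈ sp k M \ sp k z, ri p ≤ B := by
    refine (sum_le_sum_of_subset_of_nonneg (sdiff_subset.trans (filter_subset _ (mle k M)))
      fun p _ _ => (ri_pos p).le).trans ?_
    rw [sum_mle, sum_congr rfl (g := fun _ => 1) fun i _ => ?_, sum_const, card_range,
      nsmul_eq_mul, mul_one]
    · exact_mod_cast h2
    · rw [sum_congr rfl (g := fun _ => 1 / qq k ^ i) fun a ha => by rw [ri, (mem_mon.1 ha).2],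
        sum_const, nsmul_eq_mul, card_mon, mul_one_div_cancel (by positivity)]
  have a4 : ∑ p ∈ sp k M \ sp k z, ‖f p‖ ≤ 6 * B / 2 ^ z := by
    refine (sum_le_sum a1).trans ?_
    rw [← sum_div, sum_add_distrib, ← mul_sum, ← mul_sum]
    gcongr
    linarith
  have a5 : 0 ≤ ∑ p ∈ sp k M \ sp k z, ‖f p‖ := sum_nonneg fun _ _ => norm_nonneg _
  have a6 := norm_prod_one_add_sub_one_le (sp k M \ sp k z) f
  have a7 := Real.abs_exp_sub_one_le (x := ∑ p ∈ sp k M \ sp k z, ‖f p‖)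
    (by rw [abs_of_nonneg a5]; linarith)
  rw [abs_of_nonneg a5] at a7
  rw [e, ← sub_one_mul, abs_mul, mul_comm]
  refine mul_le_mul_of_nonneg_left (a6.trans ((le_abs_self _).trans (a7.trans ?_))) (abs_nonneg _)
  rw [show 12 * (B : ℝ) / 2 ^ z = 2 * (6 * B / 2 ^ z) by ring]
  linarith

end
end Pool.Agent.HGB
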