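import Pool.Agent.MP_b5e119_nt.GB.Defs

/-! The share of rough polynomials and the trivial bound on the diagonal strip. -/

set_option autoImplicit false

open Polynomial Finset Filter
open scoped Classical BigOperators

noncomputable section
namespace Pool.Agent.HGB
open Pool.Agent.MP_a4a062_nt.C2

section
variable {k : Type*} [Field k] [Fintype k]

theorem dg_fr_mon (m : ℕ) : ∃ M : Finset k[X], M.card = Fintype.card k ^ m ∧
    ∀ f, f ∈ M ↔ f.Monic ∧ f.natDegree = m :=
  ⟨mon k m, by have := card_mon (k := k) m; unfold qq at this; exact_mod_cast this,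
    fun _ => mem_mon⟩

theorem dg_fr_card_mon (m : ℕ) (S : Finset k[X]) (hS : ∀ f ∈ S, f.Monic ∧ f.natDegree = m) :
    S.card ≤ Fintype.card k ^ m := by
  obtain ⟨M, h1, h2⟩ := dg_fr_mon (k := k) m
  exact h1 ▸ card_le_card fun f hf => (h2 f).2 (hS f hf)

theorem dg_fr_card_irr {d : ℕ} (hd : d ≠ 0) (S : Finset k[X])
    (hS : ∀ p ∈ S, p.Monic ∧ Irreducible p ∧ p.natDegree = d) :
    d * S.card ≤ Fintype.card k ^ d := by
  have h1 : ∏ p ∈ S, p ∣ (X ^ (Nat.card k) ^ d - X : k[X]) := by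
    refine Finset.prod_dvd_of_coprime (fun p hp r hr hne => ?_) fun p hp =>
      (hS p hp).2.1.natDegree_dvd_iff_dvd_X_pow_card_pow_sub_X.1 (by rw [(hS p hp).2.2])
    refine (hS p hp).2.1.coprime_iff_not_dvd.2 fun h => hne ?_
    exact eq_of_monic_of_associated (hS p hp).1 (hS r hr).1
      ((hS p hp).2.1.associated_of_dvd (hS r hr).2.1 h)
  have h2 := natDegree_le_of_dvd h1
    (FiniteField.X_pow_card_pow_sub_X_ne_zero k hd Finite.one_lt_card)
  rw [FiniteField.X_pow_card_pow_sub_X_natDegree_eq k hd Finite.one_lt_card,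
    natDegree_prod_of_monic _ _ fun p hp => (hS p hp).1,
    sum_congr rfl fun p hp => (hS p hp).2.2, sum_const, smul_eq_mul, Nat.card_eq_fintype_card] at h2
  rwa [mul_comm]

omit [Fintype k] in
/-- The degree is at most the sum of the degrees over the prime powers that divide. -/
theorem dg_fr_deg {f : k[X]} (hf : f.Monic) (PP : Finset k[X])
    (hP : ∀ p : k[X], p.Monic → Irreducible p → p ∣ f → p ∈ PP) :
    f.natDegree ≤ ∑ p ∈ PP, ∑ j ∈ Icc 1 f.natDegree, if p ^ j ∣ f then p.natDegree else 0 := by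
  open UniqueFactorizationMonoid in
  have h0 := hf.ne_zero
  have hm : ∀ p ∈ normalizedFactors f, p.Monic ∧ Irreducible p ∧ p ∣ f := fun p hp => by
    have hi := irreducible_of_normalized_factor p hp
    refine ⟨?_, hi, dvd_of_mem_normalizedFactors hp⟩
    rw [← normalize_normalized_factor p hp]
    exact monic_normalize hi.ne_zero
  have h1 : (normalizedFactors f).prod = f := by
    rw [prod_normalizedFactors_eq h0, hf.normalize_eq_self]
  have h2 : f.natDegree = ∑ p ∈ (normalizedFactors f).toFinset,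
      (normalizedFactors f).count p * p.natDegree := by
    conv_lhs => rw [← h1, natDegree_multiset_prod_of_monic _ fun p hp => (hm p hp).1]
    rw [Finset.sum_multiset_map_count]
    simp only [smul_eq_mul]
  refine h2.le.trans (le_trans (sum_le_sum fun p hp => ?_) (sum_le_sum_of_subset fun p hp =>
    hP p (hm p (Multiset.mem_toFinset.1 hp)).1 (hm p (Multiset.mem_toFinset.1 hp)).2.1
      (hm p (Multiset.mem_toFinset.1 hp)).2.2))
  obtain ⟨a1, a2, -⟩ := hm p (Multiset.mem_toFinset.1 hp)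
  set c := (normalizedFactors f).count p with hc
  have h3 : p ^ c ∣ f := by
    rw [← Multiset.prod_replicate]
    conv_rhs => rw [← h1]
    exact Multiset.prod_dvd_prod_of_le (Multiset.le_count_iff_replicate_le.1 le_rfl)
  have h4 : c ≤ f.natDegree := by
    have := natDegree_le_of_dvd h3 h0
    rw [a1.natDegree_pow] at this
    exact le_trans (Nat.le_mul_of_pos_right _ a2.natDegree_pos) this
  calc c * p.natDegree = ∑ j ∈ Icc 1 c, if p ^ j ∣ f then p.natDegree else 0 := by
        rw [sum_congr rfl fun j hj => if_pos ((pow_dvd_pow p (mem_Icc.1 hj).2).trans h3)]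
        simp
    _ ≤ _ := sum_le_sum_of_subset (Icc_subset_Icc_right h4)

omit [Fintype k] in
/-- Division by a monic divisor is injective. -/
theorem dg_fr_div {D : k[X]} (hD : D.Monic) {m : ℕ} (S T : Finset k[X])
    (hS : ∀ f ∈ S, f.Monic ∧ f.natDegree = m ∧ D ∣ f)
    (hT : ∀ g : k[X], D * g ∈ S → g.Monic → g.natDegree + D.natDegree = m → g ∈ T) :
    S.card ≤ T.card := by
  refine le_trans (card_le_card (t := T.image (D * ·)) fun f hf => ?_) card_image_le
  obtain ⟨a1, a2, g, rfl⟩ := hS f hf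
  have hg : g.Monic := hD.of_mul_monic_left a1
  exact mem_image.2 ⟨g, hT g hf hg (by rw [← a2, hD.natDegree_mul hg, add_comm]), rfl⟩

theorem dg_fr_dvd {D : k[X]} (hD : D.Monic) {m : ℕ} (S : Finset k[X])
    (hS : ∀ f ∈ S, f.Monic ∧ f.natDegree = m ∧ D ∣ f) :
    (S.card : ℝ) ≤ (Fintype.card k : ℝ) ^ m / (Fintype.card k : ℝ) ^ D.natDegree := by
  have q0 : (0 : ℝ) < Fintype.card k := by exact_mod_cast Fintype.card_pos
  rcases S.eq_empty_or_nonempty with rfl | ⟨f, hf⟩
  · simp only [card_empty, Nat.cast_zero]; positivity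
  have hm : D.natDegree ≤ m :=
    (hS f hf).2.1 ▸ natDegree_le_of_dvd (hS f hf).2.2 (hS f hf).1.ne_zero
  obtain ⟨M, h1, h2⟩ := dg_fr_mon (k := k) (m - D.natDegree)
  have := dg_fr_div hD S M hS fun g _ a b => (h2 g).2 ⟨a, by omega⟩
  rw [le_div_iff₀ (by positivity), ← pow_sub_mul_pow _ hm]
  gcongr
  exact_mod_cast h1 ▸ this

theorem dg_fr_geo {x : ℝ} (hx : 2 ≤ x) (a m : ℕ) : ∑ j ∈ Icc a m, 1 / x ^ j ≤ 2 / x ^ a := by
  have x0 : 0 < x := by linarith
  have key : ∀ n : ℕ, ∑ j ∈ Ico a (a + n), 1 / x ^ j ≤ 2 / x ^ a - 2 / x ^ (a + n) := by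
    intro n
    induction n with
    | zero => simp
    | succ n ih =>
      rw [← add_assoc, sum_Ico_succ_top (by omega)]
      have : 2 / x ^ (a + n + 1) ≤ 1 / x ^ (a + n) := by
        rw [div_le_div_iff₀ (by positivity) (by positivity), pow_succ]
        have : 0 < x ^ (a + n) := by positivity
        nlinarith
      have e : 2 / x ^ (a + n) = 2 * (1 / x ^ (a + n)) := by ring
      linarith
  refine le_trans (sum_le_sum_of_subset_of_nonneg (t := Ico a (a + (m + 1)))
    (fun j hj => by simp only [mem_Icc, mem_Ico] at hj ⊢; omega) fun _ _ _ => by positivity)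
    ((key _).trans (sub_le_self _ (by positivity)))

/-- The recursion. -/
theorem dg_fr_rec (y z : ℕ) (S : ℕ → Finset k[X])
    (hS : ∀ m f, f ∈ S m ↔ f.Monic ∧ f.natDegree = m ∧
      ∀ p : k[X], Irreducible p → p ∣ f → p.natDegree < y ∨ z < p.natDegree) (m : ℕ) :
    (m : ℝ) * ((S m).card / (Fintype.card k : ℝ) ^ m) ≤
      y + 2 + ∑ i ∈ range (m - z), ((S i).card / (Fintype.card k : ℝ) ^ i) := by
  set q : ℝ := (Fintype.card k : ℝ) with hq
  have q2 : (2 : ℝ) ≤ q := by rw [hq]; exact_mod_cast Fintype.one_lt_card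
  have q0 : 0 < q := by linarith
  choose M hM1 hM2 using dg_fr_mon (k := k)
  set P : ℕ → Finset k[X] := fun d => (M d).filter Irreducible with hPd
  have hP : ∀ d p, p ∈ P d ↔ p.Monic ∧ Irreducible p ∧ p.natDegree = d := fun d p => by
    simp only [hPd, mem_filter, hM2]; tauto
  have hPc : ∀ d : ℕ, d ≠ 0 → (d : ℝ) * (P d).card ≤ q ^ d := fun d hd => by
    rw [hq]; exact_mod_cast dg_fr_card_irr hd (P d) fun p hp => (hP d p).1 hp
  set a : k[X] → ℕ → ℝ := fun p j => (((S m).filter fun f => p ^ j ∣ f).card : ℝ) with ha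
  have h1 : (m : ℝ) * (S m).card ≤
      ∑ d ∈ Icc 1 m, ∑ p ∈ P d, ∑ j ∈ Icc 1 m, (d : ℝ) * a p j := by
    have hdis : ((Icc 1 m : Finset ℕ) : Set ℕ).PairwiseDisjoint P := fun d _ e _ hne =>
      disjoint_left.2 fun p h1 h2 => hne (((hP d p).1 h1).2.2.symm.trans ((hP e p).1 h2).2.2)
    have e1 : ∀ f ∈ S m, (m : ℝ) ≤ ∑ d ∈ Icc 1 m, ∑ p ∈ P d, ∑ j ∈ Icc 1 m,
        (if p ^ j ∣ f then (d : ℝ) else 0) := fun f hf => by
      obtain ⟨a1, a2, -⟩ := (hS m f).1 hf
      have := dg_fr_deg a1 ((Icc 1 m).biUnion P) fun p b1 b2 b3 => mem_biUnion.2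
        ⟨p.natDegree, mem_Icc.2 ⟨b2.natDegree_pos, a2 ▸ natDegree_le_of_dvd b3 a1.ne_zero⟩,
          (hP _ p).2 ⟨b1, b2, rfl⟩⟩
      rw [sum_biUnion hdis, a2] at this
      have h' : (m : ℝ) ≤ ((∑ d ∈ Icc 1 m, ∑ p ∈ P d, ∑ j ∈ Icc 1 m,
        (if p ^ j ∣ f then p.natDegree else 0) : ℕ) : ℝ) := by exact_mod_cast this
      refine h'.trans (le_of_eq ?_)
      push_cast
      exact sum_congr rfl fun d _ => sum_congr rfl fun p hp => by rw [((hP d p).1 hp).2.2]
    calc (m : ℝ) * (S m).card = ∑ _f ∈ S m, (m : ℝ) := by simp [mul_comm]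
      _ ≤ _ := sum_le_sum e1
      _ = _ := by
        rw [sum_comm]
        refine sum_congr rfl fun d _ => ?_
        rw [sum_comm]
        refine sum_congr rfl fun p _ => ?_
        rw [sum_comm]
        refine sum_congr rfl fun j _ => ?_
        rw [← sum_filter, sum_const, nsmul_eq_mul, mul_comm]
  have h2 : ∀ d, ∀ p ∈ P d, ∀ j, a p j ≤ q ^ m * (1 / (q ^ d) ^ j) := fun d p hp j => by
    obtain ⟨b1, -, b3⟩ := (hP d p).1 hp
    have := dg_fr_dvd (b1.pow j) ((S m).filter fun f => p ^ j ∣ f) (m := m) fun f hf =>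
      ⟨((hS m f).1 (mem_filter.1 hf).1).1, ((hS m f).1 (mem_filter.1 hf).1).2.1,
        (mem_filter.1 hf).2⟩
    rw [b1.natDegree_pow, b3, mul_comm j, pow_mul] at this
    rw [mul_one_div]; exact this
  set b : ℕ → ℝ := fun d => (if d < y then 1 else 0) +
    (if z < d then ((S (m - d)).card / q ^ (m - d)) else 0) with hb
  have b0 : ∀ d, 0 ≤ b d := fun d => by
    simp only [hb]; split_ifs <;> positivity
  have h3 : ∀ d ∈ Icc 1 m, ∀ p ∈ P d, a p 1 ≤ q ^ m / q ^ d * b d := fun d hd p hp => by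
    obtain ⟨b1, b2, b3⟩ := (hP d p).1 hp
    have hd' := mem_Icc.1 hd
    by_cases c1 : d < y
    · have := h2 d p hp 1
      rw [pow_one, mul_one_div] at this
      refine this.trans (le_mul_of_one_le_right (by positivity) ?_)
      simp only [hb, if_pos c1]
      split_ifs
      · exact le_add_of_nonneg_right (by positivity)
      · simp
    by_cases c2 : z < d
    · have := dg_fr_div b1 ((S m).filter fun f => p ^ 1 ∣ f) (S (m - d)) (m := m) (fun f hf =>
        ⟨((hS m f).1 (mem_filter.1 hf).1).1, ((hS m f).1 (mem_filter.1 hf).1).2.1,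
          pow_one p ▸ (mem_filter.1 hf).2⟩) fun g e1 e2 e3 => (hS _ g).2 ⟨e2, by omega,
            fun r r1 r2 => ((hS m _).1 (mem_filter.1 e1).1).2.2 r r1 (r2.mul_left p)⟩
      simp only [hb, if_neg c1, if_pos c2, zero_add]
      rw [← pow_sub_mul_pow q hd'.2, mul_div_assoc, div_self (by positivity), mul_one,
        mul_div_cancel₀ _ (by positivity)]
      simp only [ha]
      exact_mod_cast this
    · have : ((S m).filter fun f => p ^ 1 ∣ f) = ∅ := filter_eq_empty_iff.2 fun f hf h => by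
        have := ((hS m f).1 hf).2.2 p b2 (pow_one p ▸ h)
        omega
      simp only [ha, this, card_empty, Nat.cast_zero]
      exact mul_nonneg (by positivity) (b0 d)
  have h4 : ∀ d ∈ Icc 1 m, ∑ p ∈ P d, ∑ j ∈ Icc 1 m, (d : ℝ) * a p j ≤
      q ^ m * (b d + 2 * (1 / q ^ d)) := fun d hd => by
    have hd' := mem_Icc.1 hd
    have qd : (2 : ℝ) ≤ q ^ d := q2.trans (le_self_pow₀ (by linarith) (by omega))
    have e1 : ∀ p ∈ P d, ∑ j ∈ Icc 1 m, (d : ℝ) * a p j ≤
        d * (q ^ m / q ^ d * (b d + 2 * (1 / q ^ d))) := fun p hp => by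
      rw [← mul_sum]
      refine mul_le_mul_of_nonneg_left ?_ (by positivity)
      rw [← insert_Icc_add_one_left_eq_Icc (hd'.1.trans hd'.2), sum_insert (by simp), mul_add]
      refine add_le_add (h3 d hd p hp) ((sum_le_sum fun j _ => h2 d p hp j).trans ?_)
      rw [← mul_sum]
      refine (mul_le_mul_of_nonneg_left (dg_fr_geo qd 2 m) (by positivity)).trans (le_of_eq ?_)
      field_simp
    refine (sum_le_sum e1).trans ?_
    rw [sum_const, nsmul_eq_mul, ← mul_assoc, mul_comm _ (d : ℝ)]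
    have c0 : 0 ≤ q ^ m / q ^ d * (b d + 2 * (1 / q ^ d)) :=
      mul_nonneg (by positivity) (add_nonneg (b0 d) (by positivity))
    refine (mul_le_mul_of_nonneg_right (hPc d (by omega)) c0).trans (le_of_eq ?_)
    field_simp
  have h5 : ∑ d ∈ Icc 1 m, (b d + 2 * (1 / q ^ d)) ≤
      y + 2 + ∑ i ∈ range (m - z), ((S i).card / q ^ i) := by
    simp only [hb, sum_add_distrib]
    have e1 : ∑ d ∈ Icc 1 m, (if d < y then (1 : ℝ) else 0) ≤ y := by
      rw [← sum_filter, sum_const, nsmul_eq_mul, mul_one]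
      have : ((Icc 1 m).filter (· < y)).card ≤ (range y).card :=
        card_le_card fun d hd => mem_range.2 (mem_filter.1 hd).2
      rw [card_range] at this
      exact_mod_cast this
    have e2 : ∑ d ∈ Icc 1 m, (if z < d then ((S (m - d)).card / q ^ (m - d) : ℝ) else 0) =
        ∑ i ∈ range (m - z), ((S i).card / q ^ i) := by
      rw [← sum_filter]
      refine sum_nbij' (fun d => m - d) (fun i => m - i) (fun d hd => ?_) (fun d hd => ?_)
        (fun d hd => ?_) (fun d hd => ?_) fun _ _ => rfl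
      all_goals simp only [mem_filter, mem_Icc, mem_range] at hd ⊢; omega
    have e3 : ∑ d ∈ Icc 1 m, 2 * (1 / q ^ d) ≤ 2 := by
      rw [← mul_sum]
      have f1 := dg_fr_geo q2 1 m
      have f2 : 2 / q ^ 1 ≤ 1 := by rw [pow_one, div_le_one q0]; exact q2
      linarith
    linarith
  rw [← mul_div_assoc, div_le_iff₀ (by positivity), mul_comm _ (q ^ m)]
  refine h1.trans ((sum_le_sum h4).trans ?_)
  rw [← mul_sum]
  exact mul_le_mul_of_nonneg_left h5 (by positivity)

/-- Rough times short is injective: the rough shares over a window of length `z + 1`. -/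
theorem dg_fr_window (z N : ℕ) (T : ℕ → Finset k[X])
    (hT : ∀ m, ∀ f ∈ T m, f.Monic ∧ f.natDegree = m ∧
      ∀ p : k[X], Irreducible p → p ∣ f → z < p.natDegree) :
    ∑ i ∈ range (z + 1), ((T (N + i)).card / (Fintype.card k : ℝ) ^ (N + i)) ≤ 1 := by
  have q0 : (0 : ℝ) < Fintype.card k := by exact_mod_cast Fintype.card_pos
  choose M hM1 hM2 using dg_fr_mon (k := k)
  have cop : ∀ r s : k[X], (∀ p : k[X], Irreducible p → p ∣ r → z < p.natDegree) → s.Monic →
      s.natDegree ≤ z → IsCoprime r s := fun r s hr hs hd =>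
    isCoprime_of_irreducible_dvd (fun h => hs.ne_zero h.2) fun p hp h1 h2 => by
      have := natDegree_le_of_dvd h2 hs.ne_zero
      have := hr p hp h1
      omega
  have key : ((range (z + 1)).sigma fun i => T (N + i) ×ˢ M (z - i)).card ≤ (M (N + z)).card := by
    refine card_le_card_of_injOn (fun x => x.2.1 * x.2.2) (fun x hx => ?_) fun x hx x' hx' h => ?_
    · simp only [coe_sigma, Set.mem_sigma_iff, mem_coe, mem_range, mem_product, hM2] at hx ⊢
      obtain ⟨a1, a2, a3, a4⟩ := hx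
      obtain ⟨b1, b2, -⟩ := hT _ _ a2
      exact ⟨b1.mul a3, by rw [b1.natDegree_mul a3]; omega⟩
    · simp only [coe_sigma, Set.mem_sigma_iff, mem_coe, mem_range, mem_product, hM2] at hx hx' h
      obtain ⟨i, r, s⟩ := x
      obtain ⟨i', r', s'⟩ := x'
      obtain ⟨a1, a2, a3, a4⟩ := hx
      obtain ⟨c1, c2, c3, c4⟩ := hx'
      obtain ⟨b1, b2, b3⟩ := hT _ _ a2
      obtain ⟨d1, d2, d3⟩ := hT _ _ c2
      simp only at *
      have e : r = r' := eq_of_monic_of_associated b1 d1 (associated_of_dvd_dvd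
        ((cop r s' b3 c3 (by omega)).dvd_of_dvd_mul_right (h ▸ dvd_mul_right r s))
        ((cop r' s d3 a3 (by omega)).dvd_of_dvd_mul_right (h ▸ dvd_mul_right r' s')))
      subst e
      have e2 : s = s' := mul_left_cancel₀ b1.ne_zero h
      have e3 : i = i' := by omega
      subst e2 e3
      rfl
  rw [card_sigma, hM1] at key
  simp only [card_product, hM1] at key
  have key' : ∑ i ∈ range (z + 1), ((T (N + i)).card : ℝ) * (Fintype.card k : ℝ) ^ (z - i) ≤
      (Fintype.card k : ℝ) ^ (N + z) := by exact_mod_cast key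
  rw [← div_le_one (by positivity), sum_div] at key'
  refine le_trans (le_of_eq (sum_congr rfl fun i hi => ?_)) key'
  have : N + z = N + i + (z - i) := by have := mem_range.1 hi; omega
  rw [this, pow_add _ (N + i)]
  field_simp

/-- The share of the `z`-rough monic polynomials of a positive degree is at most `4 / (z + 1)`. -/
theorem dg_fr_rough (z m : ℕ) (hm : 1 ≤ m) (S : Finset k[X])
    (hS : ∀ f ∈ S, f.Monic ∧ f.natDegree = m ∧
      ∀ p : k[X], Irreducible p → p ∣ f → z < p.natDegree) :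
    ((z : ℝ) + 1) * S.card ≤ 4 * (Fintype.card k : ℝ) ^ m := by
  have q0 : (0 : ℝ) < Fintype.card k := by exact_mod_cast Fintype.card_pos
  rcases S.eq_empty_or_nonempty with rfl | ⟨f, hf⟩
  · simp only [card_empty, Nat.cast_zero, mul_zero]; positivity
  have hzm : z + 1 ≤ m := by
    obtain ⟨a1, a2, a3⟩ := hS f hf
    obtain ⟨p, p1, p2⟩ := exists_irreducible_of_natDegree_pos (f := f) (by omega)
    have := natDegree_le_of_dvd p2 a1.ne_zero
    have := a3 p p1 p2
    omega
  choose M hM1 hM2 using dg_fr_mon (k := k)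
  set T : ℕ → Finset k[X] := fun m => (M m).filter fun f =>
    ∀ p : k[X], Irreducible p → p ∣ f → p.natDegree < 1 ∨ z < p.natDegree with hTd
  have hT : ∀ m f, f ∈ T m ↔ f.Monic ∧ f.natDegree = m ∧
      ∀ p : k[X], Irreducible p → p ∣ f → p.natDegree < 1 ∨ z < p.natDegree := fun m f => by
    simp only [hTd, mem_filter, hM2, and_assoc]
  have hw := fun N => dg_fr_window z N T fun m f hf => ⟨((hT m f).1 hf).1, ((hT m f).1 hf).2.1,
    fun p p1 p2 => (((hT m f).1 hf).2.2 p p1 p2).resolve_left (by have := p1.natDegree_pos; omega)⟩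
  have hb : ∀ j : ℕ, ∑ i ∈ range (j * (z + 1)),
      ((T i).card / (Fintype.card k : ℝ) ^ i) ≤ j := fun j => by
    induction j with
    | zero => simp
    | succ j ih =>
      rw [add_mul, one_mul, sum_range_add]
      push_cast
      linarith [hw (j * (z + 1))]
  have h1 := dg_fr_rec 1 z T hT m
  have h2 : ∑ i ∈ range (m - z), ((T i).card / (Fintype.card k : ℝ) ^ i) ≤
      (m / (z + 1) : ℕ) := by
    refine le_trans (sum_le_sum_of_subset_of_nonneg (range_subset_range.2 ?_)
      fun _ _ _ => by positivity) (hb _)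
    have := Nat.div_add_mod' m (z + 1)
    have := Nat.mod_lt m (show 0 < z + 1 by omega)
    omega
  have h3 : ((m / (z + 1) : ℕ) : ℝ) * (z + 1) ≤ m := by
    exact_mod_cast Nat.div_mul_le_self m (z + 1)
  have h4 : (z : ℝ) + 1 ≤ m := by exact_mod_cast hzm
  have h5 : (S.card : ℝ) ≤ (T m).card := by
    exact_mod_cast card_le_card fun f hf => (hT m f).2
      ⟨(hS f hf).1, (hS f hf).2.1, fun p p1 p2 => Or.inr ((hS f hf).2.2 p p1 p2)⟩
  set s : ℝ := (T m).card / (Fintype.card k : ℝ) ^ m with hs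
  have m0 : (0 : ℝ) < m := by exact_mod_cast hm
  have z0 : (0 : ℝ) < z + 1 := by positivity
  have h6 : (z + 1) * s ≤ 4 := by
    refine le_of_mul_le_mul_left ?_ m0
    push_cast at h1
    have := mul_le_mul_of_nonneg_left (h1.trans (add_le_add_right h2 _)) z0.le
    nlinarith
  rw [hs, ← mul_div_assoc, div_le_iff₀ (by positivity)] at h6
  exact (mul_le_mul_of_nonneg_left h5 z0.le).trans h6

/-- Monic polynomials in one residue class. -/
theorem dg_class {v : k[X]} (hv : v.Monic) {s : ℕ} (hs : v.natDegree ≤ s) (S : Finset k[X])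
    (hS : ∀ x ∈ S, x.Monic ∧ x.natDegree = s) (hc : ∀ x ∈ S, ∀ y ∈ S, v ∣ x - y) :
    (S.card : ℝ) ≤ (Fintype.card k : ℝ) ^ s / (Fintype.card k : ℝ) ^ v.natDegree := by
  refine le_trans (le_of_eq ?_) (dg_fr_dvd hv (m := s) (S.image fun x => v * (x /ₘ v)) fun y hy => ?_)
  · rw [card_image_of_injOn fun x hx y hy e => ?_]
    have e1 := modByMonic_add_div x v
    have e2 := modByMonic_add_div y v
    have e3 : x %ₘ v = y %ₘ v := modByMonic_eq_of_dvd_sub hv (hc x hx y hy)
    rw [← e1, ← e2, e3, e]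
  · obtain ⟨x, hx, rfl⟩ := mem_image.1 hy
    obtain ⟨a1, a2⟩ := hS x hx
    have hd : v.degree ≤ x.degree := by
      rw [degree_eq_natDegree hv.ne_zero, degree_eq_natDegree a1.ne_zero]
      exact_mod_cast a2 ▸ hs
    have hm : (x /ₘ v).Monic := by
      rw [Monic, leadingCoeff_divByMonic_of_monic hv hd]; exact a1
    refine ⟨hv.mul hm, ?_, dvd_mul_right _ _⟩
    rw [hv.natDegree_mul hm, natDegree_divByMonic x hv]
    omega

theorem dg_share (z m : ℕ) (hm : 1 ≤ m) :
    ∑ b ∈ mon k m, rho z b ≤ 4 * qq k ^ m / ((z : ℝ) + 1) := by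
  have := dg_fr_rough z m hm ((mon k m).filter (Rough z)) fun f hf =>
    ⟨(mem_mon.1 (mem_filter.1 hf).1).1, (mem_mon.1 (mem_filter.1 hf).1).2,
      (mem_filter.1 hf).2⟩
  rw [le_div_iff₀ (by positivity), mul_comm]
  refine le_trans (le_of_eq ?_) this
  simp only [rho, sum_boole]

theorem dg_zero {z m : ℕ} (hm : 1 ≤ m) (hz : m ≤ z) : ∑ b ∈ mon k m, rho z b = 0 := by
  refine sum_eq_zero fun b hb => if_neg fun h => ?_
  obtain ⟨a1, a2⟩ := mem_mon.1 hb
  obtain ⟨p, p1, p2⟩ := exists_irreducible_of_natDegree_pos (f := b) (by omega)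
  have := natDegree_le_of_dvd p2 a1.ne_zero
  have := h p p1 p2
  omega

theorem dg_fib (F : k[X]) {i j de : ℕ} (h2 : de ≤ i) {b d : k[X]} (hd : d ∈ mon k de) :
    ∑ a ∈ mon k i, ∑ c ∈ mon k j,
      (if a * b + c * d = F ∧ IsCoprime b d then (1 : ℝ) else 0) ≤ qq k ^ i / qq k ^ de := by
  obtain ⟨d1, d2⟩ := mem_mon.1 hd
  have h := dg_class d1 (s := i) (d2 ▸ h2)
    ((mon k i).filter fun a => d ∣ F - a * b ∧ IsCoprime b d)
    (fun x hx => mem_mon.1 (mem_filter.1 hx).1) fun x hx y hy => by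
      have e := dvd_sub (mem_filter.1 hy).2.1 (mem_filter.1 hx).2.1
      rw [show F - y * b - (F - x * b) = (x - y) * b by ring] at e
      exact (mem_filter.1 hx).2.2.symm.dvd_of_dvd_mul_right e
  rw [d2, card_filter] at h
  push_cast at h
  refine le_trans (sum_le_sum fun a _ => ?_) h
  rw [sum_boole]
  split_ifs with c
  · refine Nat.cast_le_one.2 (card_le_one.2 fun x hx y hy => mul_right_cancel₀ d1.ne_zero
      (add_left_cancel ((mem_filter.1 hx).2.1.trans (mem_filter.1 hy).2.1.symm)))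
  · rw [filter_eq_empty_iff.2 fun x _ hx => c ⟨⟨x, by rw [← hx.1]; ring⟩, hx.2⟩]
    simp

theorem TT_symm (z : ℕ) (F : k[X]) (i be j de : ℕ) : TT z F i be j de = TT z F j de i be := by
  unfold TT S4
  calc _ = ∑ a ∈ mon k i, ∑ c ∈ mon k j, ∑ d ∈ mon k de, ∑ b ∈ mon k be,
        if a * b + c * d = F then rho z a * rho z b * rho z c * rho z d * (mu a * mu c) else 0 :=
        sum_congr rfl fun a _ => by
          rw [sum_comm]
          exact sum_congr rfl fun c _ => sum_comm
    _ = _ := by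
        rw [sum_comm]
        refine sum_congr rfl fun c _ => ?_
        rw [sum_comm]
        refine sum_congr rfl fun d _ => sum_congr rfl fun a _ => sum_congr rfl fun b _ => ?_
        rw [add_comm (c * d)]
        split_ifs
        · ring
        · rfl

theorem diag_le {z N i be j de : ℕ} {F : k[X]} (hc : Cell F N i be j de) (h1 : 1 ≤ de)
    (h2 : de ≤ i) (h3 : be = 0 → de ≤ z) :
    |TT z F i be j de| ≤ BAD z F i be j de + 16 * qq k ^ (N + 1) / ((z : ℝ) + 1) ^ 2 := by
  have q2 := two_le_qq (k := k)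
  have q0 : 0 < qq k := by linarith
  have r0 : ∀ f : k[X], 0 ≤ rho z f := fun f => by unfold rho; split_ifs <;> norm_num
  have r1 : ∀ f : k[X], rho z f ≤ 1 := fun f => by unfold rho; split_ifs <;> norm_num
  have m1 : ∀ f : k[X], |mu f| ≤ 1 := fun f => by
    unfold mu; split_ifs
    · exact (abs_lam f).le
    · simp
  have e1 : |TT z F i be j de| ≤ BAD z F i be j de + ∑ a ∈ mon k i, ∑ b ∈ mon k be,
      ∑ c ∈ mon k j, ∑ d ∈ mon k de, rho z b * rho z d *
        (if a * b + c * d = F ∧ IsCoprime b d then (1 : ℝ) else 0) := by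
    unfold TT BAD S4
    rw [← sum_add_distrib]
    refine (abs_sum_le_sum_abs _ _).trans (sum_le_sum fun a _ => ?_)
    rw [← sum_add_distrib]
    refine (abs_sum_le_sum_abs _ _).trans (sum_le_sum fun b _ => ?_)
    rw [← sum_add_distrib]
    refine (abs_sum_le_sum_abs _ _).trans (sum_le_sum fun c _ => ?_)
    rw [← sum_add_distrib]
    refine (abs_sum_le_sum_abs _ _).trans (sum_le_sum fun d _ => ?_)
    by_cases c1 : a * b + c * d = F
    swap
    · simp [c1]
    have p0 : 0 ≤ rho z a * rho z b * rho z c * rho z d :=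
      mul_nonneg (mul_nonneg (mul_nonneg (r0 a) (r0 b)) (r0 c)) (r0 d)
    have p1 : |rho z a * rho z b * rho z c * rho z d * (mu a * mu c)| ≤
        rho z a * rho z b * rho z c * rho z d := by
      rw [abs_mul, abs_of_nonneg p0, abs_mul]
      exact mul_le_of_le_one_right p0 (mul_le_one₀ (m1 a) (abs_nonneg _) (m1 c))
    have p2 : rho z a * rho z b * rho z c * rho z d ≤ rho z b * rho z d := by
      rw [show rho z a * rho z b * rho z c * rho z d = rho z b * rho z d * (rho z a * rho z c) by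
        ring]
      exact mul_le_of_le_one_right (mul_nonneg (r0 b) (r0 d)) (mul_le_one₀ (r1 a) (r0 c) (r1 c))
    have p3 := mul_nonneg (r0 b) (r0 d)
    simp only [c1, if_true, true_and]
    by_cases c2 : Squarefree (a * b) ∧ Squarefree (c * d) ∧ IsCoprime (a * b) (c * d)
    · rw [if_pos c2, if_pos c2.2.2.of_mul_left_right.of_mul_right_right]
      linarith
    · rw [if_neg c2]
      split_ifs <;> linarith
  have e2 : ∑ a ∈ mon k i, ∑ b ∈ mon k be, ∑ c ∈ mon k j, ∑ d ∈ mon k de, rho z b * rho z d *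
        (if a * b + c * d = F ∧ IsCoprime b d then (1 : ℝ) else 0) ≤
      (∑ b ∈ mon k be, rho z b) * (∑ d ∈ mon k de, rho z d) * (qq k ^ i / qq k ^ de) := by
    rw [sum_comm, sum_mul_sum, sum_mul]
    refine sum_le_sum fun b _ => ?_
    rw [sum_congr rfl fun a _ => sum_comm, sum_comm, sum_mul]
    refine sum_le_sum fun d hd => ?_
    simp only [← mul_sum]
    exact mul_le_mul_of_nonneg_left (dg_fib F h2 hd) (mul_nonneg (r0 b) (r0 d))
  refine e1.trans (add_le_add_right (e2.trans ?_) _)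
  rcases Nat.eq_zero_or_pos be with h0 | h0
  · rw [dg_zero h1 (h3 h0), mul_zero, zero_mul]; positivity
  have e3 := dg_share (k := k) z be h0
  have e4 := dg_share (k := k) z de h1
  have e5 : qq k ^ (i + be) ≤ qq k ^ (N + 1) := pow_le_pow_right₀ (by linarith) hc.2.2.2.1
  calc _ ≤ 4 * qq k ^ be / ((z : ℝ) + 1) * (4 * qq k ^ de / ((z : ℝ) + 1)) *
        (qq k ^ i / qq k ^ de) :=
        mul_le_mul_of_nonneg_right (mul_le_mul e3 e4 (sum_nonneg fun d _ => r0 d)
          (by positivity)) (by positivity)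
    _ = 16 * qq k ^ (i + be) / ((z : ℝ) + 1) ^ 2 := by rw [pow_add]; field_simp; norm_num
    _ ≤ _ := by gcongr


end
end Pool.Agent.HGB
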