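import Pool.Agent.MP_b5e119_nt.GB.TModel
import Pool.Agent.MP_b5e119_nt.GB.TPsi
import Pool.Agent.MP_b5e119_nt.GB.TDiag

set_option autoImplicit false

open Polynomial Finset Filter
open scoped Classical BigOperators

noncomputable section
namespace Pool.Agent.HGB
open Pool.Agent.MP_a4a062_nt.C2

section
variable {k : Type*} [Field k] [Fintype k]

theorem cel_poly (C : ℝ) (d : ℕ) : ∀ᶠ t : ℕ in atTop, C * (t : ℝ) ^ d ≤ 2 ^ t := by
  have h := (tendsto_pow_const_div_const_pow_of_one_lt d (by norm_num : (1 : ℝ) < 2)).const_mul C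
  rw [mul_zero] at h
  filter_upwards [h.eventually (gt_mem_nhds one_pos)] with t ht
  rw [← mul_div_assoc, div_lt_one (by positivity)] at ht
  exact ht.le

theorem cel_strip (m b t : ℕ) : (#{j ∈ range (m + 1) | m - j < b + t ∧ b < m - j + t} : ℝ) ≤ 2 * t := by
  have : #{j ∈ range (m + 1) | m - j < b + t ∧ b < m - j + t} ≤ #(range (2 * t)) :=
    card_le_card_of_injOn (fun j => m - j + t - b) (fun j hj => by
      simp only [coe_filter, mem_range, Set.mem_ofPred_eq, coe_range, Set.mem_Iio] at hj ⊢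
      omega) fun j hj j' hj' h => by
      simp only [coe_filter, mem_range, Set.mem_ofPred_eq] at hj hj' h
      omega
  rw [card_range] at this
  exact_mod_cast this

theorem cells (h : HIV k) (h1 : HM1 k) (h2 : HM2 k) {ε : ℝ} (ε0 : 0 < ε) :
    ∀ᶠ t : ℕ in atTop, ∀ (m n : ℕ) (F : k[X]), t ^ 10 ≤ m → m ≤ (t + 1) ^ 10 → F ≠ 0 → m ≤ n →
      n ≤ m + 1 → (∀ g ∈ mon k m, F - g ∈ mon k n) →
      |∑ i ∈ range (n + 1), ∑ j ∈ range (m + 1),
          (((n : ℝ) - i) - ((m : ℝ) - j)) ^ 2 * TT (t ^ 7) F i (n - i) j (m - j) -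
        qq k ^ m * VV (t ^ 7) t F m * ∑ i ∈ range (n + 1), ∑ j ∈ range (m + 1),
          (((n : ℝ) - i) - ((m : ℝ) - j)) ^ 2 * (mm k (t ^ 7) i * mm k (t ^ 7) j)|
        ≤ ε * qq k ^ m := by
  obtain ⟨κ, hκ, hM⟩ := model h
  have q2 : 2 ≤ qq k := two_le_qq
  filter_upwards [hM, h1 κ hκ, h2 κ hκ,
    cel_poly (2048 * (1 + 1 / ε) * qq k * 2048 ^ 9) 90, eventually_ge_atTop (2 * κ + 9),
    (tendsto_natCast_atTop_atTop (R := ℝ)).eventually_ge_atTop (2 ^ 19 * qq k / ε)]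
    with t hM h1 h2 hP ht htε m n F t1 t2 hF hmn hnm hg
  set Q := qq k ^ m with hQ
  have Q0 : 0 < Q := by positivity
  have t0 : 0 < t := by omega
  have p7 : t ≤ t ^ 7 := Nat.le_self_pow (by norm_num) t
  have p3 : t ≤ t ^ 3 := Nat.le_self_pow (by norm_num) t
  have p8 : 2 * t ^ 8 * κ ≤ t ^ 10 := by
    have : 2 * κ ≤ t ^ 2 := by nlinarith
    calc 2 * t ^ 8 * κ = t ^ 8 * (2 * κ) := by ring
      _ ≤ t ^ 8 * t ^ 2 := Nat.mul_le_mul_left _ this
      _ = _ := by ring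
  have p9 : t + 1 ≤ 2 * t ^ 8 := by
    have : t ≤ t ^ 8 := Nat.le_self_pow (by norm_num) t
    omega
  have mκ : 2 * t ^ 8 ≤ m / κ := (Nat.le_div_iff_mul_le hκ).2 (p8.trans t1)
  have mκ' : m / κ ≤ m := Nat.div_le_self _ _
  have mP : m + 5 ≤ 2048 * t ^ 10 := by
    have a1 : (t + 1) ^ 10 ≤ (2 * t) ^ 10 := Nat.pow_le_pow_left (by omega) 10
    have a2 : t ≤ t ^ 10 := Nat.le_self_pow (by norm_num) t
    rw [mul_pow] at a1
    omega
  set P : ℝ := 2048 * (t : ℝ) ^ 10 with hPd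
  have mP' : (m : ℝ) + 5 ≤ P := by rw [hPd]; exact_mod_cast mP
  have m0 : (0 : ℝ) < m := by exact_mod_cast (by omega : 0 < m)
  have nm : (n : ℝ) ≤ m + 1 := by exact_mod_cast hnm
  have n0 : (0 : ℝ) ≤ n := Nat.cast_nonneg n
  have tR : (9 : ℝ) ≤ t := by exact_mod_cast (by omega : 9 ≤ t)
  have P1 : 1 ≤ P := by linarith
  have hP' : 2048 * (1 + 1 / ε) * qq k * P ^ 9 ≤ 2 ^ t := by
    rw [hPd, mul_pow, ← pow_mul, ← mul_assoc]; exact hP
  have two0 : (0 : ℝ) < 2 ^ t := by positivity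
  have hP1 : 2048 * qq k * P ^ 9 ≤ 2 ^ t := by
    refine le_trans ?_ hP'
    have : 1 ≤ 1 + 1 / ε := le_add_of_nonneg_right (by positivity)
    gcongr
    linarith
  have hG : ∀ a : ℕ, a ≤ m + 1 → (4 : ℝ) ^ (a / t ^ 7) / qq k ^ t ^ 7 ≤ 1 / 2 ^ t := fun a ha => by
    have a1 : a / t ^ 7 ≤ 2048 * t ^ 3 := Nat.div_le_of_le_mul (by
      have : t ^ 7 * (2048 * t ^ 3) = 2048 * t ^ 10 := by ring
      omega)
    have a2 : 4097 * t ^ 3 ≤ t ^ 7 := by
      have : 9 ^ 4 ≤ t ^ 4 := Nat.pow_le_pow_left (by omega) 4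
      calc 4097 * t ^ 3 ≤ t ^ 4 * t ^ 3 := Nat.mul_le_mul_right _ (by omega)
        _ = _ := by ring
    rw [div_le_div_iff₀ (by positivity) two0, one_mul, show (4 : ℝ) = 2 ^ 2 by norm_num, ← pow_mul,
      ← pow_add]
    exact (pow_le_pow_right₀ one_le_two (by omega)).trans (pow_le_pow_left₀ (by norm_num) q2 _)
  have hH : ∀ a : ℕ, m / κ ≤ a → (1 / 2 : ℝ) ^ (a / (2 * t ^ 7)) ≤ 1 / 2 ^ t := fun a ha => by
    rw [← one_div_pow]
    refine pow_le_pow_of_le_one (by norm_num) (by norm_num)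
      ((Nat.le_div_iff_mul_le (by positivity)).2 ?_)
    have : t * (2 * t ^ 7) = 2 * t ^ 8 := by ring
    omega
  have sm : ∀ x : ℝ, x * (m : ℝ) ^ 5 ≤ 2048 * qq k * P ^ 9 → Q * (x * (1 / 2 ^ t)) ≤ Q / m ^ 5 :=
    fun x hx => by
      rw [div_eq_mul_one_div Q]
      refine mul_le_mul_of_nonneg_left ?_ Q0.le
      rw [mul_one_div, div_le_div_iff₀ two0 (by positivity), one_mul]
      exact hx.trans hP1
  have mle : (m : ℝ) ≤ P := by linarith
  have dF : F.natDegree ≤ m + 1 := by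
    have a1 := (mem_mon.1 (hg (X ^ m) (mem_mon.2 ⟨monic_X_pow m, natDegree_X_pow m⟩))).2
    have a2 := natDegree_add_le (F - X ^ m) (X ^ m)
    rw [sub_add_cancel, a1, natDegree_X_pow] at a2
    omega
  set V := VV (t ^ 7) t F m with hV
  have V0 : 0 ≤ V := div_nonneg (sum_nonneg fun g _ =>
    mul_nonneg (brun_nonneg _ _ _) (brun_nonneg _ _ _)) Q0.le
  have V2 : V ≤ qq k * P ^ 4 := (vv_le _ _ hmn hnm hg).trans (by gcongr; linarith)
  set D : ℝ := 16 * qq k ^ (m + 1) / (((t ^ 7 : ℕ) : ℝ) + 1) ^ 2 with hD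
  have D0 : 0 ≤ D := by positivity
  have bad : ∀ i be j de, Cell F m i be j de → BAD (t ^ 7) F i be j de ≤ Q / m ^ 5 :=
    fun i be j de hc => by
      refine (bad_le (by omega) hc).trans (le_trans ?_ (sm (qq k * P) ?_))
      · have := hG (m + 1) le_rfl
        calc _ = Q * (qq k * (m + 5) * (4 ^ ((m + 1) / t ^ 7) / qq k ^ t ^ 7)) := by
              rw [hQ]; ring
          _ ≤ _ := by gcongr
      · calc qq k * P * (m : ℝ) ^ 5 ≤ qq k * P * P ^ 5 := by gcongr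
          _ = 1 * qq k * P ^ 6 := by ring
          _ ≤ _ := by gcongr <;> norm_num
  have cell : ∀ i ∈ range (n + 1), ∀ j ∈ range (m + 1),
      (((n : ℝ) - i) - ((m : ℝ) - j)) ^ 2 *
        |TT (t ^ 7) F i (n - i) j (m - j) - Q * V * (mm k (t ^ 7) i * mm k (t ^ 7) j)| ≤
      ((m : ℝ) + 1) ^ 2 * (2 * (Q / m ^ 5)) +
        if m - j < n - i + t ∧ n - i < m - j + t then (t : ℝ) ^ 2 * D else 0 := by
    intro i hi j hj
    have hi := Nat.lt_succ_iff.1 (mem_range.1 hi)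
    have hj := Nat.lt_succ_iff.1 (mem_range.1 hj)
    have c1 : Cell F m i (n - i) j (m - j) := ⟨hF, dF, by omega, by omega, by omega, by omega⟩
    have c2 : Cell F m j (m - j) i (n - i) := ⟨hF, dF, by omega, by omega, by omega, by omega⟩
    rw [← Nat.cast_sub hi, ← Nat.cast_sub hj]
    have w1 : (((n - i : ℕ) : ℝ) - ((m - j : ℕ) : ℝ)) ^ 2 ≤ ((m : ℝ) + 1) ^ 2 := by
      have a1 : ((n - i : ℕ) : ℝ) ≤ m + 1 := by exact_mod_cast (by omega : n - i ≤ m + 1)
      have a2 : ((m - j : ℕ) : ℝ) ≤ m + 1 := by exact_mod_cast (by omega : m - j ≤ m + 1)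
      have a3 : (0 : ℝ) ≤ ((n - i : ℕ) : ℝ) := Nat.cast_nonneg _
      have a4 : (0 : ℝ) ≤ ((m - j : ℕ) : ℝ) := Nat.cast_nonneg _
      exact sq_le_sq' (by linarith) (by linarith)
    have e0 : 0 ≤ Q / m ^ 5 := by positivity
    have i0 : 0 ≤ if m - j < n - i + t ∧ n - i < m - j + t then (t : ℝ) ^ 2 * D else 0 := by
      split_ifs <;> positivity
    have fin : ∀ x : ℝ, x ≤ 2 * (Q / m ^ 5) → (((n - i : ℕ) : ℝ) - ((m - j : ℕ) : ℝ)) ^ 2 * x ≤
        ((m : ℝ) + 1) ^ 2 * (2 * (Q / m ^ 5)) := fun x hx =>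
      (mul_le_mul_of_nonneg_left hx (sq_nonneg _)).trans
        (mul_le_mul_of_nonneg_right w1 (by positivity))
    by_cases hA : i ≤ j + m / κ ∧ j ≤ i + m / κ ∧ i + j ≤ m + m / κ
    · have := hM m n F i j t1 t2 hF hmn hnm hg hi hj hA.1 hA.2.1 hA.2.2
      exact (fin _ (by linarith)).trans (le_add_of_nonneg_right i0)
    have md : |Q * V * (mm k (t ^ 7) i * mm k (t ^ 7) j)| ≤ Q / m ^ 5 := by
      have a1 : |mm k (t ^ 7) i * mm k (t ^ 7) j| ≤ 2048 * (1 / 2 ^ t) := by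
        rw [abs_mul]
        rcases (by omega : m / κ ≤ i ∨ m / κ ≤ j) with a | a
        · refine (mul_le_of_le_one_right (abs_nonneg _) (mm_abs _ _)).trans
            ((mm_tail (by omega) i).trans ?_)
          have := hH i a
          gcongr
        · refine (mul_le_of_le_one_left (abs_nonneg _) (mm_abs _ _)).trans
            ((mm_tail (by omega) j).trans ?_)
          have := hH j a
          gcongr
      rw [abs_mul, abs_of_nonneg (mul_nonneg Q0.le V0)]
      refine le_trans ?_ (sm (2048 * qq k * P ^ 4) ?_)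
      · calc _ ≤ Q * (qq k * P ^ 4) * (2048 * (1 / 2 ^ t)) := by gcongr
          _ = _ := by ring
      · calc _ ≤ 2048 * qq k * P ^ 4 * P ^ 5 := by gcongr
          _ = _ := by ring
    have md' := abs_sub (TT (t ^ 7) F i (n - i) j (m - j)) (Q * V * (mm k (t ^ 7) i * mm k (t ^ 7) j))
    have big : |TT (t ^ 7) F i (n - i) j (m - j)| ≤ Q / m ^ 5 → _ := fun a =>
      (fin |TT (t ^ 7) F i (n - i) j (m - j) - Q * V * (mm k (t ^ 7) i * mm k (t ^ 7) j)|
        (by linarith)).trans (le_add_of_nonneg_right i0)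
    by_cases hS : m - j < n - i + t ∧ n - i < m - j + t
    · rw [if_pos hS]
      have w2 : (((n - i : ℕ) : ℝ) - ((m - j : ℕ) : ℝ)) ^ 2 ≤ (t : ℝ) ^ 2 := by
        have a1 : ((m - j : ℕ) : ℝ) < ((n - i : ℕ) : ℝ) + t := by exact_mod_cast hS.1
        have a2 : ((n - i : ℕ) : ℝ) < ((m - j : ℕ) : ℝ) + t := by exact_mod_cast hS.2
        exact sq_le_sq' (by linarith) (by linarith)
      by_cases he : n - i = m - j
      · rw [he, sub_self, zero_pow two_ne_zero, zero_mul]; positivity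
      have a : |TT (t ^ 7) F i (n - i) j (m - j)| ≤ Q / m ^ 5 + D := by
        rcases lt_or_gt_of_ne he with b | b
        · exact (diag_le c1 (by omega) (by omega) (by omega)).trans
            (add_le_add_left (bad _ _ _ _ c1) _)
        · rw [TT_symm]
          exact (diag_le c2 (by omega) (by omega) (by omega)).trans
            (add_le_add_left (bad _ _ _ _ c2) _)
      calc _ ≤ (((n - i : ℕ) : ℝ) - ((m - j : ℕ) : ℝ)) ^ 2 * (2 * (Q / m ^ 5) + D) :=
            mul_le_mul_of_nonneg_left (by linarith) (sq_nonneg _)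
        _ ≤ _ := by
            rw [mul_add]
            exact add_le_add (fin _ le_rfl) (mul_le_mul_of_nonneg_right w2 D0)
    refine big ?_
    rcases (by omega : n - i + t ≤ m - j ∨ m - j + t ≤ n - i) with b | b
    · rcases le_total (2 * (m - j)) (i + (n - i)) with c | c
      · exact h1 m F _ _ _ _ t1 t2 c1 b c (by omega)
      · exact h2 m F _ _ _ _ t1 t2 c1 c (by omega)
    · rw [TT_symm]
      rcases le_total (2 * (n - i)) (j + (m - j)) with c | c
      · exact h1 m F _ _ _ _ t1 t2 c2 b c (by omega)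
      · exact h2 m F _ _ _ _ t1 t2 c2 c (by omega)
  have tot : ∑ i ∈ range (n + 1), ∑ j ∈ range (m + 1), (((n : ℝ) - i) - ((m : ℝ) - j)) ^ 2 *
        |TT (t ^ 7) F i (n - i) j (m - j) - Q * V * (mm k (t ^ 7) i * mm k (t ^ 7) j)| ≤
      ((n : ℝ) + 1) * (((m : ℝ) + 1) * (((m : ℝ) + 1) ^ 2 * (2 * (Q / m ^ 5))) +
        2 * t * ((t : ℝ) ^ 2 * D)) := by
    refine (sum_le_card_nsmul _ _ _ fun i hi => ?_).trans
      (by rw [card_range, nsmul_eq_mul, Nat.cast_succ])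
    refine (sum_le_sum (cell i hi)).trans ?_
    rw [sum_add_distrib, sum_const, card_range, nsmul_eq_mul, Nat.cast_succ, ← sum_filter, sum_const,
      nsmul_eq_mul]
    exact add_le_add_right (mul_le_mul_of_nonneg_right (cel_strip m (n - i) t) (by positivity)) _
  have tm : (t : ℝ) ≤ m := by exact_mod_cast (by omega : t ≤ m)
  rw [div_le_iff₀ ε0] at htε
  have e1 : ((n : ℝ) + 1) * (((m : ℝ) + 1) * (((m : ℝ) + 1) ^ 2 * (2 * (Q / m ^ 5)))) ≤ ε * Q / 8 := by
    calc _ ≤ (2 * m) * ((2 * m) * ((2 * m) ^ 2 * (2 * (Q / m ^ 5)))) := by gcongr <;> linarith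
      _ = 32 * Q / m := by field_simp; ring
      _ ≤ _ := by
          rw [div_le_div_iff₀ m0 (by norm_num)]
          have : 256 ≤ ε * m := by nlinarith
          nlinarith
  have e2 : ((n : ℝ) + 1) * (2 * t * ((t : ℝ) ^ 2 * D)) ≤ ε * Q / 8 := by
    have a1 : D ≤ 16 * (Q * qq k) / ((t : ℝ) ^ 7) ^ 2 := by
      rw [hD, pow_succ, Nat.cast_pow]
      gcongr
      linarith
    calc _ ≤ P * (2 * t * ((t : ℝ) ^ 2 * (16 * (Q * qq k) / ((t : ℝ) ^ 7) ^ 2))) := by
          gcongr; linarith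
      _ = 2 ^ 16 * qq k * Q / t := by rw [hPd]; field_simp; ring
      _ ≤ _ := by
          rw [div_le_div_iff₀ (by linarith) (by norm_num)]
          nlinarith
  rw [mul_add] at tot
  rw [mul_sum, ← sum_sub_distrib]
  refine (abs_sum_le_sum_abs _ _).trans (le_trans (sum_le_sum fun i _ => ?_)
    (tot.trans (by nlinarith [mul_pos ε0 Q0])))
  rw [mul_sum, ← sum_sub_distrib]
  refine (abs_sum_le_sum_abs _ _).trans (sum_le_sum fun j _ => le_of_eq ?_)
  rw [mul_left_comm, ← mul_sub, abs_mul, abs_of_nonneg (sq_nonneg _)]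

end
end Pool.Agent.HGB
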