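import Pool.Agent.MP_b5e119_nt.GB.TId

set_option autoImplicit false

open Polynomial Finset Filter
open scoped Classical BigOperators

noncomputable section
namespace Pool.Agent.HGB
open Pool.Agent.MP_a4a062_nt.C2

section
variable {k : Type*} [Field k] [Fintype k]

theorem id_abs {z n m : ℕ} (F : k[X]) (hz : 1 ≤ z) (hm : z < m) (hmn : m ≤ n)
    (hF : ∀ g ∈ mon k m, F - g ∈ mon k n) :
    |-(1 / 2) * ∑ i ∈ range (n + 1), ∑ j ∈ range (m + 1),
        (((n : ℝ) - i) - ((m : ℝ) - j)) ^ 2 * TT z F i (n - i) j (m - j) -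
      (n : ℝ) * m * #{g ∈ prs k m | Irreducible (F - g)}| ≤
        8 * (n : ℝ) ^ 2 * 4 ^ (n / z) * qq k ^ n / qq k ^ z := by
  have hq := two_le_qq (k := k)
  have h := id_main (l := mu) (fun a ha => if_pos ha) (fun a => by
    unfold mu
    split_ifs
    · exact (abs_lam a).le
    · simp) (lt_of_lt_of_le hm hmn) hm F
  have e : #{x ∈ prs k n ×ˢ prs k m | x.1 + x.2 = F} = #{g ∈ prs k m | Irreducible (F - g)} := by
    refine card_bij (fun x _ => x.2) (fun x hx => ?_) (fun x hx y hy hxy => ?_) fun g hg => ?_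
    · obtain ⟨h1, h2⟩ := mem_filter.1 hx
      obtain ⟨h3, h4⟩ := mem_product.1 h1
      refine mem_filter.2 ⟨h4, ?_⟩
      rw [← h2, add_sub_cancel_right]
      exact (mem_filter.1 h3).2
    · have h1 := (mem_filter.1 hx).2
      have h2 := (mem_filter.1 hy).2
      refine Prod.ext ?_ hxy
      have h3 : x.2 = y.2 := hxy
      rw [← h2, h3] at h1
      exact add_right_cancel h1
    · obtain ⟨h1, h2⟩ := mem_filter.1 hg
      exact ⟨(F - g, g), mem_filter.2 ⟨mem_product.2 ⟨mem_filter.2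
        ⟨hF g (mem_filter.1 h1).1, h2⟩, h1⟩, sub_add_cancel F g⟩, rfl⟩
  rw [← idm_flip, e] at h
  have e2 : ∀ x y : ℝ, |-(1 / 2) * x - (n : ℝ) * m * y| = 1 / 2 * |x + 2 * (n : ℝ) * m * y| := by
    intro x y
    rw [show -(1 / 2) * x - (n : ℝ) * m * y = -(1 / 2) * (x + 2 * (n : ℝ) * m * y) by ring, abs_mul]
    norm_num
  rw [e2]
  have b1 : (m : ℝ) ≤ n := by exact_mod_cast hmn
  have b2 : ((n : ℝ) + m) ^ 2 ≤ 4 * (n : ℝ) ^ 2 := by
    have : (0 : ℝ) ≤ m := by positivity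
    nlinarith
  have b3 : (2 : ℝ) ^ (n / (z + 1) + m / (z + 1)) ≤ 4 ^ (n / z) := by
    have h1 : n / (z + 1) ≤ n / z := Nat.div_le_div le_rfl (by omega) (by omega)
    have h2 : m / (z + 1) ≤ n / z := Nat.div_le_div hmn (by omega) (by omega)
    rw [show (4 : ℝ) = 2 ^ 2 by norm_num, ← pow_mul]
    exact pow_le_pow_right₀ (by norm_num) (by omega)
  have b4 : 2 * (qq k ^ n + qq k ^ m) / qq k ^ (z + 1) ≤ 2 * (qq k ^ n + qq k ^ n) / qq k ^ z := by
    gcongr
    · linarith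
    · linarith
    · omega
  calc _ ≤ 1 / 2 * (4 * (n : ℝ) ^ 2 * 4 ^ (n / z) * (2 * (qq k ^ n + qq k ^ n) / qq k ^ z)) := by
        refine mul_le_mul_of_nonneg_left (h.trans ?_) (by norm_num)
        gcongr
    _ = _ := by ring

end

end Pool.Agent.HGB
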