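import Pool.Agent.MP_b5e119_nt.GB.Asy1
import Pool.Agent.MP_b5e119_nt.GB.TIdAbs
import Pool.Agent.MP_b5e119_nt.GB.Cells

/-! The Hardy-Littlewood asymptotic: assembly. -/

set_option autoImplicit false

open Polynomial Finset Filter
open scoped Classical BigOperators

noncomputable section
namespace Pool.Agent.HGB
open Pool.Agent.MP_a4a062_nt.C2

section
variable {k : Type*} [Field k] [Fintype k]

theorem as_alg {R V M W P S S' w ε : ℝ} (h1 : |R - V * M| ≤ 8 * w + ε / 2)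
    (h2 : |V - W| * (P ^ 2 + 1) ≤ 2 * w) (h3 : |M - P ^ 2| ≤ 1792 * w) (h4 : 0 ≤ W) (h5 : W ≤ 1)
    (h6 : S = W * P ^ 2) (h7 : |S' - S| ≤ 12 * w) (h8 : 4096 * w ≤ ε) (h9 : 4096 * w ≤ 1) :
    |R - S'| ≤ ε := by
  have a0 := (abs_nonneg _).trans h7
  have a1 : |M| ≤ P ^ 2 + 1 := by
    have := abs_le.1 h3
    have := sq_nonneg P
    rw [abs_le]
    constructor <;> linarith
  have a2 : |(V - W) * M| ≤ 2 * w := by
    rw [abs_mul]
    exact (mul_le_mul_of_nonneg_left a1 (abs_nonneg _)).trans h2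
  have a3 : |W * (M - P ^ 2)| ≤ 1792 * w := by
    rw [abs_mul, abs_of_nonneg h4]
    exact (mul_le_of_le_one_left (abs_nonneg _) h5).trans h3
  have b1 := abs_le.1 h1
  have b2 := abs_le.1 a2
  have b3 := abs_le.1 a3
  have b4 := abs_le.1 h7
  have e : R - S' = (R - V * M) + (V - W) * M + W * (M - P ^ 2) - (S' - S) := by
    rw [h6]
    ring
  rw [e, abs_le]
  constructor <;> linarith

theorem top2 (h : HIV k) (h1 : HM1 k) (h2 : HM2 k) {ε : ℝ} (ε0 : 0 < ε) :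
    ∀ᶠ m : ℕ in atTop, ∀ (n : ℕ) (F : k[X]), F ≠ 0 → m ≤ n → n ≤ m + 1 →
      (∀ g ∈ mon k m, F - g ∈ mon k n) →
      |(n : ℝ) * m * #{g ∈ prs k m | Irreducible (F - g)} / qq k ^ m - SS F m| ≤ ε := by
  have q2 : 2 ≤ qq k := two_le_qq
  obtain ⟨T, hT⟩ := eventually_atTop.1 ((cells h h1 h2 ε0).and
    ((cel_poly (4096 * (1 + 1 / ε) * qq k * (2 ^ 21) ^ 10) 100).and (eventually_ge_atTop 9)))
  refine eventually_atTop.2 ⟨T ^ 10, fun m hm n F hF hmn hnm hg => ?_⟩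
  obtain ⟨t, t1, t2, tT⟩ : ∃ t, t ^ 10 ≤ m ∧ m ≤ (t + 1) ^ 10 ∧ T ≤ t :=
    ⟨Nat.nthRoot 10 m, Nat.pow_nthRoot_le (Or.inl (by norm_num)),
      (Nat.lt_pow_nthRoot_add_one (by norm_num) m).le, (Nat.le_nthRoot_iff (by norm_num)).2 hm⟩
  obtain ⟨hC, hP, ht⟩ := hT t tT
  have hC := hC m n F t1 t2 hF hmn hnm hg
  have Q0 : 0 < qq k ^ m := by positivity
  have p7 : t ≤ t ^ 7 := Nat.le_self_pow (by norm_num) t
  have p3 : t ≤ t ^ 3 := Nat.le_self_pow (by norm_num) t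
  have p8 : 4 * t * t ^ 7 ≤ m := by
    have : 4 * t * t ^ 7 = 4 * t ^ 8 := by ring
    have : 4 * t ^ 8 ≤ t ^ 2 * t ^ 8 := Nat.mul_le_mul_right _ (by nlinarith)
    have : t ^ 2 * t ^ 8 = t ^ 10 := by ring
    omega
  have zm : t ^ 7 < m := by nlinarith
  have mP : m + 5 ≤ 2048 * t ^ 10 := by
    have a1 : (t + 1) ^ 10 ≤ (2 * t) ^ 10 := Nat.pow_le_pow_left (by omega) 10
    have a2 : t ≤ t ^ 10 := Nat.le_self_pow (by norm_num) t
    rw [mul_pow] at a1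
    omega
  have dF : F.natDegree ≤ m + 1 := by
    have a1 := (mem_mon.1 (hg (X ^ m) (mem_mon.2 ⟨monic_X_pow m, natDegree_X_pow m⟩))).2
    have a2 := natDegree_add_le (F - X ^ m) (X ^ m)
    rw [sub_add_cancel, a1, natDegree_X_pow] at a2
    omega
  have two0 : (0 : ℝ) < 2 ^ t := by positivity
  have hG : (4 : ℝ) ^ (n / t ^ 7) / qq k ^ t ^ 7 ≤ 1 / 2 ^ t := by
    have a1 : n / t ^ 7 ≤ 2048 * t ^ 3 := Nat.div_le_of_le_mul (by
      have : t ^ 7 * (2048 * t ^ 3) = 2048 * t ^ 10 := by ring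
      omega)
    have a2 : 4097 * t ^ 3 ≤ t ^ 7 := by
      have : 9 ^ 4 ≤ t ^ 4 := Nat.pow_le_pow_left (by omega) 4
      calc 4097 * t ^ 3 ≤ t ^ 4 * t ^ 3 := Nat.mul_le_mul_right _ (by omega)
        _ = _ := by ring
    rw [div_le_div_iff₀ (by positivity) two0, one_mul, show (4 : ℝ) = 2 ^ 2 by norm_num, ← pow_mul,
      ← pow_add]
    exact (pow_le_pow_right₀ one_le_two (by omega)).trans (pow_le_pow_left₀ (by norm_num) q2 _)
  have z1 : 1 ≤ t ^ 7 := by omega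
  have hI := id_abs F z1 zm hmn hg
  have hV := vv_near F p8
  have hS := sum_near (k := k) z1 hmn
  have hE := (pi_near (k := k) z1 m).2.1
  have hW0 : 0 ≤ ∏ p ∈ sp k (t ^ 7), (1 - nu F p * ri p) :=
    prod_nonneg fun p hp => (nu_ri (mem_sp.1 hp).2.1).1
  have hW1 : ∏ p ∈ sp k (t ^ 7), (1 - nu F p * ri p) ≤ 1 :=
    prod_le_one (fun p hp => (nu_ri (mem_sp.1 hp).2.1).1) fun p hp => (nu_ri (mem_sp.1 hp).2.1).2
  have hE0 : 0 ≤ ∏ p ∈ sp k (t ^ 7), (1 - ri p)⁻¹ :=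
    (sum_nonneg fun i _ => frD_nonneg _ i).trans (pi_near (k := k) z1 0).1
  have hz : (2 : ℝ) ^ t ≤ 2 ^ t ^ 7 := pow_le_pow_right₀ one_le_two p7
  have hT := ss_tail (B := m + 1) hF zm.le dF le_rfl
  have hU : ∑ i ∈ range m, frD k (· ≤ t ^ 7) i ≤ m :=
    (sum_le_card_nsmul _ _ 1 fun i _ => frD_le _ i).trans (by simp)
  have zR : (1 : ℝ) ≤ ((t ^ 7 : ℕ) : ℝ) := by exact_mod_cast z1
  have zR' : ((t ^ 7 : ℕ) : ℝ) ≤ m := by exact_mod_cast zm.le
  have hs : (1 - 1 / (3 * ((t ^ 7 : ℕ) : ℝ))) ^ m ≤ 1 / 2 ^ t := by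
    have a1 : (t : ℝ) * (3 * ((t ^ 7 : ℕ) : ℝ)) ≤ m := by
      exact_mod_cast (by nlinarith : t * (3 * t ^ 7) ≤ m)
    have a2 : 1 / (3 * ((t ^ 7 : ℕ) : ℝ)) ≤ 1 := by
      rw [div_le_one (by positivity)]
      linarith
    calc _ ≤ Real.exp (-(1 / (3 * ((t ^ 7 : ℕ) : ℝ)))) ^ m :=
          pow_le_pow_left₀ (by linarith) (Real.one_sub_le_exp_neg _) m
      _ ≤ Real.exp (-1) ^ t := by
          rw [← Real.exp_nat_mul, ← Real.exp_nat_mul, Real.exp_le_exp, mul_neg, mul_neg,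
            neg_le_neg_iff, mul_one, mul_one_div, le_div_iff₀ (by positivity)]
          exact a1
      _ ≤ _ := by
          rw [← one_div_pow]
          exact pow_le_pow_left₀ (Real.exp_pos _).le Real.exp_neg_one_lt_half.le t
  have hs0 : 0 ≤ (1 - 1 / (3 * ((t ^ 7 : ℕ) : ℝ))) ^ m := pow_nonneg (by
    rw [sub_nonneg, div_le_one (by positivity)]
    linarith) m
  have mY : 1024 * ((m : ℝ) + 5) ≤ 2 ^ 21 * (t : ℝ) ^ 10 := by
    exact_mod_cast (by omega : 1024 * (m + 5) ≤ 2 ^ 21 * t ^ 10)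
  rw [show (t : ℝ) ^ 100 = ((t : ℝ) ^ 10) ^ 10 by ring, mul_assoc, ← mul_pow] at hP
  have nm : (n : ℝ) ≤ m + 1 := by exact_mod_cast hnm
  have n0 : (0 : ℝ) ≤ n := Nat.cast_nonneg n
  have qn : qq k ^ n ≤ qq k ^ m * qq k := by
    rw [← pow_succ]
    exact pow_le_pow_right₀ (by linarith) hnm
  have f4 : (2 : ℝ) ^ t ≤ 4 ^ t := pow_le_pow_left₀ (by norm_num) (by norm_num) t
  have d1 : 1 / (2 : ℝ) ^ t ≤ 1 := by
    rw [div_le_one two0]
    exact one_le_pow₀ one_le_two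
  rw [ss_eq F (t ^ 7), Nat.cast_succ] at hT
  generalize (2 : ℝ) ^ 21 * (t : ℝ) ^ 10 = Y at *
  generalize ∏ p ∈ sp k (t ^ 7), (1 - ri p)⁻¹ = E at *
  generalize ∏ p ∈ sp k (t ^ 7), (1 - nu F p * ri p) = W at *
  generalize (1 - 1 / (3 * ((t ^ 7 : ℕ) : ℝ))) ^ m = s at *
  generalize ((t ^ 7 : ℕ) : ℝ) = z at *
  have m0 : (0 : ℝ) ≤ m := Nat.cast_nonneg m
  have Y1 : 1 ≤ Y := by linarith
  have EY : E ≤ Y := by nlinarith
  have key : ∀ j : ℕ, j ≤ 10 → Y ^ j * (1 / 2 ^ t) ≤ qq k * Y ^ 10 / 2 ^ t := fun j hj => by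
    rw [mul_one_div]
    gcongr
    exact (pow_le_pow_right₀ Y1 hj).trans (le_mul_of_one_le_left (by positivity) (by linarith))
  have w0 : 0 ≤ qq k * Y ^ 10 / 2 ^ t := by positivity
  have w1 : 4096 * (qq k * Y ^ 10 / 2 ^ t) * (1 + 1 / ε) ≤ 1 := by
    rw [← mul_div_assoc, div_mul_eq_mul_div, div_le_one two0]
    linarith
  have w2 : 4096 * (qq k * Y ^ 10 / 2 ^ t) ≤ 1 :=
    (le_mul_of_one_le_right (by positivity) (le_add_of_nonneg_right (by positivity))).trans w1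
  have w3 : 4096 * (qq k * Y ^ 10 / 2 ^ t) ≤ ε := by
    rw [← div_le_one ε0, div_eq_mul_one_div]
    exact (mul_le_mul_of_nonneg_left (by linarith) (by positivity)).trans w1
  have c1 : ((m : ℝ) + 1) / 2 ^ t ^ 7 ≤ Y ^ 1 * (1 / 2 ^ t) := by
    rw [mul_one_div, pow_one]
    gcongr
    linarith
  refine as_alg (V := VV (t ^ 7) t F m) ?_ ?_ (hS.trans ?_) hW0 hW1 rfl ((hT ?_).trans ?_) w3 w2
  · have a1 : 8 * (n : ℝ) ^ 2 * 4 ^ (n / t ^ 7) * qq k ^ n / qq k ^ t ^ 7 ≤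
        8 * (qq k * Y ^ 10 / 2 ^ t) * qq k ^ m := by
      calc _ = 8 * (n : ℝ) ^ 2 * qq k ^ n * (4 ^ (n / t ^ 7) / qq k ^ t ^ 7) := by ring
        _ ≤ 8 * Y ^ 10 * (qq k ^ m * qq k) * (1 / 2 ^ t) := by
            gcongr
            exact (pow_le_pow_left₀ n0 (by linarith) 2).trans (pow_le_pow_right₀ Y1 (by norm_num))
        _ = _ := by ring
    have b1 := abs_le.1 (hI.trans a1)
    have b2 := abs_le.1 hC
    rw [div_sub' Q0.ne', abs_div, abs_of_pos Q0, div_le_iff₀ Q0, abs_le]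
    constructor <;> linarith
  · calc _ ≤ Y ^ 8 / 2 ^ t * (Y ^ 2 + Y ^ 2) := by
          gcongr
          · exact hV.trans (by gcongr)
          · exact one_le_pow₀ Y1
      _ = 2 * (Y ^ 10 * (1 / 2 ^ t)) := by ring
      _ ≤ _ := by linarith [key 10 le_rfl]
  · calc _ ≤ (1536 * Y * Y + 256 * Y ^ 3) * (1 / 2 ^ t) := by gcongr <;> linarith
      _ = 1536 * (Y ^ 2 * (1 / 2 ^ t)) + 256 * (Y ^ 3 * (1 / 2 ^ t)) := by ring
      _ ≤ _ := by linarith [key 2 (by norm_num), key 3 (by norm_num)]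
  · rw [mul_div_assoc]
    linarith [key 1 (by norm_num)]
  · rw [abs_of_nonneg (by positivity), mul_div_assoc]
    calc _ ≤ 1 * Y ^ 2 * (12 * (Y ^ 1 * (1 / 2 ^ t))) := by gcongr
      _ = 12 * (Y ^ 3 * (1 / 2 ^ t)) := by ring
      _ ≤ _ := by linarith [key 3 (by norm_num)]

theorem ss_ge {F : k[X]} (hF : Even2 k F) (M : ℕ) : Real.exp (-10) ≤ SS F M := by
  have q2 : 2 ≤ qq k := two_le_qq
  have a1 : ∀ p ∈ sp k M, Real.exp (-(5 * ri p ^ 2)) ≤ (1 - nu F p * ri p) / (1 - ri p) ^ 2 :=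
    fun p hp => by
      obtain ⟨b1, b2, -⟩ := mem_sp.1 hp
      have r0 := ri_pos p
      have r1 := ri_le b2
      have r2 : 0 < (1 - ri p) ^ 2 := pow_pos (by linarith) 2
      have e : Real.exp (-(5 * ri p ^ 2)) ≤ 1 / (5 * ri p ^ 2 + 1) := by
        rw [Real.exp_neg, ← one_div]
        exact one_div_le_one_div_of_le (by positivity) (Real.add_one_le_exp _)
      refine e.trans ?_
      rw [div_le_div_iff₀ (by positivity) r2, nu]
      have r3 := mul_pos r0 r0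
      split_ifs with h
      · nlinarith [mul_pos r3 (show 0 < 1 - ri p by linarith)]
      · have r4 : ri p ≤ 1 / 3 := by
          refine one_div_le_one_div_of_le (by norm_num) ?_
          by_cases hq : Fintype.card k = 2
          · have c1 : p.natDegree ≠ 1 := fun d => by
              have c2 := FiniteField.pow_card (p.coeff 0)
              rw [hq, sq, mul_right_eq_self₀] at c2
              refine h (dvd_trans ?_ (hF hq))
              rw [b1.eq_X_add_C d]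
              rcases c2 with c | c <;> simp [c]
            have c2 := b2.natDegree_pos
            have c3 : qq k ^ 2 ≤ qq k ^ p.natDegree := pow_le_pow_right₀ (by linarith) (by omega)
            nlinarith
          · have c1 := Fintype.one_lt_card (α := k)
            have c2 : (3 : ℝ) ≤ qq k := by
              unfold qq
              exact_mod_cast (by omega : 3 ≤ Fintype.card k)
            exact c2.trans (le_self_pow₀ (by linarith) b2.natDegree_pos.ne')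
        nlinarith [mul_nonneg r3.le (sub_nonneg.2 r4)]
  have a2 : ∑ p ∈ sp k M, ri p ^ 2 ≤ 2 := by
    refine (sum_le_sum_of_subset_of_nonneg (filter_subset _ (mle k M))
      fun p _ _ => sq_nonneg _).trans ?_
    rw [sum_mle]
    refine le_trans (sum_le_sum fun i _ => ?_) (sum_geometric_two_le (M + 1))
    rw [sum_congr rfl (g := fun _ => (1 / qq k ^ i) ^ 2) fun a ha => by rw [ri, (mem_mon.1 ha).2],
      sum_const, nsmul_eq_mul, card_mon, sq, ← mul_assoc, mul_one_div_cancel (by positivity),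
      one_mul, one_div_pow]
    gcongr
  refine le_trans ?_ (prod_le_prod (fun p _ => (Real.exp_pos _).le) a1)
  rw [← Real.exp_sum, Real.exp_le_exp, sum_neg_distrib, ← mul_sum]
  linarith

theorem top3 (h : HIV k) (h1 : HM1 k) (h2 : HM2 k) {ε : ℝ} (ε0 : 0 < ε) :
    ∀ᶠ m : ℕ in atTop, ∀ (n : ℕ) (F : k[X]), F ≠ 0 → m ≤ n → n ≤ m + 1 →
      (∀ g ∈ mon k m, F - g ∈ mon k n) → Even2 k F →
      |(n : ℝ) * m * #{g ∈ prs k m | Irreducible (F - g)} / qq k ^ m / SS F m - 1| ≤ ε := by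
  have e0 := Real.exp_pos (-10)
  filter_upwards [top2 h h1 h2 (mul_pos ε0 e0)] with m hm n F a1 a2 a3 a4 a5
  have b1 := ss_ge a5 m
  have b2 := e0.trans_le b1
  rw [div_sub_one b2.ne', abs_div, abs_of_pos b2, div_le_iff₀ b2]
  exact (hm n F a1 a2 a3 a4).trans (mul_le_mul_of_nonneg_left b1 ε0.le)

end

theorem asy_final (k : Type*) [Field k] [Finite k]
    (h : ∀ [Fintype k], HIV k ∧ HM1 k ∧ HM2 k) (ε : ℝ) (hε : 0 < ε) :
    ∃ n₀ : ℕ, ∀ (n : ℕ) (F : k[X]), n₀ ≤ n → F.Monic → F.natDegree = n + 1 →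
      (Nat.card k = 2 → X * (X + 1) ∣ F) →
      |(n : ℝ) * (n + 1) *
          Nat.card {P : k[X] // P.Monic ∧ P.natDegree = n ∧ Irreducible P ∧ Irreducible (F - P)} /
          (Nat.card k : ℝ) ^ n /
          (∏ᶠ p ∈ {p : k[X] | p.Monic ∧ Irreducible p ∧ p.natDegree ≤ n},
            (1 - (if p ∣ F then 1 else 2) / (Nat.card k : ℝ) ^ p.natDegree) /
              (1 - 1 / (Nat.card k : ℝ) ^ p.natDegree) ^ 2) - 1| ≤ ε := by
  let _ := Fintype.ofFinite k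
  obtain ⟨n₀, H⟩ := eventually_atTop.1 (top3 h.1 h.2.1 h.2.2 hε)
  refine ⟨n₀, fun n F hn h1 h2 h3 => ?_⟩
  have a := H n hn (n + 1) F h1.ne_zero (by omega) le_rfl (fun g hg => by
    obtain ⟨b1, b2⟩ := mem_mon.1 hg
    refine mem_mon.2 ⟨h1.sub_of_left (degree_lt_degree (by omega)), ?_⟩
    rw [natDegree_sub_eq_left_of_natDegree_lt (by omega), h2])
    fun b => h3 (Nat.card_eq_fintype_card.trans b)
  have e1 : {p : k[X] | p.Monic ∧ Irreducible p ∧ p.natDegree ≤ n} = sp k n :=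
    Set.ext fun p => mem_sp.symm
  rw [e1, finprod_mem_coe_finset, Nat.subtype_card {g ∈ prs k n | Irreducible (F - g)}
    (fun g => by simp only [prs, mem_filter, mem_mon, and_assoc]), Nat.card_eq_fintype_card,
    mul_comm (n : ℝ)]
  simpa only [SS, nu, ri, qq, mul_one_div, Nat.cast_succ] using a

end Pool.Agent.HGB
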