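import Pool.Agent.MP_b5e119_nt.GB.BKDefs

/-! Divisor bound, Kloosterman sums, reciprocity, completion. -/

set_option autoImplicit false

section
open Polynomial Finset
open scoped Classical BigOperators

noncomputable section
namespace Pool.Agent.MP_b5e119_nt.BK
open Pool.Agent.MP_a4a062_nt.C2

variable {k : Type*} [Field k] [Fintype k]

theorem div_mem {f d : k[X]} (hf : f ≠ 0) :
    d ∈ {d ∈ box k (f.natDegree + 1) | d.Monic ∧ d ∣ f} ↔ d.Monic ∧ d ∣ f := by
  rw [mem_filter, mem_box, and_iff_right_iff_imp]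
  rintro ⟨-, h⟩
  exact degree_le_natDegree.trans_lt (by exact_mod_cast Nat.lt_succ_of_le (natDegree_le_of_dvd h hf))

theorem div_mul {x y : k[X]} (hx : x ≠ 0) (hy : y ≠ 0) :
    #{d ∈ box k ((x * y).natDegree + 1) | d.Monic ∧ d ∣ x * y} ≤
      #{d ∈ box k (x.natDegree + 1) | d.Monic ∧ d ∣ x} *
        #{d ∈ box k (y.natDegree + 1) | d.Monic ∧ d ∣ y} := by
  rw [← card_product]
  refine card_le_card_of_surjOn (fun z => z.1 * z.2) fun d hd => ?_
  obtain ⟨hm, hd⟩ := (div_mem (mul_ne_zero hx hy)).1 hd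
  obtain ⟨a, b, ha, hb, rfl⟩ := exists_dvd_and_dvd_of_dvd_mul hd
  have a0 := left_ne_zero_of_mul hm.ne_zero
  have b0 := right_ne_zero_of_mul hm.ne_zero
  refine ⟨(normalize a, normalize b), mem_coe.2 (mem_product.2
    ⟨(div_mem hx).2 ⟨monic_normalize a0, (normalize_dvd_iff).2 ha⟩,
      (div_mem hy).2 ⟨monic_normalize b0, (normalize_dvd_iff).2 hb⟩⟩), ?_⟩
  simp only
  rw [← normalize_mul, hm.normalize_eq_self]

theorem div_pow {p : k[X]} (hp : Prime p) (i : ℕ) :
    #{d ∈ box k ((p ^ i).natDegree + 1) | d.Monic ∧ d ∣ p ^ i} ≤ i + 1 := by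
  rw [← card_range (i + 1)]
  refine card_le_card_of_surjOn (fun j => normalize (p ^ j)) fun d hd => ?_
  obtain ⟨hm, hd⟩ := (div_mem (pow_ne_zero i hp.ne_zero)).1 hd
  obtain ⟨j, hj, h⟩ := (dvd_prime_pow hp i).1 hd
  exact ⟨j, by simpa using Nat.lt_succ_of_le hj, by
    simp only
    rw [← normalize_eq_normalize_iff_associated.2 h, hm.normalize_eq_self]⟩

theorem div_rpow (k : Type*) [Field k] [Fintype k] {ε : ℝ} (hε : 0 < ε) : ∃ C : ℝ, 1 ≤ C ∧
    ∀ f : k[X], f ≠ 0 → (#{d ∈ box k (f.natDegree + 1) | d.Monic ∧ d ∣ f} : ℝ) ≤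
      C * qq k ^ (ε * f.natDegree) := by
  have q2 : 2 ≤ qq k := two_le_qq
  have q0 : 0 < qq k := by linarith
  obtain ⟨L, hL⟩ := exists_nat_ge (1 / ε)
  rw [div_le_iff₀ hε] at hL
  set c : ℝ := 1 + 2 / ε with hc
  have c1 : 1 ≤ c := by rw [hc]; have : 0 < 2 / ε := by positivity
                        linarith
  have hq : ∀ t : ℝ, 0 ≤ t → 1 + t / 2 ≤ qq k ^ t := fun t ht => by
    have h1 : (2 : ℝ) ^ t ≤ qq k ^ t := Real.rpow_le_rpow (by norm_num) q2 ht
    have h2 := Real.add_one_le_exp (Real.log 2 * t)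
    rw [← Real.rpow_def_of_pos (by norm_num)] at h2
    have h3 := Real.log_two_gt_d9
    nlinarith
  set S : Finset k[X] := {p ∈ box k L | p.Monic ∧ Prime p} with hS
  refine ⟨c ^ #S, one_le_pow₀ c1, fun f hf => ?_⟩
  refine le_trans (UniqueFactorizationMonoid.induction_on_coprime
    (P := fun f : k[X] => f ≠ 0 → (#{d ∈ box k (f.natDegree + 1) | d.Monic ∧ d ∣ f} : ℝ) ≤
      c ^ #{p ∈ S | p ∣ f} * qq k ^ (ε * f.natDegree)) f (fun h => absurd rfl h)
    (fun {x} hx _ => ?_) (fun {p} i hp _ => ?_) (fun {x y} hxy hx hy h0 => ?_) hf)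
    (mul_le_mul_of_nonneg_right (pow_le_pow_right₀ c1 (card_filter_le _ _)) (by positivity))
  · have : #{d ∈ box k (x.natDegree + 1) | d.Monic ∧ d ∣ x} ≤ 1 := card_le_one.2 fun a ha b hb => by
      rw [div_mem hx.ne_zero] at ha hb
      rw [ha.1.eq_one_of_isUnit (isUnit_of_dvd_unit ha.2 hx),
        hb.1.eq_one_of_isUnit (isUnit_of_dvd_unit hb.2 hx)]
    refine le_trans (by exact_mod_cast this) (one_le_mul_of_one_le_of_one_le (one_le_pow₀ c1)
      (Real.one_le_rpow (by linarith) (by positivity)))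
  · refine le_trans (show _ ≤ (i : ℝ) + 1 by exact_mod_cast div_pow hp i) ?_
    have d1 : (1 : ℝ) ≤ p.natDegree := by exact_mod_cast hp.irreducible.natDegree_pos
    have i0 : (0 : ℝ) ≤ i := Nat.cast_nonneg i
    rw [natDegree_pow, Nat.cast_mul]
    rcases Nat.eq_zero_or_pos i with rfl | hi
    · simpa using one_le_pow₀ c1
    by_cases hd : p.natDegree < L
    · have h1 : 1 ≤ #{r ∈ S | r ∣ p ^ i} := card_pos.2 ⟨normalize p, mem_filter.2
        ⟨mem_filter.2 ⟨mem_box.2 (by rw [degree_normalize]; exact degree_le_natDegree.trans_lt (by exact_mod_cast hd)),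
          monic_normalize hp.ne_zero, (normalize_associated p).symm.prime hp⟩,
          normalize_dvd_iff.2 (dvd_pow_self p hi.ne')⟩⟩
      have h2 : c ≤ c ^ #{r ∈ S | r ∣ p ^ i} := le_self_pow₀ c1 (by omega)
      have h3 := hq (ε * (i * p.natDegree)) (by positivity)
      have h4 : ε * i ≤ ε * (i * p.natDegree) := by gcongr; nlinarith
      refine le_trans ?_ (mul_le_mul h2 h3 (by positivity) (by positivity))
      have h5 : (i : ℝ) + 1 ≤ c * (1 + ε * i / 2) := by
        have : c * (1 + ε * i / 2) = 1 + i + (2 / ε + ε * i / 2) := by rw [hc]; field_simp; ring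
        have : 0 ≤ 2 / ε + ε * i / 2 := by positivity
        linarith
      exact h5.trans (mul_le_mul_of_nonneg_left (by linarith) (by linarith))
    · have h1 : (L : ℝ) ≤ p.natDegree := by exact_mod_cast not_lt.1 hd
      have h2 : (i : ℝ) ≤ ε * (i * p.natDegree) := by
        have : 1 ≤ ε * p.natDegree := by nlinarith
        nlinarith
      have h3 : (i : ℝ) + 1 ≤ 2 ^ i := by exact_mod_cast Nat.lt_two_pow_self
      have h4 : (2 : ℝ) ^ i ≤ qq k ^ (ε * (i * p.natDegree)) := by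
        rw [← Real.rpow_natCast]
        exact (Real.rpow_le_rpow (by norm_num) q2 i0).trans
          (Real.rpow_le_rpow_of_exponent_le (by linarith) h2)
      exact (h3.trans h4).trans (le_mul_of_one_le_left (by positivity) (one_le_pow₀ c1))
  · have x0 := left_ne_zero_of_mul h0
    have y0 := right_ne_zero_of_mul h0
    have h1 : #{p ∈ S | p ∣ x} + #{p ∈ S | p ∣ y} ≤ #{p ∈ S | p ∣ x * y} := by
      rw [← card_union_of_disjoint]
      · refine card_le_card fun p hp => ?_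
        rcases mem_union.1 hp with h | h <;> rw [mem_filter] at h ⊢
        · exact ⟨h.1, h.2.mul_right _⟩
        · exact ⟨h.1, h.2.mul_left _⟩
      · refine disjoint_left.2 fun p h h' => ?_
        rw [mem_filter] at h h'
        exact (mem_filter.1 h.1).2.2.not_isUnit (hxy h.2 h'.2)
    refine le_trans (show _ ≤ _ * _ by exact_mod_cast div_mul x0 y0)
      ((mul_le_mul (hx x0) (hy y0) (by positivity) (by positivity)).trans ?_)
    rw [natDegree_mul x0 y0, Nat.cast_add, mul_add, Real.rpow_add q0, mul_mul_mul_comm, ← pow_add]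
    exact mul_le_mul_of_nonneg_right (pow_le_pow_right₀ c1 h1) (by positivity)

theorem mem_ndiv {f d : k[X]} (hf : f ≠ 0) :
    d ∈ {d ∈ (range (f.natDegree + 1)).biUnion (mon k) | d ∣ f} ↔ d.Monic ∧ d ∣ f := by
  rw [mem_filter, mem_biUnion]
  constructor
  · rintro ⟨⟨n, -, hn⟩, h⟩
    exact ⟨(mem_mon.1 hn).1, h⟩
  · rintro ⟨hm, h⟩
    exact ⟨⟨d.natDegree, mem_range.2 (Nat.lt_succ_of_le (natDegree_le_of_dvd h hf)),
      mem_mon.2 ⟨hm, rfl⟩⟩, h⟩

theorem ndiv_eq {f : k[X]} (hf : f ≠ 0) :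
    ndiv f = #{d ∈ box k (f.natDegree + 1) | d.Monic ∧ d ∣ f} := by
  unfold ndiv
  congr 1
  ext d
  rw [mem_ndiv hf, div_mem hf]

theorem div_bound (k : Type*) [Field k] [Fintype k] (m : ℕ) (hm : 0 < m) :
    ∃ K : ℝ, 1 ≤ K ∧ ∀ N t : ℕ, N ≤ m * t → DivB k N (K * qq k ^ t) := by
  have m0 : (0 : ℝ) < m := by exact_mod_cast hm
  obtain ⟨K, hK, H⟩ := div_rpow k (ε := 1 / m) (by positivity)
  refine ⟨K, hK, fun N t hN f hf hd => ?_⟩
  have q2 : 2 ≤ qq k := two_le_qq
  rw [ndiv_eq hf]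
  refine (H f hf).trans (mul_le_mul_of_nonneg_left ?_ (by linarith))
  rw [← Real.rpow_natCast]
  refine Real.rpow_le_rpow_of_exponent_le (by linarith) ?_
  rw [one_div, inv_mul_le_iff₀ m0]
  exact_mod_cast hd.trans hN

/-- monic divisors of degree `A` are counted by `ndiv` -/
theorem card_dvd_le (A : ℕ) {f : k[X]} (hf : f ≠ 0) :
    (∑ a ∈ mon k A, if a ∣ f then (1 : ℝ) else 0) ≤ ndiv f := by
  rw [Finset.sum_boole]
  refine Nat.cast_le.2 (card_le_card fun a ha => ?_)
  obtain ⟨h1, h2⟩ := mem_filter.1 ha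
  exact (mem_ndiv hf).2 ⟨(mem_mon.1 h1).1, h2⟩

end Pool.Agent.MP_b5e119_nt.BK
end
end

section
/-! The fourth moment bound for Kloosterman sums modulo a squarefree polynomial. -/


open Polynomial Finset
open scoped Classical BigOperators

noncomputable section
namespace Pool.Agent.MP_b5e119_nt.BK

section Abs
variable {R : Type*} [CommRing R] [Fintype R]

theorem k_reg [IsReduced R] (x : R) : ∃ y, x * (x * y) = x := by
  obtain ⟨m, n, hne, h⟩ := Finite.exists_ne_map_eq_of_infinite (fun n : ℕ => x ^ n)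
  wlog hlt : m < n generalizing m n
  · exact this n m hne.symm h.symm (by omega)
  obtain ⟨d, rfl⟩ := Nat.exists_eq_add_of_lt hlt
  refine ⟨x ^ d, ?_⟩
  have h0 : x ^ m * (1 - x ^ (d + 1)) = 0 := by
    have h' : x ^ m = x ^ (m + d + 1) := h
    linear_combination h'
  have h1 : IsNilpotent (x * (1 - x ^ (d + 1))) := ⟨m + 1, by
    rw [mul_pow, pow_succ x m, pow_succ (1 - x ^ (d + 1)) m]
    linear_combination x * (1 - x ^ (d + 1)) ^ m * h0⟩
  have h2 := h1.eq_zero
  linear_combination -h2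

theorem k_mom {ι : Type*} [Fintype ι] {Ψ : AddChar R ℂ} (hΨ : Ψ.IsPrimitive) (u v : ι → R) :
    ∑ z : R × R, ‖∑ i, Ψ (z.1 * u i + z.2 * v i)‖ ^ 2 = (Fintype.card R : ℝ) ^ 2 *
      #{p : ι × ι | u p.1 = u p.2 ∧ v p.1 = v p.2} := by
  have key : ∀ z : R × R, ((‖∑ i, Ψ (z.1 * u i + z.2 * v i)‖ ^ 2 : ℝ) : ℂ) =
      ∑ p : ι × ι, Ψ (z.1 * (u p.1 - u p.2)) * Ψ (z.2 * (v p.1 - v p.2)) := by
    intro z
    push_cast
    rw [← Complex.mul_conj', map_sum, Finset.sum_mul_sum, Fintype.sum_prod_type]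
    refine sum_congr rfl fun i _ => sum_congr rfl fun j _ => ?_
    rw [← AddChar.map_neg_eq_conj, ← AddChar.map_add_eq_mul, ← AddChar.map_add_eq_mul]
    congr 1
    ring
  apply Complex.ofReal_injective
  rw [Complex.ofReal_sum]
  simp_rw [key]
  rw [Finset.sum_comm]
  have h2 : ∀ p : ι × ι, ∑ z : R × R, Ψ (z.1 * (u p.1 - u p.2)) * Ψ (z.2 * (v p.1 - v p.2)) =
      (Fintype.card R : ℂ) ^ 2 * if u p.1 = u p.2 ∧ v p.1 = v p.2 then 1 else 0 := by
    intro p
    rw [Fintype.sum_prod_type]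
    dsimp only
    rw [← Finset.sum_mul_sum, AddChar.sum_mulShift _ hΨ, AddChar.sum_mulShift _ hΨ]
    by_cases h1 : u p.1 = u p.2 <;> by_cases h3 : v p.1 = v p.2 <;>
      simp [h1, h3, sub_eq_zero, sq]
  simp_rw [h2]
  rw [← Finset.mul_sum, Finset.sum_boole]
  push_cast
  rfl

omit [Fintype R] in
theorem k_rec {x1 x2 x3 p r : R} (hp : p * p = p) (hr : r * r = r)
    (hu : p * (x1 + x2) = x1 + x2) (hv : r * (x3 - x1) = x3 - x1) (hw : p * r * (x3 - x2) = 0)
    {y : R} (hy : y = (1 - p * (1 - r)) * x1 + p * (1 - r) * x2) :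
    x1 = (1 - p * (1 - r)) * y + p * (1 - r) * x3 ∧
      x2 = -(1 - p) * y + p * (1 - r) * y + p * r * x3 := by
  have he : p * (1 - r) * (p * (1 - r)) = p * (1 - r) := by
    linear_combination (1 - r) * (1 - r) * hp + p * hr
  have h1 : p * (1 - r) * x3 = p * (1 - r) * x1 := by linear_combination -p * hv
  have h2 : (1 - p) * y = (1 - p) * x1 := by
    rw [hy]
    linear_combination ((1 - r) * x1 - (1 - r) * x2) * hp
  have h3 : p * (1 - r) * y = p * (1 - r) * x2 := by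
    rw [hy]
    linear_combination (x2 - x1) * he
  constructor
  · rw [h1, hy]
    linear_combination (x2 - x1) * he
  · linear_combination h2 - h3 - hw - hu

theorem k_four [IsReduced R] :
    #{p : (Rˣ × Rˣ) × (Rˣ × Rˣ) | (p.1.1 : R) + p.1.2 = p.2.1 + p.2.2 ∧
      ((p.1.1⁻¹ : Rˣ) : R) + (p.1.2⁻¹ : Rˣ) = (p.2.1⁻¹ : Rˣ) + (p.2.2⁻¹ : Rˣ)} ≤
      #{e : R | e * e = e} ^ 2 * Fintype.card R ^ 2 := by
  choose s hs using k_reg (R := R)
  have hid : ∀ x : R, x * s x * (x * s x) = x * s x := fun x => by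
    linear_combination s x * hs x
  let P : (Rˣ × Rˣ) × (Rˣ × Rˣ) → R := fun p => ((p.1.1 : R) + p.1.2) * s (p.1.1 + p.1.2)
  let Q : (Rˣ × Rˣ) × (Rˣ × Rˣ) → R := fun p => ((p.2.1 : R) - p.1.1) * s (p.2.1 - p.1.1)
  let Y : (Rˣ × Rˣ) × (Rˣ × Rˣ) → R := fun p =>
    (1 - P p * (1 - Q p)) * p.1.1 + P p * (1 - Q p) * p.1.2
  have main : ∀ p : (Rˣ × Rˣ) × (Rˣ × Rˣ), (p.1.1 : R) + p.1.2 = p.2.1 + p.2.2 →
      ((p.1.1⁻¹ : Rˣ) : R) + (p.1.2⁻¹ : Rˣ) = (p.2.1⁻¹ : Rˣ) + (p.2.2⁻¹ : Rˣ) →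
      (p.1.1 : R) = (1 - P p * (1 - Q p)) * Y p + P p * (1 - Q p) * p.2.1 ∧
      (p.1.2 : R) = -(1 - P p) * Y p + P p * (1 - Q p) * Y p + P p * Q p * p.2.1 := by
    rintro ⟨⟨a, b⟩, c, d⟩ h1 h2
    simp only at h1 h2
    have ha := a.mul_inv
    have hb := b.mul_inv
    have hc := c.mul_inv
    have hd := d.mul_inv
    have h3 : ((a : R) + b) * (c * d) = (c + d) * (a * b) := by
      linear_combination (a * b * c * d : R) * h2 - (b * c * d : R) * ha - (a * c * d : R) * hb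
        + (a * b * d : R) * hc + (a * b * c : R) * hd
    have h4 : ((a : R) + b) * (c - a) * (c - b) = 0 := by
      linear_combination -h3 + ((a * b : R) - (a + b) * c) * h1
    refine k_rec (hid _) (hid _) ?_ ?_ ?_ rfl
    · linear_combination hs ((a : R) + b)
    · linear_combination hs ((c : R) - a)
    · linear_combination s (a + b) * s (c - a) * h4
  have hle := Finset.card_le_card_of_injOn
    (s := ({p : (Rˣ × Rˣ) × (Rˣ × Rˣ) | (p.1.1 : R) + p.1.2 = p.2.1 + p.2.2 ∧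
      ((p.1.1⁻¹ : Rˣ) : R) + (p.1.2⁻¹ : Rˣ) = (p.2.1⁻¹ : Rˣ) + (p.2.2⁻¹ : Rˣ)} : Finset _))
    (t := (({e : R | e * e = e} : Finset R) ×ˢ ({e : R | e * e = e} : Finset R)) ×ˢ
      ((univ : Finset R) ×ˢ (univ : Finset R)))
    (fun p => ((P p, Q p), ((p.2.1 : R), Y p))) (fun p _ => by
      simp only [coe_product, Set.mem_prod, mem_coe, mem_filter, mem_univ, true_and, and_true]
      exact ⟨hid _, hid _⟩) (fun p hp p' hp' h => by
      simp only [coe_filter, mem_univ, true_and, Set.mem_ofPred_eq] at hp hp'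
      simp only [Prod.mk.injEq] at h
      obtain ⟨⟨e1, e2⟩, e3, e4⟩ := h
      obtain ⟨m1, m2⟩ := main p hp.1 hp.2
      obtain ⟨n1, n2⟩ := main p' hp'.1 hp'.2
      rw [← e1, ← e2, ← e3, ← e4] at n1 n2
      have f1 : (p.1.1 : R) = p'.1.1 := m1.trans n1.symm
      have f2 : (p.1.2 : R) = p'.1.2 := m2.trans n2.symm
      have f4 : (p.2.2 : R) = p'.2.2 := by linear_combination -hp.1 + hp'.1 + f1 + f2 - e3
      exact Prod.ext (Prod.ext (Units.ext f1) (Units.ext f2))
        (Prod.ext (Units.ext e3) (Units.ext f4)))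
  simpa [card_product, sq] using hle

theorem k_units [IsReduced R] :
    Fintype.card R ≤ Fintype.card Rˣ * #{e : R | e * e = e} := by
  choose s hs using k_reg (R := R)
  have hid : ∀ x : R, x * s x * (x * s x) = x * s x := fun x => by
    linear_combination s x * hs x
  have hun : ∀ x : R, (x + (1 - x * s x)) * (x * s x * s x + (1 - x * s x)) = 1 := fun x => by
    linear_combination (2 - s x) * hid x - hs x
  have hle := Finset.card_le_card_of_injOn (s := (univ : Finset R))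
    (t := (univ : Finset Rˣ) ×ˢ ({e : R | e * e = e} : Finset R))
    (fun x => (Units.mkOfMulEqOne _ _ (hun x), x * s x)) (fun x _ => by
      simp only [coe_product, Set.mem_prod, mem_coe, mem_filter, mem_univ, true_and]
      exact hid x) (fun x _ y _ h => by
      simp only [Prod.mk.injEq] at h
      have h1 := congrArg Units.val h.1
      simp only [Units.val_mkOfMulEqOne] at h1
      linear_combination h1 + h.2)
  simpa [card_product] using hle

theorem k_abs [IsReduced R] {Ψ : AddChar R ℂ} (hΨ : Ψ.IsPrimitive) (a b : R) :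
    ‖∑ x : Rˣ, Ψ (a * x + b * (x⁻¹ : Rˣ))‖ ^ 4 ≤
      (#{e : R | e * e = e} : ℝ) ^ 3 * #{z : R | b * z = 0} * (Fintype.card R : ℝ) ^ 3 := by
  set K : R × R → ℝ := fun z => ‖∑ x : Rˣ, Ψ (z.1 * x + z.2 * (x⁻¹ : Rˣ))‖ ^ 4 with hK
  set I : ℝ := (#{e : R | e * e = e} : ℝ) with hI
  set G : ℝ := (#{z : R | b * z = 0} : ℝ) with hG
  set N : ℝ := (Fintype.card R : ℝ) with hN
  have hK0 : ∀ z, 0 ≤ K z := fun z => by positivity
  have h1 : ∀ t : Rˣ, K (a * t, b * (t⁻¹ : Rˣ)) = K (a, b) := by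
    intro t
    simp only [hK]
    congr 2
    rw [← Equiv.sum_comp (Equiv.mulLeft t) (fun x : Rˣ => Ψ (a * x + b * (x⁻¹ : Rˣ)))]
    refine sum_congr rfl fun x _ => ?_
    simp only [Equiv.coe_mulLeft, mul_inv_rev, Units.val_mul]
    congr 1
    ring
  have h2 : ∑ z, K z ≤ N ^ 2 * (I ^ 2 * N ^ 2) := by
    have e : ∀ z : R × R, K z = ‖∑ i : Rˣ × Rˣ, Ψ (z.1 * ((i.1 : R) + i.2) +
        z.2 * (((i.1⁻¹ : Rˣ) : R) + (i.2⁻¹ : Rˣ)))‖ ^ 2 := by
      intro z
      simp only [hK]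
      rw [show (4 : ℕ) = 2 * 2 from rfl, pow_mul, ← norm_pow, sq (∑ x : Rˣ, _),
        Finset.sum_mul_sum, Fintype.sum_prod_type]
      congr 2
      refine sum_congr rfl fun i _ => sum_congr rfl fun j _ => ?_
      rw [← AddChar.map_add_eq_mul]
      congr 1
      ring
    simp_rw [e]
    rw [k_mom hΨ]
    refine mul_le_mul_of_nonneg_left ?_ (by positivity)
    rw [hI, hN]
    exact_mod_cast k_four (R := R)
  have h3 : (Fintype.card Rˣ : ℝ) * K (a, b) ≤ G * ∑ z, K z := by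
    have e : (Fintype.card Rˣ : ℝ) * K (a, b) = ∑ t : Rˣ, K (a * t, b * (t⁻¹ : Rˣ)) := by
      simp [h1]
    rw [e, Finset.sum_comp K (fun t : Rˣ => (a * t, b * ((t⁻¹ : Rˣ) : R))), Finset.mul_sum]
    refine le_trans (sum_le_sum fun z hz => ?_)
      (sum_le_sum_of_subset_of_nonneg (subset_univ _) fun z _ _ => mul_nonneg (by positivity) (hK0 z))
    rw [nsmul_eq_mul]
    refine mul_le_mul_of_nonneg_right ?_ (hK0 z)
    obtain ⟨t0, -, ht0⟩ := mem_image.1 hz
    rw [hG, Nat.cast_le]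
    refine Finset.card_le_card_of_injOn (fun t : Rˣ => ((t⁻¹ : Rˣ) : R) - (t0⁻¹ : Rˣ))
      (fun t ht => ?_) (fun t _ t' _ h => ?_)
    · simp only [coe_filter, mem_univ, true_and, Set.mem_ofPred_eq] at ht ⊢
      have := congrArg Prod.snd (ht.trans ht0.symm)
      simp only at this
      linear_combination this
    · simp only [sub_left_inj] at h
      exact inv_injective (Units.ext h)
  have h4 : N ≤ Fintype.card Rˣ * I := by
    rw [hI, hN]
    exact_mod_cast k_units (R := R)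
  have hN0 : 0 < N := by
    rw [hN]
    exact_mod_cast Fintype.card_pos
  have hI0 : 0 ≤ I := by positivity
  have hG0 : 0 ≤ G := by positivity
  show K (a, b) ≤ _
  refine le_of_mul_le_mul_left ?_ hN0
  calc N * K (a, b) ≤ Fintype.card Rˣ * I * K (a, b) := mul_le_mul_of_nonneg_right h4 (hK0 _)
    _ = I * (Fintype.card Rˣ * K (a, b)) := by ring
    _ ≤ I * (G * (N ^ 2 * (I ^ 2 * N ^ 2))) :=
      mul_le_mul_of_nonneg_left (h3.trans (mul_le_mul_of_nonneg_left h2 hG0)) hI0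
    _ = _ := by ring

theorem k_comp {T : Type*} [AddCommGroup T] [Fintype T] {Ψ : AddChar R ℂ} (hΨ : Ψ.IsPrimitive)
    (φ : T →+ R) (hφ : Function.Injective φ) (F : R → ℂ) (c : R) {B : ℝ}
    (hB : ∀ a, ‖∑ z, Ψ (a * z) * F z‖ ≤ B) : ‖∑ t, F (c + φ t)‖ ≤ B := by
  have hN0 : (0 : ℝ) < Fintype.card R := by exact_mod_cast Fintype.card_pos
  have hin : ∀ a : R, ∃ n : ℝ, 0 ≤ n ∧ ∑ t, Ψ (a * -φ t) = n := by
    intro a
    have := AddChar.sum_eq_ite ((Ψ.mulShift (-a)).compAddMonoidHom φ)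
    simp only [AddChar.coe_compAddMonoidHom, Function.comp_apply, AddChar.mulShift_apply] at this
    simp_rw [mul_neg, ← neg_mul]
    rw [this]
    split_ifs
    · exact ⟨Fintype.card T, by positivity, by simp⟩
    · exact ⟨0, le_rfl, by simp⟩
  choose n hn0 hn using hin
  have hsum : ∑ a, n a = Fintype.card R := by
    apply Complex.ofReal_injective
    push_cast
    simp_rw [← hn]
    rw [Finset.sum_comm]
    simp_rw [AddChar.sum_mulShift _ hΨ, neg_eq_zero, map_eq_zero_iff φ hφ]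
    simp
  have hinv : (Fintype.card R : ℂ) * ∑ t, F (c + φ t) =
      ∑ a, (Ψ (a * -c) * n a) * ∑ z, Ψ (a * z) * F z := by
    simp_rw [← hn, Finset.mul_sum, Finset.sum_mul]
    symm
    rw [Finset.sum_comm]
    simp_rw [Finset.sum_comm (s := (univ : Finset R)) (t := (univ : Finset T))]
    refine sum_congr rfl fun t _ => ?_
    have e : ∀ z : R, ∑ a, Ψ (a * -c) * Ψ (a * -φ t) * (Ψ (a * z) * F z) =
        if z = c + φ t then (Fintype.card R : ℂ) * F z else 0 := by
      intro z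
      have e2 : ∀ a : R, Ψ (a * -c) * Ψ (a * -φ t) * (Ψ (a * z) * F z) =
          Ψ (a * (z - (c + φ t))) * F z := by
        intro a
        rw [← mul_assoc, ← AddChar.map_add_eq_mul, ← AddChar.map_add_eq_mul]
        congr 2
        ring
      simp_rw [e2]
      rw [← Finset.sum_mul, AddChar.sum_mulShift _ hΨ]
      simp [sub_eq_zero]
    simp_rw [e]
    simp
  refine le_of_mul_le_mul_left ?_ hN0
  have e : (Fintype.card R : ℝ) * ‖∑ t, F (c + φ t)‖ =
      ‖(Fintype.card R : ℂ) * ∑ t, F (c + φ t)‖ := by simp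
  rw [e, hinv, ← hsum, Finset.sum_mul]
  refine (norm_sum_le _ _).trans (sum_le_sum fun a _ => ?_)
  rw [norm_mul, norm_mul, AddChar.norm_apply, one_mul, Complex.norm_real, Real.norm_of_nonneg (hn0 a)]
  exact mul_le_mul_of_nonneg_left (hB a) (hn0 a)

end Abs

section Poly
open Pool.Agent.MP_a4a062_nt.C2
variable {k : Type*} [Field k] [Fintype k]

omit [Fintype k] in
theorem k_psi {M : k[X]} (hM : M.Monic) {χ : AddChar k ℂ} (hχ : ∃ c, χ c ≠ 1) :
    ∃ Ψ : AddChar (AdjoinRoot M) ℂ, Ψ.IsPrimitive ∧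
      ∀ f, Ψ (AdjoinRoot.mk M f) = χ (tau M f) := by
  let φ : AdjoinRoot M →+ k :=
    ((lcoeff k (M.natDegree - 1)).comp (AdjoinRoot.modByMonicHom hM)).toAddMonoidHom
  have hφ : ∀ f, φ (AdjoinRoot.mk M f) = tau M f := fun f => by
    simp [φ, tau, AdjoinRoot.modByMonicHom_mk]
  refine ⟨χ.compAddMonoidHom φ, fun z hz h => ?_, fun f => by simp [hφ]⟩
  obtain ⟨c, hc⟩ := hχ
  obtain ⟨f0, rfl⟩ := AdjoinRoot.mk_surjective z
  have hf : f0 %ₘ M ≠ 0 := fun h0 =>
    hz (AdjoinRoot.mk_eq_zero.2 ((modByMonic_eq_zero_iff_dvd hM).1 h0))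
  have hlt : (f0 %ₘ M).degree < M.degree := degree_modByMonic_lt _ hM
  have hlt' : (f0 %ₘ M).natDegree < M.natDegree := natDegree_lt_natDegree hf hlt
  set f := f0 %ₘ M with hfd
  set j := M.natDegree - 1 - f.natDegree with hj
  have h1 := DFunLike.congr_fun h (AdjoinRoot.mk M (monomial j (c / f.leadingCoeff)))
  simp only [AddChar.mulShift_apply, AddChar.coe_compAddMonoidHom, Function.comp_apply,
    AddChar.one_apply, ← map_mul, hφ] at h1
  apply hc
  rw [← h1]
  congr 1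
  have h2 : tau M (f0 * monomial j (c / f.leadingCoeff)) =
      tau M (f * monomial j (c / f.leadingCoeff)) := by
    refine tau_congr hM ?_
    rw [← sub_mul]
    refine Dvd.dvd.mul_right ⟨f0 /ₘ M, ?_⟩ _
    have := modByMonic_add_div f0 M
    linear_combination -this
  rw [h2, tau_of_lt hM]
  · rw [show M.natDegree - 1 = f.natDegree + j by omega, coeff_mul_monomial, coeff_natDegree]
    have := leadingCoeff_ne_zero.2 hf
    field_simp
  · refine degree_lt_degree (natDegree_mul_le.trans_lt ?_)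
    have := natDegree_monomial_le (R := k) (c / f.leadingCoeff) (m := j)
    omega

omit [Fintype k] in
theorem k_inj {M f g : k[X]} (hf : f.degree < M.degree) (hg : g.degree < M.degree)
    (h : AdjoinRoot.mk M f = AdjoinRoot.mk M g) : f = g :=
  sub_eq_zero.1 (eq_zero_of_dvd_of_degree_lt (AdjoinRoot.mk_eq_mk.1 h)
    ((degree_sub_le f g).trans_lt (max_lt hf hg)))

omit [Fintype k] in
theorem k_unit {M f : k[X]} : IsUnit (AdjoinRoot.mk M f) ↔ IsCoprime f M := by
  constructor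
  · intro h
    obtain ⟨z, hz⟩ := h.exists_left_inv
    obtain ⟨g, rfl⟩ := AdjoinRoot.mk_surjective z
    rw [← map_mul, ← map_one (AdjoinRoot.mk M), AdjoinRoot.mk_eq_mk] at hz
    obtain ⟨w, hw⟩ := hz
    exact ⟨g, -w, by linear_combination hw⟩
  · rintro ⟨a, b, h⟩
    refine IsUnit.of_mul_eq_one (AdjoinRoot.mk M a) ?_
    rw [← map_mul, ← map_one (AdjoinRoot.mk M), AdjoinRoot.mk_eq_mk]
    exact ⟨-b, by linear_combination h⟩

theorem k_card {M : k[X]} (hM : M.Monic) [Fintype (AdjoinRoot M)] (P : AdjoinRoot M → Prop) :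
    #{z | P z} = #{x ∈ box k M.natDegree | P (AdjoinRoot.mk M x)} := by
  symm
  refine Finset.card_bij (fun x _ => AdjoinRoot.mk M x) (fun x hx => ?_) (fun x hx y hy h => ?_)
    (fun z hz => ?_)
  · simp only [mem_filter, mem_univ, true_and] at hx ⊢
    exact hx.2
  · simp only [mem_filter, mem_box, ← degree_eq_natDegree hM.ne_zero] at hx hy
    exact k_inj hx.1 hy.1 h
  · obtain ⟨f, rfl⟩ := AdjoinRoot.mk_surjective z
    have e : AdjoinRoot.mk M (f %ₘ M) = AdjoinRoot.mk M f := by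
      rw [AdjoinRoot.mk_eq_mk]
      exact ⟨-(f /ₘ M), by linear_combination modByMonic_add_div f M⟩
    refine ⟨f %ₘ M, ?_, e⟩
    simp only [mem_filter, mem_univ, true_and, mem_box, ← degree_eq_natDegree hM.ne_zero] at hz ⊢
    exact ⟨degree_modByMonic_lt _ hM, by rwa [e]⟩

omit [Fintype k] in
theorem k_idem {M : k[X]} (hM : M.Monic) [Fintype (AdjoinRoot M)] (D : Finset k[X])
    (hD : ∀ d : k[X], d.Monic → d ∣ M → d ∈ D) : #{e : AdjoinRoot M | e * e = e} ≤ #D := by
  choose l hl using AdjoinRoot.mk_surjective (g := M)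
  have key : ∀ e e' : AdjoinRoot M, e * e = e → gcd (l e) M = gcd (l e') M → e * e' = e' := by
    intro e e' he h
    obtain ⟨w, hw⟩ : gcd (l e) M ∣ l e' := h ▸ gcd_dvd_left _ _
    obtain ⟨a, b, hab⟩ := exists_gcd_eq_mul_add_mul (l e) M
    have h1 : e' = e * AdjoinRoot.mk M (a * w) := by
      conv_lhs => rw [← hl e', hw, hab]
      simp only [map_mul, map_add, hl, AdjoinRoot.mk_self]
      ring
    rw [h1, ← mul_assoc, he]
  refine Finset.card_le_card_of_injOn (fun e => gcd (l e) M) (fun e _ => ?_) (fun e he e' he' h => ?_)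
  · refine hD _ ?_ (gcd_dvd_right _ _)
    show (gcd (l e) M).Monic
    rw [← _root_.normalize_gcd]
    exact monic_normalize (gcd_ne_zero_of_right hM.ne_zero)
  · simp only [coe_filter, mem_univ, true_and, Set.mem_ofPred_eq] at he he'
    rw [← key e e' he h, mul_comm, key e' e he' h.symm]

/-- Incomplete Kloosterman sums, for any non-trivial additive character. -/
theorem k_inc {χ : AddChar k ℂ} (hχ : ∃ c, χ c ≠ 1) {M G M1 Q b : k[X]} (hM : M.Monic)
    (hs : Squarefree M) (hG : M = G * M1) (hb : ∀ x, M ∣ b * x → M1 ∣ x) (hQ : IsCoprime Q M)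
    {y : ℕ} (hy : y ≤ M.natDegree) (iv : k[X] → k[X])
    (hiv : ∀ x, IsCoprime x M → M ∣ x * iv x - 1) (D : Finset k[X])
    (hD : ∀ d : k[X], d.Monic → d ∣ M → d ∈ D) (c : k[X]) :
    ‖∑ t ∈ box k y, if IsCoprime (c + Q * t) M then χ (tau M (b * iv (c + Q * t))) else 0‖ ^ 4 ≤
      (#D : ℝ) ^ 3 * qq k ^ G.natDegree * qq k ^ (3 * M.natDegree) := by
  have : Module.Finite k (AdjoinRoot M) := (AdjoinRoot.powerBasis' hM).finite
  have : Finite (AdjoinRoot M) := Module.finite_of_finite k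
  let _ : Fintype (AdjoinRoot M) := Fintype.ofFinite _
  have : IsReduced (AdjoinRoot M) :=
    (Ideal.isRadical_iff_quotient_reduced _).1 (isRadical_iff_span_singleton.1 hs.isRadical)
  obtain ⟨Ψ, hΨ, hΨ'⟩ := k_psi hM hχ
  have hq : 0 ≤ qq k := by unfold qq; positivity
  have hM1 : M1 ≠ 0 := fun h => hM.ne_zero (by rw [hG, h, mul_zero])
  have hG0 : G ≠ 0 := fun h => hM.ne_zero (by rw [hG, h, zero_mul])
  have hdeg : M.natDegree = G.natDegree + M1.natDegree := by rw [hG, natDegree_mul hG0 hM1]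
  have c1 : (Fintype.card (AdjoinRoot M) : ℝ) = qq k ^ M.natDegree := by
    have := k_card hM (fun _ => True)
    simp only [filter_true, card_univ] at this
    rw [this, card_box]
  have c2 : (#{z : AdjoinRoot M | AdjoinRoot.mk M b * z = 0} : ℝ) ≤ qq k ^ G.natDegree := by
    have h1 := box_card_dvd (N := M.natDegree) hM1 (by omega)
    rw [Finset.sum_boole, show M.natDegree - M1.natDegree = G.natDegree by omega] at h1
    rw [← h1, Nat.cast_le]
    refine (le_of_eq (by convert k_card hM (fun z => AdjoinRoot.mk M b * z = 0))).trans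
      (card_le_card fun x hx => ?_)
    simp only [mem_filter, ← map_mul, AdjoinRoot.mk_eq_zero] at hx ⊢
    exact ⟨hx.1, hb x hx.2⟩
  have c3 : (#{e : AdjoinRoot M | e * e = e} : ℝ) ≤ #D := by exact_mod_cast k_idem hM D hD
  set W : ℝ := (#D : ℝ) ^ 3 * qq k ^ G.natDegree * qq k ^ (3 * M.natDegree) with hW
  have hW0 : 0 ≤ W := by positivity
  let F : AdjoinRoot M → ℂ := fun z =>
    if IsUnit z then Ψ (AdjoinRoot.mk M b * Ring.inverse z) else 0
  have hB : ∀ a, ‖∑ z, Ψ (a * z) * F z‖ ≤ W ^ ((4 : ℕ) : ℝ)⁻¹ := by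
    intro a
    have e : ∑ z, Ψ (a * z) * F z =
        ∑ x : (AdjoinRoot M)ˣ, Ψ (a * x + AdjoinRoot.mk M b * (x⁻¹ : (AdjoinRoot M)ˣ)) := by
      symm
      refine Finset.sum_of_injOn Units.val (fun x _ x' _ h => Units.ext h) (fun _ _ => by simp)
        (fun z _ hz => ?_) (fun x _ => ?_)
      · have : ¬ IsUnit z := fun ⟨u, hu⟩ => hz ⟨u, by simp, hu⟩
        simp [F, this]
      · simp [F, AddChar.map_add_eq_mul]
    rw [e]
    refine le_of_pow_le_pow_left₀ (n := 4) (by norm_num) (by positivity) ?_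
    rw [Real.rpow_inv_natCast_pow hW0 (by norm_num)]
    refine (k_abs hΨ a _).trans ?_
    rw [c1, hW, mul_comm 3, pow_mul]
    gcongr
  let φ : (Fin y → k) →+ AdjoinRoot M :=
    (AddMonoidHom.mulLeft (AdjoinRoot.mk M Q)).comp
      ((AdjoinRoot.mk M).toAddMonoidHom.comp (ofFn (R := k) y).toAddMonoidHom)
  have hφ : ∀ v, φ v = AdjoinRoot.mk M (Q * ofFn y v) := fun v => by simp [φ]
  have hlt : ∀ v : Fin y → k, (ofFn y v).degree < M.degree := fun v =>
    (ofFn_degree_lt v).trans_le (by rw [degree_eq_natDegree hM.ne_zero]; exact_mod_cast hy)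
  have hinj : Function.Injective φ := by
    intro v w h
    rw [hφ, hφ, map_mul, map_mul] at h
    exact injective_ofFn y (k_inj (hlt v) (hlt w) ((k_unit.2 hQ).mul_left_cancel h))
  have h1 := k_comp hΨ φ hinj F (AdjoinRoot.mk M c) hB
  have e : ∑ t ∈ box k y, (if IsCoprime (c + Q * t) M then χ (tau M (b * iv (c + Q * t))) else 0)
      = ∑ v, F (AdjoinRoot.mk M c + φ v) := by
    rw [box_eq_map, sum_map]
    refine sum_congr rfl fun v _ => ?_
    simp only [Function.Embedding.coeFn_mk, hφ, ← map_add, F, k_unit]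
    split_ifs with h
    · rw [← hΨ', map_mul]
      congr 2
      symm
      have h2 := hiv _ h
      rw [← AdjoinRoot.mk_eq_mk, map_mul, map_one] at h2
      calc Ring.inverse (AdjoinRoot.mk M (c + Q * ofFn y v))
          = Ring.inverse (AdjoinRoot.mk M (c + Q * ofFn y v)) *
            (AdjoinRoot.mk M (c + Q * ofFn y v) * AdjoinRoot.mk M (iv (c + Q * ofFn y v))) := by
            rw [h2, mul_one]
        _ = _ := by rw [← mul_assoc, Ring.inverse_mul_cancel _ (k_unit.2 h), one_mul]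
    · rfl
  rw [e]
  calc _ ≤ (W ^ ((4 : ℕ) : ℝ)⁻¹) ^ 4 := pow_le_pow_left₀ (norm_nonneg _) h1 4
    _ = W := Real.rpow_inv_natCast_pow hW0 (by norm_num)

/-- Incomplete Kloosterman sums in characteristic two. -/
theorem k_real [CharP k 2] {M G M1 Q b : k[X]} (hM : M.Monic)
    (hs : Squarefree M) (hG : M = G * M1) (hb : ∀ x, M ∣ b * x → M1 ∣ x) (hQ : IsCoprime Q M)
    {y : ℕ} (hy : y ≤ M.natDegree) (iv : k[X] → k[X])
    (hiv : ∀ x, IsCoprime x M → M ∣ x * iv x - 1) (D : Finset k[X])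
    (hD : ∀ d : k[X], d.Monic → d ∣ M → d ∈ D) (c : k[X]) :
    (∑ t ∈ box k y, if IsCoprime (c + Q * t) M then psi (tau M (b * iv (c + Q * t))) else 0) ^ 4 ≤
      (#D : ℝ) ^ 3 * qq k ^ G.natDegree * qq k ^ (3 * M.natDegree) := by
  let χ : AddChar k ℂ :=
    { toFun := fun a => (psi a : ℂ)
      map_zero_eq_one' := by
        have : psi (0 : k) = 1 := if_pos ⟨0, by simp⟩
        simp [this]
      map_add_eq_mul' := fun a a' => by rw [psi_add]; push_cast; rfl }
  have hχ : ∃ c, χ c ≠ 1 := by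
    obtain ⟨c, hc⟩ := exists_psi_neg (k := k)
    refine ⟨c, ?_⟩
    show (psi c : ℂ) ≠ 1
    rw [hc]
    norm_num
  have h := k_inc hχ hM hs hG hb hQ hy iv hiv D hD c
  have e : (∑ t ∈ box k y, if IsCoprime (c + Q * t) M then χ (tau M (b * iv (c + Q * t))) else 0)
      = ((∑ t ∈ box k y, if IsCoprime (c + Q * t) M then psi (tau M (b * iv (c + Q * t))) else 0
        : ℝ) : ℂ) := by
    push_cast
    refine sum_congr rfl fun t _ => ?_
    split_ifs
    · rfl
    · simp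
  rwa [e, Complex.norm_real, Real.norm_eq_abs, Even.pow_abs (by decide)] at h

theorem kloo_inc [CharP k 2] {M Q : k[X]} (hM : M.Monic) (hs : Squarefree M) (hQ : IsCoprime Q M)
    {y : ℕ} (hy : y ≤ M.natDegree) (b c : k[X]) :
    (∑ t ∈ box k y, kf b (c + Q * t) M) ^ 4
      ≤ (ndiv M : ℝ) ^ 3 * qq k ^ dg b M * qq k ^ (3 * M.natDegree) := by
  obtain ⟨M1, h1⟩ := EuclideanDomain.gcd_dvd_right b M
  have hg : EuclideanDomain.gcd b M ≠ 0 := fun h => hM.ne_zero (by rw [h1, h, zero_mul])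
  refine k_real hM hs h1 (fun x hx => ?_) hQ hy (iv M) (fun _ hx => iv_spec hx) _
    (fun d hd hdM => ?_) c
  · have huv := EuclideanDomain.gcd_eq_gcd_ab b M
    have h2 : M ∣ EuclideanDomain.gcd b M * x := by
      rw [huv, add_mul]
      exact dvd_add (by rw [mul_right_comm]; exact hx.mul_right _)
        (by rw [mul_assoc]; exact dvd_mul_right _ _)
    have h3 : EuclideanDomain.gcd b M * M1 ∣ EuclideanDomain.gcd b M * x := by rwa [← h1]
    exact (mul_dvd_mul_iff_left hg).1 h3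
  · simp only [mem_filter, mem_biUnion, mem_range, mem_mon]
    exact ⟨⟨d.natDegree, Nat.lt_succ_of_le (natDegree_le_of_dvd hdM hM.ne_zero), hd, rfl⟩, hdM⟩

end Poly

end Pool.Agent.MP_b5e119_nt.BK
end
end

section
open Polynomial Finset
open scoped Classical BigOperators

noncomputable section
namespace Pool.Agent.MP_b5e119_nt.BK
open Pool.Agent.MP_a4a062_nt.C2

section
variable {k : Type*} [Field k]

theorem rec_tau_sub (M P Q : k[X]) : tau M (P - Q) = tau M P - tau M Q := by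
  have h := tau_add M (P - Q) Q
  rw [sub_add_cancel] at h
  rw [h]; ring

/-- Reciprocity: `r u / c + r v / a = r / (a c)` modulo polynomials. -/
theorem rec_tau_rec {a c u v : k[X]} (ha : a.Monic) (hc : c.Monic) (hu : c ∣ a * u - 1)
    (hv : a ∣ c * v - 1) (r : k[X]) : tau c (r * u) + tau a (r * v) = tau (a * c) r := by
  rw [← tau_mul hc ha (r * u), ← tau_mul ha hc (r * v), mul_comm c a, ← tau_add]
  refine tau_congr (ha.mul hc) ?_
  obtain ⟨x, hx⟩ := hu
  obtain ⟨y, hy⟩ := hv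
  refine ⟨r * (u * v - x * y), ?_⟩
  linear_combination (-(r * (c * v - 1))) * hx - (r * c * x) * hy

/-- The residue of `r / m` when `deg r ≤ deg m`. -/
theorem rec_tau_le {m r : k[X]} (hm : m.Monic) (h0 : 0 < m.natDegree)
    (hr : r.natDegree ≤ m.natDegree) :
    tau m r = r.coeff (m.natDegree - 1) - r.coeff m.natDegree * m.nextCoeff := by
  have h1 : m ∣ r - (r - C (r.coeff m.natDegree) * m) := ⟨C (r.coeff m.natDegree), by ring⟩
  have h2 : (r - C (r.coeff m.natDegree) * m).degree < m.degree := by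
    rw [degree_eq_natDegree hm.ne_zero, degree_lt_iff_coeff_zero]
    intro j hj
    rw [coeff_sub, coeff_C_mul]
    rcases hj.eq_or_lt with h | h
    · rw [← h, hm.coeff_natDegree]; ring
    · rw [coeff_eq_zero_of_natDegree_lt (lt_of_le_of_lt hr h), coeff_eq_zero_of_natDegree_lt h]
      ring
  rw [tau_congr hm h1, tau_of_lt hm h2, coeff_sub, coeff_C_mul, nextCoeff_of_natDegree_pos h0]

/-- The phase of a good tuple, as an identity in `k` (any characteristic). -/
theorem rec_tau_good {A C l : ℕ} (hC : 0 < C) {a c₁ c₂ l₁ l₂ u₁ u₂ w ρ : k[X]}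
    (ha : a.Monic) (hA : a.natDegree = A) (hc₁ : c₁.Monic) (hC₁ : c₁.natDegree = C)
    (hc₂ : c₂.Monic) (hC₂ : c₂.natDegree = C) (hl₁ : l₁.Monic) (hL₁ : l₁.natDegree = l)
    (hl₂ : l₂.Monic) (hL₂ : l₂.natDegree = l) (hρ : ρ.natDegree ≤ A + C)
    (hd : a ∣ l₁ * c₁ - l₂ * c₂) (hu₁ : c₁ ∣ a * u₁ - 1) (hu₂ : c₂ ∣ a * u₂ - 1)
    (hw : l₂ * c₂ ∣ a * w - 1) :
    tau c₁ (ρ * u₁) - tau c₂ (ρ * u₂) = ρ.coeff (A + C) * (c₂.nextCoeff - c₁.nextCoeff)
      - (ρ * (l₁ - l₂)).coeff (A + (l + C) - 1) + tau (l₂ * c₂) (ρ * (l₁ - l₂) * w) := by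
  obtain ⟨x, hx⟩ := hw
  obtain ⟨e, he⟩ := hd
  have hz : a ∣ l₂ * c₂ * (-x) - 1 := ⟨-w, by linear_combination hx⟩
  have hz₁ : a ∣ c₁ * (l₁ * (-x)) - 1 := ⟨-w - e * x, by linear_combination hx - x * he⟩
  have hz₂ : a ∣ c₂ * (l₂ * (-x)) - 1 := ⟨-w, by linear_combination hx⟩
  have r₁ := rec_tau_rec ha hc₁ hu₁ hz₁ ρ
  have r₂ := rec_tau_rec ha hc₂ hu₂ hz₂ ρ
  have r₃ := rec_tau_rec ha (hl₂.mul hc₂) ⟨x, hx⟩ hz (ρ * (l₁ - l₂))
  have d₁ : (a * c₁).natDegree = A + C := by rw [ha.natDegree_mul hc₁, hA, hC₁]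
  have d₂ : (a * c₂).natDegree = A + C := by rw [ha.natDegree_mul hc₂, hA, hC₂]
  have d₃ : (a * (l₂ * c₂)).natDegree = A + (l + C) := by
    rw [ha.natDegree_mul (hl₂.mul hc₂), hl₂.natDegree_mul hc₂, hA, hL₂, hC₂]
  rw [rec_tau_le (ha.mul hc₁) (by omega) (by omega), d₁, ha.nextCoeff_mul hc₁] at r₁
  rw [rec_tau_le (ha.mul hc₂) (by omega) (by omega), d₂, ha.nextCoeff_mul hc₂] at r₂
  have hlt : (ρ * (l₁ - l₂)).degree < (a * (l₂ * c₂)).degree := by
    rw [degree_eq_natDegree (ha.mul (hl₂.mul hc₂)).ne_zero, d₃]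
    by_cases h0 : ρ * (l₁ - l₂) = 0
    · rw [h0, degree_zero]; exact WithBot.bot_lt_coe _
    · have hρ0 : ρ ≠ 0 := left_ne_zero_of_mul h0
      have hl0 : l₁ - l₂ ≠ 0 := right_ne_zero_of_mul h0
      have h1 : (l₁ - l₂).degree < l₁.degree :=
        degree_sub_lt_left (by rw [degree_eq_natDegree hl₁.ne_zero, degree_eq_natDegree hl₂.ne_zero,
          hL₁, hL₂]) hl₁.ne_zero (by rw [hl₁.leadingCoeff, hl₂.leadingCoeff])
      have h2 : (l₁ - l₂).natDegree < l₁.natDegree := natDegree_lt_natDegree hl0 h1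
      rw [degree_eq_natDegree h0, natDegree_mul hρ0 hl0, Nat.cast_lt]
      omega
  rw [tau_of_lt (ha.mul (hl₂.mul hc₂)) hlt, d₃] at r₃
  have r₄ : tau a (ρ * (l₁ - l₂) * (-x)) = tau a (ρ * (l₁ * (-x))) - tau a (ρ * (l₂ * (-x))) := by
    rw [← rec_tau_sub]; congr 1; ring
  linear_combination r₁ - r₂ - r₃ + r₄

variable [Fintype k] [CharP k 2]

theorem rec_psi_sub (a b : k) : psi (a - b) = psi a * psi b := by
  rw [CharTwo.sub_eq_add, psi_add]

theorem rec_psi_sq (a : k) : psi a * psi a = 1 := by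
  unfold psi; split_ifs <;> norm_num

theorem rec_abs_psi (a : k) : |psi a| = 1 := by
  unfold psi; split_ifs <;> norm_num

/-- The phase of a good tuple in characteristic two. -/
theorem rec_psi_good {A C l : ℕ} (hC : 0 < C) {a c₁ c₂ l₁ l₂ u₁ u₂ w ρ : k[X]}
    (ha : a.Monic) (hA : a.natDegree = A) (hc₁ : c₁.Monic) (hC₁ : c₁.natDegree = C)
    (hc₂ : c₂.Monic) (hC₂ : c₂.natDegree = C) (hl₁ : l₁.Monic) (hL₁ : l₁.natDegree = l)
    (hl₂ : l₂.Monic) (hL₂ : l₂.natDegree = l) (hρ : ρ.natDegree ≤ A + C)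
    (hd : a ∣ l₁ * c₁ - l₂ * c₂) (hu₁ : c₁ ∣ a * u₁ - 1) (hu₂ : c₂ ∣ a * u₂ - 1)
    (hw : l₂ * c₂ ∣ a * w - 1) :
    psi (tau c₁ (ρ * u₁)) * psi (tau c₂ (ρ * u₂)) =
      psi (ρ.coeff (A + C) * c₁.nextCoeff) * psi (ρ.coeff (A + C) * c₂.nextCoeff)
      * psi ((ρ * (l₁ - l₂)).coeff (A + (l + C) - 1))
      * psi (tau (l₂ * c₂) (ρ * (l₁ - l₂) * w)) := by
  rw [← rec_psi_sub, rec_tau_good hC ha hA hc₁ hC₁ hc₂ hC₂ hl₁ hL₁ hl₂ hL₂ hρ hd hu₁ hu₂ hw, psi_add,
    rec_psi_sub, mul_sub, rec_psi_sub]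
  ring

end

variable {k : Type*} [Field k] [Fintype k]

theorem ee_add [CharP k 2] (M x y : k[X]) : ee M (x + y) = ee M x * ee M y := by
  unfold ee
  rw [tau_add, psi_add]

theorem ee_congr {M x y : k[X]} (hM : M.Monic) (h : M ∣ x - y) : ee M x = ee M y := by
  unfold ee
  rw [tau_congr hM h]

theorem ee_crt [CharP k 2] {M N : k[X]} (hM : M.Monic) (hN : N.Monic) (h : IsCoprime M N)
    (x : k[X]) : ee (M * N) x = ee M (x * iv M N) * ee N (x * iv N M) := by
  unfold ee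
  rw [← rec_tau_rec hM hN (iv_spec h) (iv_spec h.symm) x, psi_add, mul_comm]

theorem bk3 [CharP k 2] {A C l : ℕ} (hC : 0 < C) (hl : 0 < l) {ρ : k[X]}
    (hρ : ρ.natDegree ≤ A + C) :
    ∃ (t : k[X] → ℝ) (t' : k[X] → k[X] → ℝ), (∀ c, |t c| ≤ 1) ∧ (∀ l₁ l₂, |t' l₁ l₂| ≤ 1) ∧
      ∀ c₁ ∈ mon k C, ∀ c₂ ∈ mon k C, ∀ l₁ ∈ prs k l, ∀ l₂ ∈ prs k l, ∀ a ∈ mon k A,
        Good l₁ c₁ l₂ c₂ → a ∣ l₁ * c₁ - l₂ * c₂ →
        kf ρ a c₁ * kf ρ a c₂ = t c₁ * t c₂ * t' l₁ l₂ * kf (ρ * (l₁ - l₂)) a (l₂ * c₂) := by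
  refine ⟨fun c => psi (ρ.coeff (A + C) * c.nextCoeff),
    fun l₁ l₂ => psi ((ρ * (l₁ - l₂)).coeff (A + (l + C) - 1)), fun _ => (rec_abs_psi _).le,
    fun _ _ => (rec_abs_psi _).le, ?_⟩
  intro c₁ hc₁ c₂ hc₂ l₁ hl₁ l₂ hl₂ a ha hg hd
  unfold prs at hl₁ hl₂
  rw [Finset.mem_filter, mem_mon] at hl₁ hl₂
  rw [mem_mon] at hc₁ hc₂ ha
  unfold kf
  by_cases h : IsCoprime a (l₂ * c₂)
  · have h₂ : IsCoprime a c₂ := h.of_mul_right_right
    have h₁ : IsCoprime a c₁ := by
      obtain ⟨e, he⟩ := hd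
      have h3 : l₁ * c₁ = l₂ * c₂ + a * e := by linear_combination he
      have h4 : IsCoprime a (l₁ * c₁) := by rw [h3]; exact h.add_mul_left_right e
      exact h4.of_mul_right_right
    rw [if_pos h, if_pos h₁, if_pos h₂]
    exact rec_psi_good hC ha.1 ha.2 hc₁.1 hc₁.2 hc₂.1 hc₂.2 hl₁.1.1 hl₁.1.2 hl₂.1.1 hl₂.1.2 hρ hd
      (iv_spec h₁) (iv_spec h₂) (iv_spec h)
  · rw [if_neg h, mul_zero]
    by_cases h₂ : IsCoprime a c₂
    · exfalso
      refine h (IsCoprime.mul_right ?_ h₂)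
      refine (hl₂.2.coprime_iff_not_dvd.2 fun h3 => ?_).symm
      have h4 : l₂ ∣ l₁ * c₁ := by
        have := dvd_add (h3.trans hd) (dvd_mul_right l₂ c₂)
        rwa [sub_add_cancel] at this
      rcases hl₂.2.prime.dvd_or_dvd h4 with h5 | h5
      · exact hg.1 (eq_of_monic_of_associated hl₂.1.1 hl₁.1.1
          (hl₂.2.associated_of_dvd hl₁.2 h5)).symm
      · exact hg.2.2 h5
    · rw [if_neg h₂, mul_zero]

end Pool.Agent.MP_b5e119_nt.BK
end
end

section
open Polynomial Finset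
open scoped Classical BigOperators

noncomputable section
namespace Pool.Agent.MP_b5e119_nt.BK
open Pool.Agent.MP_a4a062_nt.C2

variable {k : Type*} [Field k] [Fintype k]

theorem iva_psi_zero : psi (0 : k) = 1 := if_pos ⟨0, by simp⟩

/-- Completion: the characters `κ / c` with `deg κ < C - s` detect `deg (y mod c) < s`. -/
theorem iva_orth [CharP k 2] {c : k[X]} (hc : c.Monic) {s : ℕ} (hs : s ≤ c.natDegree) (y : k[X]) :
    ∑ κ ∈ box k (c.natDegree - s), psi (tau c (κ * y)) =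
      if (y %ₘ c).degree < s then qq k ^ (c.natDegree - s) else 0 := by
  have hcg : ∀ κ : k[X], tau c (κ * y) = tau c (κ * (y %ₘ c)) := fun κ =>
    tau_congr hc ⟨κ * (y /ₘ c), by linear_combination (-κ) * modByMonic_add_div y c⟩
  simp only [hcg]
  set r := y %ₘ c with hr
  split_ifs with h
  · rw [← card_box, Finset.sum_congr rfl (g := fun _ => (1 : ℝ))]
    · simp
    intro κ hκ
    rw [mem_box] at hκ
    rw [tauh_top hc, iva_psi_zero]
    by_cases h0 : κ * r = 0
    · exact Or.inr h0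
    · left
      have h1 := left_ne_zero_of_mul h0
      have h2 := right_ne_zero_of_mul h0
      rw [← natDegree_lt_iff_degree_lt h1] at hκ
      rw [← natDegree_lt_iff_degree_lt h2] at h
      rw [natDegree_mul h1 h2]
      omega
  · have h2 : r ≠ 0 := fun h0 => h (by rw [h0, degree_zero]; exact WithBot.bot_lt_coe _)
    rw [← natDegree_lt_iff_degree_lt h2] at h
    have h3 : r.natDegree < c.natDegree := natDegree_lt_natDegree h2 (degree_modByMonic_lt y hc)
    obtain ⟨c₀, hc₀⟩ := exists_psi_neg (k := k)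
    set t : k[X] := C (c₀ / r.leadingCoeff) * X ^ (c.natDegree - 1 - r.natDegree) with ht
    have htd : t.degree < (c.natDegree - s : ℕ) :=
      (degree_C_mul_X_pow_le _ _).trans_lt (by rw [Nat.cast_lt]; omega)
    have htr : tau c (t * r) = c₀ := by
      have h4 : (t * r).degree < c.degree := by
        refine degree_lt_degree (lt_of_le_of_lt natDegree_mul_le ?_)
        have := natDegree_C_mul_X_pow_le (c₀ / r.leadingCoeff) (c.natDegree - 1 - r.natDegree)
        rw [← ht] at this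
        omega
      rw [tau_of_lt hc h4, ht, mul_assoc, coeff_C_mul]
      have h5 : c.natDegree - 1 = r.natDegree + (c.natDegree - 1 - r.natDegree) := by omega
      rw [h5, Nat.add_sub_cancel_left, coeff_X_pow_mul, coeff_natDegree,
        div_mul_cancel₀ _ (leadingCoeff_ne_zero.2 h2)]
    have h6 := box_sum_shift htd (fun κ => psi (tau c (κ * r)))
    simp only [add_mul, tau_add, psi_add, htr, hc₀, mul_neg, mul_one, Finset.sum_neg_distrib] at h6
    linarith

/-- The number of `e` of degree `< s` in a class modulo `c`, for `s ≤ deg c`. -/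
theorem iva_cnt {c : k[X]} (hc : c.Monic) {s : ℕ} (hs : s ≤ c.natDegree) (y : k[X]) :
    ∑ e ∈ box k s, (if c ∣ e - y then (1 : ℝ) else 0) =
      if (y %ₘ c).degree < s then 1 else 0 := by
  have h1 : ∀ e ∈ box k s, c ∣ e - y ↔ e = y %ₘ c := fun e he => by
    rw [mem_box] at he
    constructor
    · intro h
      have h2 : e.degree < c.degree := by
        rw [degree_eq_natDegree hc.ne_zero]; exact he.trans_le (by exact_mod_cast hs)
      rw [← modByMonic_eq_of_dvd_sub hc h, (modByMonic_eq_self_iff hc).2 h2]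
    · rintro rfl
      exact ⟨-(y /ₘ c), by linear_combination modByMonic_add_div y c⟩
  rw [Finset.sum_congr rfl fun e he => by rw [if_congr (h1 e he) rfl rfl]]
  rw [Finset.sum_ite_eq', if_congr mem_box rfl rfl]

/-- The count of monic `e` of degree `s` with `c ∣ a e + h` as a character sum. -/
theorem iva_count [CharP k 2] {a c u : k[X]} (hc : c.Monic) (hu : c ∣ a * u - 1) {s : ℕ}
    (hs : s ≤ c.natDegree) (h : k[X]) :
    ∑ e ∈ mon k s, (if c ∣ a * e + h then (1 : ℝ) else 0) =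
      (∑ κ ∈ box k (c.natDegree - s),
        psi ((κ * X ^ s).coeff (c.natDegree - 1)) * psi (tau c (κ * h * u)))
        / qq k ^ (c.natDegree - s) := by
  have hq : (0 : ℝ) < qq k := lt_of_lt_of_le two_pos two_le_qq
  have h1 : ∀ e : k[X], c ∣ a * (X ^ s + e) + h ↔ c ∣ e - (-(h * u) - X ^ s) := fun e => by
    obtain ⟨x, hx⟩ := hu
    constructor
    · rintro ⟨z, hz⟩
      exact ⟨u * z - (X ^ s + e) * x, by linear_combination u * hz - (X ^ s + e) * hx⟩
    · rintro ⟨z, hz⟩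
      exact ⟨a * z - h * x, by linear_combination a * hz - h * hx⟩
  rw [box_sum_mon]
  simp only [h1]
  rw [iva_cnt hc hs]
  have h2 : ∑ κ ∈ box k (c.natDegree - s),
      psi ((κ * X ^ s).coeff (c.natDegree - 1)) * psi (tau c (κ * h * u))
      = ∑ κ ∈ box k (c.natDegree - s), psi (tau c (κ * (-(h * u) - X ^ s))) := by
    refine Finset.sum_congr rfl fun κ hκ => ?_
    rw [mem_box] at hκ
    have h3 : (κ * X ^ s).degree < c.degree := by
      by_cases h0 : κ = 0
      · rw [h0, zero_mul, degree_zero]; exact bot_lt_iff_ne_bot.2 (degree_ne_bot.2 hc.ne_zero)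
      · rw [← natDegree_lt_iff_degree_lt h0] at hκ
        refine degree_lt_degree ?_
        rw [natDegree_mul_X_pow _ h0]
        omega
    have h4 : κ * (-(h * u) - X ^ s) = κ * X ^ s + κ * h * u := by
      rw [CharTwo.neg_eq, CharTwo.sub_eq_add]; ring
    rw [h4, tau_add, psi_add, tau_of_lt hc h3]
  rw [h2, iva_orth hc hs]
  split_ifs
  · field_simp
  · simp

/-- Exact count when the free variable is long. -/
theorem iva_long {a c : k[X]} (hc : c.Monic) (hac : IsCoprime a c) {s : ℕ} (hs : c.natDegree ≤ s)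
    (h : k[X]) : ∑ e ∈ mon k s, (if c ∣ a * e + h then (1 : ℝ) else 0) =
      qq k ^ s / qq k ^ c.natDegree := by
  have hq : (0 : ℝ) < qq k := lt_of_lt_of_le two_pos two_le_qq
  have h1 := exp_box_dvd hc.ne_zero hs hac (a * X ^ s + h)
  rw [box_exp, div_eq_iff (by positivity)] at h1
  rw [box_sum_mon]
  have h2 : ∀ e : k[X], a * (X ^ s + e) + h = a * X ^ s + h + a * e := fun e => by ring
  simp only [h2]
  rw [h1]; ring

theorem iva [CharP k 2] {a c : k[X]} (hc : c.Monic) (hac : IsCoprime a c) (s : ℕ) (h : k[X]) :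
    cnt s h a c = qq k ^ s / qq k ^ c.natDegree *
      ∑ r ∈ box k (c.natDegree - s), psi (r.coeff (c.natDegree - s - 1)) * kf (r * h) a c := by
  have hq : (0 : ℝ) < qq k := lt_of_lt_of_le two_pos two_le_qq
  unfold cnt kf ee
  simp only [if_pos hac]
  rcases le_or_gt c.natDegree s with hs | hs
  · have h0 : box k 0 = {0} := by
      ext r
      rw [mem_box, Finset.mem_singleton]
      simp [Polynomial.degree_eq_bot]
    rw [iva_long hc hac hs, Nat.sub_eq_zero_of_le hs, h0, Finset.sum_singleton, zero_mul, zero_mul,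
      coeff_zero, tauh_zero, iva_psi_zero]
    ring
  · have hQ : qq k ^ c.natDegree = qq k ^ s * qq k ^ (c.natDegree - s) := by
      rw [← pow_add]; congr 1; omega
    have h1 : ∀ r : k[X], (r * X ^ s).coeff (c.natDegree - 1) = r.coeff (c.natDegree - s - 1) :=
      fun r => by
        have : c.natDegree - 1 = c.natDegree - s - 1 + s := by omega
        rw [this, coeff_mul_X_pow]
    rw [iva_count hc (iv_spec hac) hs.le, hQ]
    simp only [h1]
    field_simp

theorem iv0 {a c : k[X]} (hc : c.Monic) {s : ℕ} (hs : c.natDegree ≤ s + dg a c) (h : k[X]) :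
    cnt s h a c = mdl s h a c := by
  have hq : (0 : ℝ) < qq k := lt_of_lt_of_le two_pos two_le_qq
  unfold cnt mdl
  unfold dg at *
  have hga := EuclideanDomain.gcd_dvd_left a c
  have hgc := EuclideanDomain.gcd_dvd_right a c
  have hb := EuclideanDomain.gcd_eq_gcd_ab a c
  set g := EuclideanDomain.gcd a c with hg
  split_ifs with hgh
  · have hg0 : g ≠ 0 := fun h0 => hc.ne_zero (zero_dvd_iff.1 (h0 ▸ hgc))
    have hl : g.leadingCoeff ≠ 0 := leadingCoeff_ne_zero.2 hg0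
    obtain ⟨a', ha'⟩ := hga
    obtain ⟨c', hc'⟩ := hgc
    obtain ⟨h', hh'⟩ := hgh
    have hc0 : c' ≠ 0 := fun h0 => hc.ne_zero (by rw [hc', h0, mul_zero])
    have hn : c.natDegree = g.natDegree + c'.natDegree := by rw [hc', natDegree_mul hg0 hc0]
    have hm : (C g.leadingCoeff * c').Monic := by
      have h1 := hc.leadingCoeff
      rw [hc', leadingCoeff_mul] at h1
      rw [Monic, leadingCoeff_mul, leadingCoeff_C, h1]
    have hd : (C g.leadingCoeff * c').natDegree = c'.natDegree := natDegree_C_mul hl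
    have hu : IsUnit (C g.leadingCoeff : k[X]) := isUnit_C.2 (Ne.isUnit hl)
    have hco : IsCoprime a' c' := ⟨EuclideanDomain.gcdA a c, EuclideanDomain.gcdB a c,
      mul_left_cancel₀ hg0 (by
        linear_combination -hb - EuclideanDomain.gcdA a c * ha' - EuclideanDomain.gcdB a c * hc')⟩
    have hco' : IsCoprime a' (C g.leadingCoeff * c') := (isCoprime_mul_unit_left_right hu _ _).2 hco
    have h2 : ∀ b : k[X], c ∣ a * b + h ↔ C g.leadingCoeff * c' ∣ a' * b + h' := fun b => by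
      rw [hu.mul_left_dvd, hc', ha', hh', mul_assoc, ← mul_add, mul_dvd_mul_iff_left hg0]
    simp only [h2]
    rw [iva_long hm hco' (by omega), hd, hn, pow_add]
    field_simp
  · refine Finset.sum_eq_zero fun b _ => if_neg fun hf => hgh ?_
    exact (dvd_add_right (hga.mul_right b)).1 (hgc.trans hf)

end Pool.Agent.MP_b5e119_nt.BK
end
end
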