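import Pool.Agent.MP_b5e119_nt.GB.BK1

/-! The amplifier and the pairs of good tuples. -/

set_option autoImplicit false

section
open Polynomial Finset Filter
open scoped Classical BigOperators

noncomputable section
namespace Pool.Agent.MP_b5e119_nt.BK
open Pool.Agent.MP_a4a062_nt.C2

section
variable {k : Type*} [Field k] [Fintype k]

theorem bk12_amp {ι : Type*} {a : k[X]} (ha : a.Monic) (T : Finset ι) (g : ι → k[X]) (y : ι → ℝ) :
    (∑ i ∈ T, y i) ^ 2 ≤ qq k ^ a.natDegree *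
      ∑ i ∈ T, ∑ j ∈ T, if a ∣ g i - g j then y i * y j else 0 := by
  have hmap : ∀ i ∈ T, g i %ₘ a ∈ box k a.natDegree := fun i _ => by
    rw [mem_box, ← degree_eq_natDegree ha.ne_zero]
    exact degree_modByMonic_lt _ ha
  have hiff : ∀ i j, g i %ₘ a = g j %ₘ a ↔ a ∣ g i - g j := fun i j => by
    rw [← modByMonic_eq_zero_iff_dvd ha, sub_modByMonic, sub_eq_zero]
  rw [← Finset.sum_fiberwise_of_maps_to hmap y]
  refine (sq_sum_le_card_mul_sum_sq (s := box k a.natDegree)).trans (le_of_eq ?_)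
  rw [card_box, ← Finset.sum_fiberwise_of_maps_to hmap]
  congr 1
  refine Finset.sum_congr rfl fun r _ => ?_
  rw [sq, Finset.sum_mul]
  refine Finset.sum_congr rfl fun i hi => ?_
  rw [Finset.mul_sum, Finset.sum_filter]
  refine Finset.sum_congr rfl fun j _ => ?_
  rw [← (Finset.mem_filter.1 hi).2]
  refine if_congr ?_ rfl rfl
  rw [eq_comm, hiff]

theorem bk12_prs {l : ℕ} {p : k[X]} (hp : p ∈ prs k l) :
    p.Monic ∧ p.natDegree = l ∧ Irreducible p := by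
  obtain ⟨h1, h2⟩ := Finset.mem_filter.1 hp
  exact ⟨(mem_mon.1 h1).1, (mem_mon.1 h1).2, h2⟩

theorem bk12_nd (A : ℕ) {f : k[X]} (hf : f ≠ 0) : #{a ∈ mon k A | a ∣ f} ≤ ndiv f := by
  refine Finset.card_le_card fun a ha => ?_
  obtain ⟨h1, h2⟩ := Finset.mem_filter.1 ha
  refine Finset.mem_filter.2 ⟨Finset.mem_biUnion.2 ⟨A, Finset.mem_range.2 ?_, h1⟩, h2⟩
  have := natDegree_le_of_dvd h2 hf
  rw [(mem_mon.1 h1).2] at this
  omega

theorem bk12_card_prs (l : ℕ) : (#(prs k l) : ℝ) ≤ qq k ^ l := by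
  rw [← card_mon]
  exact_mod_cast Finset.card_le_card (Finset.filter_subset _ _)

theorem bk12_diag {l C : ℕ} {D : ℝ} (hD : DivB k (l + C) D) {l1 c1 : k[X]} (h1 : l1 ∈ prs k l) (h2 : c1 ∈ mon k C) :
    ∑ j ∈ prs k l ×ˢ mon k C, (if l1 * c1 = j.1 * j.2 then (1 : ℝ) else 0) ≤ D := by
  rw [Finset.sum_boole]
  obtain ⟨a1, a2, -⟩ := bk12_prs h1
  obtain ⟨b1, b2⟩ := mem_mon.1 h2
  have h := hD _ (a1.mul b1).ne_zero (by rw [a1.natDegree_mul b1, a2, b2])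
  have h3 : #{j ∈ prs k l ×ˢ mon k C | l1 * c1 = j.1 * j.2} ≤ #{p ∈ prs k l | p ∣ l1 * c1} := by
    refine Finset.card_le_card_of_injOn Prod.fst ?_ ?_
    · intro j hj
      obtain ⟨j1, j2⟩ := Finset.mem_filter.1 (Finset.mem_coe.1 hj)
      exact Finset.mem_coe.2 (Finset.mem_filter.2 ⟨(Finset.mem_product.1 j1).1, j2 ▸ dvd_mul_right _ _⟩)
    · intro i hi j hj hij
      obtain ⟨i1, i2⟩ := Finset.mem_filter.1 (Finset.mem_coe.1 hi)
      obtain ⟨j1, j2⟩ := Finset.mem_filter.1 (Finset.mem_coe.1 hj)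
      refine Prod.ext hij ?_
      rw [i2, ← hij] at j2
      exact mul_left_cancel₀ (bk12_prs (Finset.mem_product.1 i1).1).1.ne_zero j2
  have h4 : #{p ∈ prs k l | p ∣ l1 * c1} ≤ ndiv (l1 * c1) :=
    (Finset.card_le_card (Finset.filter_subset_filter _ (Finset.filter_subset _ _))).trans
      (bk12_nd l (a1.mul b1).ne_zero)
  exact le_trans (by exact_mod_cast h3.trans h4) h

theorem bk12_dvd {p : k[X]} (hp : p.Monic) (C : ℕ) :
    qq k ^ p.natDegree * ∑ c ∈ mon k C, (if p ∣ c then (1 : ℝ) else 0) ≤ qq k ^ C := by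
  have hq : 0 < qq k := by linarith [two_le_qq (k := k)]
  rcases Nat.lt_or_ge C p.natDegree with h | h
  · rw [Finset.sum_eq_zero, mul_zero]
    · positivity
    intro c hc
    obtain ⟨c1, c2⟩ := mem_mon.1 hc
    rw [if_neg]
    intro hd
    have := natDegree_le_of_dvd hd c1.ne_zero
    omega
  · obtain ⟨n, rfl⟩ : ∃ n, C = n + p.natDegree := ⟨C - p.natDegree, by omega⟩
    have h1 := exp_mon_mul (n := n) hp fun _ => (1 : ℝ)
    rw [Finset.expect_const (mon_nonempty _), Finset.expect_eq_sum_div_card, card_mon,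
      ← mul_div_assoc, eq_div_iff (by positivity), one_mul] at h1
    exact h1.ge

theorem bk12_bad (l C : ℕ) :
    ∑ i ∈ prs k l ×ˢ mon k C, ∑ j ∈ prs k l ×ˢ mon k C,
      (if i.1 ≠ j.1 ∧ ¬ i.1 ∣ j.2 ∧ ¬ j.1 ∣ i.2 then (0 : ℝ) else 1) ≤ 3 * qq k ^ (l + 2 * C) := by
  have hq : 0 < qq k := by linarith [two_le_qq (k := k)]
  have hL := bk12_card_prs (k := k) l
  have h1 : ∀ i ∈ prs k l ×ˢ mon k C,
      ∑ j ∈ prs k l ×ˢ mon k C, (if i.1 = j.1 then (1 : ℝ) else 0) ≤ qq k ^ C := by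
    intro i hi
    rw [Finset.sum_product_right]
    refine le_trans (Finset.sum_le_card_nsmul _ _ 1 fun c _ => ?_) (by simp [card_mon])
    show ∑ p ∈ prs k l, (if i.1 = p then (1 : ℝ) else 0) ≤ 1
    rw [Finset.sum_ite_eq, if_pos (Finset.mem_product.1 hi).1]
  have h2 : ∀ i ∈ prs k l ×ˢ mon k C,
      ∑ j ∈ prs k l ×ˢ mon k C, (if i.1 ∣ j.2 then (1 : ℝ) else 0) ≤ qq k ^ C := by
    intro i hi
    obtain ⟨a1, a2, -⟩ := bk12_prs (Finset.mem_product.1 hi).1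
    rw [Finset.sum_product]
    show ∑ _p ∈ prs k l, ∑ c ∈ mon k C, (if i.1 ∣ c then (1 : ℝ) else 0) ≤ _
    rw [Finset.sum_const, nsmul_eq_mul]
    refine le_trans (mul_le_mul_of_nonneg_right hL
      (Finset.sum_nonneg fun _ _ => by positivity)) ?_
    rw [← a2]
    exact bk12_dvd a1 C
  have hT : (#(prs k l ×ˢ mon k C) : ℝ) * qq k ^ C ≤ qq k ^ (l + 2 * C) := by
    rw [Finset.card_product, Nat.cast_mul, card_mon, pow_add, two_mul, pow_add, mul_assoc]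
    exact mul_le_mul_of_nonneg_right hL (by positivity)
  have s1 := Finset.sum_le_card_nsmul _ _ _ h1
  have s2 := Finset.sum_le_card_nsmul _ _ _ h2
  have s3 : ∑ i ∈ prs k l ×ˢ mon k C, ∑ j ∈ prs k l ×ˢ mon k C,
      (if j.1 ∣ i.2 then (1 : ℝ) else 0) ≤ _ := (Finset.sum_comm.trans_le s2)
  rw [nsmul_eq_mul] at s1 s2 s3
  refine le_trans (Finset.sum_le_sum fun i _ => Finset.sum_le_sum (g := fun j : k[X] × k[X] =>
    (if i.1 = j.1 then (1 : ℝ) else 0) + (if i.1 ∣ j.2 then (1 : ℝ) else 0) +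
      (if j.1 ∣ i.2 then (1 : ℝ) else 0)) fun j _ => ?_) ?_
  · split_ifs <;> first | tauto | norm_num
  · simp only [Finset.sum_add_distrib]
    linarith

theorem bk12_main {A C l : ℕ} {τ : ℝ} (hD : DivB k (l + C) τ) (α : k[X] → ℝ) (x : k[X] → k[X] → ℝ)
    (hα : ∀ a, |α a| ≤ 1) (hx : ∀ a c, |x a c| ≤ 1) :
    (#(prs k l) : ℝ) ^ 2 * (∑ a ∈ mon k A, α a * ∑ c ∈ mon k C, x a c) ^ 2 ≤
      qq k ^ (2 * A) * (qq k ^ (A + C + l) * τ + 3 * qq k ^ (l + 2 * C) * τ +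
        ∑ i ∈ prs k l ×ˢ mon k C, ∑ j ∈ prs k l ×ˢ mon k C, ∑ a ∈ mon k A,
          if (i.1 ≠ j.1 ∧ ¬ i.1 ∣ j.2 ∧ ¬ j.1 ∣ i.2) ∧ a ∣ i.1 * i.2 - j.1 * j.2
            then x a i.2 * x a j.2 else 0) := by
  have hq : 0 < qq k := by linarith [two_le_qq (k := k)]
  have hL := bk12_card_prs (k := k) l
  have hτ : ∀ f : k[X], f ≠ 0 → f.natDegree ≤ l + C → (#{a ∈ mon k A | a ∣ f} : ℝ) ≤ τ :=
    fun f hf hd => le_trans (by exact_mod_cast bk12_nd A hf) (hD f hf hd)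
  have hτ0 : 0 ≤ τ := le_trans (Nat.cast_nonneg _) (hτ 1 one_ne_zero (by simp))
  set T := prs k l ×ˢ mon k C with hT
  have h1 : (∑ a ∈ mon k A, α a * ∑ c ∈ mon k C, x a c) ^ 2 ≤
      qq k ^ A * ∑ a ∈ mon k A, (∑ c ∈ mon k C, x a c) ^ 2 := by
    refine (Finset.sum_mul_sq_le_sq_mul_sq _ _ _).trans (mul_le_mul_of_nonneg_right ?_
      (Finset.sum_nonneg fun _ _ => sq_nonneg _))
    rw [← card_mon]
    refine le_trans (Finset.sum_le_card_nsmul _ _ 1 fun a _ => ?_) (by simp)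
    exact (sq_le_one_iff_abs_le_one _).2 (hα a)
  have h2 : ∀ a ∈ mon k A, (#(prs k l) : ℝ) ^ 2 * (∑ c ∈ mon k C, x a c) ^ 2 ≤
      qq k ^ A * ∑ i ∈ T, ∑ j ∈ T, if a ∣ i.1 * i.2 - j.1 * j.2 then x a i.2 * x a j.2 else 0 := by
    intro a ha
    obtain ⟨a1, a2⟩ := mem_mon.1 ha
    have h := bk12_amp a1 T (fun i => i.1 * i.2) (fun i => x a i.2)
    rw [a2] at h
    refine le_trans (le_of_eq ?_) h
    rw [hT, Finset.sum_product]
    simp only [Finset.sum_const, nsmul_eq_mul]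
    ring
  have h3 : ∀ i ∈ T, ∀ j ∈ T,
      ∑ a ∈ mon k A, (if a ∣ i.1 * i.2 - j.1 * j.2 then x a i.2 * x a j.2 else 0) ≤
        qq k ^ A * (if i.1 * i.2 = j.1 * j.2 then (1 : ℝ) else 0) +
          τ * (if i.1 ≠ j.1 ∧ ¬ i.1 ∣ j.2 ∧ ¬ j.1 ∣ i.2 then (0 : ℝ) else 1) +
          ∑ a ∈ mon k A, if (i.1 ≠ j.1 ∧ ¬ i.1 ∣ j.2 ∧ ¬ j.1 ∣ i.2) ∧ a ∣ i.1 * i.2 - j.1 * j.2
            then x a i.2 * x a j.2 else 0 := by
    intro i hi j hj
    have hxx : ∀ a, x a i.2 * x a j.2 ≤ 1 := fun a => by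
      refine (le_abs_self _).trans ?_
      rw [abs_mul]
      exact mul_le_one₀ (hx _ _) (abs_nonneg _) (hx _ _)
    by_cases hg : i.1 ≠ j.1 ∧ ¬ i.1 ∣ j.2 ∧ ¬ j.1 ∣ i.2
    · simp only [hg, ne_eq, not_false_eq_true, and_self, true_and, if_true, mul_zero, add_zero]
      have : 0 ≤ qq k ^ A * (if i.1 * i.2 = j.1 * j.2 then (1 : ℝ) else 0) := by positivity
      linarith
    · simp only [hg, false_and, if_false, Finset.sum_const_zero, add_zero, mul_one]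
      have hle : ∑ a ∈ mon k A, (if a ∣ i.1 * i.2 - j.1 * j.2 then x a i.2 * x a j.2 else 0) ≤
          (#{a ∈ mon k A | a ∣ i.1 * i.2 - j.1 * j.2} : ℝ) := by
        rw [← Finset.sum_boole]
        refine Finset.sum_le_sum fun a _ => ?_
        split_ifs
        · exact hxx a
        · exact le_rfl
      refine hle.trans ?_
      split_ifs with hd
      · rw [mul_one, ← card_mon]
        have : (#{a ∈ mon k A | a ∣ i.1 * i.2 - j.1 * j.2} : ℝ) ≤ #(mon k A) := by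
          exact_mod_cast Finset.card_le_card (Finset.filter_subset _ _)
        linarith
      · rw [mul_zero, zero_add]
        refine hτ _ (sub_ne_zero.2 hd) ((natDegree_sub_le _ _).trans (max_le ?_ ?_))
        · refine natDegree_mul_le.trans (le_of_eq ?_)
          rw [(bk12_prs (Finset.mem_product.1 hi).1).2.1, (mem_mon.1 (Finset.mem_product.1 hi).2).2]
        · refine natDegree_mul_le.trans (le_of_eq ?_)
          rw [(bk12_prs (Finset.mem_product.1 hj).1).2.1, (mem_mon.1 (Finset.mem_product.1 hj).2).2]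
  have h4 : ∑ i ∈ T, ∑ j ∈ T, (if i.1 * i.2 = j.1 * j.2 then (1 : ℝ) else 0) ≤
      qq k ^ (C + l) * τ := by
    refine le_trans (Finset.sum_le_card_nsmul _ _ τ fun i hi =>
      bk12_diag hD (Finset.mem_product.1 hi).1 (Finset.mem_product.1 hi).2) ?_
    rw [nsmul_eq_mul, hT, Finset.card_product, Nat.cast_mul, card_mon, pow_add, mul_comm (qq k ^ C)]
    gcongr
  have h5 := bk12_bad (k := k) l C
  have h6 : ∑ a ∈ mon k A, ∑ i ∈ T, ∑ j ∈ T,
      (if a ∣ i.1 * i.2 - j.1 * j.2 then x a i.2 * x a j.2 else 0) ≤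
      qq k ^ (A + C + l) * τ + 3 * qq k ^ (l + 2 * C) * τ +
        ∑ i ∈ T, ∑ j ∈ T, ∑ a ∈ mon k A,
          if (i.1 ≠ j.1 ∧ ¬ i.1 ∣ j.2 ∧ ¬ j.1 ∣ i.2) ∧ a ∣ i.1 * i.2 - j.1 * j.2
            then x a i.2 * x a j.2 else 0 := by
    rw [Finset.sum_comm]
    refine le_trans (Finset.sum_le_sum fun i hi => (Finset.sum_comm.trans_le
      (Finset.sum_le_sum fun j hj => h3 i hi j hj))) ?_
    simp only [Finset.sum_add_distrib, ← Finset.mul_sum]
    have e1 := mul_le_mul_of_nonneg_left h4 (pow_pos hq A).le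
    have e2 := mul_le_mul_of_nonneg_left h5 hτ0
    rw [add_assoc A, pow_add (qq k) A, mul_assoc]
    linarith
  calc _ ≤ (#(prs k l) : ℝ) ^ 2 * (qq k ^ A * ∑ a ∈ mon k A, (∑ c ∈ mon k C, x a c) ^ 2) :=
        mul_le_mul_of_nonneg_left h1 (sq_nonneg _)
    _ = qq k ^ A * ∑ a ∈ mon k A, (#(prs k l) : ℝ) ^ 2 * (∑ c ∈ mon k C, x a c) ^ 2 := by
        rw [← Finset.mul_sum]; ring
    _ ≤ qq k ^ A * ∑ a ∈ mon k A, qq k ^ A * ∑ i ∈ T, ∑ j ∈ T,
          if a ∣ i.1 * i.2 - j.1 * j.2 then x a i.2 * x a j.2 else 0 :=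
        mul_le_mul_of_nonneg_left (Finset.sum_le_sum h2) (pow_pos hq A).le
    _ ≤ _ := by
        rw [← Finset.mul_sum, ← mul_assoc, ← pow_add, ← two_mul]
        exact mul_le_mul_of_nonneg_left h6 (pow_pos hq _).le

theorem bk12 {A C l : ℕ} {D : ℝ} (hD : DivB k (l + C) D) (α : k[X] → ℝ) (hα : ∀ a, |α a| ≤ 1)
    (x : k[X] → k[X] → ℝ) (hx : ∀ a c, |x a c| ≤ 1) :
    (#(prs k l) : ℝ) ^ 2 * (∑ a ∈ mon k A, α a * ∑ c ∈ mon k C, x a c) ^ 2
      ≤ qq k ^ (2 * A) *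
        (D * qq k ^ (A + C + l) + 3 * D * qq k ^ (2 * C + l) + |off A C l x|) := by
  have hq : 0 < qq k := by linarith [two_le_qq (k := k)]
  refine (bk12_main hD α x hα hx).trans (mul_le_mul_of_nonneg_left ?_ (pow_pos hq _).le)
  have h : ∑ i ∈ prs k l ×ˢ mon k C, ∑ j ∈ prs k l ×ˢ mon k C, ∑ a ∈ mon k A,
      (if (i.1 ≠ j.1 ∧ ¬ i.1 ∣ j.2 ∧ ¬ j.1 ∣ i.2) ∧ a ∣ i.1 * i.2 - j.1 * j.2
        then x a i.2 * x a j.2 else 0) = off A C l x := by
    unfold off Good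
    rw [Finset.sum_product_right]
    refine Finset.sum_congr rfl fun c₁ _ => ?_
    rw [Finset.sum_comm, Finset.sum_product_right]
    refine Finset.sum_congr rfl fun c₂ _ => ?_
    rw [Finset.sum_comm]
    refine Finset.sum_congr rfl fun _ _ => Finset.sum_congr rfl fun _ _ =>
      Finset.sum_congr rfl fun _ _ => ?_
    congr
  rw [h, add_comm l (2 * C)]
  linarith [le_abs_self (off A C l x)]

end
end Pool.Agent.MP_b5e119_nt.BK
end
end

section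
open Polynomial Finset
open scoped Classical BigOperators

noncomputable section
namespace Pool.Agent.MP_b5e119_nt.BK
open Pool.Agent.MP_a4a062_nt.C2

variable {k : Type*} [Field k] [Fintype k]

omit [Fintype k] in
theorem b4a_inv {M x u v : k[X]} (hu : M ∣ x * u - 1) (hv : M ∣ x * v - 1) : M ∣ u - v := by
  have e : u - v = v * (x * u - 1) - u * (x * v - 1) := by ring
  rw [e]
  exact dvd_sub (hu.mul_left _) (hv.mul_left _)

theorem b4a_mon {A : ℕ} {a w : k[X]} (hw : w.degree < A) : a + w ∈ mon k A ↔ a ∈ mon k A := by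
  have key : ∀ a w : k[X], w.degree < A → a ∈ mon k A → a + w ∈ mon k A := fun a w hw ha => by
    obtain ⟨h1, h2⟩ := mem_mon.1 ha
    have h3 : w.degree < a.degree := by rwa [degree_eq_natDegree h1.ne_zero, h2]
    exact mem_mon.2 ⟨h1.add_of_left h3, by rw [natDegree_add_eq_left_of_degree_lt h3, h2]⟩
  refine ⟨fun h => ?_, key a w hw⟩
  simpa using key (a + w) (-w) (by rwa [degree_neg]) h

theorem b4a_kf [CharP k 2] (b b' x M : k[X]) : kf b x M * kf b' x M = kf (b + b') x M := by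
  unfold kf
  split_ifs
  · rw [add_mul, ee_add]
  · simp

theorem b4a_one [CharP k 2] {A : ℕ} (ρ : k[X]) {l₁ l₂ e M δ : k[X]} (c₁ R : k[X]) (he : e ≠ 0)
    (hM : M.Monic) (hδ : δ.Monic) (hl : l₂.Monic) (h1 : IsCoprime l₁ M) (h2 : IsCoprime e M)
    (h3 : IsCoprime M (l₂ * δ)) : ∃ g : ℝ, |g| ≤ 1 ∧ ∀ t : k[X],
      (l₁ * (l₂ * δ * e * R * t)).degree < A →
      gg A ρ l₁ l₂ e (c₁ + l₂ * δ * e * R * t) (M * δ) =
        g * kf (ρ * (l₁ - l₂) * e * iv M l₁ * iv M (l₂ * δ)) (c₁ + l₂ * δ * e * R * t) M := by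
  by_cases hd : e ∣ l₁ * c₁ - l₂ * (M * δ)
  swap
  · refine ⟨0, by simp, fun t _ => ?_⟩
    rw [zero_mul, gg, if_neg]
    rintro ⟨-, h, -⟩
    have : l₁ * c₁ - l₂ * (M * δ) = l₁ * (c₁ + l₂ * δ * e * R * t) - l₂ * (M * δ) -
      e * (l₁ * l₂ * δ * R * t) := by ring
    exact hd (this ▸ dvd_sub h (dvd_mul_right _ _))
  obtain ⟨a, ha⟩ := hd
  refine ⟨if (Good l₁ c₁ l₂ (M * δ) ∧ a ∈ mon k A) ∧ IsCoprime a (l₂ * δ) then
    ee (l₂ * δ) (ρ * (l₁ - l₂) * iv (l₂ * δ) a * iv (l₂ * δ) M) else 0, ?_, fun t ht => ?_⟩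
  · split_ifs
    · exact (abs_ee _ _).le
    · simp
  have hN : l₁ * (c₁ + l₂ * δ * e * R * t) - l₂ * (M * δ) = e * (a + l₂ * δ * (l₁ * R * t)) := by
    linear_combination ha
  have hw : (l₂ * δ * (l₁ * R * t)).degree < A := by
    refine lt_of_le_of_lt ?_ ht
    rw [show l₁ * (l₂ * δ * e * R * t) = l₂ * δ * (l₁ * R * t) * e by ring]
    exact degree_le_mul_left _ he
  have hG : Good l₁ (c₁ + l₂ * δ * e * R * t) l₂ (M * δ) ↔ Good l₁ c₁ l₂ (M * δ) := by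
    unfold Good
    rw [dvd_add_left (show l₂ ∣ l₂ * δ * e * R * t from ⟨δ * e * R * t, by ring⟩)]
  have hc1 : IsCoprime (a + l₂ * δ * (l₁ * R * t)) (l₂ * δ) ↔ IsCoprime a (l₂ * δ) :=
    IsCoprime.add_mul_left_left_iff
  have hc2 : IsCoprime (a + l₂ * δ * (l₁ * R * t)) M ↔ IsCoprime (c₁ + l₂ * δ * e * R * t) M := by
    have : IsCoprime (e * (a + l₂ * δ * (l₁ * R * t))) M ↔
        IsCoprime (l₁ * (c₁ + l₂ * δ * e * R * t)) M := by
      rw [← hN, show l₁ * (c₁ + l₂ * δ * e * R * t) - l₂ * (M * δ) =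
        l₁ * (c₁ + l₂ * δ * e * R * t) + M * (-(l₂ * δ)) by ring]
      exact IsCoprime.add_mul_left_left_iff
    rwa [IsCoprime.mul_left_iff, IsCoprime.mul_left_iff, and_iff_right h1, and_iff_right h2] at this
  rw [gg, hN, mul_div_cancel_left₀ _ he, show l₂ * (M * δ) = M * (l₂ * δ) by ring]
  simp only [hG, b4a_mon hw, dvd_mul_right e, true_and]
  generalize c₁ + l₂ * δ * e * R * t = c at *
  by_cases p1 : Good l₁ c₁ l₂ (M * δ) ∧ a ∈ mon k A
  swap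
  · rw [if_neg p1, if_neg fun h => p1 h.1, zero_mul]
  rw [if_pos p1, kf, kf]
  simp only [p1, true_and, IsCoprime.mul_right_iff (y := M), hc1, hc2]
  by_cases p2 : IsCoprime a (l₂ * δ)
  swap
  · rw [if_neg fun h => p2 h.2, if_neg p2, zero_mul]
  by_cases p3 : IsCoprime c M
  swap
  · rw [if_neg fun h => p3 h.1, if_neg p3, mul_zero]
  rw [if_pos ⟨p3, p2⟩, if_pos p2, if_pos p3, ee_crt hM (hl.mul hδ) h3, mul_comm]
  have hu := iv_spec ((hc2.2 p3).mul_right (hc1.2 p2))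
  generalize iv (M * (l₂ * δ)) (a + l₂ * δ * (l₁ * R * t)) = u at *
  congr 1
  · refine ee_congr (hl.mul hδ) ?_
    have h5 : l₂ * δ ∣ a * u - 1 := by
      have : a * u - 1 = (a + l₂ * δ * (l₁ * R * t)) * u - 1 - l₂ * δ * (l₁ * R * t * u) := by ring
      rw [this]
      exact dvd_sub ((dvd_mul_left _ _).trans hu) (dvd_mul_right _ _)
    rw [← sub_mul, ← mul_sub]
    exact ((b4a_inv h5 (iv_spec p2)).mul_left _).mul_right _
  · refine ee_congr hM ?_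
    have h5 : M ∣ (a + l₂ * δ * (l₁ * R * t)) * (e * iv M l₁ * iv M c) - 1 := by
      obtain ⟨x, hx⟩ := iv_spec h1
      obtain ⟨z, hz⟩ := iv_spec p3
      exact ⟨x * (c * iv M c) + z - l₂ * δ * iv M l₁ * iv M c, by
        linear_combination (c * iv M c) * hx + hz - (iv M l₁ * iv M c) * hN⟩
    obtain ⟨x, hx⟩ := b4a_inv ((dvd_mul_right _ _).trans hu) h5
    exact ⟨ρ * (l₁ - l₂) * iv M (l₂ * δ) * x, by
      linear_combination (ρ * (l₁ - l₂) * iv M (l₂ * δ)) * hx⟩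

theorem b4a_ndiv {f : k[X]} : 1 ≤ ndiv f :=
  card_pos.2 ⟨1, mem_filter.2 ⟨mem_biUnion.2 ⟨0, by simp, mem_mon.2 ⟨monic_one, natDegree_one⟩⟩,
    one_dvd _⟩⟩

theorem bk4a [CharP k 2] {A C l W s : ℕ} {D : ℝ} (hD : DivB k C D) (hW : W ≤ l) (hAC : A ≤ C + W)
    (hCA : C ≤ A + W) (hs : 3 * C ≤ 4 * s) (ρ : k[X]) {l₁ l₂ e m₁ m₂ f c₂ : k[X]}
    (h₁ : l₁ ∈ prs k l) (h₂ : l₂ ∈ prs k l) (h₃ : m₁ ∈ prs k l) (h₄ : m₂ ∈ prs k l)
    (he : e ∈ box k (l + W)) (hf : f ∈ box k (l + W)) (hc : c₂ ∈ mon k C) (hsq : Squarefree c₂) :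
    |∑ c₁ ∈ mon k C, gg A ρ l₁ l₂ e c₁ c₂ * gg A ρ m₁ m₂ f c₁ c₂|
      ≤ D * qq k ^ (11 * l + 5 * W + s) * qq k ^ dg (ρ * del l₁ l₂ e m₁ m₂ f) c₂ := by
  have q1 : 1 ≤ qq k := le_trans (by norm_num) two_le_qq
  have q0 : 0 < qq k := by linarith
  obtain ⟨cm, cd⟩ := mem_mon.1 hc
  have D1 : 1 ≤ D := le_trans (by exact_mod_cast b4a_ndiv) (hD c₂ cm.ne_zero cd.le)
  have z : ∀ l₁ l₂ c₁ : k[X], gg A ρ l₁ l₂ 0 c₁ c₂ = 0 := fun l₁ l₂ c₁ => by
    rw [gg, if_neg]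
    rintro ⟨-, -, h⟩
    rw [EuclideanDomain.div_zero] at h
    exact (mem_mon.1 h).1.ne_zero rfl
  by_cases e0 : e = 0
  · simp only [e0, z, zero_mul, sum_const_zero, abs_zero]; positivity
  by_cases f0 : f = 0
  · simp only [f0, z, mul_zero, sum_const_zero, abs_zero]; positivity
  have pm : ∀ {p : k[X]}, p ∈ prs k l → p.Monic ∧ p.natDegree = l := fun h =>
    mem_mon.1 (mem_filter.1 h).1
  obtain ⟨a1, b1⟩ := pm h₁
  obtain ⟨a2, b2⟩ := pm h₂
  obtain ⟨a3, b3⟩ := pm h₃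
  obtain ⟨a4, b4⟩ := pm h₄
  have de : e.natDegree < l + W := (natDegree_lt_iff_degree_lt e0).2 (mem_box.1 he)
  have df : f.natDegree < l + W := (natDegree_lt_iff_degree_lt f0).2 (mem_box.1 hf)
  have Z0 : e * f * (l₁ * l₂ * (m₁ * m₂)) ≠ 0 :=
    mul_ne_zero (mul_ne_zero e0 f0) ((a1.mul a2).mul (a3.mul a4)).ne_zero
  have dZ : (e * f * (l₁ * l₂ * (m₁ * m₂))).natDegree ≤ 6 * l + 2 * W := by
    rw [natDegree_mul (mul_ne_zero e0 f0) ((a1.mul a2).mul (a3.mul a4)).ne_zero,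
      natDegree_mul e0 f0, (a1.mul a2).natDegree_mul (a3.mul a4), a1.natDegree_mul a2,
      a3.natDegree_mul a4]
    omega
  obtain ⟨δ, M, hδ, hM, rfl, hδZ, hMZ⟩ : ∃ δ M : k[X], δ.Monic ∧ M.Monic ∧ c₂ = M * δ ∧
      δ ∣ e * f * (l₁ * l₂ * (m₁ * m₂)) ∧ IsCoprime M (e * f * (l₁ * l₂ * (m₁ * m₂))) := by
    have g0 : gcd c₂ (e * f * (l₁ * l₂ * (m₁ * m₂))) ≠ 0 := gcd_ne_zero_of_left cm.ne_zero
    have gm : (gcd c₂ (e * f * (l₁ * l₂ * (m₁ * m₂)))).Monic := by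
      rw [← _root_.normalize_gcd]; exact monic_normalize g0
    obtain ⟨M, hM⟩ := gcd_dvd_left c₂ (e * f * (l₁ * l₂ * (m₁ * m₂)))
    refine ⟨_, M, gm, gm.of_mul_monic_left (hM ▸ cm), hM.trans (mul_comm _ _), gcd_dvd_right _ _,
      IsRelPrime.isCoprime fun d h1 h2 => ?_⟩
    have h3 : d ∣ gcd c₂ (e * f * (l₁ * l₂ * (m₁ * m₂))) :=
      dvd_gcd (by rw [hM]; exact h1.mul_left _) h2
    exact hsq d (by rw [hM]; exact mul_dvd_mul h3 h1)
  have dδ : δ.natDegree ≤ 6 * l + 2 * W := (natDegree_le_of_dvd hδZ Z0).trans dZ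
  rw [hM.natDegree_mul hδ] at cd
  have co : ∀ {x : k[X]}, x ∣ e * f * (l₁ * l₂ * (m₁ * m₂)) → IsCoprime M x := fun h =>
    hMZ.of_isCoprime_of_dvd_right h
  have cδ := co hδZ
  have ce := co (x := e) ⟨f * (l₁ * l₂ * (m₁ * m₂)), by ring⟩
  have cf := co (x := f) ⟨e * (l₁ * l₂ * (m₁ * m₂)), by ring⟩
  have c1 := co (x := l₁) ⟨e * f * (l₂ * (m₁ * m₂)), by ring⟩
  have c2 := co (x := l₂) ⟨e * f * (l₁ * (m₁ * m₂)), by ring⟩
  have c3 := co (x := m₁) ⟨e * f * (l₁ * (l₂ * m₂)), by ring⟩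
  have c4 := co (x := m₂) ⟨e * f * (l₁ * (m₁ * l₂)), by ring⟩
  set Q := l₂ * δ * e * (m₂ * f) with hQ
  have hQ' : m₂ * δ * f * (l₂ * e) = Q := by rw [hQ]; ring
  have cQ : IsCoprime Q M := (((c2.mul_right cδ).mul_right ce).mul_right (c4.mul_right cf)).symm
  have dQ : Q.natDegree ≤ 10 * l + 4 * W := by
    rw [hQ, natDegree_mul (mul_ne_zero (a2.mul hδ).ne_zero e0) (mul_ne_zero a4.ne_zero f0),
      natDegree_mul (a2.mul hδ).ne_zero e0, a2.natDegree_mul hδ, natDegree_mul a4.ne_zero f0]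
    omega
  set y := min (A - l - Q.natDegree) M.natDegree with hy
  have dt : ∀ t ∈ box k y, ∀ p : k[X], p.natDegree = l → (p * (Q * t)).degree < A ∧
      (Q * t).degree < C := fun t ht p hp => by
    by_cases t0 : t = 0
    · simp [t0]
    have h1 : t.natDegree < y := (natDegree_lt_iff_degree_lt t0).2 (mem_box.1 ht)
    have h2 := natDegree_mul_le (p := Q) (q := t)
    have h3 := natDegree_mul_le (p := p) (q := Q * t)
    exact ⟨degree_le_natDegree.trans_lt (Nat.cast_lt.2 (by omega)),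
      degree_le_natDegree.trans_lt (Nat.cast_lt.2 (by omega))⟩
  set b := ρ * (l₁ - l₂) * e * iv M l₁ * iv M (l₂ * δ) + ρ * (m₁ - m₂) * f * iv M m₁ * iv M (m₂ * δ)
    with hb
  have hg : dg b M ≤ dg (ρ * del l₁ l₂ e m₁ m₂ f) (M * δ) := by
    refine natDegree_le_of_dvd (EuclideanDomain.dvd_gcd ?_
      ((EuclideanDomain.gcd_dvd_right b M).mul_right _))
      fun h => cm.ne_zero (EuclideanDomain.gcd_eq_zero_iff.1 h).2
    obtain ⟨x₁, y₁⟩ := iv_spec c1.symm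
    obtain ⟨x₂, y₂⟩ := iv_spec (c2.mul_right cδ).symm
    obtain ⟨x₃, y₃⟩ := iv_spec c3.symm
    obtain ⟨x₄, y₄⟩ := iv_spec (c4.mul_right cδ).symm
    have : ρ * del l₁ l₂ e m₁ m₂ f = b * (l₁ * l₂ * m₁ * m₂ * δ) - M *
        (ρ * (l₁ - l₂) * e * m₁ * m₂ * (x₁ * (l₂ * δ * iv M (l₂ * δ)) + x₂) +
          ρ * (m₁ - m₂) * f * l₁ * l₂ * (x₃ * (m₂ * δ * iv M (m₂ * δ)) + x₄)) := by
      rw [hb, del]
      linear_combination (-(ρ * (l₁ - l₂) * e * m₁ * m₂ * (l₂ * δ * iv M (l₂ * δ)))) * y₁ -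
        (ρ * (l₁ - l₂) * e * m₁ * m₂) * y₂ -
        (ρ * (m₁ - m₂) * f * l₁ * l₂ * (m₂ * δ * iv M (m₂ * δ))) * y₃ -
        (ρ * (m₁ - m₂) * f * l₁ * l₂) * y₄ -
        (ρ * (m₁ - m₂) * f * l₁ * l₂) * (CharTwo.two_eq_zero : (2 : k[X]) = 0)
    rw [this]
    exact dvd_sub ((EuclideanDomain.gcd_dvd_left b M).mul_right _)
      ((EuclideanDomain.gcd_dvd_right b M).mul_right _)
  set g := dg (ρ * del l₁ l₂ e m₁ m₂ f) (M * δ)
  have kb : ∀ c, |∑ t ∈ box k y, kf b (c + Q * t) M| ≤ D * qq k ^ s * qq k ^ g := fun c => by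
    refine le_of_pow_le_pow_left₀ (by norm_num : 4 ≠ 0) (by positivity) ?_
    rw [(by decide : Even 4).pow_abs]
    refine (kloo_inc hM (Squarefree.of_mul_left hsq) cQ (min_le_right _ _) b c).trans ?_
    have n1 : (ndiv M : ℝ) ^ 3 ≤ D ^ 4 :=
      (pow_le_pow_left₀ (by positivity) (hD M hM.ne_zero (by omega)) 3).trans
        (pow_le_pow_right₀ D1 (by norm_num))
    have n2 : qq k ^ dg b M ≤ (qq k ^ g) ^ 4 := by
      rw [← pow_mul]; exact pow_le_pow_right₀ q1 (by omega)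
    have n3 : qq k ^ (3 * M.natDegree) ≤ (qq k ^ s) ^ 4 := by
      rw [← pow_mul]; exact pow_le_pow_right₀ q1 (by omega)
    rw [mul_pow, mul_pow, mul_right_comm (D ^ 4)]
    gcongr
  set F : k[X] → ℝ := fun c => gg A ρ l₁ l₂ e c (M * δ) * gg A ρ m₁ m₂ f c (M * δ) with hF
  have line : ∀ c, |∑ t ∈ box k y, F (c + Q * t)| ≤ D * qq k ^ s * qq k ^ g := fun c => by
    obtain ⟨g₁, p₁, r₁⟩ := b4a_one (A := A) ρ c (m₂ * f) e0 hM hδ a2 c1.symm ce.symm (c2.mul_right cδ)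
    obtain ⟨g₂, p₂, r₂⟩ := b4a_one (A := A) ρ c (l₂ * e) f0 hM hδ a4 c3.symm cf.symm (c4.mul_right cδ)
    rw [hQ'] at r₂
    rw [sum_congr rfl (g := fun t => g₁ * g₂ * kf b (c + Q * t) M) fun t ht => by
      rw [hF]
      simp only
      rw [r₁ t (dt t ht l₁ b1).1, r₂ t (dt t ht m₁ b3).1, mul_mul_mul_comm, b4a_kf], ← mul_sum,
      abs_mul, abs_mul]
    exact (mul_le_of_le_one_left (abs_nonneg _) (mul_le_one₀ p₁ (abs_nonneg _) p₂)).trans (kb c)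
  have avg : qq k ^ y * ∑ c ∈ mon k C, F c = ∑ c ∈ mon k C, ∑ t ∈ box k y, F (c + Q * t) := by
    rw [sum_comm, ← card_box, ← nsmul_eq_mul, ← sum_const]
    refine sum_congr rfl fun t ht => ?_
    have := exp_mon_shift (dt t ht l₁ b1).2 F
    rw [expect_eq_sum_div_card, expect_eq_sum_div_card, card_mon,
      div_left_inj' (pow_pos q0 C).ne'] at this
    exact this.symm
  refine le_of_mul_le_mul_left ?_ (pow_pos q0 y)
  rw [← abs_of_pos (pow_pos q0 y), ← abs_mul, avg, abs_of_pos (pow_pos q0 y)]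
  refine (abs_sum_le_sum_abs _ _).trans ((sum_le_sum fun c _ => line c).trans ?_)
  rw [sum_const, nsmul_eq_mul, card_mon]
  have : qq k ^ C ≤ qq k ^ (y + (11 * l + 5 * W)) := pow_le_pow_right₀ q1 (by omega)
  calc qq k ^ C * (D * qq k ^ s * qq k ^ g)
      ≤ qq k ^ (y + (11 * l + 5 * W)) * (D * qq k ^ s * qq k ^ g) := by gcongr
    _ = _ := by ring


end Pool.Agent.MP_b5e119_nt.BK
end
end

section
open Polynomial Finset
open scoped Classical BigOperators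

noncomputable section
namespace Pool.Agent.MP_b5e119_nt.BK
open Pool.Agent.MP_a4a062_nt.C2

variable {k : Type*} [Field k] [Fintype k]

theorem bk4b_mul (C : ℕ) {d : k[X]} (hd : d.Monic) :
    ∑ c ∈ mon k C, (if d ∣ c then qq k ^ d.natDegree else 0) ≤ qq k ^ C := by
  have hq : (0 : ℝ) ≤ qq k := le_trans zero_le_two two_le_qq
  rw [← sum_filter, sum_const, nsmul_eq_mul]
  by_cases h : d.natDegree ≤ C
  · have : #{c ∈ mon k C | d ∣ c} ≤ #(mon k (C - d.natDegree)) := by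
      refine le_trans (card_le_card fun c hc => ?_) (card_image_le (f := fun x => d * x))
      obtain ⟨hc, x, rfl⟩ := mem_filter.1 hc
      rw [mem_mon] at hc
      have hx : x.Monic := hd.of_mul_monic_left hc.1
      refine mem_image.2 ⟨x, mem_mon.2 ⟨hx, ?_⟩, rfl⟩
      have := hc.2
      rw [hd.natDegree_mul hx] at this
      omega
    have h2 : (#{c ∈ mon k C | d ∣ c} : ℝ) ≤ qq k ^ (C - d.natDegree) := by
      rw [← card_mon]; exact_mod_cast this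
    calc _ ≤ qq k ^ (C - d.natDegree) * qq k ^ d.natDegree :=
          mul_le_mul_of_nonneg_right h2 (by positivity)
      _ = _ := by rw [← pow_add, Nat.sub_add_cancel h]
  · have : ({c ∈ mon k C | d ∣ c} : Finset k[X]) = ∅ := by
      refine filter_eq_empty_iff.2 fun c hc hdc => h ?_
      rw [mem_mon] at hc
      rw [← hc.2]; exact natDegree_le_of_dvd hdc hc.1.ne_zero
    rw [this]; simp only [card_empty, Nat.cast_zero, zero_mul]; positivity

theorem bk4b (C : ℕ) {x : k[X]} (hx : x ≠ 0) :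
    ∑ c ∈ mon k C, qq k ^ dg x c ≤ (ndiv x : ℝ) * qq k ^ C := by
  have hq : (0 : ℝ) ≤ qq k := le_trans zero_le_two two_le_qq
  have key : ∀ c ∈ mon k C, qq k ^ dg x c ≤
      ∑ d ∈ (range (x.natDegree + 1)).biUnion (mon k) with d ∣ x,
        (if d ∣ c then qq k ^ d.natDegree else 0) := by
    intro c _
    have g0 : EuclideanDomain.gcd x c ≠ 0 := fun h => hx (EuclideanDomain.gcd_eq_zero_iff.1 h).1
    have hm : (normalize (EuclideanDomain.gcd x c)).Monic := monic_normalize g0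
    have ha := normalize_associated (EuclideanDomain.gcd x c)
    have d1 : normalize (EuclideanDomain.gcd x c) ∣ x :=
      ha.dvd.trans (EuclideanDomain.gcd_dvd_left _ _)
    have d2 : normalize (EuclideanDomain.gcd x c) ∣ c :=
      ha.dvd.trans (EuclideanDomain.gcd_dvd_right _ _)
    refine le_trans ?_ (single_le_sum (f := fun d => if d ∣ c then qq k ^ d.natDegree else 0)
      (fun d _ => by split_ifs <;> positivity) (a := normalize (EuclideanDomain.gcd x c)) ?_)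
    · rw [if_pos d2, natDegree_eq_of_degree_eq (degree_eq_degree_of_associated ha)]
      exact le_rfl
    · refine mem_filter.2 ⟨mem_biUnion.2 ⟨_, mem_range.2 ?_, mem_mon.2 ⟨hm, rfl⟩⟩, d1⟩
      exact Nat.lt_succ_of_le (natDegree_le_of_dvd d1 hx)
  refine (sum_le_sum key).trans ?_
  rw [sum_comm, ndiv, ← nsmul_eq_mul, ← sum_const]
  refine sum_le_sum fun d hd => bk4b_mul C ?_
  obtain ⟨n, -, hn⟩ := mem_biUnion.1 (mem_filter.1 hd).1
  exact (mem_mon.1 hn).1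

theorem bk4c_ne {l : ℕ} {p r : k[X]} (hp : p ∈ prs k l) (hr : r ∈ prs k l) (h : p ∣ r) : p = r := by
  obtain ⟨hp, hp'⟩ := mem_filter.1 hp
  obtain ⟨hr, hr'⟩ := mem_filter.1 hr
  exact eq_of_monic_of_associated (mem_mon.1 hp).1 (mem_mon.1 hr).1
    (hp'.associated_of_dvd hr' h)

theorem bk4c_gg {A : ℕ} {ρ l₁ l₂ e c₁ c₂ : k[X]} (h : gg A ρ l₁ l₂ e c₁ c₂ ≠ 0) :
    Good l₁ c₁ l₂ c₂ ∧ e ∣ l₁ * c₁ - l₂ * c₂ ∧ (l₁ * c₁ - l₂ * c₂) / e ∈ mon k A := by
  by_contra hc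
  exact h (by unfold gg; rw [if_neg hc])

theorem bk4c {A C l E : ℕ} {D : ℝ} (hD : DivB k (l + C) D) (hl : 0 < l) (ρ : k[X])
    {c₁ c₂ : k[X]} (h₁ : c₁ ∈ mon k C) (h₂ : c₂ ∈ mon k C) :
    ∑ l₁ ∈ prs k l, ∑ l₂ ∈ prs k l, ∑ e ∈ box k E, ∑ m₁ ∈ prs k l, ∑ m₂ ∈ prs k l, ∑ f ∈ box k E,
      (if del l₁ l₂ e m₁ m₂ f = 0 then |gg A ρ l₁ l₂ e c₁ c₂| * |gg A ρ m₁ m₂ f c₁ c₂| else 0)
      ≤ 2 * D * qq k ^ (3 * l) := by
  have hq : (0 : ℝ) ≤ qq k := le_trans zero_le_two two_le_qq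
  have hP : (#(prs k l) : ℝ) ≤ qq k ^ l := by
    rw [← card_mon]; exact_mod_cast card_filter_le _ _
  have hD0 : 0 ≤ D := le_trans (Nat.cast_nonneg _) (hD 1 one_ne_zero (by simp))
  have inner : ∀ l₁ ∈ prs k l, ∀ l₂ ∈ prs k l, ∀ e ∈ box k E,
      ∑ m₁ ∈ prs k l, ∑ m₂ ∈ prs k l, ∑ f ∈ box k E,
      (if del l₁ l₂ e m₁ m₂ f = 0 then |gg A ρ l₁ l₂ e c₁ c₂| * |gg A ρ m₁ m₂ f c₁ c₂| else 0)
      ≤ |gg A ρ l₁ l₂ e c₁ c₂| * (2 * qq k ^ l) := by
    intro l₁ p₁ l₂ p₂ e _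
    by_cases h0 : gg A ρ l₁ l₂ e c₁ c₂ = 0
    · simp [h0]
    obtain ⟨⟨g1, g2, -⟩, g3, -⟩ := bk4c_gg h0
    have i₁ : Irreducible l₁ := (mem_filter.1 p₁).2
    have i₂ : Irreducible l₂ := (mem_filter.1 p₂).2
    have n12 : ¬ l₁ ∣ l₂ := fun h => g1 (bk4c_ne p₁ p₂ h)
    have step : ∀ m₁ ∈ prs k l, ∀ m₂ ∈ prs k l, ∑ f ∈ box k E,
        (if del l₁ l₂ e m₁ m₂ f = 0 then |gg A ρ l₁ l₂ e c₁ c₂| * |gg A ρ m₁ m₂ f c₁ c₂| else 0)
        ≤ |gg A ρ l₁ l₂ e c₁ c₂| *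
          ((if l₁ = m₁ then (1 : ℝ) else 0) + if l₁ = m₂ then (1 : ℝ) else 0) := by
      intro m₁ r₁ m₂ r₂
      by_cases hex : ∃ f₀, del l₁ l₂ e m₁ m₂ f₀ = 0 ∧ gg A ρ m₁ m₂ f₀ c₁ c₂ ≠ 0
      · obtain ⟨f₀, e₀, n₀⟩ := hex
        have m12 : m₁ ≠ m₂ := (bk4c_gg n₀).1.1
        have hdv : l₁ ∣ (l₁ - l₂) * e * m₁ * m₂ :=
          ⟨(m₁ - m₂) * f₀ * l₂, by unfold del at e₀; linear_combination e₀⟩
        have hor : l₁ = m₁ ∨ l₁ = m₂ := by
          rcases i₁.prime.dvd_or_dvd hdv with h | h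
          · rcases i₁.prime.dvd_or_dvd h with h | h
            · rcases i₁.prime.dvd_or_dvd h with h | h
              · exact absurd ((dvd_sub_right dvd_rfl).1 h) n12
              · have : l₁ ∣ l₂ * c₂ := (dvd_sub_right (dvd_mul_right l₁ c₁)).1 (h.trans g3)
                exact ((i₁.prime.dvd_or_dvd this).elim n12 g2).elim
            · exact Or.inl (bk4c_ne p₁ r₁ h)
          · exact Or.inr (bk4c_ne p₁ r₂ h)
        have one : (1 : ℝ) ≤ (if l₁ = m₁ then (1 : ℝ) else 0) + if l₁ = m₂ then (1 : ℝ) else 0 := by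
          rcases hor with h | h <;> rw [if_pos h] <;> split_ifs <;> norm_num
        refine le_trans ?_ (le_mul_of_one_le_right (abs_nonneg _) one)
        calc _ ≤ ∑ f ∈ box k E, (if f₀ = f then |gg A ρ l₁ l₂ e c₁ c₂| else 0) := by
              refine sum_le_sum fun f _ => ?_
              by_cases hf : del l₁ l₂ e m₁ m₂ f = 0
              · have : (m₁ - m₂) * l₁ * l₂ * (f₀ - f) = 0 := by
                  unfold del at e₀ hf; linear_combination hf - e₀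
                have ff : f₀ = f := sub_eq_zero.1 ((mul_eq_zero.1 this).resolve_left
                  (mul_ne_zero (mul_ne_zero (sub_ne_zero.2 m12) i₁.ne_zero) i₂.ne_zero))
                rw [if_pos hf, if_pos ff]
                exact mul_le_of_le_one_right (abs_nonneg _) (abs_gg_le _ _ _ _ _ _ _)
              · rw [if_neg hf]; split_ifs <;> simp
          _ ≤ _ := by rw [sum_ite_eq]; split_ifs <;> simp
      · push Not at hex
        refine le_trans (le_of_eq (sum_eq_zero fun f _ => ?_)) (by positivity)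
        split_ifs with hf
        · rw [hex f hf, abs_zero, mul_zero]
        · rfl
    refine (sum_le_sum fun m₁ r₁ => sum_le_sum fun m₂ r₂ => step m₁ r₁ m₂ r₂).trans ?_
    simp only [← mul_sum, sum_add_distrib, sum_ite_eq, if_pos p₁, sum_const, nsmul_eq_mul,
      mul_one]
    refine mul_le_mul_of_nonneg_left ?_ (abs_nonneg _)
    linarith
  have mid : ∀ l₁ ∈ prs k l, ∀ l₂ ∈ prs k l, ∑ e ∈ box k E, |gg A ρ l₁ l₂ e c₁ c₂| ≤ D := by
    intro l₁ p₁ l₂ p₂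
    by_cases hN : l₁ * c₁ - l₂ * c₂ = 0
    · refine le_trans (le_of_eq (sum_eq_zero fun e _ => ?_)) hD0
      by_contra h
      have := (mem_mon.1 (bk4c_gg (abs_ne_zero.1 h)).2.2).1
      rw [hN, EuclideanDomain.zero_div] at this
      exact this.ne_zero rfl
    have hdeg : (l₁ * c₁ - l₂ * c₂).natDegree ≤ l + C := by
      have a1 := (mem_mon.1 (mem_filter.1 p₁).1).2
      have a2 := (mem_mon.1 (mem_filter.1 p₂).1).2
      have a3 := (mem_mon.1 h₁).2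
      have a4 := (mem_mon.1 h₂).2
      have b1 := natDegree_mul_le (p := l₁) (q := c₁)
      have b2 := natDegree_mul_le (p := l₂) (q := c₂)
      exact (natDegree_sub_le _ _).trans (max_le (by omega) (by omega))
    refine le_trans ?_ ((card_dvd_le A hN).trans (hD _ hN hdeg))
    rw [← sum_filter_ne_zero, sum_boole]
    refine (sum_le_card_nsmul _ _ 1 fun e _ => abs_gg_le _ _ _ _ _ _ _).trans ?_
    rw [nsmul_eq_mul, mul_one, Nat.cast_le]
    refine card_le_card_of_injOn (fun e => (l₁ * c₁ - l₂ * c₂) / e) (fun e he => ?_)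
      fun e he e' he' hee => ?_
    · obtain ⟨-, g1, g2⟩ := bk4c_gg (abs_ne_zero.1 (mem_filter.1 (mem_coe.1 he)).2)
      exact mem_coe.2 (mem_filter.2 ⟨g2, EuclideanDomain.div_dvd_of_dvd g1⟩)
    · obtain ⟨-, g1, g2⟩ := bk4c_gg (abs_ne_zero.1 (mem_filter.1 (mem_coe.1 he)).2)
      obtain ⟨-, g3, -⟩ := bk4c_gg (abs_ne_zero.1 (mem_filter.1 (mem_coe.1 he')).2)
      have e0 : e ≠ 0 := fun h => hN (zero_dvd_iff.1 (h ▸ g1))
      have e0' : e' ≠ 0 := fun h => hN (zero_dvd_iff.1 (h ▸ g3))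
      have u1 := EuclideanDomain.mul_div_cancel' e0 g1
      have u2 := EuclideanDomain.mul_div_cancel' e0' g3
      simp only at hee
      rw [← hee] at u2
      exact mul_right_cancel₀ (mem_mon.1 g2).1.ne_zero (u1.trans u2.symm)
  calc _ ≤ ∑ l₁ ∈ prs k l, ∑ l₂ ∈ prs k l, D * (2 * qq k ^ l) := by
        refine sum_le_sum fun l₁ p₁ => sum_le_sum fun l₂ p₂ => ?_
        refine (sum_le_sum (inner l₁ p₁ l₂ p₂)).trans ?_
        rw [← sum_mul]
        exact mul_le_mul_of_nonneg_right (mid l₁ p₁ l₂ p₂) (by positivity)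
    _ ≤ qq k ^ l * (qq k ^ l * (D * (2 * qq k ^ l))) := by
        rw [sum_const, sum_const, nsmul_eq_mul, nsmul_eq_mul]
        gcongr
    _ = _ := by ring


end Pool.Agent.MP_b5e119_nt.BK
end
end
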