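import Pool.Agent.MP_b5e119_nt.GB.Brun48

/-! Definitions and interface statements for binary Goldbach over `k[X]`, `char k = 2`. -/

set_option autoImplicit false

open Polynomial Finset Filter
open scoped Classical BigOperators

noncomputable section
namespace Pool.Agent.HGB
open Pool.Agent.MP_a4a062_nt.C2

section
variable {k : Type*} [Field k] [Fintype k]

/-- The indicator of `Rough`. -/
def rho (z : ℕ) (f : k[X]) : ℝ := if Rough z f then 1 else 0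

/-- The Moebius function. -/
def mu (f : k[X]) : ℝ := if Squarefree f then lam f else 0

/-- Sum of `Φ` over monic `a, b, c, d` of degrees `i, be, j, de` with `a b + c d = F`. -/
def S4 (F : k[X]) (i be j de : ℕ) (Φ : k[X] → k[X] → k[X] → k[X] → ℝ) : ℝ :=
  ∑ a ∈ mon k i, ∑ b ∈ mon k be, ∑ c ∈ mon k j, ∑ d ∈ mon k de,
    if a * b + c * d = F then Φ a b c d else 0

/-- The cell sum. -/
def TT (z : ℕ) (F : k[X]) (i be j de : ℕ) : ℝ :=
  S4 F i be j de fun a b c d => rho z a * rho z b * rho z c * rho z d * (mu a * mu c)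

/-- Rough quadruples that are not clean. -/
def BAD (z : ℕ) (F : k[X]) (i be j de : ℕ) : ℝ :=
  S4 F i be j de fun a b c d => rho z a * rho z b * rho z c * rho z d *
    (if Squarefree (a * b) ∧ Squarefree (c * d) ∧ IsCoprime (a * b) (c * d) then 0 else 1)

variable (k) in
/-- The normalised Moebius sum over rough polynomials of degree `i`. -/
def mm (z i : ℕ) : ℝ := (∑ a ∈ mon k i, rho z a * mu a) / qq k ^ i

/-- The sieve density. -/
def VV (z u : ℕ) (F : k[X]) (m : ℕ) : ℝ := (∑ g ∈ mon k m, brun z u (F - g) * brun z u g) / qq k ^ m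

/-- The number of monic `g` of degree `m` with `A ∣ F - g`, `C ∣ g`. -/
def cn (F : k[X]) (m : ℕ) (A C : k[X]) : ℝ := #{g ∈ mon k m | A ∣ F - g ∧ C ∣ g}

/-- The degrees of a cell at height `N`. -/
def Cell (F : k[X]) (N i be j de : ℕ) : Prop :=
  F ≠ 0 ∧ F.natDegree ≤ N + 1 ∧ N ≤ i + be ∧ i + be ≤ N + 1 ∧ N ≤ j + de ∧ j + de ≤ N + 1

end

variable (k : Type*) [Field k] [Fintype k]

/-- Range IV (bilinear Kloosterman fractions, arbitrary coefficients; contains the exact range). -/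
def HIV : Prop := ∃ κ : ℕ, 0 < κ ∧ ∀ᶠ m in atTop, ∀ (F : k[X]) (i j : ℕ) (α β : k[X] → ℝ),
  F ≠ 0 → F.natDegree ≤ m + 1 → i ≤ j + m / κ → j ≤ i + m / κ → i + j ≤ m + m / κ →
  (∀ a, |α a| ≤ 1) → (∀ c, |β c| ≤ 1) →
  |∑ a ∈ mon k i, ∑ c ∈ mon k j, if IsCoprime a c ∧ Squarefree a ∧ Squarefree c then
      α a * β c * (cn F m a c - qq k ^ m / qq k ^ (i + j)) else 0|
    ≤ qq k ^ (m - m / κ)

/-- Method 1: `t ≤ de - be ≤ i - de`, `i - de ≥ N / κ`; here `z = t ^ 7`. -/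
def HM1 : Prop := ∀ κ : ℕ, 0 < κ → ∀ᶠ t in atTop, ∀ (N : ℕ) (F : k[X]) (i be j de : ℕ),
  t ^ 10 ≤ N → N ≤ (t + 1) ^ 10 → Cell F N i be j de →
  be + t ≤ de → 2 * de ≤ i + be → de + N / κ ≤ i →
  |TT (t ^ 7) F i be j de| ≤ qq k ^ N / (N : ℝ) ^ 5

/-- Method 2: `i - de ≤ de - be`, `de - be ≥ N / κ`; here `z = t ^ 7`. -/
def HM2 : Prop := ∀ κ : ℕ, 0 < κ → ∀ᶠ t in atTop, ∀ (N : ℕ) (F : k[X]) (i be j de : ℕ),
  t ^ 10 ≤ N → N ≤ (t + 1) ^ 10 → Cell F N i be j de →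
  i + be ≤ 2 * de → be + N / κ ≤ de →
  |TT (t ^ 7) F i be j de| ≤ qq k ^ N / (N : ℝ) ^ 5

/-- The local condition: no prime of norm two is forced to divide `g (F - g)`. -/
def Even2 (F : k[X]) : Prop := Fintype.card k = 2 → X * (X + 1) ∣ F

/-- The goal: many prime pairs `P + Q = F`, `deg P = n`, `deg Q = m`. -/
def GOAL : Prop := ∃ c : ℝ, 0 < c ∧ ∀ᶠ m in atTop, ∀ (n : ℕ) (F : k[X]), F ≠ 0 → m ≤ n → n ≤ m + 1 →
  (∀ g ∈ mon k m, F - g ∈ mon k n) → Even2 k F →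
  c * qq k ^ m / (m : ℝ) ^ 2 ≤ #{g ∈ prs k m | Irreducible (F - g)}

end Pool.Agent.HGB
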