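import Pool.Agent.MP_b5e119_nt.GB.BK2
import Pool.Agent.MP_b5e119_nt.GB.Defs

/-! The bilinear bound for Kloosterman fractions and the centre range. -/

set_option autoImplicit false

section
open Polynomial Finset
open scoped Classical BigOperators

noncomputable section
namespace Pool.Agent.MP_b5e119_nt.BK
open Pool.Agent.MP_a4a062_nt.C2

variable {k : Type*} [Field k] [Fintype k]

theorem d_reidx {A E : ℕ} {N : k[X]} (hN : N ≠ 0) (hd : N.natDegree < A + E) (φ : k[X] → ℝ) :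
    ∑ a ∈ mon k A, (if a ∣ N then φ a else 0)
      = ∑ e ∈ box k E, if e ∣ N ∧ N / e ∈ mon k A then φ (N / e) else 0 := by
  rw [← sum_filter, ← sum_filter]
  refine sum_bij' (fun a _ => N / a) (fun e _ => N / e) ?_ ?_ ?_ ?_ ?_
  · intro a ha
    obtain ⟨h1, e, rfl⟩ := mem_filter.1 ha
    obtain ⟨h2, h3⟩ := mem_mon.1 h1
    have he : e ≠ 0 := right_ne_zero_of_mul hN
    rw [mul_div_cancel_left₀ _ h2.ne_zero]
    refine mem_filter.2 ⟨mem_box.2 ((natDegree_lt_iff_degree_lt he).1 ?_), dvd_mul_left _ _, ?_⟩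
    · rw [natDegree_mul h2.ne_zero he] at hd
      omega
    · rwa [mul_div_cancel_right₀ _ he]
  · intro e he
    obtain ⟨_, ⟨a, rfl⟩, h2⟩ := mem_filter.1 he
    have he0 : e ≠ 0 := left_ne_zero_of_mul hN
    rw [mul_div_cancel_left₀ _ he0] at h2 ⊢
    exact mem_filter.2 ⟨h2, dvd_mul_left _ _⟩
  · intro a ha
    obtain ⟨_, e, rfl⟩ := mem_filter.1 ha
    rw [mul_div_cancel_left₀ _ (left_ne_zero_of_mul hN),
      mul_div_cancel_right₀ _ (right_ne_zero_of_mul hN)]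
  · intro e he
    obtain ⟨_, ⟨a, rfl⟩, _⟩ := mem_filter.1 he
    rw [mul_div_cancel_left₀ _ (left_ne_zero_of_mul hN),
      mul_div_cancel_right₀ _ (right_ne_zero_of_mul hN)]
  · intro a ha
    obtain ⟨_, e, rfl⟩ := mem_filter.1 ha
    rw [mul_div_cancel_left₀ _ (left_ne_zero_of_mul hN),
      mul_div_cancel_right₀ _ (right_ne_zero_of_mul hN)]

theorem d_prs {l : ℕ} {p : k[X]} (hp : p ∈ prs k l) : p.Monic ∧ p.natDegree = l ∧ Irreducible p :=
  ⟨(mem_mon.1 (mem_filter.1 hp).1).1, (mem_mon.1 (mem_filter.1 hp).1).2, (mem_filter.1 hp).2⟩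

theorem d_card_prs (l : ℕ) : (#(prs k l) : ℝ) ≤ qq k ^ l := by
  rw [← card_mon]
  exact_mod_cast card_filter_le _ _

theorem d_good {C l : ℕ} {c₁ c₂ l₁ l₂ : k[X]} (h₁ : c₁ ∈ mon k C) (h₂ : c₂ ∈ mon k C)
    (h₃ : l₁ ∈ prs k l) (h₄ : l₂ ∈ prs k l) (hg : Good l₁ c₁ l₂ c₂) :
    l₁ * c₁ - l₂ * c₂ ≠ 0 ∧ (l₁ * c₁ - l₂ * c₂).natDegree < l + C := by
  obtain ⟨a1, a2, a3⟩ := d_prs h₃
  obtain ⟨b1, b2, b3⟩ := d_prs h₄
  obtain ⟨e1, e2⟩ := mem_mon.1 h₁
  obtain ⟨f1, f2⟩ := mem_mon.1 h₂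
  have h0 : l₁ * c₁ - l₂ * c₂ ≠ 0 := by
    intro h
    have h5 : l₁ ∣ l₂ * c₂ := ⟨c₁, (sub_eq_zero.1 h).symm⟩
    rcases a3.prime.dvd_or_dvd h5 with h6 | h6
    · exact hg.1 (eq_of_monic_of_associated a1 b1 (a3.associated_of_dvd b3 h6))
    · exact hg.2.1 h6
  refine ⟨h0, (natDegree_lt_iff_degree_lt h0).2 ?_⟩
  have h7 : (l₁ * c₁).natDegree = l + C := by rw [a1.natDegree_mul e1, a2, e2]
  have h8 : (l₂ * c₂).natDegree = l + C := by rw [b1.natDegree_mul f1, b2, f2]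
  have h9 := degree_sub_lt_left (p := l₁ * c₁) (q := l₂ * c₂)
    (by rw [degree_eq_natDegree (a1.mul e1).ne_zero, degree_eq_natDegree (b1.mul f1).ne_zero, h7, h8])
    (a1.mul e1).ne_zero (by rw [(a1.mul e1).leadingCoeff, (b1.mul f1).leadingCoeff])
  rwa [degree_eq_natDegree (a1.mul e1).ne_zero, h7] at h9

theorem d_deg {l E : ℕ} {l₁ l₂ e m₁ m₂ : k[X]} (h₁ : l₁ ∈ prs k l) (h₂ : l₂ ∈ prs k l)
    (h₃ : m₁ ∈ prs k l) (h₄ : m₂ ∈ prs k l) (he : e ∈ box k E) :
    ((l₁ - l₂) * e * m₁ * m₂).natDegree ≤ 3 * l + E := by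
  have a1 := (d_prs h₁).2.1
  have a2 := (d_prs h₂).2.1
  have a3 := (d_prs h₃).2.1
  have a4 := (d_prs h₄).2.1
  have a5 : e.natDegree ≤ E := natDegree_le_of_degree_le (mem_box.1 he).le
  have a6 := natDegree_sub_le l₁ l₂
  have a7 := natDegree_mul_le (p := l₁ - l₂) (q := e)
  have a8 := natDegree_mul_le (p := (l₁ - l₂) * e) (q := m₁)
  have a9 := natDegree_mul_le (p := (l₁ - l₂) * e * m₁) (q := m₂)
  omega

theorem bk4d [CharP k 2] {A C l W s : ℕ} {D : ℝ} (hD : DivB k (A + C + 4 * l + W) D) (hC : 0 < C)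
    (hl : 0 < l) (hW : W ≤ l) (hAC : A ≤ C + W) (hCA : C ≤ A + W) (hs : 3 * C ≤ 4 * s) {ρ : k[X]}
    (hρ0 : ρ ≠ 0) (hρ : ρ.natDegree ≤ A + C) (β : k[X] → ℝ) (hβ : ∀ c, |β c| ≤ 1)
    (hβs : ∀ c, β c ≠ 0 → Squarefree c) :
    (off A C l fun a c => β c * kf ρ a c) ^ 2
      ≤ D ^ 2 * (2 * qq k ^ (4 * C + 3 * l) + qq k ^ (3 * C + 17 * l + 7 * W + s)) := by
  have h2 := two_le_qq (k := k)
  have hq1 : (1 : ℝ) ≤ qq k := by linarith
  have hD1 : 1 ≤ D := by
    refine le_trans ?_ (hD 1 one_ne_zero (by simp))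
    refine le_trans ?_ (card_dvd_le 0 one_ne_zero)
    have h1 : (1 : k[X]) ∈ mon k 0 := mem_mon.2 ⟨monic_one, natDegree_one⟩
    have := single_le_sum (f := fun a : k[X] => if a ∣ 1 then (1 : ℝ) else 0)
      (fun a _ => by split_ifs <;> norm_num) h1
    simpa using this
  obtain ⟨t, t', ht, ht', h3⟩ := bk3 (k := k) hC hl hρ
  set U := prs k l ×ˢ prs k l ×ˢ box k (l + W) with hU
  set G : k[X] × k[X] × k[X] → k[X] → k[X] → ℝ := fun u c₁ c₂ => gg A ρ u.1 u.2.1 u.2.2 c₁ c₂ with hG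
  set w : k[X] × k[X] × k[X] → ℝ := fun u => t' u.1 u.2.1 with hw
  set dl : k[X] × k[X] × k[X] → k[X] × k[X] × k[X] → k[X] :=
    fun u v => del u.1 u.2.1 u.2.2 v.1 v.2.1 v.2.2 with hdl
  have eA : (off A C l fun a c => β c * kf ρ a c) = ∑ p ∈ mon k C ×ˢ mon k C,
      (β p.1 * t p.1 * (β p.2 * t p.2)) *
        (if Squarefree p.2 then ∑ u ∈ U, w u * G u p.1 p.2 else 0) := by
    rw [sum_product]
    refine sum_congr rfl fun c₁ h₁ => sum_congr rfl fun c₂ h₂ => ?_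
    by_cases hsq : Squarefree c₂
    swap
    · have hb : β c₂ = 0 := by
        by_contra hb
        exact hsq (hβs _ hb)
      simp [hb]
    rw [if_pos hsq, hU, sum_product, mul_sum]
    refine sum_congr rfl fun l₁ h₃ => ?_
    rw [sum_product, mul_sum]
    refine sum_congr rfl fun l₂ h₄ => ?_
    by_cases hg : Good l₁ c₁ l₂ c₂
    swap
    · simp [hG, gg, hg]
    obtain ⟨hN0, hN⟩ := d_good h₁ h₂ h₃ h₄ hg
    have e1 := d_reidx (A := A) (E := l + W) hN0 (by omega)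
      fun a => kf (ρ * (l₁ - l₂)) a (l₂ * c₂)
    have e2 : ∑ e ∈ box k (l + W), w (l₁, l₂, e) * G (l₁, l₂, e) c₁ c₂
        = t' l₁ l₂ * ∑ a ∈ mon k A,
          if a ∣ l₁ * c₁ - l₂ * c₂ then kf (ρ * (l₁ - l₂)) a (l₂ * c₂) else 0 := by
      rw [e1, mul_sum]
      refine sum_congr rfl fun e _ => ?_
      simp only [hG, hw, gg, hg, true_and]
    rw [e2, mul_sum, mul_sum]
    refine sum_congr rfl fun a ha => ?_
    by_cases hd : a ∣ l₁ * c₁ - l₂ * c₂
    · rw [if_pos ⟨hg, hd⟩, if_pos hd]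
      have := h3 c₁ h₁ c₂ h₂ l₁ h₃ l₂ h₄ a ha hg hd
      linear_combination β c₁ * β c₂ * this
    · rw [if_neg fun h => hd h.2, if_neg hd, mul_zero, mul_zero]
  have hx : ∑ p ∈ mon k C ×ˢ mon k C, (β p.1 * t p.1 * (β p.2 * t p.2)) ^ 2 ≤ qq k ^ (2 * C) := by
    have : ∀ p ∈ mon k C ×ˢ mon k C, (β p.1 * t p.1 * (β p.2 * t p.2)) ^ 2 ≤ 1 := by
      intro p _
      rw [sq_le_one_iff_abs_le_one, abs_mul, abs_mul, abs_mul]
      exact mul_le_one₀ (mul_le_one₀ (hβ _) (abs_nonneg _) (ht _)) (by positivity)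
        (mul_le_one₀ (hβ _) (abs_nonneg _) (ht _))
    refine (sum_le_sum this).trans ?_
    rw [sum_const, nsmul_eq_mul, card_product, Nat.cast_mul, card_mon, mul_one, ← pow_add, two_mul]
  have hww : ∀ u v, |w u * w v| ≤ 1 := fun u v => by
    rw [abs_mul]
    exact mul_le_one₀ (ht' _ _) (abs_nonneg _) (ht' _ _)
  have hy : ∑ p ∈ mon k C ×ˢ mon k C,
      (if Squarefree p.2 then ∑ u ∈ U, w u * G u p.1 p.2 else 0) ^ 2
      ≤ qq k ^ (2 * C) * (2 * D * qq k ^ (3 * l))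
        + (#U : ℝ) * (#U * (D * qq k ^ (11 * l + 5 * W + s) * (D * qq k ^ C))) := by
    have s1 : ∀ p ∈ mon k C ×ˢ mon k C,
        (if Squarefree p.2 then ∑ u ∈ U, w u * G u p.1 p.2 else 0) ^ 2
        ≤ 2 * D * qq k ^ (3 * l) + ∑ u ∈ U, ∑ v ∈ U, if dl u v ≠ 0 ∧ Squarefree p.2 then
            w u * w v * (G u p.1 p.2 * G v p.1 p.2) else 0 := by
      intro p hp
      obtain ⟨h₁, h₂⟩ := mem_product.1 hp
      by_cases hsq : Squarefree p.2
      swap
      · simp only [hsq, if_false, and_false, sum_const_zero]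
        rw [sq, mul_zero]
        positivity
      have h4 := bk4c (A := A) (E := l + W) (D := D) (fun f hf hd => hD f hf (by omega)) hl ρ h₁ h₂
      have h5 : ∑ u ∈ U, ∑ v ∈ U, (if dl u v = 0 then |G u p.1 p.2| * |G v p.1 p.2| else 0)
          ≤ 2 * D * qq k ^ (3 * l) := by
        refine le_of_eq_of_le ?_ h4
        simp only [hU, sum_product, hG, hdl]
      rw [if_pos hsq, sq, sum_mul_sum]
      refine le_trans ?_ (add_le_add_left h5 _)
      rw [← sum_add_distrib]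
      refine sum_le_sum fun u _ => ?_
      rw [← sum_add_distrib]
      refine sum_le_sum fun v _ => ?_
      by_cases h6 : dl u v = 0
      · rw [if_pos h6, if_neg fun h => h.1 h6, add_zero]
        refine (le_abs_self _).trans ?_
        rw [mul_mul_mul_comm, abs_mul, abs_mul (G u p.1 p.2)]
        exact mul_le_of_le_one_left (by positivity) (hww u v)
      · rw [if_neg h6, if_pos ⟨h6, hsq⟩, zero_add, mul_mul_mul_comm]
    refine (sum_le_sum s1).trans ?_
    rw [sum_add_distrib, sum_const, nsmul_eq_mul, card_product, Nat.cast_mul, card_mon, ← pow_add,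
      ← two_mul]
    refine add_le_add_right ?_ _
    rw [sum_comm, ← nsmul_eq_mul, ← sum_const]
    refine sum_le_sum fun u hu => ?_
    rw [sum_comm, ← nsmul_eq_mul, ← sum_const]
    refine sum_le_sum fun v hv => ?_
    obtain ⟨u1, u2⟩ := mem_product.1 hu
    obtain ⟨u2, u3⟩ := mem_product.1 u2
    obtain ⟨v1, v2⟩ := mem_product.1 hv
    obtain ⟨v2, v3⟩ := mem_product.1 v2
    by_cases h6 : dl u v = 0
    · simp only [h6, ne_eq, not_true, false_and, if_false, sum_const_zero]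
      positivity
    have h7 : (ndiv (ρ * dl u v) : ℝ) ≤ D := by
      refine hD _ (mul_ne_zero hρ0 h6) (natDegree_mul_le.trans ?_)
      have a1 := d_deg u1 u2 v1 v2 u3
      have a2 := d_deg v1 v2 u1 u2 v3
      have a3 : (dl u v).natDegree ≤ 3 * l + (l + W) :=
        (natDegree_sub_le _ _).trans (max_le a1 a2)
      omega
    have h8 := (bk4b C (mul_ne_zero hρ0 h6)).trans
      (mul_le_mul_of_nonneg_right h7 (by positivity))
    refine le_trans ?_ (mul_le_mul_of_nonneg_left h8 (by positivity))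
    rw [sum_product_right, mul_sum]
    refine sum_le_sum fun c₂ h₂ => ?_
    by_cases hsq : Squarefree c₂
    swap
    · simp only [hsq, if_false, and_false, sum_const_zero]
      positivity
    simp only [hsq, ne_eq, h6, not_false_eq_true, and_self, if_true]
    rw [← mul_sum]
    refine (le_abs_self _).trans ?_
    rw [abs_mul]
    refine (mul_le_of_le_one_left (abs_nonneg _) (hww u v)).trans ?_
    exact bk4a (fun f hf hd => hD f hf (by omega)) hW hAC hCA hs ρ u1 u2 v1 v2 u3 v3 h₂ hsq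
  have hUc : (#U : ℝ) ≤ qq k ^ l * (qq k ^ l * qq k ^ (l + W)) := by
    rw [hU, card_product, card_product, Nat.cast_mul, Nat.cast_mul, card_box]
    have := d_card_prs (k := k) l
    gcongr
  rw [eA]
  refine (sum_mul_sq_le_sq_mul_sq _ _ _).trans ?_
  calc _ ≤ qq k ^ (2 * C) * (qq k ^ (2 * C) * (2 * D ^ 2 * qq k ^ (3 * l))
        + (qq k ^ l * (qq k ^ l * qq k ^ (l + W))) * ((qq k ^ l * (qq k ^ l * qq k ^ (l + W))) *
          (D * qq k ^ (11 * l + 5 * W + s) * (D * qq k ^ C)))) := by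
        refine mul_le_mul hx (hy.trans ?_) (sum_nonneg fun _ _ => sq_nonneg _) (by positivity)
        have : D ≤ D ^ 2 := by nlinarith
        gcongr
    _ = _ := by ring


end Pool.Agent.MP_b5e119_nt.BK
end
end

section
open Polynomial Finset
open scoped Classical BigOperators

noncomputable section
namespace Pool.Agent.MP_b5e119_nt.BK
open Pool.Agent.MP_a4a062_nt.C2

variable {k : Type*} [Field k] [Fintype k]

theorem bk5_mono {N N' : ℕ} {D : ℝ} (h : DivB k N D) (hN : N' ≤ N) : DivB k N' D :=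
  fun f hf hd => h f hf (hd.trans hN)

theorem bk5_nonneg {N : ℕ} {D : ℝ} (h : DivB k N D) : 0 ≤ D :=
  (Nat.cast_nonneg _).trans (h 1 one_ne_zero (by simp))

theorem bk [CharP k 2] {A C W σ : ℕ} {D : ℝ} (hD : DivB k (3 * C) D) (hσ : 0 < σ)
    (hC : 80 * W + 112 * σ + 3 ≤ C) (hAC : A ≤ C + W) (hCA : C ≤ A + W) {ρ : k[X]}
    (hρ0 : ρ ≠ 0) (hρ : ρ.natDegree ≤ A + C) (α β : k[X] → ℝ) (hα : ∀ a, |α a| ≤ 1)
    (hβ : ∀ c, |β c| ≤ 1) (hβs : ∀ c, β c ≠ 0 → Squarefree c) :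
    (∑ a ∈ mon k A, ∑ c ∈ mon k C, α a * β c * kf ρ a c) ^ 2 * qq k ^ σ
      ≤ 24 * D * (C : ℝ) ^ 2 * qq k ^ (2 * A + 2 * C) := by
  obtain ⟨l, hl⟩ : ∃ l, l = W + 2 * σ := ⟨_, rfl⟩
  obtain ⟨s, hs⟩ : ∃ s, s = (3 * C + 3) / 4 := ⟨_, rfl⟩
  have q1 : 1 ≤ qq k := one_le_two.trans two_le_qq
  have q0 : 0 < qq k := one_pos.trans_le q1
  have D0 := bk5_nonneg hD
  have h1 := bk12 (A := A) (C := C) (l := l) (bk5_mono hD (by omega)) α hα
    (fun a c => β c * kf ρ a c) fun a c => by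
      rw [abs_mul]
      exact mul_le_one₀ (hβ c) (abs_nonneg _) (abs_kf_le _ _ _)
  have h2 := bk4d (A := A) (C := C) (l := l) (W := W) (s := s) (bk5_mono hD (by omega)) (by omega)
    (by omega) (by omega) hAC hCA (by omega) hρ0 hρ β hβ hβs
  have h3 := card_prs (k := k) (e := l) (by omega)
  have e : ∑ a ∈ mon k A, ∑ c ∈ mon k C, α a * β c * kf ρ a c =
      ∑ a ∈ mon k A, α a * ∑ c ∈ mon k C, β c * kf ρ a c :=
    sum_congr rfl fun a _ => by
      rw [mul_sum]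
      exact sum_congr rfl fun c _ => mul_assoc _ _ _
  rw [e]
  generalize (∑ a ∈ mon k A, α a * ∑ c ∈ mon k C, β c * kf ρ a c) = S at h1 ⊢
  generalize (off A C l fun a c => β c * kf ρ a c) = O at h1 h2
  generalize (#(prs k l) : ℝ) = L at h1 h3
  generalize qq k = q at *
  obtain ⟨Z, hZ⟩ : ∃ Z, Z = q ^ (2 * C + 2 * l) := ⟨_, rfl⟩
  have Z0 : 0 < Z := by rw [hZ]; positivity
  have a1 : q ^ (A + C + l) * q ^ σ ≤ Z := by
    rw [hZ, ← pow_add]
    exact pow_le_pow_right₀ q1 (by omega)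
  have a2 : q ^ (2 * C + l) * q ^ σ ≤ Z := by
    rw [hZ, ← pow_add]
    exact pow_le_pow_right₀ q1 (by omega)
  have a3 : q ^ (4 * C + 3 * l) * (q ^ σ) ^ 2 ≤ Z ^ 2 := by
    rw [hZ, ← pow_mul, ← pow_mul, ← pow_add]
    exact pow_le_pow_right₀ q1 (by omega)
  have a4 : q ^ (3 * C + 17 * l + 7 * W + s) * (q ^ σ) ^ 2 ≤ Z ^ 2 := by
    rw [hZ, ← pow_mul, ← pow_mul, ← pow_add]
    exact pow_le_pow_right₀ q1 (by omega)
  have a5 : |O| * q ^ σ ≤ 2 * D * Z := by
    refine abs_le_of_sq_le_sq' ?_ (by positivity) |>.2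
    calc (|O| * q ^ σ) ^ 2 = O ^ 2 * (q ^ σ) ^ 2 := by rw [mul_pow, sq_abs]
      _ ≤ D ^ 2 * (2 * q ^ (4 * C + 3 * l) + q ^ (3 * C + 17 * l + 7 * W + s)) * (q ^ σ) ^ 2 := by
        gcongr
      _ = D ^ 2 * (2 * (q ^ (4 * C + 3 * l) * (q ^ σ) ^ 2) +
          q ^ (3 * C + 17 * l + 7 * W + s) * (q ^ σ) ^ 2) := by ring
      _ ≤ D ^ 2 * (4 * Z ^ 2) := by
        gcongr
        linarith [sq_nonneg Z]
      _ = (2 * D * Z) ^ 2 := by ring
  have a6 : (D * q ^ (A + C + l) + 3 * D * q ^ (2 * C + l) + |O|) * q ^ σ ≤ 6 * D * Z := by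
    have b1 := mul_le_mul_of_nonneg_left a1 D0
    have b2 := mul_le_mul_of_nonneg_left a2 D0
    linarith
  have lC : (l : ℝ) ≤ C := by exact_mod_cast (show l ≤ C by omega)
  have a7 : (q ^ l) ^ 2 ≤ 4 * (C : ℝ) ^ 2 * L ^ 2 := by
    calc (q ^ l) ^ 2 ≤ (2 * l * L) ^ 2 := by gcongr
      _ = 4 * (l : ℝ) ^ 2 * L ^ 2 := by ring
      _ ≤ _ := by gcongr
  refine le_of_mul_le_mul_right ?_ (show 0 < (q ^ l) ^ 2 by positivity)
  calc S ^ 2 * q ^ σ * (q ^ l) ^ 2 ≤ S ^ 2 * q ^ σ * (4 * (C : ℝ) ^ 2 * L ^ 2) := by gcongr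
    _ = 4 * (C : ℝ) ^ 2 * (L ^ 2 * S ^ 2) * q ^ σ := by ring
    _ ≤ 4 * (C : ℝ) ^ 2 * (q ^ (2 * A) *
        (D * q ^ (A + C + l) + 3 * D * q ^ (2 * C + l) + |O|)) * q ^ σ := by gcongr
    _ = 4 * (C : ℝ) ^ 2 * q ^ (2 * A) *
        ((D * q ^ (A + C + l) + 3 * D * q ^ (2 * C + l) + |O|) * q ^ σ) := by ring
    _ ≤ 4 * (C : ℝ) ^ 2 * q ^ (2 * A) * (6 * D * Z) := by gcongr
    _ = _ := by rw [hZ]; ring


end Pool.Agent.MP_b5e119_nt.BK
end
end

section
open Polynomial Finset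
open scoped Classical BigOperators

noncomputable section
namespace Pool.Agent.MP_b5e119_nt.BK
open Pool.Agent.MP_a4a062_nt.C2

variable {k : Type*} [Field k] [Fintype k]

theorem c_sum_mul {n : ℕ} {P : k[X]} (hP : P.Monic) (F : k[X] → ℝ) :
    ∑ f ∈ mon k (n + P.natDegree), (if P ∣ f then F f else 0) = ∑ f ∈ mon k n, F (P * f) := by
  rw [← sum_filter]
  symm
  refine sum_bij (fun f _ => P * f) ?_ ?_ ?_ ?_
  · intro f hf
    obtain ⟨h1, h2⟩ := mem_mon.1 hf
    refine mem_filter.2 ⟨mem_mon.2 ⟨hP.mul h1, ?_⟩, dvd_mul_right _ _⟩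
    rw [hP.natDegree_mul h1, h2, add_comm]
  · intro a _ b _ h
    exact mul_left_cancel₀ hP.ne_zero h
  · intro g hg
    obtain ⟨h1, f, rfl⟩ := mem_filter.1 hg
    obtain ⟨h2, h3⟩ := mem_mon.1 h1
    have hf : f.Monic := hP.of_mul_monic_left h2
    refine ⟨f, mem_mon.2 ⟨hf, ?_⟩, rfl⟩
    rw [hP.natDegree_mul hf] at h3
    omega
  · intro f _
    rfl

theorem c_one_le {N : ℕ} {D : ℝ} (hD : DivB k N D) : 1 ≤ D := by
  refine le_trans ?_ (hD 1 one_ne_zero (by simp))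
  have : 0 < ndiv (1 : k[X]) := by
    unfold ndiv
    refine card_pos.2 ⟨1, mem_filter.2 ⟨mem_biUnion.2 ⟨0, by simp, mem_mon.2 ⟨monic_one, by simp⟩⟩,
      dvd_rfl⟩⟩
  exact_mod_cast this

omit [Fintype k] in
theorem c_assoc (a c : k[X]) : Associated (EuclideanDomain.gcd a c) (gcd a c) :=
  associated_of_dvd_dvd
    (dvd_gcd (EuclideanDomain.gcd_dvd_left a c) (EuclideanDomain.gcd_dvd_right a c))
    (EuclideanDomain.dvd_gcd (gcd_dvd_left a c) (gcd_dvd_right a c))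

omit [Fintype k] in
theorem c_gcd_monic (a : k[X]) {c : k[X]} (hc : c ≠ 0) : (gcd a c).Monic := by
  rw [← _root_.normalize_gcd]
  exact monic_normalize (fun h => hc ((gcd_eq_zero_iff a c).1 h).2)

theorem c_zero {a c h : k[X]} (s : ℕ) (hn : ¬ gcd a c ∣ h) : cnt s h a c - mdl s h a c = 0 := by
  have h1 : cnt s h a c = 0 := by
    refine sum_eq_zero fun b _ => if_neg fun hb => hn ?_
    exact (dvd_add_right ((gcd_dvd_left a c).mul_right b)).1 ((gcd_dvd_right a c).trans hb)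
  have h2 : mdl s h a c = 0 := if_neg fun hb => hn ((c_assoc a c).symm.dvd.trans hb)
  rw [h1, h2, sub_zero]

omit [Fintype k] in
theorem c_gcd_mul {g : k[X]} (hg : g.Monic) (a c : k[X]) :
    gcd (g * a) (g * c) = g ↔ IsCoprime a c := by
  rw [_root_.gcd_mul_left, hg.normalize_eq_self]
  constructor
  · intro h
    have h1 : gcd a c = 1 := mul_left_cancel₀ hg.ne_zero (h.trans (mul_one g).symm)
    exact (gcd_isUnit_iff a c).1 (h1 ▸ isUnit_one)
  · intro h
    have h1 : gcd a c = 1 := by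
      rw [← _root_.normalize_gcd]
      exact normalize_eq_one.2 ((gcd_isUnit_iff a c).2 h)
    rw [h1, mul_one]

theorem c_psi0 : psi (0 : k) = 1 := if_pos ⟨0, by simp⟩

theorem c_abs_psi (c : k) : |psi c| = 1 := by
  unfold psi
  split_ifs <;> simp

theorem c_term [CharP k 2] {g a c : k[X]} (hg : g.Monic) (hc : c.Monic) (s : ℕ) (h : k[X]) :
    (if gcd (g * a) (g * c) = g then cnt s (g * h) (g * a) (g * c) - mdl s (g * h) (g * a) (g * c)
      else 0) = qq k ^ s / qq k ^ c.natDegree *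
      ∑ r ∈ (box k (c.natDegree - s)).erase 0,
        psi (r.coeff (c.natDegree - s - 1)) * kf (r * h) a c := by
  have h2 := two_le_qq (k := k)
  by_cases hac : IsCoprime a c
  · have hgg := (c_gcd_mul hg a c).2 hac
    rw [if_pos hgg]
    have h1 : cnt s (g * h) (g * a) (g * c) = cnt s h a c := by
      refine sum_congr rfl fun b _ => if_congr ?_ rfl rfl
      rw [mul_assoc, ← mul_add]
      exact mul_dvd_mul_iff_left hg.ne_zero
    have h3 : mdl s (g * h) (g * a) (g * c) = qq k ^ s / qq k ^ c.natDegree := by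
      have ha := c_assoc (g * a) (g * c)
      rw [hgg] at ha
      unfold mdl dg
      rw [if_pos (ha.dvd.trans (dvd_mul_right g h)), natDegree_eq_of_degree_eq
        (degree_eq_degree_of_associated ha), hg.natDegree_mul hc, pow_add]
      field_simp
    rw [h1, h3, iva hc hac s h,
      ← add_sum_erase _ _ (mem_box.2 (by simp) : (0 : k[X]) ∈ box k (c.natDegree - s))]
    have h4 : kf (0 * h) a c = 1 := by
      unfold kf ee
      rw [if_pos hac, zero_mul, zero_mul, tauh_zero, c_psi0]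
    rw [h4, coeff_zero, c_psi0]
    ring
  · rw [if_neg fun hh => hac ((c_gcd_mul hg a c).1 hh)]
    rw [sum_eq_zero, mul_zero]
    intro r _
    unfold kf
    rw [if_neg hac, mul_zero]

theorem c_triv (A C : ℕ) (ρ : k[X]) (α β : k[X] → ℝ) (hα : ∀ a, |α a| ≤ 1) (hβ : ∀ c, |β c| ≤ 1) :
    |∑ a ∈ mon k A, ∑ c ∈ mon k C, α a * β c * kf ρ a c| ≤ qq k ^ (A + C) := by
  refine (abs_sum_le_sum_abs _ _).trans ?_
  have h1 : ∀ a ∈ mon k A, |∑ c ∈ mon k C, α a * β c * kf ρ a c| ≤ qq k ^ C := by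
    intro a _
    refine (abs_sum_le_sum_abs _ _).trans ?_
    have h2 : ∀ c ∈ mon k C, |α a * β c * kf ρ a c| ≤ 1 := by
      intro c _
      rw [abs_mul, abs_mul]
      exact mul_le_one₀ (mul_le_one₀ (hα a) (abs_nonneg _) (hβ c)) (abs_nonneg _) (abs_kf_le _ _ _)
    refine (sum_le_sum h2).trans ?_
    rw [sum_const, nsmul_eq_mul, card_mon, mul_one]
  refine (sum_le_sum h1).trans ?_
  rw [sum_const, nsmul_eq_mul, card_mon, pow_add]

theorem c_piece [CharP k 2] {i j s W σ : ℕ} {D : ℝ} (hD : DivB k (3 * j) D) (hσ : 0 < σ)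
    (hj : 80 * W + 113 * σ + 3 ≤ j) (hij : i ≤ j + W) (hji : j ≤ i + W) {g h : k[X]}
    (hg : g.Monic) (h0 : g * h ≠ 0) (hh : (g * h).natDegree ≤ i + s + 1) (α β : k[X] → ℝ)
    (hα : ∀ a, |α a| ≤ 1) (hβ : ∀ c, |β c| ≤ 1) (hβs : ∀ c, β c ≠ 0 → Squarefree c) :
    |∑ a ∈ mon k i, ∑ c ∈ mon k j, if gcd a c = g then
        α a * β c * (cnt s (g * h) a c - mdl s (g * h) a c) else 0|
      ≤ √(24 * D * (j : ℝ) ^ 2 * qq k ^ (2 * i + 2 * j) / qq k ^ σ) := by
  have h2 := two_le_qq (k := k)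
  have hq1 : (1 : ℝ) ≤ qq k := by linarith
  have hD1 := c_one_le hD
  have hh0 : h ≠ 0 := right_ne_zero_of_mul h0
  by_cases hγ : g.natDegree ≤ i ∧ g.natDegree ≤ j
  swap
  · rw [sum_eq_zero, abs_zero]
    · exact Real.sqrt_nonneg _
    intro a ha
    refine sum_eq_zero fun c hc => if_neg fun hac => hγ ⟨?_, ?_⟩
    · obtain ⟨h1, h3⟩ := mem_mon.1 ha
      exact h3 ▸ natDegree_le_of_dvd (hac ▸ gcd_dvd_left a c) h1.ne_zero
    · obtain ⟨h1, h3⟩ := mem_mon.1 hc
      exact h3 ▸ natDegree_le_of_dvd (hac ▸ gcd_dvd_right a c) h1.ne_zero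
  obtain ⟨A, rfl⟩ : ∃ A, i = A + g.natDegree := ⟨i - g.natDegree, by omega⟩
  obtain ⟨C, rfl⟩ : ∃ C, j = C + g.natDegree := ⟨j - g.natDegree, by omega⟩
  set Z := √(24 * D * ((C + g.natDegree : ℕ) : ℝ) ^ 2 *
    qq k ^ (2 * (A + g.natDegree) + 2 * (C + g.natDegree)) / qq k ^ σ) with hZ
  have e1 : ∑ a ∈ mon k (A + g.natDegree), ∑ c ∈ mon k (C + g.natDegree), (if gcd a c = g then
        α a * β c * (cnt s (g * h) a c - mdl s (g * h) a c) else 0)
      = qq k ^ s / qq k ^ C * ∑ r ∈ (box k (C - s)).erase 0, psi (r.coeff (C - s - 1)) *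
        ∑ a ∈ mon k A, ∑ c ∈ mon k C, α (g * a) * β (g * c) * kf (r * h) a c := by
    have e2 : ∀ a ∈ mon k (A + g.natDegree), ∑ c ∈ mon k (C + g.natDegree), (if gcd a c = g then
        α a * β c * (cnt s (g * h) a c - mdl s (g * h) a c) else 0) = if g ∣ a then
        ∑ c ∈ mon k C, (if gcd a (g * c) = g then
        α a * β (g * c) * (cnt s (g * h) a (g * c) - mdl s (g * h) a (g * c)) else 0) else 0 := by
      intro a _
      split_ifs with hga
      · rw [← c_sum_mul hg fun c => if gcd a c = g then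
          α a * β c * (cnt s (g * h) a c - mdl s (g * h) a c) else 0]
        refine sum_congr rfl fun c _ => ?_
        by_cases hc : g ∣ c
        · rw [if_pos hc]
        · rw [if_neg hc, if_neg fun hac : gcd a c = g => hc (hac ▸ gcd_dvd_right a c)]
      · exact sum_eq_zero fun c _ => if_neg fun hac : gcd a c = g => hga (hac ▸ gcd_dvd_left a c)
    rw [sum_congr rfl e2, c_sum_mul hg]
    have e3 : ∀ a ∈ mon k A, ∀ c ∈ mon k C, (if gcd (g * a) (g * c) = g then α (g * a) * β (g * c) *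
        (cnt s (g * h) (g * a) (g * c) - mdl s (g * h) (g * a) (g * c)) else 0)
        = ∑ r ∈ (box k (C - s)).erase 0, qq k ^ s / qq k ^ C * (psi (r.coeff (C - s - 1)) *
          (α (g * a) * β (g * c) * kf (r * h) a c)) := by
      intro a _ c hc
      obtain ⟨h1, h3⟩ := mem_mon.1 hc
      have h4 := c_term (a := a) hg h1 s h
      rw [h3] at h4
      have h5 : (if gcd (g * a) (g * c) = g then α (g * a) * β (g * c) *
          (cnt s (g * h) (g * a) (g * c) - mdl s (g * h) (g * a) (g * c)) else 0)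
          = α (g * a) * β (g * c) * (if gcd (g * a) (g * c) = g then
          (cnt s (g * h) (g * a) (g * c) - mdl s (g * h) (g * a) (g * c)) else 0) := by
        split_ifs
        · rfl
        · rw [mul_zero]
      rw [h5, h4, mul_sum, mul_sum]
      exact sum_congr rfl fun r _ => by ring
    rw [sum_congr rfl fun a ha => sum_congr rfl fun c hc => e3 a ha c hc, mul_sum]
    rw [sum_congr rfl fun a _ => sum_comm, sum_comm]
    refine sum_congr rfl fun r _ => ?_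
    simp only [mul_sum]
  have hB : ∀ r ∈ (box k (C - s)).erase 0, |psi (r.coeff (C - s - 1)) *
        ∑ a ∈ mon k A, ∑ c ∈ mon k C, α (g * a) * β (g * c) * kf (r * h) a c| ≤ Z := by
    intro r hr
    obtain ⟨hr0, hr1⟩ := mem_erase.1 hr
    have hr2 : r.natDegree < C - s := (natDegree_lt_iff_degree_lt hr0).2 (mem_box.1 hr1)
    rw [abs_mul, c_abs_psi, one_mul]
    refine Real.abs_le_sqrt ?_
    rw [le_div_iff₀ (by positivity)]
    have hj1 : (1 : ℝ) ≤ ((C + g.natDegree : ℕ) : ℝ) := by exact_mod_cast (by omega)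
    by_cases h4 : σ ≤ 4 * g.natDegree
    · have h5 := c_triv A C (r * h) (fun a => α (g * a)) (fun c => β (g * c)) (fun a => hα _)
        fun c => hβ _
      have h6 := pow_le_pow_left₀ (abs_nonneg _) h5 2
      rw [sq_abs] at h6
      have h7 : (qq k ^ (A + C)) ^ 2 * qq k ^ σ
          ≤ qq k ^ (2 * (A + g.natDegree) + 2 * (C + g.natDegree)) := by
        rw [← pow_mul, ← pow_add]
        exact pow_le_pow_right₀ hq1 (by omega)
      have h8 : (1 : ℝ) ≤ 24 * D * ((C + g.natDegree : ℕ) : ℝ) ^ 2 := by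
        have := one_le_pow₀ (n := 2) hj1
        nlinarith
      calc _ ≤ (qq k ^ (A + C)) ^ 2 * qq k ^ σ := by gcongr
        _ ≤ _ := h7
        _ ≤ _ := le_mul_of_one_le_left (by positivity) h8
    · have h5 : (r * h).natDegree ≤ A + C := by
        rw [natDegree_mul hr0 hh0]
        rw [natDegree_mul hg.ne_zero hh0] at hh
        omega
      have h6 := bk (A := A) (C := C) (W := W) (σ := σ) (D := D)
        (fun f hf hd => hD f hf (by omega)) hσ (by omega) (by omega) (by omega)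
        (mul_ne_zero hr0 hh0) h5 (fun a => α (g * a)) (fun c => β (g * c)) (fun a => hα _)
        (fun c => hβ _) fun c hc => (hβs _ hc).of_mul_right
      refine h6.trans ?_
      have h7 : (C : ℝ) ≤ ((C + g.natDegree : ℕ) : ℝ) := by exact_mod_cast (by omega)
      have h8 : qq k ^ (2 * A + 2 * C)
          ≤ qq k ^ (2 * (A + g.natDegree) + 2 * (C + g.natDegree)) :=
        pow_le_pow_right₀ hq1 (by omega)
      gcongr
  have hZ0 : 0 ≤ Z := Real.sqrt_nonneg _
  rw [e1, abs_mul, abs_of_nonneg (by positivity : 0 ≤ qq k ^ s / qq k ^ C)]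
  have h9 := (abs_sum_le_sum_abs _ _).trans (sum_le_sum hB)
  rw [sum_const, nsmul_eq_mul] at h9
  by_cases hs : C ≤ s
  · have h10 : (box k (C - s)).erase 0 = ∅ := by
      refine eq_empty_of_forall_notMem fun r hr => ?_
      obtain ⟨hr0, hr1⟩ := mem_erase.1 hr
      have hr2 : r.natDegree < C - s := (natDegree_lt_iff_degree_lt hr0).2 (mem_box.1 hr1)
      omega
    rw [h10, sum_empty, abs_zero, mul_zero]
    exact hZ0
  · have h10 : (#((box k (C - s)).erase 0) : ℝ) ≤ qq k ^ (C - s) := by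
      rw [← card_box]
      exact_mod_cast card_erase_le
    have h11 : qq k ^ s / qq k ^ C * qq k ^ (C - s) = 1 := by
      have : qq k ^ C = qq k ^ s * qq k ^ (C - s) := by
        rw [← pow_add]
        congr 1
        omega
      rw [this]
      field_simp
    calc _ ≤ qq k ^ s / qq k ^ C * (qq k ^ (C - s) * Z) := by
          refine mul_le_mul_of_nonneg_left (h9.trans ?_) (by positivity)
          gcongr
      _ = Z := by rw [← mul_assoc, h11, one_mul]

theorem centre [CharP k 2] {i j s W σ : ℕ} {D : ℝ} (hD : DivB k (3 * j) D) (hσ : 0 < σ)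
    (hj : 80 * W + 113 * σ + 3 ≤ j) (hij : i ≤ j + W) (hji : j ≤ i + W) {h : k[X]} (h0 : h ≠ 0)
    (hh : h.natDegree ≤ i + s + 1) (hh' : h.natDegree ≤ 3 * j) (α β : k[X] → ℝ)
    (hα : ∀ a, |α a| ≤ 1) (hβ : ∀ c, |β c| ≤ 1) (hβs : ∀ c, β c ≠ 0 → Squarefree c) :
    (∑ a ∈ mon k i, ∑ c ∈ mon k j, α a * β c * (cnt s h a c - mdl s h a c)) ^ 2 * qq k ^ σ
      ≤ 24 * D ^ 3 * (j : ℝ) ^ 2 * qq k ^ (2 * i + 2 * j) := by
  have h2 := two_le_qq (k := k)
  have hD1 := c_one_le hD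
  set G := {d ∈ (range (h.natDegree + 1)).biUnion (mon k) | d ∣ h} with hG
  set Y := 24 * D * (j : ℝ) ^ 2 * qq k ^ (2 * i + 2 * j) / qq k ^ σ with hY
  have hY0 : 0 ≤ Y := by positivity
  have e1 : ∑ a ∈ mon k i, ∑ c ∈ mon k j, α a * β c * (cnt s h a c - mdl s h a c)
      = ∑ g ∈ G, ∑ a ∈ mon k i, ∑ c ∈ mon k j, if gcd a c = g then
        α a * β c * (cnt s h a c - mdl s h a c) else 0 := by
    rw [sum_comm (s := G)]
    refine sum_congr rfl fun a _ => ?_
    rw [sum_comm (s := G)]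
    refine sum_congr rfl fun c hc => ?_
    rw [sum_ite_eq]
    split_ifs with hm
    · rfl
    · rw [c_zero, mul_zero]
      intro hd
      exact hm (mem_filter.2 ⟨mem_biUnion.2 ⟨_, mem_range.2 (Nat.lt_succ_of_le
        (natDegree_le_of_dvd hd h0)), mem_mon.2 ⟨c_gcd_monic a (mem_mon.1 hc).1.ne_zero, rfl⟩⟩, hd⟩)
  have e2 : ∀ g ∈ G, |∑ a ∈ mon k i, ∑ c ∈ mon k j, if gcd a c = g then
        α a * β c * (cnt s h a c - mdl s h a c) else 0| ≤ √Y := by
    intro g hg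
    obtain ⟨h1, h', rfl⟩ := mem_filter.1 hg
    obtain ⟨d, _, h3⟩ := mem_biUnion.1 h1
    exact c_piece hD hσ hj hij hji (mem_mon.1 h3).1 h0 hh α β hα hβ hβs
  have e3 := (abs_sum_le_sum_abs _ _).trans (sum_le_sum e2)
  rw [sum_const, nsmul_eq_mul, ← e1] at e3
  have e4 : (#G : ℝ) ≤ D := hD h h0 hh'
  have e5 := pow_le_pow_left₀ (abs_nonneg _)
    (e3.trans (mul_le_mul_of_nonneg_right e4 (Real.sqrt_nonneg _))) 2
  rw [sq_abs, mul_pow, Real.sq_sqrt hY0] at e5
  calc _ ≤ D ^ 2 * Y * qq k ^ σ := by gcongr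
    _ = _ := by
      rw [hY]
      field_simp

end Pool.Agent.MP_b5e119_nt.BK
end
end

section
open Polynomial Finset Filter
open scoped Classical BigOperators

noncomputable section
namespace Pool.Agent.MP_b5e119_nt.BK
open Pool.Agent.MP_a4a062_nt.C2

variable {k : Type*} [Field k] [Fintype k]

theorem h_cn (F : k[X]) {m j : ℕ} (hj : j ≤ m) (a : k[X]) {c : k[X]} (hc : c ∈ mon k j) :
    HGB.cn F m a c = cnt (m - j) (-F) c a := by
  obtain ⟨h1, h2⟩ := mem_mon.1 hc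
  have h3 := c_sum_mul (n := m - j) h1 fun g => if a ∣ F - g then (1 : ℝ) else 0
  rw [h2, Nat.sub_add_cancel hj] at h3
  unfold HGB.cn cnt
  rw [card_filter]
  push_cast
  have h4 : ∀ g ∈ mon k m, (if a ∣ F - g ∧ c ∣ g then (1 : ℝ) else 0)
      = if c ∣ g then (if a ∣ F - g then (1 : ℝ) else 0) else 0 := by
    intro g _
    by_cases h5 : c ∣ g <;> by_cases h6 : a ∣ F - g <;> simp [h5, h6]
  rw [sum_congr rfl h4, h3]
  refine sum_congr rfl fun b _ => if_congr ?_ rfl rfl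
  rw [← dvd_neg, show -(F - c * b) = c * b + -F by ring]

omit [Fintype k] in
theorem h_gcd (a c : k[X]) : gcd a c = 1 ↔ IsCoprime a c := by
  have := c_gcd_mul (monic_one (R := k)) a c
  rwa [one_mul, one_mul] at this

theorem h_mdl (s : ℕ) (h : k[X]) {a c : k[X]} (hac : IsCoprime a c) :
    mdl s h a c = qq k ^ s / qq k ^ c.natDegree := by
  have ha := c_assoc a c
  rw [(h_gcd a c).2 hac] at ha
  unfold mdl dg
  rw [if_pos (ha.dvd.trans (one_dvd h)), natDegree_eq_of_degree_eq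
    (degree_eq_degree_of_associated ha), natDegree_one, pow_zero, mul_one]

theorem h_ev (K : ℝ) : ∀ᶠ W : ℕ in atTop, K * (W : ℝ) ^ 2 ≤ 2 ^ W := by
  have h := tendsto_pow_const_div_const_pow_of_one_lt 2 (r := (2 : ℝ)) one_lt_two
  have h2 := (h.const_mul K).eventually_le_const (u := 1) (by simp)
  filter_upwards [h2] with W hW
  rwa [← mul_div_assoc, div_le_one (by positivity)] at hW

theorem hiv (k : Type*) [Field k] [Fintype k] [CharP k 2] : HGB.HIV k := by
  have h2 := two_le_qq (k := k)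
  have hq1 : (1 : ℝ) ≤ qq k := by linarith
  obtain ⟨K, hK1, hK⟩ := div_bound k 9600 (by norm_num)
  refine ⟨1600, by norm_num, ?_⟩
  have ht : Tendsto (fun m : ℕ => m / 1600) atTop atTop :=
    Nat.tendsto_div_const_atTop (by norm_num)
  filter_upwards [ht.eventually (h_ev (24 * K * 3200 ^ 2)), ht.eventually_ge_atTop 1]
    with m hm1 hm2 F i j α β hF0 hF hij hji hm hα hβ
  set W := m / 1600 with hW
  have hjm : j ≤ m := by omega
  have him : i ≤ m := by omega
  have e1 : ∑ a ∈ mon k i, ∑ c ∈ mon k j, (if IsCoprime a c ∧ Squarefree a ∧ Squarefree c then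
      α a * β c * (HGB.cn F m a c - qq k ^ m / qq k ^ (i + j)) else 0)
      = ∑ c ∈ mon k j, ∑ a ∈ mon k i, if gcd c a = 1 then (if Squarefree c then β c else 0) *
        (if Squarefree a then α a else 0) *
        (cnt (m - j) (1 * -F) c a - mdl (m - j) (1 * -F) c a) else 0 := by
    rw [sum_comm]
    refine sum_congr rfl fun c hc => sum_congr rfl fun a ha => ?_
    by_cases hac : IsCoprime c a
    · rw [if_pos ((h_gcd c a).2 hac), h_mdl _ _ hac, one_mul, ← h_cn F hjm a hc, (mem_mon.1 ha).2]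
      have e2 : qq k ^ (m - j) / qq k ^ i = qq k ^ m / qq k ^ (i + j) := by
        have : qq k ^ m = qq k ^ (m - j) * qq k ^ j := by
          rw [← pow_add, Nat.sub_add_cancel hjm]
        rw [this, pow_add]
        field_simp
      rw [e2]
      by_cases h3 : Squarefree a <;> by_cases h4 : Squarefree c <;> simp [h3, h4, hac.symm, mul_comm]
    · rw [if_neg fun hh => hac hh.1.symm, if_neg fun hh => hac ((h_gcd c a).1 hh)]
  rw [e1]
  by_cases hx : i + j ≤ m
  · rw [sum_eq_zero, abs_zero]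
    · positivity
    intro c _
    refine sum_eq_zero fun a ha => ?_
    obtain ⟨h3, h4⟩ := mem_mon.1 ha
    rw [iv0 h3 (by omega), sub_self, mul_zero, ite_self]
  have hb : ∀ (γ : k[X] → ℝ), (∀ a, |γ a| ≤ 1) → ∀ a, |if Squarefree a then γ a else 0| ≤ 1 := by
    intro γ hγ a
    split_ifs
    · exact hγ a
    · simp
  refine (c_piece (i := j) (j := i) (s := m - j) (W := W) (σ := 6 * W) (D := K * qq k ^ W)
    (hK _ _ (by omega)) (by omega) (by omega) hji hij monic_one (by simpa using hF0)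
    (by rw [one_mul, natDegree_neg]; omega) _ _ (hb β hβ) (hb α hα) ?_).trans ?_
  · intro a ha
    by_contra hs
    exact ha (if_neg hs)
  refine Real.sqrt_le_iff.2 ⟨by positivity, ?_⟩
  rw [div_le_iff₀ (by positivity), ← pow_mul, ← pow_add]
  have h5 : (i : ℝ) ≤ 3200 * W := by exact_mod_cast (by omega : i ≤ 3200 * W)
  have h6 : 24 * K * (i : ℝ) ^ 2 ≤ qq k ^ W := by
    calc _ ≤ 24 * K * (3200 * (W : ℝ)) ^ 2 := by gcongr
      _ = 24 * K * 3200 ^ 2 * (W : ℝ) ^ 2 := by ring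
      _ ≤ 2 ^ W := hm1
      _ ≤ _ := pow_le_pow_left₀ (by norm_num) h2 W
  calc _ = 24 * K * (i : ℝ) ^ 2 * (qq k ^ W * qq k ^ (2 * j + 2 * i)) := by ring
    _ ≤ qq k ^ W * (qq k ^ W * qq k ^ (2 * j + 2 * i)) := by gcongr
    _ = qq k ^ (W + (W + (2 * j + 2 * i))) := by rw [← pow_add, ← pow_add]
    _ ≤ _ := pow_le_pow_right₀ hq1 (by omega)

end Pool.Agent.MP_b5e119_nt.BK
end
end
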