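import Pool.Agent.MP_a4a062_nt.C2.P1

/-! Definitions for bilinear sums of Kloosterman fractions over `k[X]`. -/

set_option autoImplicit false

open Polynomial Finset
open scoped Classical BigOperators

noncomputable section
namespace Pool.Agent.MP_b5e119_nt.BK
open Pool.Agent.MP_a4a062_nt.C2

variable {k : Type*} [Field k] [Fintype k]

/-- The number of monic divisors. -/
def ndiv (f : k[X]) : ℕ := #{d ∈ (range (f.natDegree + 1)).biUnion (mon k) | d ∣ f}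

/-- A bound for the number of monic divisors in degree at most `N`. -/
def DivB (k : Type*) [Field k] [Fintype k] (N : ℕ) (D : ℝ) : Prop :=
  ∀ f : k[X], f ≠ 0 → f.natDegree ≤ N → (ndiv f : ℝ) ≤ D

/-- An inverse of `x` modulo `M`. -/
def iv (M x : k[X]) : k[X] := if h : IsCoprime x M then h.choose else 0

/-- The additive character at `x / M`. -/
def ee (M x : k[X]) : ℝ := psi (tau M x)

/-- The Kloosterman fraction. -/
def kf (ρ a c : k[X]) : ℝ := if IsCoprime a c then ee c (ρ * iv c a) else 0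

/-- The degree of the greatest common divisor. -/
def dg (x y : k[X]) : ℕ := (EuclideanDomain.gcd x y).natDegree

/-- Good tuples of the amplifier. -/
def Good (l₁ c₁ l₂ c₂ : k[X]) : Prop := l₁ ≠ l₂ ∧ ¬ l₁ ∣ c₂ ∧ ¬ l₂ ∣ c₁

/-- The good part of the amplified second moment. -/
def off (A C l : ℕ) (x : k[X] → k[X] → ℝ) : ℝ :=
  ∑ c₁ ∈ mon k C, ∑ c₂ ∈ mon k C, ∑ l₁ ∈ prs k l, ∑ l₂ ∈ prs k l, ∑ a ∈ mon k A,
    if Good l₁ c₁ l₂ c₂ ∧ a ∣ l₁ * c₁ - l₂ * c₂ then x a c₁ * x a c₂ else 0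

/-- The term of a good tuple, indexed by the complementary divisor `e`. -/
def gg (A : ℕ) (ρ l₁ l₂ e c₁ c₂ : k[X]) : ℝ :=
  if Good l₁ c₁ l₂ c₂ ∧ e ∣ l₁ * c₁ - l₂ * c₂ ∧ (l₁ * c₁ - l₂ * c₂) / e ∈ mon k A then
    kf (ρ * (l₁ - l₂)) ((l₁ * c₁ - l₂ * c₂) / e) (l₂ * c₂) else 0

/-- The determinant of a pair of tuples. -/
def del (l₁ l₂ e m₁ m₂ f : k[X]) : k[X] := (l₁ - l₂) * e * m₁ * m₂ - (m₁ - m₂) * f * l₁ * l₂

/-- The number of monic `b` of degree `s` with `c ∣ a b + h`. -/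
def cnt (s : ℕ) (h a c : k[X]) : ℝ := ∑ b ∈ mon k s, if c ∣ a * b + h then (1 : ℝ) else 0

/-- The expected value of `cnt`. -/
def mdl (s : ℕ) (h a c : k[X]) : ℝ :=
  if EuclideanDomain.gcd a c ∣ h then qq k ^ s * qq k ^ dg a c / qq k ^ c.natDegree else 0

omit [Fintype k] in
theorem iv_spec {M x : k[X]} (h : IsCoprime x M) : M ∣ x * iv M x - 1 := by
  unfold iv
  rw [dif_pos h]
  obtain ⟨b, hb⟩ := h.choose_spec
  exact ⟨-b, by linear_combination hb⟩

theorem abs_ee (M x : k[X]) : |ee M x| = 1 := by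
  unfold ee psi
  split_ifs <;> simp

theorem abs_kf_le (ρ a c : k[X]) : |kf ρ a c| ≤ 1 := by
  unfold kf
  split_ifs
  · exact (abs_ee _ _).le
  · simp

theorem abs_gg_le (A : ℕ) (ρ l₁ l₂ e c₁ c₂ : k[X]) : |gg A ρ l₁ l₂ e c₁ c₂| ≤ 1 := by
  unfold gg
  split_ifs
  · exact abs_kf_le _ _ _
  · simp

end Pool.Agent.MP_b5e119_nt.BK
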