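import Pool.Agent.MP_f0209c_nt.FF.P3

/-! Moebius sums along lines and fibres, with many pieces. -/

set_option autoImplicit false

open Polynomial Finset Filter
open scoped Classical BigOperators

noncomputable section
namespace Pool.Agent.MP_f0209c_nt.FF
open Pool.Agent.MP_a4a062_nt.C2

section
variable {k : Type} [Field k] [Fintype k]

omit [Fintype k] in
theorem lm_tau_sum {ι : Type} (s : Finset ι) (M : k[X]) (P : ι → k[X]) :
    tau M (∑ i ∈ s, P i) = ∑ i ∈ s, tau M (P i) := by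
  induction s using Finset.induction_on with
  | empty => simp [tau]
  | insert i s hi ih => rw [sum_insert hi, sum_insert hi, tau_add, ih]

omit [Fintype k] in
theorem lm_crt {ι : Type} [Fintype ι] {u v : ι → k[X]} (hu : ∀ i, (u i).Monic)
    (hc : Pairwise fun i j => IsCoprime (u i) (u j))
    (hv : ∀ i, u i ∣ (∏ j ∈ univ.erase i, u j) * v i - 1) (N : k[X]) :
    tau (∏ i, u i) N = ∑ i, tau (u i) (N * v i) := by
  have e : ∀ i, tau (u i) (N * v i) = tau (∏ i, u i) (N * v i * ∏ j ∈ univ.erase i, u j) :=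
    fun i => by
      rw [← mul_prod_erase univ u (mem_univ i),
        tau_mul (hu i) (monic_prod_of_monic _ _ fun j _ => hu j)]
  simp only [e]
  rw [← lm_tau_sum]
  refine tau_congr (monic_prod_of_monic _ _ fun j _ => hu j) ?_
  refine Fintype.prod_dvd_of_coprime hc fun i => ?_
  rw [← add_sum_erase univ _ (mem_univ i), ← sub_sub]
  refine dvd_sub ?_ (dvd_sum fun j hj => Dvd.dvd.mul_left
    (dvd_prod_of_mem u (mem_erase.2 ⟨(ne_of_mem_erase hj).symm, mem_univ i⟩)) _)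
  obtain ⟨t, ht⟩ := hv i
  exact ⟨-(N * t), by linear_combination (-N) * ht⟩

theorem lm_comp {n : ℕ} {W : k[X]} {Θ : k[X] → ℝ} (h : Kill n W Θ) (A g : k[X]) :
    Kill n W fun s => if IsCoprime (A + g * s) W then Θ (A + g * s) else 0 := by
  intro s
  have e : ∀ t, A + g * (s + W * t) = A + g * s + W * (g * t) := fun t => by ring
  by_cases hc : IsCoprime (A + g * s) W
  · obtain ⟨c, F, h1, h2, h3⟩ := h (A + g * s)
    refine ⟨c, fun t => F (g * t), h1, h2.comp _ fun a b => mul_add _ _ _, fun t => ?_⟩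
    simp only [e, IsCoprime.add_mul_left_left_iff, if_pos hc, h3]
  · refine ⟨0, fun _ => 0, by simp, PDeg.const _ _, fun t => ?_⟩
    simp only [e, IsCoprime.add_mul_left_left_iff, if_neg hc, zero_mul]

theorem lm_abs {n : ℕ} {W : k[X]} {Θ : k[X] → ℝ} (h : Kill n W Θ) (A : k[X]) : |Θ A| ≤ 1 := by
  obtain ⟨c, F, h1, -, h3⟩ := h A
  have := h3 0
  rw [mul_zero, add_zero] at this
  rw [this, abs_mul]
  unfold psi
  split_ifs <;> simpa using h1

theorem lm_per (n : ℕ) {D : k[X]} {u : k[X] → ℝ} (h1 : ∀ s, |u s| ≤ 1)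
    (h2 : ∀ s y, u (s + D * y) = u s) : Kill n D u := fun A =>
  ⟨u A, fun _ => 0, h1 A, PDeg.const _ _, fun s => by rw [h2, loc_psi_zero, mul_one]⟩

theorem lm_deg {A g s : k[X]} {m l : ℕ} (hA : A.natDegree ≤ m) (hg : g.natDegree + l ≤ m + 1)
    (hs : s ∈ box k l) : (A + g * s).natDegree ≤ m := by
  rcases eq_or_ne s 0 with rfl | h0
  · simpa using hA
  rw [mem_box, ← natDegree_lt_iff_degree_lt h0] at hs
  have := natDegree_mul_le (p := g) (q := s)
  exact (natDegree_add_le _ _).trans (max_le hA (by omega))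

variable [CharP k 2]

theorem lm_psi_sum {ι : Type} (s : Finset ι) (c : ι → k) :
    psi (∑ i ∈ s, c i) = ∏ i ∈ s, psi (c i) := by
  induction s using Finset.induction_on with
  | empty => simp [loc_psi_zero]
  | insert i s hi ih => rw [sum_insert hi, prod_insert hi, psi_add, ih]

theorem lm_lam {ι : Type} [Fintype ι] {M : ι → k[X]} (hM : ∀ i, (M i).Monic)
    (hc : Pairwise fun i j => IsCoprime (M i) (M j)) : ∃ c : ℝ, |c| = 1 ∧
      ∀ (A : k[X]) (U G : ι → k[X]), A.natDegree ≤ (∏ i, M i).natDegree →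
        (∀ i, M i ^ 4 ∣ A * U i - 1) → (∀ i, M i ^ 4 ∣ (∏ j ∈ univ.erase i, M j) * G i - 1) →
        lam (A ^ 2 + X * (∏ i, M i) ^ 2) = c * ∏ i, psi (vv (M i) (∏ i, M i) A (U i) (G i)) := by
  obtain ⟨c, hb⟩ := lb_berl (k := k) (∏ i, M i).natDegree
  refine ⟨-psi c, ?_, fun A U G hA hU hG => ?_⟩
  · unfold psi
    split_ifs <;> simp
  have cop : ∀ {x y z : k[X]}, x ^ 4 ∣ y * z - 1 → IsCoprime y x := fun {x y z} ⟨s, hs⟩ =>
    ⟨z, -(x ^ 3 * s), by linear_combination hs⟩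
  have c0 : IsCoprime A (∏ i, M i) := IsCoprime.prod_right fun i _ => cop (hU i)
  have c1 : IsCoprime (A ^ 2 + X * (∏ i, M i) ^ 2) ((∏ i, M i) ^ 4) := by
    refine IsCoprime.pow_right ?_
    rw [sq (∏ i, M i), ← mul_assoc]
    exact (c0.pow_left).add_mul_right_left _
  obtain ⟨V, s, hs⟩ := c1
  have hV : (∏ i, M i) ^ 4 ∣ (A ^ 2 + X * (∏ i, M i) ^ 2) * V - 1 := ⟨-s, by linear_combination hs⟩
  have pw : ∀ {x y z : k[X]}, x ^ 4 ∣ y * z - 1 → x ^ 4 ∣ y ^ 4 * z ^ 4 - 1 := fun {x y z} h => by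
    rw [← mul_pow]
    exact h.trans (by simpa using sub_dvd_pow_sub_pow (y * z) 1 4)
  have l : ∀ i, _ := fun i => by
    have e := mul_prod_erase univ M (mem_univ i)
    have := lb_local (X ^ 3 * hasseDeriv 4 (A ^ 2 + X * (∏ i, M i) ^ 2)) (hM i) (hU i) (hG i)
      (V := V) (by
        rw [e]
        exact (pow_dvd_pow_of_dvd (dvd_prod_of_mem M (mem_univ i)) 4).trans hV)
    rw [e] at this
    exact this
  rw [hb A (∏ i, M i) V (monic_prod_of_monic _ _ fun j _ => hM j) rfl hA hV]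
  simp only [← l]
  generalize (_ + _ + X ^ 3 * hasseDeriv 4 (A ^ 2 + X * (∏ i, M i) ^ 2) * (∏ i, M i) ^ 4) * V = N
  rw [← prod_pow, lm_crt (u := fun i => M i ^ 4) (v := fun i => G i ^ 4) (fun i => (hM i).pow 4)
    (fun i j h => (hc h).pow) (fun i => by rw [prod_pow]; exact pw (hG i)), psi_add, lm_psi_sum]
  ring

theorem locm {ι : Type} [Fintype ι] {M : ι → k[X]} (hM : ∀ i, (M i).Monic)
    (hc : Pairwise fun i j => IsCoprime (M i) (M j)) : ∃ (c : ℝ) (Θ : ι → k[X] → ℝ), |c| = 1 ∧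
      (∀ i A, Θ i A * Θ i A = 1) ∧ (∀ i, Kill 18 (M i) (Θ i)) ∧
      (∀ A, A.natDegree ≤ (∏ i, M i).natDegree → IsCoprime A (∏ i, M i) →
        lam (A ^ 2 + X * (∏ i, M i) ^ 2) = c * ∏ i, Θ i A) ∧
      ∀ i, Irreducible (M i) → ∀ A y z U G, M i ∣ A * U - 1 →
        M i ∣ (∏ j ∈ univ.erase i, M j) * G - 1 →
        Θ i A * Θ i (A + M i * y) * Θ i (A + M i * z) * Θ i (A + M i * y + M i * z) =
          psi (tau (M i) (derivative (M i) ^ 2 * G ^ 2 * U * (y ^ 2 * z + y * z ^ 2))) := by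
  obtain ⟨c, h1, H⟩ := lm_lam hM hc
  choose u hu using fun i => loc_inv (M i)
  have hr : ∀ i, IsCoprime (∏ j ∈ univ.erase i, M j) (M i) := fun i =>
    IsCoprime.prod_left fun j hj => hc (ne_of_mem_erase hj)
  refine ⟨c, fun i A => if IsCoprime A (M i) then
      1 * psi (vv (M i) (∏ i, M i) A (u i A) (u i (∏ j ∈ univ.erase i, M j))) else 1, h1,
    fun i A => ?_, fun i => loc_kill (hM i) _ _ (hu i) (by simp) (by simp),
    fun A hA hco => ?_, fun i hi A y z U G hU hG' => ?_⟩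
  · beta_reduce
    split_ifs
    · rw [one_mul, loc_psi_sq]
    · rw [one_mul]
  · have h2 : ∀ i, IsCoprime A (M i) := fun i =>
      hco.of_isCoprime_of_dvd_right (dvd_prod_of_mem M (mem_univ i))
    simp only [if_pos (h2 _), one_mul]
    exact H A _ _ hA (fun i => hu i A (h2 i)) fun i => hu i _ (hr i)
  · have hp := hM i
    have hG := hu i _ (hr i)
    have hpr := (hr i).symm
    have hB : M i ∣ ∏ i, M i := dvd_prod_of_mem M (mem_univ i)
    have hu' := hu i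
    beta_reduce
    generalize (∏ j ∈ univ.erase i, M j) = r at *
    generalize (∏ j, M j) = B at *
    generalize u i = v at *
    generalize M i = p at *
    have h0 : IsCoprime A p := by
      obtain ⟨t, ht⟩ := hU
      exact ⟨U, -t, by linear_combination ht⟩
    have h1 := (loc_cop y).2 h0
    have h2 := (loc_cop z).2 h0
    have h3 := (loc_cop z).2 h1
    obtain ⟨w, hw⟩ := vv_diff (B := B) (v r) hp hi hB (hu' _ h0) (hu' _ h1) (hu' _ h2) (hu' _ h3)
    have p4 : p ∣ p ^ 4 := dvd_pow_self p (by norm_num)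
    have e1 : p ∣ v A - U := by
      refine h0.symm.dvd_of_dvd_mul_left ?_
      have := dvd_sub (p4.trans (hu' A h0)) hU
      rwa [show A * v A - 1 - (A * U - 1) = A * (v A - U) by ring] at this
    have e2 : p ∣ v r - G := by
      refine hpr.dvd_of_dvd_mul_left ?_
      have := dvd_sub (p4.trans hG) hG'
      rwa [show r * v r - 1 - (r * G - 1) = r * (v r - G) by ring] at this
    have e3 : tau p (derivative p ^ 2 * v r ^ 2 * v A * (y ^ 2 * z + y * z ^ 2)) =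
        tau p (derivative p ^ 2 * G ^ 2 * U * (y ^ 2 * z + y * z ^ 2)) := by
      refine tau_congr hp ?_
      obtain ⟨a, ha⟩ := e1
      obtain ⟨b, hb⟩ := e2
      exact ⟨derivative p ^ 2 * (y ^ 2 * z + y * z ^ 2) * (v r ^ 2 * a + U * (v r + G) * b), by
        linear_combination derivative p ^ 2 * (y ^ 2 * z + y * z ^ 2) * v r ^ 2 * ha +
          derivative p ^ 2 * (y ^ 2 * z + y * z ^ 2) * U * (v r + G) * hb⟩
    simp only [if_pos h0, if_pos h1, if_pos h2, if_pos h3, one_mul]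
    rw [← e3, ← hw, psi_add, psi_add, psi_add, psi_add, loc_psi_as, mul_one]

theorem lm_mu {ι : Type} [Fintype ι] {M : ι → k[X]} {c : ℝ} {Θ : ι → k[X] → ℝ} {A : k[X]}
    (h : IsCoprime A (∏ i, M i) → lam (A ^ 2 + X * (∏ i, M i) ^ 2) = c * ∏ i, Θ i A) :
    mu (A ^ 2 + X * (∏ i, M i) ^ 2) = c * ∏ i, if IsCoprime A (M i) then Θ i A else 0 := by
  rw [mu_ab]
  by_cases hc : IsCoprime A (∏ i, M i)
  · rw [if_pos hc, h hc]
    congr 1
    exact prod_congr rfl fun i _ =>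
      (if_pos (hc.of_isCoprime_of_dvd_right (dvd_prod_of_mem M (mem_univ i)))).symm
  · rw [if_neg hc]
    obtain ⟨i, hi⟩ : ∃ i, ¬ IsCoprime A (M i) := by
      by_contra hh
      exact hc (IsCoprime.prod_right fun i _ => by_contra fun h' => hh ⟨i, h'⟩)
    rw [prod_eq_zero (mem_univ i) (if_neg hi), mul_zero]

theorem linem (J ι : Type) [Fintype J] [Fintype ι] : ∃ (N : ℕ) (c₀ : ℝ), 0 < N ∧
    ∀ (M : J → ι → k[X]) (A g : J → k[X]) (D : k[X]) (u : k[X] → ℝ) (j₀ : J) (i₀ : ι) (l K : ℕ)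
      (x : ℝ), (∀ j i, (M j i).Monic) → (∀ j, Pairwise fun i i' => IsCoprime (M j i) (M j i')) →
      Irreducible (M j₀ i₀) → (∀ j i, j ≠ j₀ → ¬ M j₀ i₀ ∣ M j i) → ¬ M j₀ i₀ ∣ g j₀ →
      ¬ M j₀ i₀ ∣ D → (∀ j, (A j).natDegree ≤ (∏ i, M j i).natDegree) →
      (∀ j, (g j).natDegree + l ≤ (∏ i, M j i).natDegree + 1) → 2 * (M j₀ i₀).natDegree ≤ l →
      K ≤ (M j₀ i₀).natDegree → (∀ j i, (M j i).natDegree + K ≤ l) → D.natDegree + K ≤ l →
      (∀ s, |u s| ≤ 1) → (∀ s y, u (s + D * y) = u s) → 0 ≤ x → x ≤ 1 → 1 / qq k ^ K ≤ x ^ N →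
      |𝔼 s ∈ box k l, u s * ∏ j, mu ((A j + g j * s) ^ 2 + X * (∏ i, M j i) ^ 2)| ≤ c₀ * x := by
  obtain ⟨s', hs'⟩ := vdcQ (k := k) (Option (J × ι)) 18 1
  have n2 : 2 ^ (Fintype.card (Option (J × ι)) * (18 + 1)) ≠ 0 := by positivity
  generalize 2 ^ (Fintype.card (Option (J × ι)) * (18 + 1)) = N at hs' n2
  obtain ⟨c₁, hc₁⟩ := hs' (2 * s' + 4)
  refine ⟨N * 4, c₁ + 1, by omega, fun M A g D u j₀ i₀ l K x hM hc hi n₃ n₄ n₅ a₁ hl l₁ l₂ l₃ l₄
    u1 u2 x0 x1 hx => ?_⟩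
  choose c Θ c1 f1 f3 f4 f5 using fun j => locm (hM j) (hc j)
  have hp := hM j₀ i₀
  have f5' := f5 j₀ i₀ hi
  have hr : IsCoprime (M j₀ i₀) (∏ i ∈ univ.erase i₀, M j₀ i) :=
    IsCoprime.prod_right fun i h => hc j₀ (ne_of_mem_erase h).symm
  have n₆ : ∀ z : J × ι, z ≠ (j₀, i₀) → ¬ M j₀ i₀ ∣ M z.1 z.2 := by
    rintro ⟨j, i⟩ hz hd
    by_cases hj : j = j₀
    · subst hj
      have hi' : i₀ ≠ i := fun h => hz (by rw [h])
      exact hi.not_isUnit ((hc j hi').isUnit_of_dvd' dvd_rfl hd)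
    · exact n₃ j i hj hd
  obtain ⟨T, hT⟩ : ∃ T : J × ι → k[X] → ℝ, ∀ z s, T z s =
      if IsCoprime (A z.1 + g z.1 * s) (M z.1 z.2) then Θ z.1 z.2 (A z.1 + g z.1 * s) else 0 :=
    ⟨_, fun _ _ => rfl⟩
  have hK : ∀ z, Kill 18 (M z.1 z.2) (T z) := fun z => by
    rw [show T z = _ from _root_.funext (hT z)]
    exact lm_comp (f3 z.1 z.2) _ _
  have hT0 := hT (j₀, i₀)
  have f1' := f1 j₀ i₀
  have emu : ∀ s ∈ box k l, ∏ j, mu ((A j + g j * s) ^ 2 + X * (∏ i, M j i) ^ 2)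
      = (∏ j, c j) * (T (j₀, i₀) s * ∏ z ∈ univ.erase (j₀, i₀), T z s) := by
    intro s hs
    rw [mul_prod_erase univ (fun z => T z s) (mem_univ _), Fintype.prod_prod_type,
      ← prod_mul_distrib]
    refine prod_congr rfl fun j _ => ?_
    rw [lm_mu (f4 j _ (lm_deg (a₁ j) (hl j) hs))]
    simp only [hT]
  have cc : |∏ j, c j| = 1 := by rw [abs_prod]; exact prod_eq_one fun j _ => c1 j
  simp only at hT0
  generalize (∏ i ∈ univ.erase i₀, M j₀ i) = r₁ at f5' hr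
  generalize Θ j₀ i₀ = Φ at f5' hT0 f1'
  generalize A j₀ = A₁ at hT0
  generalize g j₀ = g₁ at hT0 n₄
  generalize M j₀ i₀ = p at f5' hr hT0 hp hi n₄ n₅ n₆ l₁ l₂
  have q2 := two_le_qq (k := k)
  have q1 : 1 ≤ qq k := by linarith
  have pg : IsCoprime p g₁ := hi.coprime_iff_not_dvd.2 n₄
  obtain ⟨v', g', hg'⟩ := pg
  obtain ⟨v, G, hG⟩ := hr
  have pG : ¬ p ∣ G := fun h => hi.not_dvd_one (hG ▸ dvd_add (dvd_mul_left _ _) (h.mul_right _))
  have pp : ¬ p ∣ derivative p := fun h =>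
    hi.not_isUnit ((PerfectField.separable_of_irreducible hi).isUnit_of_dvd' dvd_rfl h)
  set α := A₁ * g' with hα
  set Ψ : k[X] → ℝ := fun s => Φ (A₁ + g₁ * (s - α)) with hΨ
  have Φ1 : ∀ A, |Φ A| = 1 := fun A => by
    rcases mul_self_eq_one_iff.1 (f1' A) with h | h <;> simp [h]
  have hκ : ¬ p ∣ derivative p ^ 2 * G ^ 2 * g₁ ^ 2 := fun h => by
    rcases hi.prime.dvd_or_dvd h with h | h
    · rcases hi.prime.dvd_or_dvd h with h | h
      · exact pp (hi.prime.dvd_of_dvd_pow h)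
      · exact pG (hi.prime.dvd_of_dvd_pow h)
    · exact n₄ (hi.prime.dvd_of_dvd_pow h)
  have d2 : ∀ A y z U, p ∣ A * U - 1 →
      Ψ A * Ψ (A + p * y) * Ψ (A + p * z) * Ψ (A + p * y + p * z) =
        psi (tau p (derivative p ^ 2 * G ^ 2 * g₁ ^ 2 * U * (y ^ 2 * z + y * z ^ 2))) := by
    rintro A y z U ⟨t, ht⟩
    have := f5' (A₁ + g₁ * (A - α)) (g₁ * y) (g₁ * z) (g' * U) G
      ⟨t + v' * (A₁ * g' * U - A * U), by
        rw [hα]
        linear_combination ht + (A * U - A₁ * g' * U) * hg'⟩ ⟨-v, by linear_combination hG⟩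
    simp only [hΨ]
    rw [show A₁ + g₁ * (A + p * y - α) = A₁ + g₁ * (A - α) + p * (g₁ * y) by ring,
      show A₁ + g₁ * (A + p * z - α) = A₁ + g₁ * (A - α) + p * (g₁ * z) by ring,
      show A₁ + g₁ * (A + p * y + p * z - α) = A₁ + g₁ * (A - α) + p * (g₁ * y) + p * (g₁ * z) by
        ring, this]
    congr 1
    exact tau_congr hp ⟨-v' * (derivative p ^ 2 * G ^ 2 * g₁ ^ 2 * U * (y ^ 2 * z + y * z ^ 2)), by
      linear_combination (derivative p ^ 2 * G ^ 2 * g₁ ^ 2 * U * (y ^ 2 * z + y * z ^ 2)) * hg'⟩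
  have e1 : 1 / qq k ^ p.natDegree ≤ x ^ (N * 4) :=
    (one_div_le_one_div_of_le (by positivity) (pow_le_pow_right₀ q1 l₂)).trans hx
  have key := hc₁ (fun o => o.elim D fun z => if z = (j₀, i₀) then 1 else M z.1 z.2)
    (fun o => o.elim u fun z => if z = (j₀, i₀) then fun _ => 1 else T z)
    p Ψ l K x hi l₂ (fun o => by
      cases o with
      | none => exact n₅
      | some z =>
        simp only [Option.elim]
        split_ifs with hz
        · exact hi.not_dvd_one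
        · exact n₆ z hz) (fun o => by
      cases o with
      | none => exact l₄
      | some z =>
        simp only [Option.elim]
        split_ifs with hz
        · rw [natDegree_one]; omega
        · exact l₃ _ _) (fun o => by
      cases o with
      | none => exact lm_per 18 u1 u2
      | some z =>
        simp only [Option.elim]
        split_ifs with hz
        · exact lm_per 18 (fun _ => by simp) fun _ _ => rfl
        · exact hK z) (fun A => (Φ1 _).le) x0 x1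
    (hx.trans (pow_le_pow_of_le_one x0 x1 (by omega))) (fun S h0 hS hI => by
      have b := baseQ hp hi hκ l₁ (Φ := Ψ) (fun A => f1' _) d2 h0 hI
      have s1 : (#S : ℝ) ≤ s' := by exact_mod_cast hS
      have s2 : (1 : ℝ) ≤ 2 * s' + 4 := by linarith [Nat.cast_nonneg (α := ℝ) s']
      refine le_of_pow_le_pow_left₀ (n := 4) (by norm_num) (by positivity) ?_
      rw [← abs_pow, abs_of_nonneg (by positivity), mul_pow, ← pow_mul]
      refine b.trans ?_
      rw [div_eq_mul_one_div]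
      exact mul_le_mul ((by linarith : _ ≤ 2 * (s' : ℝ) + 4).trans
        (le_self_pow₀ s2 (by norm_num))) e1 (by positivity) (by positivity))
    {α} (singleton_nonempty _) (by simp) (fun a ha b hb _ => by
      rw [mem_singleton.1 ha, mem_singleton.1 hb])
  have er : ∀ s, ∏ z : J × ι, (if z = (j₀, i₀) then fun _ => (1 : ℝ) else T z) s
      = ∏ z ∈ univ.erase (j₀, i₀), T z s := fun s => by
    rw [← mul_prod_erase univ _ (mem_univ (j₀, i₀)), if_pos rfl, one_mul]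
    exact prod_congr rfl fun z hz => by rw [if_neg (ne_of_mem_erase hz)]
  simp only [prod_singleton, hΨ, add_sub_cancel_right, Fintype.prod_option, Option.elim, er] at key
  have e2 := exp_box_dvd hp.ne_zero (show p.natDegree ≤ l by omega)
    (show IsCoprime g₁ p from ⟨g', v', by linear_combination hg'⟩) A₁
  have e3 : x ^ (N * 4) ≤ x := pow_le_of_le_one x0 x1 (by omega)
  have R1 : ∀ s, |u s * ∏ z ∈ univ.erase (j₀, i₀), T z s| ≤ 1 := fun s => by
    rw [abs_mul, abs_prod]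
    exact mul_le_one₀ (u1 s) (prod_nonneg fun _ _ => abs_nonneg _)
      (prod_le_one (fun _ _ => abs_nonneg _) fun z _ => lm_abs (hK z) s)
  have pt : ∀ s ∈ box k l, |T (j₀, i₀) s * (u s * ∏ z ∈ univ.erase (j₀, i₀), T z s)
      - Φ (A₁ + g₁ * s) * (u s * ∏ z ∈ univ.erase (j₀, i₀), T z s)| ≤
        if p ∣ A₁ + g₁ * s then (1 : ℝ) else 0 := by
    intro s _
    rw [hT0]
    by_cases c0 : p ∣ A₁ + g₁ * s
    · rw [if_pos c0, if_neg fun h : IsCoprime _ p =>
        hi.not_isUnit (h.isUnit_of_dvd' c0 dvd_rfl), zero_mul, zero_sub, abs_neg, abs_mul, Φ1,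
        one_mul]
      exact R1 s
    · rw [if_neg c0, if_pos (hi.coprime_iff_not_dvd.2 c0).symm, sub_self, abs_zero]
  have fin := (Finset.abs_expect_le _ _).trans (Finset.expect_le_expect pt)
  rw [Finset.expect_sub_distrib, e2] at fin
  have e4 : 𝔼 s ∈ box k l, u s * ∏ j, mu ((A j + g j * s) ^ 2 + X * (∏ i, M j i) ^ 2)
      = (∏ j, c j) * 𝔼 s ∈ box k l, T (j₀, i₀) s * (u s * ∏ z ∈ univ.erase (j₀, i₀), T z s) := by
    rw [mul_expect]
    exact expect_congr rfl fun s hs => by rw [emu s hs]; ring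
  rw [e4, abs_mul, cc, one_mul]
  have := abs_sub_abs_le_abs_sub
    (𝔼 s ∈ box k l, T (j₀, i₀) s * (u s * ∏ z ∈ univ.erase (j₀, i₀), T z s))
    (𝔼 s ∈ box k l, Φ (A₁ + g₁ * s) * (u s * ∏ z ∈ univ.erase (j₀, i₀), T z s))
  linarith

omit [Fintype k] [CharP k 2] in
theorem lm_cop {p p' : k[X]} (hp : p.Monic) (hi : Irreducible p) (hp' : p'.Monic)
    (hi' : Irreducible p') (h : p ≠ p') : IsCoprime p p' :=
  hi.coprime_iff_not_dvd.2 fun hd =>
    h (eq_of_monic_of_associated hp hp' (hi.associated_of_dvd hi' hd))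

omit [Fintype k] [CharP k 2] in
theorem lm_card {H : k[X]} (hH : H ≠ 0) {S : Finset k[X]} {c : ℕ}
    (hS : ∀ p ∈ S, p.Monic ∧ Irreducible p ∧ p ∣ H ∧ c < p.natDegree) :
    (c + 1) * #S ≤ H.natDegree := by
  have hd : ∏ p ∈ S, p ∣ H := Finset.prod_dvd_of_coprime (fun p hp p' hp' h =>
    lm_cop (hS p hp).1 (hS p hp).2.1 (hS p' hp').1 (hS p' hp').2.1 h) fun p hp => (hS p hp).2.2.1
  refine le_trans ?_ (natDegree_le_of_dvd hd hH)
  rw [natDegree_prod_of_monic _ _ fun p hp => (hS p hp).1, mul_comm, ← smul_eq_mul]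
  exact card_nsmul_le_sum _ _ _ fun p hp => (hS p hp).2.2.2

omit [Fintype k] [CharP k 2] in
theorem lm_enum {M : k[X]} (hM : M.Monic) (hs : Squarefree M) {κ c : ℕ}
    (hc : ∀ P, Irreducible P → P ∣ M → c < P.natDegree) (hκ : M.natDegree ≤ κ * (c + 1)) :
    ∃ P : Fin κ → k[X], (∀ i, (P i).Monic) ∧ (∀ i, P i = 1 ∨ Irreducible (P i) ∧ P i ∣ M) ∧
      (Pairwise fun i j => IsCoprime (P i) (P j)) ∧ ∏ i, P i = M ∧
      ∀ p, p.Monic → Irreducible p → p ∣ M → ∃ i, P i = p := by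
  obtain ⟨S, hS⟩ : ∃ S, S = (UniqueFactorizationMonoid.normalizedFactors M).toFinset := ⟨_, rfl⟩
  have mem : ∀ p, p ∈ S ↔ Irreducible p ∧ p.Monic ∧ p ∣ M := fun p => by
    rw [hS, Multiset.mem_toFinset, Polynomial.mem_normalizedFactors_iff hM.ne_zero]
  have pr : ∏ p ∈ S, p = M := by
    rw [hS, Finset.prod, Multiset.toFinset_val, Multiset.map_id', Multiset.dedup_eq_self.2
      ((UniqueFactorizationMonoid.squarefree_iff_nodup_normalizedFactors hM.ne_zero).1 hs),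
      UniqueFactorizationMonoid.prod_normalizedFactors_eq hM.ne_zero, hM.normalize_eq_self]
  have cd := lm_card hM.ne_zero (S := S) (c := c) fun p hp =>
    ⟨((mem p).1 hp).2.1, ((mem p).1 hp).1, ((mem p).1 hp).2.2,
      hc p ((mem p).1 hp).1 ((mem p).1 hp).2.2⟩
  have cd2 : #S ≤ κ := Nat.le_of_mul_le_mul_left (cd.trans (hκ.trans_eq (mul_comm _ _))) (by omega)
  obtain ⟨e⟩ : Nonempty (S ↪ Fin κ) := Function.Embedding.nonempty_of_card_le (by simpa using cd2)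
  have h1 : ∀ s : S, Function.extend e (fun s : S => (s : k[X])) (fun _ => 1) (e s) = s :=
    fun s => e.injective.extend_apply _ _ s
  have h2 : ∀ i, (¬ ∃ s, e s = i) → Function.extend e (fun s : S => (s : k[X])) (fun _ => 1) i = 1 :=
    fun i h => Function.extend_apply' _ _ _ h
  refine ⟨Function.extend e (fun s : S => (s : k[X])) (fun _ => 1), fun i => ?_, fun i => ?_,
    fun i j hij => ?_, ?_, fun p a b c => ⟨e ⟨p, (mem p).2 ⟨b, a, c⟩⟩, h1 _⟩⟩
  · by_cases h : ∃ s, e s = i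
    · obtain ⟨s, rfl⟩ := h
      rw [h1]; exact ((mem _).1 s.2).2.1
    · rw [h2 i h]; exact monic_one
  · by_cases h : ∃ s, e s = i
    · obtain ⟨s, rfl⟩ := h
      rw [h1]; exact Or.inr ⟨((mem _).1 s.2).1, ((mem _).1 s.2).2.2⟩
    · exact Or.inl (h2 i h)
  · beta_reduce
    by_cases h : ∃ s, e s = i
    · by_cases h' : ∃ s, e s = j
      · obtain ⟨s, rfl⟩ := h
        obtain ⟨t, rfl⟩ := h'
        rw [h1, h1]
        exact lm_cop ((mem _).1 s.2).2.1 ((mem _).1 s.2).1 ((mem _).1 t.2).2.1 ((mem _).1 t.2).1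
          fun h => hij (congrArg e (Subtype.ext h))
      · rw [h2 j h']; exact isCoprime_one_right
    · rw [h2 i h]; exact isCoprime_one_left
  · rw [← pr, ← Finset.prod_coe_sort S fun p => p]
    exact (Fintype.prod_of_injective e e.injective _ _ (fun i h => h2 i h) fun s => (h1 s).symm).symm

theorem lm_not_dvd {a r p : k[X]} (hr : Squarefree r) (hc : IsCoprime a r) (hi : Irreducible p)
    (hp : p ∣ bb (a * r)) : ¬ p ∣ r := by
  intro h
  have e := ab_spec (a * r)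
  have h1 : p ∣ aa (a * r) := by
    refine hi.prime.dvd_of_dvd_pow (n := 2) ?_
    have h2 : p ∣ X * bb (a * r) ^ 2 := (dvd_pow hp two_ne_zero).mul_left _
    exact (dvd_add_left h2).1 (e ▸ h.mul_left a)
  have h3 : p * p ∣ a * r := by
    rw [e, ← sq]
    exact dvd_add (pow_dvd_pow_of_dvd h1 2) ((pow_dvd_pow_of_dvd hp 2).mul_left _)
  have h4 : IsCoprime (p * p) a :=
    ((hc.of_isCoprime_of_dvd_right h).symm).mul_left (hc.of_isCoprime_of_dvd_right h).symm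
  exact hi.not_isUnit (hr p (h4.dvd_of_dvd_mul_left h3))

theorem lm_line (a r s : k[X]) :
    (a + r * s ^ 2) * r = (aa (a * r) + r * s) ^ 2 + X * bb (a * r) ^ 2 := by
  linear_combination ab_spec (a * r) - (aa (a * r) * r * s) * (CharTwo.two_eq_zero : (2 : k[X]) = 0)

theorem linew (J : Type) [Fintype J] (κ : ℕ) : ∃ (N : ℕ) (c₀ : ℝ), 0 < N ∧
    ∀ (a r M : J → k[X]) (D : J → ℕ) (E p : k[X]) (u : k[X] → ℝ) (j₀ : J) (l c : ℕ) (x : ℝ),
      (∀ j, a j * r j ∈ mon k (2 * D j + 1)) → (∀ j, Squarefree (r j)) →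
      (∀ j, IsCoprime (a j) (r j)) → (∀ j, (r j).natDegree + l ≤ D j + 1) →
      (∀ j, (M j).Monic) → (∀ j, Squarefree (M j)) → (∀ j, M j ∣ bb (a j * r j)) →
      (∀ j, D j ≤ (M j).natDegree + c) → (∀ j, D j ≤ κ * (c + 1)) →
      (∀ j P, Irreducible P → P ∣ M j → c < P.natDegree ∧ 2 * P.natDegree ≤ l) →
      p.Monic → Irreducible p → p ∣ M j₀ → ¬ p ∣ E → (∀ j, j ≠ j₀ → ¬ p ∣ bb (a j * r j)) →
      E.natDegree + c ≤ l → (∀ s, |u s| ≤ 1) → (∀ s y, u (s + E * y) = u s) → 0 ≤ x → x ≤ 1 →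
      1 / qq k ^ c ≤ x ^ N →
      |𝔼 s ∈ box k l, u s * ∏ j, mu (a j + r j * s ^ 2)| ≤ c₀ * x := by
  obtain ⟨N, c₀, hN, H⟩ := linem (k := k) J (Option (Fin κ))
  refine ⟨N, c₀, hN, fun a r M D E p u j₀ l c x h1 h2 h3 h4 h5 h6 h7 h8 h9 h10 p1 p2 p3 p4 p5
    hE u1 u2 x0 x1 hx => ?_⟩
  have hB := fun j => mem_mon.1 (bb_mon (h1 j)).1
  choose C hC using h7
  have Cm : ∀ j, (C j).Monic := fun j => (h5 j).of_mul_monic_left (hC j ▸ (hB j).1)
  have Cd : ∀ j, (M j).natDegree + (C j).natDegree = D j := fun j => by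
    rw [← (h5 j).natDegree_mul (Cm j), ← hC j, (hB j).2]
  choose P P1 P2 P3 P4 P5 using fun j => lm_enum (κ := κ) (h5 j) (h6 j)
    (fun P a b => (h10 j P a b).1) (by have := Cd j; have := h9 j; omega)
  obtain ⟨i₀, hi₀⟩ := P5 j₀ p p1 p2 p3
  have hp := h10 j₀ p p2 p3
  have pe : ∀ j, ∏ o : Option (Fin κ), o.elim (C j) (P j) = bb (a j * r j) := fun j => by
    rw [Fintype.prod_option, hC j, mul_comm]
    exact congrArg (· * C j) (P4 j)
  have cp : ∀ j i, IsCoprime (P j i) (C j) := fun j i => by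
    rcases P2 j i with h | ⟨h, h'⟩
    · rw [h]; exact isCoprime_one_left
    · refine h.coprime_iff_not_dvd.2 fun hd => ?_
      have := natDegree_le_of_dvd hd (Cm j).ne_zero
      have := (h10 j _ h h').1
      have := Cd j
      have := h8 j
      omega
  have key := H (fun j o => o.elim (C j) (P j)) (fun j => aa (a j * r j)) r E u j₀ (some i₀) l c x
    (fun j o => by
      cases o with
      | none => exact Cm j
      | some i => exact P1 j i)
    (fun j o o' h => by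
      cases o with
      | none =>
        cases o' with
        | none => exact absurd rfl h
        | some i => exact (cp j i).symm
      | some i =>
        cases o' with
        | none => exact cp j i
        | some i' => exact P3 j fun h' => h (congrArg some h'))
    (by simp only [Option.elim, hi₀]; exact p2)
    (fun j o hj hd => by
      simp only [Option.elim, hi₀] at hd
      exact p5 j hj (hd.trans (pe j ▸ dvd_prod_of_mem _ (mem_univ o))))
    (by simp only [Option.elim, hi₀]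
        exact lm_not_dvd (h2 j₀) (h3 j₀) p2 (p3.trans ⟨_, hC j₀⟩))
    (by simp only [Option.elim, hi₀]; exact p4)
    (fun j => by rw [pe, (hB j).2]; exact (bb_mon (h1 j)).2)
    (fun j => by rw [pe, (hB j).2]; exact h4 j)
    (by simp only [Option.elim, hi₀]; exact hp.2)
    (by simp only [Option.elim, hi₀]; exact hp.1.le)
    (fun j o => by
      cases o with
      | none =>
        have := Cd j
        have := h8 j
        simp only [Option.elim]
        omega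
      | some i =>
        simp only [Option.elim]
        rcases P2 j i with h | ⟨h, h'⟩
        · rw [h, natDegree_one]; omega
        · have := h10 j _ h h'
          omega) hE u1 u2 x0 x1 hx
  simp only [pe, ← lm_line] at key
  have e1 : ∀ s, u s * ∏ j, mu ((a j + r j * s ^ 2) * r j)
      = (∏ j, mu (r j)) * (u s * ∏ j, mu (a j + r j * s ^ 2)) := fun s => by
    rw [prod_congr rfl fun j _ => mu_mul ((h3 j).add_mul_left_left (s ^ 2)), prod_mul_distrib]
    ring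
  have e2 : |∏ j, mu (r j)| = 1 := by
    rw [abs_prod]
    exact prod_eq_one fun j _ => by rw [mu, if_pos (h2 j), abs_lam]
  simp only [e1] at key
  rwa [← mul_expect, abs_mul, e2, one_mul] at key

omit [Fintype k] [CharP k 2] in
theorem lm_w_le {B : k[X]} (hB : B ≠ 0) {κ c : ℕ} (hκ : B.natDegree ≤ κ * (c + 1))
    {MM : Finset k[X]} (h : ∀ M ∈ MM, M.Monic ∧ Squarefree M ∧
      ∀ P, Irreducible P → P ∣ M → c < P.natDegree) : #{M ∈ MM | M ∣ B} ≤ 2 ^ κ := by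
  obtain ⟨S, hS⟩ : ∃ S, S = {p ∈ (UniqueFactorizationMonoid.normalizedFactors B).toFinset |
    c < p.natDegree} := ⟨_, rfl⟩
  have mem : ∀ p, p ∈ S ↔ (Irreducible p ∧ p.Monic ∧ p ∣ B) ∧ c < p.natDegree := fun p => by
    rw [hS, mem_filter, Multiset.mem_toFinset, Polynomial.mem_normalizedFactors_iff hB]
  have cd := lm_card hB (S := S) (c := c) fun p hp =>
    ⟨((mem p).1 hp).1.2.1, ((mem p).1 hp).1.1, ((mem p).1 hp).1.2.2, ((mem p).1 hp).2⟩
  have cd2 : #S ≤ κ := Nat.le_of_mul_le_mul_left (cd.trans (hκ.trans_eq (mul_comm _ _))) (by omega)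
  have pr : ∀ M ∈ MM, ∏ p ∈ (UniqueFactorizationMonoid.normalizedFactors M).toFinset, p = M :=
    fun M hM => by
      have h0 := (h M hM).1.ne_zero
      rw [Finset.prod, Multiset.toFinset_val, Multiset.map_id', Multiset.dedup_eq_self.2
        ((UniqueFactorizationMonoid.squarefree_iff_nodup_normalizedFactors h0).1 (h M hM).2.1),
        UniqueFactorizationMonoid.prod_normalizedFactors_eq h0, (h M hM).1.normalize_eq_self]
  refine le_trans ?_ ((card_powerset S).le.trans (Nat.pow_le_pow_right two_pos cd2))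
  refine card_le_card_of_injOn
    (fun M => (UniqueFactorizationMonoid.normalizedFactors M).toFinset) (fun M hM => ?_)
    fun M hM M' hM' e => ?_
  · obtain ⟨h1, h2⟩ := mem_filter.1 hM
    refine mem_coe.2 (mem_powerset.2 fun p hp => ?_)
    rw [Multiset.mem_toFinset, Polynomial.mem_normalizedFactors_iff (h M h1).1.ne_zero] at hp
    exact (mem p).2 ⟨⟨hp.1, hp.2.1, hp.2.2.trans h2⟩, (h M h1).2.2 p hp.1 hp.2.2⟩
  · rw [← pr M (mem_filter.1 hM).1, ← pr M' (mem_filter.1 hM').1]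
    exact congrArg (fun T : Finset k[X] => ∏ p ∈ T, p) e

omit [CharP k 2] in
theorem lm_shift {τ l : ℕ} {v : k[X]} (h : v.natDegree + 2 * l ≤ τ + 1) (F : k[X] → ℝ) :
    𝔼 t ∈ box k τ, F t = 𝔼 t ∈ box k τ, 𝔼 s ∈ box k l, F (t + v * s ^ 2) := by
  rw [expect_comm, ← expect_const (box_nonempty (k := k) l) (𝔼 t ∈ box k τ, F t)]
  refine expect_congr rfl fun s hs => (exp_box_shift ?_ F).symm
  by_cases h0 : v * s ^ 2 = 0
  · rw [h0, degree_zero]; exact WithBot.bot_lt_coe _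
  have hs0 : s ≠ 0 := fun hh => h0 (by rw [hh]; simp)
  rw [mem_box, ← natDegree_lt_iff_degree_lt hs0] at hs
  have h1 := natDegree_mul_le (p := v) (q := s ^ 2)
  have h2 := natDegree_pow_le (p := s) (n := 2)
  exact (natDegree_lt_iff_degree_lt h0).1 (by omega)

theorem lm_unif {p g d : k[X]} (hp : Irreducible p) (hg : Irreducible g) (hd : ¬ p ∣ d) {τ : ℕ}
    (hτ : 2 * p.natDegree ≤ τ) (a : k[X]) :
    𝔼 t ∈ box k τ, (if p ∣ bb ((a + d * t) * (d * g)) then (1 : ℝ) else 0)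
      = 1 / qq k ^ p.natDegree := by
  obtain ⟨v, hv, hv'⟩ : ∃ v : k[X], v.natDegree ≤ 1 ∧ ¬ p ∣ bb (g * v) := by
    by_cases h : p ∣ bb g
    · refine ⟨X, natDegree_X_le, fun h' => ?_⟩
      rw [(ab_uniq (h := g * X) (a := X * bb g) (b := aa g) (by
        linear_combination X * ab_spec g)).2] at h'
      refine hp.not_isUnit (hg.squarefree p ?_)
      rw [ab_spec g, ← sq]
      exact dvd_add (pow_dvd_pow_of_dvd h' 2) ((pow_dvd_pow_of_dvd h 2).mul_left _)
    · exact ⟨1, by simp, by rwa [mul_one]⟩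
  rw [lm_shift (l := p.natDegree) (v := v) (by omega),
    ← expect_const (box_nonempty (k := k) τ) (1 / qq k ^ p.natDegree)]
  refine expect_congr rfl fun t _ => ?_
  rw [← exp_box_dvd hp.ne_zero le_rfl (c := bb (g * v) * d)
    (hp.coprime_iff_not_dvd.2 fun h => (hp.prime.dvd_or_dvd h).elim hv' hd).symm
    (bb ((a + d * t) * (d * g)))]
  refine expect_congr rfl fun s _ => ?_
  rw [show (a + d * (t + v * s ^ 2)) * (d * g) = (a + d * t) * (d * g) + g * v * (d * s) ^ 2 by ring,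
    bb_add, bb_mul_sq, mul_assoc]

theorem lm_bb_ne {g Y : k[X]} (hg : Irreducible g) (h : ¬ g ∣ Y) : bb (g * Y) ≠ 0 := by
  intro h0
  have e := ab_spec (g * Y)
  rw [h0] at e
  have h1 : g ∣ aa (g * Y) := hg.prime.dvd_of_dvd_pow (n := 2) ⟨Y, by linear_combination -e⟩
  obtain ⟨z, hz⟩ := h1
  rw [hz] at e
  exact h ⟨z ^ 2, mul_left_cancel₀ hg.ne_zero (by linear_combination e)⟩

theorem lm_bb_deg (Y : k[X]) : (bb Y).natDegree ≤ Y.natDegree := by
  refine natDegree_le_of_degree_le (bb_deg (m := Y.natDegree) ?_).le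
  exact degree_le_natDegree.trans_lt (by exact_mod_cast (by omega))

theorem fibre (J : Type) [Fintype J] (κ : ℕ) : ∃ (N : ℕ) (c₀ : ℝ), 0 < N ∧ 0 ≤ c₀ ∧
    ∀ (a d : J → k[X]) (MM : J → Finset k[X]) (D : J → ℕ) (g E : k[X]) (u : k[X] → ℝ) (j₀ : J)
      (n τ l c : ℕ) (x : ℝ), (∀ j, (a j).Monic) → (∀ j, (d j).Monic) → g.Monic → Irreducible g →
      (∀ j, (d j).natDegree + τ ≤ (a j).natDegree) →
      (∀ j, (a j).natDegree + (d j).natDegree + g.natDegree = 2 * D j + 1) →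
      (∀ j, 2 * D j + 1 ≤ n) → (∀ j, Squarefree (d j * g)) → (∀ j, IsCoprime (a j) (d j)) →
      (∀ j, j ≠ j₀ → ¬ g ∣ a j₀ * d j + a j * d j₀) → g.natDegree + 2 * l ≤ τ + 1 → 0 < l →
      (∀ j, ∀ M ∈ MM j, M.Monic ∧ Squarefree M ∧ D j ≤ M.natDegree + c ∧
        ∀ P, Irreducible P → P ∣ M → c < P.natDegree ∧ 2 * P.natDegree ≤ l) →
      (∀ j, D j ≤ κ * (c + 1)) → c < D j₀ → E ≠ 0 → E.natDegree + c ≤ l → (∀ t, |u t| ≤ 1) →
      (∀ t y, u (t + E * y) = u t) → 0 ≤ x → x ≤ 1 → 1 / qq k ^ c ≤ x ^ N →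
      1 / qq k ^ g.natDegree ≤ x →
      |𝔼 t ∈ box k τ, u t * ∏ j, ((#{M ∈ MM j | M ∣ bb ((a j + d j * t) * (d j * g))} : ℝ) *
        mu (a j + d j * t))| ≤ c₀ * n * x := by
  obtain ⟨N, c₀, hN, H⟩ := linew (k := k) J κ
  refine ⟨N, (2 ^ κ) ^ Fintype.card J * (|c₀| + 4 * Fintype.card J + 1), hN, by positivity,
    fun a d MM D g E u j₀ n τ l c x a1 d1 g1 g2 h1 h2 h3 h4 h5 h6 h7 l0 h8 h9 h10 E0 E1 u1 u2
      x0 x1 hx hg => ?_⟩
  have h2' : (2 : k[X]) = 0 := CharTwo.two_eq_zero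
  have q2 := two_le_qq (k := k)
  have gd : ∀ j, ¬ g ∣ d j := fun j h => g2.not_isUnit (h4 j g (mul_dvd_mul_right h g))
  have am : ∀ t ∈ box k τ, ∀ j, (a j + d j * t) * (d j * g) ∈ mon k (2 * D j + 1) := by
    intro t ht j
    have dl : (d j * t).degree < (a j).degree := by
      rcases eq_or_ne t 0 with rfl | t0
      · rw [mul_zero, degree_zero]
        exact bot_lt_iff_ne_bot.2 fun h => (a1 j).ne_zero (degree_eq_bot.1 h)
      rw [mem_box, ← natDegree_lt_iff_degree_lt t0] at ht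
      have := natDegree_mul_le (p := d j) (q := t)
      have := h1 j
      exact degree_lt_degree (by omega)
    have m1 : (a j + d j * t).Monic := (a1 j).add_of_left dl
    rw [mem_mon, m1.natDegree_mul ((d1 j).mul g1), (d1 j).natDegree_mul g1,
      natDegree_eq_of_degree_eq (degree_add_eq_left_of_degree_lt dl), ← add_assoc]
    exact ⟨m1.mul ((d1 j).mul g1), h2 j⟩
  obtain ⟨Y, hY⟩ : ∃ Y : J → k[X], ∀ j, Y j = bb (g * (d j₀ * d j * (a j₀ * d j + a j * d j₀))) :=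
    ⟨_, fun _ => rfl⟩
  have Y0 : ∀ j ∈ univ.erase j₀, Y j ≠ 0 := fun j hj => by
    rw [hY]
    refine lm_bb_ne g2 fun h => ?_
    rcases g2.prime.dvd_or_dvd h with h | h
    · exact (g2.prime.dvd_or_dvd h).elim (gd j₀) (gd j)
    · exact h6 j (ne_of_mem_erase hj) h
  have Yd : ∀ j, (Y j).natDegree ≤ 3 * n := fun j => by
    rw [hY]
    refine (lm_bb_deg _).trans ?_
    have e1 := natDegree_mul_le (p := g) (q := d j₀ * d j * (a j₀ * d j + a j * d j₀))
    have e2 := natDegree_mul_le (p := d j₀ * d j) (q := a j₀ * d j + a j * d j₀)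
    have e3 := natDegree_mul_le (p := d j₀) (q := d j)
    have e4 := natDegree_add_le (a j₀ * d j) (a j * d j₀)
    have e5 := natDegree_mul_le (p := a j₀) (q := d j)
    have e6 := natDegree_mul_le (p := a j) (q := d j₀)
    have := h2 j; have := h2 j₀; have := h3 j; have := h3 j₀
    omega
  have Ye : ∀ t j, Y j = bb ((a j₀ + d j₀ * t) * (d j₀ * g)) * d j
      + bb ((a j + d j * t) * (d j * g)) * d j₀ := fun t j => by
    rw [hY, ← bb_mul_sq, ← bb_mul_sq, ← bb_add]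
    congr 1
    linear_combination (-(g * t * d j₀ ^ 2 * d j ^ 2)) * h2'
  have H0 : E * ∏ j ∈ univ.erase j₀, Y j ≠ 0 := mul_ne_zero E0 (prod_ne_zero_iff.2 Y0)
  have Hd : (E * ∏ j ∈ univ.erase j₀, Y j).natDegree ≤ (3 * Fintype.card J + 1) * n := by
    have e1 := natDegree_mul_le (p := E) (q := ∏ j ∈ univ.erase j₀, Y j)
    have e2 := natDegree_prod_le (univ.erase j₀) Y
    have e3 := sum_le_card_nsmul (univ.erase j₀) _ _ fun j _ => Yd j
    have e4 : #(univ.erase j₀) ≤ Fintype.card J := card_le_univ _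
    have e5 := Nat.mul_le_mul_right (3 * n) e4
    have := h1 j₀; have := h2 j₀; have := h3 j₀
    rw [smul_eq_mul] at e3
    have e6 : (3 * Fintype.card J + 1) * n = Fintype.card J * (3 * n) + n := by ring
    omega
  obtain ⟨S, hS⟩ : ∃ S, S = {p ∈ (UniqueFactorizationMonoid.normalizedFactors
    (E * ∏ j ∈ univ.erase j₀, Y j)).toFinset |
      c < p.natDegree ∧ 2 * p.natDegree ≤ l ∧ ¬ p ∣ d j₀} := ⟨_, rfl⟩
  have mem : ∀ p, p ∈ S ↔ (Irreducible p ∧ p.Monic ∧ p ∣ E * ∏ j ∈ univ.erase j₀, Y j) ∧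
      c < p.natDegree ∧ 2 * p.natDegree ≤ l ∧ ¬ p ∣ d j₀ := fun p => by
    rw [hS, mem_filter, Multiset.mem_toFinset, Polynomial.mem_normalizedFactors_iff H0]
  have cd := lm_card H0 (S := S) (c := 0) fun p hp =>
    ⟨((mem p).1 hp).1.2.1, ((mem p).1 hp).1.1, ((mem p).1 hp).1.2.2, by
      have := ((mem p).1 hp).2.1
      omega⟩
  have pt : ∀ t ∈ box k τ, |𝔼 s ∈ box k l, u (t + g * s ^ 2) * ∏ j,
      ((#{M ∈ MM j | M ∣ bb ((a j + d j * (t + g * s ^ 2)) * (d j * g))} : ℝ) *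
        mu (a j + d j * (t + g * s ^ 2)))| ≤ (2 ^ κ) ^ Fintype.card J * (|c₀| * x +
          (∑ j, if g ∣ a j + d j * t then (1 : ℝ) else 0) +
          ∑ p ∈ S, if p ∣ bb ((a j₀ + d j₀ * t) * (d j₀ * g)) then (1 : ℝ) else 0) := by
    intro t ht
    have e1 : ∀ s j, bb ((a j + d j * (t + g * s ^ 2)) * (d j * g))
        = bb ((a j + d j * t) * (d j * g)) := fun s j => by
      rw [show (a j + d j * (t + g * s ^ 2)) * (d j * g)
        = (a j + d j * t) * (d j * g) + (d j * g * s) ^ 2 by ring, bb_add, bb_sq, add_zero]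
    have e2 : ∀ s j, a j + d j * (t + g * s ^ 2) = a j + d j * t + d j * g * s ^ 2 :=
      fun s j => by ring
    simp only [e1, prod_mul_distrib, mul_left_comm (u _)]
    simp only [e2]
    rw [← mul_expect, abs_mul]
    have s1 : 0 ≤ ∑ j, if g ∣ a j + d j * t then (1 : ℝ) else 0 :=
      sum_nonneg fun _ _ => by split_ifs <;> norm_num
    have s2 : 0 ≤ ∑ p ∈ S, if p ∣ bb ((a j₀ + d j₀ * t) * (d j₀ * g)) then (1 : ℝ) else 0 :=
      sum_nonneg fun _ _ => by split_ifs <;> norm_num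
    have s3 : 0 ≤ |c₀| * x := by positivity
    by_cases w0 : ∃ j, {M ∈ MM j | M ∣ bb ((a j + d j * t) * (d j * g))} = ∅
    · obtain ⟨j, hj⟩ := w0
      rw [prod_eq_zero (mem_univ j) (by rw [hj, card_empty, Nat.cast_zero]), abs_zero, zero_mul]
      positivity
    refine mul_le_mul ?_ ?_ (abs_nonneg _) (by positivity)
    · rw [abs_of_nonneg (prod_nonneg fun _ _ => Nat.cast_nonneg _), ← card_univ, ← prod_const]
      refine prod_le_prod (fun _ _ => Nat.cast_nonneg _) fun j _ => ?_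
      have hB := mem_mon.1 (bb_mon (am t ht j)).1
      exact_mod_cast lm_w_le hB.1.ne_zero (hB.2 ▸ h9 j) fun M hM =>
        ⟨(h8 j M hM).1, (h8 j M hM).2.1, fun P a b => ((h8 j M hM).2.2.2 P a b).1⟩
    have triv : |𝔼 s ∈ box k l, u (t + g * s ^ 2) * ∏ j, mu (a j + d j * t + d j * g * s ^ 2)| ≤ 1 :=
      (Finset.abs_expect_le _ _).trans (expect_le (box_nonempty l) fun s _ => by
        rw [abs_mul, abs_prod]
        exact mul_le_one₀ (u1 _) (prod_nonneg fun _ _ => abs_nonneg _)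
          (prod_le_one (fun _ _ => abs_nonneg _) fun _ _ => abs_mu _))
    by_cases b1 : ∃ j, g ∣ a j + d j * t
    · obtain ⟨j, hj⟩ := b1
      have := single_le_sum (f := fun j => if g ∣ a j + d j * t then (1 : ℝ) else 0)
        (fun _ _ => by split_ifs <;> norm_num) (mem_univ j)
      simp only [if_pos hj] at this
      linarith
    choose M hM using fun j => nonempty_iff_ne_empty.2 fun h => w0 ⟨j, h⟩
    have M1 := fun j => h8 j _ (mem_filter.1 (hM j)).1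
    have M2 := fun j => (mem_filter.1 (hM j)).2
    have co : ∀ j, IsCoprime (a j + d j * t) (d j * g) := fun j =>
      ((h5 j).add_mul_left_left t).mul_right
        (g2.coprime_iff_not_dvd.2 fun h => b1 ⟨j, h⟩).symm
    obtain ⟨p, p1, p2, p3⟩ := exists_monic_irreducible_factor (M j₀) (fun h => by
      have := natDegree_eq_zero_of_isUnit h
      have := (M1 j₀).2.2.1
      omega)
    have p4 := (M1 j₀).2.2.2 p p2 p3
    have p5 := p3.trans (M2 j₀)
    by_cases b2 : p ∣ E * ∏ j ∈ univ.erase j₀, Y j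
    · have := single_le_sum
        (f := fun p => if p ∣ bb ((a j₀ + d j₀ * t) * (d j₀ * g)) then (1 : ℝ) else 0)
        (fun _ _ => by split_ifs <;> norm_num) ((mem p).2 ⟨⟨p2, p1, b2⟩, p4.1, p4.2, fun h =>
          lm_not_dvd (h4 j₀) (co j₀) p2 p5 (h.mul_right _)⟩)
      simp only [if_pos p5] at this
      linarith
    have key := H (fun j => a j + d j * t) (fun j => d j * g) M D E p (fun s => u (t + g * s ^ 2))
      j₀ l c x (am t ht) h4 co (fun j => by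
        have := natDegree_mul_le (p := d j) (q := g)
        have := h1 j; have := h2 j
        omega) (fun j => (M1 j).1) (fun j => (M1 j).2.1) M2 (fun j => (M1 j).2.2.1) h9
      (fun j => (M1 j).2.2.2) p1 p2 p3 (fun h => b2 (h.mul_right _)) (fun j hj h => b2 (by
        refine Dvd.dvd.mul_left (Dvd.dvd.trans ?_ (dvd_prod_of_mem Y (mem_erase.2 ⟨hj, mem_univ j⟩))) _
        rw [Ye t j]
        exact dvd_add (p5.mul_right _) (h.mul_right _))) E1 (fun s => u1 _) (fun s y => by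
        rw [show t + g * (s + E * y) ^ 2 = t + g * s ^ 2 + E * (g * (2 * s * y + E * y ^ 2)) by ring,
          u2]) x0 x1 hx
    have := mul_le_mul_of_nonneg_right (le_abs_self c₀) x0
    linarith
  rw [lm_shift h7]
  refine (Finset.abs_expect_le _ _).trans ((Finset.expect_le_expect pt).trans ?_)
  rw [← mul_expect, mul_assoc, mul_assoc]
  refine mul_le_mul_of_nonneg_left ?_ (by positivity)
  rw [expect_add_distrib, expect_add_distrib, expect_const (box_nonempty τ), expect_sum_comm,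
    expect_sum_comm]
  have t1 : ∑ j, 𝔼 t ∈ box k τ, (if g ∣ a j + d j * t then (1 : ℝ) else 0)
      ≤ Fintype.card J * x := by
    rw [← card_univ, ← nsmul_eq_mul]
    refine sum_le_card_nsmul _ _ _ fun j _ => ?_
    rw [exp_box_dvd g2.ne_zero (by omega) (g2.coprime_iff_not_dvd.2 (gd j)).symm]
    exact hg
  have t2 : ∑ p ∈ S, 𝔼 t ∈ box k τ,
      (if p ∣ bb ((a j₀ + d j₀ * t) * (d j₀ * g)) then (1 : ℝ) else 0) ≤ #S * x := by
    rw [← nsmul_eq_mul]
    refine sum_le_card_nsmul _ _ _ fun p hp => ?_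
    obtain ⟨⟨p2, -, -⟩, p4, p5, p6⟩ := (mem p).1 hp
    rw [lm_unif p2 g2 p6 (by omega)]
    exact (one_div_le_one_div_of_le (by positivity) (pow_le_pow_right₀ (by linarith) p4.le)).trans
      (hx.trans (pow_le_of_le_one x0 x1 hN.ne'))
  have t3 : (#S : ℝ) ≤ (3 * Fintype.card J + 1) * n := by
    have : #S ≤ (3 * Fintype.card J + 1) * n := by omega
    exact_mod_cast this
  have n1 : (1 : ℝ) ≤ n := by
    have := h3 j₀
    exact_mod_cast (by omega : 1 ≤ n)
  have t4 := mul_le_mul_of_nonneg_right t3 x0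
  have t5 : (|c₀| + Fintype.card J) * x ≤ (|c₀| + Fintype.card J) * (n * x) :=
    mul_le_mul_of_nonneg_left (le_mul_of_one_le_left x0 n1) (by positivity)
  linarith

omit [CharP k 2] in
theorem lm_sieve {τ : ℕ} (Bs : Finset k[X]) (co : k[X] → ℝ) (hco : ∀ e ∈ Bs, |co e| ≤ 1)
    (v₁ w₁ v₂ w₂ : k[X]) (Φ : k[X] → ℝ) {η : ℝ}
    (h : ∀ e₁ ∈ Bs, ∀ e₂ ∈ Bs, ∀ u : k[X] → ℝ, (∀ t, |u t| ≤ 1) →
      (∀ t y, u (t + e₁ * e₂ * y) = u t) → |𝔼 t ∈ box k τ, u t * Φ t| ≤ η) :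
    |𝔼 t ∈ box k τ, (∑ e ∈ Bs, if e ∣ v₁ + w₁ * t then co e else 0) *
      (∑ e ∈ Bs, if e ∣ v₂ + w₂ * t then co e else 0) * Φ t| ≤ (#Bs : ℝ) ^ 2 * η := by
  simp only [sum_mul_sum]
  simp only [sum_mul, expect_sum_comm]
  refine (abs_sum_le_sum_abs _ _).trans ?_
  rw [sq, mul_assoc, ← nsmul_eq_mul]
  refine sum_le_card_nsmul _ _ _ fun e₁ h₁ => (abs_sum_le_sum_abs _ _).trans ?_
  rw [← nsmul_eq_mul]
  refine sum_le_card_nsmul _ _ _ fun e₂ h₂ => h e₁ h₁ e₂ h₂ _ (fun t => ?_) fun t y => ?_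
  · rw [abs_mul]
    refine mul_le_one₀ ?_ (abs_nonneg _) ?_
    · split_ifs
      · exact hco _ h₁
      · simp
    · split_ifs
      · exact hco _ h₂
      · simp
  · have e1 : e₁ ∣ v₁ + w₁ * (t + e₁ * e₂ * y) ↔ e₁ ∣ v₁ + w₁ * t := by
      rw [show v₁ + w₁ * (t + e₁ * e₂ * y) = v₁ + w₁ * t + e₁ * (w₁ * e₂ * y) by ring]
      exact dvd_add_left (dvd_mul_right _ _)
    have e2 : e₂ ∣ v₂ + w₂ * (t + e₁ * e₂ * y) ↔ e₂ ∣ v₂ + w₂ * t := by
      rw [show v₂ + w₂ * (t + e₁ * e₂ * y) = v₂ + w₂ * t + e₂ * (w₂ * e₁ * y) by ring]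
      exact dvd_add_left (dvd_mul_right _ _)
    simp only [e1, e2]

omit [Fintype k] [CharP k 2] in
theorem lm_sqf {d g : k[X]} (hd : Squarefree d) (hg : Irreducible g) (h : ¬ g ∣ d) :
    Squarefree (d * g) :=
  squarefree_mul_iff.2 ⟨(hg.coprime_iff_not_dvd.2 h).symm.isRelPrime, hd, hg.squarefree⟩

omit [Fintype k] [CharP k 2] in
theorem lm_cop_of {a b c d F : k[X]} (h : a * b + c * d = F) (hd : IsCoprime d F) :
    IsCoprime a d := by
  obtain ⟨u, v, huv⟩ := hd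
  exact ⟨v * b, u + v * c, by linear_combination huv + v * h⟩

theorem fibre1 (κ : ℕ) : ∃ (N : ℕ) (c₀ : ℝ), 0 < N ∧ 0 ≤ c₀ ∧
    ∀ (β : k[X] → k[X]) (a d g v₁ w₁ v₂ w₂ : k[X]) (MM Bs : Finset k[X]) (co : k[X] → ℝ)
      (al de ka D n τ l c E : ℕ) (x : ℝ), (∀ f, ∃ A, f = A ^ 2 + X * β f ^ 2) →
      a ∈ mon k al → d ∈ mon k de → g ∈ prs k ka → de + τ ≤ al → al + de + ka = 2 * D + 1 →
      2 * D + 1 ≤ n → Squarefree d → ¬ g ∣ d → IsCoprime a d → ka + 2 * l ≤ τ + 1 → 0 < l →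
      (∀ M ∈ MM, M.Monic ∧ Squarefree M ∧ D ≤ M.natDegree + c ∧
        ∀ P, Irreducible P → P ∣ M → c < P.natDegree ∧ 2 * P.natDegree ≤ l) →
      D ≤ κ * (c + 1) → c < D → (∀ e ∈ Bs, e ≠ 0 ∧ e.natDegree ≤ E ∧ |co e| ≤ 1) →
      2 * E + c ≤ l → 0 ≤ x → x ≤ 1 → 1 / qq k ^ c ≤ x ^ N → 1 / qq k ^ ka ≤ x →
      |𝔼 t ∈ box k τ, (∑ e ∈ Bs, if e ∣ v₁ + w₁ * t then co e else 0) *
        (∑ e ∈ Bs, if e ∣ v₂ + w₂ * t then co e else 0) *
        ((#{M ∈ MM | M ∣ β ((a + d * t) * d * g)} : ℝ) * mu (a + d * t))|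
        ≤ (#Bs : ℝ) ^ 2 * (c₀ * n * x) := by
  obtain ⟨N, c₀, hN, h0, H⟩ := fibre (k := k) Unit κ
  refine ⟨N, c₀, hN, h0, fun β a d g v₁ w₁ v₂ w₂ MM Bs co al de ka D n τ l c E x hβ ha hd hg h1 h2
    h3 h4 h5 h6 h7 h8 h9 h10 h11 hB hE x0 x1 hx hx' => ?_⟩
  obtain rfl : β = bb := _root_.funext fun f => (ab_uniq (hβ f).choose_spec).2.symm
  obtain ⟨a1, rfl⟩ := mem_mon.1 ha
  obtain ⟨d1, rfl⟩ := mem_mon.1 hd
  obtain ⟨g0, g2⟩ := mem_filter.1 hg
  obtain ⟨g1, rfl⟩ := mem_mon.1 g0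
  refine lm_sieve Bs co (fun e he => (hB e he).2.2) _ _ _ _ _ fun e₁ b₁ e₂ b₂ u u1 u2 => ?_
  have := H (fun _ => a) (fun _ => d) (fun _ => MM) (fun _ => D) g (e₁ * e₂) u () n τ l c x
    (fun _ => a1) (fun _ => d1) g1 g2 (fun _ => h1) (fun _ => h2) (fun _ => h3)
    (fun _ => lm_sqf h4 g2 h5) (fun _ => h6) (fun _ h => absurd rfl h) h7 h8 (fun _ => h9)
    (fun _ => h10) h11 (mul_ne_zero (hB _ b₁).1 (hB _ b₂).1) (by
      have := natDegree_mul_le (p := e₁) (q := e₂)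
      have := (hB _ b₁).2.1
      have := (hB _ b₂).2.1
      omega) u1 u2 x0 x1 hx hx'
  simpa only [Fintype.prod_unique, mul_assoc] using this

theorem fibre2 (κ : ℕ) : ∃ (N : ℕ) (c₀ : ℝ), 0 < N ∧ 0 ≤ c₀ ∧
    ∀ (β : k[X] → k[X]) (F a₁ a₂ b o d₁ d₂ g : k[X]) (MM Bs : Finset k[X]) (co : k[X] → ℝ)
      (al de ka D n τ l c E : ℕ) (x : ℝ), (∀ f, ∃ A, f = A ^ 2 + X * β f ^ 2) →
      a₁ ∈ mon k al → a₂ ∈ mon k al → d₁ ∈ mon k de → d₂ ∈ mon k de → g ∈ prs k ka →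
      de + τ ≤ al → al + de + ka = 2 * D + 1 → 2 * D + 1 ≤ n → Squarefree d₁ → Squarefree d₂ →
      IsCoprime d₁ F → IsCoprime d₂ F → a₁ * b + o * d₁ = F → a₂ * b + o * d₂ = F →
      ¬ g ∣ d₁ * d₂ * F * (d₁ - d₂) → ka + 2 * l ≤ τ + 1 → 0 < l →
      (∀ M ∈ MM, M.Monic ∧ Squarefree M ∧ D ≤ M.natDegree + c ∧
        ∀ P, Irreducible P → P ∣ M → c < P.natDegree ∧ 2 * P.natDegree ≤ l) →
      D ≤ κ * (c + 1) → c < D → (∀ e ∈ Bs, e ≠ 0 ∧ e.natDegree ≤ E ∧ |co e| ≤ 1) →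
      2 * E + c ≤ l → 0 ≤ x → x ≤ 1 → 1 / qq k ^ c ≤ x ^ N → 1 / qq k ^ ka ≤ x →
      |𝔼 t ∈ box k τ,
        (mu (a₁ + d₁ * t) * (∑ e ∈ Bs, if e ∣ a₁ + d₁ * t then co e else 0) *
          (#{M ∈ MM | M ∣ β ((a₁ + d₁ * t) * d₁ * g)} : ℝ)) *
        (mu (a₂ + d₂ * t) * (∑ e ∈ Bs, if e ∣ a₂ + d₂ * t then co e else 0) *
          (#{M ∈ MM | M ∣ β ((a₂ + d₂ * t) * d₂ * g)} : ℝ))|
        ≤ (#Bs : ℝ) ^ 2 * (c₀ * n * x) := by
  obtain ⟨N, c₀, hN, h0, H⟩ := fibre (k := k) Bool κ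
  refine ⟨N, c₀, hN, h0, fun β F a₁ a₂ b o d₁ d₂ g MM Bs co al de ka D n τ l c E x hβ ha₁ ha₂ hd₁
    hd₂ hg h1 h2 h3 s₁ s₂ c₁ c₂ f₁ f₂ hb h7 h8 h9 h10 h11 hB hE x0 x1 hx hx' => ?_⟩
  obtain rfl : β = bb := _root_.funext fun f => (ab_uniq (hβ f).choose_spec).2.symm
  obtain ⟨a1, a1'⟩ := mem_mon.1 ha₁
  obtain ⟨a2, a2'⟩ := mem_mon.1 ha₂
  obtain ⟨d1, d1'⟩ := mem_mon.1 hd₁
  obtain ⟨d2, d2'⟩ := mem_mon.1 hd₂
  obtain ⟨g0, g2⟩ := mem_filter.1 hg
  obtain ⟨g1, rfl⟩ := mem_mon.1 g0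
  have n1 : ¬ g ∣ d₁ := fun h => hb (((h.mul_right _).mul_right _).mul_right _)
  have n2 : ¬ g ∣ d₂ := fun h => hb (((h.mul_left _).mul_right _).mul_right _)
  have n3 : ¬ g ∣ a₁ * d₂ + a₂ * d₁ := fun h => hb (by
    rw [mul_assoc (d₁ * d₂), show F * (d₁ - d₂) = (a₁ * d₂ + a₂ * d₁) * b by
      linear_combination (-d₂) * f₁ - d₁ * f₂ +
        (o * d₁ * d₂ - F * d₂) * (CharTwo.two_eq_zero : (2 : k[X]) = 0)]
    exact (h.mul_right _).mul_left _)
  have key := lm_sieve (τ := τ) Bs co (fun e he => (hB e he).2.2) a₁ d₁ a₂ d₂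
    (fun t => ∏ j : Bool, ((#{M ∈ MM | M ∣ bb ((cond j a₁ a₂ + cond j d₁ d₂ * t) *
      (cond j d₁ d₂ * g))} : ℝ) * mu (cond j a₁ a₂ + cond j d₁ d₂ * t)))
    fun e₁ b₁ e₂ b₂ u u1 u2 =>
      H (fun j => cond j a₁ a₂) (fun j => cond j d₁ d₂) (fun _ => MM) (fun _ => D) g (e₁ * e₂) u
        true n τ l c x (fun j => by cases j; exacts [a2, a1]) (fun j => by cases j; exacts [d2, d1])
        g1 g2 (fun j => by cases j <;> simp only [cond] <;> omega)
        (fun j => by cases j <;> simp only [cond] <;> omega) (fun _ => h3)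
        (fun j => by cases j; exacts [lm_sqf s₂ g2 n2, lm_sqf s₁ g2 n1])
        (fun j => by cases j; exacts [lm_cop_of f₂ c₂, lm_cop_of f₁ c₁])
        (fun j h => by cases j; exacts [n3, absurd rfl h]) h7 h8 (fun _ => h9)
        (fun _ => h10) h11 (mul_ne_zero (hB _ b₁).1 (hB _ b₂).1) (by
          have := natDegree_mul_le (p := e₁) (q := e₂)
          have := (hB _ b₁).2.1
          have := (hB _ b₂).2.1
          omega) u1 u2 x0 x1 hx hx'
  refine le_trans (le_of_eq (congrArg _ (expect_congr rfl fun t _ => ?_))) key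
  simp only [Fintype.prod_bool, cond, mul_assoc _ d₁ g, mul_assoc _ d₂ g]
  ring

end

end Pool.Agent.MP_f0209c_nt.FF
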