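import Pool.Agent.MP_a4a062_nt.C2.P1

set_option autoImplicit false

open Polynomial Finset Filter
open scoped Classical BigOperators

noncomputable section
namespace Pool.Agent.MP_a4a062_nt.C2

variable {k : Type*} [Field k] [Fintype k]

theorem g1_add {N e τ : ℕ} {x m t : k[X]} (hx : x ∈ mon k N) (hm : m ∈ mon k e)
    (ht : t ∈ box k τ) (h : e + τ ≤ N) : x + m * t ∈ mon k N := by
  rw [mem_mon] at *
  rw [mem_box] at ht
  have h1 : (m * t).degree < x.degree := by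
    by_cases h0 : t = 0
    · simp only [h0, mul_zero, degree_zero]
      exact bot_lt_iff_ne_bot.2 fun h => hx.1.ne_zero (degree_eq_bot.1 h)
    · rw [← natDegree_lt_iff_degree_lt h0] at ht
      apply degree_lt_degree
      rw [natDegree_mul hm.1.ne_zero h0]
      omega
  exact ⟨hx.1.add_of_left h1, by rw [natDegree_add_eq_left_of_degree_lt h1, hx.2]⟩

theorem g1_deg {N e τ : ℕ} {x m t : k[X]} (hx : x ∈ mon k N) (hm : m ∈ mon k e)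
    (hy : x + m * t ∈ mon k N) (h : e + τ = N) : t ∈ box k τ := by
  rw [mem_mon] at *
  rw [mem_box]
  by_cases h0 : t = 0
  · simp [h0]
  have h1 : (x + m * t).degree = x.degree := by
    rw [degree_eq_natDegree hx.1.ne_zero, degree_eq_natDegree hy.1.ne_zero, hx.2, hy.2]
  have h2 := degree_sub_lt_left h1 hy.1.ne_zero (by rw [hx.1.leadingCoeff, hy.1.leadingCoeff])
  rw [add_sub_cancel_left, degree_eq_natDegree hy.1.ne_zero, hy.2,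
    ← natDegree_lt_iff_degree_lt (mul_ne_zero hm.1.ne_zero h0), natDegree_mul hm.1.ne_zero h0] at h2
  rw [← natDegree_lt_iff_degree_lt h0]
  omega

theorem g1_fib [CharP k 2] {F b d₁ d₂ c₀ x₁ x₂ : k[X]} {al be ga de τ : ℕ} (h₁ : de + τ ≤ al)
    (h₂ : be + τ ≤ ga) (h₃ : de + τ = al ∨ be + τ = ga) (hb : b ∈ mon k be) (hd₁ : d₁ ∈ mon k de)
    (hd₂ : d₂ ∈ mon k de) (hc : IsCoprime b d₁) (hc₀ : c₀ ∈ mon k ga) (hx₁ : x₁ ∈ mon k al)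
    (hx₂ : x₂ ∈ mon k al) (e₁ : x₁ * b + c₀ * d₁ = F) (e₂ : x₂ * b + c₀ * d₂ = F)
    (H : k[X] → k[X] → ℝ) :
    ∑ c ∈ mon k ga, ∑ a₁ ∈ mon k al, ∑ a₂ ∈ mon k al,
      (if a₁ * b + c * d₁ = F ∧ a₂ * b + c * d₂ = F then H a₁ a₂ else 0) =
      ∑ t ∈ box k τ, H (x₁ + d₁ * t) (x₂ + d₂ * t) := by
  have t2 : (2 : k[X]) = 0 := CharTwo.two_eq_zero
  have b0 : b ≠ 0 := (mem_mon.1 hb).1.ne_zero
  have e : ∑ c ∈ mon k ga, ∑ a₁ ∈ mon k al, ∑ a₂ ∈ mon k al,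
      (if a₁ * b + c * d₁ = F ∧ a₂ * b + c * d₂ = F then H a₁ a₂ else 0) =
      ∑ x ∈ (mon k ga ×ˢ mon k al ×ˢ mon k al) with
        x.2.1 * b + x.1 * d₁ = F ∧ x.2.2 * b + x.1 * d₂ = F, H x.2.1 x.2.2 := by
    rw [sum_filter, sum_product]
    simp only [sum_product]
  rw [e]
  symm
  refine sum_bij (fun t _ => (c₀ + b * t, x₁ + d₁ * t, x₂ + d₂ * t)) ?_ ?_ ?_ ?_
  · intro t ht
    simp only [mem_filter, mem_product]
    refine ⟨⟨g1_add hc₀ hb ht h₂, g1_add hx₁ hd₁ ht h₁, g1_add hx₂ hd₂ ht h₁⟩, ?_, ?_⟩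
    · linear_combination e₁ + (b * d₁ * t) * t2
    · linear_combination e₂ + (b * d₂ * t) * t2
  · intro t _ t' _ h
    have := congrArg Prod.fst h
    simp only [add_right_inj] at this
    exact mul_left_cancel₀ b0 this
  · rintro ⟨c, a₁, a₂⟩ hx
    simp only [mem_filter, mem_product] at hx
    obtain ⟨⟨hc', ha₁, ha₂⟩, f₁, f₂⟩ := hx
    have : b ∣ (c - c₀) * d₁ := ⟨x₁ - a₁, by linear_combination f₁ - e₁⟩
    obtain ⟨t, ht⟩ := hc.dvd_of_dvd_mul_right this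
    have ec : c₀ + b * t = c := by linear_combination -ht
    have ea₁ : x₁ + d₁ * t = a₁ := mul_left_cancel₀ b0 (by
      linear_combination e₁ - f₁ + d₁ * ht + (b * d₁ * t) * t2)
    have ea₂ : x₂ + d₂ * t = a₂ := mul_left_cancel₀ b0 (by
      linear_combination e₂ - f₂ + d₂ * ht + (b * d₂ * t) * t2)
    refine ⟨t, ?_, by rw [ec, ea₁, ea₂]⟩
    rcases h₃ with h | h
    · exact g1_deg hx₁ hd₁ (ea₁ ▸ ha₁) h
    · exact g1_deg hc₀ hb (ec ▸ hc') h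
  · intro t _; rfl

theorem g1_cnt {be de : ℕ} {b : k[X]} (d₁ : k[X]) (hb : b ∈ mon k be) (h : be ≤ de) :
    ∑ d₂ ∈ mon k de, (if b ∣ d₁ - d₂ then (1 : ℝ) else 0) = qq k ^ de / qq k ^ be := by
  rw [mem_mon] at hb
  have h1 := exp_box_dvd (N := de) (c := -1) hb.1.ne_zero (hb.2 ▸ h) isCoprime_one_left.neg_left
    (d₁ - X ^ de)
  have h2 := two_le_qq (k := k)
  rw [box_exp, hb.2, div_eq_iff (by positivity)] at h1
  rw [box_sum_mon]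
  have e : ∀ s : k[X], d₁ - (X ^ de + s) = d₁ - X ^ de + -1 * s := fun s => by ring
  simp only [e]
  rw [h1]
  field_simp

theorem g1_Z [CharP k 2] {F b d₁ d₂ : k[X]} {al be ga de τ : ℕ} (h₁ : de + τ ≤ al)
    (h₂ : be + τ ≤ ga) (h₃ : de + τ = al ∨ be + τ = ga) (hb : b ∈ mon k be) (hd₁ : d₁ ∈ mon k de)
    (hd₂ : d₂ ∈ mon k de) {r₁ r₂ P η : ℝ} {T₁ T₂ : k[X] → ℝ} (bad : Prop) (hP : 0 ≤ P) (hη : 0 ≤ η)
    (hr₁ : |r₁| ≤ 1) (hr₂ : |r₂| ≤ 1) (hT : ∀ a₁ ∈ mon k al, ∀ a₂ ∈ mon k al, |T₁ a₁ * T₂ a₂| ≤ P)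
    (hF : ∀ a₁ ∈ mon k al, ∀ a₂ ∈ mon k al, ∀ c ∈ mon k ga, d₁ ≠ d₂ → r₁ ≠ 0 → r₂ ≠ 0 →
      IsCoprime b F → b ∣ d₁ - d₂ → a₁ * b + c * d₁ = F → a₂ * b + c * d₂ = F → ¬ bad →
      |𝔼 t ∈ box k τ, T₁ (a₁ + d₁ * t) * T₂ (a₂ + d₂ * t)| ≤ η) :
    ∑ c ∈ mon k ga,
      (∑ a ∈ mon k al, if IsCoprime b F ∧ a * b + c * d₁ = F then r₁ * T₁ a else 0) *
      (∑ a ∈ mon k al, if IsCoprime b F ∧ a * b + c * d₂ = F then r₂ * T₂ a else 0) ≤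
      qq k ^ τ * ((if d₁ = d₂ then P else 0) + (if b ∣ d₁ - d₂ then η else 0) +
        if d₁ ≠ d₂ ∧ r₁ ≠ 0 ∧ r₂ ≠ 0 ∧ b ∣ d₁ - d₂ ∧ bad then P else 0) := by
  have q2 := two_le_qq (k := k)
  have p1 : 0 ≤ (if d₁ = d₂ then P else 0) := by split_ifs <;> simp [hP]
  have p2 : 0 ≤ (if b ∣ d₁ - d₂ then η else 0) := by split_ifs <;> simp [hη]
  have p3 : 0 ≤ (if d₁ ≠ d₂ ∧ r₁ ≠ 0 ∧ r₂ ≠ 0 ∧ b ∣ d₁ - d₂ ∧ bad then P else 0) := by
    split_ifs <;> simp [hP]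
  by_cases hz : r₁ = 0 ∨ r₂ = 0 ∨ ¬ IsCoprime b F
  · rcases hz with h | h | h <;> simp only [h, zero_mul, ite_self, sum_const_zero, mul_zero,
      false_and, if_false] <;> positivity
  push Not at hz
  obtain ⟨z₁, z₂, hbF⟩ := hz
  have e : ∑ c ∈ mon k ga,
      (∑ a ∈ mon k al, if IsCoprime b F ∧ a * b + c * d₁ = F then r₁ * T₁ a else 0) *
      (∑ a ∈ mon k al, if IsCoprime b F ∧ a * b + c * d₂ = F then r₂ * T₂ a else 0) =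
      ∑ c ∈ mon k ga, ∑ a₁ ∈ mon k al, ∑ a₂ ∈ mon k al,
        (if a₁ * b + c * d₁ = F ∧ a₂ * b + c * d₂ = F then r₁ * r₂ * (T₁ a₁ * T₂ a₂) else 0) := by
    refine sum_congr rfl fun c _ => ?_
    rw [sum_mul_sum]
    refine sum_congr rfl fun a₁ _ => sum_congr rfl fun a₂ _ => ?_
    by_cases u : a₁ * b + c * d₁ = F <;> by_cases v : a₂ * b + c * d₂ = F <;> simp [u, v, hbF]
    ring
  rw [e]
  by_cases hx : ∃ c ∈ mon k ga, ∃ a₁ ∈ mon k al, ∃ a₂ ∈ mon k al,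
      a₁ * b + c * d₁ = F ∧ a₂ * b + c * d₂ = F
  swap
  · rw [sum_eq_zero fun c hc => sum_eq_zero fun a₁ h1 => sum_eq_zero fun a₂ h2 =>
      if_neg fun h => hx ⟨c, hc, a₁, h1, a₂, h2, h⟩]
    positivity
  obtain ⟨c, hc, x₁, hx₁, x₂, hx₂, e₁, e₂⟩ := hx
  have hbcd : IsCoprime b (c * d₁) := by
    have : IsCoprime b (c * d₁ + b * x₁) := by
      rwa [show c * d₁ + b * x₁ = F by linear_combination e₁]
    exact this.of_add_mul_left_right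
  have hbd : b ∣ d₁ - d₂ := hbcd.of_mul_right_left.dvd_of_dvd_mul_left
    ⟨x₂ - x₁, by linear_combination e₁ - e₂⟩
  rw [g1_fib h₁ h₂ h₃ hb hd₁ hd₂ hbcd.of_mul_right_right hc hx₁ hx₂ e₁ e₂
    fun a₁ a₂ => r₁ * r₂ * (T₁ a₁ * T₂ a₂), ← mul_sum]
  have hr : |r₁ * r₂| ≤ 1 := by
    rw [abs_mul]; exact mul_le_one₀ hr₁ (abs_nonneg _) hr₂
  have key : ∀ B : ℝ, |∑ t ∈ box k τ, T₁ (x₁ + d₁ * t) * T₂ (x₂ + d₂ * t)| ≤ qq k ^ τ * B →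
      r₁ * r₂ * ∑ t ∈ box k τ, T₁ (x₁ + d₁ * t) * T₂ (x₂ + d₂ * t) ≤ qq k ^ τ * B := fun B h => by
    refine (le_abs_self _).trans ?_
    rw [abs_mul]
    exact (mul_le_of_le_one_left (abs_nonneg _) hr).trans h
  have triv : |∑ t ∈ box k τ, T₁ (x₁ + d₁ * t) * T₂ (x₂ + d₂ * t)| ≤ qq k ^ τ * P := by
    refine (abs_sum_le_sum_abs _ _).trans ?_
    refine (sum_le_card_nsmul _ _ P fun t ht =>
      hT _ (g1_add hx₁ hd₁ ht h₁) _ (g1_add hx₂ hd₂ ht h₁)).trans ?_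
    rw [nsmul_eq_mul, card_box]
  refine key _ ?_
  by_cases hd : d₁ = d₂
  · refine triv.trans (mul_le_mul_of_nonneg_left ?_ (by positivity))
    rw [if_pos hd]; linarith
  by_cases hbad : bad
  · refine triv.trans (mul_le_mul_of_nonneg_left ?_ (by positivity))
    rw [if_pos (⟨hd, z₁, z₂, hbd, hbad⟩ : d₁ ≠ d₂ ∧ r₁ ≠ 0 ∧ r₂ ≠ 0 ∧ b ∣ d₁ - d₂ ∧ bad)]
    linarith
  have := hF x₁ hx₁ x₂ hx₂ c hc hd z₁ z₂ hbF hbd e₁ e₂ hbad
  rw [box_exp, abs_div, abs_of_pos (a := qq k ^ τ) (by positivity), div_le_iff₀ (by positivity)]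
    at this
  refine this.trans ?_
  rw [mul_comm, if_pos hbd]
  exact mul_le_mul_of_nonneg_left (by linarith) (by positivity)

theorem g1_sq [CharP k 2] (F : k[X]) {al be ga de τ : ℕ} (h₁ : de + τ ≤ al) (h₂ : be + τ ≤ ga)
    (h₃ : de + τ = al ∨ be + τ = ga) (h₄ : be ≤ de) {G : Finset k[X]}
    (T : k[X] → k[X] → k[X] → ℝ) (ρ : k[X] → ℝ)
    (bad : k[X] → k[X] → k[X] → k[X] → Prop) {P η Nb : ℝ} (hP : 0 ≤ P) (hη : 0 ≤ η) (hN : 0 ≤ Nb)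
    (hρ : ∀ d, |ρ d| ≤ 1)
    (hT : ∀ g ∈ G, ∀ d₁ ∈ mon k de, ∀ d₂ ∈ mon k de, ∀ a₁ ∈ mon k al, ∀ a₂ ∈ mon k al,
      |T g d₁ a₁ * T g d₂ a₂| ≤ P)
    (hbad : ∀ b ∈ mon k be, ∀ d₁ ∈ mon k de, ∀ d₂ ∈ mon k de, d₁ ≠ d₂ → ρ d₁ ≠ 0 → ρ d₂ ≠ 0 →
      b ∣ d₁ - d₂ → (#{g ∈ G | bad g b d₁ d₂} : ℝ) ≤ Nb)
    (hF : ∀ g ∈ G, ∀ b ∈ mon k be, ∀ d₁ ∈ mon k de, ∀ d₂ ∈ mon k de, ∀ a₁ ∈ mon k al,
      ∀ a₂ ∈ mon k al, ∀ c ∈ mon k ga, d₁ ≠ d₂ → ρ d₁ ≠ 0 → ρ d₂ ≠ 0 → IsCoprime b F →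
      b ∣ d₁ - d₂ → a₁ * b + c * d₁ = F → a₂ * b + c * d₂ = F → ¬ bad g b d₁ d₂ →
      |𝔼 t ∈ box k τ, T g d₁ (a₁ + d₁ * t) * T g d₂ (a₂ + d₂ * t)| ≤ η) :
    ∑ g ∈ G, ∑ b ∈ mon k be, ∑ c ∈ mon k ga, (∑ d ∈ mon k de, ∑ a ∈ mon k al,
      if IsCoprime b F ∧ a * b + c * d = F then ρ d * T g d a else 0) ^ 2 ≤
      qq k ^ τ * (#G * (qq k ^ be * qq k ^ de) * P + qq k ^ de * qq k ^ de * (#G * η + Nb * P)) := by
  have q2 := two_le_qq (k := k)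
  have s1 : ∑ g ∈ G, ∑ b ∈ mon k be, ∑ c ∈ mon k ga, (∑ d ∈ mon k de, ∑ a ∈ mon k al,
      if IsCoprime b F ∧ a * b + c * d = F then ρ d * T g d a else 0) ^ 2 ≤
      ∑ g ∈ G, ∑ b ∈ mon k be, ∑ d₁ ∈ mon k de, ∑ d₂ ∈ mon k de,
        qq k ^ τ * ((if d₁ = d₂ then P else 0) + (if b ∣ d₁ - d₂ then η else 0) +
        if d₁ ≠ d₂ ∧ ρ d₁ ≠ 0 ∧ ρ d₂ ≠ 0 ∧ b ∣ d₁ - d₂ ∧ bad g b d₁ d₂ then P else 0) := by
    refine sum_le_sum fun g hg => sum_le_sum fun b hb => ?_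
    simp only [sq, sum_mul_sum (mon k de) (mon k de)]
    rw [sum_comm]
    refine sum_le_sum fun d₁ hd₁ => ?_
    rw [sum_comm]
    refine sum_le_sum fun d₂ hd₂ => ?_
    exact g1_Z h₁ h₂ h₃ hb hd₁ hd₂ _ hP hη (hρ d₁) (hρ d₂) (hT g hg d₁ hd₁ d₂ hd₂)
      fun a₁ h1 a₂ h2 c hc => hF g hg b hb d₁ hd₁ d₂ hd₂ a₁ h1 a₂ h2 c hc
  refine s1.trans ?_
  rw [sum_comm]
  have s2 : ∀ b ∈ mon k be, ∑ g ∈ G, ∑ d₁ ∈ mon k de, ∑ d₂ ∈ mon k de,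
        qq k ^ τ * ((if d₁ = d₂ then P else 0) + (if b ∣ d₁ - d₂ then η else 0) +
        if d₁ ≠ d₂ ∧ ρ d₁ ≠ 0 ∧ ρ d₂ ≠ 0 ∧ b ∣ d₁ - d₂ ∧ bad g b d₁ d₂ then P else 0) ≤
      qq k ^ de * (qq k ^ τ * (#G * P + qq k ^ de / qq k ^ be * (#G * η + Nb * P))) := by
    intro b hb
    rw [sum_comm, ← card_mon (k := k) de, ← nsmul_eq_mul]
    refine sum_le_card_nsmul _ _ _ fun d₁ hd₁ => ?_
    rw [sum_comm, card_mon, ← g1_cnt d₁ hb h₄, sum_mul]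
    have e1 : (#G : ℝ) * P = ∑ d₂ ∈ mon k de, (if d₁ = d₂ then (#G : ℝ) * P else 0) := by
      rw [sum_ite_eq, if_pos hd₁]
    rw [e1, ← sum_add_distrib, mul_sum]
    refine sum_le_sum fun d₂ hd₂ => ?_
    rw [← mul_sum]
    refine mul_le_mul_of_nonneg_left ?_ (by positivity)
    rw [sum_add_distrib, sum_const, nsmul_eq_mul, mul_add, add_assoc]
    refine add_le_add (by split_ifs <;> simp) ?_
    by_cases hd : b ∣ d₁ - d₂
    · simp only [hd, if_true, one_mul, true_and, add_le_add_iff_left]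
      by_cases hx : d₁ ≠ d₂ ∧ ρ d₁ ≠ 0 ∧ ρ d₂ ≠ 0
      · simp only [hx.1, hx.2.1, hx.2.2, ne_eq, not_false_eq_true, true_and]
        rw [← sum_filter, sum_const, nsmul_eq_mul]
        exact mul_le_mul_of_nonneg_right (hbad b hb d₁ hd₁ d₂ hd₂ hx.1 hx.2.1 hx.2.2 hd) hP
      · rw [sum_eq_zero fun g _ => if_neg fun h => hx ⟨h.1, h.2.1, h.2.2.1⟩]
        positivity
    · simp [hd]
  refine (sum_le_card_nsmul _ _ _ s2).trans (le_of_eq ?_)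
  rw [nsmul_eq_mul, card_mon]
  field_simp

theorem gen1 [CharP k 2] (F : k[X]) {al be ga de τ : ℕ} (h₁ : de + τ ≤ al) (h₂ : be + τ ≤ ga)
    (h₃ : de + τ = al ∨ be + τ = ga) (h₄ : be ≤ de) {G : Finset k[X]} (hG : G.Nonempty)
    (ω : k[X] → k[X] → k[X] → ℝ) (α : k[X] → k[X] → ℝ) (ρ φ : k[X] → ℝ)
    (bad : k[X] → k[X] → k[X] → k[X] → Prop) {Y Cw Δ R η Nb : ℝ} (hΔ : 0 < Δ) (hY : 0 ≤ Y)
    (hC : 0 ≤ Cw) (hη : 0 ≤ η) (hN : 0 ≤ Nb)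
    (hα : ∀ b c, |α b c| ≤ 1) (hρ : ∀ d, |ρ d| ≤ 1) (hφ : ∀ a ∈ mon k al, |φ a| ≤ Y)
    (hω : ∀ g ∈ G, ∀ a ∈ mon k al, ∀ d ∈ mon k de, |ω g a d| ≤ Cw)
    (hαF : ∀ b c, α b c ≠ 0 → IsCoprime b F) (_hρF : ∀ d, ρ d ≠ 0 → IsCoprime d F)
    (hW : ∑ d ∈ mon k de, ∑ b ∈ mon k be, ∑ a ∈ mon k al,
      (if ρ d ≠ 0 ∧ IsCoprime b d ∧ d ∣ F - a * b then |∑ g ∈ G, ω g a d - Δ| else 0) ≤ R)
    (hbad : ∀ b ∈ mon k be, ∀ d₁ ∈ mon k de, ∀ d₂ ∈ mon k de, d₁ ≠ d₂ → ρ d₁ ≠ 0 → ρ d₂ ≠ 0 →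
      b ∣ d₁ - d₂ → (#{g ∈ G | bad g b d₁ d₂} : ℝ) ≤ Nb)
    (hF : ∀ g ∈ G, ∀ b ∈ mon k be, ∀ d₁ ∈ mon k de, ∀ d₂ ∈ mon k de, ∀ a₁ ∈ mon k al,
      ∀ a₂ ∈ mon k al, ∀ c ∈ mon k ga, d₁ ≠ d₂ → ρ d₁ ≠ 0 → ρ d₂ ≠ 0 → IsCoprime b F →
      b ∣ d₁ - d₂ → a₁ * b + c * d₁ = F → a₂ * b + c * d₂ = F → ¬ bad g b d₁ d₂ →
      |𝔼 t ∈ box k τ, (φ (a₁ + d₁ * t) * ω g (a₁ + d₁ * t) d₁) *
        (φ (a₂ + d₂ * t) * ω g (a₂ + d₂ * t) d₂)| ≤ η) :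
    |∑ a ∈ mon k al, ∑ b ∈ mon k be, ∑ c ∈ mon k ga, ∑ d ∈ mon k de,
      (if a * b + c * d = F then α b c * ρ d * φ a else 0)| ≤
      Y * R / Δ + (#G : ℝ) / Δ * qq k ^ (ga + de) *
        √((Y * Cw) ^ 2 * (qq k ^ be / qq k ^ de + Nb / #G) + η) := by
  have q2 := two_le_qq (k := k)
  have g0 : (0 : ℝ) < #G := by exact_mod_cast hG.card_pos
  set I : k[X] → k[X] → k[X] → ℝ := fun g b c => ∑ d ∈ mon k de, ∑ a ∈ mon k al,
      if IsCoprime b F ∧ a * b + c * d = F then ρ d * (φ a * ω g a d) else 0 with hI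
  have hsq := g1_sq F h₁ h₂ h₃ h₄ (G := G) (fun g d a => φ a * ω g a d) ρ bad
    (P := (Y * Cw) ^ 2) (by positivity) hη hN hρ (fun g hg d₁ h1 d₂ h2 a₁ h3 a₂ h4 => by
      rw [abs_mul, abs_mul, abs_mul, sq]
      exact mul_le_mul (mul_le_mul (hφ _ h3) (hω g hg _ h3 _ h1) (abs_nonneg _) hY)
        (mul_le_mul (hφ _ h4) (hω g hg _ h4 _ h2) (abs_nonneg _) hY) (by positivity)
        (by positivity)) hbad hF
  change ∑ g ∈ G, ∑ b ∈ mon k be, ∑ c ∈ mon k ga, I g b c ^ 2 ≤ _ at hsq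
  have cs := sum_mul_sq_le_sq_mul_sq (G ×ˢ mon k be ×ˢ mon k ga) (fun x => α x.2.1 x.2.2)
    fun x => I x.1 x.2.1 x.2.2
  have c1 : ∑ x ∈ G ×ˢ mon k be ×ˢ mon k ga, α x.2.1 x.2.2 ^ 2 ≤ #G * (qq k ^ be * qq k ^ ga) := by
    refine (sum_le_card_nsmul _ _ 1 fun x _ => (sq_le_one_iff_abs_le_one _).2 (hα _ _)).trans ?_
    rw [nsmul_eq_mul, card_product, card_product, Nat.cast_mul, Nat.cast_mul, card_mon, card_mon,
      mul_one]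
  simp only [sum_product] at cs c1
  set S₂ := ∑ g ∈ G, ∑ b ∈ mon k be, ∑ c ∈ mon k ga, α b c * I g b c with hS₂
  have hτ : qq k ^ be * qq k ^ τ ≤ qq k ^ ga := by
    rw [← pow_add]; exact pow_le_pow_right₀ (by linarith) h₂
  set E := (Y * Cw) ^ 2 * (qq k ^ be / qq k ^ de + Nb / #G) + η with hE
  have E0 : 0 ≤ E := by positivity
  have b2 : S₂ ^ 2 ≤ (#G * qq k ^ (ga + de)) ^ 2 * E := by
    refine cs.trans ((mul_le_mul c1 hsq (sum_nonneg fun _ _ => sum_nonneg fun _ _ =>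
      sum_nonneg fun _ _ => sq_nonneg _) (by positivity)).trans ?_)
    have e : (#G : ℝ) * (qq k ^ be * qq k ^ ga) * (qq k ^ τ * (#G * (qq k ^ be * qq k ^ de) *
        (Y * Cw) ^ 2 + qq k ^ de * qq k ^ de * (#G * η + Nb * (Y * Cw) ^ 2))) =
        (qq k ^ be * qq k ^ τ) * (#G ^ 2 * qq k ^ ga * (qq k ^ de) ^ 2 * E) := by
      rw [hE]; field_simp; ring
    rw [e]
    refine (mul_le_mul_of_nonneg_right hτ (by positivity)).trans (le_of_eq ?_)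
    rw [pow_add]; ring
  have b3 : |S₂| ≤ #G * qq k ^ (ga + de) * √E := by
    refine (Real.abs_le_sqrt b2).trans (le_of_eq ?_)
    rw [Real.sqrt_mul (by positivity), Real.sqrt_sq (by positivity)]
  set S₁ := ∑ d ∈ mon k de, ∑ b ∈ mon k be, ∑ a ∈ mon k al, ∑ c ∈ mon k ga,
    (if a * b + c * d = F then α b c * ρ d * φ a * (Δ - ∑ g ∈ G, ω g a d) else 0) with hS₁
  have b1 : |S₁| ≤ Y * R := by
    refine le_trans ?_ (mul_le_mul_of_nonneg_left hW hY)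
    simp only [mul_sum]
    refine (abs_sum_le_sum_abs _ _).trans (sum_le_sum fun d hd => ?_)
    refine (abs_sum_le_sum_abs _ _).trans (sum_le_sum fun b hb => ?_)
    refine (abs_sum_le_sum_abs _ _).trans (sum_le_sum fun a ha => ?_)
    by_cases hx : ∃ c ∈ mon k ga, a * b + c * d = F ∧ α b c ≠ 0 ∧ ρ d ≠ 0
    · obtain ⟨c, hc, e, z1, z2⟩ := hx
      have hbcd : IsCoprime b (c * d) := by
        have : IsCoprime b (c * d + b * a) := by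
          rw [show c * d + b * a = F by linear_combination e]; exact hαF b c z1
        exact this.of_add_mul_left_right
      rw [sum_eq_single_of_mem c hc fun c' _ hne => if_neg fun h => hne
        (mul_right_cancel₀ (mem_mon.1 hd).1.ne_zero (by linear_combination h - e)), if_pos e,
        if_pos ⟨z2, hbcd.of_mul_right_right, c, by linear_combination -e⟩, abs_mul, abs_sub_comm,
        abs_mul, abs_mul]
      refine mul_le_mul_of_nonneg_right ?_ (abs_nonneg _)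
      exact (mul_le_of_le_one_left (abs_nonneg _)
        (mul_le_one₀ (hα b c) (abs_nonneg _) (hρ d))).trans (hφ a ha)
    · rw [sum_eq_zero fun c hc => ?_, abs_zero]
      · split_ifs <;> positivity
      · split_ifs with h
        · by_cases z1 : α b c = 0
          · simp [z1]
          by_cases z2 : ρ d = 0
          · simp [z2]
          exact (hx ⟨c, hc, h, z1, z2⟩).elim
        · rfl
  have e : ∑ a ∈ mon k al, ∑ b ∈ mon k be, ∑ c ∈ mon k ga, ∑ d ∈ mon k de,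
      (if a * b + c * d = F then α b c * ρ d * φ a else 0) = (S₁ + S₂) / Δ := by
    rw [eq_div_iff hΔ.ne']
    have e1 : S₁ = ∑ b ∈ mon k be, ∑ c ∈ mon k ga, ∑ d ∈ mon k de, ∑ a ∈ mon k al,
        (if a * b + c * d = F then α b c * ρ d * φ a * (Δ - ∑ g ∈ G, ω g a d) else 0) := by
      rw [hS₁, sum_comm]
      refine sum_congr rfl fun b _ => ?_
      rw [sum_comm (s := mon k ga)]
      exact sum_congr rfl fun d _ => sum_comm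
    have e2 : S₂ = ∑ b ∈ mon k be, ∑ c ∈ mon k ga, ∑ d ∈ mon k de, ∑ a ∈ mon k al,
        (if a * b + c * d = F then α b c * ρ d * φ a * ∑ g ∈ G, ω g a d else 0) := by
      rw [hS₂, sum_comm]
      refine sum_congr rfl fun b _ => ?_
      rw [sum_comm]
      refine sum_congr rfl fun c _ => ?_
      simp only [hI, mul_sum]
      rw [sum_comm]
      refine sum_congr rfl fun d _ => ?_
      rw [sum_comm]
      refine sum_congr rfl fun a _ => ?_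
      by_cases z1 : α b c = 0
      · simp [z1]
      by_cases h : a * b + c * d = F
      · simp only [h, hαF b c z1, and_self, if_true]
        exact sum_congr rfl fun g _ => by ring
      · simp [h]
    rw [e1, e2, sum_comm]
    simp only [sum_mul, ← sum_add_distrib]
    refine sum_congr rfl fun b _ => ?_
    rw [sum_comm]
    refine sum_congr rfl fun c _ => ?_
    rw [sum_comm]
    refine sum_congr rfl fun d _ => sum_congr rfl fun a _ => ?_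
    split_ifs <;> ring
  rw [e, abs_div, abs_of_pos hΔ, div_le_iff₀ hΔ]
  refine (abs_add_le _ _).trans ((add_le_add b1 b3).trans (le_of_eq ?_))
  field_simp

end Pool.Agent.MP_a4a062_nt.C2
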