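import Pool.Agent.MP_b5e119_nt.GB.W1

/-! The weight lemma: most points of the family have the expected number of good directions. -/

set_option autoImplicit false

open Polynomial Finset Filter
open scoped Classical BigOperators

noncomputable section
namespace Pool.Agent.MP_b5e119_nt.W64
open Pool.Agent.MP_a4a062_nt.C2

section Defs
variable {k : Type*} [Field k] [Fintype k]

/-- The number of members of `MM` that divide `B`. -/
def wt (MM : Finset k[X]) (B : k[X]) : ℝ := (#{M ∈ MM | M ∣ B} : ℝ)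

/-- Monic polynomials of degree `D - c` all of whose prime factors have degree `> c`. -/
def Adm (D c : ℕ) (MM : Finset k[X]) : Prop := ∀ M ∈ MM, M.Monic ∧ M.natDegree + c = D ∧
  ∀ p : k[X], Irreducible p → p ∣ M → c < p.natDegree

/-- The mean value of `wt MM` on monic polynomials of degree `D`. -/
def mean (D c : ℕ) (MM : Finset k[X]) : ℝ := (#MM : ℝ) * qq k ^ c / qq k ^ D

/-- The Fourier coefficient on polynomials of degree `< N`. -/
def four (N : ℕ) (Φ : k[X] → ℝ) (ξ : k[X]) : ℝ :=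
  𝔼 t ∈ box k N, Φ t * psi (tau (X ^ N) (ξ * t))

/-- Frequencies that see only a small modulus and the top digits. -/
def Major (N d0 : ℕ) (ξ : k[X]) : Prop := ∃ e : k[X], e.Monic ∧ e.natDegree ≤ 2 * d0 ∧
  ∀ x ∈ box k (N - 6 * d0), tau (X ^ N) (ξ * (e ^ 2 * x)) = 0

variable [CharP k 2]

/-- The even part. -/
def ev (x : k[X]) : k[X] := (exists_ab x).choose

/-- The odd part, the square root of the derivative. -/
def od (x : k[X]) : k[X] := (exists_ab x).choose_spec.choose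

theorem ev_od (x : k[X]) : x = ev x ^ 2 + X * od x ^ 2 := (exists_ab x).choose_spec.choose_spec.1

end Defs

section OD
variable {k : Type*} [Field k] [Fintype k] [CharP k 2]
omit [Fintype k] in
theorem od_two : (2 : k[X]) = 0 := CharTwo.two_eq_zero

omit [Fintype k] in
theorem od_der (s : k[X]) : derivative (s ^ 2) = 0 := by
  rw [sq, derivative_mul, mul_comm s, ← two_mul, od_two, zero_mul]

omit [Fintype k] in
theorem od_inj {a b : k[X]} (h : a ^ 2 = b ^ 2) : a = b := by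
  have e : (a - b) ^ 2 = 0 := by
    have : (a - b) ^ 2 = a ^ 2 - b ^ 2 + 2 * (b ^ 2 - a * b) := by ring
    rw [this, h, od_two, sub_self, zero_mul, add_zero]
  exact sub_eq_zero.1 (pow_eq_zero_iff two_ne_zero |>.1 e)

theorem od_sq (x : k[X]) : od x ^ 2 = derivative x := by
  conv_rhs => rw [ev_od x]
  rw [derivative_add, derivative_mul, od_der, od_der, derivative_X]
  ring

theorem od_add (x y : k[X]) : od (x + y) = od x + od y := by
  apply od_inj
  rw [od_sq, derivative_add, add_sq, od_sq, od_sq, od_two]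
  ring

theorem od_sq_mul (s x : k[X]) : od (s ^ 2 * x) = s * od x := by
  apply od_inj
  rw [od_sq, derivative_mul, od_der, mul_pow, od_sq]
  ring

theorem od_of_sq (s : k[X]) : od (s ^ 2) = 0 := by
  apply od_inj
  rw [od_sq, od_der]
  ring

theorem od_mon {D : ℕ} {x : k[X]} (hx : x ∈ mon k (2 * D + 1)) : od x ∈ mon k D := by
  obtain ⟨h1, h2⟩ := mem_mon.1 hx
  have hc : (od x ^ 2).coeff (2 * D) = 1 := by
    rw [od_sq, coeff_derivative, ← h2, h1.coeff_natDegree]
    push_cast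
    rw [CharTwo.two_eq_zero (R := k)]
    ring
  have hd : (od x ^ 2).natDegree ≤ 2 * D := by
    rw [od_sq]
    have := natDegree_derivative_le x
    omega
  have hm : (od x ^ 2).Monic := monic_of_natDegree_le_of_coeff_eq_one _ hd hc
  have he : (od x ^ 2).natDegree = 2 * D :=
    natDegree_eq_of_le_of_coeff_ne_zero hd (by rw [hc]; exact one_ne_zero)
  rw [natDegree_pow] at he
  refine mem_mon.2 ⟨?_, by omega⟩
  have h3 : (od x).leadingCoeff ^ 2 = 1 := by rw [← leadingCoeff_pow]; exact hm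
  rcases sq_eq_one_iff.1 h3 with h | h
  · exact h
  · rw [CharTwo.neg_eq] at h
    exact h

theorem od_dvd (M x : k[X]) : M ∣ od x ↔ M ^ 2 ∣ derivative x := by
  rw [← od_sq]
  exact (UniqueFactorizationMonoid.pow_dvd_pow_iff_dvd two_ne_zero).symm

end OD

section UNI
variable {k : Type*} [Field k] [Fintype k] [CharP k 2]

omit [Fintype k] in
theorem uni_two : (2 : k[X]) = 0 := by
  have h3 : (2 : k[X]) = C 2 := rfl
  have h4 : (2 : k) = 0 := CharP.cast_eq_zero k 2
  rw [h3, h4, C_0]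

theorem uni_maps {g : k[X]} {ka len si rho : ℕ} (hg : g ∈ prs k ka) (h1 : si + 1 = ka + 2 * len)
    (h2 : rho + 1 = ka + len) {x : k[X]} (hx : x ∈ box k si) : od (x * g) ∈ box k rho := by
  obtain ⟨hm, hd⟩ := mem_mon.1 (mem_filter.1 hg).1
  rw [mem_box] at hx ⊢
  by_cases h0 : od (x * g) = 0
  · rw [h0, degree_zero]
    exact WithBot.bot_lt_coe _
  have hx0 : x ≠ 0 := by
    rintro rfl
    apply h0
    have h5 := od_of_sq (0 : k[X])
    rwa [zero_pow two_ne_zero, ← zero_mul g] at h5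
  have h3 : x.natDegree < si := (natDegree_lt_iff_degree_lt hx0).2 hx
  have h4 : (x * g).natDegree = x.natDegree + ka := by rw [natDegree_mul hx0 hm.ne_zero, hd]
  have h5 : (derivative (x * g)).natDegree = 2 * (od (x * g)).natDegree := by
    rw [← od_sq, natDegree_pow]
  have hk : 0 < ka := hd ▸ (mem_filter.1 hg).2.natDegree_pos
  have h6 : (derivative (x * g)).natDegree < (x * g).natDegree :=
    natDegree_derivative_lt (by omega)
  exact (natDegree_lt_iff_degree_lt h0).1 (by omega)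

theorem uni_fib {g : k[X]} {ka len si : ℕ} (hg : g ∈ prs k ka) (h1 : si + 1 = ka + 2 * len)
    (τ : k[X]) : (#{x ∈ box k si | od (x * g) = τ} : ℝ) ≤ qq k ^ len := by
  obtain ⟨hm, hd⟩ := mem_mon.1 (mem_filter.1 hg).1
  have hi : Irreducible g := (mem_filter.1 hg).2
  rw [← card_box]
  rcases ({x ∈ box k si | od (x * g) = τ} : Finset k[X]).eq_empty_or_nonempty with he | ⟨x0, hx0⟩
  · rw [he, card_empty, Nat.cast_zero]
    exact Nat.cast_nonneg _
  have hsub : {x ∈ box k si | od (x * g) = τ} ⊆ (box k len).image fun s => x0 + g * s ^ 2 := by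
    intro x hx
    obtain ⟨hx1, hx2⟩ := mem_filter.1 hx
    obtain ⟨hy1, hy2⟩ := mem_filter.1 hx0
    have h0 : od ((x + x0) * g) = 0 := by
      rw [add_mul, od_add, hx2, hy2, ← two_mul, uni_two, zero_mul]
    have h3 := ev_od ((x + x0) * g)
    rw [h0, zero_pow two_ne_zero, mul_zero, add_zero] at h3
    have h4 : g ∣ ev ((x + x0) * g) :=
      hi.prime.dvd_of_dvd_pow (n := 2) (h3 ▸ dvd_mul_left g (x + x0))
    obtain ⟨s, hs⟩ := h4
    rw [hs] at h3
    have h5 : x + x0 = g * s ^ 2 := mul_right_cancel₀ hm.ne_zero (by rw [h3]; ring)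
    refine mem_image.2 ⟨s, ?_, ?_⟩
    · rw [mem_box]
      by_cases hs0 : s = 0
      · rw [hs0, degree_zero]
        exact WithBot.bot_lt_coe _
      have h6 : (g * s ^ 2).degree < si := by
        rw [← h5]
        exact (degree_add_le _ _).trans_lt (max_lt (mem_box.1 hx1) (mem_box.1 hy1))
      have h7 : g * s ^ 2 ≠ 0 := mul_ne_zero hm.ne_zero (pow_ne_zero _ hs0)
      have h8 := (natDegree_lt_iff_degree_lt h7).2 h6
      rw [natDegree_mul hm.ne_zero (pow_ne_zero _ hs0), natDegree_pow, hd] at h8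
      exact (natDegree_lt_iff_degree_lt hs0).1 (by omega)
    · linear_combination (-1) * h5 + x0 * (uni_two (k := k))
  exact_mod_cast (card_le_card hsub).trans card_image_le

theorem uni {g : k[X]} {ka len si rho : ℕ} (hg : g ∈ prs k ka) (h1 : si + 1 = ka + 2 * len)
    (h2 : rho + 1 = ka + len) (f : k[X] → ℝ) :
    𝔼 x ∈ box k si, f (od (x * g)) = 𝔼 τ ∈ box k rho, f τ := by
  have hmap : ∀ x ∈ box k si, od (x * g) ∈ box k rho := fun x hx => uni_maps hg h1 h2 hx
  have hs : si = rho + len := by omega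
  have hq : (0 : ℝ) < qq k := lt_of_lt_of_le two_pos two_le_qq
  have h3 : ∑ τ ∈ box k rho, (#{x ∈ box k si | od (x * g) = τ} : ℝ) =
      ∑ _τ ∈ box k rho, qq k ^ len := by
    rw [← Nat.cast_sum, ← card_eq_sum_card_fiberwise hmap, card_box, sum_const, nsmul_eq_mul,
      card_box, hs, pow_add]
  have h4 := (sum_eq_sum_iff_of_le fun τ _ => uni_fib hg h1 τ).1 h3
  have h5 : ∑ x ∈ box k si, f (od (x * g)) = qq k ^ len * ∑ τ ∈ box k rho, f τ := by
    rw [← sum_fiberwise_of_maps_to hmap, mul_sum]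
    refine sum_congr rfl fun τ hτ => ?_
    rw [← h4 τ hτ, ← nsmul_eq_mul, ← sum_const]
    exact sum_congr rfl fun x hx => by rw [(mem_filter.1 hx).2]
  rw [box_exp, box_exp, h5, hs, pow_add]
  field_simp

end UNI

section PAR
variable {k : Type*} [Field k] [Fintype k] [CharP k 2]

omit [CharP k 2] in
theorem par_psi0 : psi (0 : k) = 1 := if_pos ⟨0, by simp⟩

omit [CharP k 2] in
theorem par_abs (c : k) : |psi c| = 1 := by
  unfold psi
  split_ifs <;> simp

theorem par_add (M a b : k[X]) : psi (tau M (a + b)) = psi (tau M a) * psi (tau M b) := by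
  rw [tau_add, psi_add]

theorem par_orth {N : ℕ} {b : k[X]} (hb : b.degree < N) :
    ∑ v ∈ box k N, psi (tau (X ^ N) (v * b)) = if b = 0 then qq k ^ N else 0 := by
  have hM : (X ^ N : k[X]).Monic := monic_X_pow N
  split_ifs with h
  · subst h
    rw [sum_congr rfl (g := fun _ => (1 : ℝ)) fun v _ => by
      rw [mul_zero, tauh_zero, par_psi0], sum_const, nsmul_eq_mul, mul_one, card_box]
  have h2 : b.natDegree < N := (natDegree_lt_iff_degree_lt h).2 hb
  obtain ⟨c, hc⟩ := exists_psi_neg (k := k)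
  set j := N - 1 - b.natDegree with hj
  have hv0 : (monomial j (c / b.leadingCoeff) : k[X]).degree < N :=
    (degree_monomial_le j _).trans_lt (by exact_mod_cast (by omega : j < N))
  have he : psi (tau (X ^ N) (monomial j (c / b.leadingCoeff) * b)) = -1 := by
    have hd : (monomial j (c / b.leadingCoeff) * b).natDegree ≤ j + b.natDegree :=
      natDegree_mul_le.trans (by have := natDegree_monomial_le (m := j) (c / b.leadingCoeff); omega)
    have e : (X ^ N : k[X]).natDegree - 1 = b.natDegree + j := by rw [natDegree_X_pow]; omega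
    rw [tau_of_lt hM (degree_lt_degree (by rw [natDegree_X_pow]; omega)), e, coeff_monomial_mul,
      coeff_natDegree, div_mul_cancel₀ _ (leadingCoeff_ne_zero.2 h), hc]
  have hs := box_sum_shift hv0 fun v => psi (tau (X ^ N) (v * b))
  simp only [add_mul, par_add, he, ← sum_mul] at hs
  linarith

theorem parseval (N : ℕ) (Φ : k[X] → ℝ) :
    𝔼 t ∈ box k N, Φ t ^ 2 = ∑ ξ ∈ box k N, four N Φ ξ ^ 2 := by
  have hq : 0 < qq k ^ N := pow_pos (lt_of_lt_of_le two_pos two_le_qq) _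
  have h1 : ∀ ξ : k[X], four N Φ ξ ^ 2 = (∑ s ∈ box k N, ∑ t ∈ box k N,
      Φ s * Φ t * psi (tau (X ^ N) (ξ * (s - t)))) / (qq k ^ N) ^ 2 := by
    intro ξ
    unfold four
    rw [box_exp, div_pow, sq, sum_mul_sum]
    congr 1
    refine sum_congr rfl fun i _ => sum_congr rfl fun j _ => ?_
    rw [CharTwo.sub_eq_add, mul_add, par_add]
    ring
  simp only [h1]
  rw [← sum_div, sum_comm, box_exp, eq_div_iff (pow_ne_zero 2 hq.ne')]
  have h2 : ∀ s ∈ box k N, ∑ ξ ∈ box k N, ∑ t ∈ box k N,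
      Φ s * Φ t * psi (tau (X ^ N) (ξ * (s - t))) = Φ s ^ 2 * qq k ^ N := by
    intro s hs
    rw [sum_comm, sum_eq_single s]
    · rw [← mul_sum, par_orth (by rw [sub_self, degree_zero]; exact WithBot.bot_lt_coe N),
        if_pos (sub_self s), sq]
    · intro t ht hts
      have hd : (s - t).degree < N :=
        (degree_sub_le _ _).trans_lt (max_lt (mem_box.1 hs) (mem_box.1 ht))
      rw [← mul_sum, par_orth hd, if_neg (sub_ne_zero.2 (Ne.symm hts)), mul_zero]
    · intro h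
      exact absurd hs h
  rw [sum_congr rfl h2, ← sum_mul]
  field_simp

theorem par_shift {N : ℕ} (Φ : k[X] → ℝ) (ξ : k[X]) {u : k[X]} (hu : u ∈ box k N) :
    four N Φ ξ = psi (tau (X ^ N) (ξ * u)) *
      𝔼 t ∈ box k N, Φ (t + u) * psi (tau (X ^ N) (ξ * t)) := by
  unfold four
  rw [← exp_box_shift (mem_box.1 hu) fun t => Φ t * psi (tau (X ^ N) (ξ * t)), mul_expect]
  refine expect_congr rfl fun t _ => ?_
  rw [mul_add, par_add]
  ring

theorem four_zero {N : ℕ} {Φ : k[X] → ℝ} {ξ u : k[X]} (hu : u ∈ box k N)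
    (hΦ : ∀ t, Φ (t + u) = Φ t) (h : psi (tau (X ^ N) (ξ * u)) ≠ 1) : four N Φ ξ = 0 := by
  have h1 := par_shift Φ ξ hu
  simp only [hΦ] at h1
  by_contra h0
  exact h ((mul_eq_right₀ h0).1 h1.symm)

theorem four_le {N N' : ℕ} {Φ : k[X] → ℝ} {ξ W : k[X]} {A : ℝ}
    (hW : ∀ x ∈ box k N', W * x ∈ box k N) (h : ∀ x ∈ box k N', tau (X ^ N) (ξ * (W * x)) = 0)
    (hA : ∀ t ∈ box k N, |𝔼 x ∈ box k N', Φ (t + W * x)| ≤ A) : |four N Φ ξ| ≤ A := by
  have h1 : ∀ x ∈ box k N', four N Φ ξ =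
      𝔼 t ∈ box k N, Φ (t + W * x) * psi (tau (X ^ N) (ξ * t)) := by
    intro x hx
    rw [par_shift Φ ξ (hW x hx), h x hx, par_psi0, one_mul]
  have h2 : four N Φ ξ = 𝔼 x ∈ box k N', 𝔼 t ∈ box k N,
      Φ (t + W * x) * psi (tau (X ^ N) (ξ * t)) := by
    rw [← expect_congr rfl h1, expect_const (box_nonempty N')]
  rw [h2, expect_comm]
  refine (abs_expect_le _ _).trans (expect_le (box_nonempty N) fun t ht => ?_)
  rw [← expect_mul, abs_mul, par_abs, mul_one]
  exact hA t ht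

end PAR

section VAR
variable {k : Type*} [Field k] [Fintype k] [CharP k 2]

omit [CharP k 2] in
theorem var_sum {ι : Type*} (G : Finset ι) (N : ℕ) (Φ : ι → k[X] → ℝ) (ξ : k[X]) :
    four N (fun t => ∑ g ∈ G, Φ g t) ξ = ∑ g ∈ G, four N (Φ g) ξ := by
  unfold four
  simp only [sum_mul]
  rw [expect_sum_comm]

omit [CharP k 2] in
theorem var_abs {N : ℕ} {Φ : k[X] → ℝ} {Ch : ℝ} (h : ∀ t ∈ box k N, |Φ t| ≤ Ch) (ξ : k[X]) :
    |four N Φ ξ| ≤ Ch := by
  unfold four
  refine (abs_expect_le _ _).trans (expect_le (box_nonempty N) fun t ht => ?_)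
  have : |psi (tau (X ^ N) (ξ * t))| = 1 := by
    unfold psi
    split_ifs <;> simp
  rw [abs_mul, this, mul_one]
  exact h t ht

theorem var_le {ι : Type*} (G : Finset ι) (N : ℕ) (Φ : ι → k[X] → ℝ) {Ch T : ℝ} (hT : 0 ≤ T)
    (hΦ : ∀ g ∈ G, ∀ t ∈ box k N, |Φ g t| ≤ Ch) (Mj : k[X] → Prop)
    (hK : ∀ ξ ∈ box k N, ¬ Mj ξ → (#{g ∈ G | four N (Φ g) ξ ≠ 0} : ℝ) ≤ T) :
    𝔼 t ∈ box k N, (∑ g ∈ G, Φ g t) ^ 2 ≤
      T * #G * Ch ^ 2 + Ch * #G * ∑ ξ ∈ {ξ ∈ box k N | Mj ξ}, ∑ g ∈ G, |four N (Φ g) ξ| := by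
  rw [parseval N fun t => ∑ g ∈ G, Φ g t]
  simp only [var_sum]
  rw [← sum_filter_add_sum_filter_not (box k N) Mj, add_comm]
  refine add_le_add ?_ ?_
  · have h1 : ∀ ξ ∈ {ξ ∈ box k N | ¬ Mj ξ},
        (∑ g ∈ G, four N (Φ g) ξ) ^ 2 ≤ T * ∑ g ∈ G, four N (Φ g) ξ ^ 2 := by
      intro ξ hξ
      rw [mem_filter] at hξ
      rw [← sum_filter_ne_zero G (f := fun g => four N (Φ g) ξ)]
      refine sq_sum_le_card_mul_sum_sq.trans ?_
      exact mul_le_mul (hK ξ hξ.1 hξ.2)
        (sum_le_sum_of_subset_of_nonneg (filter_subset _ _) fun _ _ _ => sq_nonneg _)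
        (sum_nonneg fun _ _ => sq_nonneg _) hT
    refine (sum_le_sum h1).trans ?_
    rw [← mul_sum, mul_assoc]
    refine mul_le_mul_of_nonneg_left ?_ hT
    refine (sum_le_sum_of_subset_of_nonneg (filter_subset _ _)
      fun _ _ _ => sum_nonneg fun _ _ => sq_nonneg _).trans ?_
    rw [sum_comm, ← nsmul_eq_mul]
    refine sum_le_card_nsmul _ _ _ fun g hg => ?_
    rw [← parseval]
    exact expect_le (box_nonempty N) fun t ht => sq_le_sq' (abs_le.1 (hΦ g hg t ht)).1
      (abs_le.1 (hΦ g hg t ht)).2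
  · rw [mul_sum]
    refine sum_le_sum fun ξ _ => ?_
    have h1 : |∑ g ∈ G, four N (Φ g) ξ| ≤ ∑ g ∈ G, |four N (Φ g) ξ| := abs_sum_le_sum_abs _ _
    have h2 : ∑ g ∈ G, |four N (Φ g) ξ| ≤ Ch * #G := by
      rw [mul_comm, ← nsmul_eq_mul]
      exact sum_le_card_nsmul _ _ _ fun g hg => var_abs (hΦ g hg) ξ
    rw [← sq_abs, sq]
    exact mul_le_mul (h1.trans h2) h1 (abs_nonneg _) ((abs_nonneg _).trans (h1.trans h2))

end VAR

section MAJ
variable {k : Type*} [Field k] [Fintype k] [CharP k 2]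

/-- `x ↦ sqrt (tau M (ξ * x ^ 2))` as a linear functional. -/
def majTh (M ξ : k[X]) : k[X] →ₗ[k] k where
  toFun x := (frobeniusEquiv k 2).symm (tau M (ξ * x ^ 2))
  map_add' u v := by rw [CharTwo.add_sq, mul_add, tau_add, map_add]
  map_smul' c u := by
    rw [smul_eq_C_mul, mul_pow, ← C_pow, mul_left_comm, tau_C_mul, map_mul, RingHom.id_apply,
      smul_eq_mul]
    congr 1
    rw [RingEquiv.symm_apply_eq, coe_frobeniusEquiv, frobenius_def]

theorem maj_th (M ξ x : k[X]) : majTh M ξ x = 0 ↔ tau M (ξ * x ^ 2) = 0 := by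
  simp [majTh]

theorem maj_zero {M y : k[X]} {len : ℕ} (h : ∀ s ∈ box k len, psi (tau M (y * s ^ 2)) = 1)
    {s : k[X]} (hs : s ∈ box k len) : tau M (y * s ^ 2) = 0 := by
  by_contra h0
  obtain ⟨c, hc⟩ := exists_psi_neg (k := k)
  obtain ⟨r, hr⟩ := (frobeniusEquiv k 2).surjective (c / tau M (y * s ^ 2))
  rw [coe_frobeniusEquiv, frobenius_def] at hr
  have h1 := h (C r * s) (mem_box.2 (by
    rw [← smul_eq_C_mul]; exact lt_of_le_of_lt (degree_smul_le _ _) (mem_box.1 hs)))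
  rw [mul_pow, ← C_pow, mul_left_comm, tau_C_mul, hr, div_mul_cancel₀ _ h0, hc] at h1
  norm_num at h1

theorem maj_fib (K S T : Finset k[X]) (f u : k[X] → k[X]) (hf : ∀ g ∈ K, f g ∈ T)
    (hu : ∀ g ∈ K, ∀ g' ∈ K, f g = f g' → u g + u g' ∈ S)
    (inj : ∀ g g', f g = f g' → u g = u g' → g = g') : #K ≤ #S * #T := by
  refine Finset.card_le_mul_card_image_of_maps_to hf _ fun b _ => ?_
  rcases (K.filter fun a => f a = b).eq_empty_or_nonempty with he | ⟨g0, h0⟩
  · rw [he]; exact Nat.zero_le _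
  obtain ⟨k0, b0⟩ := Finset.mem_filter.1 h0
  refine Finset.card_le_card_of_injOn (fun g => u g + u g0) (fun g hg => ?_) fun g hg g' hg' e => ?_
  · obtain ⟨k1, b1⟩ := Finset.mem_filter.1 hg
    exact hu g k1 g0 k0 (b1.trans b0.symm)
  · exact inj g g' ((Finset.mem_filter.1 hg).2.trans (Finset.mem_filter.1 hg').2.symm)
      (add_right_cancel e)

theorem maj_deg (x : k[X]) : 2 * (ev x).natDegree ≤ x.natDegree ∧
    (od x = 0 ∨ 2 * (od x).natDegree + 1 ≤ x.natDegree) := by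
  have e := ev_od x
  constructor
  · by_cases h0 : ev x = 0
    · simp [h0]
    refine le_natDegree_of_ne_zero ?_
    rw [(congrArg (coeff · _) e).trans (ab_coeff _ _ _).1]
    exact pow_ne_zero _ (leadingCoeff_ne_zero.2 h0)
  · by_cases h0 : od x = 0
    · exact Or.inl h0
    refine Or.inr (le_natDegree_of_ne_zero ?_)
    rw [(congrArg (coeff · _) e).trans (ab_coeff _ _ _).2]
    exact pow_ne_zero _ (leadingCoeff_ne_zero.2 h0)

theorem maj_box {N : ℕ} {x : k[X]} (h : x = 0 ∨ x.natDegree < N) : x ∈ box k N := by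
  rcases h with rfl | h
  · exact mem_box.2 (by simp)
  · exact mem_box.2 (lt_of_le_of_lt degree_le_natDegree (by exact_mod_cast h))

theorem maj_add {N : ℕ} {x y : k[X]} (hx : x ∈ box k N) (hy : y ∈ box k N) : x + y ∈ box k N :=
  mem_box.2 ((degree_add_le _ _).trans_lt (max_lt (mem_box.1 hx) (mem_box.1 hy)))

theorem maj {ka len si d0 : ℕ} (h1 : si + 1 = ka + 2 * len) (h2 : 3 * d0 ≤ len) (h3 : 2 * d0 ≤ ka)
    (ξ : k[X]) (h : qq k ^ (ka + 1 - d0) < (#{g ∈ box k (ka + 1) | ∀ s ∈ box k len,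
      psi (tau (X ^ si) (ξ * (g * s ^ 2))) = 1} : ℝ)) : Major si d0 ξ := by
  set K := {g ∈ box k (ka + 1) | ∀ s ∈ box k len, psi (tau (X ^ si) (ξ * (g * s ^ 2))) = 1} with hK
  have hc : Fintype.card k ^ (ka + 1 - d0) < #K := by
    unfold qq at h
    exact_mod_cast h
  have cb : ∀ N, #(box k N) = Fintype.card k ^ N := fun N => by
    have := card_box (k := k) N
    unfold qq at this
    exact_mod_cast this
  have two : (2 : k[X]) = 0 := CharTwo.two_eq_zero
  have kz : ∀ g ∈ K, ∀ s ∈ box k len, tau (X ^ si) (ξ * g * s ^ 2) = 0 := fun g hg s hs =>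
    maj_zero (fun s hs => by rw [mul_assoc]; exact (Finset.mem_filter.1 hg).2 s hs) hs
  have kd : ∀ g ∈ K, g.natDegree ≤ ka := fun g hg => natDegree_le_of_degree_le
    (Order.lt_succ_iff.1 (by exact_mod_cast mem_box.1 (Finset.mem_filter.1 hg).1))
  have b0 : ∀ g ∈ K, ev g ∈ box k (ka / 2 + 1) := fun g hg => maj_box (Or.inr (by
    have := (maj_deg g).1
    have := kd g hg
    omega))
  have b1 : ∀ g ∈ K, od g ∈ box k ((ka + 1) / 2) := fun g hg => maj_box (by
    have := kd g hg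
    rcases (maj_deg g).2 with h | h
    · exact Or.inl h
    · exact Or.inr (by omega))
  have c0 := maj_fib K {E ∈ box k (ka / 2 + 1) | ∀ s : k[X], s.degree < len →
      majTh (X ^ si) ξ (E * s) = 0} _ od ev b1 (fun g hg g' hg' e => by
    refine Finset.mem_filter.2 ⟨maj_add (b0 g hg) (b0 g' hg'), fun s hs => (maj_th _ _ _).2 ?_⟩
    have e1 : ξ * ((ev g + ev g') * s) ^ 2 = ξ * g * s ^ 2 + ξ * g' * s ^ 2 := by
      have a := ev_od g
      have a' := ev_od g'
      rw [e] at a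
      linear_combination (-ξ * s ^ 2) * a - ξ * s ^ 2 * a'
        + (ξ * s ^ 2 * (ev g * ev g' - X * od g' ^ 2)) * two
    rw [e1, tau_add, kz g hg s (mem_box.2 hs), kz g' hg' s (mem_box.2 hs), add_zero])
    (fun g g' e e' => by rw [ev_od g, ev_od g', e, e'])
  have c1 := maj_fib K {E ∈ box k ((ka + 1) / 2) | ∀ s : k[X], s.degree < len →
      majTh (X ^ si) (ξ * X) (E * s) = 0} _ ev od b0 (fun g hg g' hg' e => by
    refine Finset.mem_filter.2 ⟨maj_add (b1 g hg) (b1 g' hg'), fun s hs => (maj_th _ _ _).2 ?_⟩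
    have e1 : ξ * X * ((od g + od g') * s) ^ 2 = ξ * g * s ^ 2 + ξ * g' * s ^ 2 := by
      have a := ev_od g
      have a' := ev_od g'
      rw [e] at a
      linear_combination (-ξ * s ^ 2) * a - ξ * s ^ 2 * a'
        + (ξ * s ^ 2 * (X * od g * od g' - ev g' ^ 2)) * two
    rw [e1, tau_add, kz g hg s (mem_box.2 hs), kz g' hg' s (mem_box.2 hs), add_zero])
    (fun g g' e e' => by rw [ev_od g, ev_od g', e, e'])
  rw [cb] at c0 c1
  obtain ⟨e0, m0, d0', z0⟩ := H64W.hank (majTh (X ^ si) ξ) (ka / 2 + 1) len d0 _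
    (fun E hE => ⟨mem_box.1 (Finset.mem_filter.1 hE).1, (Finset.mem_filter.1 hE).2⟩)
    (Nat.lt_of_mul_lt_mul_right (a := Fintype.card k ^ ((ka + 1) / 2)) (lt_of_lt_of_le (by
      rw [← pow_add, show ka / 2 + 1 - d0 + (ka + 1) / 2 = ka + 1 - d0 by omega]; exact hc) c0))
    (by omega) (by omega)
  obtain ⟨e1, m1, d1', z1⟩ := H64W.hank (majTh (X ^ si) (ξ * X)) ((ka + 1) / 2) len d0 _
    (fun E hE => ⟨mem_box.1 (Finset.mem_filter.1 hE).1, (Finset.mem_filter.1 hE).2⟩)
    (Nat.lt_of_mul_lt_mul_right (a := Fintype.card k ^ (ka / 2 + 1)) (lt_of_lt_of_le (by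
      rw [← pow_add, show (ka + 1) / 2 - d0 + (ka / 2 + 1) = ka + 1 - d0 by omega]; exact hc) c1))
    (by omega) (by omega)
  refine ⟨e0 * e1, m0.mul m1, by rw [m0.natDegree_mul m1]; omega, fun x hx => ?_⟩
  by_cases x0 : x = 0
  · rw [x0, mul_zero, mul_zero, tauh_zero]
  have dx := (natDegree_lt_iff_degree_lt x0).2 (mem_box.1 hx)
  have e2 : ξ * ((e0 * e1) ^ 2 * x) = ξ * (e0 * (e1 * ev x)) ^ 2 + ξ * X * (e1 * (e0 * od x)) ^ 2 := by
    linear_combination (ξ * (e0 * e1) ^ 2) * ev_od x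
  have t0 := (maj_th _ _ _).1 (z0 (e1 * ev x) (by
    have := @natDegree_mul_le _ _ e1 (ev x)
    have := (maj_deg x).1
    omega))
  have t1 := (maj_th _ _ _).1 (z1 (e0 * od x) (by
    have := @natDegree_mul_le _ _ e0 (od x)
    rcases (maj_deg x).2 with h | h
    · rw [h, mul_zero, natDegree_zero]; omega
    · omega))
  rw [e2, tau_add, t0, t1, add_zero]

end MAJ

section CNT
variable {k : Type*} [Field k] [Fintype k] [CharP k 2]
omit [CharP k 2] in
theorem cnt_psi_zero : psi (0 : k) = 1 := if_pos ⟨0, by simp⟩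

omit [CharP k 2] in
theorem cnt_psi_pm (c : k) : psi c = 1 ∨ psi c = -1 := by
  unfold psi
  split_ifs <;> simp

theorem cnt_zero {N n : ℕ} {w u : k[X]} (hu : u.degree < n)
    (h : psi (tau (X ^ N) (w * u)) = -1) : ∑ t ∈ box k n, psi (tau (X ^ N) (w * t)) = 0 := by
  have h1 := box_sum_shift hu fun t => psi (tau (X ^ N) (w * t))
  simp only [mul_add, tau_add, psi_add, h, ← sum_mul] at h1
  linarith

theorem cnt_nonneg (N n : ℕ) (w : k[X]) : 0 ≤ ∑ t ∈ box k n, psi (tau (X ^ N) (w * t)) := by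
  by_cases h : ∃ u ∈ box k n, psi (tau (X ^ N) (w * u)) = -1
  · obtain ⟨u, hu, h⟩ := h
    rw [cnt_zero (mem_box.1 hu) h]
  · refine sum_nonneg fun t ht => ?_
    rcases cnt_psi_pm (tau (X ^ N) (w * t)) with h1 | h1
    · rw [h1]
      exact zero_le_one
    · exact (h ⟨t, ht, h1⟩).elim

theorem cnt_orth {N : ℕ} {w : k[X]} (h0 : w ≠ 0) (hw : w.natDegree < N) :
    ∑ t ∈ box k N, psi (tau (X ^ N) (w * t)) = 0 := by
  obtain ⟨c, hc⟩ := exists_psi_neg (k := k)
  have hl : w.leadingCoeff ≠ 0 := leadingCoeff_ne_zero.2 h0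
  have hN : N - 1 = w.natDegree + (N - 1 - w.natDegree) := by omega
  have hd : (monomial (N - 1 - w.natDegree) (c / w.leadingCoeff) : k[X]).natDegree ≤
      N - 1 - w.natDegree := natDegree_monomial_le _
  refine cnt_zero (u := monomial (N - 1 - w.natDegree) (c / w.leadingCoeff)) ?_ ?_
  · refine degree_le_natDegree.trans_lt ?_
    exact_mod_cast (by omega :
      (monomial (N - 1 - w.natDegree) (c / w.leadingCoeff) : k[X]).natDegree < N)
  · rw [tau_of_lt (monic_X_pow N), natDegree_X_pow]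
    · rw [hN, Nat.add_sub_cancel_left, coeff_mul_monomial, coeff_natDegree,
        mul_div_cancel₀ _ hl, hc]
    · rw [degree_X_pow]
      refine degree_le_natDegree.trans_lt ?_
      have := natDegree_mul_le (p := w)
        (q := monomial (N - 1 - w.natDegree) (c / w.leadingCoeff))
      exact_mod_cast (by omega :
        (w * monomial (N - 1 - w.natDegree) (c / w.leadingCoeff) : k[X]).natDegree < N)

theorem cnt_one {N n : ℕ} {E : k[X]} (h0 : E ≠ 0) (hn : E.natDegree + n ≤ N) :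
    (#{ξ ∈ box k N | ∀ x ∈ box k n, tau (X ^ N) (ξ * (E * x)) = 0} : ℝ) * qq k ^ n ≤ qq k ^ N := by
  have h1 : ∑ ξ ∈ box k N, ∑ x ∈ box k n, psi (tau (X ^ N) (ξ * E * x)) = qq k ^ N := by
    rw [sum_comm, sum_eq_single_of_mem (0 : k[X]) (mem_box.2 (by simp))]
    · simp only [mul_zero, tauh_zero, cnt_psi_zero, sum_const, nsmul_eq_mul, mul_one, card_box]
    · intro x hx hx0
      have h2 : x.natDegree < n := (natDegree_lt_iff_degree_lt hx0).2 (mem_box.1 hx)
      have h3 := natDegree_mul_le (p := E) (q := x)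
      rw [← cnt_orth (mul_ne_zero h0 hx0) (by omega : (E * x).natDegree < N)]
      refine sum_congr rfl fun ξ _ => ?_
      rw [show ξ * E * x = E * x * ξ by ring]
  rw [← h1, ← nsmul_eq_mul, ← sum_const]
  refine le_trans (le_of_eq (sum_congr rfl fun ξ hξ => ?_))
    (sum_le_sum_of_subset_of_nonneg (filter_subset _ _) fun ξ _ _ => cnt_nonneg N n (ξ * E))
  rw [← card_box, ← mul_one (#(box k n) : ℝ), ← nsmul_eq_mul, ← sum_const]
  refine sum_congr rfl fun x hx => ?_
  rw [mul_assoc, (mem_filter.1 hξ).2 x hx, cnt_psi_zero]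

theorem cnt {N d0 : ℕ} (h : 6 * d0 ≤ N) :
    (#{ξ ∈ box k N | Major N d0 ξ} : ℝ) ≤ qq k ^ (8 * d0 + 1) := by
  have hq : (0 : ℝ) < qq k := lt_of_lt_of_le two_pos two_le_qq
  have h1 : {ξ ∈ box k N | Major N d0 ξ} ⊆ {e ∈ box k (2 * d0 + 1) | e ≠ 0}.biUnion fun e =>
      {ξ ∈ box k N | ∀ x ∈ box k (N - 6 * d0), tau (X ^ N) (ξ * (e ^ 2 * x)) = 0} := by
    intro ξ hξ
    obtain ⟨hb, e, he, hd, hx⟩ := mem_filter.1 hξ
    refine mem_biUnion.2 ⟨e, mem_filter.2 ⟨mem_box.2 ?_, he.ne_zero⟩, mem_filter.2 ⟨hb, hx⟩⟩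
    refine degree_le_natDegree.trans_lt ?_
    exact_mod_cast Nat.lt_succ_of_le hd
  have h2 : ∀ e ∈ {e ∈ box k (2 * d0 + 1) | e ≠ 0},
      (#{ξ ∈ box k N | ∀ x ∈ box k (N - 6 * d0), tau (X ^ N) (ξ * (e ^ 2 * x)) = 0} : ℝ) ≤
        qq k ^ (6 * d0) := by
    intro e he
    obtain ⟨hb, h0⟩ := mem_filter.1 he
    have h3 : e.natDegree < 2 * d0 + 1 := (natDegree_lt_iff_degree_lt h0).2 (mem_box.1 hb)
    have h4 := cnt_one (N := N) (n := N - 6 * d0) (pow_ne_zero 2 h0)
      (by rw [natDegree_pow]; omega)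
    refine le_of_mul_le_mul_right (h4.trans (le_of_eq ?_)) (pow_pos hq (N - 6 * d0))
    rw [← pow_add]
    congr 1
    omega
  calc (#{ξ ∈ box k N | Major N d0 ξ} : ℝ)
      ≤ ∑ e ∈ {e ∈ box k (2 * d0 + 1) | e ≠ 0},
        (#{ξ ∈ box k N | ∀ x ∈ box k (N - 6 * d0), tau (X ^ N) (ξ * (e ^ 2 * x)) = 0} : ℝ) := by
        exact_mod_cast (card_le_card h1).trans card_biUnion_le
    _ ≤ ∑ _e ∈ {e ∈ box k (2 * d0 + 1) | e ≠ 0}, qq k ^ (6 * d0) := sum_le_sum h2
    _ ≤ ∑ _e ∈ box k (2 * d0 + 1), qq k ^ (6 * d0) :=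
        sum_le_sum_of_subset_of_nonneg (filter_subset _ _) fun _ _ _ => (pow_pos hq _).le
    _ = qq k ^ (8 * d0 + 1) := by
        rw [sum_const, nsmul_eq_mul, card_box, ← pow_add]
        congr 1
        omega

end CNT

section VAN
variable {k : Type*} [Field k] [Fintype k]

/-- a short multiplier with character value minus one -/
theorem van_neg [CharP k 2] {d v : k[X]} (hd : d.Monic) (hv : ¬ d ∣ v) :
    ∃ t : k[X], t.degree < d.natDegree ∧ psi (tau d (v * t)) = -1 := by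
  obtain ⟨c, hc⟩ := exists_psi_neg (k := k)
  have r0 : v %ₘ d ≠ 0 := fun h => hv ((modByMonic_eq_zero_iff_dvd hd).1 h)
  have r1 : (v %ₘ d).degree < d.degree := degree_modByMonic_lt v hd
  have r2 : (v %ₘ d).natDegree < d.natDegree := natDegree_lt_natDegree r0 r1
  have l0 : (v %ₘ d).leadingCoeff ≠ 0 := leadingCoeff_ne_zero.2 r0
  set r := v %ₘ d with hr
  refine ⟨monomial (d.natDegree - 1 - r.natDegree) (c * r.leadingCoeff⁻¹), ?_, ?_⟩
  · refine (degree_monomial_le _ _).trans_lt ?_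
    exact_mod_cast (by omega : d.natDegree - 1 - r.natDegree < d.natDegree)
  · have e1 : tau d (v * monomial (d.natDegree - 1 - r.natDegree) (c * r.leadingCoeff⁻¹)) =
        tau d (r * monomial (d.natDegree - 1 - r.natDegree) (c * r.leadingCoeff⁻¹)) := by
      refine tau_congr hd ?_
      rw [← sub_mul]
      refine Dvd.dvd.mul_right ⟨v /ₘ d, ?_⟩ _
      have := modByMonic_add_div v d
      rw [hr]
      linear_combination -this
    have e2 : (r * monomial (d.natDegree - 1 - r.natDegree) (c * r.leadingCoeff⁻¹)).degree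
        < d.degree := by
      refine degree_lt_degree ?_
      refine natDegree_mul_le.trans_lt ?_
      have := natDegree_monomial_le (R := k) (m := d.natDegree - 1 - r.natDegree)
        (c * r.leadingCoeff⁻¹)
      omega
    have e3 : d.natDegree - 1 = r.natDegree + (d.natDegree - 1 - r.natDegree) := by omega
    rw [e1, tau_of_lt hd e2]
    conv_lhs => rw [e3]
    rw [Nat.add_sub_cancel_left, coeff_mul_monomial, coeff_natDegree, mul_left_comm,
      mul_inv_cancel₀ l0, mul_one, hc]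

theorem van_shift {N : ℕ} {t : k[X]} (ht : t.degree < N) (F : k[X] → ℝ) :
    ∑ f ∈ mon k N, F (f + t) = ∑ f ∈ mon k N, F f := by
  rw [box_sum_mon, box_sum_mon, ← box_sum_shift ht (fun a => F (X ^ N + a))]
  simp only [add_assoc]

theorem van_mul {n : ℕ} {P : k[X]} (hP : P.Monic) (F : k[X] → ℝ) :
    ∑ f ∈ mon k (n + P.natDegree), (if P ∣ f then F f else 0) = ∑ f ∈ mon k n, F (P * f) := by
  have h2 := two_le_qq (k := k)
  have h := exp_mon_mul (n := n) hP F
  rw [box_exp_mon, box_exp_mon, pow_add] at h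
  field_simp at h
  exact h.symm

/-- the sum over the free cofactor vanishes -/
theorem van_one [CharP k 2] {c j : ℕ} {M d u : k[X]} (hM : M.Monic) (hd : d.Monic)
    (hu : ¬ d ∣ u * M) (hj : d.natDegree + j ≤ c) (G : k[X] → ℝ)
    (hG : ∀ B s : k[X], s.degree < (c + M.natDegree - j : ℕ) → G (B + s) = G B) :
    ∑ B ∈ mon k (c + M.natDegree), (if M ∣ B then G B * psi (tau d (u * B)) else 0) = 0 := by
  obtain ⟨t, t1, t2⟩ := van_neg hd hu
  rw [van_mul hM]
  have t3 : t.degree < c := t1.trans_le (by exact_mod_cast (by omega : d.natDegree ≤ c))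
  have t4 : (M * t).degree < (c + M.natDegree - j : ℕ) := by
    by_cases t0 : t = 0
    · simp [t0]
    · have := (natDegree_lt_iff_degree_lt t0).2 t1
      rw [← natDegree_lt_iff_degree_lt (mul_ne_zero hM.ne_zero t0), natDegree_mul hM.ne_zero t0]
      omega
  have h := van_shift t3 fun f => G (M * f) * psi (tau d (u * (M * f)))
  have e : ∀ f : k[X], G (M * (f + t)) * psi (tau d (u * (M * (f + t)))) =
      -(G (M * f) * psi (tau d (u * (M * f)))) := fun f => by
    rw [mul_add M, hG _ _ t4, mul_add u, tau_add, psi_add, ← mul_assoc u M t, t2]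
    ring
  simp only [e, Finset.sum_neg_distrib] at h
  linarith

theorem van_box {D N : ℕ} (hN : N ≤ D) {z : k[X]} (hz : z ∈ mon k D) (F : k[X] → ℝ) :
    ∑ B ∈ mon k D, (if (B - z).degree < (N : WithBot ℕ) then F B else 0) =
      ∑ t ∈ box k N, F (z + t) := by
  rw [← Finset.sum_filter]
  rw [mem_mon] at hz
  have hd : z.degree = D := by rw [degree_eq_natDegree hz.1.ne_zero, hz.2]
  symm
  refine Finset.sum_nbij' (fun t => z + t) (fun B => B - z) ?_ ?_ ?_ ?_ ?_
  · intro t ht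
    rw [mem_box] at ht
    have h1 : t.degree < z.degree := by
      rw [hd]; exact ht.trans_le (by exact_mod_cast hN)
    rw [mem_filter, mem_mon, add_sub_cancel_left]
    exact ⟨⟨hz.1.add_of_left h1, by rw [natDegree_add_eq_left_of_degree_lt h1, hz.2]⟩, ht⟩
  · intro B hB
    exact mem_box.2 (mem_filter.1 hB).2
  · intro t _; simp
  · intro t _; simp
  · intro t _; rfl

variable [CharP k 2]

theorem van {D c j : ℕ} {MM : Finset k[X]} (hM : Adm D c MM) (hc : c ≤ D) {z d1 u : k[X]}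
    (hz : z ∈ mon k D) (hd : d1.Monic) (hj : d1.natDegree + j ≤ c) (hu : IsCoprime u d1) :
    ∑ B ∈ mon k D, (if (B - z).degree < ((D - j : ℕ) : WithBot ℕ) then wt MM B - mean D c MM else 0) *
      psi (tau d1 (u * B)) = 0 := by
  have hq := two_le_qq (k := k)
  set G : k[X] → ℝ := fun B => if (B - z).degree < ((D - j : ℕ) : WithBot ℕ) then 1 else 0 with hG
  have hG1 : ∀ B s : k[X], s.degree < ((D - j : ℕ) : WithBot ℕ) → G (B + s) = G B := by
    intro B s hs
    have e : (B + s - z).degree < ((D - j : ℕ) : WithBot ℕ) ↔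
        (B - z).degree < ((D - j : ℕ) : WithBot ℕ) := by
      constructor
      · intro h
        have e1 : B - z = B + s - z - s := by ring
        rw [e1]
        exact (degree_sub_le _ _).trans_lt (max_lt h hs)
      · intro h
        have e1 : B + s - z = B - z + s := by ring
        rw [e1]
        exact (degree_add_le _ _).trans_lt (max_lt h hs)
    simp only [hG, e]
  have e : ∀ B : k[X],
      (if (B - z).degree < ((D - j : ℕ) : WithBot ℕ) then wt MM B - mean D c MM else 0) *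
        psi (tau d1 (u * B)) =
      ∑ M ∈ MM, (if M ∣ B then G B * psi (tau d1 (u * B)) else 0) -
        mean D c MM * (if (1 : k[X]) ∣ B then G B * psi (tau d1 (u * B)) else 0) := fun B => by
    rw [← Finset.sum_filter, sum_const, nsmul_eq_mul, if_pos (one_dvd B)]
    simp only [hG, wt]
    split_ifs <;> ring
  simp only [e]
  rw [sum_sub_distrib, sum_comm, ← mul_sum]
  by_cases h1 : d1 = 1
  · have p0 : psi (0 : k) = 1 := if_pos ⟨0, by simp⟩
    have key : ∀ M : k[X], M ≠ 0 → M.natDegree ≤ D - j →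
        ∑ B ∈ mon k D, (if M ∣ B then G B * psi (tau d1 (u * B)) else 0) =
          qq k ^ (D - j) / qq k ^ M.natDegree := fun M M0 M1 => by
      have h2 := exp_box_dvd M0 M1 (isCoprime_one_left (x := M)) z
      rw [box_exp, div_eq_iff (by positivity)] at h2
      simp only [one_mul] at h2
      rw [← van_box (Nat.sub_le D j) hz fun B => if M ∣ B then (1 : ℝ) else 0] at h2
      rw [div_eq_inv_mul, ← one_div, ← h2]
      refine sum_congr rfl fun B _ => ?_
      simp only [h1, tauh_one, p0, hG]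
      split_ifs <;> simp
    rw [key 1 one_ne_zero (by simp), sum_congr rfl (g := fun _ => qq k ^ (D - j) / qq k ^ (D - c))
      fun M hm => by
        obtain ⟨m1, m2, -⟩ := hM M hm
        rw [key M m1.ne_zero (by omega), show M.natDegree = D - c by omega]]
    have e2 : qq k ^ D = qq k ^ (D - c) * qq k ^ c := by rw [← pow_add, Nat.sub_add_cancel hc]
    rw [sum_const, nsmul_eq_mul, mean, e2, natDegree_one]
    field_simp
    ring
  · have nu : ¬ IsUnit d1 := fun h => h1 (hd.eq_one_of_isUnit h)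
    have k1 := van_one (c := D) (j := j) (u := u) monic_one hd
      (fun h => nu (hu.symm.isUnit_of_dvd (by simpa using h))) (by omega) G
      (by simpa using hG1)
    rw [natDegree_one, add_zero] at k1
    rw [k1, mul_zero, sub_zero]
    refine sum_eq_zero fun M hm => ?_
    obtain ⟨m1, m2, m3⟩ := hM M hm
    have k2 := van_one (c := c) (j := j) (u := u) m1 hd (fun h => ?_) hj G
      (by rw [add_comm c, m2]; exact hG1)
    · rwa [add_comm c, m2] at k2
    · obtain ⟨p, p1, p2⟩ := WfDvdMonoid.exists_irreducible_factor nu hd.ne_zero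
      have p3 := m3 p p1 (p2.trans (hu.symm.dvd_of_dvd_mul_left h))
      have p4 := natDegree_le_of_dvd p2 hd.ne_zero
      omega

end VAN

section COS
variable {k : Type*} [Field k] [Fintype k] [CharP k 2]

omit [Fintype k] [CharP k 2] in
theorem cos_deg {W τ : k[X]} (hW : W.Monic) (r : ℕ) :
    (W * τ).degree < ((W.natDegree + r : ℕ) : WithBot ℕ) ↔ τ.degree < (r : WithBot ℕ) := by
  rw [mul_comm, hW.degree_mul, degree_eq_natDegree hW.ne_zero, Nat.cast_add, add_comm τ.degree]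
  exact WithBot.add_lt_add_iff_left (WithBot.natCast_ne_bot _)

omit [CharP k 2] in
theorem cos_add {D : ℕ} {B0 u : k[X]} (hB : B0 ∈ mon k D) (hu : u.degree < (D : WithBot ℕ)) :
    B0 + u ∈ mon k D := by
  obtain ⟨h1, h2⟩ := mem_mon.1 hB
  have h3 : u.degree < B0.degree := by rwa [degree_eq_natDegree h1.ne_zero, h2]
  exact mem_mon.2 ⟨h1.add_of_left h3, by rw [natDegree_add_eq_left_of_degree_lt h3, h2]⟩

omit [CharP k 2] in
theorem cos_core {D r : ℕ} {W B0 : k[X]} (hW : W.Monic) (hr : W.natDegree + r ≤ D)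
    (hB : B0 ∈ mon k D) (h : k[X] → ℝ) :
    ∑ τ ∈ box k r, h (B0 + W * τ) = ∑ B ∈ {B ∈ mon k D |
      (B - B0).degree < ((W.natDegree + r : ℕ) : WithBot ℕ) ∧ W ∣ B - B0}, h B := by
  refine Finset.sum_bij (fun τ _ => B0 + W * τ) (fun τ hτ => ?_) (fun a _ b _ e => ?_)
    (fun B hB' => ?_) (fun _ _ => rfl)
  · have h1 := (cos_deg (τ := τ) hW r).2 (mem_box.1 hτ)
    refine mem_filter.2 ⟨cos_add hB (h1.trans_le (by exact_mod_cast hr)), ?_, ?_⟩
    · rwa [add_sub_cancel_left]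
    · rw [add_sub_cancel_left]
      exact dvd_mul_right _ _
  · exact mul_left_cancel₀ hW.ne_zero (add_left_cancel e)
  · obtain ⟨-, h1, τ, h2⟩ := mem_filter.1 hB'
    rw [h2] at h1
    exact ⟨τ, mem_box.2 ((cos_deg hW r).1 h1), by rw [← h2]; ring⟩

theorem cos {D j r : ℕ} {W B0 x : k[X]} (hW : W.Monic) (hr : W.natDegree + r + j = D)
    (hB : B0 ∈ mon k D) (hx : W ∣ B0 - x) (h : k[X] → ℝ) :
    ∑ τ ∈ box k r, h (B0 + W * τ) = ∑ B ∈ mon k D,
      (if degree (B - X ^ (D - j) * (B0 /ₘ X ^ (D - j))) < ((D - j : ℕ) : WithBot ℕ) then h B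
        else 0) *
        (if W ∣ B - x then 1 else 0) := by
  have hn : W.natDegree + r = D - j := by omega
  rw [cos_core hW (by omega) hB h, Finset.sum_filter, hn]
  refine Finset.sum_congr rfl fun B _ => ?_
  have hm : (X ^ (D - j) : k[X]).Monic := monic_X_pow _
  have h1 : (B0 %ₘ X ^ (D - j)).degree < ((D - j : ℕ) : WithBot ℕ) := by
    have := degree_modByMonic_lt B0 hm
    rwa [degree_X_pow] at this
  have h2 : B - X ^ (D - j) * (B0 /ₘ X ^ (D - j)) = (B - B0) + B0 %ₘ X ^ (D - j) := by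
    have := modByMonic_add_div B0 (X ^ (D - j))
    linear_combination -this
  have h3 : degree (B - X ^ (D - j) * (B0 /ₘ X ^ (D - j))) < ((D - j : ℕ) : WithBot ℕ) ↔
      (B - B0).degree < ((D - j : ℕ) : WithBot ℕ) := by
    rw [h2]
    constructor
    · intro h4
      have : B - B0 = (B - B0 + B0 %ₘ X ^ (D - j)) - B0 %ₘ X ^ (D - j) := by ring
      rw [this]
      exact (degree_sub_le _ _).trans_lt (max_lt h4 h1)
    · intro h4
      exact (degree_add_le _ _).trans_lt (max_lt h4 h1)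
  have h4 : W ∣ B - x ↔ W ∣ B - B0 := by
    have : B - x = (B - B0) + (B0 - x) := by ring
    rw [this]
    exact dvd_add_left hx
  simp only [h3, h4]
  by_cases a : (B - B0).degree < ((D - j : ℕ) : WithBot ℕ) <;> by_cases b : W ∣ B - B0 <;>
    simp [a, b]

theorem cos_mon {D j : ℕ} {B0 : k[X]} (hj : j ≤ D) (hB : B0 ∈ mon k D) :
    B0 /ₘ X ^ (D - j) ∈ mon k j := by
  obtain ⟨h1, h2⟩ := mem_mon.1 hB
  have hm : (X ^ (D - j) : k[X]).Monic := monic_X_pow _
  refine mem_mon.2 ⟨?_, ?_⟩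
  · have hle : (X ^ (D - j) : k[X]).degree ≤ B0.degree := by
      rw [degree_X_pow, degree_eq_natDegree h1.ne_zero, h2]
      exact_mod_cast Nat.sub_le D j
    have := leadingCoeff_divByMonic_of_monic hm hle
    rw [Monic, this]
    exact h1
  · rw [natDegree_divByMonic _ hm, natDegree_X_pow, h2]
    omega

theorem fib {al de si : ℕ} (h : al = de + si) {d b : k[X]} (hd : d ∈ mon k de)
    (hb : IsCoprime b d) (F : k[X]) : ∃ a0 ∈ mon k al, d ∣ a0 * b - F ∧ ∀ f : k[X] → ℝ,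
      ∑ a ∈ {a ∈ mon k al | d ∣ a * b - F}, f a = ∑ t ∈ box k si, f (a0 + d * t) := by
  obtain ⟨h1, h2⟩ := mem_mon.1 hd
  obtain ⟨u, v, huv⟩ := id hb
  have hX : (X ^ al : k[X]) ∈ mon k al := mem_mon.2 ⟨monic_X_pow _, natDegree_X_pow _⟩
  have hdeg : ((u * F - X ^ al) %ₘ d).degree < (al : WithBot ℕ) := by
    have := degree_modByMonic_lt (u * F - X ^ al) h1
    rw [degree_eq_natDegree h1.ne_zero, h2] at this
    exact this.trans_le (by exact_mod_cast (by omega : de ≤ al))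
  have ha0 := cos_add hX hdeg
  have hdiv : d ∣ (X ^ al + (u * F - X ^ al) %ₘ d) * b - F := by
    have := modByMonic_add_div (u * F - X ^ al) d
    exact ⟨-((u * F - X ^ al) /ₘ d) * b - F * v, by linear_combination b * this + F * huv⟩
  generalize X ^ al + (u * F - X ^ al) %ₘ d = a0 at ha0 hdiv
  refine ⟨a0, ha0, hdiv, fun f => ?_⟩
  rw [cos_core h1 (by omega) ha0 f]
  refine Finset.sum_congr (Finset.filter_congr fun a ha => ?_) fun _ _ => rfl
  obtain ⟨a1, a2⟩ := mem_mon.1 ha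
  obtain ⟨b1, b2⟩ := mem_mon.1 ha0
  have hlt : (a - a0).degree < ((d.natDegree + si : ℕ) : WithBot ℕ) := by
    have e1 : a.degree = a0.degree := by
      rw [degree_eq_natDegree a1.ne_zero, degree_eq_natDegree b1.ne_zero, a2, b2]
    have := degree_sub_lt_left e1 a1.ne_zero (by rw [a1.leadingCoeff, b1.leadingCoeff])
    rwa [degree_eq_natDegree a1.ne_zero, a2, h, ← h2] at this
  have e2 : a * b - F = (a - a0) * b + (a0 * b - F) := by ring
  rw [e2, dvd_add_left hdiv, and_iff_right hlt]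
  exact ⟨fun h3 => hb.symm.dvd_of_dvd_mul_right h3, fun h3 => h3.mul_right _⟩

end COS

section ARC
variable {k : Type*} [Field k] [Fintype k] [CharP k 2]
omit [CharP k 2] in
theorem arc_cnt {be ka n : ℕ} {e e₁ : k[X]} (he : e.Monic) (h₁ : e₁ ∈ mon k n) :
    (#{p ∈ (mon k be ×ˢ prs k ka ×ˢ box k e.natDegree) ×ˢ
        (mon k be ×ˢ prs k ka ×ˢ box k e.natDegree) |
      e₁ ∣ e * (p.1.2.1 * p.2.1 - p.2.2.1 * p.1.1) ∧ ¬ p.1.2.1 ∣ p.1.1 ∧ ¬ p.2.2.1 ∣ e₁} : ℝ) ≤
      qq k ^ (be + ka + 2 * e.natDegree + (ka + be + e.natDegree - n)) := by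
  rw [mem_mon] at h₁
  have hn : #{p ∈ (mon k be ×ˢ prs k ka ×ˢ box k e.natDegree) ×ˢ
        (mon k be ×ˢ prs k ka ×ˢ box k e.natDegree) |
      e₁ ∣ e * (p.1.2.1 * p.2.1 - p.2.2.1 * p.1.1) ∧ ¬ p.1.2.1 ∣ p.1.1 ∧ ¬ p.2.2.1 ∣ e₁} ≤
      Fintype.card k ^ (ka + be + e.natDegree - n) *
        #(box k e.natDegree ×ˢ mon k be ×ˢ prs k ka ×ˢ box k e.natDegree) := by
    refine card_le_mul_card_image_of_maps_to (f := fun p => (p.1.2.2, p.2)) ?_ _ ?_
    · intro p hp
      have := mem_product.1 (mem_filter.1 hp).1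
      exact mem_product.2 ⟨(mem_product.1 (mem_product.1 this.1).2).2, this.2⟩
    · rintro ⟨l, b', g', l'⟩ hv
      have hg' := mem_filter.1 (mem_product.1 (mem_product.1 (mem_product.1 hv).2).2).1
      by_cases hc : g' ∣ e₁
      · refine (card_eq_zero.2 (filter_eq_empty_iff.2 ?_)).le.trans (Nat.zero_le _)
        intro p hp e1
        have h2 := (mem_filter.1 hp).2.2.2
        rw [(Prod.mk.inj e1).2] at h2
        exact h2 hc
      have h3 := H64W.latt e₁ (e * b') (-(e * g')) h₁.1.ne_zero ka be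
        ((prs k ka ×ˢ mon k be).filter fun x : k[X] × k[X] =>
          IsCoprime x.1 x.2 ∧ e₁ ∣ x.1 * (e * b') + x.2 * -(e * g'))
        fun x hx => by
          have h4 := mem_filter.1 hx
          have h5 := mem_product.1 h4.1
          have h6 := mem_mon.1 (mem_filter.1 h5.1).1
          have h7 := mem_mon.1 h5.2
          exact ⟨h6.1, h6.2, h7.1, h7.2, h4.2.1, h4.2.2⟩
      have h4 : (gcd e₁ (-(e * g'))).natDegree ≤ e.natDegree := by
        refine natDegree_le_of_dvd ?_ he.ne_zero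
        have h5 : IsCoprime (gcd e₁ (-(e * g'))) g' :=
          (hg'.2.coprime_iff_not_dvd.2 fun h => hc (h.trans (gcd_dvd_left _ _))).symm
        exact h5.dvd_of_dvd_mul_right (dvd_neg.1 (gcd_dvd_right _ _))
      refine le_trans (card_le_card_of_injOn (fun p => (p.1.2.1, p.1.1)) ?_ ?_)
        (h3.trans (Nat.pow_le_pow_right Fintype.card_pos (by omega)))
      · rintro ⟨⟨b, g, l₁⟩, b₁, g₁, l₂⟩ hp
        simp only [coe_filter, mem_filter, Set.mem_ofPred_eq, mem_product, Prod.mk.injEq] at hp ⊢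
        obtain ⟨⟨⟨⟨h5, h6, _⟩, _⟩, h7, h8, _⟩, _, rfl, rfl, _⟩ := hp
        refine ⟨⟨h6, h5⟩, (mem_filter.1 h6).2.coprime_iff_not_dvd.2 h8, ?_⟩
        convert h7 using 1
        ring
      · rintro ⟨⟨b, g, l₁⟩, v⟩ hp ⟨⟨b₁, g₁, l₂⟩, v'⟩ hp' e1
        simp only [coe_filter, mem_filter, Set.mem_ofPred_eq, Prod.mk.injEq] at hp hp' e1 ⊢
        exact ⟨⟨e1.2, e1.1, hp.2.1.trans hp'.2.1.symm⟩, hp.2.2.trans hp'.2.2.symm⟩
  have hp : #(prs k ka) ≤ #(mon k ka) := card_filter_le _ _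
  have hp' : (#(prs k ka) : ℝ) ≤ qq k ^ ka := by rw [← card_mon]; exact_mod_cast hp
  have hq : 0 < qq k := ls_qpos
  refine le_trans (by unfold qq; exact_mod_cast hn : _ ≤ qq k ^ (ka + be + e.natDegree - n) *
    (#(box k e.natDegree ×ˢ mon k be ×ˢ prs k ka ×ˢ box k e.natDegree) : ℝ)) ?_
  rw [card_product, card_product, card_product]
  push_cast
  rw [card_box, card_mon]
  calc _ ≤ qq k ^ (ka + be + e.natDegree - n) *
        (qq k ^ e.natDegree * (qq k ^ be * (qq k ^ ka * qq k ^ e.natDegree))) := by gcongr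
    _ = _ := by ring

theorem arc {D c j be de ka S : ℕ} {MM : Finset k[X]} (hM : Adm D c MM) (hc : c ≤ D) {Ch : ℝ}
    (hCh : ∀ B ∈ mon k D, |wt MM B - mean D c MM| ≤ Ch) {e z : k[X]} (he : e.Monic)
    (hz : z ∈ mon k D) (F : k[X]) (Ds : Finset k[X])
    (hD : ∀ d ∈ Ds, d ∈ mon k de ∧ IsCoprime d (F * derivative d)) (y : k[X] → k[X] → k[X] → k[X])
    (hy : ∀ d ∈ Ds, ∀ b ∈ mon k be, IsCoprime b d → ∀ g ∈ prs k ka,
      d ∣ y d b g ^ 2 * b - F * derivative d * g)
    (s1 : S + 2 * de + 2 * e.natDegree ≤ D + be + ka) (s2 : S + de + 2 * e.natDegree + 2 ≤ D)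
    (s3 : S + 1 ≤ be + ka) (s4 : S + j + e.natDegree + 3 ≤ c) :
    (∑ d ∈ Ds, ∑ b ∈ {b ∈ mon k be | IsCoprime b d}, ∑ g ∈ {g ∈ prs k ka | ¬ g ∣ d * e * b},
      ∑ l ∈ box k e.natDegree, |∑ B ∈ mon k D,
        (if (B - z).degree < ((D - j : ℕ) : WithBot ℕ) then wt MM B - mean D c MM else 0) *
          (if d * e ∣ B - (y d b g + d * l) then 1 else 0)|) ^ 2 * qq k ^ S ≤
      (Ch * (D + 1) * qq k ^ (D + be + ka + e.natDegree)) ^ 2 := by
  have hq : 0 < qq k := ls_qpos
  have hq1 : 1 ≤ qq k := one_le_two.trans two_le_qq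
  have hC : 0 ≤ Ch := (abs_nonneg _).trans (hCh z hz)
  set H : k[X] → ℝ := fun B =>
    if (B - z).degree < ((D - j : ℕ) : WithBot ℕ) then wt MM B - mean D c MM else 0 with hH
  have hHC : ∀ B ∈ mon k D, |H B| ≤ Ch := fun B hB => by
    simp only [hH]
    split_ifs
    · exact hCh B hB
    · rwa [abs_zero]
  have hw : ∀ B ∈ mon k D, |H B / Ch| ≤ 1 := fun B hB => by
    rw [abs_div, abs_of_nonneg hC]
    exact div_le_one_of_le₀ (hHC B hB) hC
  have hHw : ∀ B ∈ mon k D, H B = Ch * (H B / Ch) := fun B hB => by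
    rcases hC.eq_or_lt with h | h
    · have := hHC B hB
      rw [← h] at this ⊢
      rw [zero_mul]
      exact abs_nonpos_iff.1 this
    · field_simp
  have hv : ∀ e₁ u : k[X], e₁.Monic → e₁.natDegree + j ≤ c → IsCoprime e₁ u →
      ∑ B ∈ mon k D, H B / Ch * psi (tau e₁ (u * B)) = 0 := fun e₁ u h1 h2 h3 => by
    have := van hM hc hz h1 h2 h3.symm
    simp only [div_mul_eq_mul_div]
    rw [← sum_div, this, zero_div]
  have h0 : ∑ B ∈ mon k D, H B / Ch = 0 := by
    have := hv 1 1 monic_one (by rw [natDegree_one]; omega) isCoprime_one_left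
    simpa only [tauh_one, ls_psi0, mul_one] using this
  set x : k[X] → k[X] × k[X] × k[X] → k[X] := fun d' i =>
    y (d' /ₘ e) i.1 i.2.1 + d' /ₘ e * i.2.2 with hx
  set V : k[X] → k[X] × k[X] × k[X] → ℝ := fun d' i =>
    ∑ B ∈ mon k D, if d' ∣ B - x d' i then H B / Ch else 0 with hV
  set θ : k[X] → k[X] × k[X] × k[X] → ℝ := fun d' i =>
    if IsCoprime i.1 (d' /ₘ e) ∧ ¬ i.2.1 ∣ d' * i.1 then (if 0 ≤ V d' i then 1 else -1) else 0
    with hθ
  have hde : ∀ d : k[X], d * e /ₘ e = d := fun d => by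
    rw [mul_comm]; exact mul_divByMonic_cancel_left _ he
  set E : ℝ := √((qq k ^ (D + be + ka + e.natDegree)) ^ 2 / qq k ^ S) with hE
  have hE2 : E ^ 2 = (qq k ^ (D + be + ka + e.natDegree)) ^ 2 / qq k ^ S :=
    Real.sq_sqrt (by positivity)
  have key := ls_main (δ := de + e.natDegree) (m := D + 1) (c := c - j + 1) (mon k D) id
    (fun B => H B / Ch)
    (fun B hB => by
      have := mem_mon.1 hB
      rw [id, degree_eq_natDegree this.1.ne_zero, this.2]
      exact_mod_cast Nat.lt_succ_self D) hw (Ds.image (· * e))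
    (fun d' hd' => by
      obtain ⟨d, hd, rfl⟩ := mem_image.1 hd'
      have := mem_mon.1 (hD d hd).1
      exact mem_mon.2 ⟨this.1.mul he, by rw [this.1.natDegree_mul he, this.2]⟩)
    (fun _ _ e₁ u h1 _ _ h2 h3 => hv e₁ u h1 (by omega) h3)
    (mon k be ×ˢ prs k ka ×ˢ box k e.natDegree) x θ
    (fun d' _ i _ => by
      simp only [hθ]
      split_ifs <;> simp)
    (fun e₁ i i' => e₁ ∣ e * (i.2.1 * i'.1 - i'.2.1 * i.1) ∧ ¬ i.2.1 ∣ i.1 ∧ ¬ i'.2.1 ∣ e₁)
    (fun d' hd' e₁ h1 i hi i' hi' t t' h2 => by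
      obtain ⟨d, hd, rfl⟩ := mem_image.1 hd'
      have u : IsCoprime i.1 (d * e /ₘ e) ∧ ¬ i.2.1 ∣ d * e * i.1 := by
        by_contra h; exact t (if_neg h)
      have u' : IsCoprime i'.1 (d * e /ₘ e) ∧ ¬ i'.2.1 ∣ d * e * i'.1 := by
        by_contra h; exact t' (if_neg h)
      simp only [hx, hde] at h2 u u'
      refine ⟨?_, fun h => u.2 (h.mul_left _), fun h => u'.2 ((h.trans h1).mul_right _)⟩
      have g1 : gcd e₁ d ∣ d := gcd_dvd_right _ _
      have h3 := ls_rel g1 ((hD d hd).2.of_isCoprime_of_dvd_left g1)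
        (hy d hd _ (mem_product.1 hi).1 u.1 _ (mem_product.1 (mem_product.1 hi).2).1)
        (hy d hd _ (mem_product.1 hi').1 u'.1 _ (mem_product.1 (mem_product.1 hi').2).1)
        (by
          have h4 := ((gcd_dvd_left e₁ d).trans h2).sub (g1.mul_right (i.2.2 - i'.2.2))
          convert h4 using 1
          ring)
      refine (dvd_gcd_mul_of_dvd_mul h1).trans ?_
      rw [mul_comm]
      exact mul_dvd_mul_left _ h3)
    (E := E) (Real.sqrt_nonneg _)
    (fun n h1 h2 => by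
      have h3 : (#{p ∈ mon k D ×ˢ mon k D | id p.1 = id p.2} : ℝ) ≤ qq k ^ D := by
        rw [← card_mon]
        refine Nat.cast_le.2 (card_le_card_of_injOn Prod.fst
          (fun p hp => (mem_product.1 (mem_filter.1 hp).1).1) fun p hp p' hp' h => ?_)
        have a1 : p.1 = p.2 := (mem_filter.1 hp).2
        have a2 : p'.1 = p'.2 := (mem_filter.1 hp').2
        exact Prod.ext h (by rw [← a1, ← a2, h])
      have h4 := (sum_le_sum_of_subset_of_nonneg
        (filter_subset (fun e₁ => ∃ d ∈ Ds.image (· * e), e₁ ∣ d) (mon k n))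
        fun _ _ _ => Nat.cast_nonneg _).trans
        (sum_le_card_nsmul _ _ _ fun e₁ h₁ => arc_cnt (be := be) (ka := ka) he h₁)
      rw [nsmul_eq_mul, card_mon] at h4
      refine le_trans (mul_le_mul (mul_le_mul_of_nonneg_left h3 (by positivity)) (le_trans (le_of_eq (sum_congr (by congr) fun _ _ => by congr)) h4)
        (sum_nonneg fun _ _ => Nat.cast_nonneg _) (by positivity)) ?_
      rw [hE2, div_mul_eq_mul_div, le_div_iff₀ (by positivity)]
      simp only [← pow_add, ← pow_mul]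
      exact pow_le_pow_right₀ hq1 (by omega))
  rw [h0, zero_div, sum_image fun a _ b _ h => mul_right_cancel₀ he.ne_zero h] at key
  have hL : ∑ d ∈ Ds, ∑ b ∈ {b ∈ mon k be | IsCoprime b d},
      ∑ g ∈ {g ∈ prs k ka | ¬ g ∣ d * e * b}, ∑ l ∈ box k e.natDegree,
        |∑ B ∈ mon k D, H B * (if d * e ∣ B - (y d b g + d * l) then 1 else 0)| =
      Ch * ∑ d ∈ Ds, ∑ i ∈ mon k be ×ˢ prs k ka ×ˢ box k e.natDegree,
        θ (d * e) i * (V (d * e) i - 0) := by
    rw [mul_sum]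
    refine sum_congr rfl fun d _ => ?_
    rw [sum_product, mul_sum, sum_filter]
    refine sum_congr rfl fun b _ => ?_
    rw [sum_product, mul_sum, sum_filter]
    by_cases hb : IsCoprime b d
    · rw [if_pos hb]
      refine sum_congr rfl fun g _ => ?_
      by_cases hg : ¬ g ∣ d * e * b
      · rw [if_pos hg, mul_sum]
        refine sum_congr rfl fun l _ => ?_
        have h1 : ∑ B ∈ mon k D, H B * (if d * e ∣ B - (y d b g + d * l) then 1 else 0) =
            Ch * V (d * e) (b, g, l) := by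
          simp only [hV, hx, hde]
          rw [mul_sum]
          refine sum_congr rfl fun B hB => ?_
          split_ifs
          · rw [mul_one]; exact hHw B hB
          · simp
        rw [h1, abs_mul, abs_of_nonneg hC, sub_zero]
        simp only [hθ, hde, if_pos (And.intro hb hg)]
        split_ifs with h
        · rw [abs_of_nonneg h, one_mul]
        · rw [abs_of_neg (not_le.1 h), neg_one_mul]
      · rw [if_neg hg]
        simp only [hθ, if_neg fun h : _ ∧ _ => hg h.2, zero_mul, sum_const_zero, mul_zero]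
    · rw [if_neg hb]
      simp only [hθ, hde, if_neg fun h : _ ∧ _ => hb h.1, zero_mul, sum_const_zero, mul_zero]
  rw [hL, mul_pow, mul_assoc]
  have h5 : ((de + e.natDegree : ℕ) : ℝ) + 1 ≤ D + 1 := by
    have : de + e.natDegree ≤ D := by omega
    exact_mod_cast Nat.succ_le_succ this
  have h6 := sq_le_sq' (abs_le.1 (key.trans (mul_le_mul_of_nonneg_right h5 (Real.sqrt_nonneg _)))).1
    (abs_le.1 (key.trans (mul_le_mul_of_nonneg_right h5 (Real.sqrt_nonneg _)))).2
  rw [mul_pow, hE2, ← mul_div_assoc, le_div_iff₀ (by positivity)] at h6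
  calc _ ≤ Ch ^ 2 * ((D + 1) ^ 2 * (qq k ^ (D + be + ka + e.natDegree)) ^ 2) :=
        mul_le_mul_of_nonneg_left h6 (sq_nonneg _)
    _ = _ := by ring

end ARC

section MAIN
variable {k : Type*} [Field k] [Fintype k] [CharP k 2]

omit [CharP k 2] in
theorem main_h {D c : ℕ} {MM : Finset k[X]} (hM : Adm D c MM) {Cw : ℝ}
    (hCw : ∀ B ∈ mon k D, wt MM B ≤ Cw) :
    ∀ B ∈ mon k D, |wt MM B - mean D c MM| ≤ Cw + 1 := by
  intro B hB
  have hq := two_le_qq (k := k)
  have h0 : 0 ≤ wt MM B := Nat.cast_nonneg _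
  have h1 := hCw B hB
  have h2 : 0 ≤ mean D c MM := by unfold mean; positivity
  have h3 : mean D c MM ≤ 1 := by
    unfold mean
    rw [div_le_one (by positivity)]
    rcases MM.eq_empty_or_nonempty with h | ⟨M, hM0⟩
    · rw [h]; simp; positivity
    · have hc : D = (D - c) + c := by have := (hM M hM0).2.1; omega
      have h4 : (#MM : ℝ) ≤ qq k ^ (D - c) := by
        rw [← card_mon]
        exact_mod_cast card_le_card fun N hN =>
          mem_mon.2 ⟨(hM N hN).1, by have := (hM N hN).2.1; omega⟩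
      calc (#MM : ℝ) * qq k ^ c ≤ qq k ^ (D - c) * qq k ^ c := by gcongr
        _ = qq k ^ D := by rw [← pow_add, ← hc]
  rw [abs_le]
  constructor <;> linarith

omit [CharP k 2] in
theorem main_bad {N : k[X]} (hN : N ≠ 0) {ka : ℕ} (hka : 1 ≤ ka) :
    #{g ∈ prs k ka | g ∣ N} ≤ N.natDegree := by
  set T := {g ∈ prs k ka | g ∣ N} with hT
  have hm : ∀ g ∈ T, (g.Monic ∧ g.natDegree = ka) ∧ Irreducible g ∧ g ∣ N := fun g hg => by
    rw [hT, mem_filter, prs, mem_filter, mem_mon] at hg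
    exact ⟨hg.1.1, hg.1.2, hg.2⟩
  have h1 : ∏ g ∈ T, g ∣ N := by
    refine Finset.prod_dvd_of_coprime (fun g hg g' hg' hne => ?_) fun g hg => (hm g hg).2.2
    refine ((hm g hg).2.1.coprime_iff_not_dvd).2 fun h => hne ?_
    exact eq_of_monic_of_associated (hm g hg).1.1 (hm g' hg').1.1
      ((hm g hg).2.1.associated_of_dvd (hm g' hg').2.1 h)
  have h2 := natDegree_le_of_dvd h1 hN
  rw [natDegree_prod_of_monic _ _ fun g hg => (hm g hg).1.1] at h2
  calc #T = ∑ _g ∈ T, 1 := by simp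
    _ ≤ ∑ g ∈ T, g.natDegree := sum_le_sum fun g hg => by rw [(hm g hg).1.2]; exact hka
    _ ≤ _ := h2

omit [CharP k 2] in
theorem main_triv {N : ℕ} {Φ : k[X] → ℝ} {Ch : ℝ} (h : ∀ t ∈ box k N, |Φ t| ≤ Ch) (ξ : k[X]) :
    |four N Φ ξ| ≤ Ch := by
  unfold four
  refine (Finset.abs_expect_le _ _).trans (Finset.expect_le (box_nonempty N) fun t ht => ?_)
  have h1 : |psi (tau (X ^ N) (ξ * t))| = 1 := by unfold psi; split_ifs <;> simp
  rw [abs_mul, h1, mul_one]
  exact h t ht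

omit [CharP k 2] in
theorem main_mon {m n : ℕ} {a b : k[X]} (ha : a ∈ mon k m) (hb : b ∈ mon k n) :
    a * b ∈ mon k (m + n) := by
  rw [mem_mon] at *
  exact ⟨ha.1.mul hb.1, by rw [ha.1.natDegree_mul hb.1, ha.2, hb.2]⟩

omit [CharP k 2] in
theorem main_box {m n : ℕ} {a b : k[X]} (ha : a.natDegree ≤ m) (hb : b ∈ box k n) :
    a * b ∈ box k (m + n) := by
  rw [mem_box] at *
  by_cases h : a * b = 0
  · rw [h, degree_zero]; exact WithBot.bot_lt_coe _
  have h1 := left_ne_zero_of_mul h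
  have h2 := right_ne_zero_of_mul h
  rw [← natDegree_lt_iff_degree_lt h, natDegree_mul h1 h2]
  rw [← natDegree_lt_iff_degree_lt h2] at hb
  omega

omit [CharP k 2] in
theorem main_box_mono {m n : ℕ} (h : m ≤ n) {a : k[X]} (ha : a ∈ box k m) : a ∈ box k n := by
  rw [mem_box] at *
  exact ha.trans_le (by exact_mod_cast h)

omit [CharP k 2] in
theorem main_add {n : ℕ} {a b : k[X]} (ha : a ∈ mon k n) (hb : b ∈ box k n) :
    a + b ∈ mon k n := by
  rw [mem_mon] at *
  rw [mem_box] at hb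
  have h : b.degree < a.degree := by rw [degree_eq_natDegree ha.1.ne_zero, ha.2]; exact hb
  exact ⟨ha.1.add_of_left h, by rw [natDegree_add_eq_left_of_degree_lt h, ha.2]⟩

theorem main_B {al de ka si D : ℕ} (h3 : al = de + si) (h : al + de + ka = 2 * D + 1)
    {a0 d g t : k[X]} (ha : a0 ∈ mon k al) (hd : d ∈ mon k de) (hg : g ∈ prs k ka)
    (ht : t ∈ box k si) : od ((a0 + d * t) * d * g) ∈ mon k D := by
  refine od_mon ?_
  rw [← h]
  refine main_mon (main_mon (main_add ha ?_) hd) (mem_filter.1 hg).1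
  rw [h3]
  exact main_box (mem_mon.1 hd).2.le ht

theorem main_single {α β : Type*} {s : Finset α} {t : Finset β} (f : α → β → ℝ)
    (hf : ∀ a b, 0 ≤ f a b) {a : α} {b : β} (ha : a ∈ s) (hb : b ∈ t) :
    f a b ≤ ∑ x ∈ s, ∑ y ∈ t, f x y :=
  (single_le_sum (fun y _ => hf a y) hb).trans
    (single_le_sum (f := fun x => ∑ y ∈ t, f x y) (fun x _ => sum_nonneg fun y _ => hf x y) ha)

theorem main_four {al de ka len si rho D d0 : ℕ} (h1 : si + 1 = ka + 2 * len)
    (h2 : rho + 1 = ka + len) (h3 : al = de + si) (h4 : D = de + rho) (h5 : 3 * d0 ≤ len)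
    (h6 : 1 ≤ ka) {a0 d g e ξ : k[X]} (ha : a0 ∈ mon k al) (hd : d ∈ mon k de)
    (hg : g ∈ prs k ka) (he : e.Monic) (he2 : e.natDegree ≤ 2 * d0)
    (hξ : ∀ x ∈ box k (si - 6 * d0), tau (X ^ si) (ξ * (e ^ 2 * x)) = 0) (h : k[X] → ℝ) :
    |four si (fun t => h (od ((a0 + d * t) * d * g))) ξ| ≤
      (∑ z ∈ mon k (3 * d0 - e.natDegree), ∑ l ∈ box k e.natDegree, |∑ B ∈ mon k D,
        (if (B - X ^ (D - (3 * d0 - e.natDegree)) * z).degree <
          ((D - (3 * d0 - e.natDegree) : ℕ) : WithBot ℕ) then h B else 0) *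
          (if d * e ∣ B - (od (a0 * d * g) + d * l) then 1 else 0)|) / qq k ^ (rho - 3 * d0) := by
  have hq := two_le_qq (k := k)
  refine four_le (N' := si - 6 * d0) (W := e ^ 2) (fun x hx => ?_) hξ fun t ht => ?_
  · refine main_box_mono ?_ (main_box (m := 4 * d0) ?_ hx)
    · omega
    · rw [he.natDegree_pow]; omega
  have hB := main_B h3 (by omega : al + de + ka = 2 * D + 1) ha hd hg ht
  obtain ⟨B0, hB0⟩ : ∃ B0, B0 = od ((a0 + d * t) * d * g) := ⟨_, rfl⟩
  rw [← hB0] at hB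
  have e1 : ∀ x : k[X], od ((a0 + d * (t + e ^ 2 * x)) * d * g) = B0 + d * e * od (x * g) := by
    intro x
    rw [hB0, ← od_sq_mul, ← od_add]
    congr 1
    ring
  have e2 : B0 = od (a0 * d * g) + d * od (t * g) := by
    rw [hB0, ← od_sq_mul, ← od_add]
    congr 1
    ring
  simp only [e1]
  rw [uni (len := len - 3 * d0) (rho := rho - 3 * d0) hg (by omega) (by omega)
    (fun τ => h (B0 + d * e * τ)), box_exp, abs_div, 
    abs_of_pos (by positivity : 0 < qq k ^ (rho - 3 * d0))]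
  refine div_le_div_of_nonneg_right ?_ (by positivity)
  have hW : (d * e).Monic := (mem_mon.1 hd).1.mul he
  have hx : d * e ∣ B0 - (od (a0 * d * g) + d * (od (t * g) %ₘ e)) := by
    refine ⟨od (t * g) /ₘ e, ?_⟩
    have := modByMonic_add_div (od (t * g)) e
    rw [e2]
    linear_combination (-d) * this
  rw [cos (D := D) (j := 3 * d0 - e.natDegree) hW
    (by rw [(mem_mon.1 hd).1.natDegree_mul he, (mem_mon.1 hd).2]; omega) hB hx h]
  have hl : od (t * g) %ₘ e ∈ box k e.natDegree := by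
    rw [mem_box, ← degree_eq_natDegree he.ne_zero]
    exact degree_modByMonic_lt _ he
  have key := main_single (fun z l : k[X] => |∑ B ∈ mon k D,
        (if (B - X ^ (D - (3 * d0 - e.natDegree)) * z).degree <
          ((D - (3 * d0 - e.natDegree) : ℕ) : WithBot ℕ) then h B else 0) *
          (if d * e ∣ B - (od (a0 * d * g) + d * l) then 1 else 0)|) (fun _ _ => abs_nonneg _)
    (cos_mon (by omega : 3 * d0 - e.natDegree ≤ D) hB) hl
  beta_reduce at key
  convert key

theorem main_sum {al be de ka len si rho D c d0 : ℕ} (h1 : si + 1 = ka + 2 * len)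
    (h2 : rho + 1 = ka + len) (h3 : al = de + si) (h4 : D = de + rho) (hd0 : 1 ≤ d0)
    (h5 : 3 * d0 ≤ len) (h6 : 40 * d0 ≤ ka) (h7 : 40 * d0 ≤ c) (h8 : c ≤ D)
    (h9 : de + 40 * d0 ≤ rho + be + ka) {MM : Finset k[X]} (hM : Adm D c MM) {Ch : ℝ}
    (hCh : ∀ B ∈ mon k D, |wt MM B - mean D c MM| ≤ Ch) (F : k[X]) (Ds : Finset k[X])
    (hD : ∀ d ∈ Ds, d ∈ mon k de ∧ IsCoprime d (F * derivative d)) (a0 : k[X] → k[X] → k[X])
    (ha : ∀ d ∈ Ds, ∀ b, IsCoprime b d → a0 d b ∈ mon k al ∧ d ∣ a0 d b * b - F) {ξ : k[X]}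
    (hξ : Major si d0 ξ) :
    ∑ d ∈ Ds, ∑ b ∈ {b ∈ mon k be | IsCoprime b d}, ∑ g ∈ prs k ka,
      |four si (fun t => wt MM (od ((a0 d b + d * t) * d * g)) - mean D c MM) ξ| ≤
      Ch * (2 * D + be + 1) * qq k ^ (de + be + ka) / qq k ^ (9 * d0) := by
  have hq := two_le_qq (k := k)
  obtain ⟨e, he, he2, hξ⟩ := hξ
  have hCh0 : 0 ≤ Ch := by
    obtain ⟨B, hB⟩ := mon_nonempty (k := k) D
    exact (abs_nonneg _).trans (hCh B hB)
  set j := 3 * d0 - e.natDegree with hj
  set S : k[X] → k[X] → k[X] → k[X] → ℝ := fun z d b g => ∑ l ∈ box k e.natDegree,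
    |∑ B ∈ mon k D, (if (B - X ^ (D - j) * z).degree < ((D - j : ℕ) : WithBot ℕ) then
      wt MM B - mean D c MM else 0) *
      (if d * e ∣ B - (od (a0 d b * d * g) + d * l) then 1 else 0)| with hS
  have hDs : (#Ds : ℝ) ≤ qq k ^ de := by
    rw [← card_mon]
    exact_mod_cast card_le_card fun d hd => (hD d hd).1
  have a1 : ∀ z ∈ mon k j, ∑ d ∈ Ds, ∑ b ∈ {b ∈ mon k be | IsCoprime b d},
      ∑ g ∈ {g ∈ prs k ka | ¬ g ∣ d * e * b}, S z d b g ≤
      Ch * (D + 1) * qq k ^ (D + be + ka + e.natDegree) / qq k ^ (15 * d0) := by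
    intro z hz
    have hz' : X ^ (D - j) * z ∈ mon k D := by
      have := main_mon (mem_mon.2 ⟨monic_X_pow (D - j), natDegree_X_pow _⟩) hz
      rwa [show D - j + j = D by omega] at this
    have := arc (S := 30 * d0) (j := j) (be := be) (ka := ka) hM h8 hCh he hz' F Ds hD
      (fun d b g => od (a0 d b * d * g)) (fun d hd b _ hb g _ => by
        obtain ⟨w, hw⟩ := (ha d hd b hb).2
        rw [od_sq, derivative_mul, derivative_mul]
        exact ⟨derivative (a0 d b) * g * b + a0 d b * derivative g * b + derivative d * g * w, by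
          linear_combination derivative d * g * hw⟩)
      (by omega) (by omega) (by omega) (by omega)
    rw [le_div_iff₀ (by positivity)]
    refine abs_le_of_sq_le_sq' ?_ (by positivity) |>.2
    rw [mul_pow, ← pow_mul, show 15 * d0 * 2 = 30 * d0 by ring]
    exact this
  have a2 : ∀ d ∈ Ds, ∀ b ∈ {b ∈ mon k be | IsCoprime b d}, ∑ g ∈ prs k ka,
      |four si (fun t => wt MM (od ((a0 d b + d * t) * d * g)) - mean D c MM) ξ| ≤
      (∑ z ∈ mon k j, ∑ g ∈ {g ∈ prs k ka | ¬ g ∣ d * e * b}, S z d b g) / qq k ^ (rho - 3 * d0)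
        + (D + be) * Ch := by
    intro d hd b hb
    obtain ⟨hb1, hb2⟩ := mem_filter.1 hb
    have hdm := mem_mon.1 (hD d hd).1
    have hbm := mem_mon.1 hb1
    rw [← sum_filter_add_sum_filter_not (prs k ka) (fun g => ¬ g ∣ d * e * b), sum_comm, sum_div]
    refine add_le_add (sum_le_sum fun g hg => ?_) ?_
    · exact main_four h1 h2 h3 h4 h5 (by omega) (ha d hd b hb2).1 (hD d hd).1 (mem_filter.1 hg).1
        he he2 hξ fun B => wt MM B - mean D c MM
    · refine (sum_le_card_nsmul _ _ Ch fun g hg => main_triv (fun t ht => hCh _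
        (main_B h3 (by omega) (ha d hd b hb2).1 (hD d hd).1 (mem_filter.1 hg).1 ht)) ξ).trans ?_
      rw [nsmul_eq_mul]
      gcongr
      have hN : (d * e * b).Monic := (hdm.1.mul he).mul hbm.1
      have := main_bad hN.ne_zero (by omega : 1 ≤ ka)
      rw [(hdm.1.mul he).natDegree_mul hbm.1, hdm.1.natDegree_mul he, hdm.2, hbm.2] at this
      simp only [not_not]
      exact_mod_cast this.trans (by omega)
  have a3 : ∑ d ∈ Ds, ∑ _b ∈ {b ∈ mon k be | IsCoprime b d}, ((D : ℝ) + be) * Ch ≤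
      qq k ^ de * (qq k ^ be * ((D + be) * Ch)) := by
    refine (sum_le_card_nsmul _ _ (qq k ^ be * ((D + be) * Ch)) fun d _ => ?_).trans ?_
    · rw [sum_const, nsmul_eq_mul, ← card_mon]
      gcongr
      exact filter_subset _ _
    · rw [nsmul_eq_mul]
      gcongr
  have a4 : ∑ d ∈ Ds, ∑ b ∈ {b ∈ mon k be | IsCoprime b d},
      (∑ z ∈ mon k j, ∑ g ∈ {g ∈ prs k ka | ¬ g ∣ d * e * b}, S z d b g) / qq k ^ (rho - 3 * d0) ≤
      qq k ^ j * (Ch * (D + 1) * qq k ^ (D + be + ka + e.natDegree) / qq k ^ (15 * d0)) /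
        qq k ^ (rho - 3 * d0) := by
    simp only [← sum_div]
    gcongr
    rw [sum_congr rfl fun d _ => sum_comm, sum_comm]
    refine (sum_le_card_nsmul _ _ _ a1).trans ?_
    rw [nsmul_eq_mul, card_mon]
  have a5 : qq k ^ j * (Ch * (D + 1) * qq k ^ (D + be + ka + e.natDegree) / qq k ^ (15 * d0)) /
      qq k ^ (rho - 3 * d0) = Ch * (D + 1) * qq k ^ (de + be + ka) / qq k ^ (9 * d0) := by
    have : qq k ^ j * qq k ^ (D + be + ka + e.natDegree) * qq k ^ (9 * d0) =
        qq k ^ (de + be + ka) * (qq k ^ (15 * d0) * qq k ^ (rho - 3 * d0)) := by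
      simp only [← pow_add]
      congr 1
      omega
    field_simp
    linear_combination Ch * this
  have a6 : qq k ^ de * (qq k ^ be * ((D + be) * Ch)) ≤
      Ch * (D + be) * qq k ^ (de + be + ka) / qq k ^ (9 * d0) := by
    rw [le_div_iff₀ (by positivity), pow_add, pow_add]
    have : qq k ^ (9 * d0) ≤ qq k ^ ka := pow_le_pow_right₀ (by linarith) (by omega)
    calc qq k ^ de * (qq k ^ be * ((D + be) * Ch)) * qq k ^ (9 * d0)
        ≤ qq k ^ de * (qq k ^ be * ((D + be) * Ch)) * qq k ^ ka := by gcongr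
      _ = _ := by ring
  calc _ ≤ ∑ d ∈ Ds, ∑ b ∈ {b ∈ mon k be | IsCoprime b d},
        ((∑ z ∈ mon k j, ∑ g ∈ {g ∈ prs k ka | ¬ g ∣ d * e * b}, S z d b g) /
          qq k ^ (rho - 3 * d0) + (D + be) * Ch) :=
        sum_le_sum fun d hd => sum_le_sum fun b hb => a2 d hd b hb
    _ ≤ Ch * (D + 1) * qq k ^ (de + be + ka) / qq k ^ (9 * d0) +
        Ch * (D + be) * qq k ^ (de + be + ka) / qq k ^ (9 * d0) := by
        simp only [sum_add_distrib]
        exact add_le_add (a4.trans_eq a5) (a3.trans a6)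
    _ = _ := by ring

theorem weight {al be de ka len si rho D c d0 : ℕ} (h1 : si + 1 = ka + 2 * len)
    (h2 : rho + 1 = ka + len) (h3 : al = de + si) (h4 : D = de + rho) (hd0 : 1 ≤ d0)
    (h5 : 3 * d0 ≤ len) (h6 : 40 * d0 ≤ ka) (h7 : 40 * d0 ≤ c) (h8 : c ≤ D)
    (h9 : de + 40 * d0 ≤ rho + be + ka) {MM : Finset k[X]} (hM : Adm D c MM) {Cw : ℝ}
    (hCw : ∀ B ∈ mon k D, wt MM B ≤ Cw) (F : k[X]) (Ds : Finset k[X])
    (hD : ∀ d ∈ Ds, d ∈ mon k de ∧ IsCoprime d (F * derivative d)) :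
    ∑ d ∈ Ds, ∑ b ∈ {b ∈ mon k be | IsCoprime b d}, ∑ a ∈ {a ∈ mon k al | d ∣ a * b - F},
      (∑ g ∈ prs k ka, (wt MM (od (a * d * g)) - mean D c MM)) ^ 2 ≤
      qq k ^ (al + be + 2 * ka + 1) * (Cw + 1) ^ 2 * (2 * D + be + 2) / qq k ^ d0 := by
  have hq := two_le_qq (k := k)
  have hCh := main_h hM hCw
  set Ch := Cw + 1 with hChd
  have hCh0 : 0 ≤ Ch := by
    obtain ⟨B, hB⟩ := mon_nonempty (k := k) D
    exact (abs_nonneg _).trans (hCh B hB)
  have hex : ∀ d b : k[X], ∃ a0 : k[X], d ∈ Ds → IsCoprime b d → (a0 ∈ mon k al ∧ d ∣ a0 * b - F) ∧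
      ∀ f : k[X] → ℝ, ∑ a ∈ {a ∈ mon k al | d ∣ a * b - F}, f a =
        ∑ t ∈ box k si, f (a0 + d * t) := by
    intro d b
    by_cases h : d ∈ Ds ∧ IsCoprime b d
    · obtain ⟨a0, i1, i2, i3⟩ := fib h3 (hD d h.1).1 h.2 F
      exact ⟨a0, fun _ _ => ⟨⟨i1, i2⟩, i3⟩⟩
    · exact ⟨0, fun i1 i2 => (h ⟨i1, i2⟩).elim⟩
  choose a0 ha0 using hex
  have hG : (#(prs k ka) : ℝ) ≤ qq k ^ ka := by
    rw [← card_mon]
    have : prs k ka ⊆ mon k ka := fun g hg => (mem_filter.1 hg).1
    exact_mod_cast card_le_card this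
  have hDs : (#Ds : ℝ) ≤ qq k ^ de := by
    rw [← card_mon]
    exact_mod_cast card_le_card fun d hd => (hD d hd).1
  set Fo : k[X] → k[X] → k[X] → ℝ := fun ξ d b => ∑ g ∈ prs k ka,
    |four si (fun t => wt MM (od ((a0 d b + d * t) * d * g)) - mean D c MM) ξ| with hFo
  have b1 : ∀ d ∈ Ds, ∀ b ∈ {b ∈ mon k be | IsCoprime b d},
      ∑ a ∈ {a ∈ mon k al | d ∣ a * b - F},
        (∑ g ∈ prs k ka, (wt MM (od (a * d * g)) - mean D c MM)) ^ 2 ≤
      qq k ^ si * (qq k ^ (ka + 1 - d0) * qq k ^ ka * Ch ^ 2) +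
        qq k ^ si * (Ch * qq k ^ ka) * ∑ ξ ∈ {ξ ∈ box k si | Major si d0 ξ}, Fo ξ d b := by
    intro d hd b hb
    obtain ⟨i1, i2⟩ := ha0 d b hd (mem_filter.1 hb).2
    have := var_le (prs k ka) si
      (fun g t => wt MM (od ((a0 d b + d * t) * d * g)) - mean D c MM) (Ch := Ch)
      (T := qq k ^ (ka + 1 - d0)) (by positivity)
      (fun g hg t ht => hCh _ (main_B h3 (by omega) i1.1 (hD d hd).1 hg ht)) (Major si d0)
      (fun ξ _ hξ => by
        by_contra hc
        refine hξ (maj h1 h5 (by omega) ξ ((not_le.1 hc).trans_le ?_))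
        refine Nat.cast_le.2 (card_le_card fun g hg => ?_)
        obtain ⟨g1, g2⟩ := mem_filter.1 hg
        have gm := mem_mon.1 (mem_filter.1 g1).1
        refine mem_filter.2 ⟨?_, fun s hs => ?_⟩
        · rw [mem_box, degree_eq_natDegree gm.1.ne_zero, gm.2]
          exact_mod_cast Nat.lt_succ_self ka
        by_contra hne
        refine g2 (four_zero (u := g * s ^ 2) ?_ (fun t => ?_) hne)
        · by_cases h0 : s = 0
          · rw [h0]; simpa using mem_box.2 (by simp : (0 : k[X]).degree < si)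
          · have h10 := (natDegree_lt_iff_degree_lt h0).2 (mem_box.1 hs)
            rw [mem_box, ← natDegree_lt_iff_degree_lt (mul_ne_zero gm.1.ne_zero (pow_ne_zero 2 h0)),
              natDegree_mul gm.1.ne_zero (pow_ne_zero 2 h0), natDegree_pow, gm.2]
            omega
        · have : (a0 d b + d * (t + g * s ^ 2)) * d * g =
              (a0 d b + d * t) * d * g + (d * g * s) ^ 2 := by ring
          simp only [this, od_add, od_of_sq, add_zero])
    rw [box_exp, div_le_iff₀ (by positivity)] at this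
    rw [i2]
    refine this.trans ?_
    have hs : 0 ≤ ∑ ξ ∈ {ξ ∈ box k si | Major si d0 ξ}, Fo ξ d b :=
      sum_nonneg fun _ _ => sum_nonneg fun _ _ => abs_nonneg _
    calc _ ≤ (qq k ^ (ka + 1 - d0) * qq k ^ ka * Ch ^ 2 +
          Ch * qq k ^ ka * ∑ ξ ∈ {ξ ∈ box k si | Major si d0 ξ}, Fo ξ d b) * qq k ^ si := by
          gcongr
      _ = _ := by ring
  have b2 : ∑ d ∈ Ds, ∑ _b ∈ {b ∈ mon k be | IsCoprime b d},
      qq k ^ si * (qq k ^ (ka + 1 - d0) * qq k ^ ka * Ch ^ 2) ≤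
      qq k ^ de * (qq k ^ be * (qq k ^ si * (qq k ^ (ka + 1 - d0) * qq k ^ ka * Ch ^ 2))) := by
    refine (sum_le_card_nsmul _ _
      (qq k ^ be * (qq k ^ si * (qq k ^ (ka + 1 - d0) * qq k ^ ka * Ch ^ 2))) fun d _ => ?_).trans ?_
    · rw [sum_const, nsmul_eq_mul, ← card_mon be]
      gcongr
      exact filter_subset _ _
    · rw [nsmul_eq_mul]
      gcongr
  have b3 : ∑ d ∈ Ds, ∑ b ∈ {b ∈ mon k be | IsCoprime b d},
      ∑ ξ ∈ {ξ ∈ box k si | Major si d0 ξ}, Fo ξ d b ≤ qq k ^ (8 * d0 + 1) *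
        (Ch * (2 * D + be + 1) * qq k ^ (de + be + ka) / qq k ^ (9 * d0)) := by
    rw [sum_congr rfl fun d _ => sum_comm, sum_comm]
    refine (sum_le_card_nsmul _ _ _ fun ξ hξ => main_sum h1 h2 h3 h4 hd0 h5 h6 h7 h8 h9 hM hCh F Ds
      hD a0 (fun d hd b hb => (ha0 d b hd hb).1) (mem_filter.1 hξ).2).trans ?_
    rw [nsmul_eq_mul]
    gcongr
    exact cnt (by omega)
  have b4 : qq k ^ de * (qq k ^ be * (qq k ^ si * (qq k ^ (ka + 1 - d0) * qq k ^ ka * Ch ^ 2))) =
      qq k ^ (al + be + 2 * ka + 1) * Ch ^ 2 / qq k ^ d0 := by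
    have : qq k ^ de * qq k ^ be * qq k ^ si * qq k ^ (ka + 1 - d0) * qq k ^ ka * qq k ^ d0 =
        qq k ^ (al + be + 2 * ka + 1) := by
      simp only [← pow_add]
      congr 1
      omega
    rw [eq_div_iff (by positivity)]
    linear_combination Ch ^ 2 * this
  have b5 : qq k ^ si * (Ch * qq k ^ ka) * (qq k ^ (8 * d0 + 1) *
      (Ch * (2 * D + be + 1) * qq k ^ (de + be + ka) / qq k ^ (9 * d0))) =
      qq k ^ (al + be + 2 * ka + 1) * Ch ^ 2 * (2 * D + be + 1) / qq k ^ d0 := by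
    have : qq k ^ si * qq k ^ ka * qq k ^ (8 * d0 + 1) * qq k ^ (de + be + ka) * qq k ^ d0 =
        qq k ^ (al + be + 2 * ka + 1) * qq k ^ (9 * d0) := by
      simp only [← pow_add]
      congr 1
      omega
    rw [← mul_div_assoc, ← mul_div_assoc, div_eq_div_iff (by positivity) (by positivity)]
    linear_combination Ch ^ 2 * (2 * D + be + 1) * this
  calc _ ≤ ∑ d ∈ Ds, ∑ b ∈ {b ∈ mon k be | IsCoprime b d},
        (qq k ^ si * (qq k ^ (ka + 1 - d0) * qq k ^ ka * Ch ^ 2) +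
        qq k ^ si * (Ch * qq k ^ ka) * ∑ ξ ∈ {ξ ∈ box k si | Major si d0 ξ}, Fo ξ d b) :=
        sum_le_sum fun d hd => sum_le_sum fun b hb => b1 d hd b hb
    _ ≤ qq k ^ (al + be + 2 * ka + 1) * Ch ^ 2 / qq k ^ d0 +
        qq k ^ (al + be + 2 * ka + 1) * Ch ^ 2 * (2 * D + be + 1) / qq k ^ d0 := by
        simp only [sum_add_distrib, ← mul_sum]
        refine add_le_add ?_ ?_
        · simp only [mul_sum]
          exact b2.trans_eq b4
        · rw [← b5]
          gcongr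
    _ = _ := by ring

end MAIN

end Pool.Agent.MP_b5e119_nt.W64
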