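import Pool.Agent.MP_b5e119_nt.GB.Defs
import Pool.Agent.MP_b5e119_nt.GB.W2
import Pool.Agent.MP_b5e119_nt.GB.MM1

/-! Block M: the two open regions of the cell sums. -/

set_option autoImplicit false

open Polynomial Finset Filter
open scoped Classical BigOperators

noncomputable section
namespace Pool.Agent.MP_b5e119_nt.GB
open Pool.Agent.MP_a4a062_nt.C2 Pool.Agent.HGB
open Pool.Agent.MP_b5e119_nt.W64 (wt od)

-- DEFS
/-- Admissible parameters: modulus of degree `de`, partner of degree `be`, fibre length `si`. -/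
def Par (K N de be si ka len D y s E : ℕ) : Prop := si + 1 = ka + 2 * len ∧
  D + 1 = de + ka + len ∧ (2 * K + 1) * y ≤ 2 * D ∧ D < (K + 1) * y ∧ 4 * K * y ≤ 2 ^ y ∧ 1 ≤ s ∧
  N * s ≤ y ∧ y ≤ ka ∧ 2 * y + 1 ≤ len ∧ de + y ≤ 2 * ka + len + be ∧ 2 * E ≤ y

end Pool.Agent.MP_b5e119_nt.GB
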