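import Pool.Agent.MP_b5e119_nt.GB.Brun48

set_option autoImplicit false

open Polynomial Finset Filter
open scoped Classical BigOperators

noncomputable section
namespace Pool.Agent.MP_b5e119_nt.GB
open Pool.Agent.MP_a4a062_nt.C2 Pool.Agent.HGB

-- BEGIN
section YPT
variable {k : Type*} [Field k] [Fintype k]

omit [Fintype k] in
theorem ypt_card {T : Finset k[X]} {f : k[X]} (hf : f ≠ 0)
    (hT : ∀ p ∈ T, p.Monic ∧ Irreducible p ∧ p ∣ f) : #T ≤ f.natDegree := by
  have h1 : ∏ p ∈ T, p ∣ f := by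
    refine Finset.prod_dvd_of_coprime (fun p hp q hq hpq => ?_) fun p hp => (hT p hp).2.2
    refine ((hT p hp).2.1.coprime_iff_not_dvd).2 fun h => hpq ?_
    exact eq_of_monic_of_associated (hT p hp).1 (hT q hq).1
      ((hT p hp).2.1.associated_of_dvd (hT q hq).2.1 h)
  have h2 := natDegree_le_of_dvd h1 hf
  rw [natDegree_prod_of_monic _ _ fun p hp => (hT p hp).1] at h2
  refine le_trans ?_ h2
  rw [card_eq_sum_ones]
  exact sum_le_sum fun p hp => (hT p hp).2.1.natDegree_pos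

/-- The pointwise bound for Brun's weight. -/
theorem brun_abs_le (z u : ℕ) {f : k[X]} (hf : f ≠ 0) :
    |brun z u f| ≤ ((f.natDegree : ℝ) + 1) ^ (2 * u) := by
  rw [abs_of_nonneg (brun_nonneg z u f)]
  by_cases h : Rough z f
  · rw [brun_of_rough u h]
    exact one_le_pow₀ (by linarith [Nat.cast_nonneg (α := ℝ) f.natDegree])
  · obtain ⟨w, hw, e⟩ := brun_of_not u h
    have h1 : w + 1 ≤ f.natDegree := hw ▸ ypt_card hf fun p hp =>
      ⟨(mem_sp.1 (mem_filter.1 hp).1).1, (mem_sp.1 (mem_filter.1 hp).1).2.1, (mem_filter.1 hp).2⟩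
    have h2 : w.choose (2 * u) ≤ (f.natDegree + 1) ^ (2 * u) :=
      (Nat.choose_le_pow w _).trans (Nat.pow_le_pow_left (by omega) _)
    rw [e]
    exact_mod_cast h2

theorem ypt_ev (A : ℕ) : ∀ᶠ s : ℕ in atTop, (s + 1) ^ A ≤ 2 ^ s := by
  have h := tendsto_pow_const_div_const_pow_of_one_lt A (r := 2) one_lt_two
  have h2 := (h.comp (tendsto_add_atTop_nat 1)).eventually (gt_mem_nhds (show (0 : ℝ) < 1 / 2 by
    norm_num))
  filter_upwards [h2] with s hs
  simp only [Function.comp] at hs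
  rw [div_lt_iff₀ (by positivity), pow_succ] at hs
  have : (((s + 1) ^ A : ℕ) : ℝ) ≤ ((2 ^ s : ℕ) : ℝ) := by
    push_cast at hs ⊢
    linarith
  exact_mod_cast this

theorem ypt_sqrt : Tendsto Nat.sqrt atTop atTop :=
  tendsto_atTop.2 fun b => (eventually_ge_atTop (b * b)).mono fun _ h => Nat.le_sqrt.2 h

/-- With `u = Nat.sqrt t` the pointwise bound loses less than `2 ^ t`, and `2 ^ u` beats every
power of `N`. -/
theorem ypt_num (C : ℕ) : ∀ᶠ t : ℕ in atTop, ∀ N : ℕ, N ≤ (t + 1) ^ 10 →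
    (N + 2) ^ (C * (Nat.sqrt t + 1)) ≤ 2 ^ t ∧ (N + 2) ^ C ≤ 2 ^ Nat.sqrt t := by
  filter_upwards [ypt_sqrt.eventually (ypt_ev (42 * C)), ypt_sqrt.eventually (eventually_ge_atTop 1)]
    with t h1 h2 N hN
  set s := Nat.sqrt t with hs
  have h3 : t + 1 ≤ (s + 1) ^ 2 := by
    have := Nat.lt_succ_sqrt' t
    rw [← hs] at this
    exact this
  have h4 : s * s ≤ t := Nat.sqrt_le t
  have h5 : N + 2 ≤ (s + 1) ^ 21 := by
    have a1 : (t + 1) ^ 10 ≤ ((s + 1) ^ 2) ^ 10 := Nat.pow_le_pow_left h3 10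
    have a2 : 2 ≤ (s + 1) ^ 20 := le_trans (by omega) (Nat.le_self_pow (by norm_num) (s + 1))
    calc N + 2 ≤ (s + 1) ^ 20 + (s + 1) ^ 20 := by
          rw [← pow_mul] at a1
          exact Nat.add_le_add (hN.trans a1) a2
      _ = (s + 1) ^ 20 * 2 := by ring
      _ ≤ (s + 1) ^ 20 * (s + 1) := by gcongr; omega
      _ = _ := by ring
  clear_value s
  generalize hx : s + 1 = x at h1 h5 h3
  have hx0 : 0 < x := by omega
  have e1 : 21 * (C * x) ≤ 42 * C * s := by
    have : x ≤ 2 * s := by omega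
    calc 21 * (C * x) ≤ 21 * (C * (2 * s)) := Nat.mul_le_mul_left _ (Nat.mul_le_mul_left _ this)
      _ = _ := by ring
  constructor
  · refine (Nat.pow_le_pow_left h5 _).trans ?_
    rw [← pow_mul]
    refine (Nat.pow_le_pow_right hx0 e1).trans ?_
    rw [pow_mul]
    refine (Nat.pow_le_pow_left h1 _).trans ?_
    rw [← pow_mul]
    exact Nat.pow_le_pow_right two_pos h4
  · refine (Nat.pow_le_pow_left h5 _).trans ?_
    rw [← pow_mul]
    exact (Nat.pow_le_pow_right hx0 (by omega)).trans h1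

end YPT
-- END

end Pool.Agent.MP_b5e119_nt.GB
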