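import Pool.Agent.MP_b5e119_nt.GB.MWl
import Pool.Agent.MP_b5e119_nt.GB.Gen1
import Pool.Agent.MP_b5e119_nt.GB.Fibre
import Pool.Agent.MP_b5e119_nt.GB.Ypt40

set_option autoImplicit false

open Polynomial Finset Filter
open scoped Classical BigOperators

noncomputable section
namespace Pool.Agent.MP_b5e119_nt.GB
open Pool.Agent.MP_a4a062_nt.C2 Pool.Agent.HGB
open Pool.Agent.MP_b5e119_nt.W64 (wt od)

theorem e1_sqrt {P A B η u v : ℝ} (hP : 0 ≤ P) (hA : 0 ≤ A) (hu : 0 ≤ u) (hv : 0 ≤ v)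
    (h1 : B ≤ u ^ 2) (h2 : η ≤ v ^ 2) : √(P ^ 2 * (A + B) + η) ≤ P * √A + P * u + v := by
  have h0 : 0 ≤ √A := Real.sqrt_nonneg A
  refine Real.sqrt_le_iff.2 ⟨by positivity, ?_⟩
  have e : √A ^ 2 = A := Real.sq_sqrt hA
  have a1 : P ^ 2 * B ≤ P ^ 2 * u ^ 2 := mul_le_mul_of_nonneg_left h1 (by positivity)
  have a2 : 0 ≤ P * √A * (P * u) + P * √A * v + P * u * v := by positivity
  calc P ^ 2 * (A + B) + η ≤ P ^ 2 * √A ^ 2 + P ^ 2 * u ^ 2 + v ^ 2 := by rw [e]; linarith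
    _ ≤ _ := by nlinarith

theorem e1_num {K m : ℕ} {n1 Q T w S c₀ c₂ r Z : ℝ} (hn : 1 ≤ n1) (hQ : 0 ≤ Q) (hw : 0 ≤ w)
    (hS : 0 ≤ S) (hc₀ : 0 ≤ c₀) (hc₂ : 0 ≤ c₂) (hT : 1 ≤ T) (hr0 : 0 ≤ r) (hr : r ≤ (4 * n1) ^ K)
    (hZ : Z ≤ n1 ^ (2 * m) * 2 ^ K * S + n1 ^ (2 * m) * 2 ^ K * (3 * n1 * w) +
      T * ((c₂ + 1) * (2 * n1)) * w) :
    n1 ^ (2 * m) * (Q * ((c₀ + 1) * n1 ^ (K + 2) * w)) + r * Q * Z ≤
      ((c₀ + 1) + 4 ^ K * (2 ^ K * 3 + 2 * (c₂ + 1))) * Q * n1 ^ (K + 4 * m + 3) *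
        (T ^ 2 * w + S) := by
  set P := n1 ^ (K + 4 * m + 3) with hP
  have hP0 : 0 ≤ P := by positivity
  have p1 : n1 ^ (2 * m) * n1 ^ (K + 2) ≤ P := by
    rw [← pow_add]; exact pow_le_pow_right₀ hn (by omega)
  have p2 : n1 ^ K * n1 ^ (2 * m) ≤ P := by
    rw [← pow_add]; exact pow_le_pow_right₀ hn (by omega)
  have p3 : n1 ^ K * n1 ^ (2 * m) * n1 ≤ P := by
    rw [← pow_add, ← pow_succ]; exact pow_le_pow_right₀ hn (by omega)
  have p4 : n1 ^ K * n1 ≤ P := by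
    rw [← pow_succ]; exact pow_le_pow_right₀ hn (by omega)
  have t1 : T * w ≤ T ^ 2 * w := mul_le_mul_of_nonneg_right (by nlinarith) hw
  have t2 : w ≤ T ^ 2 * w := le_mul_of_one_le_left hw (by nlinarith)
  set V := T ^ 2 * w + S with hV
  have v1 : w ≤ V := by linarith
  have v2 : T * w ≤ V := by linarith
  have v3 : S ≤ V := by linarith
  have hTw : 0 ≤ T * w := by positivity
  have b1 : n1 ^ (2 * m) * (Q * ((c₀ + 1) * n1 ^ (K + 2) * w)) ≤ (c₀ + 1) * Q * (P * V) := by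
    calc _ = (c₀ + 1) * Q * (n1 ^ (2 * m) * n1 ^ (K + 2) * w) := by ring
      _ ≤ _ := by gcongr
  have b2 : r * Q * Z ≤ 4 ^ K * (2 ^ K * 3 + 2 * (c₂ + 1)) * Q * (P * V) := by
    calc r * Q * Z ≤ r * Q * (n1 ^ (2 * m) * 2 ^ K * S + n1 ^ (2 * m) * 2 ^ K * (3 * n1 * w) +
          T * ((c₂ + 1) * (2 * n1)) * w) := mul_le_mul_of_nonneg_left hZ (by positivity)
      _ ≤ (4 * n1) ^ K * Q * (n1 ^ (2 * m) * 2 ^ K * S + n1 ^ (2 * m) * 2 ^ K * (3 * n1 * w) +
          T * ((c₂ + 1) * (2 * n1)) * w) := by gcongr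
      _ = 4 ^ K * Q * (2 ^ K * (n1 ^ K * n1 ^ (2 * m) * S) +
          2 ^ K * 3 * (n1 ^ K * n1 ^ (2 * m) * n1 * w) + 2 * (c₂ + 1) * (n1 ^ K * n1 * (T * w))) := by
          rw [mul_pow]; ring
      _ ≤ 4 ^ K * Q * (2 ^ K * (P * S) + 2 ^ K * 3 * (P * (T ^ 2 * w)) +
          2 * (c₂ + 1) * (P * V)) := by gcongr
      _ ≤ 4 ^ K * Q * (2 ^ K * 3 * (P * S) + 2 ^ K * 3 * (P * (T ^ 2 * w)) +
          2 * (c₂ + 1) * (P * V)) := by
          have : (2 : ℝ) ^ K ≤ 2 ^ K * 3 := by linarith [pow_pos (two_pos (α := ℝ)) K]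
          gcongr
      _ = _ := by rw [hV]; ring
  calc _ ≤ (c₀ + 1) * Q * (P * V) + 4 ^ K * (2 ^ K * 3 + 2 * (c₂ + 1)) * Q * (P * V) :=
        add_le_add b1 b2
    _ = _ := by ring

theorem e1_sqf {k : Type} [Field k] [Fintype k] {K y : ℕ} {M : k[X]} (h : M ∈ MMs k K y) :
    Squarefree M := by
  obtain ⟨S, hS, -, rfl⟩ := mm_mem.1 h
  exact Finset.squarefree_prod_of_pairwise_isCoprime
    (fun p hp p' hp' hne => (mm_coprime (hS hp) (hS hp') hne).isRelPrime)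
    fun p hp => (mm_prs.1 (hS hp)).2.2.squarefree

variable (k : Type) [Field k] [Fintype k] [CharP k 2]

theorem e1 (K : ℕ) (hK : 1 ≤ K) : ∃ (N : ℕ) (c₁ : ℝ), 0 < N ∧ 0 ≤ c₁ ∧
    ∀ (F : k[X]) (n be ga de si τ ka len D y s z m : ℕ) (α : k[X] → k[X] → ℝ) (ρ : k[X] → ℝ),
      F ≠ 0 → F.natDegree ≤ n → de + si + be ≤ n → ga + de ≤ n → τ ≤ si → si ≤ τ + 1 →
      be + τ ≤ ga → (τ = si ∨ be + τ = ga) → be ≤ de →
      Par K N de be si ka len D y s (2 * m * z) → (∀ b c, |α b c| ≤ 1) → (∀ d, |ρ d| ≤ 1) →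
      (∀ b c, α b c ≠ 0 → IsCoprime b F) → (∀ d, ρ d ≠ 0 → Squarefree d ∧ IsCoprime d F) →
      |S4 F (de + si) be ga de fun a b c d => α b c * ρ d * (mu a * brun z m a)| ≤
        c₁ * qq k ^ n * ((n : ℝ) + 1) ^ (K + 4 * m + 3) *
          (qq k ^ (4 * m * z + 2) / qq k ^ s + √(qq k ^ be / qq k ^ de)) := by
  obtain ⟨c₀, hc₀, HW⟩ := wl k K hK
  obtain ⟨N', c₂, hN', hc₂, HF⟩ := MP_f0209c_nt.FF.fibre2 (k := k) (2 * K + 2)
  refine ⟨240 + 4 * N', (c₀ + 1) + 4 ^ K * (2 ^ K * 3 + 2 * (c₂ + 1)), by omega, by positivity,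
    fun F n be ga de si τ ka len D y s z m α ρ hF hFn h1 h2 h3 h4 h5 h6 h7 hP hα hρ hαF hρF => ?_⟩
  obtain ⟨dl, w1, w2, w3, w4⟩ := HW F n _ de be si ka len D y s _ {d ∈ mon k de | ρ d ≠ 0}
    (by omega) hP h1 fun d hd => ⟨(mem_filter.1 hd).1, hρF d (mem_filter.1 hd).2⟩
  obtain ⟨p1, p2, p3, p4, p5, p6, p7, p8, p9, p10, p11⟩ := hP
  have q2 := two_le_qq (k := k)
  have q0 : 0 < qq k := by linarith
  have q1 : 1 ≤ qq k := by linarith
  have r1 : 240 * s + 4 * (N' * s) ≤ y := by linarith [p7]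
  have r2 : 2 * (K * y) + y ≤ 2 * D := by linarith [p3]
  have r3 : D < K * y + y := by linarith [p4]
  have y0 : 0 < y := by omega
  have r4 : y ≤ K * y := Nat.le_mul_of_pos_left y hK
  obtain ⟨c, hc⟩ : ∃ c, D = K * y + c := ⟨D - K * y, by omega⟩
  have ka0 : 0 < ka := by omega
  have n0 : (0 : ℝ) ≤ n := Nat.cast_nonneg n
  have g1 := card_prs (k := k) ka0
  have kan : (ka : ℝ) ≤ n + 1 := by exact_mod_cast (show ka ≤ n + 1 by omega)
  have g0 : (0 : ℝ) < #(prs k ka) := by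
    by_contra h
    have h' : (#(prs k ka) : ℝ) = 0 := le_antisymm (not_lt.1 h) (Nat.cast_nonneg _)
    rw [h', mul_zero] at g1
    exact absurd g1 (not_le.2 (pow_pos q0 _))
  have hG : (prs k ka).Nonempty := card_pos.1 (by exact_mod_cast g0)
  have dl0 : 0 < dl := lt_of_lt_of_le (by positivity) w1
  have hΔ : 0 < dl * #(prs k ka) := mul_pos dl0 g0
  set w : ℝ := 1 / qq k ^ s with hw
  have w0 : 0 < w := by positivity
  have ww : 1 / qq k ^ (2 * s) = w ^ 2 := by rw [hw, one_div_pow, ← pow_mul, mul_comm]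
  have wle : ∀ j, 2 * s ≤ j → 1 / qq k ^ j ≤ w ^ 2 := fun j hj => by
    rw [← ww]
    exact one_div_le_one_div_of_le (by positivity) (pow_le_pow_right₀ q1 hj)
  set lam0 : ℝ := (c₀ + 1) * ((n : ℝ) + 1) ^ (K + 2) * w * (dl * #(prs k ka)) with hl
  have l0 : 0 < lam0 := by positivity
  set T : ℝ := qq k ^ (2 * m * z + 1) with hT
  have T1 : 1 ≤ T := one_le_pow₀ q1
  have key := gen1 F (al := de + si) (be := be) (ga := ga) (de := de) (τ := τ) (by omega) h5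
    (by omega) h7 hG (fun g a d => wt (MMs k K y) (od (a * d * g))) α ρ
    (fun a => mu a * brun z m a) (fun g _ d₁ d₂ => g ∣ d₁ * d₂ * F * (d₁ - d₂))
    (Y := ((n : ℝ) + 1) ^ (2 * m)) (Cw := 2 ^ K) (R := qq k ^ n * lam0)
    (η := (T * ((c₂ + 1) * (2 * ((n : ℝ) + 1))) * w) ^ 2) (Nb := 4 * n) hΔ (by positivity)
    (by positivity) (by positivity) (by positivity) hα hρ ?_ w2 hαF (fun d hd => (hρF d hd).2)
    ?_ ?_ ?_
  · have hB : 4 * (n : ℝ) / #(prs k ka) ≤ (3 * ((n : ℝ) + 1) * w) ^ 2 := by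
      have a1 : 1 / (#(prs k ka) : ℝ) ≤ 2 * ka * (1 / qq k ^ ka) := by
        rw [mul_one_div, div_le_div_iff₀ g0 (by positivity)]
        linarith
      have a2 := wle ka (by omega)
      calc 4 * (n : ℝ) / #(prs k ka) = 4 * n * (1 / #(prs k ka)) := by ring
        _ ≤ 4 * (n + 1) * (2 * (n + 1) * w ^ 2) := by
            refine mul_le_mul (by linarith) (a1.trans ?_) (by positivity) (by positivity)
            gcongr
        _ ≤ _ := by nlinarith [sq_nonneg (((n : ℝ) + 1) * w)]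
    have hZ := e1_sqrt (P := ((n : ℝ) + 1) ^ (2 * m) * 2 ^ K) (A := qq k ^ be / qq k ^ de)
      (v := T * ((c₂ + 1) * (2 * ((n : ℝ) + 1))) * w) (by positivity) (by positivity)
      (by positivity) (by positivity) hB le_rfl
    have hr : 1 / dl ≤ (4 * ((n : ℝ) + 1)) ^ K := by
      rw [div_le_iff₀ dl0]
      rw [div_le_iff₀ (by positivity)] at w1
      linarith
    have fin := e1_num (K := K) (m := m) (n1 := (n : ℝ) + 1) (Q := qq k ^ n) (c₀ := c₀)
      (by linarith) (by positivity) w0.le (Real.sqrt_nonneg _) hc₀ hc₂ T1 (by positivity) hr hZ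
    have e1 : qq k ^ (4 * m * z + 2) / qq k ^ s = T ^ 2 * w := by
      rw [hT, hw, ← pow_mul, mul_one_div]
      congr 2
      ring
    rw [e1]
    refine le_trans key (le_trans (add_le_add (le_of_eq ?_) ?_) fin)
    · rw [hl]
      field_simp
    · have e2 : (#(prs k ka) : ℝ) / (dl * #(prs k ka)) = 1 / dl := by field_simp
      rw [e2]
      gcongr
  · intro a ha
    obtain ⟨a1, a2⟩ := mem_mon.1 ha
    have b1 : |mu a| ≤ 1 := MP_f0209c_nt.FF.abs_mu a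
    have b2 := brun_abs_le z m a1.ne_zero
    have b3 : (a.natDegree : ℝ) ≤ n := by exact_mod_cast (show a.natDegree ≤ n by omega)
    rw [abs_mul]
    calc |mu a| * |brun z m a| ≤ 1 * ((a.natDegree : ℝ) + 1) ^ (2 * m) := by gcongr
      _ ≤ _ := by rw [one_mul]; gcongr
  · have w5 : qq k ^ n * (c₀ * ((n : ℝ) + 1) ^ (K + 2) / qq k ^ s) ^ 2 * (dl * #(prs k ka)) ^ 2 ≤
        qq k ^ n * lam0 ^ 2 := by
      rw [hl, mul_assoc, ← mul_pow, hw, mul_one_div]
      gcongr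
      linarith
    calc _ ≤ ∑ d ∈ {d ∈ mon k de | ρ d ≠ 0}, ∑ b ∈ mon k be, ∑ a ∈ mon k (de + si),
          ((if d ∣ F - a * b then (∑ g ∈ prs k ka, wt (MMs k K y) (od (a * d * g)) -
            dl * #(prs k ka)) ^ 2 else 0) / (2 * lam0) +
            lam0 / 2 * if d ∣ F - a * b then (1 : ℝ) else 0) := by
          rw [sum_filter]
          refine sum_le_sum fun d _ => ?_
          by_cases hd : ρ d ≠ 0
          · rw [if_pos hd]
            refine sum_le_sum fun b _ => sum_le_sum fun a _ => ?_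
            by_cases h : d ∣ F - a * b
            · rw [if_pos h, if_pos h]
              split_ifs
              · generalize ∑ g ∈ prs k ka, wt (MMs k K y) (od (a * d * g)) - dl * #(prs k ka) = x
                rw [← sq_abs x, mul_one, ← sub_nonneg]
                have : |x| ^ 2 / (2 * lam0) + lam0 / 2 - |x| = (|x| - lam0) ^ 2 / (2 * lam0) := by
                  field_simp
                  ring
                rw [this]
                positivity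
              · positivity
            · simp [h]
          · simp [hd]
      _ ≤ qq k ^ n * lam0 ^ 2 / (2 * lam0) + lam0 / 2 * qq k ^ n := by
          simp only [sum_add_distrib, ← sum_div, ← mul_sum]
          have := w4.trans w5
          gcongr
      _ = _ := by
          field_simp
          ring
  · intro b _ d₁ hd₁ d₂ hd₂ hne _ _ _
    obtain ⟨a1, a2⟩ := mem_mon.1 hd₁
    obtain ⟨a3, a4⟩ := mem_mon.1 hd₂
    have b1 := MP_f0209c_nt.FF.cnt_prs (B := d₁ * d₂ * F * (d₁ - d₂)) (mul_ne_zero (mul_ne_zero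
      (mul_ne_zero a1.ne_zero a3.ne_zero) hF) (sub_ne_zero.2 hne)) ka0
    have b2 : (d₁ * d₂ * F * (d₁ - d₂)).natDegree ≤ 4 * n := by
      have c1 := natDegree_mul_le (p := d₁ * d₂ * F) (q := d₁ - d₂)
      have c2 := natDegree_mul_le (p := d₁ * d₂) (q := F)
      have c3 := natDegree_mul_le (p := d₁) (q := d₂)
      have c4 := natDegree_sub_le d₁ d₂
      omega
    exact_mod_cast b1.trans b2
  · intro g hg b _ d₁ hd₁ d₂ hd₂ a₁ ha₁ a₂ ha₂ o _ _ s₁ s₂ _ _ f₁ f₂ hb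
    have h := HF od F a₁ a₂ b o d₁ d₂ g (MMs k K y) (bset k z m) lam (de + si) de ka D (2 * n + 1) τ
      (len - 1) c (2 * m * z) (w ^ 2) (fun f => ⟨_, W64.ev_od f⟩) ha₁ ha₂ hd₁ hd₂ hg (by omega)
      (by omega) (by omega) (hρF _ s₁).1 (hρF _ s₂).1 (hρF _ s₁).2 (hρF _ s₂).2 f₁ f₂ hb (by omega)
      (by omega) (fun M hM => ⟨(mem_mon.1 (mm_mon hM)).1, e1_sqf hM,
        by rw [(mem_mon.1 (mm_mon hM)).2]; omega,
        fun P hP hd => by rw [mm_prime hM hP hd]; omega⟩)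
      (by nlinarith) (by omega)
      (fun e he => ⟨(bset_spec he).1.ne_zero, (bset_spec he).2.2.1, (abs_lam e).le⟩) (by omega)
      (by positivity) (by
        rw [← ww, div_le_one (by positivity)]
        exact one_le_pow₀ q1)
      (by
        rw [← ww, one_div_pow, ← pow_mul]
        refine one_div_le_one_div_of_le (by positivity) (pow_le_pow_right₀ q1 ?_)
        have : 2 * s * N' = 2 * (N' * s) := by ring
        omega)
      (wle ka (by omega))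
    refine le_trans h ?_
    have b1 := card_bset (k := k) z m
    have b2 : c₂ * ((2 * n + 1 : ℕ) : ℝ) ≤ ((c₂ + 1) * (2 * ((n : ℝ) + 1))) ^ 2 := by
      rw [mul_pow]
      push_cast
      exact mul_le_mul (by nlinarith) (by nlinarith) (by positivity) (by positivity)
    calc (#(bset k z m) : ℝ) ^ 2 * (c₂ * ((2 * n + 1 : ℕ) : ℝ) * w ^ 2) ≤
          T ^ 2 * (((c₂ + 1) * (2 * ((n : ℝ) + 1))) ^ 2 * w ^ 2) := by gcongr
      _ = _ := by ring


end Pool.Agent.MP_b5e119_nt.GB
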