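import Pool.Agent.MP_b5e119_nt.GB.MDefs

set_option autoImplicit false

open Polynomial Finset Filter
open scoped Classical BigOperators

noncomputable section
namespace Pool.Agent.MP_b5e119_nt.GB
open Pool.Agent.MP_a4a062_nt.C2 Pool.Agent.HGB
open Pool.Agent.MP_b5e119_nt.W64 (wt od)

variable (k : Type) [Field k] [Fintype k] [CharP k 2]

section WL

theorem wl_num {q n A P w dl G T : ℝ} {K : ℕ} (hn : 0 ≤ n) (hq : 0 < q) (hP : 0 < P)
    (hA : 0 ≤ A) (_hw0 : 0 ≤ w) (hw : w ≤ 4 * (n + 1) ^ 2) (hT : 0 ≤ T)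
    (hdl : 1 / (4 * (n + 1)) ^ K ≤ dl) (hG : T ≤ 2 * (n + 1) * G) :
    A * T ^ 2 * q * (2 ^ K + 1) ^ 2 * w / (P ^ 2 * q) ≤
      A * ((2 ^ K + 1) * 4 ^ K * 4 * (n + 1) ^ (K + 2) / P) ^ 2 * (dl * G) ^ 2 := by
  have hn1 : 0 < n + 1 := by linarith
  have h1 : T / (2 * (n + 1)) ≤ G := by
    rw [div_le_iff₀ (by positivity)]
    linarith
  have h2 : 1 / (4 * (n + 1)) ^ K * (T / (2 * (n + 1))) ≤ dl * G :=
    mul_le_mul hdl h1 (by positivity) (le_trans (by positivity) hdl)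
  have h3 := pow_le_pow_left₀ (by positivity) h2 2
  refine le_trans ?_ (mul_le_mul_of_nonneg_left h3 (by positivity))
  have e : A * ((2 ^ K + 1) * 4 ^ K * 4 * (n + 1) ^ (K + 2) / P) ^ 2 *
      (1 / (4 * (n + 1)) ^ K * (T / (2 * (n + 1)))) ^ 2 =
      A * T ^ 2 * q * (2 ^ K + 1) ^ 2 * (4 * (n + 1) ^ 2) / (P ^ 2 * q) := by
    rw [mul_pow 4 (n + 1) K, pow_add (n + 1) K 2]
    have : (0 : ℝ) < (n + 1) ^ K := by positivity
    have : (0 : ℝ) < 4 ^ K := by positivity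
    generalize (n + 1) ^ K = u at *
    generalize (4 : ℝ) ^ K = v at *
    generalize (2 : ℝ) ^ K + 1 = r
    field_simp
    ring
  rw [e]
  exact div_le_div_of_nonneg_right (mul_le_mul_of_nonneg_left hw (by positivity)) (by positivity)

omit [Fintype k] [CharP k 2] in
theorem wl_cop {F d a b : k[X]} (h : IsCoprime d F) (hd : d ∣ F - a * b) : IsCoprime b d := by
  obtain ⟨e, he⟩ := hd
  obtain ⟨u, v, huv⟩ := h
  exact ⟨v * a, u + v * e, by linear_combination huv - v * he⟩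

omit [CharP k 2] in
theorem wl_sum {F d : k[X]} (h : IsCoprime d F) (be al : ℕ) (Φ : k[X] → k[X] → ℝ) :
    ∑ b ∈ mon k be, ∑ a ∈ mon k al, (if d ∣ F - a * b then Φ b a else 0) =
      ∑ b ∈ {b ∈ mon k be | IsCoprime b d}, ∑ a ∈ {a ∈ mon k al | d ∣ a * b - F}, Φ b a := by
  rw [Finset.sum_filter]
  refine Finset.sum_congr rfl fun b _ => ?_
  split_ifs with hb
  · rw [Finset.sum_filter]
    refine Finset.sum_congr rfl fun a _ => ?_
    simp only [dvd_sub_comm (a := d) (b := F)]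
  · exact Finset.sum_eq_zero fun a _ => if_neg fun hd => hb (wl_cop k h hd)

theorem wl (K : ℕ) (hK : 1 ≤ K) : ∃ c₀ : ℝ, 0 ≤ c₀ ∧
    ∀ (F : k[X]) (n N de be si ka len D y s E : ℕ) (Ds : Finset k[X]), 240 ≤ N →
    Par K N de be si ka len D y s E → de + si + be ≤ n →
    (∀ d ∈ Ds, d ∈ mon k de ∧ Squarefree d ∧ IsCoprime d F) →
    ∃ dl : ℝ, 1 / (4 * ((n : ℝ) + 1)) ^ K ≤ dl ∧
      (∀ g ∈ prs k ka, ∀ a ∈ mon k (de + si), ∀ d ∈ mon k de,
        |wt (MMs k K y) (od (a * d * g))| ≤ 2 ^ K) ∧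
      ∑ d ∈ Ds, ∑ b ∈ mon k be, ∑ a ∈ mon k (de + si), (if d ∣ F - a * b then (1 : ℝ) else 0) ≤
        qq k ^ n ∧
      ∑ d ∈ Ds, ∑ b ∈ mon k be, ∑ a ∈ mon k (de + si), (if d ∣ F - a * b then
        (∑ g ∈ prs k ka, wt (MMs k K y) (od (a * d * g)) - dl * #(prs k ka)) ^ 2 else 0) ≤
        qq k ^ n * (c₀ * ((n : ℝ) + 1) ^ (K + 2) / qq k ^ s) ^ 2 * (dl * #(prs k ka)) ^ 2 := by
  refine ⟨(2 ^ K + 1) * 4 ^ K * 4, by positivity, ?_⟩
  intro F n N de be si ka len D y s E Ds hN hP hn hD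
  obtain ⟨p1, p2, p3, p4, p5, p6, p7, p8, p9, p10, -⟩ := hP
  have q2 : (2 : ℝ) ≤ qq k := two_le_qq
  have q0 : (0 : ℝ) < qq k := by linarith
  have q1 : (1 : ℝ) ≤ qq k := by linarith
  have hs : 240 * s ≤ y := le_trans (Nat.mul_le_mul_right s hN) p7
  have e1 : (2 * K + 1) * y = 2 * (K * y) + y := by ring
  have e2 : (K + 1) * y = K * y + y := by ring
  have hy : 0 < y := by omega
  have hKy : 0 < K * y := Nat.mul_pos hK hy
  have hAdm : W64.Adm D (D - K * y) (MMs k K y) := fun M hM => by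
    obtain ⟨m1, m2⟩ := mem_mon.1 (mm_mon hM)
    refine ⟨m1, by omega, fun p hp hd => ?_⟩
    rw [mm_prime hM hp hd]
    omega
  have hCw : ∀ B ∈ mon k D, wt (MMs k K y) B ≤ 2 ^ K := fun B hB => by
    obtain ⟨m1, m2⟩ := mem_mon.1 hB
    have h1 := mm_w (K := K) m1.ne_zero hy
    have h2 : B.natDegree / y ≤ K := by
      rw [m2]
      exact Nat.lt_succ_iff.1 ((Nat.div_lt_iff_lt_mul hy).2 p4)
    have h3 := h1.trans (Nat.pow_le_pow_right (by norm_num) h2)
    unfold wt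
    exact_mod_cast h3
  have hdl : 1 / (4 * ((n : ℝ) + 1)) ^ K ≤ W64.mean D (D - K * y) (MMs k K y) := by
    have h1 := mm_dl (k := k) hy p5
    have h2 : W64.mean D (D - K * y) (MMs k K y) = (#(MMs k K y) : ℝ) / qq k ^ (K * y) := by
      unfold W64.mean
      have : qq k ^ D = qq k ^ (D - K * y) * qq k ^ (K * y) := by
        rw [← pow_add]
        congr 1
        omega
      rw [this]
      field_simp
    rw [h2]
    refine le_trans ?_ h1
    rw [← one_div_pow]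
    have h3 : ((K * y : ℕ) : ℝ) ≤ (n : ℝ) + 1 := by exact_mod_cast (by omega : K * y ≤ n + 1)
    have h4 : (0 : ℝ) < ((K * y : ℕ) : ℝ) := by exact_mod_cast hKy
    push_cast at h3 h4
    refine pow_le_pow_left₀ (by positivity) (one_div_le_one_div_of_le (by linarith) (by linarith)) K
  refine ⟨W64.mean D (D - K * y) (MMs k K y), hdl, fun g hg a ha d hd => ?_, ?_, ?_⟩
  · obtain ⟨g1, g2, -⟩ := mm_prs.1 hg
    obtain ⟨a1, a2⟩ := mem_mon.1 ha
    obtain ⟨d1, d2⟩ := mem_mon.1 hd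
    have : a * d * g ∈ mon k (2 * D + 1) := mem_mon.2 ⟨(a1.mul d1).mul g1, by
      rw [(a1.mul d1).natDegree_mul g1, a1.natDegree_mul d1]
      omega⟩
    rw [abs_of_nonneg (by unfold wt; positivity)]
    exact hCw _ (W64.od_mon this)
  · have h1 : ∀ d ∈ Ds, ∑ b ∈ mon k be, ∑ a ∈ mon k (de + si),
        (if d ∣ F - a * b then (1 : ℝ) else 0) ≤ qq k ^ be * qq k ^ si := fun d hd => by
      rw [wl_sum k (hD d hd).2.2 be (de + si) fun _ _ => 1]
      have h2 : ∀ b ∈ {b ∈ mon k be | IsCoprime b d},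
          ∑ a ∈ {a ∈ mon k (de + si) | d ∣ a * b - F}, (1 : ℝ) ≤ qq k ^ si := fun b hb => by
        obtain ⟨a0, -, -, h3⟩ := W64.fib rfl (hD d hd).1 (mem_filter.1 hb).2 F
        rw [h3 fun _ => 1, sum_const, nsmul_eq_mul, mul_one, card_box]
      refine (Finset.sum_le_card_nsmul _ _ _ h2).trans ?_
      rw [nsmul_eq_mul, ← card_mon (k := k) be]
      exact mul_le_mul_of_nonneg_right (by exact_mod_cast card_filter_le _ _) (by positivity)
    refine (Finset.sum_le_card_nsmul _ _ _ h1).trans ?_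
    have h4 : (#Ds : ℝ) ≤ qq k ^ de := by
      rw [← card_mon (k := k) de]
      exact_mod_cast card_le_card fun d hd => (hD d hd).1
    rw [nsmul_eq_mul]
    refine (mul_le_mul_of_nonneg_right h4 (by positivity)).trans ?_
    rw [← pow_add, ← pow_add]
    exact pow_le_pow_right₀ q1 (by omega)
  · have key := W64.weight (k := k) (al := de + si) (be := be) (de := de) (ka := ka) (len := len)
      (si := si) (rho := ka + len - 1) (D := D) (c := D - K * y) (d0 := 2 * s + 1) p1 (by omega) rfl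
      (by omega) (by omega) (by omega) (by omega) (by omega) (by omega) (by omega) hAdm hCw F Ds
      fun d hd => ⟨(hD d hd).1, (hD d hd).2.2.mul_right
        (PerfectField.separable_iff_squarefree.2 (hD d hd).2.1)⟩
    have h1 : ∀ d ∈ Ds, ∑ b ∈ mon k be, ∑ a ∈ mon k (de + si), (if d ∣ F - a * b then
        (∑ g ∈ prs k ka, wt (MMs k K y) (od (a * d * g)) -
          W64.mean D (D - K * y) (MMs k K y) * #(prs k ka)) ^ 2 else 0) =
        ∑ b ∈ {b ∈ mon k be | IsCoprime b d}, ∑ a ∈ {a ∈ mon k (de + si) | d ∣ a * b - F},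
          (∑ g ∈ prs k ka, (wt (MMs k K y) (od (a * d * g)) -
            W64.mean D (D - K * y) (MMs k K y))) ^ 2 := fun d hd => by
      rw [← wl_sum k (hD d hd).2.2]
      simp only [sum_sub_distrib, sum_const, nsmul_eq_mul, mul_comm (#(prs k ka) : ℝ)]
    rw [Finset.sum_congr rfl h1]
    refine key.trans ?_
    have hG : qq k ^ ka ≤ 2 * ((n : ℝ) + 1) * #(prs k ka) := by
      have h2 := card_prs (k := k) (e := ka) (by omega)
      have h3 : (ka : ℝ) ≤ (n : ℝ) + 1 := by exact_mod_cast (by omega : ka ≤ n + 1)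
      exact h2.trans (mul_le_mul_of_nonneg_right (by linarith) (by positivity))
    have hw : 2 * (D : ℝ) + be + 2 ≤ 4 * ((n : ℝ) + 1) ^ 2 := by
      have h2 : (D : ℝ) ≤ n := by exact_mod_cast (by omega : D ≤ n)
      have h3 : (be : ℝ) ≤ n := by exact_mod_cast (by omega : be ≤ n)
      have h4 : (0 : ℝ) ≤ n := Nat.cast_nonneg n
      nlinarith
    refine le_trans ?_ (wl_num (A := qq k ^ n) (P := qq k ^ s) (T := qq k ^ ka) (Nat.cast_nonneg n)
      q0 (by positivity) (by positivity) (by positivity) hw (by positivity) hdl hG)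
    have e3 : qq k ^ (2 * s + 1) = (qq k ^ s) ^ 2 * qq k := by ring
    have e4 : qq k ^ (de + si + be + 2 * ka + 1) ≤ qq k ^ n * (qq k ^ ka) ^ 2 * qq k := by
      rw [← pow_mul, ← pow_add, ← pow_succ]
      exact pow_le_pow_right₀ q1 (by omega)
    rw [e3]
    gcongr

end WL


end Pool.Agent.MP_b5e119_nt.GB
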