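import Pool.Agent.MP_b5e119_nt.GB.Defs

set_option autoImplicit false

open Polynomial Finset Filter
open scoped Classical BigOperators

noncomputable section
namespace Pool.Agent.HGB
open Pool.Agent.MP_a4a062_nt.C2

section
variable {k : Type*} [Field k] [Fintype k]

theorem crt_qpos : (0 : ℝ) < qq k := by have := two_le_qq (k := k); linarith

/-- Number of monic solutions of one congruence. -/
theorem crt_one {N : ℕ} {M : k[X]} (hM : M ≠ 0) (hN : M.natDegree ≤ N) (b : k[X]) :
    ∑ s ∈ mon k N, (if M ∣ s - b then (1 : ℝ) else 0) = qq k ^ N / qq k ^ M.natDegree := by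
  have h2 := exp_box_dvd hM hN isCoprime_one_left (X ^ N - b)
  have hq := crt_qpos (k := k)
  rw [box_exp, div_eq_iff (by positivity)] at h2
  have e : ∀ s : k[X], X ^ N + s - b = X ^ N - b + 1 * s := fun s => by ring
  rw [box_sum_mon]
  simp only [e]
  rw [h2]; ring

theorem cn_cop (F : k[X]) {m : ℕ} {A C : k[X]} (hA : A.Monic) (hC : C.Monic) (h : IsCoprime A C)
    (hm : A.natDegree + C.natDegree ≤ m) :
    cn F m A C = qq k ^ m / qq k ^ (A.natDegree + C.natDegree) := by
  obtain ⟨u, v, huv⟩ := id h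
  have hd : (A * C).natDegree = A.natDegree + C.natDegree := hA.natDegree_mul hC
  have e : ∀ g, (A ∣ F - g ∧ C ∣ g) ↔ A * C ∣ g - F * v * C := fun g => by
    have e1 : g - F * v * C = -(F - g) + A * (F * u) := by linear_combination (-F) * huv
    have h1 : A ∣ F - g ↔ A ∣ g - F * v * C := by
      rw [e1, dvd_add_left (dvd_mul_right _ _), dvd_neg]
    have h2 : C ∣ g ↔ C ∣ g - F * v * C := (dvd_sub_left (dvd_mul_left _ _)).symm
    rw [h1, h2]
    exact ⟨fun hh => h.mul_dvd hh.1 hh.2,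
      fun hh => ⟨(dvd_mul_right _ _).trans hh, (dvd_mul_left _ _).trans hh⟩⟩
  rw [← hd, ← crt_one (hA.mul hC).ne_zero (hd.trans_le hm) (F * v * C)]
  unfold cn
  simp only [e]
  rw [Finset.sum_boole]

/-- A rough pair that is not coprime has a monic common divisor of degree `> z`. -/
theorem crt_pt (z : ℕ) {i j : ℕ} {a c : k[X]} (ha : a ∈ mon k i) (hc : c ∈ mon k j) :
    (if IsCoprime a c then 0 else rho z a * rho z c) ≤
      ∑ d ∈ range (min i j - z), ∑ p ∈ mon k (z + 1 + d),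
        (if p ∣ a - 0 then (1 : ℝ) else 0) * (if p ∣ c - 0 then (1 : ℝ) else 0) := by
  have hn : ∀ p : k[X],
      0 ≤ (if p ∣ a - 0 then (1 : ℝ) else 0) * (if p ∣ c - 0 then (1 : ℝ) else 0) := fun p => by
    split_ifs <;> norm_num
  have h0 : (0 : ℝ) ≤ ∑ d ∈ range (min i j - z), ∑ p ∈ mon k (z + 1 + d),
      (if p ∣ a - 0 then (1 : ℝ) else 0) * (if p ∣ c - 0 then (1 : ℝ) else 0) :=
    sum_nonneg fun d _ => sum_nonneg fun p _ => hn p
  obtain ⟨am, ad⟩ := mem_mon.1 ha
  obtain ⟨cm, cd⟩ := mem_mon.1 hc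
  by_cases h : IsCoprime a c
  · rwa [if_pos h]
  rw [if_neg h]
  by_cases hr : Rough z a
  swap
  · simpa only [rho, if_neg hr, zero_mul] using h0
  have h1 : rho z a * rho z c ≤ 1 := by unfold rho; split_ifs <;> norm_num
  refine h1.trans ?_
  obtain ⟨p, hp, hpa, hpc⟩ : ∃ p : k[X], Irreducible p ∧ p ∣ a ∧ p ∣ c := by
    by_contra hh
    exact h (isCoprime_of_irreducible_dvd (fun h2 => am.ne_zero h2.1)
      fun p hp h1 h2 => hh ⟨p, hp, h1, h2⟩)
  have hz := hr p hp hpa
  have hi := natDegree_le_of_dvd hpa am.ne_zero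
  have hj := natDegree_le_of_dvd hpc cm.ne_zero
  have hd : p.natDegree - (z + 1) ∈ range (min i j - z) := by rw [mem_range]; omega
  have hm : normalize p ∈ mon k (z + 1 + (p.natDegree - (z + 1))) :=
    mem_mon.2 ⟨monic_normalize hp.ne_zero, by
      rw [natDegree_eq_of_degree_eq (degree_eq_degree_of_associated (normalize_associated p))]
      omega⟩
  refine le_trans ?_ (single_le_sum (f := fun d => ∑ p ∈ mon k (z + 1 + d),
    (if p ∣ a - 0 then (1 : ℝ) else 0) * (if p ∣ c - 0 then (1 : ℝ) else 0))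
    (fun d _ => sum_nonneg fun p _ => hn p) hd)
  refine le_trans ?_ (single_le_sum (fun p _ => hn p) hm)
  rw [sub_zero, sub_zero, if_pos (normalize_dvd_iff.2 hpa), if_pos (normalize_dvd_iff.2 hpc),
    one_mul]

theorem cop_le (z i j : ℕ) : ∑ a ∈ mon k i, ∑ c ∈ mon k j,
    (if IsCoprime a c then 0 else rho z a * rho z c) ≤ qq k ^ (i + j) / qq k ^ z := by
  have hq := crt_qpos (k := k)
  have h2 := two_le_qq (k := k)
  refine (sum_le_sum fun a ha => sum_le_sum fun c hc => crt_pt z ha hc).trans ?_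
  have e : ∑ a ∈ mon k i, ∑ c ∈ mon k j, ∑ d ∈ range (min i j - z), ∑ p ∈ mon k (z + 1 + d),
      (if p ∣ a - 0 then (1 : ℝ) else 0) * (if p ∣ c - 0 then (1 : ℝ) else 0) =
      ∑ d ∈ range (min i j - z), qq k ^ (i + j) * (1 / qq k ^ (z + 1 + d)) := by
    rw [sum_congr rfl fun a _ => sum_comm, sum_comm]
    refine sum_congr rfl fun d hd => ?_
    rw [mem_range] at hd
    rw [sum_congr rfl fun a _ => sum_comm, sum_comm]
    have e1 : ∀ p ∈ mon k (z + 1 + d), ∑ a ∈ mon k i, ∑ c ∈ mon k j,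
        (if p ∣ a - 0 then (1 : ℝ) else 0) * (if p ∣ c - 0 then (1 : ℝ) else 0) =
        qq k ^ i / qq k ^ (z + 1 + d) * (qq k ^ j / qq k ^ (z + 1 + d)) := fun p hp => by
      obtain ⟨pm, pd⟩ := mem_mon.1 hp
      rw [← sum_mul_sum, crt_one pm.ne_zero (by omega), crt_one pm.ne_zero (by omega), pd]
    rw [sum_congr rfl e1, sum_const, nsmul_eq_mul, card_mon, pow_add (qq k) i j]
    field_simp
  rw [e, ← mul_sum, div_eq_mul_one_div]
  refine mul_le_mul_of_nonneg_left ((ari_geom2 (k := k) (z + 1) _).trans ?_) (by positivity)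
  have h3 : 0 ≤ 2 / qq k ^ (z + 1 + (min i j - z)) := by positivity
  have h4 : 2 / qq k ^ (z + 1) ≤ 1 / qq k ^ z := by
    rw [div_le_div_iff₀ (by positivity) (by positivity), pow_succ]
    nlinarith [pow_pos hq z]
  linarith


end
end Pool.Agent.HGB
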