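import Pool.Agent.MP_b5e119_nt.GB.Defs
import Pool.Agent.MP_b5e119_nt.GB.Id9

set_option autoImplicit false

open Polynomial Finset Filter
open scoped Classical BigOperators

noncomputable section
namespace Pool.Agent.HGB
open Pool.Agent.MP_a4a062_nt.C2

section
variable {k : Type*} [Field k] [Fintype k]

omit [Fintype k] in
theorem idm_mu_one : mu (1 : k[X]) = 1 := by
  unfold mu
  rw [if_pos squarefree_one, id_lam_one]

theorem idm_mu_mul {p a : k[X]} (hi : Irreducible p) (ha : a ≠ 0) (hn : ¬ p ∣ a) :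
    mu (p * a) = -mu a := by
  unfold mu
  have h : Squarefree (p * a) ↔ Squarefree a := by
    rw [squarefree_mul_iff]
    exact ⟨fun h => h.2.2, fun h => ⟨(hi.coprime_iff_not_dvd.2 hn).isRelPrime, hi.squarefree, h⟩⟩
  by_cases h1 : Squarefree a
  · rw [if_pos h1, if_pos (h.2 h1), lam_mul hi.ne_zero ha, id_lam_prime hi]
    ring
  · rw [if_neg h1, if_neg fun h2 => h1 (h.1 h2), neg_zero]

omit [Fintype k] in
theorem idm_fac {f : k[X]} (hf : f.Monic) (h1 : f ≠ 1) :
    ∃ (p g : k[X]) (r : ℕ), p.Monic ∧ Irreducible p ∧ g.Monic ∧ ¬ p ∣ g ∧ f = p ^ (r + 1) * g := by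
  have hu : ¬ IsUnit f := fun h => h1 (hf.eq_one_of_isUnit h)
  obtain ⟨p, hp, hi, g, rfl⟩ := exists_monic_irreducible_factor f hu
  have hg := hp.of_mul_monic_left hf
  obtain ⟨r, g', h2, rfl⟩ := WfDvdMonoid.max_power_factor hg.ne_zero hi
  exact ⟨p, g', r, hp, hi, (hp.pow r).of_mul_monic_left hg, h2, by ring⟩

theorem idm_sum_mu {p g : k[X]} (r : ℕ) (hp : p.Monic) (hi : Irreducible p) (hg : g.Monic)
    (hn : ¬ p ∣ g) (G : k[X] → ℝ) :
    ∑ a ∈ dv (p ^ (r + 1) * g), mu a * G a = ∑ a ∈ dv g, mu a * (G a - G (p * a)) := by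
  have h0 : p ^ (r + 1) * g ≠ 0 := ((hp.pow _).mul hg).ne_zero
  have h1 : p * g ≠ 0 := (hp.mul hg).ne_zero
  have e : ∑ a ∈ dv (p * g), mu a * G a = ∑ a ∈ dv (p ^ (r + 1) * g), mu a * G a := by
    refine sum_subset (fun a ha => ?_) fun a ha hb => ?_
    · have h2 := (mem_dv h1).1 ha
      exact (mem_dv h0).2 ⟨h2.1, h2.2.trans ⟨p ^ r, by ring⟩⟩
    · have h2 := (mem_dv h0).1 ha
      unfold mu
      rw [if_neg, zero_mul]
      intro hs
      refine hb ((mem_dv h1).2 ⟨h2.1, ?_⟩)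
      refine (hs.dvd_pow_iff_dvd (Nat.succ_ne_zero r)).1 (h2.2.trans ⟨g ^ r, by rw [Nat.succ_eq_add_one]; ring⟩)
  rw [← e, id_sum_split hp hi hg.ne_zero hn, ← sum_add_distrib]
  refine sum_congr rfl fun a ha => ?_
  have h2 := (mem_dv hg.ne_zero).1 ha
  rw [idm_mu_mul hi h2.1.ne_zero fun h3 => hn (h3.trans h2.2)]
  ring

theorem idm_S0 {f : k[X]} (hf : f.Monic) (h1 : f ≠ 1) : ∑ a ∈ dv f, mu a = 0 := by
  obtain ⟨p, g, r, hp, hi, hg, hn, rfl⟩ := idm_fac hf h1
  have h := idm_sum_mu r hp hi hg hn fun _ => 1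
  simpa using h

theorem idm_S1 {f : k[X]} (hf : f.Monic) (h1 : f ≠ 1) :
    ∃ L : ℝ, ∑ a ∈ dv f, mu a * (a.natDegree : ℝ) = -L ∧ 0 ≤ L ∧ L ≤ f.natDegree ∧
      (L = 0 ∨ Irreducible f ∨ ¬ Squarefree f) := by
  obtain ⟨p, g, r, hp, hi, hg, hn, rfl⟩ := idm_fac hf h1
  rw [idm_sum_mu r hp hi hg hn fun a => (a.natDegree : ℝ)]
  have e : ∑ a ∈ dv g, mu a * ((a.natDegree : ℝ) - ((p * a).natDegree : ℝ)) =
      -((p.natDegree : ℝ) * ∑ a ∈ dv g, mu a) := by
    rw [mul_sum, ← sum_neg_distrib]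
    refine sum_congr rfl fun a ha => ?_
    rw [hp.natDegree_mul ((mem_dv hg.ne_zero).1 ha).1]
    push_cast
    ring
  rw [e]
  by_cases h : g = 1
  · subst h
    rw [id_dv_one, sum_singleton, idm_mu_one, mul_one, mul_one]
    refine ⟨_, rfl, by positivity, ?_, Or.inr ?_⟩
    · exact_mod_cast natDegree_le_of_dvd (dvd_pow_self p (Nat.succ_ne_zero r)) (hp.pow _).ne_zero
    · rcases r with _ | r
      · left
        simpa using hi
      · exact Or.inr fun h => hi.not_isUnit (h p ⟨p ^ r, by ring⟩)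
  · rw [idm_S0 hg h, mul_zero]
    exact ⟨0, rfl, le_rfl, by positivity, Or.inl rfl⟩

theorem idm_in_eq {n m : ℕ} {f g : k[X]} (hf : f ∈ mon k n) (hg : g ∈ mon k m) (f1 : f ≠ 1)
    (g1 : g ≠ 1) : idIn mu n m f g = -2 * ((∑ a ∈ dv f, mu a * (a.natDegree : ℝ)) *
        (∑ c ∈ dv g, mu c * (c.natDegree : ℝ))) := by
  have h1 := mem_mon.1 hf
  have h2 := mem_mon.1 hg
  have e : idIn mu n m f g =
      (∑ a ∈ dv f, mu a * ((n : ℝ) - m - a.natDegree) ^ 2) * (∑ c ∈ dv g, mu c)
      + (∑ a ∈ dv f, mu a) * (∑ c ∈ dv g, mu c * ((c.natDegree : ℝ) ^ 2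
        + 2 * ((n : ℝ) - m) * c.natDegree))
      - 2 * ((∑ a ∈ dv f, mu a * (a.natDegree : ℝ)) *
        (∑ c ∈ dv g, mu c * (c.natDegree : ℝ))) := by
    unfold idIn
    rw [sum_mul_sum, sum_mul_sum, sum_mul_sum, mul_sum, ← sum_add_distrib, ← sum_sub_distrib]
    refine sum_congr rfl fun a ha => ?_
    rw [mul_sum, ← sum_add_distrib, ← sum_sub_distrib]
    refine sum_congr rfl fun c hc => ?_
    have h5 := natDegree_le_of_dvd ((mem_dv h1.1.ne_zero).1 ha).2 h1.1.ne_zero
    have h6 := natDegree_le_of_dvd ((mem_dv h2.1.ne_zero).1 hc).2 h2.1.ne_zero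
    rw [Nat.cast_sub (by omega), Nat.cast_sub (by omega)]
    ring
  rw [e, idm_S0 h1.1 f1, idm_S0 h2.1 g1]
  ring

theorem idm_TT (z : ℕ) (F : k[X]) (i be j de : ℕ) :
    TT z F i be j de = idXX mu z F i be j de := by
  unfold TT S4 idXX rho
  refine sum_congr rfl fun a _ => sum_congr rfl fun b _ => sum_congr rfl fun c _ =>
    sum_congr rfl fun d _ => ?_
  by_cases h1 : Rough z a <;> by_cases h2 : Rough z b <;> by_cases h3 : Rough z c <;>
    by_cases h4 : Rough z d <;> simp [h1, h2, h3, h4]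

theorem idm_flip (z n m : ℕ) (F : k[X]) :
    ∑ i ∈ range (n + 1), ∑ j ∈ range (m + 1),
      (((n : ℝ) - i) - ((m : ℝ) - j)) ^ 2 * TT z F i (n - i) j (m - j) =
    ∑ i ∈ range (n + 1), ∑ j ∈ range (m + 1),
      ((i : ℝ) - j) ^ 2 * idXX mu z F (n - i) i (m - j) j := by
  rw [← sum_flip]
  refine sum_congr rfl fun i hi => ?_
  rw [← sum_flip]
  refine sum_congr rfl fun j hj => ?_
  have h1 := mem_range.1 hi
  have h2 := mem_range.1 hj
  rw [idm_TT, Nat.cast_sub (by omega), Nat.cast_sub (by omega), Nat.sub_sub_self (by omega),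
    Nat.sub_sub_self (by omega)]
  ring

theorem id_le {z n m : ℕ} (F : k[X]) (hm : z < m) (hmn : m ≤ n) :
    -(1 / 2) * ∑ i ∈ range (n + 1), ∑ j ∈ range (m + 1),
        (((n : ℝ) - i) - ((m : ℝ) - j)) ^ 2 * TT z F i (n - i) j (m - j) ≤
      (n : ℝ) * m * #{g ∈ prs k m | Irreducible (F - g)} +
        8 * (n : ℝ) ^ 2 * 4 ^ (n / z) * qq k ^ n / qq k ^ z := by
  have hq := two_le_qq (k := k)
  have e2 : ∀ f ∈ mon k n, ∀ g ∈ mon k m,
      -(1 / 2) * (if Rough z f ∧ Rough z g ∧ f + g = F then idIn mu n m f g else 0) ≤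
      (n : ℝ) * m * ((if f = F - g then (if Irreducible g ∧ Irreducible (F - g) then (1 : ℝ)
        else 0) else 0) + ((if g = F - f then (if Big (z + 1) f then (1 : ℝ) else 0) else 0) +
        if f = F - g then (if Big (z + 1) g then (1 : ℝ) else 0) else 0)) := by
    intro f hf g hg
    have h1 := mem_mon.1 hf
    have h2 := mem_mon.1 hg
    by_cases h0 : Rough z f ∧ Rough z g ∧ f + g = F
    · obtain ⟨rf, rg, h⟩ := id h0
      have f1 : f ≠ 1 := fun h => by rw [h, natDegree_one] at h1; omega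
      have g1 : g ≠ 1 := fun h => by rw [h, natDegree_one] at h2; omega
      obtain ⟨L, a1, a2, a3, a4⟩ := idm_S1 h1.1 f1
      obtain ⟨M, c1, c2, c3, c4⟩ := idm_S1 h2.1 g1
      have h3 : f = F - g := by rw [← h]; ring
      rw [if_pos h0, if_pos h3, if_pos h3, if_pos (show g = F - f by rw [← h]; ring),
        idm_in_eq hf hg f1 g1, a1, c1, ← h3]
      rw [h1.2] at a3
      rw [h2.2] at c3
      refine (show _ = L * M by ring).trans_le ?_
      by_cases h5 : L = 0 ∨ M = 0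
      · rw [mul_eq_zero.2 h5]
        positivity
      · refine (mul_le_mul a3 c3 c2 (by positivity)).trans
          (le_mul_of_one_le_right (by positivity) ?_)
        rcases a4 with a4 | a4 | a4
        · exact absurd (Or.inl a4) h5
        · rcases c4 with c4 | c4 | c4
          · exact absurd (Or.inr c4) h5
          · rw [if_pos ⟨c4, a4⟩]
            exact le_add_of_nonneg_right (by positivity)
          · rw [if_pos (id_big rg c4), ← add_assoc]
            exact le_add_of_nonneg_left (by positivity)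
        · rw [if_pos (id_big rf a4), add_left_comm]
          exact le_add_of_nonneg_right (by positivity)
    · rw [if_neg h0, mul_zero]
      positivity
  rw [idm_flip, id_total]
  simp only [mul_sum]
  refine (sum_le_sum fun f hf => sum_le_sum fun g hg => e2 f hf g hg).trans ?_
  simp only [← mul_sum, sum_add_distrib]
  rw [mul_add]
  refine add_le_add (mul_le_mul_of_nonneg_left ?_ (by positivity)) ?_
  · rw [sum_comm]
    refine (sum_le_sum (g := fun g => if Irreducible g ∧ Irreducible (F - g) then (1 : ℝ) else 0)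
      fun g _ => ?_).trans (le_of_eq ?_)
    · rw [sum_ite_eq']
      split_ifs <;> norm_num
    · rw [sum_boole]
      unfold prs
      rw [filter_filter]
  · have b1 : ∑ f ∈ mon k n, ∑ g ∈ mon k m,
        (if g = F - f then (if Big (z + 1) f then (1 : ℝ) else 0) else 0) ≤
        2 * qq k ^ n / qq k ^ (z + 1) := by
      refine (sum_le_sum fun f _ => ?_).trans (id_sum_big n (z + 1))
      rw [sum_ite_eq']
      split_ifs <;> norm_num
    have b2 : ∑ f ∈ mon k n, ∑ g ∈ mon k m,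
        (if f = F - g then (if Big (z + 1) g then (1 : ℝ) else 0) else 0) ≤
        2 * qq k ^ m / qq k ^ (z + 1) := by
      rw [sum_comm]
      refine (sum_le_sum fun g _ => ?_).trans (id_sum_big m (z + 1))
      rw [sum_ite_eq']
      split_ifs <;> norm_num
    have b3 : 2 * qq k ^ m / qq k ^ (z + 1) ≤ 2 * qq k ^ n / qq k ^ z := by
      gcongr
      · linarith
      · linarith
      · omega
    have b4 : 2 * qq k ^ n / qq k ^ (z + 1) ≤ 2 * qq k ^ n / qq k ^ z := by
      gcongr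
      · linarith
      · omega
    have b5 : (m : ℝ) ≤ n := by exact_mod_cast hmn
    have b6 : (1 : ℝ) ≤ 4 ^ (n / z) := one_le_pow₀ (by norm_num)
    calc _ ≤ (n : ℝ) * n * (2 * qq k ^ n / qq k ^ z + 2 * qq k ^ n / qq k ^ z) := by
          refine mul_le_mul (by gcongr) (add_le_add (b1.trans b4) (b2.trans b3)) ?_ (by positivity)
          positivity
      _ = 4 * (n : ℝ) ^ 2 * 1 * qq k ^ n / qq k ^ z := by ring
      _ ≤ _ := by gcongr; norm_num

end


end Pool.Agent.HGB
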