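import Pool.Agent.MP_b5e119_nt.GB.Defs

/-! The density of Brun's weights on a fibre and its lower bound. -/

set_option autoImplicit false

open Polynomial Finset Filter
open scoped Classical BigOperators

noncomputable section
namespace Pool.Agent.HGB

open Pool.Agent.MP_a4a062_nt.C2

variable {k : Type*} [Field k] [Fintype k]

/-- The density of the two sieve weights. -/
def v_W (z m : ℕ) (h : k[X]) : ℝ := 𝔼 t ∈ box k (4 * m * z), brun z m t * brun z m (t + h)

/-- The mean of a periodic function along a progression prime to the period. -/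
theorem v_per {L c : k[X]} (hL : L ≠ 0) (H : k[X] → ℝ) (hH : ∀ x s, H (x + L * s) = H x)
    (hc : IsCoprime c L) {N : ℕ} (hN : L.natDegree ≤ N) (a : k[X]) :
    𝔼 y ∈ box k N, H (a + c * y) = 𝔼 y ∈ box k L.natDegree, H y := by
  have hd : ∀ x : k[X], (x % L).degree < L.natDegree := fun x =>
    (degree_mod_lt x hL).trans_eq (degree_eq_natDegree hL)
  have e : ∀ x, H x = ∑ r ∈ box k L.natDegree, H r * (if L ∣ x - r then 1 else 0) := fun x => by
    rw [sum_eq_single (x % L)]
    · rw [if_pos ⟨x / L, by rw [sub_eq_iff_eq_add, EuclideanDomain.div_add_mod]⟩, mul_one,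
        ← hH (x % L) (x / L), EuclideanDomain.mod_add_div]
    · intro r hr hne
      rw [if_neg, mul_zero]
      intro hx
      refine hne (sub_eq_zero.1 (eq_zero_of_dvd_of_degree_lt (p := L) ?_ ?_))
      · have : r - x % L = L * (x / L) - (x - r) := by
          have := EuclideanDomain.div_add_mod x L
          linear_combination -this
        rw [this]
        exact dvd_sub (dvd_mul_right _ _) hx
      · rw [degree_eq_natDegree hL]
        exact (degree_sub_le _ _).trans_lt (max_lt (mem_box.1 hr) (hd x))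
    · exact fun hx => absurd (mem_box.2 (hd x)) hx
  rw [expect_congr rfl fun y _ => e (a + c * y), expect_sum_comm, box_exp, sum_div]
  refine sum_congr rfl fun r _ => ?_
  rw [← mul_expect, div_eq_mul_one_div, ← exp_box_dvd hL hN hc (a - r)]
  simp only [sub_add_eq_add_sub]

theorem v_per_one {L : k[X]} (hL : L ≠ 0) (H : k[X] → ℝ) (hH : ∀ x s, H (x + L * s) = H x)
    {N : ℕ} (hN : L.natDegree ≤ N) :
    𝔼 y ∈ box k N, H y = 𝔼 y ∈ box k L.natDegree, H y := by
  simpa using v_per hL H hH isCoprime_one_left hN 0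

/-- Periodic functions with coprime periods are independent. -/
theorem v_indep {L M : k[X]} (hL : L ≠ 0) (hM : M ≠ 0) (hc : IsCoprime L M) (G H : k[X] → ℝ)
    (hG : ∀ x s, G (x + L * s) = G x) (hH : ∀ x s, H (x + M * s) = H x) {N : ℕ}
    (hN : L.natDegree + M.natDegree ≤ N) :
    𝔼 y ∈ box k N, G y * H y = (𝔼 y ∈ box k N, G y) * 𝔼 y ∈ box k N, H y := by
  have h1 : 𝔼 y ∈ box k N, G y * H y =
      𝔼 s ∈ box k M.natDegree, 𝔼 y ∈ box k N, G y * H (y + L * s) := by
    rw [← Finset.expect_const (box_nonempty (k := k) M.natDegree) (𝔼 y ∈ box k N, G y * H y)]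
    refine expect_congr rfl fun s hs => ?_
    have ht : (L * s).degree < N := by
      by_cases h0 : s = 0
      · simp [h0]
      · have := (natDegree_lt_iff_degree_lt h0).2 (mem_box.1 hs)
        rw [← natDegree_lt_iff_degree_lt (mul_ne_zero hL h0), natDegree_mul hL h0]
        omega
    rw [← exp_box_shift ht fun y => G y * H y]
    simp only [hG]
  rw [h1, expect_comm, expect_mul]
  refine expect_congr rfl fun y _ => ?_
  rw [← mul_expect, v_per hM H hH hc le_rfl y, v_per_one hM H hH (N := N) (by omega)]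

theorem v_rough_cop {z m : ℕ} {w e : k[X]} (hw : Rough z w) (he : e ∈ bset k z m) :
    IsCoprime w e := by
  obtain ⟨h1, -, -, h4⟩ := bset_spec he
  refine isCoprime_of_irreducible_dvd (fun h => h1.ne_zero h.2) fun p hp hd hd' => ?_
  exact absurd (hw p hp hd) (not_lt.2 (h4 p hp hd'))

theorem v_brun_mul {z : ℕ} (m : ℕ) {w : k[X]} (hw : Rough z w) (b : k[X]) :
    brun z m (w * b) = brun z m b := by
  unfold brun
  refine sum_congr rfl fun e he => if_congr ?_ rfl rfl
  exact ⟨fun h => (v_rough_cop hw he).symm.dvd_of_dvd_mul_left h, fun h => h.mul_left _⟩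

/-- The density is the same on every progression with a rough difference. -/
theorem v_brun_eq {z m N : ℕ} {w : k[X]} (hw : Rough z w) (hN : 4 * m * z ≤ N) (x h : k[X]) :
    𝔼 t ∈ box k N, brun z m (x + w * t) * brun z m (x + w * t + h) = v_W z m h := by
  unfold v_W brun
  simp only [sum_mul_sum, expect_sum_comm]
  refine sum_congr rfl fun e he => sum_congr rfl fun e' he' => ?_
  obtain ⟨a1, -, a3, -⟩ := bset_spec he
  obtain ⟨b1, -, b3, -⟩ := bset_spec he'
  have hd : (e * e').natDegree ≤ 4 * m * z := by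
    rw [a1.natDegree_mul b1, show 4 * m * z = 2 * m * z + 2 * m * z by ring]
    omega
  have hH : ∀ x s : k[X], (fun t => (if e ∣ t then lam e else 0) *
      (if e' ∣ t + h then lam e' else 0)) (x + e * e' * s) =
      (fun t => (if e ∣ t then lam e else 0) * (if e' ∣ t + h then lam e' else 0)) x := by
    intro x s
    have c1 : e ∣ x + e * e' * s ↔ e ∣ x := dvd_add_left ⟨e' * s, by ring⟩
    have c2 : e' ∣ x + e * e' * s + h ↔ e' ∣ x + h := by
      rw [add_right_comm]; exact dvd_add_left ⟨e * s, by ring⟩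
    simp only [c1, c2]
  rw [v_per_one (a1.mul b1).ne_zero _ hH hd]
  exact v_per (a1.mul b1).ne_zero
    (fun t => (if e ∣ t then lam e else 0) * (if e' ∣ t + h then lam e' else 0)) hH
    ((v_rough_cop hw he).mul_right (v_rough_cop hw he')) (hd.trans hN) x

theorem v_card {d : ℕ} (hd : d ≠ 0) : (d : ℝ) * #(prs k d) ≤ qq k ^ d := by
  have hS : ∀ p ∈ prs k d, p.Monic ∧ Irreducible p ∧ p.natDegree = d := fun p hp =>
    ⟨(mem_mon.1 (mem_filter.1 hp).1).1, (mem_filter.1 hp).2, (mem_mon.1 (mem_filter.1 hp).1).2⟩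
  have h1 : ∏ p ∈ prs k d, p ∣ (X ^ (Nat.card k) ^ d - X : k[X]) := by
    refine Finset.prod_dvd_of_coprime (fun p hp r hr hne => ?_) fun p hp =>
      (hS p hp).2.1.natDegree_dvd_iff_dvd_X_pow_card_pow_sub_X.1 (by rw [(hS p hp).2.2])
    refine (hS p hp).2.1.coprime_iff_not_dvd.2 fun h => hne ?_
    exact eq_of_monic_of_associated (hS p hp).1 (hS r hr).1
      ((hS p hp).2.1.associated_of_dvd (hS r hr).2.1 h)
  have h2 := natDegree_le_of_dvd h1
    (FiniteField.X_pow_card_pow_sub_X_ne_zero k hd Finite.one_lt_card)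
  rw [FiniteField.X_pow_card_pow_sub_X_natDegree_eq k hd Finite.one_lt_card,
    natDegree_prod_of_monic _ _ fun p hp => (hS p hp).1,
    sum_congr rfl fun p hp => (hS p hp).2.2, sum_const, smul_eq_mul, Nat.card_eq_fintype_card,
    mul_comm] at h2
  unfold qq
  exact_mod_cast h2

/-- The share of residues removed by the prime `p`. -/
def v_rm (h p : k[X]) : ℝ := (if p ∣ h then 1 else 2) / qq k ^ p.natDegree

theorem v_one {p : k[X]} (hp : p ≠ 0) (h : k[X]) {N : ℕ} (hN : p.natDegree ≤ N) :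
    1 - v_rm h p ≤ 𝔼 t ∈ box k N, (if ¬ p ∣ t ∧ ¬ p ∣ t + h then (1 : ℝ) else 0) := by
  have e1 := exp_box_dvd hp hN isCoprime_one_left 0
  have e2 := exp_box_dvd hp hN isCoprime_one_left h
  simp only [zero_add, one_mul, add_comm h] at e1 e2
  have e0 := Finset.expect_const (box_nonempty (k := k) N) (1 : ℝ)
  unfold v_rm
  split_ifs with c
  · rw [← e1]
    nth_rewrite 1 [← e0]
    rw [← expect_sub_distrib]
    refine expect_le_expect fun t _ => ?_
    have : p ∣ t + h ↔ p ∣ t := dvd_add_left c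
    by_cases c1 : p ∣ t <;> simp [c1, this]
  · rw [show (2 : ℝ) / qq k ^ p.natDegree = 1 / qq k ^ p.natDegree + 1 / qq k ^ p.natDegree by ring,
      ← sub_sub]
    nth_rewrite 2 [← e1]
    rw [← e2]
    nth_rewrite 1 [← e0]
    rw [← expect_sub_distrib, ← expect_sub_distrib]
    refine expect_le_expect fun t _ => ?_
    by_cases c1 : p ∣ t <;> by_cases c2 : p ∣ t + h <;> simp [c1, c2]

theorem v_prod {z : ℕ} (h : k[X]) (hr : ∀ p ∈ sp k z, v_rm h p ≤ 1) {S : Finset k[X]}
    (hS : S ⊆ sp k z) {N : ℕ} (hN : (∏ p ∈ S, p).natDegree ≤ N) :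
    ∏ p ∈ S, (1 - v_rm h p) ≤
      𝔼 t ∈ box k N, (if ∀ p ∈ S, ¬ p ∣ t ∧ ¬ p ∣ t + h then (1 : ℝ) else 0) := by
  induction S using Finset.induction_on with
  | empty => simp [Finset.expect_const (box_nonempty (k := k) N)]
  | insert a S ha ih =>
    have ha' := hS (mem_insert_self _ _)
    have h1 := mem_sp.1 ha'
    have hS' := (subset_insert a S).trans hS
    rw [prod_insert ha, h1.1.natDegree_mul (br_monic hS')] at hN
    have e : ∀ t : k[X], (if ∀ p ∈ insert a S, ¬ p ∣ t ∧ ¬ p ∣ t + h then (1 : ℝ) else 0) =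
        (if ¬ a ∣ t ∧ ¬ a ∣ t + h then (1 : ℝ) else 0) *
          (if ∀ p ∈ S, ¬ p ∣ t ∧ ¬ p ∣ t + h then (1 : ℝ) else 0) := fun t => by
      rw [ite_zero_mul_ite_zero, one_mul]
      exact if_congr (forall_mem_insert _ _ _) rfl rfl
    rw [prod_insert ha, expect_congr rfl fun t _ => e t,
      v_indep h1.1.ne_zero (br_monic hS').ne_zero
        (IsCoprime.prod_right fun p hp => br_cop ha' (hS' hp) fun e => ha (e ▸ hp)) _ _ ?_ ?_ hN]
    · exact mul_le_mul (v_one h1.1.ne_zero h (by omega)) (ih hS' (by omega))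
        (prod_nonneg fun p hp => sub_nonneg.2 (hr p (hS' hp)))
        (expect_nonneg fun _ _ => by positivity)
    · intro x s
      have c1 : a ∣ x + a * s ↔ a ∣ x := dvd_add_left (dvd_mul_right _ _)
      have c2 : a ∣ x + a * s + h ↔ a ∣ x + h := by
        rw [add_right_comm]; exact dvd_add_left (dvd_mul_right _ _)
      simp only [c1, c2]
    · intro x s
      refine if_congr (forall₂_congr fun p hp => ?_) rfl rfl
      have c0 : p ∣ (∏ p ∈ S, p) * s := (dvd_prod_of_mem _ hp).mul_right _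
      rw [dvd_add_left c0, add_right_comm, dvd_add_left c0]

theorem v_exp {x : ℝ} (h0 : 0 ≤ x) (h1 : x ≤ 2 / 3) : Real.exp (-(x + 3 * x ^ 2)) ≤ 1 - x := by
  have h := Real.add_one_le_exp (x + 3 * x ^ 2)
  rw [Real.exp_neg, inv_le_comm₀ (Real.exp_pos _) (by linarith)]
  refine le_trans ?_ h
  rw [inv_eq_one_div, div_le_iff₀ (by linarith)]
  nlinarith [mul_nonneg (mul_nonneg h0 h0) (by linarith : 0 ≤ 2 - 3 * x)]

theorem v_rem {h : k[X]} (hh : Fintype.card k = 2 → ∀ c : k, h.eval c = 0) {p : k[X]}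
    (hm : p.Monic) (hp : Irreducible p) :
    0 ≤ v_rm h p ∧ v_rm h p ≤ 2 / qq k ^ p.natDegree ∧ v_rm h p ≤ 2 / 3 := by
  have h2 := two_le_qq (k := k)
  have h0 : 0 < qq k ^ p.natDegree := by positivity
  have hd := hp.natDegree_pos
  have h3 : qq k ≤ qq k ^ p.natDegree := le_self_pow₀ (by linarith) hd.ne'
  unfold v_rm
  refine ⟨by positivity, by split_ifs <;> gcongr; norm_num, ?_⟩
  rw [div_le_iff₀ h0]
  split_ifs with c
  · linarith
  · by_cases hq : Fintype.card k = 2
    · have hd2 : 2 ≤ p.natDegree := by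
        by_contra hl
        have e := hm.eq_X_add_C (by omega)
        refine c ?_
        rw [e, ← sub_neg_eq_add, ← C_neg, dvd_iff_isRoot]
        exact hh hq _
      have : qq k ^ 2 ≤ qq k ^ p.natDegree := pow_le_pow_right₀ (by linarith) hd2
      nlinarith
    · have : (3 : ℝ) ≤ qq k := by
        unfold qq
        exact_mod_cast (by have := Fintype.one_lt_card (α := k); omega : 3 ≤ Fintype.card k)
      linarith

theorem v_sum {z : ℕ} (G : ℕ → ℝ) :
    ∑ p ∈ sp k z, G p.natDegree = ∑ i ∈ range z, (#(prs k (i + 1)) : ℝ) * G (i + 1) := by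
  unfold sp
  rw [sum_filter, sum_mle, sum_range_succ']
  have e0 : ∑ a ∈ mon k 0, (if Irreducible a then G a.natDegree else 0) = 0 :=
    sum_eq_zero fun a ha => if_neg fun hi => hi.natDegree_pos.ne' (mem_mon.1 ha).2
  rw [e0, add_zero]
  refine sum_congr rfl fun i _ => ?_
  rw [← sum_filter, sum_congr rfl (g := fun _ => G (i + 1)) fun a ha => by
    rw [(mem_mon.1 (mem_filter.1 ha).1).2], sum_const, nsmul_eq_mul]
  rfl

theorem v_geo (z : ℕ) : ∑ i ∈ range z, 1 / (2 : ℝ) ^ (i + 1) ≤ 1 - 1 / 2 ^ z := by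
  induction z with
  | zero => simp
  | succ z ih =>
    rw [sum_range_succ]
    have : 1 / (2 : ℝ) ^ z = 2 * (1 / 2 ^ (z + 1)) := by rw [pow_succ]; field_simp
    linarith

/-- Mertens' lower bound for the two-dimensional product. -/
theorem v_mertens {z : ℕ} (hz : 1 ≤ z) {h : k[X]}
    (hh : Fintype.card k = 2 → ∀ c : k, h.eval c = 0) :
    Real.exp (-14) / (z : ℝ) ^ 2 ≤ ∏ p ∈ sp k z, (1 - v_rm h p) := by
  have h2 := two_le_qq (k := k)
  have hz0 : (0 : ℝ) < z := by exact_mod_cast hz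
  have hr := fun p (hp : p ∈ sp k z) => v_rem hh (mem_sp.1 hp).1 (mem_sp.1 hp).2.1
  have h1 : ∑ p ∈ sp k z, (v_rm h p + 3 * v_rm h p ^ 2) ≤ 14 + 2 * Real.log z := by
    calc _ ≤ ∑ p ∈ sp k z, (2 / qq k ^ p.natDegree + 3 * (2 / qq k ^ p.natDegree) ^ 2) :=
          sum_le_sum fun p hp => by
            obtain ⟨a1, a2, -⟩ := hr p hp
            gcongr
      _ = ∑ i ∈ range z, (#(prs k (i + 1)) : ℝ) *
            (2 / qq k ^ (i + 1) + 3 * (2 / qq k ^ (i + 1)) ^ 2) :=
          v_sum fun d : ℕ => 2 / qq k ^ d + 3 * (2 / qq k ^ d) ^ 2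
      _ ≤ ∑ i ∈ range z, (2 * ((i + 1 : ℕ) : ℝ)⁻¹ + 12 * (1 / 2 ^ (i + 1))) := by
          refine sum_le_sum fun i _ => ?_
          have a1 := v_card (k := k) (Nat.succ_ne_zero i)
          have a2 : (2 : ℝ) ^ (i + 1) ≤ qq k ^ (i + 1) := by gcongr
          have a3 : (1 : ℝ) ≤ ((i + 1 : ℕ) : ℝ) := by exact_mod_cast Nat.succ_pos i
          have a4 : (0 : ℝ) ≤ #(prs k (i + 1)) := Nat.cast_nonneg _
          simp only [Nat.succ_eq_add_one] at a1
          generalize ((i + 1 : ℕ) : ℝ) = d at a1 a3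
          generalize (#(prs k (i + 1)) : ℝ) = π at a1 a4
          have a5 : (0 : ℝ) < 2 ^ (i + 1) := by positivity
          generalize (2 : ℝ) ^ (i + 1) = t at a2 a5
          generalize qq k ^ (i + 1) = Q at a1 a2
          have a6 : 0 < Q := by linarith
          have b1 : π * (2 / Q) ≤ 2 * d⁻¹ := by
            rw [← mul_div_assoc, ← div_eq_mul_inv, div_le_div_iff₀ a6 (by linarith)]
            nlinarith
          have b2 : π * (3 * (2 / Q) ^ 2) ≤ 12 * (1 / t) := by
            have c1 : π / Q ≤ 1 := by rw [div_le_one a6]; nlinarith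
            have c2 : 1 / Q ≤ 1 / t := by gcongr
            calc _ = 12 * (π / Q * (1 / Q)) := by ring
              _ ≤ 12 * (1 * (1 / t)) := by gcongr
              _ = _ := by ring
          linarith [mul_add π (2 / Q) (3 * (2 / Q) ^ 2)]
      _ ≤ _ := by
          rw [sum_add_distrib, ← mul_sum, ← mul_sum]
          have a1 := harmonic_le_one_add_log z
          have a2 : ((harmonic z : ℚ) : ℝ) = ∑ i ∈ range z, ((i + 1 : ℕ) : ℝ)⁻¹ := by
            simp [harmonic]
          have a3 := v_geo z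
          have a4 : (0 : ℝ) < 1 / 2 ^ z := by positivity
          linarith
  calc _ = Real.exp (-(14 + 2 * Real.log z)) := by
        rw [neg_add, Real.exp_add, Real.exp_neg (2 * _), two_mul, Real.exp_add, Real.exp_log hz0,
          div_eq_mul_inv, sq]
    _ ≤ Real.exp (∑ p ∈ sp k z, -(v_rm h p + 3 * v_rm h p ^ 2)) := by
        rw [sum_neg_distrib]
        exact Real.exp_le_exp.2 (neg_le_neg h1)
    _ ≤ _ := by
        rw [Real.exp_sum]
        exact prod_le_prod (fun _ _ => (Real.exp_pos _).le) fun p hp =>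
          v_exp (hr p hp).1 (hr p hp).2.2

/-- The lower bound for the density. -/
theorem v_ge {z : ℕ} (hz : 1 ≤ z) (m : ℕ) {h : k[X]}
    (hh : Fintype.card k = 2 → ∀ c : k, h.eval c = 0) :
    Real.exp (-14) / (z : ℝ) ^ 2 ≤ v_W z m h := by
  have h1 : Rough z (1 : k[X]) := fun p hp hd => absurd (isUnit_of_dvd_one hd) hp.not_isUnit
  rw [← v_brun_eq (N := 4 * m * z + (∏ p ∈ sp k z, p).natDegree) h1 (by omega) 0 h]
  refine (v_mertens hz hh).trans ((v_prod h (fun p hp => (v_rem hh (mem_sp.1 hp).1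
    (mem_sp.1 hp).2.1).2.2.trans (by norm_num)) subset_rfl (Nat.le_add_left _ _)).trans
    (expect_le_expect fun t _ => ?_))
  rw [zero_add, one_mul]
  split_ifs with c
  · rw [brun_of_rough m (rough_iff.2 fun p hp => (c p hp).1),
      brun_of_rough m (rough_iff.2 fun p hp => (c p hp).2), mul_one]
  · exact mul_nonneg (brun_nonneg _ _ _) (brun_nonneg _ _ _)

theorem v_eq {z u m : ℕ} (F : k[X]) (hm : 4 * u * z ≤ m) : VV z u F m = v_W z u (-F) := by
  have h1 : Rough z (1 : k[X]) := fun p hp hd => absurd (isUnit_of_dvd_one hd) hp.not_isUnit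
  have h2 : Rough z (-1 : k[X]) := fun p hp hd => h1 p hp (dvd_neg.1 hd)
  rw [← v_brun_eq h1 hm (X ^ m) (-F), box_exp, VV, box_sum_mon]
  congr 1
  refine sum_congr rfl fun y _ => ?_
  rw [one_mul, mul_comm, ← v_brun_mul u h2 (F - _)]
  congr 2
  ring

theorem vv_ge {z u m : ℕ} {F : k[X]} (hF : Even2 k F) (hz : 1 ≤ z) (hm : 4 * u * z ≤ m) :
    Real.exp (-20) / (z : ℝ) ^ 2 ≤ VV z u F m := by
  rw [v_eq F hm]
  refine le_trans (by gcongr; norm_num) (v_ge hz u fun hq c => ?_)
  obtain ⟨G, rfl⟩ := hF hq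
  have h1 := FiniteField.pow_card c
  have h2 := FiniteField.cast_card_eq_zero k
  rw [hq] at h1 h2
  simp only [eval_neg, eval_mul, eval_add, eval_X, eval_one]
  push_cast at h2
  linear_combination (-eval c G) * h1 - eval c G * c * h2


theorem vv_le (z u : ℕ) {n m : ℕ} {F : k[X]} (hmn : m ≤ n) (hn : n ≤ m + 1)
    (hF : ∀ g ∈ mon k m, F - g ∈ mon k n) : VV z u F m ≤ qq k * ((n : ℝ) + 1) ^ 4 := by
  have h2 := two_le_qq (k := k)
  have h0 : 0 < qq k ^ m := by positivity
  have hn0 : (0 : ℝ) ≤ n := Nat.cast_nonneg _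
  have a1 : ∑ g ∈ mon k m, nd g ^ 2 ≤ ((n : ℝ) + 1) ^ 3 * qq k ^ m :=
    (sum_nd_pow 2 m).trans (by norm_num; gcongr)
  have a2 : ∑ g ∈ mon k m, nd (F - g) ^ 2 ≤ ((n : ℝ) + 1) ^ 3 * (qq k * qq k ^ m) := by
    rw [← sum_image (g := fun g => F - g) (f := fun f => nd f ^ 2)
      fun _ _ _ _ h => sub_right_injective h, ← pow_succ']
    refine (sum_le_sum_of_subset_of_nonneg (t := mon k n) (fun f hf => ?_)
      fun _ _ _ => sq_nonneg _).trans ((sum_nd_pow 2 n).trans ?_)
    · obtain ⟨g, hg, rfl⟩ := mem_image.1 hf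
      exact hF g hg
    · norm_num
      gcongr
      linarith
  have a3 : ∑ g ∈ mon k m, brun z u (F - g) * brun z u g ≤
      ∑ g ∈ mon k m, (nd (F - g) ^ 2 + nd g ^ 2) * (1 / 2) := by
    refine sum_le_sum fun g hg => ?_
    have := mul_le_mul (brun_le_nd z u (mem_mon.1 (hF g hg)).1.ne_zero)
      (brun_le_nd z u (mem_mon.1 hg).1.ne_zero) (brun_nonneg _ _ _) (nd_nonneg _)
    nlinarith [sq_nonneg (nd (F - g) - nd g)]
  rw [← sum_mul, sum_add_distrib] at a3
  rw [VV, div_le_iff₀ h0]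
  have a4 : 0 ≤ ((n : ℝ) + 1) ^ 3 * qq k ^ m := by positivity
  have a5 : ((n : ℝ) + 1) ^ 3 * qq k ^ m * qq k * 1 ≤
      ((n : ℝ) + 1) ^ 3 * qq k ^ m * qq k * (n + 1) := by gcongr; linarith
  nlinarith [mul_le_mul_of_nonneg_left (by linarith : 1 ≤ qq k) a4]


end Pool.Agent.HGB
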