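import Pool.Agent.MP_b5e119_nt.GB.TPair
import Pool.Agent.MP_b5e119_nt.GB.TBad
import Pool.Agent.MP_b5e119_nt.GB.TV

set_option autoImplicit false

open Polynomial Finset Filter
open scoped Classical BigOperators

noncomputable section
namespace Pool.Agent.HGB
open Pool.Agent.MP_a4a062_nt.C2

section
variable {k : Type*} [Field k] [Fintype k]

theorem md_one {i n : ℕ} {a f : k[X]} (ha : a ∈ mon k i) (hf : f ∈ mon k n) (hi : i ≤ n) (x : ℝ) :
    ∑ b ∈ mon k (n - i), (if a * b = f then x else 0) = if a ∣ f then x else 0 := by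
  obtain ⟨a1, a2⟩ := mem_mon.1 ha
  obtain ⟨f1, f2⟩ := mem_mon.1 hf
  split_ifs with h
  · obtain ⟨b, rfl⟩ := h
    have b1 : b.Monic := a1.of_mul_monic_left f1
    rw [a1.natDegree_mul b1] at f2
    rw [sum_eq_single b, if_pos rfl]
    · exact fun c _ hc => if_neg fun e => hc (mul_left_cancel₀ a1.ne_zero e)
    · exact fun hb => absurd (mem_mon.2 ⟨b1, by omega⟩) hb
  · exact sum_eq_zero fun b _ => if_neg fun e => h ⟨b, e.symm⟩

theorem md_img {j m : ℕ} {c : k[X]} (hc : c ∈ mon k j) (hj : j ≤ m) (H : k[X] → ℝ) :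
    ∑ d ∈ mon k (m - j), H (c * d) = ∑ g ∈ mon k m, if c ∣ g then H g else 0 := by
  rw [sum_congr rfl fun g hg => (md_one hc hg hj (H g)).symm, sum_comm]
  refine sum_congr rfl fun d hd => ?_
  obtain ⟨c1, c2⟩ := mem_mon.1 hc
  obtain ⟨d1, d2⟩ := mem_mon.1 hd
  rw [sum_ite_eq, if_pos (mem_mon.2 ⟨c1.mul d1, by rw [c1.natDegree_mul d1]; omega⟩)]

/-- The sums over quadruples as sums over `a`, `c` and `g = c d`. -/
theorem md_S4 {F : k[X]} {n m i j : ℕ} (hF : ∀ g ∈ mon k m, F - g ∈ mon k n) (hi : i ≤ n)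
    (hj : j ≤ m) (G : k[X] → k[X] → k[X] → ℝ) :
    S4 F i (n - i) j (m - j) (fun a _ c d => G a c (c * d)) =
      ∑ a ∈ mon k i, ∑ c ∈ mon k j, ∑ g ∈ mon k m, if a ∣ F - g ∧ c ∣ g then G a c g else 0 := by
  unfold S4
  refine sum_congr rfl fun a ha => ?_
  rw [sum_comm]
  refine sum_congr rfl fun c hc => ?_
  rw [sum_comm]
  have e := md_img hc hj fun g => if a ∣ F - g then G a c g else 0
  simp only [← ite_and] at e
  rw [sum_congr rfl fun g _ => if_congr and_comm rfl rfl, ← e]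
  refine sum_congr rfl fun d hd => ?_
  obtain ⟨c1, c2⟩ := mem_mon.1 hc
  obtain ⟨d1, d2⟩ := mem_mon.1 hd
  rw [← md_one ha (hF _ (mem_mon.2 ⟨c1.mul d1, by rw [c1.natDegree_mul d1]; omega⟩)) hi]
  exact sum_congr rfl fun b _ => if_congr eq_sub_iff_add_eq.symm rfl rfl

omit [Fintype k] in
theorem md_rho (z : ℕ) (f : k[X]) : 0 ≤ rho z f ∧ rho z f ≤ 1 := by
  unfold rho; split_ifs <;> norm_num

theorem md_mu (f : k[X]) : |mu f| ≤ 1 := by
  unfold mu; split_ifs <;> simp [abs_lam]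

theorem md_al (z : ℕ) (f : k[X]) : |rho z f * mu f| ≤ rho z f := by
  rw [abs_mul, abs_of_nonneg (md_rho z f).1]
  exact mul_le_of_le_one_right (md_rho z f).1 (md_mu f)

omit [Fintype k] in
theorem md_rho_mul (z : ℕ) (a b : k[X]) : rho z a * rho z b = rho z a * rho z (a * b) := by
  unfold rho
  by_cases h : Rough z a <;> simp [h, rough_mul]

/-- The coprime part of the cell sum with weight `w`. -/
def md_T (z : ℕ) (F : k[X]) (m i j : ℕ) (w : k[X] → ℝ) : ℝ :=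
  ∑ a ∈ mon k i, ∑ c ∈ mon k j, ∑ g ∈ mon k m, if a ∣ F - g ∧ c ∣ g then
    (if IsCoprime a c then rho z a * mu a * (rho z c * mu c) else 0) * (w (F - g) * w g) else 0

theorem md_B {F : k[X]} {n m i j : ℕ} (z : ℕ) (hF : ∀ g ∈ mon k m, F - g ∈ mon k n) (hi : i ≤ n)
    (hj : j ≤ m) : |TT z F i (n - i) j (m - j) - md_T z F m i j (rho z)| ≤
      BAD z F i (n - i) j (m - j) := by
  unfold md_T
  rw [← md_S4 hF hi hj]
  unfold TT BAD S4
  simp only [← sum_sub_distrib]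
  refine (abs_sum_le_sum_abs _ _).trans (sum_le_sum fun a _ => (abs_sum_le_sum_abs _ _).trans
    (sum_le_sum fun b _ => (abs_sum_le_sum_abs _ _).trans (sum_le_sum fun c _ =>
      (abs_sum_le_sum_abs _ _).trans (sum_le_sum fun d _ => ?_))))
  have ra := md_rho z a
  have rb := md_rho z b
  have rc := md_rho z c
  have rd := md_rho z d
  have h0 : 0 ≤ rho z a * rho z b * rho z c * rho z d :=
    mul_nonneg (mul_nonneg (mul_nonneg ra.1 rb.1) rc.1) rd.1
  by_cases e : a * b + c * d = F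
  · simp only [if_pos e]
    by_cases h : IsCoprime a c
    · rw [if_pos h, ← e, add_sub_cancel_right,
        show rho z a * mu a * (rho z c * mu c) * (rho z (a * b) * rho z (c * d)) =
          rho z a * rho z (a * b) * (rho z c * rho z (c * d)) * (mu a * mu c) by ring,
        ← md_rho_mul, ← md_rho_mul, ← mul_assoc (rho z a * rho z b), sub_self, abs_zero]
      exact mul_nonneg h0 (by split_ifs <;> norm_num)
    · rw [if_neg h, zero_mul, sub_zero, if_neg fun hh => h hh.2.2.of_mul_left_left.of_mul_right_left,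
        abs_mul, abs_of_nonneg h0, abs_mul]
      exact mul_le_mul_of_nonneg_left (mul_le_one₀ (md_mu a) (abs_nonneg _) (md_mu c)) h0
  · simp [e]

theorem md_cnt {i : ℕ} {f : k[X]} (hf : f ≠ 0) :
    ∑ a ∈ mon k i, (if a ∣ f then (1 : ℝ) else 0) ≤ nd f := by
  rw [sum_boole]
  unfold nd
  exact_mod_cast card_le_card fun a ha =>
    (mem_dv hf).2 ⟨(mem_mon.1 (mem_filter.1 ha).1).1, (mem_filter.1 ha).2⟩

theorem md_pow {F : k[X]} {n m : ℕ} (hF : ∀ g ∈ mon k m, F - g ∈ mon k n) (j : ℕ) :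
    ∑ g ∈ mon k m, nd (F - g) ^ j ≤ ((n : ℝ) + 1) ^ (2 ^ j - 1) * qq k ^ n := by
  rw [← sum_image (g := fun g => F - g) (f := fun f => nd f ^ j)
    fun _ _ _ _ h => sub_right_injective h]
  refine (sum_le_sum_of_subset_of_nonneg (t := mon k n) (fun f hf => ?_)
    fun _ _ _ => pow_nonneg (nd_nonneg _) _).trans (sum_nd_pow j n)
  obtain ⟨g, hg, rfl⟩ := mem_image.1 hf
  exact hF g hg

/-- Brun's swap. -/
theorem md_C {F : k[X]} {n m : ℕ} (z u i j : ℕ) (hF : ∀ g ∈ mon k m, F - g ∈ mon k n)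
    (hmn : m ≤ n) : |md_T z F m i j (rho z) - md_T z F m i j (brun z u)| ≤
      2 * ((n : ℝ) + 1) ^ 63 * qq k ^ n / 4 ^ u := by
  have h2 := two_le_qq (k := k)
  unfold md_T
  simp only [← sum_sub_distrib]
  calc _ ≤ ∑ a ∈ mon k i, ∑ c ∈ mon k j, ∑ g ∈ mon k m, (if a ∣ F - g then (1 : ℝ) else 0) *
          (if c ∣ g then (1 : ℝ) else 0) *
          |rho z (F - g) * rho z g - brun z u (F - g) * brun z u g| := by
        refine (abs_sum_le_sum_abs _ _).trans (sum_le_sum fun a _ => (abs_sum_le_sum_abs _ _).trans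
          (sum_le_sum fun c _ => (abs_sum_le_sum_abs _ _).trans (sum_le_sum fun g _ => ?_)))
        by_cases h : a ∣ F - g ∧ c ∣ g
        · rw [if_pos h, if_pos h, if_pos h.1, if_pos h.2, ← mul_sub, abs_mul, mul_one]
          refine mul_le_mul_of_nonneg_right ?_ (abs_nonneg _)
          split_ifs
          · rw [abs_mul]
            exact mul_le_one₀ ((md_al z a).trans (md_rho z a).2) (abs_nonneg _)
              ((md_al z c).trans (md_rho z c).2)
          · simp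
        · rw [if_neg h, if_neg h, sub_self, abs_zero]
          positivity
    _ = ∑ g ∈ mon k m, (∑ a ∈ mon k i, if a ∣ F - g then (1 : ℝ) else 0) *
          (∑ c ∈ mon k j, if c ∣ g then (1 : ℝ) else 0) *
          |rho z (F - g) * rho z g - brun z u (F - g) * brun z u g| := by
        simp only [sum_mul_sum]
        simp only [sum_mul]
        rw [sum_congr rfl fun a _ => sum_comm, sum_comm]
    _ ≤ ∑ g ∈ mon k m, (nd (F - g) ^ 6 + nd g ^ 6) / 4 ^ u := by
        refine sum_le_sum fun g hg => ?_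
        have f0 := (mem_mon.1 (hF g hg)).1.ne_zero
        have g0 := (mem_mon.1 hg).1.ne_zero
        have a1 : |brun z u (F - g) - rho z (F - g)| ≤ _ := abs_brun_sub_le z u f0
        have a2 : |brun z u g - rho z g| ≤ _ := abs_brun_sub_le z u g0
        have a3 := brun_le_nd z u g0
        have a4 := brun_nonneg z u g
        have a5 := md_rho z (F - g)
        have x1 := one_le_nd (F - g)
        have y1 := one_le_nd g
        have b : |rho z (F - g) * rho z g - brun z u (F - g) * brun z u g| ≤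
            nd (F - g) ^ 2 / 4 ^ u * nd g + 1 * (nd g ^ 2 / 4 ^ u) := by
          rw [abs_sub_comm, show brun z u (F - g) * brun z u g - rho z (F - g) * rho z g =
            (brun z u (F - g) - rho z (F - g)) * brun z u g +
              rho z (F - g) * (brun z u g - rho z g) by ring]
          refine (abs_add_le _ _).trans ?_
          rw [abs_mul, abs_mul, abs_of_nonneg a4, abs_of_nonneg a5.1]
          gcongr
          exact a5.2
        refine (mul_le_mul (mul_le_mul (md_cnt f0) (md_cnt g0)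
          (sum_nonneg fun _ _ => by positivity) (by linarith)) b (abs_nonneg _)
          (by positivity)).trans ?_
        generalize nd (F - g) = x at x1
        generalize nd g = y at y1
        have c1 : x ^ 3 * y ^ 2 ≤ x ^ 3 * y ^ 3 := by gcongr; norm_num
        have c2 : x ^ 1 * y ^ 3 ≤ x ^ 3 * y ^ 3 := by gcongr; norm_num
        rw [show x * y * (x ^ 2 / 4 ^ u * y + 1 * (y ^ 2 / 4 ^ u)) =
          (x ^ 3 * y ^ 2 + x ^ 1 * y ^ 3) / 4 ^ u by ring]
        gcongr ?_ / _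
        nlinarith [sq_nonneg (x ^ 3 - y ^ 3)]
    _ ≤ _ := by
        rw [← sum_div, sum_add_distrib]
        have a1 := md_pow hF 6
        have a2 : ∑ g ∈ mon k m, nd g ^ 6 ≤ ((n : ℝ) + 1) ^ 63 * qq k ^ n :=
          (sum_nd_pow 6 m).trans (by norm_num; gcongr; linarith)
        norm_num at a1
        gcongr ?_ / _
        linarith

theorem md_cop {z u : ℕ} {w e : k[X]} (hw : Rough z w) (he : e ∈ bset k z u) : IsCoprime w e := by
  obtain ⟨h1, -, -, h4⟩ := bset_spec he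
  refine isCoprime_of_irreducible_dvd (fun h => h1.ne_zero h.2) fun p hp hd hd' => ?_
  exact absurd (hw p hp hd) (not_lt.2 (h4 p hp hd'))

theorem md_exp (z u : ℕ) (F : k[X]) (m : ℕ) {a c : k[X]} (ha : Rough z a) (hc : Rough z c) :
    ∑ g ∈ mon k m, (if a ∣ F - g ∧ c ∣ g then brun z u (F - g) * brun z u g else 0) =
      ∑ r ∈ bset k z u, ∑ s ∈ bset k z u, lam r * lam s * cn F m (a * r) (c * s) := by
  unfold brun cn
  simp only [sum_mul_sum]
  simp only [card_filter, Nat.cast_sum, mul_sum]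
  rw [sum_congr rfl fun r _ => sum_comm, sum_comm]
  refine sum_congr rfl fun g _ => ?_
  by_cases h : a ∣ F - g ∧ c ∣ g
  · rw [if_pos h]
    refine sum_congr rfl fun r hr => sum_congr rfl fun s hs => ?_
    have e1 : a * r ∣ F - g ↔ r ∣ F - g :=
      ⟨fun e => (dvd_mul_left _ _).trans e, (md_cop ha hr).mul_dvd h.1⟩
    have e2 : c * s ∣ g ↔ s ∣ g := ⟨fun e => (dvd_mul_left _ _).trans e, (md_cop hc hs).mul_dvd h.2⟩
    by_cases c1 : r ∣ F - g <;> by_cases c2 : s ∣ g <;> simp [e1, e2, c1, c2]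
  · rw [if_neg h]
    refine (sum_eq_zero fun r _ => sum_eq_zero fun s _ => ?_).symm
    rw [if_neg fun e => h ⟨(dvd_mul_right _ _).trans e.1, (dvd_mul_right _ _).trans e.2⟩]
    simp

omit [Fintype k] in
theorem md_ne {z : ℕ} {a : k[X]} (h : rho z a * mu a ≠ 0) : Rough z a ∧ Squarefree a := by
  unfold rho mu at h
  by_contra hc
  by_cases c1 : Rough z a <;> by_cases c2 : Squarefree a <;> simp_all

/-- Expansion of Brun's weights. -/
theorem md_D (z u : ℕ) (F : k[X]) (m i j : ℕ) : md_T z F m i j (brun z u) - qq k ^ m * VV z u F m *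
      ((∑ a ∈ mon k i, ∑ c ∈ mon k j,
        if IsCoprime a c then rho z a * mu a * (rho z c * mu c) else 0) / qq k ^ (i + j)) =
    ∑ r ∈ bset k z u, ∑ s ∈ bset k z u, lam r * lam s * ∑ a ∈ mon k i, ∑ c ∈ mon k j,
      if IsCoprime a c then rho z a * mu a * (rho z c * mu c) *
        (cn F m (a * r) (c * s) - cn F m r s / qq k ^ (i + j)) else 0 := by
  have h2 := two_le_qq (k := k)
  have h1 : Rough z (1 : k[X]) := fun p hp hd => absurd (isUnit_of_dvd_one hd) hp.not_isUnit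
  have e := md_exp z u F m h1 h1
  simp only [one_dvd, and_self, if_true, one_mul] at e
  rw [VV, mul_div_cancel₀ _ (by positivity), e, md_T]
  have c4 : ∀ H : k[X] → k[X] → k[X] → k[X] → ℝ,
      ∑ r ∈ bset k z u, ∑ s ∈ bset k z u, ∑ a ∈ mon k i, ∑ c ∈ mon k j, H r s a c =
        ∑ a ∈ mon k i, ∑ c ∈ mon k j, ∑ r ∈ bset k z u, ∑ s ∈ bset k z u, H r s a c := fun H => by
    rw [sum_congr rfl fun r _ => sum_comm, sum_comm]
    refine sum_congr rfl fun a _ => ?_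
    rw [sum_congr rfl fun r _ => sum_comm, sum_comm]
  simp only [mul_sum (s := mon k i), mul_sum (s := mon k j), sum_div]
  rw [c4, ← sum_sub_distrib]
  refine sum_congr rfl fun a _ => ?_
  rw [← sum_sub_distrib]
  refine sum_congr rfl fun c _ => ?_
  by_cases h : IsCoprime a c ∧ rho z a * mu a ≠ 0 ∧ rho z c * mu c ≠ 0
  · simp only [if_pos h.1, ← mul_ite_zero _ (rho z a * mu a * (rho z c * mu c))]
    rw [← mul_sum, md_exp z u F m (md_ne h.2.1).1 (md_ne h.2.2).1]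
    simp only [mul_sum, sum_mul, ← sum_sub_distrib]
    exact sum_congr rfl fun r _ => sum_congr rfl fun s _ => by ring
  · by_cases c1 : IsCoprime a c
    · have : rho z a * mu a * (rho z c * mu c) = 0 := by
        by_contra h0
        exact h ⟨c1, left_ne_zero_of_mul h0, right_ne_zero_of_mul h0⟩
      simp [this]
    · simp [c1]

theorem md_E (z i j : ℕ) : |(∑ a ∈ mon k i, ∑ c ∈ mon k j,
      if IsCoprime a c then rho z a * mu a * (rho z c * mu c) else 0) / qq k ^ (i + j) -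
      mm k z i * mm k z j| ≤ 1 / qq k ^ z := by
  have h2 := two_le_qq (k := k)
  have h0 : 0 < qq k ^ (i + j) := by positivity
  unfold mm
  rw [div_mul_div_comm, ← pow_add, ← sub_div, abs_div, abs_of_pos h0, div_le_iff₀ h0,
    sum_mul_sum, one_div_mul_eq_div]
  simp only [← sum_sub_distrib]
  refine le_trans ((abs_sum_le_sum_abs _ _).trans (sum_le_sum fun a _ =>
    (abs_sum_le_sum_abs _ _).trans (sum_le_sum fun c _ => ?_))) (cop_le z i j)
  split_ifs
  · simp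
  · rw [zero_sub, abs_neg, abs_mul]
    exact mul_le_mul (md_al z a) (md_al z c) (abs_nonneg _) (md_rho z a).1

theorem md_num (q : ℝ) : ∀ᶠ t : ℕ in atTop, ∀ m : ℕ, m ≤ (t + 1) ^ 10 →
    8 * q * ((m : ℝ) + 5) ^ 68 ≤ 2 ^ t := by
  have h := (tendsto_pow_const_div_const_pow_of_one_lt 680 (one_lt_two (α := ℝ))).const_mul
    (8 * |q| * 2048 ^ 68)
  rw [mul_zero] at h
  filter_upwards [h.eventually (ge_mem_nhds one_pos), eventually_ge_atTop 1] with t ht h1 m hm
  have a1 : (1 : ℝ) ≤ t := by exact_mod_cast h1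
  have a2 : (m : ℝ) ≤ (2 * t) ^ 10 :=
    le_trans (by exact_mod_cast hm : (m : ℝ) ≤ ((t : ℝ) + 1) ^ 10) (by gcongr; linarith)
  have a3 : (1 : ℝ) ≤ (t : ℝ) ^ 10 := one_le_pow₀ a1
  have a4 : (m : ℝ) + 5 ≤ 2048 * (t : ℝ) ^ 10 := by rw [mul_pow] at a2; norm_num at a2; linarith
  rw [← mul_div_assoc, div_le_one (by positivity)] at ht
  calc _ ≤ 8 * |q| * (2048 * (t : ℝ) ^ 10) ^ 68 := by gcongr; exact le_abs_self q
    _ = 8 * |q| * 2048 ^ 68 * (t : ℝ) ^ 680 := by rw [mul_pow, ← pow_mul, mul_assoc (8 * _)]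
    _ ≤ _ := ht

theorem md_par {t κ m : ℕ} (hκ : 0 < κ) (t9 : 9 ≤ t) (tκ : 7 * κ ≤ t) (m1 : t ^ 10 ≤ m)
    (m2 : m ≤ (t + 1) ^ 10) : t ≤ m ∧ t ≤ t ^ 7 ∧ 2 * t * t ^ 7 ≤ m / κ ∧
      2 * t * t ^ 7 + 1 + (2 * t * t ^ 7 + 1 + (m - m / κ)) + t ≤ m ∧
      2 * ((m + 1) / t ^ 7) + t ≤ t ^ 7 := by
  have p1 : t ≤ t ^ 10 := Nat.le_self_pow (by norm_num) t
  have p2 : t ≤ t ^ 7 := Nat.le_self_pow (by norm_num) t
  have p3 : t ≤ t ^ 8 := Nat.le_self_pow (by norm_num) t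
  have p4 : 7 * t ^ 8 ≤ m / κ := by
    rw [Nat.le_div_iff_mul_le hκ]
    refine le_trans ?_ m1
    calc 7 * t ^ 8 * κ = t ^ 8 * (7 * κ) * 1 := by ring
      _ ≤ t ^ 8 * t * t := by gcongr; omega
      _ = _ := by ring
  have p5 : m / κ ≤ m := Nat.div_le_self _ _
  have p6 : (m + 1) / t ^ 7 ≤ 2048 * t ^ 3 := by
    refine Nat.div_le_of_le_mul ?_
    have : (t + 1) ^ 10 ≤ (2 * t) ^ 10 := by gcongr; omega
    rw [mul_pow] at this
    rw [show t ^ 7 * (2048 * t ^ 3) = 2048 * t ^ 10 by ring]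
    omega
  have a1 : t ≤ t ^ 3 := Nat.le_self_pow (by norm_num) t
  have a2 : 9 ^ 4 * t ^ 3 ≤ t ^ 4 * t ^ 3 := by gcongr
  rw [← pow_add] at a2
  norm_num at a2
  rw [show 2 * t * t ^ 7 = 2 * t ^ 8 by ring]
  omega

theorem md_fin {q T T₁ T₂ S M V : ℝ} (h2 : 2 ≤ q) {t z m n e w : ℕ} (hm : 0 < m) (hn : n ≤ m + 1)
    (p2 : t ≤ z) (p3 : e + (e + w) + t ≤ m) (p7 : 2 * ((m + 1) / z) + t ≤ z)
    (hP : 8 * q * ((m : ℝ) + 5) ^ 68 ≤ 2 ^ t)
    (eB : |T - T₁| ≤ ((m : ℝ) + 5) * 4 ^ ((m + 1) / z) * q ^ (m + 1) / q ^ z)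
    (eC : |T₁ - T₂| ≤ 2 * ((n : ℝ) + 1) ^ 63 * q ^ n / 4 ^ t)
    (eD : |T₂ - q ^ m * V * S| ≤ q ^ e * (q ^ e * q ^ w)) (eE : |S - M| ≤ 1 / q ^ z) (v0 : 0 ≤ V)
    (v1 : V ≤ q * ((n : ℝ) + 1) ^ 4) : |T - q ^ m * V * M| ≤ q ^ m / (m : ℝ) ^ 5 := by
  have n1 : (n : ℝ) + 1 ≤ m + 5 := by exact_mod_cast (by omega : n + 1 ≤ m + 5)
  have m0 : (0 : ℝ) < m := by exact_mod_cast hm
  have q1 : 0 < q := by linarith
  have q0 : 0 < q ^ m := by positivity
  have b1 : (1 : ℝ) ≤ m + 5 := by linarith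
  have key : ∀ x : ℝ, x ≤ 2 * q * ((m : ℝ) + 5) ^ 63 * q ^ m / 2 ^ t →
      x ≤ q ^ m / (m : ℝ) ^ 5 / 4 := fun x hx => by
    refine hx.trans ?_
    rw [div_div, div_le_div_iff₀ (by positivity) (by positivity)]
    calc _ ≤ 2 * q * ((m : ℝ) + 5) ^ 63 * q ^ m * (((m : ℝ) + 5) ^ 5 * 4) := by
          gcongr; linarith
      _ = q ^ m * (8 * q * (((m : ℝ) + 5) ^ 63 * ((m : ℝ) + 5) ^ 5)) := by
          generalize (m : ℝ) + 5 = x; ring
      _ ≤ _ := by rw [← pow_add]; gcongr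
  have b63 : ∀ e : ℕ, e ≤ 63 → ((m : ℝ) + 5) ^ e ≤ ((m : ℝ) + 5) ^ 63 := fun e he =>
    pow_le_pow_right₀ b1 he
  generalize (m : ℝ) + 5 = x at *
  have k1 := key _ (eB.trans (by
    have a1 : (4 : ℝ) ^ ((m + 1) / z) * 2 ^ t ≤ q ^ z := by
      rw [show (4 : ℝ) = 2 ^ 2 by norm_num, ← pow_mul, ← pow_add]
      exact (pow_le_pow_right₀ one_le_two p7).trans (by gcongr)
    have a2 := b63 1 (by norm_num)
    rw [div_le_div_iff₀ (by positivity) (by positivity)]
    calc _ = 1 * q * x ^ 1 * q ^ m * (4 ^ ((m + 1) / z) * 2 ^ t) := by ring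
      _ ≤ _ := by gcongr; norm_num))
  have k2 := key _ (eC.trans (by
    have a1 : q ^ n ≤ q * q ^ m := by
      rw [← pow_succ']; exact pow_le_pow_right₀ (by linarith) hn
    calc _ ≤ 2 * x ^ 63 * (q * q ^ m) / 2 ^ t := by gcongr; norm_num
      _ = _ := by ring))
  have k3 := key _ (eD.trans (by
    have a1 := b63 0 (by norm_num)
    rw [le_div_iff₀ (by positivity)]
    calc _ ≤ q ^ e * (q ^ e * q ^ w) * q ^ t := by gcongr
      _ ≤ q ^ m := by
          rw [← pow_add, ← pow_add, ← pow_add]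
          exact pow_le_pow_right₀ (by linarith) p3
      _ = 1 * 1 * x ^ 0 * q ^ m := by ring
      _ ≤ _ := by gcongr <;> linarith))
  have k4 := key (q ^ m * V * (1 / q ^ z)) (by
    have a1 : (2 : ℝ) ^ t ≤ q ^ z := (pow_le_pow_right₀ one_le_two p2).trans (by gcongr)
    have a2 := b63 4 (by norm_num)
    calc _ ≤ q ^ m * (q * x ^ 4) * (1 / 2 ^ t) := by
          gcongr
          exact v1.trans (by gcongr)
      _ = 1 * q * x ^ 4 * q ^ m / 2 ^ t := by ring
      _ ≤ _ := by gcongr; norm_num)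
  have k5 := (mul_le_mul_of_nonneg_left eE (mul_nonneg q0.le v0)).trans k4
  rw [← abs_of_nonneg (mul_nonneg q0.le v0), ← abs_mul, mul_sub] at k5
  have k6 := abs_sub_le T T₁ (q ^ m * V * M)
  have k7 := abs_sub_le T₁ T₂ (q ^ m * V * M)
  have k8 := abs_sub_le T₂ (q ^ m * V * S) (q ^ m * V * M)
  linarith

theorem md_F {z u m i j w : ℕ} {F : k[X]} (hP : ∀ r ∈ bset k z u, ∀ s ∈ bset k z u,
      |∑ a ∈ mon k i, ∑ c ∈ mon k j, if IsCoprime a c then rho z a * mu a * (rho z c * mu c) *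
        (cn F m (a * r) (c * s) - cn F m r s / qq k ^ (i + j)) else 0| ≤ qq k ^ w) :
    |md_T z F m i j (brun z u) - qq k ^ m * VV z u F m * ((∑ a ∈ mon k i, ∑ c ∈ mon k j,
        if IsCoprime a c then rho z a * mu a * (rho z c * mu c) else 0) / qq k ^ (i + j))| ≤
      qq k ^ (2 * u * z + 1) * (qq k ^ (2 * u * z + 1) * qq k ^ w) := by
  have h2 := two_le_qq (k := k)
  have hc := card_bset (k := k) z u
  rw [md_D]
  refine (abs_sum_le_sum_abs _ _).trans ((sum_le_card_nsmul _ _ _ fun r hr =>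
    (abs_sum_le_sum_abs _ _).trans ((sum_le_card_nsmul _ _ (qq k ^ w)
      fun s hs => ?_).trans (?_ : _ ≤ qq k ^ (2 * u * z + 1) * qq k ^ w))).trans ?_)
  · rw [abs_mul, abs_mul, abs_lam, abs_lam, one_mul, one_mul]
    exact hP r hr s hs
  · rw [nsmul_eq_mul]; gcongr
  · rw [nsmul_eq_mul]; gcongr

theorem model (h : HIV k) : ∃ κ : ℕ, 0 < κ ∧ ∀ᶠ t in atTop, ∀ (m n : ℕ) (F : k[X]) (i j : ℕ),
    t ^ 10 ≤ m → m ≤ (t + 1) ^ 10 → F ≠ 0 → m ≤ n → n ≤ m + 1 →
    (∀ g ∈ mon k m, F - g ∈ mon k n) → i ≤ n → j ≤ m →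
    i ≤ j + m / κ → j ≤ i + m / κ → i + j ≤ m + m / κ →
    |TT (t ^ 7) F i (n - i) j (m - j) -
        qq k ^ m * VV (t ^ 7) t F m * (mm k (t ^ 7) i * mm k (t ^ 7) j)|
      ≤ qq k ^ m / (m : ℝ) ^ 5 := by
  obtain ⟨κ, hκ, hP⟩ := pair_le h
  obtain ⟨m₀, hQ⟩ := eventually_atTop.1 hP
  refine ⟨κ, hκ, ?_⟩
  filter_upwards [md_num (qq k), eventually_ge_atTop m₀, eventually_ge_atTop 9,
    eventually_ge_atTop (7 * κ)] with t hN t0 t9 tκ m n F i j m1 m2 F0 hmn hn hF hi hj c1 c2 c3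
  obtain ⟨p1, p2, p3, p4, p5⟩ := md_par hκ t9 tκ m1 m2
  have hd : F.natDegree ≤ m + 1 := by
    have a1 : (X ^ m : k[X]) ∈ mon k m := mem_mon.2 ⟨monic_X_pow m, natDegree_X_pow m⟩
    have a2 := natDegree_add_le (F - X ^ m) (X ^ m)
    rw [sub_add_cancel, (mem_mon.1 (hF _ a1)).2, natDegree_X_pow] at a2
    exact a2.trans (max_le hn (Nat.le_succ m))
  have ha := fun a : k[X] => (md_al (t ^ 7) a).trans (md_rho _ a).2
  have e1 := Nat.add_sub_cancel' hi
  have e2 := Nat.add_sub_cancel' hj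
  refine md_fin two_le_qq (lt_of_lt_of_le (by norm_num) (t9.trans p1)) hn p2 p4 p5 (hN m m2)
    ((md_B (t ^ 7) hF hi hj).trans (bad_le (le_trans (by norm_num) (t9.trans p2))
      ⟨F0, hd, hmn.trans e1.ge, e1.le.trans hn, e2.ge, e2.le.trans (Nat.le_succ m)⟩))
    (md_C (t ^ 7) t i j hF hmn) (md_F fun r hr s hs => ?_) (md_E (t ^ 7) i j)
    (div_nonneg (sum_nonneg fun _ _ => mul_nonneg (brun_nonneg _ _ _) (brun_nonneg _ _ _))
      (pow_nonneg (zero_le_two.trans two_le_qq) _)) (vv_le (t ^ 7) t hmn hn hF)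
  obtain ⟨r1, r2, r3, r4⟩ := bset_spec hr
  obtain ⟨s1, s2, s3, s4⟩ := bset_spec hs
  exact hQ m (t0.trans p1) (t ^ 7) F i j _ _ r s F0 hd c1 c2 c3 r1 s1 r2 s2 (r3.trans p3)
    (s3.trans p3) r4 s4 ha ha (fun _ => md_ne) fun _ => md_ne


end
end Pool.Agent.HGB
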