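import Pool.Agent.MP_b5e119_nt.GB.TCrt

set_option autoImplicit false

open Polynomial Finset Filter
open scoped Classical BigOperators

noncomputable section
namespace Pool.Agent.HGB
open Pool.Agent.MP_a4a062_nt.C2

section
variable {k : Type*} [Field k] [Fintype k]

theorem pair_sum {P : k[X]} (hP : P.Monic) (n : ℕ) (G : k[X] → ℝ) :
    ∑ A ∈ mon k (n + P.natDegree), (if P ∣ A then G A else 0) = ∑ a ∈ mon k n, G (a * P) := by
  rw [← sum_filter]
  refine (sum_bij (fun a _ => a * P) (fun a ha => ?_) (fun a _ b _ h => ?_) (fun A hA => ?_)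
    fun _ _ => rfl).symm
  · obtain ⟨h1, h2⟩ := mem_mon.1 ha
    exact mem_filter.2 ⟨mem_mon.2 ⟨h1.mul hP, by rw [h1.natDegree_mul hP, h2]⟩, dvd_mul_left _ _⟩
  · exact mul_right_cancel₀ hP.ne_zero h
  · obtain ⟨h1, a, rfl⟩ := mem_filter.1 hA
    obtain ⟨h2, h3⟩ := mem_mon.1 h1
    have h4 := hP.of_mul_monic_left h2
    rw [hP.natDegree_mul h4] at h3
    exact ⟨a, mem_mon.2 ⟨h4, by omega⟩, mul_comm _ _⟩

theorem pair_cn {g : k[X]} (hg : g.Monic) (F A C : k[X]) (m : ℕ) :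
    cn (F * g) (m + g.natDegree) (A * g) (C * g) = cn F m A C := by
  unfold cn
  rw [← sum_boole, ← sum_boole]
  have e : ∀ x : k[X], (if A * g ∣ F * g - x ∧ C * g ∣ x then (1 : ℝ) else 0)
      = if g ∣ x then (if A * g ∣ F * g - x ∧ C * g ∣ x then (1 : ℝ) else 0) else 0 := fun x => by
    by_cases h : g ∣ x
    · rw [if_pos h]
    · rw [if_neg h, if_neg fun h' => h ((dvd_mul_left g C).trans h'.2)]
  rw [sum_congr rfl fun x _ => e x, pair_sum hg]
  refine sum_congr rfl fun x _ => ?_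
  simp only [← sub_mul, mul_dvd_mul_iff_right hg.ne_zero]

theorem pair_zero {g F : k[X]} (h : ¬ g ∣ F) (A C : k[X]) (m : ℕ) :
    cn F m (A * g) (C * g) = 0 := by
  unfold cn
  rw [Nat.cast_eq_zero, card_eq_zero, filter_eq_empty_iff]
  rintro x - ⟨h1, h2⟩
  have := dvd_add ((dvd_mul_left g A).trans h1) ((dvd_mul_left g C).trans h2)
  rw [sub_add_cancel] at this
  exact h this

omit [Fintype k] in
theorem pair_cop {z : ℕ} {a r : k[X]} (ha : Rough z a) (hr : r ≠ 0)
    (h : ∀ p : k[X], Irreducible p → p ∣ r → p.natDegree ≤ z) : IsCoprime a r :=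
  isCoprime_of_irreducible_dvd (fun h' => hr h'.2) fun p hp h1 h2 =>
    absurd (ha p hp h1) (not_lt.2 (h p hp h2))

theorem pair_le (h : HIV k) : ∃ κ : ℕ, 0 < κ ∧ ∀ᶠ m in atTop,
    ∀ (z : ℕ) (F : k[X]) (i j : ℕ) (α β : k[X] → ℝ) (r s : k[X]),
    F ≠ 0 → F.natDegree ≤ m + 1 → i ≤ j + m / κ → j ≤ i + m / κ → i + j ≤ m + m / κ →
    r.Monic → s.Monic → Squarefree r → Squarefree s → r.natDegree ≤ m / κ → s.natDegree ≤ m / κ →
    (∀ p : k[X], Irreducible p → p ∣ r → p.natDegree ≤ z) →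
    (∀ p : k[X], Irreducible p → p ∣ s → p.natDegree ≤ z) →
    (∀ a, |α a| ≤ 1) → (∀ c, |β c| ≤ 1) →
    (∀ a, α a ≠ 0 → Rough z a ∧ Squarefree a) → (∀ c, β c ≠ 0 → Rough z c ∧ Squarefree c) →
    |∑ a ∈ mon k i, ∑ c ∈ mon k j, if IsCoprime a c then
        α a * β c * (cn F m (a * r) (c * s) - cn F m r s / qq k ^ (i + j)) else 0|
      ≤ qq k ^ (m - m / κ) := by
  obtain ⟨κ, hκ, H⟩ := h
  obtain ⟨m₀, H⟩ := eventually_atTop.1 H
  refine ⟨5 * κ, by omega, eventually_atTop.2 ⟨2 * m₀, fun m hm z F i j α β r s F0 Fd h1 h2 h3 r1 s1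
    r2 s2 r3 s3 r4 s4 hα hβ hα' hβ' => ?_⟩⟩
  have q2 := two_le_qq (k := k)
  obtain ⟨g, r', s', g1, rfl, rfl, cop⟩ : ∃ g r' s' : k[X], g.Monic ∧ r = r' * g ∧ s = s' * g ∧
      IsCoprime r' s' := by
    obtain ⟨r', s', e1, e2, hu⟩ := extract_gcd r s
    have g0 : gcd r s ≠ 0 := fun h0 => r1.ne_zero ((gcd_eq_zero_iff r s).1 h0).1
    refine ⟨gcd r s, r', s', ?_, e1.trans (mul_comm _ _), e2.trans (mul_comm _ _),
      (gcd_isUnit_iff r' s').1 hu⟩
    rw [← _root_.normalize_gcd r s]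
    exact monic_normalize g0
  have r5 := g1.of_mul_monic_right r1
  have s5 := g1.of_mul_monic_right s1
  by_cases hg : g ∣ F
  swap
  · simp only [← mul_assoc, pair_zero hg, zero_div, sub_zero, mul_zero, ite_self, sum_const_zero,
      abs_zero]
    positivity
  obtain ⟨F', rfl⟩ := hg
  rw [mul_comm g F'] at *
  have F1 : F' ≠ 0 := left_ne_zero_of_mul F0
  rw [natDegree_mul F1 g1.ne_zero] at Fd
  rw [r5.natDegree_mul g1] at r3
  rw [s5.natDegree_mul g1] at s3
  have w1 : m / (5 * κ) * (5 * κ) ≤ m := Nat.div_mul_le_self _ _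
  generalize m / (5 * κ) = w at *
  have w2 : w ≤ w * κ := Nat.le_mul_of_pos_right _ hκ
  have w3 : w * (5 * κ) = 5 * (w * κ) := by ring
  obtain ⟨m', rfl⟩ : ∃ m', m = m' + g.natDegree := ⟨m - g.natDegree, by omega⟩
  have w4 : 4 * w ≤ m' / κ := (Nat.le_div_iff_mul_le hκ).2 (by rw [mul_assoc]; omega)
  have key := H m' (by omega) F' (i + r'.natDegree) (j + s'.natDegree)
    (fun A => if r' ∣ A then α (A /ₘ r') else 0) (fun C => if s' ∣ C then β (C /ₘ s') else 0) F1
    (by omega) (by omega) (by omega) (by omega)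
    (fun A => by split_ifs; exacts [hα _, by simp]) (fun A => by split_ifs; exacts [hβ _, by simp])
  refine le_trans (le_of_eq (congrArg _ ?_))
    (key.trans (pow_le_pow_right₀ (by linarith) (by omega)))
  have e1 : ∀ (p : Prop) [Decidable p] (A C : k[X]) (y : ℝ),
      (if p then (if r' ∣ A then α (A /ₘ r') else 0) * (if s' ∣ C then β (C /ₘ s') else 0) * y
        else 0) = if s' ∣ C then (if r' ∣ A then
          (if p then α (A /ₘ r') * β (C /ₘ s') * y else 0) else 0) else 0 := by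
    intro p _ A C y
    split_ifs <;> simp
  simp only [e1]
  simp only [pair_sum s5]
  rw [sum_comm (s := mon k (i + r'.natDegree))]
  simp only [pair_sum r5]
  rw [sum_comm]
  refine sum_congr rfl fun c _ => sum_congr rfl fun a _ => ?_
  rw [mul_comm a r', mul_comm c s', mul_divByMonic_cancel_left _ r5,
    mul_divByMonic_cancel_left _ s5, ← mul_assoc a, ← mul_assoc c, pair_cn g1, pair_cn g1,
    cn_cop F' r5 s5 cop (by omega), mul_comm r' a, mul_comm s' c, div_div, ← pow_add,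
    show r'.natDegree + s'.natDegree + (i + j) = i + r'.natDegree + (j + s'.natDegree) by ring]
  by_cases a0 : α a = 0
  · simp [a0]
  by_cases c0 : β c = 0
  · simp [c0]
  obtain ⟨a1, a2⟩ := hα' a a0
  obtain ⟨c1, c2⟩ := hβ' c c0
  have r6 : ∀ p : k[X], Irreducible p → p ∣ r' → p.natDegree ≤ z := fun p hp hd =>
    r4 p hp (hd.mul_right _)
  have s6 : ∀ p : k[X], Irreducible p → p ∣ s' → p.natDegree ≤ z := fun p hp hd =>
    s4 p hp (hd.mul_right _)
  have ar := pair_cop a1 r5.ne_zero r6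
  have as := pair_cop a1 s5.ne_zero s6
  have cr := pair_cop c1 r5.ne_zero r6
  have cs := pair_cop c1 s5.ne_zero s6
  refine if_congr ⟨fun h => ⟨(h.mul_right as).mul_left (cr.symm.mul_right cop),
    squarefree_mul_iff.2 ⟨ar.isRelPrime, a2, r2.of_mul_left⟩,
    squarefree_mul_iff.2 ⟨cs.isRelPrime, c2, s2.of_mul_left⟩⟩,
    fun h => h.1.of_mul_left_left.of_mul_right_left⟩ rfl rfl

end


end Pool.Agent.HGB
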