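import Pool.Agent.MP_a4a062_nt.C2.P1

/-! Hankel and lattice lemmas, additive large sieve in characteristic two. -/

section
open Polynomial Finset
open scoped Classical
namespace H64W

variable {k : Type*} [Field k]

theorem hk_finrank (N : ℕ) : Module.finrank k (degreeLT k N) = N := by
  rw [(degreeLTEquiv k N).finrank_eq]; simp

theorem hk_card_box [Fintype k] (B : Finset k[X]) (N : ℕ) (hB : ∀ f, f ∈ B ↔ f.degree < N) :
    B.card = Fintype.card k ^ N := by
  have fV : FiniteDimensional k (degreeLT k N) := (degreeLTEquiv k N).symm.finiteDimensional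
  have c1 : Nat.card (degreeLT k N) = Fintype.card k ^ N := by
    rw [Module.natCard_eq_pow_finrank (K := k), Nat.card_eq_fintype_card, hk_finrank]
  rw [← c1, ← Nat.card_eq_finsetCard]
  exact Nat.card_congr (Equiv.subtypeEquivRight fun f => (hB f).trans mem_degreeLT.symm)

/-- a subspace of the box of codimension `< d` meets `u * box d` -/
theorem hk_meet (K : Submodule k k[X]) (N d : ℕ) (hK : K ≤ degreeLT k N)
    (hd : N < Module.finrank k K + d) (u : k[X]) (u0 : u ≠ 0) (hu : u.natDegree + d ≤ N) :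
    ∃ r : k[X], r ≠ 0 ∧ r.natDegree < d ∧ u * r ∈ K := by
  have fV : ∀ n, FiniteDimensional k (degreeLT k n) := fun n =>
    (degreeLTEquiv k n).symm.finiteDimensional
  have inj : Function.Injective (LinearMap.mulLeft k u) := fun a b h => mul_left_cancel₀ u0 h
  let W := (degreeLT k d).map (LinearMap.mulLeft k u)
  have dW : Module.finrank k W = d := by
    rw [← (Submodule.equivMapOfInjective _ inj _).finrank_eq, hk_finrank]
  have hW : W ≤ degreeLT k N := by
    rintro _ ⟨r, hr, rfl⟩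
    by_cases r0 : r = 0
    · simp [r0]
    have h1 := (natDegree_lt_iff_degree_lt r0).2 (mem_degreeLT.1 hr)
    refine mem_degreeLT.2 ((natDegree_lt_iff_degree_lt (mul_ne_zero u0 r0)).1 ?_)
    rw [natDegree_mul u0 r0]
    omega
  have fK : FiniteDimensional k K := Submodule.finiteDimensional_of_le hK
  have fW : FiniteDimensional k W := Submodule.finiteDimensional_of_le hW
  have h1 := Submodule.finrank_sup_add_finrank_inf_eq K W
  have h2 := Submodule.finrank_mono (sup_le hK hW)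
  rw [hk_finrank] at h2
  have h3 : K ⊓ W ≠ ⊥ := fun e => by
    rw [e, finrank_bot] at h1
    omega
  obtain ⟨x, ⟨x1, r, hr, rfl⟩, x0⟩ := Submodule.exists_mem_ne_zero_of_ne_bot h3
  have r0 : r ≠ 0 := fun e => x0 (by simp [e])
  exact ⟨r, r0, (natDegree_lt_iff_degree_lt r0).2 (mem_degreeLT.1 hr), x1⟩

/-- HANKEL, subspace form -/
theorem hank_sub (θ : k[X] →ₗ[k] k) (K : Submodule k k[X]) (N len d : ℕ) (hK : K ≤ degreeLT k N)
    (hθ : ∀ E ∈ K, ∀ s : k[X], s.natDegree < len → θ (E * s) = 0)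
    (hd : N < Module.finrank k K + d) (h1 : d ≤ len) (h2 : d ≤ N) :
    ∃ e : k[X], e.Monic ∧ e.natDegree < d ∧
      ∀ y : k[X], y.natDegree + e.natDegree + d < N + len → θ (e * y) = 0 := by
  obtain ⟨r, r0, r1, r2⟩ := hk_meet K N d hK hd 1 one_ne_zero (by simpa using h2)
  rw [one_mul] at r2
  have e1 : (r * C r.leadingCoeff⁻¹).Monic := monic_mul_leadingCoeff_inv r0
  have e2 : (r * C r.leadingCoeff⁻¹).natDegree = r.natDegree :=
    natDegree_mul_leadingCoeff_self_inv r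
  have e3 : r * C r.leadingCoeff⁻¹ ∈ K := by
    rw [mul_comm, ← smul_eq_C_mul]; exact K.smul_mem _ r2
  generalize r * C r.leadingCoeff⁻¹ = e at e1 e2 e3
  refine ⟨e, e1, by omega, ?_⟩
  have low : ∀ (n : ℕ), (∀ i < n, θ (e * X ^ i) = 0) → ∀ y : k[X], y.degree < n → θ (e * y) = 0 := by
    intro n hn y hy
    by_cases y0 : y = 0
    · simp [y0]
    rw [y.as_sum_support, Finset.mul_sum, map_sum]
    refine Finset.sum_eq_zero fun i hi => ?_
    rw [← C_mul_X_pow_eq_monomial, ← smul_eq_C_mul, mul_smul_comm, map_smul, hn i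
      (lt_of_le_of_lt (le_natDegree_of_mem_supp _ hi) ((natDegree_lt_iff_degree_lt y0).2 hy)),
      smul_zero]
  have key : ∀ i, i + e.natDegree + d < N + len → θ (e * X ^ i) = 0 := by
    intro i
    induction i using Nat.strong_induction_on with
    | _ i ih =>
      intro hi
      rcases lt_or_ge i len with h | h
      · exact hθ e e3 _ (by rwa [natDegree_X_pow])
      have u0 : e * X ^ (i + 1 - len) ≠ 0 := mul_ne_zero e1.ne_zero (pow_ne_zero _ X_ne_zero)
      obtain ⟨s, s0, s1, s2⟩ := hk_meet K N d hK hd _ u0 (by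
        rw [natDegree_mul e1.ne_zero (pow_ne_zero _ X_ne_zero), natDegree_X_pow]; omega)
      have h3 := hθ _ s2 (X ^ (len - 1 - s.natDegree)) (by rw [natDegree_X_pow]; omega)
      have h4 : e * X ^ (i + 1 - len) * s * X ^ (len - 1 - s.natDegree)
          = e * (s.eraseLead * X ^ (i - s.natDegree)) + s.leadingCoeff • (e * X ^ i) := by
        have a1 : (X : k[X]) ^ (i - s.natDegree) = X ^ (i + 1 - len) * X ^ (len - 1 - s.natDegree) := by
          rw [← pow_add]; congr 1; omega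
        have a2 : (X : k[X]) ^ i = X ^ s.natDegree * X ^ (i - s.natDegree) := by
          rw [← pow_add]; congr 1; omega
        rw [smul_eq_C_mul, a2, a1]
        linear_combination (-(e * X ^ (i + 1 - len) * X ^ (len - 1 - s.natDegree))) *
          eraseLead_add_C_mul_X_pow s
      have h5 : θ (e * (s.eraseLead * X ^ (i - s.natDegree))) = 0 := by
        refine low i (fun j hj => ih j hj (by omega)) _ ?_
        by_cases z : s.eraseLead = 0
        · rw [z, zero_mul, degree_zero]; exact WithBot.bot_lt_coe _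
        have a1 := natDegree_lt_natDegree z (degree_eraseLead_lt s0)
        rw [← natDegree_lt_iff_degree_lt (mul_ne_zero z (pow_ne_zero _ X_ne_zero)),
          natDegree_mul z (pow_ne_zero _ X_ne_zero), natDegree_X_pow]
        omega
      rw [h4, map_add, h5, zero_add, map_smul, smul_eq_mul] at h3
      exact (mul_eq_zero.1 h3).resolve_left (leadingCoeff_ne_zero.2 s0)
  intro y hy
  refine low (y.natDegree + 1) (fun i hi => key i (by omega)) y ?_
  exact lt_of_le_of_lt degree_le_natDegree (by exact_mod_cast Nat.lt_succ_self _)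

/-- HANKEL, counting form: many `E` of degree `< N` with `θ (E * box len) = 0` -/
theorem hank [Fintype k] (θ : k[X] →ₗ[k] k) (N len d : ℕ) (S : Finset k[X])
    (hS : ∀ E ∈ S, E.degree < N ∧ ∀ s : k[X], s.degree < len → θ (E * s) = 0)
    (hc : Fintype.card k ^ (N - d) < S.card) (h1 : d ≤ len) (h2 : d ≤ N) :
    ∃ e : k[X], e.Monic ∧ e.natDegree < d ∧
      ∀ y : k[X], y.natDegree + e.natDegree + d < N + len → θ (e * y) = 0 := by
  let K : Submodule k k[X] :=
    { carrier := {E | E ∈ degreeLT k N ∧ ∀ s : k[X], s.natDegree < len → θ (E * s) = 0}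
      add_mem' := fun ha hb => ⟨add_mem ha.1 hb.1, fun s hs => by
        rw [add_mul, map_add, ha.2 s hs, hb.2 s hs, add_zero]⟩
      zero_mem' := ⟨zero_mem _, fun s _ => by simp⟩
      smul_mem' := fun c E hE => ⟨Submodule.smul_mem _ c hE.1, fun s hs => by
        rw [smul_mul_assoc, map_smul, hE.2 s hs, smul_zero]⟩ }
  have hK : K ≤ degreeLT k N := fun E hE => hE.1
  have fV : FiniteDimensional k (degreeLT k N) := (degreeLTEquiv k N).symm.finiteDimensional
  have fK : FiniteDimensional k K := Submodule.finiteDimensional_of_le hK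
  have fin : Finite K := Module.finite_of_finite k
  refine hank_sub θ K N len d hK (fun E hE => hE.2) ?_ h1 h2
  have c1 : S.card ≤ Nat.card K := by
    rw [← Nat.card_eq_finsetCard]
    refine Nat.card_le_card_of_injective (fun E => ⟨E.1, mem_degreeLT.2 (hS _ E.2).1, fun s hs =>
      (hS _ E.2).2 s (lt_of_le_of_lt degree_le_natDegree (by exact_mod_cast hs))⟩) ?_
    intro a b e
    exact Subtype.ext (congrArg (fun x : K => x.1) e)
  rw [Module.natCard_eq_pow_finrank (K := k), Nat.card_eq_fintype_card] at c1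
  have := (Nat.pow_lt_pow_iff_right Fintype.one_lt_card).1 (lt_of_lt_of_le hc c1)
  omega

/-- LATTICE: monic pairs `(b, g)` of fixed degrees on a congruence `d ∣ b u + g v` -/
theorem latt [Fintype k] (d u v : k[X]) (d0 : d ≠ 0) (be ka : ℕ) (S : Finset (k[X] × k[X]))
    (hS : ∀ x ∈ S, x.1.Monic ∧ x.1.natDegree = be ∧ x.2.Monic ∧ x.2.natDegree = ka ∧
      IsCoprime x.1 x.2 ∧ d ∣ x.1 * u + x.2 * v) :
    S.card ≤ Fintype.card k ^ (be + ka + (gcd d v).natDegree - d.natDegree) := by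
  rcases S.eq_empty_or_nonempty with rfl | ⟨x0, h0⟩
  · simp
  obtain ⟨a1, a2, a3, a4, a5, a6⟩ := hS x0 h0
  have g0 : gcd d v ≠ 0 := fun e => d0 ((gcd_eq_zero_iff _ _).1 e).1
  obtain ⟨d', v', hd, hv, hc⟩ := extract_gcd d v
  have d'0 : d' ≠ 0 := fun e => d0 (by rw [hd, e, mul_zero])
  have dd : d.natDegree = (gcd d v).natDegree + d'.natDegree := by
    conv_lhs => rw [hd]
    exact natDegree_mul g0 d'0
  have hc' : IsCoprime d' v' := (gcd_isUnit_iff _ _).1 hc
  have mm : ∀ {p q : k[X]}, p.Monic → q.Monic → p.natDegree = q.natDegree →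
      (p - q).degree < p.natDegree := fun {p q} hp hq e => by
    rw [← degree_eq_natDegree hp.ne_zero]
    exact degree_sub_lt_left (by rw [degree_eq_natDegree hp.ne_zero, degree_eq_natDegree hq.ne_zero, e])
      hp.ne_zero (by rw [hp.leadingCoeff, hq.leadingCoeff])
  have hdv : ∀ x ∈ S, ∃ t, x0.2 * x.1 - x.2 * x0.1 = d' * t := by
    intro x hx
    have h1 : d ∣ v * (x0.2 * x.1 - x.2 * x0.1) := by
      have := dvd_sub (a6.mul_left x.1) ((hS x hx).2.2.2.2.2.mul_left x0.1)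
      convert this using 1
      ring
    have h2 : gcd d v * d' ∣ gcd d v * (v' * (x0.2 * x.1 - x.2 * x0.1)) := by
      rw [← hd, ← mul_assoc, ← hv]; exact h1
    exact hc'.dvd_of_dvd_mul_left ((mul_dvd_mul_iff_left g0).1 h2)
  choose! t ht using hdv
  set n := be + ka + (gcd d v).natDegree - d.natDegree with hn
  have fin : (degreeLT k n : Set k[X]).Finite := by
    have : FiniteDimensional k (degreeLT k n) := (degreeLTEquiv k n).symm.finiteDimensional
    have : Finite (degreeLT k n) := Module.finite_of_finite k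
    exact Set.toFinite _
  rw [← hk_card_box fin.toFinset n fun f => by rw [Set.Finite.mem_toFinset]; exact mem_degreeLT]
  refine Finset.card_le_card_of_injOn t (fun x hx => ?_) fun x hx y hy e => ?_
  · obtain ⟨b1, b2, b3, b4, -, -⟩ := hS x hx
    rw [Finset.mem_coe, Set.Finite.mem_toFinset]
    refine mem_degreeLT.2 ?_
    by_cases t0 : t x = 0
    · rw [t0, degree_zero]; exact WithBot.bot_lt_coe _
    have h1 := mm (a3.mul b1) (b3.mul a1) (by
      rw [a3.natDegree_mul b1, b3.natDegree_mul a1]; omega)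
    rw [ht x hx, ← natDegree_lt_iff_degree_lt (mul_ne_zero d'0 t0), natDegree_mul d'0 t0,
      a3.natDegree_mul b1] at h1
    rw [← natDegree_lt_iff_degree_lt t0]
    omega
  · obtain ⟨b1, b2, b3, b4, -, -⟩ := hS x hx
    obtain ⟨c1, c2, c3, c4, -, -⟩ := hS y hy
    have h1 : x0.2 * (x.1 - y.1) = x0.1 * (x.2 - y.2) := by
      have := ht x hx
      rw [e, ← ht y hy] at this
      linear_combination this
    have h2 : x.1 - y.1 = 0 := by
      refine eq_zero_of_dvd_of_degree_lt (a5.dvd_of_dvd_mul_left ⟨_, h1⟩) ?_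
      rw [degree_eq_natDegree a1.ne_zero, a2, ← b2]
      exact mm b1 c1 (by omega)
    rw [h2, mul_zero] at h1
    exact Prod.ext (sub_eq_zero.1 h2)
      (sub_eq_zero.1 ((mul_eq_zero.1 h1.symm).resolve_left a1.ne_zero))

end H64W
end

set_option autoImplicit false

open Polynomial Finset Filter
open scoped Classical BigOperators

noncomputable section
namespace Pool.Agent.MP_a4a062_nt.C2

variable {k : Type*} [Field k] [Fintype k]

/-- Reduced fractions `z.2 / z.1` with monic denominator of degree `D`. -/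
def lsFr (k : Type*) [Field k] [Fintype k] (D : ℕ) : Finset (k[X] × k[X]) :=
  {z ∈ mon k D ×ˢ box k D | IsCoprime z.1 z.2}

theorem ls_mem {D : ℕ} {z : k[X] × k[X]} : z ∈ lsFr k D ↔
    ((z.1.Monic ∧ z.1.natDegree = D) ∧ z.2.degree < D) ∧ IsCoprime z.1 z.2 := by
  simp only [lsFr, mem_filter, mem_product, mem_mon, mem_box]

theorem ls_qpos : 0 < qq k := lt_of_lt_of_le two_pos two_le_qq

theorem ls_psi0 : psi (0 : k) = 1 := if_pos ⟨0, by simp⟩

theorem ls_cnt {D δ : ℕ} {e : k[X]} (he : e ∈ mon k D) (h : D ≤ δ) :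
    ∑ d ∈ mon k δ, (if e ∣ d then (1 : ℝ) else 0) = qq k ^ δ / qq k ^ D := by
  rw [mem_mon] at he
  have h1 := exp_box_dvd (N := δ) he.1.ne_zero (he.2.le.trans h) (isCoprime_one_left (x := e))
    (X ^ δ)
  rw [box_exp, he.2] at h1
  simp only [one_mul] at h1
  have hq : 0 < qq k ^ δ := pow_pos ls_qpos _
  rw [box_sum_mon, (div_eq_iff hq.ne').1 h1]
  ring

theorem ls_inj {D N : ℕ} (hN : 2 * D ≤ N) :
    Set.InjOn (fun z : k[X] × k[X] => (z.2 * X ^ N) /ₘ z.1) (lsFr k D) := by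
  rintro ⟨r, a⟩ hz ⟨r', a'⟩ hz' h
  rw [mem_coe, ls_mem] at hz hz'
  obtain ⟨⟨⟨hm, hd⟩, _⟩, hc⟩ := hz
  obtain ⟨⟨⟨hm', hd'⟩, _⟩, hc'⟩ := hz'
  simp only at h hm hd hc hm' hd' hc'
  have e1 := modByMonic_add_div (a * X ^ N) r
  have e2 := modByMonic_add_div (a' * X ^ N) r'
  have l1 := degree_modByMonic_lt (a * X ^ N) hm
  have l2 := degree_modByMonic_lt (a' * X ^ N) hm'
  rw [h] at e1
  have e : (a * r' - a' * r) * X ^ N = ((a * X ^ N) %ₘ r) * r' - ((a' * X ^ N) %ₘ r') * r := by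
    linear_combination (-r') * e1 + r * e2
  have hb : ∀ w u v : k[X], v ≠ 0 → w.degree < u.degree → u.natDegree = D → v.natDegree = D →
      (w * v).degree < (N : WithBot ℕ) := by
    intro w u v hv hw hu hv'
    by_cases hw0 : w = 0
    · rw [hw0, zero_mul, degree_zero]; exact WithBot.bot_lt_coe _
    have := natDegree_lt_natDegree hw0 hw
    rw [← natDegree_lt_iff_degree_lt (mul_ne_zero hw0 hv), natDegree_mul hw0 hv]
    omega
  have hlt : degree ((a * r' - a' * r) * X ^ N) < (N : WithBot ℕ) := by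
    rw [e]
    exact (degree_sub_le _ _).trans_lt (max_lt (hb _ r _ hm'.ne_zero l1 hd hd')
      (hb _ r' _ hm.ne_zero l2 hd' hd))
  have h0 : a * r' - a' * r = 0 := by
    by_contra h0
    have h1 : (a * r' - a' * r) * X ^ N ≠ 0 := mul_ne_zero h0 (pow_ne_zero _ X_ne_zero)
    rw [← natDegree_lt_iff_degree_lt h1, natDegree_mul_X_pow N h0] at hlt
    omega
  have h1 : r ∣ r' := hc.dvd_of_dvd_mul_left ⟨a', by linear_combination h0⟩
  have h2 : r' = r := eq_of_monic_of_dvd_of_natDegree_le hm hm' h1 (by omega)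
  subst h2
  have h3 : a = a' := mul_right_cancel₀ hm.ne_zero (sub_eq_zero.1 h0)
  exact Prod.ext rfl h3

theorem ls_dig {D N : ℕ} {z : k[X] × k[X]} (hz : z ∈ lsFr k D) :
    (z.2 * X ^ N) /ₘ z.1 ∈ box k N := by
  obtain ⟨⟨⟨hm, hd⟩, hs⟩, _⟩ := ls_mem.1 hz
  rw [mem_box]
  by_cases h0 : (z.2 * X ^ N) /ₘ z.1 = 0
  · rw [h0, degree_zero]; exact WithBot.bot_lt_coe _
  have hs0 : z.2 ≠ 0 := fun h => h0 (by rw [h]; simp)
  rw [← natDegree_lt_iff_degree_lt h0]
  have h1 := (natDegree_lt_iff_degree_lt hs0).2 hs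
  have h2 : (z.2 * X ^ N).natDegree = z.2.natDegree + N := natDegree_mul_X_pow N hs0
  have h3 := natDegree_divByMonic (z.2 * X ^ N) hm
  have h4 : ¬ (z.2 * X ^ N).degree < z.1.degree := fun h =>
    h0 ((divByMonic_eq_zero_iff hm).2 h)
  have h5 : z.1.natDegree ≤ (z.2 * X ^ N).natDegree := natDegree_le_natDegree (not_lt.1 h4)
  omega

omit [Fintype k] in
theorem ls_tau {M B : k[X]} (hM : M.Monic) {N : ℕ} (hB : B.degree < N) (u : k[X]) :
    tau M (u * B) = tau (X ^ N) ((u * X ^ N) /ₘ M * B) := by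
  have hX : (X ^ N : k[X]).Monic := monic_X_pow N
  have e := modByMonic_add_div (u * X ^ N) M
  have l := degree_modByMonic_lt (u * X ^ N) hM
  rw [← tau_mul hM hX, ← tau_mul hX hM, mul_comm (X ^ N) M]
  have e2 : u * B * X ^ N = (u * X ^ N) /ₘ M * B * M + (u * X ^ N) %ₘ M * B := by
    linear_combination (-B) * e
  rw [e2, tau_add, tauh_top (P := (u * X ^ N) %ₘ M * B) (hM.mul hX), add_zero]
  by_cases h0 : (u * X ^ N) %ₘ M = 0
  · right; rw [h0, zero_mul]
  by_cases h1 : B = 0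
  · right; rw [h1, mul_zero]
  left
  have h2 := natDegree_lt_natDegree h0 l
  have h3 := (natDegree_lt_iff_degree_lt h1).2 hB
  rw [natDegree_mul h0 h1, hM.natDegree_mul hX, natDegree_X_pow]
  omega

/-- Every nonzero residue modulo `d` is a reduced fraction. -/
theorem ls_red {δ : ℕ} {d a : k[X]} (hd : d ∈ mon k δ) (ha : a ∈ box k δ) (h0 : a ≠ 0) :
    ∃ z : k[X] × k[X], z ∈ lsFr k z.1.natDegree ∧ z.1 ≠ 1 ∧ z.1 ∣ d ∧ z.2 * (d /ₘ z.1) = a := by
  rw [mem_mon] at hd
  rw [mem_box] at ha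
  obtain ⟨u, e, hu, he, hc⟩ := extract_gcd a d
  have hg : (gcd a d).Monic := by
    have := monic_normalize (p := gcd a d) (fun h => h0 ((gcd_eq_zero_iff _ _).1 h).1)
    rwa [_root_.normalize_gcd] at this
  have hem : e.Monic := hg.of_mul_monic_left (he ▸ hd.1)
  have hu0 : u ≠ 0 := fun h => h0 (by rw [hu, h, mul_zero])
  have h1 := (natDegree_lt_iff_degree_lt h0).2 ha
  have h2 : a.natDegree = (gcd a d).natDegree + u.natDegree := by
    conv_lhs => rw [hu]
    exact natDegree_mul hg.ne_zero hu0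
  have h3 : d.natDegree = (gcd a d).natDegree + e.natDegree := by
    conv_lhs => rw [he]
    exact hg.natDegree_mul hem
  refine ⟨(e, u), ls_mem.2 ⟨⟨⟨hem, rfl⟩, (natDegree_lt_iff_degree_lt hu0).1 (by simp only; omega)⟩,
    ((gcd_isUnit_iff _ _).1 hc).symm⟩, ?_, Dvd.intro_left _ he.symm, ?_⟩
  · intro h
    simp only at h
    rw [h, natDegree_one] at h3
    omega
  · have : d /ₘ e = gcd a d := by
      conv_lhs => rw [he, mul_comm]
      exact mul_divByMonic_cancel_left _ hem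
    simp only
    rw [this, mul_comm]
    exact hu.symm

variable [CharP k 2]

theorem ls_add (M a b : k[X]) : psi (tau M (a + b)) = psi (tau M a) * psi (tau M b) := by
  rw [tau_add, psi_add]

theorem ls_orth {M : k[X]} (hM : M.Monic) (a : k[X]) :
    ∑ v ∈ box k M.natDegree, psi (tau M (v * a)) = if M ∣ a then qq k ^ M.natDegree else 0 := by
  split_ifs with h
  · rw [sum_congr rfl (g := fun _ => (1 : ℝ)) fun v _ => by
      rw [tauh_dvd hM (h.mul_left v), ls_psi0], sum_const, nsmul_eq_mul, mul_one, card_box]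
  have hb : ∀ v, tau M (v * a) = tau M (v * (a %ₘ M)) := fun v =>
    tau_congr hM ⟨v * (a /ₘ M), by
      have := modByMonic_add_div a M
      linear_combination (-v) * this⟩
  simp only [hb]
  have hlt := degree_modByMonic_lt a hM
  have hb0 : a %ₘ M ≠ 0 := fun e => h ((modByMonic_eq_zero_iff_dvd hM).1 e)
  generalize a %ₘ M = b at hlt hb0 ⊢
  have h2 := natDegree_lt_natDegree hb0 hlt
  obtain ⟨c, hc⟩ := exists_psi_neg (k := k)
  set j := M.natDegree - 1 - b.natDegree with hj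
  have hv0 : (monomial j (c / b.leadingCoeff) : k[X]).degree < M.natDegree :=
    (degree_monomial_le j _).trans_lt (by exact_mod_cast (by omega : j < M.natDegree))
  have he : psi (tau M (monomial j (c / b.leadingCoeff) * b)) = -1 := by
    have hd : (monomial j (c / b.leadingCoeff) * b).natDegree ≤ j + b.natDegree :=
      natDegree_mul_le.trans (by have := natDegree_monomial_le (m := j) (c / b.leadingCoeff); omega)
    have e : M.natDegree - 1 = b.natDegree + j := by omega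
    rw [tau_of_lt hM (degree_lt_degree (by omega)), e, coeff_monomial_mul, coeff_natDegree,
      div_mul_cancel₀ _ (leadingCoeff_ne_zero.2 hb0), hc]
  have hs := box_sum_shift hv0 fun v => psi (tau M (v * b))
  simp only [add_mul, ls_add, he, ← sum_mul] at hs
  linarith

/-- Parseval modulo `M`. -/
theorem ls_pars {ι : Type*} {M : k[X]} (hM : M.Monic) (s : Finset ι) (x : ι → k[X]) (c : ι → ℝ)
    (hc : ∀ i ∈ s, |c i| ≤ 1) (P : ι → ι → Prop)
    (hP : ∀ i ∈ s, ∀ j ∈ s, c i ≠ 0 → c j ≠ 0 → M ∣ x i - x j → P i j) :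
    ∑ v ∈ box k M.natDegree, (∑ i ∈ s, c i * psi (tau M (v * x i))) ^ 2 ≤
      qq k ^ M.natDegree * #{p ∈ s ×ˢ s | P p.1 p.2} := by
  have hq : 0 < qq k ^ M.natDegree := pow_pos ls_qpos _
  have h1 : ∀ v : k[X], (∑ i ∈ s, c i * psi (tau M (v * x i))) ^ 2 =
      ∑ p ∈ s ×ˢ s, c p.1 * c p.2 * psi (tau M (v * (x p.1 - x p.2))) := by
    intro v
    rw [sq, sum_mul_sum, sum_product]
    refine sum_congr rfl fun i _ => sum_congr rfl fun j _ => ?_
    rw [CharTwo.sub_eq_add, mul_add, ls_add]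
    ring
  simp only [h1]
  rw [sum_comm, card_filter, Nat.cast_sum, mul_sum]
  refine sum_le_sum fun p hp => ?_
  rw [mem_product] at hp
  rw [← mul_sum, ls_orth hM]
  have h2 : c p.1 * c p.2 ≤ 1 := (le_abs_self _).trans (by
    rw [abs_mul]; exact mul_le_one₀ (hc _ hp.1) (abs_nonneg _) (hc _ hp.2))
  by_cases h3 : P p.1 p.2
  · rw [if_pos h3]
    split_ifs
    · push_cast; nlinarith
    · push_cast; nlinarith
  · rw [if_neg h3]
    split_ifs with h4
    · have : c p.1 * c p.2 = 0 := by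
        by_contra h5
        exact h3 (hP _ hp.1 _ hp.2 (left_ne_zero_of_mul h5) (right_ne_zero_of_mul h5) h4)
      rw [this]; simp
    · simp

/-- The additive large sieve. -/
theorem ls_sieve {ι : Type*} (s : Finset ι) (B : ι → k[X]) (w : ι → ℝ) {D N : ℕ} (hN : 2 * D ≤ N)
    (hB : ∀ i ∈ s, (B i).degree < N) (hw : ∀ i ∈ s, |w i| ≤ 1) :
    ∑ z ∈ lsFr k D, (∑ i ∈ s, w i * psi (tau z.1 (z.2 * B i))) ^ 2 ≤
      qq k ^ N * #{p ∈ s ×ˢ s | B p.1 = B p.2} := by
  have h0 := ls_pars (monic_X_pow N) s B w hw (fun i j => B i = B j) fun i hi j hj _ _ h => by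
    refine sub_eq_zero.1 (eq_zero_of_dvd_of_degree_lt h ?_)
    rw [degree_X_pow]
    exact (degree_sub_le _ _).trans_lt (max_lt (hB _ hi) (hB _ hj))
  rw [natDegree_X_pow] at h0
  refine le_trans (le_trans ?_ h0) (le_of_eq (by congr))
  have h1 : ∑ z ∈ lsFr k D, (∑ i ∈ s, w i * psi (tau z.1 (z.2 * B i))) ^ 2 =
      ∑ H ∈ (lsFr k D).image (fun z : k[X] × k[X] => (z.2 * X ^ N) /ₘ z.1),
        (∑ i ∈ s, w i * psi (tau (X ^ N) (H * B i))) ^ 2 := by
    rw [sum_image (ls_inj hN)]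
    refine sum_congr rfl fun z hz => ?_
    congr 1
    refine sum_congr rfl fun i hi => ?_
    rw [ls_tau (ls_mem.1 hz).1.1.1 (hB i hi)]
  rw [h1]
  refine sum_le_sum_of_subset_of_nonneg ?_ fun _ _ _ => sq_nonneg _
  intro H hH
  obtain ⟨z, hz, rfl⟩ := mem_image.1 hH
  exact ls_dig hz

/-- Fourier expansion of a congruence count. -/
theorem ls_four {ι κ : Type*} {δ : ℕ} {d : k[X]} (hd : d ∈ mon k δ) (I : Finset ι) (B : ι → k[X])
    (w : ι → ℝ) (J : Finset κ) (x : κ → k[X]) (θ : κ → ℝ) :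
    ∑ j ∈ J, θ j * (∑ i ∈ I, (if d ∣ B i - x j then w i else 0) - (∑ i ∈ I, w i) / qq k ^ δ) =
      (∑ a ∈ (box k δ).erase 0, (∑ i ∈ I, w i * psi (tau d (a * B i))) *
        ∑ j ∈ J, θ j * psi (tau d (a * x j))) / qq k ^ δ := by
  rw [mem_mon] at hd
  have hq : 0 < qq k ^ δ := pow_pos ls_qpos _
  have h0 : (0 : k[X]) ∈ box k δ := mem_box.2 (by simp)
  have h1 : ∀ y : k[X], (if d ∣ y then (1 : ℝ) else 0) - 1 / qq k ^ δ =
      (∑ a ∈ (box k δ).erase 0, psi (tau d (a * y))) / qq k ^ δ := by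
    intro y
    have h2 := ls_orth hd.1 y
    rw [hd.2, ← add_sum_erase _ _ h0, zero_mul, tauh_zero, ls_psi0] at h2
    rw [eq_div_iff hq.ne', eq_sub_of_add_eq' h2]
    split_ifs
    · field_simp
    · field_simp
      ring
  have h2 : ∀ j, ∑ i ∈ I, (if d ∣ B i - x j then w i else 0) - (∑ i ∈ I, w i) / qq k ^ δ =
      (∑ a ∈ (box k δ).erase 0, (∑ i ∈ I, w i * psi (tau d (a * B i))) *
        psi (tau d (a * x j))) / qq k ^ δ := by
    intro j
    have h3 : ∀ i, (if d ∣ B i - x j then w i else 0) - w i / qq k ^ δ =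
        (∑ a ∈ (box k δ).erase 0, w i * psi (tau d (a * B i)) * psi (tau d (a * x j))) /
          qq k ^ δ := by
      intro i
      have h4 := h1 (B i - x j)
      simp only [CharTwo.sub_eq_add (B i), mul_add, ls_add] at h4 ⊢
      simp only [mul_assoc]
      rw [← mul_sum, mul_div_assoc, ← h4]
      split_ifs <;> ring
    rw [sum_div, ← sum_sub_distrib]
    simp only [h3]
    rw [← sum_div, sum_comm]
    simp only [sum_mul]
  simp only [h2, ← mul_div_assoc]
  rw [← sum_div]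
  congr 1
  simp only [mul_sum (s := (box k δ).erase 0)]
  rw [sum_comm]
  refine sum_congr rfl fun a _ => ?_
  rw [mul_sum]
  exact sum_congr rfl fun j _ => by ring

/-- One conductor degree: Cauchy-Schwarz, the large sieve and Parseval. -/
theorem ls_one {ι κ : Type*} {δ m D : ℕ} (hD : D ≤ δ) (I : Finset ι) (B : ι → k[X]) (w : ι → ℝ)
    (hB : ∀ i ∈ I, (B i).degree < m) (hw : ∀ i ∈ I, |w i| ≤ 1)
    (Ds : Finset k[X]) (hDs : Ds ⊆ mon k δ) (J : Finset κ) (x : k[X] → κ → k[X])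
    (θ : k[X] → κ → ℝ) (hθ : ∀ d ∈ Ds, ∀ j ∈ J, |θ d j| ≤ 1) (rel : k[X] → κ → κ → Prop)
    (hrel : ∀ d ∈ Ds, ∀ e, e ∣ d → ∀ j ∈ J, ∀ j' ∈ J, θ d j ≠ 0 → θ d j' ≠ 0 →
      e ∣ x d j - x d j' → rel e j j') {E : ℝ} (hE0 : 0 ≤ E)
    (hE : qq k ^ max (2 * D) m * #{p ∈ I ×ˢ I | B p.1 = B p.2} *
      ∑ e ∈ mon k D with ∃ d ∈ Ds, e ∣ d, (#{p ∈ J ×ˢ J | rel e p.1 p.2} : ℝ) ≤ E ^ 2 * qq k ^ D) :
    ∑ d ∈ Ds, ∑ z ∈ lsFr k D, (if z.1 ∣ d then |∑ i ∈ I, w i * psi (tau z.1 (z.2 * B i))| *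
      |∑ j ∈ J, θ d j * psi (tau z.1 (z.2 * x d j))| else 0) ≤ E * qq k ^ δ := by
  have hq : ∀ n : ℕ, 0 < qq k ^ n := fun n => pow_pos ls_qpos _
  set S : k[X] × k[X] → ℝ := fun z => ∑ i ∈ I, w i * psi (tau z.1 (z.2 * B i)) with hS
  set T : k[X] → k[X] × k[X] → ℝ := fun d z => ∑ j ∈ J, θ d j * psi (tau z.1 (z.2 * x d j))
    with hT
  set N : ℝ := ((#{p ∈ I ×ˢ I | B p.1 = B p.2} : ℕ) : ℝ) with hN
  set R : k[X] → ℝ := fun e => ((#{p ∈ J ×ˢ J | rel e p.1 p.2} : ℕ) : ℝ) with hR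
  have hcnt : ∀ e ∈ mon k D, ∑ d ∈ Ds, (if e ∣ d then (1 : ℝ) else 0) ≤ qq k ^ δ / qq k ^ D :=
    fun e he => (sum_le_sum_of_subset_of_nonneg hDs fun _ _ _ => by positivity).trans
      (ls_cnt he hD).le
  have hA : ∑ p ∈ Ds ×ˢ lsFr k D, (if p.2.1 ∣ p.1 then |S p.2| else 0) ^ 2 ≤
      qq k ^ δ / qq k ^ D * (qq k ^ max (2 * D) m * N) := by
    have h1 := ls_sieve I B w (le_max_left (2 * D) m)
      (fun i hi => (hB i hi).trans_le (by exact_mod_cast le_max_right _ _)) hw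
    refine le_trans ?_ (mul_le_mul_of_nonneg_left h1 (by have := hq δ; have := hq D; positivity))
    rw [sum_product_right, mul_sum]
    refine sum_le_sum fun z hz => ?_
    refine le_trans (le_of_eq ?_)
      (mul_le_mul_of_nonneg_right (hcnt z.1 (mem_mon.2 (ls_mem.1 hz).1.1)) (sq_nonneg (S z)))
    rw [sum_mul]
    refine sum_congr rfl fun d _ => ?_
    split_ifs <;> simp [hS]
  have hB' : ∑ p ∈ Ds ×ˢ lsFr k D, (if p.2.1 ∣ p.1 then |T p.1 p.2| else 0) ^ 2 ≤
      qq k ^ δ / qq k ^ D * (qq k ^ D * ∑ e ∈ mon k D with ∃ d ∈ Ds, e ∣ d, R e) := by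
    calc _ ≤ ∑ p ∈ Ds ×ˢ (mon k D ×ˢ box k D), (if p.2.1 ∣ p.1 then |T p.1 p.2| else 0) ^ 2 :=
          sum_le_sum_of_subset_of_nonneg (product_subset_product_right (filter_subset _ _))
            fun _ _ _ => sq_nonneg _
      _ = ∑ e ∈ mon k D, ∑ d ∈ Ds, ∑ u ∈ box k D, (if e ∣ d then |T d (e, u)| else 0) ^ 2 := by
          rw [sum_product_right, sum_product]
          exact sum_congr rfl fun e _ => sum_comm
      _ ≤ ∑ e ∈ mon k D, qq k ^ δ / qq k ^ D * (qq k ^ D *
            if ∃ d ∈ Ds, e ∣ d then R e else 0) := by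
          refine sum_le_sum fun e he => ?_
          have hR0 : 0 ≤ qq k ^ D * if ∃ d ∈ Ds, e ∣ d then R e else 0 := by
            have := hq D
            simp only [hR]
            positivity
          refine le_trans ?_ (mul_le_mul_of_nonneg_right (hcnt e he) hR0)
          rw [sum_mul]
          refine sum_le_sum fun d hd => ?_
          by_cases h : e ∣ d
          · have h2 := ls_pars (mem_mon.1 he).1 J (x d) (θ d) (hθ d hd) (rel e) (hrel d hd e h)
            rw [(mem_mon.1 he).2] at h2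
            simp only [if_pos h, sq_abs, one_mul, if_pos (⟨d, hd, h⟩ : ∃ d ∈ Ds, e ∣ d)]
            exact h2
          · simp [h]
      _ = _ := by rw [← mul_sum, ← mul_sum, sum_filter]
  have hcs := sum_mul_sq_le_sq_mul_sq (Ds ×ˢ lsFr k D)
    (fun p => if p.2.1 ∣ p.1 then |S p.2| else 0) (fun p => if p.2.1 ∣ p.1 then |T p.1 p.2| else 0)
  have he : ∑ d ∈ Ds, ∑ z ∈ lsFr k D, (if z.1 ∣ d then |S z| * |T d z| else 0) =
      ∑ p ∈ Ds ×ˢ lsFr k D, (if p.2.1 ∣ p.1 then |S p.2| else 0) *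
        (if p.2.1 ∣ p.1 then |T p.1 p.2| else 0) := by
    rw [sum_product]
    refine sum_congr rfl fun d _ => sum_congr rfl fun z _ => ?_
    split_ifs <;> simp
  change ∑ d ∈ Ds, ∑ z ∈ lsFr k D, (if z.1 ∣ d then |S z| * |T d z| else 0) ≤ _
  rw [he]
  refine (le_abs_self _).trans (abs_le_of_sq_le_sq (hcs.trans ?_) (by have := hq δ; positivity))
  refine (mul_le_mul hA hB' (sum_nonneg fun _ _ => sq_nonneg _)
    (by have := hq δ; have := hq D; have := hq (max (2 * D) m); positivity)).trans ?_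
  have h3 : qq k ^ δ / qq k ^ D * (qq k ^ max (2 * D) m * N) *
      (qq k ^ δ / qq k ^ D * (qq k ^ D * ∑ e ∈ mon k D with ∃ d ∈ Ds, e ∣ d, R e)) =
      (qq k ^ δ) ^ 2 / qq k ^ D *
        (qq k ^ max (2 * D) m * N * ∑ e ∈ mon k D with ∃ d ∈ Ds, e ∣ d, R e) := by
    have := hq D
    field_simp
  rw [h3]
  refine (mul_le_mul_of_nonneg_left hE (by have := hq δ; have := hq D; positivity)).trans
    (le_of_eq ?_)
  have := hq D
  field_simp

/-- The bilinear level-of-distribution lemma. -/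
theorem ls_main {ι κ : Type*} {δ m c : ℕ} (I : Finset ι) (B : ι → k[X]) (w : ι → ℝ)
    (hB : ∀ i ∈ I, (B i).degree < m) (hw : ∀ i ∈ I, |w i| ≤ 1)
    (Ds : Finset k[X]) (hDs : Ds ⊆ mon k δ)
    (hvan : ∀ d ∈ Ds, ∀ e u : k[X], e.Monic → e ≠ 1 → e ∣ d → e.natDegree < c → IsCoprime e u →
      ∑ i ∈ I, w i * psi (tau e (u * B i)) = 0)
    (J : Finset κ) (x : k[X] → κ → k[X])
    (θ : k[X] → κ → ℝ) (hθ : ∀ d ∈ Ds, ∀ j ∈ J, |θ d j| ≤ 1) (rel : k[X] → κ → κ → Prop)
    (hrel : ∀ d ∈ Ds, ∀ e, e ∣ d → ∀ j ∈ J, ∀ j' ∈ J, θ d j ≠ 0 → θ d j' ≠ 0 →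
      e ∣ x d j - x d j' → rel e j j') {E : ℝ} (hE0 : 0 ≤ E)
    (hE : ∀ D, c ≤ D → D ≤ δ → qq k ^ max (2 * D) m * #{p ∈ I ×ˢ I | B p.1 = B p.2} *
      ∑ e ∈ mon k D with ∃ d ∈ Ds, e ∣ d, (#{p ∈ J ×ˢ J | rel e p.1 p.2} : ℝ) ≤ E ^ 2 * qq k ^ D) :
    |∑ d ∈ Ds, ∑ j ∈ J, θ d j *
      (∑ i ∈ I, (if d ∣ B i - x d j then w i else 0) - (∑ i ∈ I, w i) / qq k ^ δ)| ≤
      (δ + 1) * E := by
  have hq : 0 < qq k ^ δ := pow_pos ls_qpos _
  set V : k[X] → k[X] × k[X] → ℝ := fun d z => |∑ i ∈ I, w i * psi (tau z.1 (z.2 * B i))| *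
      |∑ j ∈ J, θ d j * psi (tau z.1 (z.2 * x d j))| with hV
  have hV0 : ∀ d z, 0 ≤ V d z := fun d z => by simp only [hV]; positivity
  have h1 : ∀ d ∈ Ds, |∑ j ∈ J, θ d j *
      (∑ i ∈ I, (if d ∣ B i - x d j then w i else 0) - (∑ i ∈ I, w i) / qq k ^ δ)| ≤
      (∑ D ∈ Icc c δ, ∑ z ∈ lsFr k D, if z.1 ∣ d then V d z else 0) / qq k ^ δ := by
    intro d hd
    have hdm := mem_mon.1 (hDs hd)
    rw [ls_four (hDs hd), abs_div, abs_of_pos hq]
    refine div_le_div_of_nonneg_right ((abs_sum_le_sum_abs _ _).trans ?_) hq.le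
    calc _ ≤ ∑ a ∈ (box k δ).erase 0, ∑ D ∈ Icc c δ, ∑ z ∈ lsFr k D,
          if z.2 * (d /ₘ z.1) = a then (if z.1 ∣ d then V d z else 0) else 0 := by
          refine sum_le_sum fun a ha => ?_
          obtain ⟨z, hz, hz1, hzd, hza⟩ := ls_red (hDs hd) (mem_erase.1 ha).2 (mem_erase.1 ha).1
          have hz' := ls_mem.1 hz
          have hq' : (d /ₘ z.1).Monic ∧ z.1 * (d /ₘ z.1) = d := by
            obtain ⟨g, rfl⟩ := hzd
            rw [mul_divByMonic_cancel_left _ hz'.1.1.1]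
            exact ⟨hz'.1.1.1.of_mul_monic_left hdm.1, rfl⟩
          have ht : ∀ y, tau d (a * y) = tau z.1 (z.2 * y) := fun y => by
            rw [← tau_mul hz'.1.1.1 hq'.1, hq'.2, ← hza]
            congr 1
            ring
          have hnn : ∀ D, 0 ≤ ∑ z ∈ lsFr k D,
              if z.2 * (d /ₘ z.1) = a then (if z.1 ∣ d then V d z else 0) else 0 :=
            fun D => sum_nonneg fun z _ => by have := hV0 d z; positivity
          simp only [ht]
          by_cases hc : z.1.natDegree < c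
          · rw [hvan d hd z.1 z.2 hz'.1.1.1 hz1 hzd hc hz'.2, zero_mul, abs_zero]
            exact sum_nonneg fun D _ => hnn D
          · have hm : z.1.natDegree ∈ Icc c δ :=
              mem_Icc.2 ⟨not_lt.1 hc, hdm.2 ▸ natDegree_le_of_dvd hzd hdm.1.ne_zero⟩
            refine le_trans ?_ (single_le_sum (fun D _ => hnn D) hm)
            refine le_trans (le_of_eq ?_) (single_le_sum (f := fun z : k[X] × k[X] =>
              if z.2 * (d /ₘ z.1) = a then (if z.1 ∣ d then V d z else 0) else 0)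
              (fun z _ => by have := hV0 d z; positivity) hz)
            simp only [if_pos hza, if_pos hzd, hV, abs_mul]
      _ ≤ _ := by
          rw [sum_comm]
          refine sum_le_sum fun D _ => ?_
          rw [sum_comm]
          refine sum_le_sum fun z _ => ?_
          rw [sum_ite_eq]
          have := hV0 d z
          split_ifs <;> first | rfl | positivity
  refine ((abs_sum_le_sum_abs _ _).trans (sum_le_sum h1)).trans ?_
  rw [← sum_div, sum_comm, div_le_iff₀ hq]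
  refine (sum_le_card_nsmul _ _ (E * qq k ^ δ) fun D hD => ls_one (mem_Icc.1 hD).2 I B w hB hw Ds
    hDs J x θ hθ rel hrel hE0 (hE D (mem_Icc.1 hD).1 (mem_Icc.1 hD).2)).trans ?_
  rw [Nat.card_Icc, nsmul_eq_mul, mul_assoc]
  refine mul_le_mul_of_nonneg_right ?_ (by positivity)
  exact_mod_cast Nat.sub_le _ _

omit [Fintype k] [CharP k 2] in
theorem ls_rel {d e y x x' b b' g g' : k[X]} (he : e ∣ d) (hy : IsCoprime e y)
    (h : d ∣ x ^ 2 * b - y * g) (h' : d ∣ x' ^ 2 * b' - y * g') (hx : e ∣ x - x') :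
    e ∣ g * b' - g' * b := by
  refine hy.dvd_of_dvd_mul_left ?_
  have e1 : y * (g * b' - g' * b) = (x - x') * ((x + x') * b * b') - (x ^ 2 * b - y * g) * b' +
      (x' ^ 2 * b' - y * g') * b := by ring
  rw [e1]
  exact ((hx.mul_right _).sub ((he.trans h).mul_right _)).add ((he.trans h').mul_right _)

omit [Fintype k] [CharP k 2] in
theorem ls_card {Δ : k[X]} (hΔ : Δ ≠ 0) (T : Finset k[X])
    (hT : ∀ p ∈ T, (p.Monic ∧ Irreducible p) ∧ p ∣ Δ) : #T ≤ Δ.natDegree := by
  have h1 : ∏ p ∈ T, p ∣ Δ := Finset.prod_dvd_of_coprime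
    (fun p hp r hr h => (hT p hp).1.2.coprime_iff_not_dvd.2 fun e =>
      h (eq_of_monic_of_associated (hT p hp).1.1 (hT r hr).1.1
        ((hT p hp).1.2.associated_of_dvd (hT r hr).1.2 e))) fun p hp => (hT p hp).2
  refine le_trans ?_ (natDegree_le_of_dvd h1 hΔ)
  rw [natDegree_prod_of_monic _ _ fun p hp => (hT p hp).1.1, card_eq_sum_ones]
  exact sum_le_sum fun p hp => (hT p hp).1.2.natDegree_pos

omit [CharP k 2] in
/-- The congruence count on the side of the pairs `(b, g)`. -/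
theorem ls_cong {β κ : ℕ} (J : Finset (k[X] × k[X])) (hJ : J ⊆ mon k β ×ˢ prs k κ)
    (Es : Finset k[X]) {τ : ℝ} (hτ0 : 0 ≤ τ)
    (hτ : ∀ N : k[X], N ≠ 0 → N.natDegree ≤ κ + β → (#{e ∈ Es | e ∣ N} : ℝ) ≤ τ) :
    ∑ e ∈ Es, (#{p ∈ J ×ˢ J | e ∣ p.1.2 * p.2.1 - p.2.2 * p.1.1} : ℝ) ≤
      #Es * ((κ + β) * qq k ^ (κ + β)) + τ * (qq k ^ (κ + β)) ^ 2 := by
  have hm : ∀ j ∈ J, (j.1.Monic ∧ j.1.natDegree = β) ∧ (j.2.Monic ∧ j.2.natDegree = κ) ∧
      Irreducible j.2 := fun j hj => by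
    have := mem_product.1 (hJ hj)
    exact ⟨mem_mon.1 this.1, mem_mon.1 (mem_filter.1 this.2).1, (mem_filter.1 this.2).2⟩
  have hq : ∀ n : ℕ, 0 < qq k ^ n := fun n => pow_pos ls_qpos _
  have hJc : (#J : ℝ) ≤ qq k ^ (κ + β) := by
    have h1 : #J ≤ #(mon k β) * #(mon k κ) := by
      rw [← card_product]
      exact card_le_card (hJ.trans (product_subset_product_right (filter_subset _ _)))
    rw [pow_add, ← card_mon, ← card_mon, mul_comm]
    exact_mod_cast h1
  have hdeg : ∀ j ∈ J, ∀ j' ∈ J, (j.2 * j'.1).natDegree = κ + β := fun j hj j' hj' => by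
    rw [(hm j hj).2.1.1.natDegree_mul (hm j' hj').1.1, (hm j hj).2.1.2, (hm j' hj').1.2]
  have hdiag : #{p ∈ J ×ˢ J | p.1.2 * p.2.1 - p.2.2 * p.1.1 = 0} ≤
      (κ + β) * #(mon k β ×ˢ mon k κ) := by
    refine card_le_mul_card_image_of_maps_to (f := fun p => (p.1.1, p.2.2)) ?_ _ ?_
    · intro p hp
      have := mem_product.1 (mem_filter.1 hp).1
      exact mem_product.2 ⟨mem_mon.2 (hm _ this.1).1, mem_mon.2 (hm _ this.2).2.1⟩
    · intro v hv
      have hv' := mem_product.1 hv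
      have h1 := mem_mon.1 hv'.1
      have h2 := mem_mon.1 hv'.2
      have h3 := ls_card (h2.1.mul h1.1).ne_zero {g ∈ prs k κ | g ∣ v.2 * v.1} fun g hg =>
        ⟨⟨(mem_mon.1 (mem_filter.1 (mem_filter.1 hg).1).1).1,
          (mem_filter.1 (mem_filter.1 hg).1).2⟩, (mem_filter.1 hg).2⟩
      rw [h2.1.natDegree_mul h1.1, h1.2, h2.2] at h3
      refine le_trans (card_le_card_of_injOn (fun p => p.1.2) ?_ ?_) h3
      · intro p hp
        simp only [coe_filter, mem_filter, Set.mem_ofPred_eq] at hp ⊢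
        obtain ⟨⟨h4, h5⟩, rfl⟩ := hp
        exact ⟨(mem_product.1 (hJ (mem_product.1 h4).1)).2, Dvd.intro _ (sub_eq_zero.1 h5)⟩
      · rintro ⟨⟨b, g⟩, b', g'⟩ hp ⟨⟨b₁, g₁⟩, b₁', g₁'⟩ hp' e
        simp only [coe_filter, mem_filter, Set.mem_ofPred_eq] at hp hp' e
        obtain ⟨⟨h4, h5⟩, rfl⟩ := hp
        obtain ⟨⟨_, h6⟩, h7⟩ := hp'
        obtain ⟨rfl, rfl⟩ := Prod.mk.inj h7
        subst e
        have h8 : g ≠ 0 := (hm _ (mem_product.1 h4).1).2.1.1.ne_zero
        have h9 : b' = b₁' := mul_left_cancel₀ h8 (by linear_combination h5 - h6)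
        rw [h9]
  have hdiag' : (#{p ∈ J ×ˢ J | p.1.2 * p.2.1 - p.2.2 * p.1.1 = 0} : ℝ) ≤
      (κ + β) * qq k ^ (κ + β) := by
    rw [pow_add, ← card_mon, ← card_mon, mul_comm (#(mon k κ) : ℝ)]
    rw [card_product] at hdiag
    exact_mod_cast hdiag
  simp only [card_filter, Nat.cast_sum]
  rw [sum_comm]
  calc _ ≤ ∑ p ∈ J ×ˢ J, (#Es * (if p.1.2 * p.2.1 - p.2.2 * p.1.1 = 0 then 1 else 0) + τ) := by
        refine sum_le_sum fun p hp => ?_
        rw [← Nat.cast_sum, ← card_filter]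
        have hp' := mem_product.1 hp
        split_ifs with h
        · have : (#{e ∈ Es | e ∣ p.1.2 * p.2.1 - p.2.2 * p.1.1} : ℝ) ≤ #Es := by
            exact_mod_cast card_filter_le _ _
          linarith
        · rw [mul_zero, zero_add]
          exact hτ _ h ((natDegree_sub_le _ _).trans
            (max_le (hdeg _ hp'.1 _ hp'.2).le (hdeg _ hp'.2 _ hp'.1).le))
    _ ≤ _ := by
        rw [sum_add_distrib, ← mul_sum, sum_const, nsmul_eq_mul, card_product, sum_boole]
        push_cast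
        have h1 : (#J : ℝ) * #J ≤ (qq k ^ (κ + β)) ^ 2 := by
          rw [sq]; exact mul_le_mul hJc hJc (by positivity) (hq _).le
        have h2 := mul_le_mul_of_nonneg_left hdiag' (by positivity : (0 : ℝ) ≤ #Es)
        nlinarith

end Pool.Agent.MP_a4a062_nt.C2
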